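import Pool.Agent.Lib.WD.Blue
import Pool.Agent.Lib.RQ.VOL
import Pool.Agent.Lib.CX.KTR2

/-! Block BKER: the kernel on the Bott manifold. -/

set_option linter.unusedSectionVars false

noncomputable section

open Set Function MeasureTheory BCO ContinuousLinearMap
open scoped Manifold ContDiff InnerProductSpace

namespace Pool.Agent.Lib.WD

open CX AN

namespace BKER

/-- the index of the zero operator on the line -/
theorem ix_one (G : Type) [Group G] : Ix (amp G (1 : ℝ →L[ℝ] ℝ)) 1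
    (BCH.cls (1 : Matrix (Fin 1) (Fin 1) (Cr G)) - BCH.cls (0 : Matrix (Fin 1) (Fin 1) (Cr G))) := by
  have h0 : ng (amp G (1 : ℝ →L[ℝ] ℝ)) = 0 := op_ext fun ξ x => by simp [ng]
  rw [Ix, h0, zero_add]
  let u : (ℝ × (Fin 1 → ℝ)) →L[ℝ] ℝ × (Fin 1 → ℝ) :=
    .inr ℝ ℝ _ ∘L .single ℝ (fun _ => ℝ) 0 ∘L .fst ℝ ℝ _
  let v : (ℝ × (Fin 1 → ℝ)) →L[ℝ] ℝ × (Fin 1 → ℝ) :=
    .inl ℝ ℝ _ ∘L .proj 0 ∘L .snd ℝ ℝ _
  refine ⟨1, 1, 0, mul_one _, mul_zero _, amp G u, amp_mem u, amp G v, amp_mem v,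
    op_ext fun ξ x => ?_, op_ext fun ξ x => ?_, ?_, rfl⟩
  · simp [u, v, blk]
  · simp [u, v, blk]
  · have : blk ((0 : V G ℝ →L[ℝ] V G ℝ) * 1) (0 : Matrix (Fin 1) (Fin 1) (Cr G)) = 0 := by
      simp [blk]
    rw [this, sub_zero]
    exact Submodule.le_topologicalClosure _ (Submodule.subset_span
      ⟨1, u, isCompactOperator_of_locallyCompactSpace_dom u, (tw_one u).symm⟩)

variable {F : Type} [NormedAddCommGroup F] [InnerProductSpace ℝ F] [CompleteSpace F]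

theorem tens : Tens (lsmul ℝ ℝ : ℝ →L[ℝ] F →L[ℝ] F) :=
  ⟨fun x y x' y' => by
    simp only [lsmul_apply, real_inner_smul_left, real_inner_smul_right, Real.inner_apply]
    ring, by
    have : Submodule.span ℝ {v | ∃ x y, v = (lsmul ℝ ℝ : ℝ →L[ℝ] F →L[ℝ] F) x y} = ⊤ :=
      eq_top_iff.2 fun y _ => Submodule.subset_span ⟨1, y, (one_smul ℝ y).symm⟩
    rw [this]
    exact dense_univ⟩

theorem lt_one : lt (lsmul ℝ ℝ : ℝ →L[ℝ] F →L[ℝ] F) 1 = 1 := ContinuousLinearMap.ext fun y => by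
  have := Classical.epsilon_spec (p := fun S : F →L[ℝ] F => ∀ x y,
    S ((lsmul ℝ ℝ : ℝ →L[ℝ] F →L[ℝ] F) x y) = lsmul ℝ ℝ ((1 : ℝ →L[ℝ] ℝ) x) y)
    ⟨1, fun _ _ => rfl⟩ 1 y
  change lt (lsmul ℝ ℝ : ℝ →L[ℝ] F →L[ℝ] F) 1 ((1 : ℝ) • y) = (1 : ℝ) • y at this
  rwa [one_smul] at this

theorem rt_eq (d : F →L[ℝ] F) : rt (lsmul ℝ ℝ : ℝ →L[ℝ] F →L[ℝ] F) d = d :=
  ContinuousLinearMap.ext fun y => by
    have := Classical.epsilon_spec (p := fun S : F →L[ℝ] F => ∀ y x,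
      S ((lsmul ℝ ℝ : ℝ →L[ℝ] F →L[ℝ] F).flip y x) = (lsmul ℝ ℝ : ℝ →L[ℝ] F →L[ℝ] F).flip (d y) x)
      ⟨d, fun y x => map_smul d x y⟩ y 1
    change rt (lsmul ℝ ℝ : ℝ →L[ℝ] F →L[ℝ] F) d ((1 : ℝ) • y) = (1 : ℝ) • d y at this
    rwa [one_smul, one_smul] at this

/-- over the trivial group the twisted resolvent is the resolvent -/
theorem tw_eq (hT : St_TWX) {n : ℕ} {A : Type} [Fintype A] (P : RQ.Pack Unit F n A)
    (h : ∀ a z, P.R (can P a z).1 = (can P a z).2) {R' : V Unit F →L[ℝ] V Unit F} (hR : Tw P R') :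
    R' = amp Unit P.R := by
  have e0 : ∀ a, ∑ g ∈ P.F, P.E a g = P.E a 1 := fun a =>
    Finset.sum_eq_single 1 (fun g _ hg => (hg rfl).elim) (P.E_off a 1)
  have e1 : ∀ a, P.E a 1 * P.ph a = P.ph a := fun a => by rw [← e0, P.ph_supp]
  have e2 : ∀ a, P.E a 1 * P.C a = P.C a := fun a => by
    rw [RQ.Pack.C, Finset.mul_sum]
    refine Finset.sum_congr rfl fun j _ => ?_
    rw [← mul_assoc, P.mul_gam _ (P.E_mem a 1), mul_assoc, ← e0, P.dph_supp]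
  refine ContinuousLinearMap.ext fun η => ?_
  have h1 := ((hT Unit F n A P).2.2.2 R' hR).1 η
  have h2 := Submodule.topologicalClosure_minimal _ (t := LinearMap.ker
    (amp Unit P.R ∘L .fst ℝ _ _ - .snd ℝ _ _ : V Unit F × V Unit F →L[ℝ] V Unit F).toLinearMap)
    (Submodule.span_le.2 ?_) (ContinuousLinearMap.isClosed_ker _) h1
  · exact (sub_eq_zero.1 h2).symm
  · rintro _ ⟨a, g, z, rfl⟩
    refine sub_eq_zero.2 (lp.ext (funext fun γ => ?_))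
    change P.R (sh P a g (can P a z).1 γ) = sh P a g (can P a z).2 γ
    rw [sh_apply, sh_apply, show γ * g⁻¹ = 1 from rfl]
    have k1 : P.E a 1 (can P a z).1 = (can P a z).1 := by
      change P.E a 1 (_ + _) = _ + _
      rw [map_add, ← mul_apply_eq_comp, ← mul_apply_eq_comp, e1, e2]
    have k2 : P.E a 1 (can P a z).2 = (can P a z).2 := by
      change P.E a 1 (P.ph a _) = P.ph a _
      rw [← mul_apply_eq_comp, e1]
    rw [k1, k2, h]

end BKER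

open BKER in
theorem stBKER (hT : St_TWX) (hZ : St_ZERO) (hGAP : St_GAP) (hX : St_PIX) (hG : St_GEO)
    (hL : St_LINK) (hP : St_PHIC) : St_BKER := by
  intro m N b S hS hN hb
  obtain ⟨ν, hν, -⟩ := RQ.stVOL Unit m b
  obtain ⟨r, hr⟩ := (hP Unit m).1 b
  obtain ⟨ht, φ, hφ⟩ := hr r le_rfl
  have hw := RQ.BRG.gr_of hS
  obtain ⟨⟨P, g, hR⟩, h2⟩ := hG Unit m N b S ν hν _ hw r φ hφ
  have hI := (hL Unit m N b S ν hν hS r φ hφ ht P g hR _).1 hb
  have L := stMUL b.X.M (Eu N) ν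
  have hc : CompactSpace b.X.M := ⟨by simpa [Set.eq_empty_of_isEmpty] using b.core_cpt⟩
  have hK := hGAP _ P.w P.R (mul (Eu N) ν fun _ => 1) 1 (pack_res P)
    (rel_holds _ _ b.X S ν hν inferInstance _ hw _ _ hR _ (L.mul_const 1).1
      (HasCompactSupport.of_compactSpace _)) one_pos fun k => by
      rw [(L.mul_const 1).2, one_smul, one_apply_eq_self]
      nlinarith [sq_nonneg ‖k - P.w (P.R k)‖]
  refine ⟨ν, hν, P.R, P.N, hR, ?_⟩
  generalize (_ - _ : ℤ) = k at hK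
  obtain ⟨R', hR', -⟩ := id hI
  have e := tw_eq hT P (fun a z => by
    have h3 := Submodule.topologicalClosure_minimal _ (t := LinearMap.ker
      (P.R ∘L .fst ℝ _ _ - .snd ℝ _ _ :
        Lp (Eu N) 2 ν × Lp (Eu N) 2 ν →L[ℝ] Lp (Eu N) 2 ν).toLinearMap)
      (Submodule.span_le.2 ?_) (ContinuousLinearMap.isClosed_ker _) ((h2 P g hR).2 a z)
    · exact sub_eq_zero.1 h3
    · rintro _ ⟨s, hs, -, rfl⟩
      exact sub_eq_zero.2 (hR.R_cl s hs)) hR'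
  have a1 : amp Unit (1 : ℝ →L[ℝ] ℝ) = 1 := op_ext fun _ _ => rfl
  have h4 := hX Unit ℝ _ _ _ tens 1 P.w P.R k (pack_res P) hK 1 (RA Unit ℝ).one_mem
    (a1 ▸ ⟨star_one _, mul_one _, star_one _, rfl, injective_id⟩) R' (fun η y => by
      rw [e]
      refine lp.ext (funext fun γ => ?_)
      change P.R (η γ • P.R y + η γ • (y - P.R y)) = η γ • P.R y
      rw [← smul_add, add_sub_cancel, map_smul]) _ (ix_one Unit)
  rw [lt_one, rt_eq, one_mul] at h4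
  obtain ⟨τ, hτ⟩ := stKTR2 Unit
  have h5 := congrArg τ ((hZ Unit _ _ _ P).1 _ _ ⟨R', hR', h4⟩ hI)
  rw [map_zsmul, map_sub, hτ 1 1 (mul_one _), hτ 1 0 (mul_zero _)] at h5
  simp [IT.tr] at h5
  exact h5 ▸ hK

end Pool.Agent.Lib.WD
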