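import Pool.Agent.Lib.WD.Blue

/-! Block BORD: the index is a bordism invariant. -/

noncomputable section

open Set Function MeasureTheory BCO ContinuousLinearMap
open scoped Manifold ContDiff InnerProductSpace

namespace Pool.Agent.Lib.WD

open CX AN
open ANA.Cyl (ht)
open ANA.CylB (pull pull_j pull_off)

namespace BORD

section

variable {α : Type} [MeasurableSpace α] {N : ℕ} {μ : Measure α} {f g : α → ℝ}

theorem bm_add (hf : Bm f) (hg : Bm g) : Bm fun y => f y + g y :=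
  ((stMUL α (Eu 0) 0).mul_add hf hg).1

theorem bm_div (hf : Bm f) : Bm fun y => f y / 4 := by
  simpa only [div_eq_mul_inv] using
    ((stMUL α (Eu 0) 0).mul_mul hf ((stMUL α (Eu 0) 0).mul_const 4⁻¹).1).1

theorem bm_ind {s : Set α} (hs : MeasurableSet s) : Bm (s.indicator (1 : α → ℝ)) :=
  ⟨measurable_one.indicator hs, 1, fun y => by by_cases h : y ∈ s <;> simp [h]⟩

theorem pos2 (hP : St_POS) (hf : Bm f) (hg : Bm g) {κ : ℝ} (h : ∀ y, κ ≤ f y + g y)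
    (u : Lp (Eu N) 2 μ) :
    κ * ‖u‖ ^ 2 ≤ ⟪mul (Eu N) μ f u, u⟫_ℝ + ⟪mul (Eu N) μ g u, u⟫_ℝ := by
  have l := stMUL α (Eu N) μ
  have := hP α N μ _ _ (l.mul_const κ).1 (bm_add hf hg) h u
  rwa [(l.mul_const κ).2, (l.mul_add hf hg).2, _root_.add_apply, inner_add_left,
    _root_.smul_apply, one_apply_eq_self, real_inner_smul_left, real_inner_self_eq_norm_sq] at this

end

variable {G : Type} [Group G] {m N₁ N : ℕ}

theorem side (hCal : St_CAL) (hP : St_POS) (hF : St_FLT) (hPT : St_PT) (hPr : St_PRD)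
    (hS : St_SCAL) (h2 : St_SD2) (D : CD G m N₁ N) (x : Sing G m) {ς : ℤ} {α : x.X.M → D.w.N.M}
    (emb : Emb x D.w ς α) {μ : Measure x.X.M} (hμ : x.X.IsVol μ) {φ : ℕ → x.X.M → ℝ}
    (phi : Phi x D.r φ)
    (compat : ∀ a p (t : Eu 1), ht x p ≤ 3 / 4 → D.R ≤ t 0 → D.φ a (D.w.j (α p, t)) = φ a p)
    {P : RQ.Pack G (Lp (Eu N₁) 2 μ) (m + 1) (Fin (D.r + 1))} (geo : Geo x D.S₁ D.e μ D.r φ P)
    (res : AN.Res x.X D.S₁ D.e μ P.R P.N) {z : BCH.K0 (Cr G)} (hz : PInd P z)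
    (hb : Bm fun t => D.F.φ (ς * tc t)) (hb' : Bm fun t => D.F.φ (ς * tc t) ^ 2 -
      |deriv D.F.φ (ς * tc t)|) {B Nn}
    (l1 : ResP LN D.S₂ D.d D.σ (fun t => D.F.φ (ς * tc t)) D.ν B Nn) (l2 : Res (cst D.ν D.d) B)
    (l3 : Ker B ς) (l4 : ∀ y, ⟪mul (Eu 2) D.ν (fun t => D.F.φ (ς * tc t) ^ 2 -
      |deriv D.F.φ (ς * tc t)|) (B y), B y⟫_ℝ ≤ ‖y - cst D.ν D.d (B y)‖ ^ 2)
    (l5 : ∀ χ : LN.M → ℝ, Bm χ → HasCompactSupport χ →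
      IsCompactOperator (mul (Eu 2) D.ν χ * B : Lp (Eu 2) 2 D.ν →L[ℝ] Lp (Eu 2) 2 D.ν))
    (hsc : ∀ p, -D.C ≤ x.X.scal p / 4 ∧ (0 < ht x p → 3 * D.κ ≤ x.X.scal p / 4)) :
    ∃ (s : SD D) (T : s.H →L[ℝ] s.H), LB s.Q T ∧
      (∀ v, D.κ * ‖v‖ ^ 2 ≤ ⟪T v, v⟫_ℝ + ⟪s.mu s.a v, v⟫_ℝ) ∧ PInd s.Q (ς • z) ∧ Bm s.aW ∧
      MeasurableSet (eψ x D.w ς α '' eO x ς) ∧
      s.pr = mul (Eu N) D.ρ ((eψ x D.w ς α '' eO x ς).indicator 1) ∧ ∀ p,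
      (p ∈ eψ x D.w ς α '' eO x ς → D.κ ≤ D.w.X.scal p / 4 + (D.F.φ (ht D.w p) ^ 2 -
        |deriv D.F.φ (ht D.w p)|) + s.aW p) ∧ (p ∉ eψ x D.w ς α '' eO x ς → s.aW p = 0) := by
  have sc := hF.cpl.sc
  obtain ⟨o1, o2⟩ := (hS G m).2.1 D.w x ς α emb
  have b1 := bm_div ((hS G m).1 x).1
  obtain ⟨T, Ω, U, pt, tr⟩ := hPT _ _ _ _ _ _ rfl x.X LN D.w.X _ _ emb.prod o1 inferInstance sc
    D.S₁ D.e D.S₂ D.S D.b D.ts μ D.ν D.ρ hμ D.hν D.hρ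
  obtain ⟨Q, q1, q2, q3⟩ := hPr G m N₁ N x D.S₁ D.e μ hμ D.ts.gr D.r φ phi P geo res D.S₂ D.d D.σ
    D.b D.ts.tens D.tau D.ν D.hν sc _ B Nn hb l1 l2 l5
  let s : SD D := ⟨x, ς, α, μ, φ, Q, T, Ω, U, emb, hμ, phi, compat, q1, pt, tr⟩
  have b2 : Bm s.a := (h2 G m N₁ N D s).1
  have key : ∀ z : x.X.M × LN.M, D.κ ≤ x.X.scal z.1 / 4 + (D.F.φ (ς * tc z.2) ^ 2 -
      |deriv D.F.φ (ς * tc z.2)|) + s.a z := fun z => by
    have := D.F.ineq1 (ht x z.1) (ς * tc z.2) _ (ANA.Cyl.ht_nonneg x _) (hsc z.1).1 (hsc z.1).2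
    refine this.trans_eq ?_
    rw [add_sub_assoc]
    rfl
  refine ⟨s, _, q2 _ _ b1 hb' (fun η => ?_) l4, fun v => pos2 hP (bm_add
    ⟨b1.1.comp measurable_fst, b1.2.imp fun _ h _ => h _⟩
    ⟨hb'.1.comp measurable_snd, hb'.2.imp fun _ h _ => h _⟩) b2 key v, q3 _ _ l3 hz,
    tr.bm _ b2, tr.meas, rfl, fun p => ⟨?_, pull_off _ _⟩⟩
  · rw [geo.w]
    exact (hCal _ _ x.X D.S₁ μ hμ inferInstance D.e D.ts.gr _ _ res).2.1 _ b1 (fun _ => le_rfl) η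
  · rintro ⟨z, hz, rfl⟩
    rw [o2 z hz, pt.s z hz, hF.scal, add_zero]
    exact (key z).trans_eq (congrArg _ (pull_j emb.prod.2.1 _ _ hz).symm)

end BORD

open BORD in
theorem stBORD (hC : St_CPL3) (hG : St_GEO) (hL : St_LINK) (hCal : St_CAL) (hP : St_POS)
    (hW : St_WPK) (hF : St_FLT) (hLn : St_LINE) (hT : St_TSP) (hPT : St_PT) (hPr : St_PRD)
    (hFn : St_FUN) (hPh : St_PHIC) (hS : St_SCAL) (h1 : St_SD1) (h2 : St_SD2) (h4 : St_SD4) :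
    St_BORD := by
  rintro G _ m N x y S hS₀ hx hy ⟨w, α, β, p1, p2, hd, hp, f1, f2⟩ z z' hz hz'
  have ex : Emb x w 1 α := ⟨.inl rfl, by
    have e1 : eψ x w 1 α = fun z => w.j (α z.1, z.2) := funext fun z => by simp [eψ, co]
    have e2 : eO x 1 = {z | z.1 ∈ x.nbd ∧ 0 < co z.2 0} := Set.ext fun z => by simp [eO, tc]
    rw [e1, e2]
    exact p1, f1⟩
  have ey : Emb y w (-1) β := ⟨.inr rfl, by
    have e1 : eψ y w (-1) β = fun z => w.j (β z.1, -co z.2) := funext fun z => by simp [eψ]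
    have e2 : eO y (-1) = {z | z.1 ∈ y.nbd ∧ co z.2 0 < 0} := Set.ext fun z => by simp [eO, tc]
    rw [e1, e2]
    exact p2, f2⟩
  obtain ⟨S₂, d, σ, tau, hl⟩ := hLn
  have gr := RQ.BRG.gr_of hS₀
  obtain ⟨t1, t2⟩ := hT (m + 1) 1 (m + 1 + 1) N 2 (N * 2) rfl S S.gr S₂
  obtain ⟨SW, b, ts⟩ := t1 gr rfl
  have tau' := (t2 SW b ts).2.1 d σ tau
  have sc : SecondCountableTopology LN.M := inferInstanceAs (SecondCountableTopology (Eu 1))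
  obtain ⟨ν, hν⟩ := LN.exists_isVol
  obtain ⟨ρ, hρ⟩ := w.X.exists_isVol
  obtain ⟨μ, hμ⟩ := x.X.exists_isVol
  obtain ⟨μ', hμ'⟩ := y.X.exists_isVol
  obtain ⟨κ₁, C₁, k1, c1, a1, a1'⟩ :=
    ANA.Cyl.scal_lower x (CYL.gauge stGAU x.N) (CYL.gauge stGAU) hx
  obtain ⟨κ₂, C₂, k2, c2, a2, a2'⟩ :=
    ANA.Cyl.scal_lower y (CYL.gauge stGAU y.N) (CYL.gauge stGAU) hy
  obtain ⟨bw, -, -, s1⟩ := (hS G (m + 1)).1 w
  obtain ⟨d1, d2⟩ := (hS G m).2.2 w x y _ _ α β ex ey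
  obtain ⟨κ₃, k3, a3⟩ := d2 hp
  obtain ⟨C₃, a3'⟩ := bw.2
  obtain ⟨r, R, φ, φ₁, φ₂, hR, ph, ph1, ph2, top1, top2, cp1, cp2⟩ :=
    (hPh G m).2 w x y _ _ α β ex ey
  obtain ⟨κ, hκ, e1, e2, e3⟩ : ∃ κ : ℝ, 0 < κ ∧ 12 * κ ≤ κ₁ ∧ 12 * κ ≤ κ₂ ∧ 12 * κ ≤ κ₃ :=
    ⟨min (min κ₁ κ₂) κ₃ / 12, by positivity, by
      linarith [min_le_left (min κ₁ κ₂) κ₃, min_le_left κ₁ κ₂], by
      linarith [min_le_left (min κ₁ κ₂) κ₃, min_le_right κ₁ κ₂], by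
      linarith [min_le_right (min κ₁ κ₂) κ₃]⟩
  have c3 := abs_nonneg C₃
  obtain ⟨F⟩ := hFn κ (C₁ + C₂ + |C₃|) R hκ (by positivity)
  have w1 : ∀ p, -(C₁ + C₂ + |C₃|) ≤ w.X.scal p / 4 := fun p => by
    linarith [neg_abs_le (w.X.scal p), a3' p, le_abs_self C₃]
  obtain ⟨m1, m2, m3, m4⟩ := s1 F.φ R F.R₀ F.smφ (by linarith)
    (fun t h => by rw [F.φlo t h.le, F.φlo 0 (by linarith)])
    fun t h => by rw [F.φhi t h, F.φhi _ le_rfl]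
  rw [F.φhi _ le_rfl] at m3
  obtain ⟨P, g1, g2, g3, g4, g5⟩ := hW G (m + 1) _ w SW ρ hρ _ _ tau' r φ ph _ _ F.Λ κ m1 m2
    (fun p => ⟨abs_nonneg _, by rw [m4, sq_abs]⟩) m3 hκ (fun p => by linarith [w1 p, F.big]) bw
  let D : CD G m N (N * 2) := ⟨w, S, S.gr, S₂, d, σ, SW, b, ν, ρ, r, φ, κ, _, R, F, P, ts, tau,
    tau', hν, hρ, ph, hR, g1, g2, g4⟩
  have hb : ∀ ς : ℤ, Bm fun t : LN.M => F.φ (ς * tc t) := fun ς => by
    obtain ⟨h, hh⟩ := hF.homeo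
    have c : Continuous tc := by simpa only [funext hh] using h.continuous
    obtain ⟨C, hC⟩ := (isCompact_Icc (a := R) (b := F.R₀)).bddAbove_image
      F.smφ.continuous.abs.continuousOn
    refine ⟨(F.smφ.continuous.comp (continuous_const.mul c)).measurable, max C F.Λ, fun t => ?_⟩
    dsimp only
    rcases le_total (ς * tc t) R with h1 | h1
    · rw [F.φlo _ h1, abs_neg, abs_of_pos F.pos]; exact le_max_right _ _
    rcases le_total F.R₀ (ς * tc t) with h2 | h2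
    · rw [F.φhi _ h2, abs_of_pos F.pos]; exact le_max_right _ _
    · exact (hC ⟨_, ⟨h1, h2⟩, rfl⟩).trans (le_max_left _ _)
  obtain ⟨⟨P₁, x1, x2⟩, -⟩ := hG G m N x S μ hμ _ gr r φ₁ ph1
  obtain ⟨⟨P₂, y1, y2⟩, -⟩ := hG G m N y S μ' hμ' _ gr r φ₂ ph2
  obtain ⟨l0, B, Nn, l1, l2, l3, l4, l5⟩ :=
    hl ν hν F.φ F.Λ R F.R₀ 1 (.inl rfl) F.smφ F.pos F.φlo F.φhi
  obtain ⟨n0, B', Nn', n1, n2, n3, n4, n5⟩ :=
    hl ν hν F.φ F.Λ R F.R₀ (-1) (.inr rfl) F.smφ F.pos F.φlo F.φhi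
  obtain ⟨s, T, u1, u2, u3, u4, u5, u6, u7⟩ := side hCal hP hF hPT hPr hS h2 D x ex hμ ph1 cp1 x1 x2
    ((hL G m N x S μ hμ hS₀ r φ₁ ph1 top1 P₁ x1 x2 z).1 hz) (hb 1) l0 l1 l2 l3 l4 l5 fun p =>
      ⟨by change -(C₁ + C₂ + |C₃|) ≤ _; linarith [neg_abs_le (x.X.scal p), a1' p],
        fun h => by change 3 * κ ≤ _; linarith [a1 p h]⟩
  obtain ⟨s', T', v1, v2, v3, v4, v5, v6, v7⟩ := side hCal hP hF hPT hPr hS h2 D y ey hμ' ph2 cp2 y1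
    y2 ((hL G m N y S μ' hμ' hS₀ r φ₂ ph2 top2 P₂ y1 y2 z').1 hz') (hb (-1)) n0 n1 n2 n3 n4 n5
      fun p => ⟨by change -(C₁ + C₂ + |C₃|) ≤ _; linarith [neg_abs_le (y.X.scal p), a2' p],
        fun h => by change 3 * κ ≤ _; linarith [a2 p h]⟩
  have l := stMUL _ (Eu (N * 2)) ρ
  have b0 : Bm fun p => w.X.scal p / 4 + (F.φ (ht w p) ^ 2 - |deriv F.φ (ht w p)|) := by
    have b1 := (smb_holds _ _).bm m1 |>.1
    refine bm_add (bm_div bw) ?_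
    simpa only [sq, sub_eq_add_neg, neg_one_mul] using
      bm_add (l.mul_mul b1 b1).1 (l.mul_mul (l.mul_const (-1)).1 m2).1
  have fin := hC G _ _ _ _ _ P s.Q s'.Q _ T T' _ _ _ _ _ _ _ _ _ _ _ _ _ _ κ hκ g3 u1 v1
    (side_of h1 h2 h4 s) (side_of h1 h2 h4 s') (by
      rw [u6]; exact RQ.BRG.star_of (l.mul_inner (bm_ind u5))) (by
      rw [u6, v6]
      refine (l.mul_mul (bm_ind u5) (bm_ind v5)).2.symm.trans ((congrArg _ (funext fun p => ?_)).trans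
        (RQ.BRG.mul_zero' l))
      by_cases h : p ∈ eψ x w 1 α '' eO x 1
      · exact mul_eq_zero_of_right _ (indicator_of_notMem (disjoint_left.1 (d1 hd) h) _)
      · exact mul_eq_zero_of_left (indicator_of_notMem h _) _) (fun u => by
      have := pos2 hP (bm_add b0 u4) v4 (κ := κ) (fun p => by
        by_cases h : p ∈ eψ x w 1 α '' eO x 1
        · rw [(v7 p).2 (disjoint_left.1 (d1 hd) h), add_zero]
          exact (u7 p).1 h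
        rw [(u7 p).2 h, add_zero]
        by_cases h' : p ∈ eψ y w (-1) β '' eO y (-1)
        · exact (v7 p).1 h'
        rw [(v7 p).2 h', add_zero, ← add_sub_assoc]
        exact F.ineq2 _ _ (w1 p) fun h3 => by linarith [a3 p h h' (by linarith)]) u
      rwa [(l.mul_add b0 u4).2, _root_.add_apply, inner_add_left] at this) u2 v2 _ _ _ g5 u3 v3
  rw [one_smul, neg_smul, one_smul, eq_comm, add_neg_eq_zero] at fin
  exact fin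

end Pool.Agent.Lib.WD
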