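import Pool.Agent.Lib.WD.Blue
import Pool.Agent.Lib.RQ.VOL

/-! Block BOTT: the product formula for the Bott manifold. -/

set_option linter.unusedSectionVars false

noncomputable section

open Set Function MeasureTheory BCO ContinuousLinearMap
open scoped Manifold ContDiff InnerProductSpace

namespace Pool.Agent.Lib.WD

open CX AN
open ANA.CylB (pull pull_j)

namespace BOTT

theorem grOK {n N : ℕ} {S : Spinor n N} (h : Gr S S.gr) : RQ.GrOK S :=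
  ⟨ContinuousLinearMap.ext h.sq, ContinuousLinearMap.isSelfAdjoint_iff_isSymmetric.2 h.sym,
    fun v => ContinuousLinearMap.ext (h.anti v)⟩

variable {E F H K : Type} [NormedAddCommGroup E] [InnerProductSpace ℝ E] [CompleteSpace E]
  [NormedAddCommGroup F] [InnerProductSpace ℝ F] [CompleteSpace F] [NormedAddCommGroup H]
  [InnerProductSpace ℝ H] [CompleteSpace H] [NormedAddCommGroup K] [InnerProductSpace ℝ K]
  [CompleteSpace K]

/-- a tensor product followed by an operator -/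
def post (U : H →L[ℝ] K) (b : E →L[ℝ] F →L[ℝ] H) : E →L[ℝ] F →L[ℝ] K :=
  (compL ℝ F H K U).comp b

theorem post_apply (U : H →L[ℝ] K) (b : E →L[ℝ] F →L[ℝ] H) (x : E) (y : F) :
    post U b x y = U (b x y) := rfl

theorem tens_post {U : H →L[ℝ] K} {b : E →L[ℝ] F →L[ℝ] H} (h : Tens b)
    (h1 : ∀ u, adjoint U (U u) = u) (h2 : ∀ v, U (adjoint U v) = v) : Tens (post U b) := by
  refine ⟨fun x y x' y' => by
    rw [post_apply, post_apply, ← adjoint_inner_right, h1, h.inner], ?_⟩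
  refine ((Surjective.denseRange fun v => ⟨_, h2 v⟩).dense_image U.continuous h.dense).mono ?_
  rintro _ ⟨u, hu, rfl⟩
  exact (Submodule.span_le (p := Submodule.comap U.toLinearMap
    (Submodule.span ℝ {v | ∃ x y, v = post U b x y}))).2 (by
      rintro _ ⟨x, y, rfl⟩
      exact Submodule.subset_span ⟨x, y, rfl⟩) hu

/-- a density argument in two variables -/
theorem dense2 (b : E →L[ℝ] F →L[ℝ] K) (e : E →L[ℝ] E) (R : F →L[ℝ] F) (𝒮 : Set (E × E))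
    {D : Set F} (hD : Dense D) (𝒯 : Set (K × K))
    (h : ∀ q ∈ 𝒮, ∀ y ∈ D, (b q.1 (R y) + b (e q.2) (y - R y), b q.2 (R y)) ∈ 𝒯) (y : F) :
    ∀ q ∈ (Submodule.span ℝ 𝒮).topologicalClosure,
      (b q.1 (R y) + b (e q.2) (y - R y), b q.2 (R y)) ∈
        (Submodule.span ℝ 𝒯).topologicalClosure := by
  have c := Submodule.isClosed_topologicalClosure (Submodule.span ℝ 𝒯)
  let Φ : E × E →L[ℝ] K × K := (b.flip (R y) ∘L .fst ℝ E E +
    b.flip (y - R y) ∘L e ∘L .snd ℝ E E).prod (b.flip (R y) ∘L .snd ℝ E E)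
  refine fun q hq => Submodule.topologicalClosure_minimal _ (t := Submodule.comap Φ.toLinearMap
    (Submodule.span ℝ 𝒯).topologicalClosure) (Submodule.span_le.2 fun q hq => ?_)
    (c.preimage Φ.continuous) hq
  exact closure_minimal (t := (fun y => (b q.1 (R y) + b (e q.2) (y - R y), b q.2 (R y))) ⁻¹'
    (Submodule.span ℝ 𝒯).topologicalClosure) (fun y hy =>
      Submodule.le_topologicalClosure _ (Submodule.subset_span (h q hq y hy)))
    (c.preimage (by fun_prop)) (hD y)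

/-- the operator part of the argument -/
theorem core (hT : St_TWX) (hM : St_MAP) (hX : St_PIX) {G : Type} [Group G] {n n' : ℕ} {A : Type}
    [Fintype A] (P : RQ.Pack G E n A) (Q : RQ.Pack G K n' A) {b : E →L[ℝ] F →L[ℝ] K} (tb : Tens b)
    {d R : F →L[ℝ] F} (hR : Res d R) {k : ℤ} (hk : Ker R k) (ew : Q.w = lt b P.w * rt b d)
    (eE : ∀ a g u v, b (P.E a g u) v = Q.E a g (b u v)) {D : Set F} (hD : Dense D)
    (𝒮 : A → Set (E × E)) (h1 : ∀ a u, can P a u ∈ (Submodule.span ℝ (𝒮 a)).topologicalClosure)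
    (h2 : ∀ a, ∀ q ∈ 𝒮 a, ∀ y ∈ D, Q.Good a (b q.1 (R y) + b (P.w q.2) (y - R y)) (b q.2 (R y)))
    {z : BCH.K0 (Cr G)} (hz : PInd P z) : PInd Q (k • z) := by
  obtain ⟨R₁, tw1, ix⟩ := hz
  obtain ⟨⟨R₂, tw2⟩, -, cls, -⟩ := hT G _ _ _ Q
  refine ⟨R₂, tw2, ew ▸ hX G _ _ _ b tb P.w d R k hR hk R₁ tw1.mem tw1.res R₂ (fun η v =>
    hM G _ _ _ _ _ P Q _ _ _ (fun a g => ⟨ContinuousLinearMap.ext fun u => eE a g u _,
      ContinuousLinearMap.ext fun u => ?_, ContinuousLinearMap.ext fun u => eE a g u _⟩)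
      (fun a u => cls a {q | Q.Good a q.1 q.2} (fun _ h => h) _
        (dense2 b P.w R _ hD _ (h2 a) v _ (h1 a u))) R₁ R₂ tw1 tw2 η) z ix⟩
  refine Eq.trans ?_ (eE a g (P.w u) _)
  rw [← mul_apply_eq_comp (P.E a g), P.mul_w _ (P.E_mem a g)]
  rfl

/-- product sections -/
theorem sec {p q n N₁ N₂ N : ℕ} {h : p + q = n} {X : SM p} {Y : SM q} {Z : SM n}
    {ψ : X.M × Y.M → Z.M} (inj : InjOn ψ univ) (sur : Surjective ψ) {S₁ : Spinor p N₁}
    {S₂ : Spinor q N₂} {S : Spinor n N} {e d w b T Ω} (w1 : Gr S₁ e) (w2 : Gr S₂ d) (w3 : Gr S w)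
    (ew : ∀ u v, w (b u v) = b (e u) (d v)) (pt : PtApi h X Y ψ univ S₁ e S₂ S b T Ω)
    {μ : Measure X.M} {ν : Measure Y.M} {ρ : Measure Z.M} (hμ : X.IsVol μ) (hν : Y.IsVol ν)
    {box U} (bo : BoxApi b μ ν box) (tr : TrApi ψ univ T (μ.prod ν) ρ U) {s t} (hs : IsT X S₁ s)
    (ht : IsT Y S₂ t) :
    post U box (cl μ (dw X S₁ e s)) (cl ν t) + post U box (cst μ e (cl μ s))
      (cl ν (dw Y S₂ d t) - cl ν t) = cl ρ (dw Z S w (push ψ univ T (bx b s t))) ∧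
    post U box (cl μ s) (cl ν t) = cl ρ (push ψ univ T (bx b s t)) := by
  have L := stMUL _ (Eu N) (μ.prod ν)
  have L1 := stMUL _ (Eu N₁) μ
  have L2 := stMUL _ (Eu N₂) ν
  obtain ⟨-, -, k3, -⟩ := pt.t s t hs ht (subset_univ _)
  have C1 := core_holds _ _ X S₁
  have C2 := core_holds _ _ Y S₂
  have M1 : ∀ {s}, IsT X S₁ s → MemLp s 2 μ := fun hs => (mem_holds _ _ _ _ μ hμ _ hs).1
  have M2 : ∀ {s}, IsT Y S₂ s → MemLp s 2 ν := fun hs => (mem_holds _ _ _ _ ν hν _ hs).1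
  have ht' : IsT Y S₂ fun p => dw Y S₂ d t p + (-1 : ℝ) • t p :=
    C2.add (TEST.isT_dw C2 w2 ht) (C2.smul _ ht)
  have e1 : cl ν (dw Y S₂ d t) - cl ν t = cl ν fun p => dw Y S₂ d t p + (-1 : ℝ) • t p := by
    rw [L2.cl_add (M2 (TEST.isT_dw C2 w2 ht)) (M2 (C2.smul _ ht)), L2.cl_smul, neg_one_smul,
      sub_eq_add_neg]
  have c1 := bo.cl _ _ (M1 (TEST.isT_dw C1 w1 hs)) (M2 ht)
  have c2 := bo.cl _ _ (M1 (C1.w w1 hs)) (M2 ht')
  have c3 := bo.cl _ _ (M1 hs) (M2 ht)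
  have c4 : MemLp (fun z => bx b (dw X S₁ e s) t z + bx b (fun p => e (s p))
    (fun p => dw Y S₂ d t p + (-1 : ℝ) • t p) z) 2 (μ.prod ν) := c1.1.add c2.1
  refine ⟨?_, by rw [post_apply, c3.2, (tr.cl _ c3.1).2]⟩
  rw [e1, (L1.cst_cl _ (M1 hs)).2, post_apply, post_apply, c1.2, c2.2, ← map_add,
    ← L.cl_add c1.1 c2.1, (tr.cl _ c4).2]
  refine congrArg (cl ρ) (funext fun p => ?_)
  obtain ⟨z, rfl⟩ := sur p
  rw [dw, k3 z trivial, push, push, pull_j inj _ _ (mem_univ z), pull_j inj _ _ (mem_univ z),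
    ← pt.a.odd _ w3 z trivial, ← map_add, bx, bx, bx, ew]
  congr 1
  simp only [dw, map_add, _root_.add_apply, neg_one_smul, map_neg]
  abel

end BOTT

open BOTT in
theorem stBOTT (hT : St_TWX) (hM : St_MAP) (hTe : St_TENS) (hX : St_PIX) (hG : St_GEO)
    (hL : St_LINK) (hCal : St_CAL) (hTS : St_TSP) (hB : St_BOX) (hPT : St_PT) (hP : St_PHIC) :
    St_BOTT := by
  intro G _ m m' N₁ N₂ N x y B sc ⟨h, ψ, hp, sur, hf⟩ S₁ S₂ g1 g2 hN ν hν R Nn hR k hk z hz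
  have : SecondCountableTopology B.M := ChartedSpace.secondCountable_of_sigmaCompact (Eu 8) _
  obtain ⟨μ, hμ, -⟩ := RQ.stVOL G m x
  obtain ⟨ρ, hρ, -⟩ := RQ.stVOL G m' y
  obtain ⟨r1, hr1⟩ := (hP G m).1 x
  obtain ⟨r2, hr2⟩ := (hP G m').1 y
  obtain ⟨t1, φ, hφ⟩ := hr1 _ (le_max_left r1 r2)
  obtain ⟨t2, φ', hφ'⟩ := hr2 _ (le_max_right r1 r2)
  have w1 := RQ.BRG.gr_of g1
  have w2 := RQ.BRG.gr_of g2
  obtain ⟨S, b, ts⟩ := (hTS _ _ _ N₁ N₂ N h S₁ S₁.gr S₂).1 w1 hN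
  obtain ⟨a1, -, a3⟩ := (hTS _ _ _ N₁ N₂ N h S₁ S₁.gr S₂).2 S b ts
  have eg := a3 (by decide)
  have w3 : Gr S S.gr := eg ▸ a1 _ w2
  obtain ⟨⟨P, p1, p2⟩, p3⟩ := hG G m N₁ x S₁ μ hμ _ w1 _ φ hφ
  obtain ⟨⟨Q, q1, q2⟩, q3⟩ := hG G m' N y S ρ hρ _ w3 _ φ' hφ'
  refine ⟨S, (hL G m' N y S ρ hρ (grOK w3) _ φ' hφ' t2 Q q1 q2 _).2 ?_⟩
  obtain ⟨box, bo⟩ := hB _ _ _ _ _ b μ ν hμ.sigmaFinite hν.sigmaFinite ts.tens
  obtain ⟨T, Ω, U, pt, tr⟩ := hPT _ _ _ _ _ _ h x.X B y.X ψ univ hp isOpen_univ inferInstance sc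
    S₁ S₁.gr S₂ S b ts μ ν ρ hμ hν hρ
  have L := stMUL _ (Eu N) (μ.prod ν)
  have u1 : ∀ u, adjoint U (U u) = u := fun u => by
    have := DFunLike.congr_fun tr.inner u
    rwa [indicator_univ, show (1 : x.X.M × B.M → ℝ) = fun _ => 1 from rfl, (L.mul_const 1).2,
      one_smul] at this
  have u2 : ∀ v, U (adjoint U v) = v := fun v => by
    have := DFunLike.congr_fun tr.onto v
    rwa [image_univ, sur.range_eq, indicator_univ, show (1 : y.X.M → ℝ) = fun _ => 1 from rfl,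
      ((stMUL _ (Eu N) ρ).mul_const 1).2, one_smul] at this
  have tb := tens_post bo.tens u1 u2
  have A := hTe _ _ _ _ bo.tens
  have A' := hTe _ _ _ _ tb
  have A0 := hTe _ _ _ _ ts.tens
  refine core hT hM hX P Q tb (hCal _ _ B S₂ ν hν sc _ w2 R Nn hR).1 hk
    (A'.ext _ _ fun u v => ?_) (fun a g u v => ?_) hR.dense _ (p3 P p1 p2).2 ?_
    ((hL G m N₁ x S₁ μ hμ g1 _ φ hφ t1 P p1 p2 z).1 hz)
  · have := DFunLike.congr_fun (tr.cst S.gr S.gr fun z hz u => (pt.a.odd _ w3 z hz u).symm)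
      (box u v)
    rw [mul_apply_eq_comp, A'.rt_b, A'.lt_b, q1.w, p1.w, post_apply, post_apply, ← A.lt_b,
      ← A.rt_b, bo.cstl, bo.cstr, ← mul_apply_eq_comp, ← L.cst_mul, ← eg]
    exact this
  · have b1 := bo.mull _ (RQ.BRG.bm_ef x a g)
    have := DFunLike.congr_fun (tr.mul _ _ (RQ.BRG.bm_ef y a g) b1.1 fun z _ => by
      have : ψ z ∈ OO y a ↔ z.1 ∈ OO x a := by
        change (y.f _).t a ≠ 0 ↔ _
        rw [(hf z).2]
        rfl
      rw [RQ.BRG.ef_apply, RQ.BRG.ef_apply, (hf z).2]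
      congr 1
      exact propext (and_congr_left' this)) (box u v)
    rw [p1.E, q1.E, post_apply, post_apply, ← A.lt_b, b1.2]
    exact this.symm
  rintro a _ ⟨s, hs, sub, rfl⟩ _ ⟨t, ht, rfl⟩
  obtain ⟨k1, k2, -, -⟩ := pt.t s t hs ht (subset_univ _)
  obtain ⟨e1, e2⟩ := sec hp.2.1 sur w1 w2 w3 (fun u v => by
    rw [eg, mul_apply_eq_comp, A0.rt_b, A0.lt_b]) pt hμ hν bo tr hs ht
  rw [hR.R_cl t ht, p1.w, e1, e2]
  refine (q3 Q q1 q2).1 a _ k1 (k2.trans ?_)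
  rintro _ ⟨z, hz, rfl⟩
  change (y.f _).t a ≠ 0
  rw [(hf z).2]
  exact sub hz.1

end Pool.Agent.Lib.WD
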