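import Pool.Agent.Lib.WD.Blue

/-! Block BOX: the tensor product of spaces of square integrable functions. -/

noncomputable section

open Set Function Filter MeasureTheory
open scoped InnerProductSpace ENNReal

namespace Pool.Agent.Lib.WD

open CX AN

namespace BOX

variable {α β : Type} [MeasurableSpace α] [MeasurableSpace β] {μ : Measure α} {ν : Measure β}

/-- a function with zero integral on all finite rectangles vanishes -/
theorem rect [SigmaFinite μ] [SigmaFinite ν] {φ : α × β → ℝ} (hφ : MemLp φ 2 (μ.prod ν))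
    (h : ∀ A B, MeasurableSet A → MeasurableSet B → μ A ≠ ∞ → ν B ≠ ∞ →
      ∫ z in A ×ˢ B, φ z ∂(μ.prod ν) = 0) : φ =ᵐ[μ.prod ν] 0 := by
  have key : ∀ n, ∀ᵐ z ∂(μ.prod ν), z ∈ spanningSets μ n ×ˢ spanningSets ν n → φ z = 0 := by
    intro n
    have hA := measurableSet_spanningSets μ n
    have hB := measurableSet_spanningSets ν n
    have hAf := (measure_spanningSets_lt_top μ n).ne
    have hBf := (measure_spanningSets_lt_top ν n).ne
    set A := spanningSets μ n
    set B := spanningSets ν n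
    have hR : MeasurableSet (A ×ˢ B) := hA.prod hB
    have hfin : (μ.prod ν) (A ×ˢ B) ≠ ∞ := by
      rw [Measure.prod_prod]; exact ENNReal.mul_ne_top hAf hBf
    have : IsFiniteMeasure ((μ.prod ν).restrict (A ×ˢ B)) := isFiniteMeasure_restrict.2 hfin
    have hi : Integrable φ ((μ.prod ν).restrict (A ×ˢ B)) :=
      (hφ.restrict _).integrable (by norm_num)
    have hrect : ∀ C D, MeasurableSet C → MeasurableSet D →
        ∫ z in C ×ˢ D, φ z ∂((μ.prod ν).restrict (A ×ˢ B)) = 0 := by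
      intro C D hC hD
      rw [Measure.restrict_restrict (hC.prod hD), prod_inter_prod]
      exact h _ _ (hC.inter hA) (hD.inter hB)
        (ne_top_of_le_ne_top hAf (measure_mono inter_subset_right))
        (ne_top_of_le_ne_top hBf (measure_mono inter_subset_right))
    have hall : ∀ S, MeasurableSet S → ∫ z in S, φ z ∂((μ.prod ν).restrict (A ×ˢ B)) = 0 := by
      refine MeasurableSpace.induction_on_inter generateFrom_prod.symm isPiSystem_prod ?_ ?_ ?_ ?_
      · simp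
      · rintro _ ⟨C, hC, D, hD, rfl⟩
        exact hrect C D hC hD
      · intro t ht h0
        have h1 := integral_add_compl ht hi
        have h2 := hrect univ univ .univ .univ
        rw [univ_prod_univ, Measure.restrict_univ] at h2
        rw [h0, h2, zero_add] at h1
        exact h1
      · intro f hd hm h0
        rw [integral_iUnion hm hd hi.integrableOn]
        simp [h0]
    have := hi.ae_eq_zero_of_forall_setIntegral_eq_zero fun S hS _ => hall S hS
    exact (ae_restrict_iff' hR).1 this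
  filter_upwards [ae_all_iff.2 key] with z hz
  obtain ⟨n, hn⟩ : ∃ n, z.1 ∈ spanningSets μ n := by
    simpa [← mem_iUnion] using (iUnion_spanningSets μ).symm ▸ mem_univ z.1
  obtain ⟨m, hm⟩ : ∃ n, z.2 ∈ spanningSets ν n := by
    simpa [← mem_iUnion] using (iUnion_spanningSets ν).symm ▸ mem_univ z.2
  exact hz (max n m) ⟨monotone_spanningSets μ (le_max_left n m) hn,
    monotone_spanningSets ν (le_max_right n m) hm⟩

variable {N₁ N₂ N : ℕ} {b : Eu N₁ →L[ℝ] Eu N₂ →L[ℝ] Eu N}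

theorem norm_b (hb : Tens b) (x : Eu N₁) (y : Eu N₂) : ‖b x y‖ ^ 2 = ‖x‖ ^ 2 * ‖y‖ ^ 2 := by
  simpa only [real_inner_self_eq_norm_sq] using hb.inner x y x y

theorem mem [SFinite μ] [SFinite ν] (hb : Tens b) {s : α → Eu N₁} {t : β → Eu N₂}
    (hs : MemLp s 2 μ) (ht : MemLp t 2 ν) : MemLp (bx b s t) 2 (μ.prod ν) := by
  have hm : AEStronglyMeasurable (bx b s t) (μ.prod ν) :=
    b.continuous₂.comp_aestronglyMeasurable₂ (hs.1.comp_fst (ν := ν)) (ht.1.comp_snd (μ := μ))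
  rw [memLp_two_iff_integrable_sq_norm hm]
  have h1 := (memLp_two_iff_integrable_sq_norm hs.1).1 hs
  have h2 := (memLp_two_iff_integrable_sq_norm ht.1).1 ht
  refine (h1.mul_prod h2).congr (ae_of_all _ fun z => ?_)
  exact (norm_b hb _ _).symm

theorem ae1 {p : α → Prop} (h : ∀ᵐ x ∂μ, p x) : ∀ᵐ z ∂(μ.prod ν), p z.1 :=
  Measure.quasiMeasurePreserving_fst.ae h

theorem ae2 {p : β → Prop} (h : ∀ᵐ x ∂ν, p x) : ∀ᵐ z ∂(μ.prod ν), p z.2 :=
  Measure.quasiMeasurePreserving_snd.ae h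

theorem congr {s s' : α → Eu N₁} {t t' : β → Eu N₂} (hs : s =ᵐ[μ] s') (ht : t =ᵐ[ν] t') :
    bx b s t =ᵐ[μ.prod ν] bx b s' t' := by
  filter_upwards [ae1 (ν := ν) hs, ae2 (μ := μ) ht] with z h1 h2
  simp only [bx, h1, h2]

theorem inner_bx [SFinite μ] [SFinite ν] (hb : Tens b) (f f' : Lp (Eu N₁) 2 μ)
    (g g' : Lp (Eu N₂) 2 ν) :
    ⟪cl (μ.prod ν) (bx b f g), cl (μ.prod ν) (bx b f' g')⟫_ℝ = ⟪f, f'⟫_ℝ * ⟪g, g'⟫_ℝ := by
  rw [(MUL.inner_cl (mem hb (Lp.memLp f) (Lp.memLp g)) (mem hb (Lp.memLp f') (Lp.memLp g'))).2,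
    L2.inner_def, L2.inner_def, ← integral_prod_mul]
  exact integral_congr_ae (ae_of_all _ fun z => hb.inner _ _ _ _)

/-- the bilinear map -/
def lin [SFinite μ] [SFinite ν] (hb : Tens b) :
    Lp (Eu N₁) 2 μ →ₗ[ℝ] Lp (Eu N₂) 2 ν →ₗ[ℝ] Lp (Eu N) 2 (μ.prod ν) :=
  LinearMap.mk₂ ℝ (fun f g => cl (μ.prod ν) (bx b f g))
    (fun f f' g => by
      rw [← MUL.cl_add (mem hb (Lp.memLp f) (Lp.memLp g)) (mem hb (Lp.memLp f') (Lp.memLp g))]
      refine MUL.cl_congr ?_
      filter_upwards [ae1 (ν := ν) (Lp.coeFn_add f f')] with z h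
      simp only [bx, h, Pi.add_apply, map_add, ContinuousLinearMap.add_apply])
    (fun c f g => by
      rw [← MUL.cl_smul]
      refine MUL.cl_congr ?_
      filter_upwards [ae1 (ν := ν) (Lp.coeFn_smul c f)] with z h
      simp only [bx, h, Pi.smul_apply, map_smul, ContinuousLinearMap.smul_apply])
    (fun f g g' => by
      rw [← MUL.cl_add (mem hb (Lp.memLp f) (Lp.memLp g)) (mem hb (Lp.memLp f) (Lp.memLp g'))]
      refine MUL.cl_congr ?_
      filter_upwards [ae2 (μ := μ) (Lp.coeFn_add g g')] with z h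
      simp only [bx, h, Pi.add_apply, map_add])
    (fun c f g => by
      rw [← MUL.cl_smul]
      refine MUL.cl_congr ?_
      filter_upwards [ae2 (μ := μ) (Lp.coeFn_smul c g)] with z h
      simp only [bx, h, Pi.smul_apply, map_smul])

/-- the continuous bilinear map -/
def box [SFinite μ] [SFinite ν] (hb : Tens b) :
    Lp (Eu N₁) 2 μ →L[ℝ] Lp (Eu N₂) 2 ν →L[ℝ] Lp (Eu N) 2 (μ.prod ν) :=
  (lin hb).mkContinuous₂ 1 fun f g => by
    have h := inner_bx hb f f g g
    simp only [real_inner_self_eq_norm_sq] at h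
    rw [← mul_pow] at h
    rw [one_mul]
    exact (pow_left_injective (M := NNReal) two_ne_zero (a₁ := ‖lin hb f g‖₊) (a₂ := ‖f‖₊ * ‖g‖₊)
      (NNReal.eq h) ▸ le_rfl : ‖lin hb f g‖₊ ≤ ‖f‖₊ * ‖g‖₊)

theorem box_apply [SFinite μ] [SFinite ν] (hb : Tens b) (f : Lp (Eu N₁) 2 μ)
    (g : Lp (Eu N₂) 2 ν) : box hb f g = cl (μ.prod ν) (bx b f g) := rfl

theorem box_ae [SFinite μ] [SFinite ν] (hb : Tens b) (f : Lp (Eu N₁) 2 μ)
    (g : Lp (Eu N₂) 2 ν) : box hb f g =ᵐ[μ.prod ν] bx b f g :=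
  MUL.cl_ae (mem hb (Lp.memLp f) (Lp.memLp g))

theorem eq_zero (hb : Tens b) {v : Eu N}
    (h : ∀ i j, ⟪b (EuclideanSpace.basisFun _ ℝ i) (EuclideanSpace.basisFun _ ℝ j), v⟫_ℝ = 0) :
    v = 0 := by
  have h1 : ∀ x y, ⟪b x y, v⟫_ℝ = 0 := fun x y => by
    rw [← (EuclideanSpace.basisFun _ ℝ).sum_repr x, ← (EuclideanSpace.basisFun _ ℝ).sum_repr y]
    simp only [map_sum, map_smul, ContinuousLinearMap.sum_apply, ContinuousLinearMap.smul_apply,
      sum_inner, real_inner_smul_left, h, mul_zero, Finset.sum_const_zero]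
  have h2 := Submodule.topologicalClosure_eq_top_iff.1
    (Submodule.dense_iff_topologicalClosure_eq_top.1 hb.dense)
  rw [← Submodule.mem_bot ℝ, ← h2, Submodule.mem_orthogonal]
  intro u hu
  induction hu using Submodule.span_induction with
  | mem u hu => obtain ⟨x, y, rfl⟩ := hu; exact h1 x y
  | zero => exact inner_zero_left _
  | add u w _ _ a c => rw [inner_add_left, a, c, add_zero]
  | smul c u _ a => rw [real_inner_smul_left, a, mul_zero]

theorem tens [SigmaFinite μ] [SigmaFinite ν] (hb : Tens b) : Tens (box (μ := μ) (ν := ν) hb) := by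
  refine ⟨fun x y x' y' => inner_bx hb x x' y y', ?_⟩
  rw [Submodule.dense_iff_topologicalClosure_eq_top, Submodule.topologicalClosure_eq_top_iff,
    eq_bot_iff]
  intro u hu
  rw [Submodule.mem_orthogonal] at hu
  have h1 : ∀ x y, ∀ᵐ z ∂(μ.prod ν), ⟪b x y, u z⟫_ℝ = 0 := fun x y => by
    refine rect (φ := fun z => ⟪b x y, u z⟫_ℝ) ((innerSL ℝ (b x y)).comp_memLp u) ?_
    intro A B hA hB hAf hBf
    have h2 := hu _ (Submodule.subset_span
      ⟨indicatorConstLp 2 hA hAf x, indicatorConstLp 2 hB hBf y, rfl⟩)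
    rw [L2.inner_def] at h2
    rw [← h2, ← integral_indicator (hA.prod hB)]
    refine integral_congr_ae ?_
    filter_upwards [box_ae hb (indicatorConstLp 2 hA hAf x) (indicatorConstLp 2 hB hBf y),
      ae1 (ν := ν) (indicatorConstLp_coeFn (p := 2) (hs := hA) (hμs := hAf) (c := x)),
      ae2 (μ := μ) (indicatorConstLp_coeFn (p := 2) (hs := hB) (hμs := hBf) (c := y))]
      with z e1 e2 e3
    rw [e1, bx, e2, e3]
    by_cases a : z.1 ∈ A <;> by_cases c : z.2 ∈ B <;> simp [indicator, a, c]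
  rw [Submodule.mem_bot]
  refine Lp.ext ?_
  filter_upwards [ae_all_iff.2 fun i => ae_all_iff.2 fun j =>
    h1 (EuclideanSpace.basisFun _ ℝ i) (EuclideanSpace.basisFun _ ℝ j),
    Lp.coeFn_zero (Eu N) 2 (μ.prod ν)] with z e1 e2
  rw [e2]
  exact eq_zero hb e1

end BOX

open BOX in
theorem stBOX (hT : St_TENS) : St_BOX := by
  intro α β _ _ N₁ N₂ N b μ ν _ _ hb
  have hB := hT _ _ _ _ (tens (μ := μ) (ν := ν) hb)
  have hA := hT _ _ _ _ hb
  refine ⟨box hb, tens hb, fun s t hs ht => ⟨mem hb hs ht, ?_⟩, fun f hf => ?_, fun g hg => ?_,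
    fun A => ?_, fun A => ?_⟩
  · exact MUL.cl_congr (congr (MUL.cl_ae hs) (MUL.cl_ae ht))
  · have h1 : Bm fun z : α × β => f z.1 :=
      ⟨hf.1.comp measurable_fst, hf.2.imp fun _ h z => h z.1⟩
    refine ⟨h1, hB.ext _ _ fun x y => ?_⟩
    rw [hB.lt_b]
    refine Lp.ext ?_
    filter_upwards [box_ae hb (mul _ μ f x) y, box_ae hb x y,
      (stMUL _ (Eu N) (μ.prod ν)).mul_ae h1 (box hb x y),
      ae1 (ν := ν) ((stMUL _ (Eu N₁) μ).mul_ae hf x)] with z e1 e2 e3 e4
    rw [e1, e3, e2, bx, bx, e4, map_smul, ContinuousLinearMap.smul_apply]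
  · have h1 : Bm fun z : α × β => g z.2 :=
      ⟨hg.1.comp measurable_snd, hg.2.imp fun _ h z => h z.2⟩
    refine ⟨h1, hB.ext _ _ fun x y => ?_⟩
    rw [hB.rt_b]
    refine Lp.ext ?_
    filter_upwards [box_ae hb x (mul _ ν g y), box_ae hb x y,
      (stMUL _ (Eu N) (μ.prod ν)).mul_ae h1 (box hb x y),
      ae2 (μ := μ) ((stMUL _ (Eu N₂) ν).mul_ae hg y)] with z e1 e2 e3 e4
    rw [e1, e3, e2, bx, bx, e4, map_smul]
  · refine hB.ext _ _ fun x y => ?_
    rw [hB.lt_b]
    refine Lp.ext ?_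
    filter_upwards [box_ae hb (cst μ A x) y, box_ae hb x y,
      (lt b A).coeFn_compLpL (box hb x y), ae1 (ν := ν) (A.coeFn_compLpL x)] with z e1 e2 e3 e4
    rw [e1, e3, e2, bx, bx, e4, hA.lt_b]
  · refine hB.ext _ _ fun x y => ?_
    rw [hB.rt_b]
    refine Lp.ext ?_
    filter_upwards [box_ae hb x (cst ν A y), box_ae hb x y,
      (rt b A).coeFn_compLpL (box hb x y), ae2 (μ := μ) (A.coeFn_compLpL y)] with z e1 e2 e3 e4
    rw [e1, e3, e2, bx, bx, e4, hA.rt_b]

end Pool.Agent.Lib.WD
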