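import Pool.Agent.Lib.ANA.CylA

/-! Brackets of vector fields on a product of two manifolds. -/

noncomputable section

open Manifold Set Topology Filter VectorField
open scoped ContDiff

namespace Pool.Agent.Lib.WD.PG

section Product

variable {E F M M' : Type} [NormedAddCommGroup E] [NormedSpace ℝ E] [CompleteSpace E]
  [NormedAddCommGroup F] [NormedSpace ℝ F] [CompleteSpace F]
  [TopologicalSpace M] [ChartedSpace E M] [IsManifold 𝓘(ℝ, E) ∞ M]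
  [TopologicalSpace M'] [ChartedSpace F M'] [IsManifold 𝓘(ℝ, F) ∞ M']

/-- The vector field `(V, W)` on `M × M'`. -/
def up (V : ∀ y : M, TangentSpace 𝓘(ℝ, E) y) (W : ∀ y : M', TangentSpace 𝓘(ℝ, F) y)
    (z : M × M') : TangentSpace (𝓘(ℝ, E).prod 𝓘(ℝ, F)) z := ((V z.1 : E), (W z.2 : F))

omit [CompleteSpace E] [CompleteSpace F] in
theorem contMDiffAt_up {V : ∀ y : M, TangentSpace 𝓘(ℝ, E) y}
    {W : ∀ y : M', TangentSpace 𝓘(ℝ, F) y} {z : M × M'}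
    (hV : ContMDiffAt 𝓘(ℝ, E) 𝓘(ℝ, E).tangent ∞
      (fun y => (⟨y, V y⟩ : TangentBundle 𝓘(ℝ, E) M)) z.1)
    (hW : ContMDiffAt 𝓘(ℝ, F) 𝓘(ℝ, F).tangent ∞
      (fun y => (⟨y, W y⟩ : TangentBundle 𝓘(ℝ, F) M')) z.2) :
    ContMDiffAt (𝓘(ℝ, E).prod 𝓘(ℝ, F)) (𝓘(ℝ, E).prod 𝓘(ℝ, F)).tangent ∞
      (fun w => (⟨w, up V W w⟩ : TangentBundle (𝓘(ℝ, E).prod 𝓘(ℝ, F)) (M × M'))) z :=
  (contMDiff_equivTangentBundleProd_symm (I := 𝓘(ℝ, E)) (I' := 𝓘(ℝ, F)) (M := M)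
    (M' := M') (n := ∞)).contMDiffAt.comp z
    ((hV.comp z contMDiffAt_fst).prodMk (hW.comp z contMDiffAt_snd))

omit [CompleteSpace E] in
theorem chart_equiv (y : M) {p : E} (hp : p ∈ (extChartAt 𝓘(ℝ, E) y).target) :
    ∃ L : E ≃L[ℝ] E, HasMFDerivAt 𝓘(ℝ, E) 𝓘(ℝ, E) (extChartAt 𝓘(ℝ, E) y).symm p (L : E →L[ℝ] E) := by
  have h0 := isInvertible_mfderivWithin_extChartAt_symm (I := 𝓘(ℝ, E)) hp
  have h1 := mdifferentiableWithinAt_extChartAt_symm (I := 𝓘(ℝ, E)) hp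
  rw [ModelWithCorners.range_eq_univ, mfderivWithin_univ] at h0
  rw [ModelWithCorners.range_eq_univ, mdifferentiableWithinAt_univ] at h1
  obtain ⟨L, hL⟩ := h0
  have h3 := h1.hasMFDerivAt
  rw [← hL] at h3
  exact ⟨L, h3⟩

omit [CompleteSpace E] [CompleteSpace F] in
theorem deriv_chart (y : M × M') (p : E × F) (hp : p.1 ∈ (extChartAt 𝓘(ℝ, E) y.1).target)
    (hp' : p.2 ∈ (extChartAt 𝓘(ℝ, F) y.2).target) :
    ∃ (L : E ≃L[ℝ] E) (L' : F ≃L[ℝ] F),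
      (L : E →L[ℝ] E) = mfderiv 𝓘(ℝ, E) 𝓘(ℝ, E) (extChartAt 𝓘(ℝ, E) y.1).symm p.1 ∧
      (L' : F →L[ℝ] F) = mfderiv 𝓘(ℝ, F) 𝓘(ℝ, F) (extChartAt 𝓘(ℝ, F) y.2).symm p.2 ∧
      ((ContinuousLinearEquiv.prodCongr L L' : (E × F) ≃L[ℝ] (E × F)) : (E × F) →L[ℝ] (E × F)) =
      mfderiv 𝓘(ℝ, E × F) (𝓘(ℝ, E).prod 𝓘(ℝ, F)) (fun q : E × F =>
        ((extChartAt 𝓘(ℝ, E) y.1).symm q.1, (extChartAt 𝓘(ℝ, F) y.2).symm q.2)) p := by
  obtain ⟨L, hL⟩ := chart_equiv y.1 hp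
  obtain ⟨L', hL'⟩ := chart_equiv y.2 hp'
  refine ⟨L, L', hL.mfderiv.symm, hL'.mfderiv.symm, (HasMFDerivAt.mfderiv ?_).symm⟩
  exact (hL.comp p (ContinuousLinearMap.fst ℝ E F).hasMFDerivAt).prodMk
    (hL'.comp p (ContinuousLinearMap.snd ℝ E F).hasMFDerivAt)

omit [CompleteSpace E] [CompleteSpace F] in
theorem pull_up (V : ∀ y : M, TangentSpace 𝓘(ℝ, E) y) (W : ∀ y : M', TangentSpace 𝓘(ℝ, F) y)
    (y : M × M') (p : E × F) (hp : p.1 ∈ (extChartAt 𝓘(ℝ, E) y.1).target)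
    (hp' : p.2 ∈ (extChartAt 𝓘(ℝ, F) y.2).target) :
    (mpullback 𝓘(ℝ, E × F) (𝓘(ℝ, E).prod 𝓘(ℝ, F)) (fun q : E × F =>
      ((extChartAt 𝓘(ℝ, E) y.1).symm q.1, (extChartAt 𝓘(ℝ, F) y.2).symm q.2)) (up V W) p : E × F) =
      ((mpullback 𝓘(ℝ, E) 𝓘(ℝ, E) (extChartAt 𝓘(ℝ, E) y.1).symm V p.1 : E),
        (mpullback 𝓘(ℝ, F) 𝓘(ℝ, F) (extChartAt 𝓘(ℝ, F) y.2).symm W p.2 : F)) := by
  obtain ⟨L, L', hL, hL', h2⟩ := deriv_chart y p hp hp'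
  rw [mpullback_apply, mpullback_apply, mpullback_apply, ← h2, ← hL, ← hL']
  erw [ContinuousLinearMap.inverse_equiv, ContinuousLinearMap.inverse_equiv,
    ContinuousLinearMap.inverse_equiv]
  rfl

omit [CompleteSpace E] [CompleteSpace F] in
theorem lieBracket_up {v w : E → E} {s s' : F → F} {p : E × F} (hv : DifferentiableAt ℝ v p.1)
    (hw : DifferentiableAt ℝ w p.1) (hs : DifferentiableAt ℝ s p.2)
    (hs' : DifferentiableAt ℝ s' p.2) :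
    lieBracket ℝ (fun q : E × F => (v q.1, s q.2)) (fun q : E × F => (w q.1, s' q.2)) p =
      (lieBracket ℝ v w p.1, lieBracket ℝ s s' p.2) := by
  have h : ∀ {v : E → E} {s : F → F}, DifferentiableAt ℝ v p.1 → DifferentiableAt ℝ s p.2 →
      ∀ u : E × F, fderiv ℝ (fun q : E × F => (v q.1, s q.2)) p u =
        (fderiv ℝ v p.1 u.1, fderiv ℝ s p.2 u.2) := fun {v s} hv hs u => by
    have h1 : HasFDerivAt (fun q : E × F => (v q.1, s q.2)) _ p :=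
      (hv.hasFDerivAt.comp p hasFDerivAt_fst).prodMk (hs.hasFDerivAt.comp p hasFDerivAt_snd)
    rw [h1.fderiv]
    rfl
  simp only [lieBracket, h hv hs, h hw hs', Prod.mk_sub_mk]

/-- The bracket read in a chart. -/
theorem bracket_chart {V W : ∀ y : M, TangentSpace 𝓘(ℝ, E) y} {y : M}
    (hV : ContMDiffAt 𝓘(ℝ, E) 𝓘(ℝ, E).tangent ∞
      (fun y => (⟨y, V y⟩ : TangentBundle 𝓘(ℝ, E) M)) y)
    (hW : ContMDiffAt 𝓘(ℝ, E) 𝓘(ℝ, E).tangent ∞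
      (fun y => (⟨y, W y⟩ : TangentBundle 𝓘(ℝ, E) M)) y) :
    let e := extChartAt 𝓘(ℝ, E) y
    DifferentiableAt ℝ (mpullback 𝓘(ℝ, E) 𝓘(ℝ, E) e.symm V : E → E) (e y) ∧
    DifferentiableAt ℝ (mpullback 𝓘(ℝ, E) 𝓘(ℝ, E) e.symm W : E → E) (e y) ∧
    (mpullback 𝓘(ℝ, E) 𝓘(ℝ, E) e.symm (mlieBracket 𝓘(ℝ, E) V W) (e y) : E) =
      lieBracket ℝ (mpullback 𝓘(ℝ, E) 𝓘(ℝ, E) e.symm V : E → E)
        (mpullback 𝓘(ℝ, E) 𝓘(ℝ, E) e.symm W : E → E) (e y) := by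
  intro e
  have : IsManifold 𝓘(ℝ, E) (minSmoothness ℝ 2) M := by
    rw [minSmoothness_of_isRCLikeNormedField]; infer_instance
  have hn : minSmoothness ℝ 2 ≤ (∞ : WithTop ℕ∞) := by
    rw [minSmoothness_of_isRCLikeNormedField]; exact WithTop.coe_le_coe.2 le_top
  have h1 : e.symm (e y) = y := extChartAt_to_inv y
  have hs : ContMDiffAt 𝓘(ℝ, E) 𝓘(ℝ, E) ∞ e.symm (e y) :=
    (contMDiffOn_extChartAt_symm y).contMDiffAt (extChartAt_target_mem_nhds (I := 𝓘(ℝ, E)) y)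
  obtain ⟨L, hL⟩ := chart_equiv y (mem_extChartAt_target (I := 𝓘(ℝ, E)) y)
  rw [← h1] at hV hW
  have k2 := mpullback_mlieBracket (hV.mdifferentiableAt (by simp))
    (hW.mdifferentiableAt (by simp)) hs hn
  have hd : ∀ {V : ∀ y : M, TangentSpace 𝓘(ℝ, E) y}, ContMDiffAt 𝓘(ℝ, E) 𝓘(ℝ, E).tangent ∞
      (fun y => (⟨y, V y⟩ : TangentBundle 𝓘(ℝ, E) M)) (e.symm (e y)) →
      DifferentiableAt ℝ (mpullback 𝓘(ℝ, E) 𝓘(ℝ, E) e.symm V : E → E) (e y) := fun hV =>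
    (contMDiffAt_vectorSpace_iff_contDiffAt.1 (hV.mpullback_vectorField_preimage (m := ∞) hs
      ⟨L, hL.mfderiv.symm⟩ le_rfl)).differentiableAt (by simp)
  rw [← mlieBracketWithin_univ (V := mpullback _ _ _ _), mlieBracketWithin_eq_lieBracketWithin,
    lieBracketWithin_univ] at k2
  exact ⟨hd hV, hd hW, k2⟩

/-- The bracket of `(V, s)` and `(W, s')` is `([V, W], [s, s'])`. -/
theorem bracket_up {V W : ∀ y : M, TangentSpace 𝓘(ℝ, E) y}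
    {s s' : ∀ y : M', TangentSpace 𝓘(ℝ, F) y} {z : M × M'}
    (hV : ContMDiffAt 𝓘(ℝ, E) 𝓘(ℝ, E).tangent ∞
      (fun y => (⟨y, V y⟩ : TangentBundle 𝓘(ℝ, E) M)) z.1)
    (hW : ContMDiffAt 𝓘(ℝ, E) 𝓘(ℝ, E).tangent ∞
      (fun y => (⟨y, W y⟩ : TangentBundle 𝓘(ℝ, E) M)) z.1)
    (hs : ContMDiffAt 𝓘(ℝ, F) 𝓘(ℝ, F).tangent ∞
      (fun y => (⟨y, s y⟩ : TangentBundle 𝓘(ℝ, F) M')) z.2)
    (hs' : ContMDiffAt 𝓘(ℝ, F) 𝓘(ℝ, F).tangent ∞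
      (fun y => (⟨y, s' y⟩ : TangentBundle 𝓘(ℝ, F) M')) z.2) :
    mlieBracket (𝓘(ℝ, E).prod 𝓘(ℝ, F)) (up V s) (up W s') z =
      up (mlieBracket 𝓘(ℝ, E) V W) (mlieBracket 𝓘(ℝ, F) s s') z := by
  have : IsManifold (𝓘(ℝ, E).prod 𝓘(ℝ, F)) (minSmoothness ℝ 2) (M × M') := by
    rw [minSmoothness_of_isRCLikeNormedField]; infer_instance
  have hn : minSmoothness ℝ 2 ≤ (∞ : WithTop ℕ∞) := by
    rw [minSmoothness_of_isRCLikeNormedField]; exact WithTop.coe_le_coe.2 le_top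
  obtain ⟨a1, a2, a3⟩ := bracket_chart hV hW
  obtain ⟨b1, b2, b3⟩ := bracket_chart hs hs'
  set e := extChartAt 𝓘(ℝ, E) z.1 with he
  set e' := extChartAt 𝓘(ℝ, F) z.2 with he'
  set g : E × F → M × M' := fun q => (e.symm q.1, e'.symm q.2) with hg
  set p : E × F := (e z.1, e' z.2) with hp
  have h2 : g p = z := Prod.ext (extChartAt_to_inv z.1) (extChartAt_to_inv z.2)
  have hp1 : p.1 ∈ e.target := mem_extChartAt_target z.1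
  have hp2 : p.2 ∈ e'.target := mem_extChartAt_target z.2
  have c1 : ContMDiffAt 𝓘(ℝ, E) 𝓘(ℝ, E) ∞ e.symm p.1 :=
    (contMDiffOn_extChartAt_symm z.1).contMDiffAt (extChartAt_target_mem_nhds (I := 𝓘(ℝ, E)) z.1)
  have c2 : ContMDiffAt 𝓘(ℝ, F) 𝓘(ℝ, F) ∞ e'.symm p.2 :=
    (contMDiffOn_extChartAt_symm z.2).contMDiffAt (extChartAt_target_mem_nhds (I := 𝓘(ℝ, F)) z.2)
  have hgs : ContMDiffAt 𝓘(ℝ, E × F) (𝓘(ℝ, E).prod 𝓘(ℝ, F)) ∞ g p :=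
    (c1.comp p (ContinuousLinearMap.fst ℝ E F).contMDiffAt).prodMk
      (c2.comp p (ContinuousLinearMap.snd ℝ E F).contMDiffAt)
  obtain ⟨L, L', -, -, hL2⟩ := deriv_chart z p hp1 hp2
  have hV' := contMDiffAt_up hV hs
  have hW' := contMDiffAt_up hW hs'
  rw [← h2] at hV' hW'
  have k1 := mpullback_mlieBracket (hV'.mdifferentiableAt (by simp))
    (hW'.mdifferentiableAt (by simp)) hgs hn
  have hev : ∀ (V : ∀ y : M, TangentSpace 𝓘(ℝ, E) y) (s : ∀ y : M', TangentSpace 𝓘(ℝ, F) y),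
      mpullback 𝓘(ℝ, E × F) (𝓘(ℝ, E).prod 𝓘(ℝ, F)) g (up V s) =ᶠ[𝓝 p]
        fun q : E × F => ((mpullback 𝓘(ℝ, E) 𝓘(ℝ, E) e.symm V q.1 : E),
          (mpullback 𝓘(ℝ, F) 𝓘(ℝ, F) e'.symm s q.2 : F)) := fun V s => by
    filter_upwards [continuous_fst.continuousAt.preimage_mem_nhds
      (extChartAt_target_mem_nhds (I := 𝓘(ℝ, E)) z.1), continuous_snd.continuousAt.preimage_mem_nhds
      (extChartAt_target_mem_nhds (I := 𝓘(ℝ, F)) z.2)] with q hq hq'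
    exact pull_up V s z q hq hq'
  rw [(hev V s).mlieBracket_vectorField_eq (hev W s')] at k1
  rw [← mlieBracketWithin_univ (I := 𝓘(ℝ, E × F)), mlieBracketWithin_eq_lieBracketWithin,
    lieBracketWithin_univ] at k1
  have k3 := lieBracket_up (p := p) a1 a2 b1 b2
  have k4 := pull_up (mlieBracket 𝓘(ℝ, E) V W) (mlieBracket 𝓘(ℝ, F) s s') z p hp1 hp2
  have k5 : mpullback 𝓘(ℝ, E × F) (𝓘(ℝ, E).prod 𝓘(ℝ, F)) g
      (mlieBracket (𝓘(ℝ, E).prod 𝓘(ℝ, F)) (up V s) (up W s')) p =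
      mpullback 𝓘(ℝ, E × F) (𝓘(ℝ, E).prod 𝓘(ℝ, F)) g
        (up (mlieBracket 𝓘(ℝ, E) V W) (mlieBracket 𝓘(ℝ, F) s s')) p :=
    (k1.trans k3).trans ((Prod.ext a3 b3).symm.trans k4.symm)
  rw [mpullback_apply, mpullback_apply, ← hL2] at k5
  erw [ContinuousLinearMap.inverse_equiv] at k5
  rw [← h2]
  exact (ContinuousLinearEquiv.injective _) k5

omit [CompleteSpace E] [CompleteSpace F] [IsManifold 𝓘(ℝ, E) ∞ M] [IsManifold 𝓘(ℝ, F) ∞ M'] in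
/-- Partial derivatives. -/
theorem mfderiv_prod {S : Type} [NormedAddCommGroup S] [NormedSpace ℝ S] {g : M × M' → S}
    {z : M × M'} (h : MDifferentiableAt (𝓘(ℝ, E).prod 𝓘(ℝ, F)) 𝓘(ℝ, S) g z) (v : E) (s : F) :
    (mfderiv (𝓘(ℝ, E).prod 𝓘(ℝ, F)) 𝓘(ℝ, S) g z (v, s) : S) =
      (mfderiv 𝓘(ℝ, E) 𝓘(ℝ, S) (fun y => g (y, z.2)) z.1 v : S) +
        (mfderiv 𝓘(ℝ, F) 𝓘(ℝ, S) (fun y => g (z.1, y)) z.2 s : S) :=
  mfderiv_prod_eq_add_apply h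

end Product

end Pool.Agent.Lib.WD.PG
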