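import Pool.Agent.Lib.WD.Blue
import Pool.Agent.Lib.WD.PGA73

/-! Brackets of product vector fields. -/

namespace Pool.Agent.Lib.WD

theorem stBRK : St_BRK := fun _ _ _ _ _ _ _ _ _ hU hW =>
  ⟨PG.contMDiffAt_up hU hW, fun hU' hW' => PG.bracket_up hU hU' hW hW'⟩

end Pool.Agent.Lib.WD
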