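import Pool.Agent.Lib.WD.Defs
import Pool.Agent.Lib.RQ.Wrap

/-! The index is a bordism invariant: blueprint. Block `X` is
`theorem stX (earlier blocks) : St_X` in `Lib/WD/X.lean`. -/

noncomputable section

open Set Function MeasureTheory CliffordAlgebra BCO ContinuousLinearMap
open scoped Manifold ContDiff InnerProductSpace

namespace Pool.Agent.Lib.WD

open CX AN
open ANA.Cyl (ht)
open ANA.CylB (pull)

/-! ### Index calculus -/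

/-- IXC: corners, orthogonal sums, isomorphisms, stability -/
def St_IXC : Prop := ∀ (G : Type) [Group G] (E F : Type) [NormedAddCommGroup E]
  [InnerProductSpace ℝ E] [CompleteSpace E] [NormedAddCommGroup F] [InnerProductSpace ℝ F]
  [CompleteSpace F],
  (∀ (i : E →L[ℝ] F) (p : F →L[ℝ] E), p ∘L i = 1 → ∀ e ∈ RA G E, ∀ f ∈ RA G E, e * e = e →
    f * f = f → ∀ z, IsInd e f z →
    IsInd (amp G i ∘L e ∘L amp G p) (amp G i ∘L f ∘L amp G p) z) ∧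
  (∀ e ∈ RA G E, ∀ f ∈ RA G E, ∀ e' ∈ RA G E, ∀ f' ∈ RA G E, e * e = e → f * f = f →
    e' * e' = e' → f' * f' = f' → e * e' = 0 → e' * e = 0 → f * f' = 0 → f' * f = 0 →
    f * e' = 0 → f' * e = 0 → ∀ z z', IsInd e f z → IsInd e' f' z' →
    IsInd (e + e') (f + f') (z + z')) ∧
  (∀ e ∈ RA G E, ∀ f ∈ RA G E, e * e = e → f * f = f → ‖e - f‖ < 1 → IsInd e f 0) ∧
  (alg G E).Stable IsInd

/-- IXN: the opposite grading (from IXC) -/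
def St_IXN : Prop := ∀ (G : Type) [Group G] (E : Type) [NormedAddCommGroup E]
  [InnerProductSpace ℝ E] [CompleteSpace E] (w : E →L[ℝ] E), ∀ R ∈ RA G E, Res (amp G w) R →
  ∀ z, Ix (amp G w) R z →
  Ix (-amp G w) (-R) (-z) ∧ Ix (-amp G w) (-(amp G w * R * amp G w)) (-z)

/-- TWX: the twisted resolvent -/
def St_TWX : Prop := ∀ (G : Type) [Group G] (E : Type) [NormedAddCommGroup E]
  [InnerProductSpace ℝ E] [CompleteSpace E] (n : ℕ) (A : Type) [Fintype A] (P : RQ.Pack G E n A),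
  (∃ R', Tw P R') ∧ (∀ a z, P.Good a (can P a z).1 (can P a z).2) ∧
  (∀ a (𝒮 : Set (E × E)), (∀ q ∈ 𝒮, P.Good a q.1 q.2) →
    ∀ q ∈ (Submodule.span ℝ 𝒮).topologicalClosure, P.Good a q.1 q.2) ∧
  ∀ R', Tw P R' → (∀ η, (η, R' η) ∈ (Submodule.span ℝ {q : V G E × V G E | ∃ a g z,
      q = (sh P a g (can P a z).1, sh P a g (can P a z).2)}).topologicalClosure) ∧
    (∀ R'', Tw P R'' → R'' = R') ∧
    (∀ X : E →L[ℝ] E, Itw P P X → IsCompactOperator (X * P.R : E →L[ℝ] E) →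
      amp G X * R' ∈ KK G E) ∧
    ∀ κ : ℝ, 0 < κ → LB P (κ • 1) → ∀ η, κ * ‖R' η‖ ^ 2 ≤ ‖η - amp G P.w (R' η)‖ ^ 2

/-- MAP: comparison of two packages (from TWX) -/
def St_MAP : Prop := ∀ (G : Type) [Group G] (E F : Type) [NormedAddCommGroup E]
  [InnerProductSpace ℝ E] [CompleteSpace E] [NormedAddCommGroup F] [InnerProductSpace ℝ F]
  [CompleteSpace F] (n n' : ℕ) (A : Type) [Fintype A] (P : RQ.Pack G E n A) (Q : RQ.Pack G F n' A)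
  (α β γ : E →L[ℝ] F), (∀ a g, α ∘L P.E a g = Q.E a g ∘L α ∧ β ∘L P.E a g = Q.E a g ∘L β ∧
    γ ∘L P.E a g = Q.E a g ∘L γ) →
  (∀ a z, Q.Good a (α (can P a z).1 + β (can P a z).2) (γ (can P a z).2)) →
  ∀ R R', Tw P R → Tw Q R' → ∀ η, R' (amp G α η + amp G β (R η)) = amp G γ (R η)

/-- ZERO: uniqueness and vanishing (from IXC, TWX) -/
def St_ZERO : Prop := ∀ (G : Type) [Group G] (E : Type) [NormedAddCommGroup E]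
  [InnerProductSpace ℝ E] [CompleteSpace E] (n : ℕ) (A : Type) [Fintype A] (P : RQ.Pack G E n A),
  (∀ z z', PInd P z → PInd P z' → z = z') ∧ ∀ κ : ℝ, 0 < κ → LB P (κ • 1) → PInd P 0

/-- POT: a bounded potential and a change of the connection (from IXC, TWX, MAP) -/
def St_POT : Prop := ∀ (G : Type) [Group G] (E : Type) [NormedAddCommGroup E]
  [InnerProductSpace ℝ E] [CompleteSpace E] (n : ℕ) (A : Type) [Fintype A] (P : RQ.Pack G E n A)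
  (B T T' : E →L[ℝ] E) (K : Fin n → E →L[ℝ] E), star B = B → P.w * B + B * P.w = 0 →
  Itw P P B → (∀ j, Itw P P (K j)) → LB P T →
  (∀ η, ⟪T' (P.R η), P.R η⟫_ℝ ≤ ⟪T (P.R η), P.R η⟫_ℝ + 2 * ⟪η - P.w (P.R η), B (P.R η)⟫_ℝ +
    ‖B (P.R η)‖ ^ 2 + 2 * ∑ j, ⟪P.N j η, K j (P.R η)⟫_ℝ - ∑ j, ‖K j (P.R η)‖ ^ 2) →
  ∃ Q : RQ.Pack G E n A, Q.w = P.w ∧ Q.gam = P.gam ∧ Q.ph = P.ph ∧ Q.dph = P.dph ∧ Q.E = P.E ∧
    IsUnit (1 + B * P.R) ∧ Q.R * (1 + B * P.R) = P.R ∧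
    (∀ j, Q.N j * (1 + B * P.R) = P.N j - K j * P.R) ∧ LB Q T' ∧
    (IsCompactOperator (B * P.R : E →L[ℝ] E) → ∀ z, PInd P z → PInd Q z)

/-- SUM: direct sums (from IXC, TWX, MAP) -/
def St_SUM : Prop := ∀ (G : Type) [Group G] (E F : Type) [NormedAddCommGroup E]
  [InnerProductSpace ℝ E] [CompleteSpace E] [NormedAddCommGroup F] [InnerProductSpace ℝ F]
  [CompleteSpace F] (n : ℕ) (A : Type) [Fintype A] (P : RQ.Pack G E n A) (P' : RQ.Pack G F n A),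
  ∃ Q : RQ.Pack G (H2 E F) n A, Q.w = ds P.w P'.w ∧ Q.R = ds P.R P'.R ∧
    (∀ j, Q.N j = ds (P.N j) (P'.N j)) ∧ (∀ a, Q.ph a = ds (P.ph a) (P'.ph a)) ∧
    (∀ a g, Q.E a g = ds (P.E a g) (P'.E a g)) ∧
    (∀ T T', LB P T → LB P' T' → LB Q (ds T T')) ∧
    ∀ z z', PInd P z → PInd P' z' → PInd Q (z + z')

/-- NEG: the opposite package (from IXN, TWX, MAP) -/
def St_NEG : Prop := ∀ (G : Type) [Group G] (E : Type) [NormedAddCommGroup E]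
  [InnerProductSpace ℝ E] [CompleteSpace E] (n : ℕ) (A : Type) [Fintype A] (P : RQ.Pack G E n A),
  ∃ Q : RQ.Pack G E n A, Q.w = -P.w ∧ Q.R = -P.R ∧ (∀ j, Q.N j = -P.N j) ∧ Q.ph = P.ph ∧
    Q.E = P.E ∧ (∀ T, LB P T → LB Q T) ∧ ∀ z, PInd P z → PInd Q (-z)

/-- CPL2: coupled packages have the same index (from ZERO, POT, SUM, NEG) -/
def St_CPL2 : Prop := ∀ (G : Type) [Group G] (E F : Type) [NormedAddCommGroup E]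
  [InnerProductSpace ℝ E] [CompleteSpace E] [NormedAddCommGroup F] [InnerProductSpace ℝ F]
  [CompleteSpace F] (n : ℕ) (A : Type) [Fintype A] (P : RQ.Pack G E n A) (Q : RQ.Pack G F n A)
  T T' V₁ V₂ pr Gm K K' C (κ : ℝ), 0 < κ → LB P T → LB Q T' → Side P Q V₁ V₂ pr Gm K K' C →
  (∀ u, κ * ‖u‖ ^ 2 ≤ ⟪T u, u⟫_ℝ + ⟪V₁ u, u⟫_ℝ) → (∀ v, κ * ‖v‖ ^ 2 ≤ ⟪T' v, v⟫_ℝ + ⟪V₂ v, v⟫_ℝ) →
  ∀ z z', PInd P z → PInd Q z' → z = z'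

/-- CPL3: two orthogonal couplings (from SUM, CPL2) -/
def St_CPL3 : Prop := ∀ (G : Type) [Group G] (E F F' : Type) [NormedAddCommGroup E]
  [InnerProductSpace ℝ E] [CompleteSpace E] [NormedAddCommGroup F] [InnerProductSpace ℝ F]
  [CompleteSpace F] [NormedAddCommGroup F'] [InnerProductSpace ℝ F'] [CompleteSpace F'] (n : ℕ)
  (A : Type) [Fintype A] (P : RQ.Pack G E n A) (Q : RQ.Pack G F n A) (Q' : RQ.Pack G F' n A)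
  T T₂ T₃ V₁ V₂ pr Gm K K' C W₁ W₂ ps Gn L L' D (κ : ℝ), 0 < κ → LB P T → LB Q T₂ → LB Q' T₃ →
  Side P Q V₁ V₂ pr Gm K K' C → Side P Q' W₁ W₂ ps Gn L L' D → star pr = pr → pr * ps = 0 →
  (∀ u, κ * ‖u‖ ^ 2 ≤ ⟪T u, u⟫_ℝ + ⟪V₁ u, u⟫_ℝ + ⟪W₁ u, u⟫_ℝ) →
  (∀ v, κ * ‖v‖ ^ 2 ≤ ⟪T₂ v, v⟫_ℝ + ⟪V₂ v, v⟫_ℝ) → (∀ v, κ * ‖v‖ ^ 2 ≤ ⟪T₃ v, v⟫_ℝ + ⟪W₂ v, v⟫_ℝ) →
  ∀ z z' z'', PInd P z → PInd Q z' → PInd Q' z'' → z = z' + z''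

/-! ### Tensor products -/

/-- operators on a Hilbert tensor product; for `rt b = lt b.flip` use the API of `b.flip` -/
structure TensApi {E F H : Type} [NormedAddCommGroup E] [InnerProductSpace ℝ E] [CompleteSpace E]
    [NormedAddCommGroup F] [InnerProductSpace ℝ F] [CompleteSpace F] [NormedAddCommGroup H]
    [InnerProductSpace ℝ H] [CompleteSpace H] (b : E →L[ℝ] F →L[ℝ] H) : Prop where
  ext : ∀ {K : Type} [NormedAddCommGroup K] [NormedSpace ℝ K] (S S' : H →L[ℝ] K),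
    (∀ x y, S (b x y) = S' (b x y)) → S = S'
  lt_b : ∀ T x y, lt b T (b x y) = b (T x) y
  rt_b : ∀ T x y, rt b T (b x y) = b x (T y)
  hom : ∃ φ : (E →L[ℝ] E) →⋆ₐ[ℝ] (H →L[ℝ] H), ∀ T, φ T = lt b T
  norm : ∀ T, ‖lt b T‖ ≤ ‖T‖
  comm : ∀ T S, lt b T * rt b S = rt b S * lt b T
  pos : ∀ T : E →L[ℝ] E, (∀ x, 0 ≤ ⟪T x, x⟫_ℝ) → ∀ v, 0 ≤ ⟪lt b T v, v⟫_ℝ
  cpt : ∀ (T : E →L[ℝ] E) (S : F →L[ℝ] F), IsCompactOperator T → IsCompactOperator S →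
    IsCompactOperator (lt b T * rt b S : H →L[ℝ] H)
  dense : ∀ (D : Set E) (D' : Set F), Dense D → Dense D' →
    Dense (Submodule.span ℝ {v | ∃ x ∈ D, ∃ y ∈ D', v = b x y} : Set H)

/-- TENS -/
def St_TENS : Prop := ∀ (E F H : Type) [NormedAddCommGroup E] [InnerProductSpace ℝ E]
  [CompleteSpace E] [NormedAddCommGroup F] [InnerProductSpace ℝ F] [CompleteSpace F]
  [NormedAddCommGroup H] [InnerProductSpace ℝ H] [CompleteSpace H] (b : E →L[ℝ] F →L[ℝ] H),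
  Tens b → TensApi b

/-- TENL: the lift to `ℓ²(G)` (from TENS) -/
def St_TENL : Prop := ∀ (G : Type) [Group G] (E F H : Type) [NormedAddCommGroup E]
  [InnerProductSpace ℝ E] [CompleteSpace E] [NormedAddCommGroup F] [InnerProductSpace ℝ F]
  [CompleteSpace F] [NormedAddCommGroup H] [InnerProductSpace ℝ H] [CompleteSpace H]
  (b : E →L[ℝ] F →L[ℝ] H), Tens b → Tens (lf G b) ∧ (∀ X ∈ RA G E, lt (lf G b) X ∈ RA G H) ∧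
  (∀ T, lt (lf G b) (amp G T) = amp G (lt b T)) ∧ ∀ S, rt (lf G b) S = amp G (rt b S)

/-- GAP: finite dimensional kernel and spectral gap -/
def St_GAP : Prop := ∀ (F : Type) [NormedAddCommGroup F] [InnerProductSpace ℝ F] [CompleteSpace F]
  (d B X : F →L[ℝ] F) (κ : ℝ), Res d B → IsCompactOperator (X * B : F →L[ℝ] F) → 0 < κ →
  (∀ k, κ * ‖B k‖ ^ 2 ≤ ‖k - d (B k)‖ ^ 2 + ‖X (B k)‖ ^ 2) →
  Ker B ((Module.finrank ℝ (LinearMap.ker (B - 1).toLinearMap) : ℤ) -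
    Module.finrank ℝ (LinearMap.ker (B + 1).toLinearMap))

/-- PIX: the index of a product (from IXC, IXN, TENS, TENL) -/
def St_PIX : Prop := ∀ (G : Type) [Group G] (E F H : Type) [NormedAddCommGroup E]
  [InnerProductSpace ℝ E] [CompleteSpace E] [NormedAddCommGroup F] [InnerProductSpace ℝ F]
  [CompleteSpace F] [NormedAddCommGroup H] [InnerProductSpace ℝ H] [CompleteSpace H]
  (b : E →L[ℝ] F →L[ℝ] H), Tens b → ∀ (e : E →L[ℝ] E) (d B : F →L[ℝ] F) (k : ℤ), Res d B →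
  Ker B k → ∀ R ∈ RA G E, Res (amp G e) R → ∀ R' : V G H →L[ℝ] V G H,
  (∀ η y, R' (amp G (b.flip (B y)) η + amp G (b.flip (y - B y) ∘L e) (R η)) =
    amp G (b.flip (B y)) (R η)) →
  ∀ z, Ix (amp G e) R z → Ix (amp G (lt b e * rt b d)) R' (k • z)

/-- TEN: the product package (from TWX, MAP, TENS, PIX) -/
def St_TEN : Prop := ∀ (G : Type) [Group G] (E F H : Type) [NormedAddCommGroup E]
  [InnerProductSpace ℝ E] [CompleteSpace E] [NormedAddCommGroup F] [InnerProductSpace ℝ F]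
  [CompleteSpace F] [NormedAddCommGroup H] [InnerProductSpace ℝ H] [CompleteSpace H] (n : ℕ)
  (A : Type) [Fintype A] (P : RQ.Pack G E n A) (b : E →L[ℝ] F →L[ℝ] H), Tens b →
  ∀ d B J : F →L[ℝ] F, Res d B → star J = -J → J * J = -1 →
  (∀ j, P.w * P.gam j = -(P.gam j * P.w)) →
  ∃ Q : RQ.Pack G H (n + 1) A, Q.w = lt b P.w * rt b d ∧ (∀ a, Q.ph a = lt b (P.ph a)) ∧
    (∀ a g, Q.E a g = lt b (P.E a g)) ∧
    (∀ x y, Q.R (b x (B y) + b (P.w (P.R x)) (y - B y)) = b (P.R x) (B y)) ∧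
    (∀ (j : Fin n) x y, Q.N j.castSucc (b x (B y) + b (P.w (P.R x)) (y - B y)) =
      b (P.N j x) (B y)) ∧ Q.N (Fin.last n) = 0 ∧
    (∀ (D : Set E) (D' : Set F), Dense D → Dense D' → Dense (Submodule.span ℝ
      {v | ∃ x ∈ D, ∃ y ∈ D', v = b x (B y) + b (P.w (P.R x)) (y - B y)} : Set H)) ∧
    (∀ (X : E →L[ℝ] E) (Y : F →L[ℝ] F), IsCompactOperator (X * P.R : E →L[ℝ] E) →
      IsCompactOperator (Y * B : F →L[ℝ] F) →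
      IsCompactOperator (lt b X * rt b Y * Q.R : H →L[ℝ] H)) ∧
    (∀ (T : E →L[ℝ] E) (T' : F →L[ℝ] F), LB P T →
      (∀ y, ⟪T' (B y), B y⟫_ℝ ≤ ‖y - d (B y)‖ ^ 2) → LB Q (lt b T + rt b T')) ∧
    ∀ (k : ℤ) z, Ker B k → PInd P z → PInd Q (k • z)

/-! ### The package of a manifold -/

/-- GEO -/
def St_GEO : Prop := ∀ (G : Type) [Group G] (m N : ℕ) (x : Sing G m) (S : Spinor (m + 1) N)
  (μ : Measure x.X.M), x.X.IsVol μ → ∀ w, Gr S w → ∀ r φ, Phi x r φ →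
  (∃ P, Geo x S w μ r φ P ∧ AN.Res x.X S w μ P.R P.N) ∧
  ∀ P, Geo x S w μ r φ P → AN.Res x.X S w μ P.R P.N →
    (∀ (a : Fin (r + 1)) s, IsT x.X S s → tsupport s ⊆ OO x a →
      P.Good a (cl μ (dw x.X S w s)) (cl μ s)) ∧
    ∀ (a : Fin (r + 1)) z, can P a z ∈ (Submodule.span ℝ
      {q : Lp (Eu N) 2 μ × Lp (Eu N) 2 μ | ∃ s, IsT x.X S s ∧ tsupport s ⊆ OO x a ∧
        q = (cl μ (dw x.X S w s), cl μ s)}).topologicalClosure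

/-- LINK: the index of the statement (from TWX, GEO) -/
def St_LINK : Prop := ∀ (G : Type) [Group G] (m N : ℕ) (x : Sing G m) (S : Spinor (m + 1) N)
  (μ : Measure x.X.M), x.X.IsVol μ → RQ.GrOK S → ∀ r φ, Phi x r φ → Top x r →
  ∀ P, Geo x S S.gr μ r φ P → AN.Res x.X S S.gr μ P.R P.N → ∀ z, x.IsIndex S z ↔ PInd P z

/-- CAL: lower bounds and potentials -/
def St_CAL : Prop := ∀ (n N : ℕ) (X : SM n) (S : Spinor n N) (μ : Measure X.M), X.IsVol μ →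
  SigmaCompactSpace X.M → ∀ w, Gr S w → ∀ R Nn, AN.Res X S w μ R Nn → Res (cst μ w) R ∧
  (∀ v, Bm v → (∀ y, v y ≤ X.scal y / 4) → ∀ η, ∑ j, ‖Nn j η‖ ^ 2 +
    ⟪mul (Eu N) μ v (R η), R η⟫_ℝ ≤ ‖η - cst μ w (R η)‖ ^ 2) ∧
  ∀ τ, Tau S w τ → ∀ f b, Sm X f → Bm b → (∀ y, 0 ≤ b y ∧ ∑ i, dv X i f y ^ 2 ≤ b y ^ 2) →
    ∀ B, B = mul (Eu N) μ f * cst μ τ → star B = B ∧ cst μ w * B + B * cst μ w = 0 ∧
    (∀ η, ⟪mul (Eu N) μ (fun y => f y ^ 2 - b y) (R η), R η⟫_ℝ ≤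
      2 * ⟪η - cst μ w (R η), B (R η)⟫_ℝ + ‖B (R η)‖ ^ 2) ∧
    ∀ R' (N' : Fin n → _), IsUnit (1 + B * R) → R' * (1 + B * R) = R →
      (∀ j, N' j * (1 + B * R) = Nn j) → ResP X S w τ f μ R' N'

/-- POS: positivity of multiplication operators -/
def St_POS : Prop := ∀ (α : Type) [MeasurableSpace α] (N : ℕ) (μ : Measure α) (f g : α → ℝ), Bm f →
  Bm g → (∀ y, f y ≤ g y) → ∀ u, ⟪mul (Eu N) μ f u, u⟫_ℝ ≤ ⟪mul (Eu N) μ g u, u⟫_ℝ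

/-- WPK: the package of the bordism (from TWX, ZERO, POT, GEO, CAL, POS) -/
def St_WPK : Prop := ∀ (G : Type) [Group G] (m N : ℕ) (x : Sing G m) (S : Spinor (m + 1) N)
  (μ : Measure x.X.M), x.X.IsVol μ → ∀ w τ, Tau S w τ → ∀ r φ, Phi x r φ →
  ∀ (f b : x.X.M → ℝ) (Λ κ : ℝ), Sm x.X f → Bm b →
  (∀ y, 0 ≤ b y ∧ ∑ i, dv x.X i f y ^ 2 ≤ b y ^ 2) → (HasCompactSupport fun y => f y - Λ) →
  0 < κ → (∀ y, κ ≤ x.X.scal y / 4 + Λ ^ 2) → Bm x.X.scal →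
  ∃ P, Geo x S w μ r φ P ∧ ResP x.X S w τ f μ P.R P.N ∧
    LB P (mul (Eu N) μ fun y => x.X.scal y / 4 + (f y ^ 2 - b y)) ∧
    (∀ χ : x.X.M → ℝ, Bm χ → HasCompactSupport χ →
      IsCompactOperator (mul (Eu N) μ χ * P.R : Lp (Eu N) 2 μ →L[ℝ] Lp (Eu N) 2 μ)) ∧ PInd P 0

/-! ### The line -/

/-- calculus on the line -/
structure FltApi : Prop where
  cpl : Cpl LN
  scal : ∀ t, LN.scal t = 0
  homeo : ∃ h : LN.M ≃ₜ ℝ, ∀ t, h t = tc t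
  vol : ∀ ν : Measure LN.M, LN.IsVol ν → MeasurePreserving tc ν volume
  sm : ∀ {W : Type} [NormedAddCommGroup W] [NormedSpace ℝ W] (η : ℝ → W),
    ContMDiff (𝓡 1) 𝓘(ℝ, W) ∞ (fun t : LN.M => η (tc t)) ↔ ContDiff ℝ ∞ η
  dv : ∀ η : ℝ → ℝ, ContDiff ℝ ∞ η → ∀ (c : ℝ) i t,
    dv LN i (fun t => η (c * tc t)) t = c * deriv η (c * tc t)
  isT : ∀ {N : ℕ} (S : Spinor 1 N) (η : ℝ → Eu N),
    IsT LN S (fun t => η (tc t)) ↔ ContDiff ℝ ∞ η ∧ HasCompactSupport η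
  dir : ∀ {N : ℕ} (S : Spinor 1 N) (η : ℝ → Eu N) t,
    dir LN S (fun t => η (tc t)) t = gam S 0 (deriv η (tc t))

/-- FLT -/
def St_FLT : Prop := FltApi

/-- LKER: the spinor module of the line and the kernel (from FLT) -/
def St_LKER : Prop := ∃ (S : Spinor 1 2) (d σ : Eu 2 →L[ℝ] Eu 2), Tau S d σ ∧
  ∀ ν : Measure LN.M, LN.IsVol ν → ∀ (φ : ℝ → ℝ) (Λ a b : ℝ) (ς : ℤ), ς = 1 ∨ ς = -1 →
  ContDiff ℝ ∞ φ → 0 < Λ → (∀ t ≤ a, φ t = -Λ) → (∀ t, b ≤ t → φ t = Λ) →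
  ∀ B Nn, ResP LN S d σ (fun t => φ (ς * tc t)) ν B Nn → Res (cst ν d) B →
  (Module.finrank ℝ (LinearMap.ker (B - 1).toLinearMap) : ℤ) -
    Module.finrank ℝ (LinearMap.ker (B + 1).toLinearMap) = ς

/-- LINE: the operator on the line (from GAP, CAL, POS, FLT, LKER) -/
def St_LINE : Prop := ∃ (S : Spinor 1 2) (d σ : Eu 2 →L[ℝ] Eu 2), Tau S d σ ∧
  ∀ ν : Measure LN.M, LN.IsVol ν → ∀ (φ : ℝ → ℝ) (Λ a b : ℝ) (ς : ℤ), ς = 1 ∨ ς = -1 →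
  ContDiff ℝ ∞ φ → 0 < Λ → (∀ t ≤ a, φ t = -Λ) → (∀ t, b ≤ t → φ t = Λ) →
  (Bm fun t => φ (ς * tc t) ^ 2 - |deriv φ (ς * tc t)|) ∧
  ∃ B Nn, ResP LN S d σ (fun t => φ (ς * tc t)) ν B Nn ∧ Res (cst ν d) B ∧ Ker B ς ∧
    (∀ y, ⟪mul (Eu 2) ν (fun t => φ (ς * tc t) ^ 2 - |deriv φ (ς * tc t)|) (B y), B y⟫_ℝ ≤
      ‖y - cst ν d (B y)‖ ^ 2) ∧
    ∀ χ : LN.M → ℝ, Bm χ → HasCompactSupport χ →
      IsCompactOperator (mul (Eu 2) ν χ * B : Lp (Eu 2) 2 ν →L[ℝ] Lp (Eu 2) 2 ν)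

/-! ### Products -/

/-- TSP: tensor products of spinor modules (from TENS) -/
def St_TSP : Prop := ∀ (p q n N₁ N₂ N : ℕ) (h : p + q = n) (S₁ : Spinor p N₁)
  (e : Eu N₁ →L[ℝ] Eu N₁) (S₂ : Spinor q N₂),
  (Gr S₁ e → N = N₁ * N₂ → ∃ (S : Spinor n N) (b : _), TS h S₁ e S₂ S b) ∧
  ∀ (S : Spinor n N) b, TS h S₁ e S₂ S b → (∀ d, Gr S₂ d → Gr S (lt b e * rt b d)) ∧
    (∀ d σ, Tau S₂ d σ → Tau S (lt b e * rt b d) (lt b e * rt b σ)) ∧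
    (Even q → S.gr = lt b S₁.gr * rt b S₂.gr)

/-- BOX: the tensor product of `L²` spaces (from TENS) -/
def St_BOX : Prop := ∀ (α β : Type) [MeasurableSpace α] [MeasurableSpace β] (N₁ N₂ N : ℕ)
  (b : Eu N₁ →L[ℝ] Eu N₂ →L[ℝ] Eu N) (μ : Measure α) (ν : Measure β), SigmaFinite μ →
  SigmaFinite ν → Tens b → ∃ box, BoxApi b μ ν box

/-- TR: transport of `L²` sections -/
def St_TR : Prop := ∀ (α β : Type) [MeasurableSpace α] [MeasurableSpace β] (N : ℕ) (ψ : α → β)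
  (O : Set α) (T : α → Eu N →L[ℝ] Eu N) (μ : Measure α) (ρ : Measure β), MeasurableSet O →
  MeasurableEmbedding (O.domRestrict ψ) → (∀ A ⊆ O, MeasurableSet A → ρ (ψ '' A) = μ A) →
  StronglyMeasurable (O.indicator T) → (∀ z ∈ O, ∀ u v, ⟪T z u, T z v⟫_ℝ = ⟪u, v⟫_ℝ) →
  ∃ U, TrApi ψ O T μ ρ U

/-- VOLP: the volume of a product -/
def St_VOLP : Prop := ∀ (p q n : ℕ) (h : p + q = n) (X : SM p) (Y : SM q) (Z : SM n) ψ O,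
  IsProd h X Y Z ψ O → IsOpen O → SigmaCompactSpace X.M → SigmaCompactSpace Y.M →
  ∀ μ ν ρ, X.IsVol μ → Y.IsVol ν → Z.IsVol ρ → MeasurableSet O ∧
  MeasurableEmbedding (O.domRestrict ψ) ∧ ∀ A ⊆ O, MeasurableSet A → ρ (ψ '' A) = μ.prod ν A

/-- product vector fields -/
def pv {p q : ℕ} {X : SM p} {Y : SM q} (U : ∀ y : X.M, TangentSpace (𝓡 p) y)
    (W : ∀ y : Y.M, TangentSpace (𝓡 q) y) (z : X.M × Y.M) :
    TangentSpace ((𝓡 p).prod (𝓡 q)) z := (U z.1, W z.2)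

/-- BRK: brackets of product vector fields -/
def St_BRK : Prop := ∀ (p q : ℕ) (X : SM p) (Y : SM q) (U U' : ∀ y : X.M, TangentSpace (𝓡 p) y)
  (W W' : ∀ y : Y.M, TangentSpace (𝓡 q) y) (z : X.M × Y.M),
  ContMDiffAt (𝓡 p) (𝓡 p).tangent ∞ (fun y => (⟨y, U y⟩ : TangentBundle (𝓡 p) X.M)) z.1 →
  ContMDiffAt (𝓡 q) (𝓡 q).tangent ∞ (fun y => (⟨y, W y⟩ : TangentBundle (𝓡 q) Y.M)) z.2 →
  ContMDiffAt ((𝓡 p).prod (𝓡 q)) ((𝓡 p).prod (𝓡 q)).tangent ∞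
    (fun y => (⟨y, pv U W y⟩ : TangentBundle ((𝓡 p).prod (𝓡 q)) (X.M × Y.M))) z ∧
  (ContMDiffAt (𝓡 p) (𝓡 p).tangent ∞ (fun y => (⟨y, U' y⟩ : TangentBundle (𝓡 p) X.M)) z.1 →
    ContMDiffAt (𝓡 q) (𝓡 q).tangent ∞ (fun y => (⟨y, W' y⟩ : TangentBundle (𝓡 q) Y.M)) z.2 →
    VectorField.mlieBracket ((𝓡 p).prod (𝓡 q)) (pv U W) (pv U' W') z =
      pv (VectorField.mlieBracket (𝓡 p) U U') (VectorField.mlieBracket (𝓡 q) W W') z)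

/-- PFR: the product frames (from BRK) -/
def St_PFR : Prop := ∀ (p q n : ℕ) (h : p + q = n) (X : SM p) (Y : SM q) (Z : SM n) ψ O,
  IsProd h X Y Z ψ O → IsOpen O → ∃ Φ : Fm Z, FmApi h X Y ψ O Φ

/-- PSC: the scalar curvature of a product -/
def St_PSC : Prop := ∀ (p q n : ℕ) (h : p + q = n) (X : SM p) (Y : SM q) (Z : SM n) ψ O,
  IsProd h X Y Z ψ O → IsOpen O → ∀ Φ : Fm Z, FmApi h X Y ψ O Φ →
  ∀ z ∈ O, Z.scal (ψ z) = X.scal z.1 + Y.scal z.2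

/-- PTA: pointwise algebra and functions -/
def St_PTA : Prop := ∀ (p q n N : ℕ) (h : p + q = n) (X : SM p) (Y : SM q) (Z : SM n) ψ O,
  IsProd h X Y Z ψ O → IsOpen O → SigmaCompactSpace X.M → SigmaCompactSpace Y.M →
  ∀ Φ : Fm Z, FmApi h X Y ψ O Φ → ∀ S : Spinor n N,
  PtA X Y O S (pT X Y ψ Φ S) (pO X Y ψ Φ) ∧ PtF h X Y ψ O (pO X Y ψ Φ)

/-- PTT: product sections -/
def St_PTT : Prop := ∀ (p q n N₁ N₂ N : ℕ) (h : p + q = n) (X : SM p) (Y : SM q) (Z : SM n) ψ O,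
  IsProd h X Y Z ψ O → IsOpen O → ∀ Φ : Fm Z, FmApi h X Y ψ O Φ →
  ∀ (S₁ : Spinor p N₁) e (S₂ : Spinor q N₂) (S : Spinor n N) b, TS h S₁ e S₂ S b →
  PtT h X Y ψ O S₁ e S₂ S b (pT X Y ψ Φ S) (pO X Y ψ Φ)

/-- the transport along a product embedding -/
def St_PT : Prop := ∀ (p q n N₁ N₂ N : ℕ) (h : p + q = n) (X : SM p) (Y : SM q) (Z : SM n) ψ O,
  IsProd h X Y Z ψ O → IsOpen O → SigmaCompactSpace X.M → SigmaCompactSpace Y.M →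
  ∀ (S₁ : Spinor p N₁) e (S₂ : Spinor q N₂) (S : Spinor n N) b, TS h S₁ e S₂ S b →
  ∀ μ ν ρ, X.IsVol μ → Y.IsVol ν → Z.IsVol ρ →
  ∃ T Ω U, PtApi h X Y ψ O S₁ e S₂ S b T Ω ∧ TrApi ψ O T (μ.prod ν) ρ U

theorem pt_of (hTR : St_TR) (hV : St_VOLP) (hF : St_PFR) (hS : St_PSC) (hA : St_PTA)
    (hT : St_PTT) : St_PT := by
  intro p q n N₁ N₂ N h X Y Z ψ O hp hO hX hY S₁ e S₂ S b hb μ ν ρ hμ hν hρ
  obtain ⟨Φ, hΦ⟩ := hF p q n h X Y Z ψ O hp hO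
  obtain ⟨h1, h2⟩ := hA p q n N h X Y Z ψ O hp hO hX hY Φ hΦ S
  obtain ⟨v1, v2, v3⟩ := hV p q n h X Y Z ψ O hp hO hX hY μ ν ρ hμ hν hρ
  obtain ⟨U, hU⟩ := hTR _ _ N ψ O _ _ ρ v1 v2 v3 h1.meas h1.iso
  exact ⟨_, _, U, ⟨h1, h2, hT p q n N₁ N₂ N h X Y Z ψ O hp hO Φ hΦ S₁ e S₂ S b hb,
    hS p q n h X Y Z ψ O hp hO Φ hΦ⟩, hU⟩

/-- PRD: the package of the product with the line (from TENS, TEN, BOX) -/
def St_PRD : Prop := ∀ (G : Type) [Group G] (m N₁ N : ℕ) (x : Sing G m) (S₁ : Spinor (m + 1) N₁) e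
  (μ : Measure x.X.M), x.X.IsVol μ → Gr S₁ e → ∀ r φ, Phi x r φ → ∀ P, Geo x S₁ e μ r φ P →
  AN.Res x.X S₁ e μ P.R P.N → ∀ (S₂ : Spinor 1 2) d σ (b : Eu N₁ →L[ℝ] Eu 2 →L[ℝ] Eu N), Tens b →
  Tau S₂ d σ → ∀ ν : Measure LN.M, LN.IsVol ν → SigmaCompactSpace LN.M → ∀ f B Nn, Bm f →
  ResP LN S₂ d σ f ν B Nn → Res (cst ν d) B → (∀ χ : LN.M → ℝ, Bm χ → HasCompactSupport χ →
    IsCompactOperator (mul (Eu 2) ν χ * B : Lp (Eu 2) 2 ν →L[ℝ] Lp (Eu 2) 2 ν)) →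
  ∃ Q, Prd x S₁ e S₂ d σ b f μ ν r φ Q ∧
    (∀ v v', Bm v → Bm v' → LB P (mul (Eu N₁) μ v) →
      (∀ y, ⟪mul (Eu 2) ν v' (B y), B y⟫_ℝ ≤ ‖y - cst ν d (B y)‖ ^ 2) →
      LB Q (mul (Eu N) (μ.prod ν) fun z => v z.1 + v' z.2)) ∧
    ∀ (k : ℤ) z, Ker B k → PInd P z → PInd Q (k • z)

/-! ### The coupling -/

/-- FUN: the real functions -/
def St_FUN : Prop := ∀ κ C R : ℝ, 0 < κ → 0 ≤ C → Nonempty (Fn κ C R)

/-- PHIC: compatible partitions of unity -/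
def St_PHIC : Prop := ∀ (G : Type) [Group G] (m : ℕ),
  (∀ x : Sing G m, ∃ r₀, ∀ r, r₀ ≤ r → Top x r ∧ ∃ φ, Phi x r φ) ∧
  ∀ (w : Sing G (m + 1)) (x y : Sing G m) ς ς' α β, Emb x w ς α → Emb y w ς' β →
  ∃ (r : ℕ) (R : ℝ) (φ : ℕ → w.X.M → ℝ) (φx : ℕ → x.X.M → ℝ) (φy : ℕ → y.X.M → ℝ), 1 ≤ R ∧
    Phi w r φ ∧ Phi x r φx ∧ Phi y r φy ∧ Top x r ∧ Top y r ∧
    (∀ a p (t : Eu 1), ht x p ≤ 3 / 4 → R ≤ t 0 → φ a (w.j (α p, t)) = φx a p) ∧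
    ∀ a p (t : Eu 1), ht y p ≤ 3 / 4 → R ≤ t 0 → φ a (w.j (β p, t)) = φy a p

/-- SCAL: curvature bounds and functions of the height -/
def St_SCAL : Prop := ∀ (G : Type) [Group G] (m : ℕ),
  (∀ x : Sing G m, Bm x.X.scal ∧ IsOpen x.nbd ∧ (∀ p, p ∈ x.nbd ↔ ht x p < 2) ∧
    ∀ (η : ℝ → ℝ) (s R : ℝ), ContDiff ℝ ∞ η → 0 < s → (∀ t < s, η t = η 0) →
      (∀ t, R ≤ t → η t = η R) → Sm x.X (fun p => η (ht x p)) ∧
      (Bm fun p => |deriv η (ht x p)|) ∧ (HasCompactSupport fun p => η (ht x p) - η R) ∧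
      ∀ p, ∑ i, dv x.X i (fun p => η (ht x p)) p ^ 2 = deriv η (ht x p) ^ 2) ∧
  (∀ (w : Sing G (m + 1)) (x : Sing G m) ς α, Emb x w ς α → IsOpen (eO x ς) ∧
    ∀ z ∈ eO x ς, ht w (eψ x w ς α z) = ς * tc z.2) ∧
  ∀ (w : Sing G (m + 1)) (x y : Sing G m) ς ς' α β, Emb x w ς α → Emb y w ς' β →
    (Disjoint (α '' x.nbd) (β '' y.nbd) →
      Disjoint (eψ x w ς α '' eO x ς) (eψ y w ς' β '' eO y ς')) ∧
    ((∀ p, p ∉ α '' x.core → p ∉ β '' y.core → 0 < w.N.scal p) → ∃ κ : ℝ, 0 < κ ∧ ∀ p,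
      p ∉ eψ x w ς α '' eO x ς → p ∉ eψ y w ς' β '' eO y ς' → 0 < ht w p → κ ≤ w.X.scal p)

/-- POL: the polarised Lichnerowicz formula -/
def St_POL : Prop := ∀ (n N : ℕ) (X : SM n) (S : Spinor n N) (μ : Measure X.M), X.IsVol μ →
  SigmaCompactSpace X.M → ∀ Φ, Sm X Φ → ∀ s t, IsT X S s → IsT X S t →
  IsT X S (cV X S Φ t) ∧ MemLp (nV X S Φ t) 2 μ ∧ MemLp (cV X S Φ (dir X S t)) 2 μ ∧
  ⟪cl μ (nV X S Φ s), cl μ t⟫_ℝ = ⟪cl μ s, cl μ fun y =>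
    nV X S Φ t y + cV X S Φ (dir X S t) y + dir X S (cV X S Φ t) y⟫_ℝ

/-- COL: an identity on the collar -/
def St_COL : Prop := ∀ (G : Type) [Group G] (m N : ℕ) (x : Sing G m) (S : Spinor (m + 1) N)
  (η : ℝ → ℝ) (s : ℝ), ContDiff ℝ ∞ η → 0 < s → (∀ t < s, η t = η 0) →
  ∀ Φ, Φ = (fun p => η (ht x p)) → ∀ v, IsT x.X S v → ∀ p,
  nV x.X S Φ (cV x.X S Φ v) p + cV x.X S Φ (nV x.X S Φ v) p +
    cV x.X S Φ (dir x.X S (cV x.X S Φ v)) p = deriv η (ht x p) ^ 2 • dir x.X S v p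

/-- SD1: the algebraic properties of the coupling (from TENS, FLT, SCAL) -/
def St_SD1 : Prop := ∀ (G : Type) [Group G] (m N₁ N : ℕ) (D : CD G m N₁ N) (s : SD D),
  D.P.w ∘L s.Gm = s.Gm ∘L s.Q.w ∧ Itw s.Q D.P s.Gm ∧ (∀ j, Itw s.Q D.P (s.K j)) ∧
  (∀ j, Itw D.P s.Q (s.K' j)) ∧
  IsCompactOperator (adjoint s.Gm ∘L D.P.R : Lp (Eu N) 2 D.ρ →L[ℝ] s.H) ∧
  IsCompactOperator (s.Gm ∘L s.Q.R : s.H →L[ℝ] Lp (Eu N) 2 D.ρ) ∧ s.pr ∘L s.Gm = s.Gm ∧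
  ∀ j, s.pr ∘L s.K j = s.K j

/-- SD2: the gain (from FLT, SCAL) -/
def St_SD2 : Prop := ∀ (G : Type) [Group G] (m N₁ N : ℕ) (D : CD G m N₁ N) (s : SD D),
  Bm s.a ∧ ∀ u v, ⟪mul (Eu N) D.ρ s.aW u, u⟫_ℝ + ⟪s.mu s.a v, v⟫_ℝ ≤
    ‖adjoint s.Gm u‖ ^ 2 + ‖s.Gm v‖ ^ 2 - ∑ j, ‖s.K j v‖ ^ 2 - ∑ j, ‖s.K' j u‖ ^ 2 +
      2 * ⟪u, s.C v⟫_ℝ

/-- SD3: the cross terms on test sections (from TENS, FLT, SCAL, POL, COL) -/
def St_SD3 : Prop := ∀ (G : Type) [Group G] (m N₁ N : ℕ) (D : CD G m N₁ N) (s : SD D)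
  (u : D.w.X.M → Eu N) (v : s.x.X.M → Eu N₁) (t : LN.M → Eu 2), IsT D.w.X D.S u →
  IsT s.x.X D.S₁ v → IsT LN D.S₂ t →
  ⟪cl D.ρ (dir D.w.X D.S u), s.Gm (cl _ (bx D.b v t))⟫_ℝ -
    ⟪s.Gm (cl _ fun z => D.b (dir s.x.X D.S₁ v z.1) (t z.2) +
      D.b (D.e (v z.1)) (dir LN D.S₂ t z.2)), cl D.ρ u⟫_ℝ +
    ∑ j, ⟪cl D.ρ (nab D.w.X D.S j u), s.K j (cl _ (bx D.b v t))⟫_ℝ +
    ∑ j : Fin (m + 1), ⟪cl _ (bx D.b (nab s.x.X D.S₁ j v) t), s.K' j.castSucc (cl D.ρ u)⟫_ℝ =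
    ⟪cl D.ρ u, s.C (cl _ (bx D.b v t))⟫_ℝ

/-- SD4: the cross terms (from TENS, FLT, SCAL, SD3) -/
def St_SD4 : Prop := ∀ (G : Type) [Group G] (m N₁ N : ℕ) (D : CD G m N₁ N) (s : SD D) η ζ,
  ⟪η - D.P.w (D.P.R η), s.Gm (s.Q.R ζ)⟫_ℝ - ⟪s.Gm (ζ - s.Q.w (s.Q.R ζ)), D.P.R η⟫_ℝ +
    ∑ j, ⟪D.P.N j η, s.K j (s.Q.R ζ)⟫_ℝ + ∑ j, ⟪s.Q.N j ζ, s.K' j (D.P.R η)⟫_ℝ =
    ⟪D.P.R η, s.C (s.Q.R ζ)⟫_ℝ

theorem side_of (h1 : St_SD1) (h2 : St_SD2) (h4 : St_SD4) {G : Type} [Group G] {m N₁ N : ℕ}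
    {D : CD G m N₁ N} (s : SD D) :
    Side D.P s.Q (mul (Eu N) D.ρ s.aW) (s.mu s.a) s.pr s.Gm s.K s.K' s.C :=
  let ⟨a1, a2, a3, a4, a5, a6, a7, a8⟩ := h1 G m N₁ N D s
  ⟨a1, a2, a3, a4, a5, a6, a7, a8, (h2 G m N₁ N D s).2, h4 G m N₁ N D s⟩

/-! ### The theorem -/

/-- BORD: bordism invariance (from CPL3, GEO, LINK, CAL, POS, WPK, FLT, LINE, TSP, PT, PRD, FUN,
PHIC, SCAL, SD1, SD2, SD4) -/
def St_BORD : Prop := ∀ (G : Type) [Group G] (m N : ℕ) (x y : Sing G m) (S : Spinor (m + 1) N),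
  RQ.GrOK S → (∀ p, 0 < x.N.scal p) → (∀ p, 0 < y.N.scal p) → Bord x y →
  ∀ z z', x.IsIndex S z → y.IsIndex S z' → z = z'

/-- BOTT: the product formula (from TWX, MAP, TENS, PIX, GEO, LINK, CAL, TSP, BOX, PT, PHIC) -/
def St_BOTT : Prop := ∀ (G : Type) [Group G] (m m' N₁ N₂ N : ℕ) (x : Sing G m) (y : Sing G m')
  (B : SM 8), SigmaCompactSpace B.M → IsBott B x y → ∀ (S₁ : Spinor (m + 1) N₁) (S₂ : Spinor 8 N₂),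
  RQ.GrOK S₁ → RQ.GrOK S₂ → N = N₁ * N₂ → ∀ ν, B.IsVol ν → ∀ R Nn, AN.Res B S₂ S₂.gr ν R Nn →
  ∀ k : ℤ, Ker R k → ∀ z, x.IsIndex S₁ z → ∃ S : Spinor (m' + 1) N, y.IsIndex S (k • z)

/-- BKER: the kernel on the Bott manifold (from IXC, TWX, GAP, PIX, GEO, LINK, PHIC) -/
def St_BKER : Prop := ∀ (m N : ℕ) (b : Sing Unit m) (S : Spinor (m + 1) N), RQ.GrOK S →
  IsEmpty b.N.M → b.IsIndex S (BCH.cls (1 : Matrix (Fin 1) (Fin 1) (Cr Unit))) →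
  ∃ ν, b.X.IsVol ν ∧ ∃ R Nn, AN.Res b.X S S.gr ν R Nn ∧ Ker R 1

/-- the index map exists -/
def St_WD : Prop := ∀ (G : Type) [Group G] (b : Sing Unit 7) (S₀ : Spinor (7 + 1) 16),
  IsEmpty b.N.M → b.IsIndex S₀ (BCH.cls (1 : Matrix (Fin 1) (Fin 1) (Cr Unit))) →
  ∃ θ : RB G b.X → BCH.K0 (Cr G), ∀ (x : Cyc G) (S : Spinor (8 * x.1 + 7 + 1) (16 ^ (x.1 + 1))) z,
    θ (Quot.mk _ x) = z ↔ x.2.1.IsIndex S z

theorem wd_of (hG : RQ.St_GOAL) (hC : RQ.St_CLF) (h1 : St_BORD) (h2 : St_BOTT) (h3 : St_BKER) :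
    St_WD := by
  intro G _ b S₀ hb h0
  have hS₀ : RQ.GrOK S₀ := hC 0 16 S₀
  obtain ⟨ν, hν, R, Nn, hR, hK⟩ := h3 7 16 b S₀ hS₀ hb h0
  have S := fun k => (spinor_nonempty k).some
  choose θ hθ hu using fun x : Cyc G => hG.1 G x.1 _ (S x.1) x.2.1 x.2.2
  refine ⟨Quot.lift θ ?_, fun x S' z => ⟨fun h => ?_, fun h => (hu x z (h.indep _)).symm⟩⟩
  · rintro x y (⟨k, a, c, rfl, rfl, h⟩ | h)
    · exact h1 G _ _ a.1 c.1 (S k) (hC k _ _) a.2 c.2 h _ _ (hθ ⟨k, a⟩) (hθ ⟨k, c⟩)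
    · obtain ⟨k, a⟩ := x
      obtain ⟨l, c⟩ := y
      obtain rfl : l = k + 1 := by
        obtain ⟨h, -⟩ := h
        dsimp only at h
        omega
      obtain ⟨S', hS'⟩ := h2 G _ _ _ 16 (16 ^ (k + 1 + 1)) a.1 c.1 b.X inferInstance h (S k) S₀
        (hC k _ _) hS₀ (pow_succ _ _) ν hν R Nn hR 1 hK _ (hθ ⟨k, a⟩)
      rw [one_smul] at hS'
      exact hu ⟨k + 1, c⟩ _ (hS'.indep _)
  · exact h ▸ (hθ x).indep S'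

end Pool.Agent.Lib.WD
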