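import Pool.Agent.Lib.WD.Blue

/-! Block CAL: lower bounds and potentials. -/

noncomputable section

open Set Function MeasureTheory CliffordAlgebra BCO ContinuousLinearMap
open scoped Manifold ContDiff InnerProductSpace

namespace Pool.Agent.Lib.WD

open CX AN

variable {n N : ℕ} {X : SM n} {S : Spinor n N}

/-- Clifford multiplication by a vector multiplies the norm by the length of the vector. -/
theorem cal_norm (hA : AlgApi X S) (d : Fin n → ℝ) (v : Eu N) :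
    ‖∑ i, gam S i (d i • v)‖ ^ 2 = (∑ i, d i ^ 2) * ‖v‖ ^ 2 := by
  have h1 : ∀ i j, ⟪gam S i v, gam S j v⟫_ℝ + ⟪gam S j v, gam S i v⟫_ℝ =
      if i = j then 2 * ‖v‖ ^ 2 else 0 := fun i j => by
    rw [hA.gam_skew, hA.gam_skew, ← neg_add, ← inner_add_right, hA.gam_rel,
      real_inner_smul_right, real_inner_self_eq_norm_sq]
    split_ifs <;> ring
  have h2 : ‖∑ i, gam S i (d i • v)‖ ^ 2 =
      ∑ i, ∑ j, d i * d j * ⟪gam S i v, gam S j v⟫_ℝ := by
    rw [← real_inner_self_eq_norm_sq, sum_inner]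
    refine Finset.sum_congr rfl fun i _ => ?_
    rw [inner_sum]
    refine Finset.sum_congr rfl fun j _ => ?_
    rw [map_smul, map_smul, real_inner_smul_left, real_inner_smul_right, mul_assoc]
  have h3 : ∑ i, ∑ j, d i * d j * ⟪gam S i v, gam S j v⟫_ℝ =
      ∑ i, ∑ j, d i * d j * ⟪gam S j v, gam S i v⟫_ℝ :=
    Finset.sum_congr rfl fun i _ => Finset.sum_congr rfl fun j _ => by rw [real_inner_comm]
  have h4 : ∑ i, ∑ j, d i * d j * ⟪gam S i v, gam S j v⟫_ℝ +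
      ∑ i, ∑ j, d i * d j * ⟪gam S j v, gam S i v⟫_ℝ = 2 * ((∑ i, d i ^ 2) * ‖v‖ ^ 2) := by
    rw [← Finset.sum_add_distrib, Finset.sum_mul, Finset.mul_sum]
    refine Finset.sum_congr rfl fun i _ => ?_
    rw [← Finset.sum_add_distrib]
    simp only [← mul_add, h1, mul_ite, mul_zero, Finset.sum_ite_eq, Finset.mem_univ, if_true]
    ring
  linarith

theorem stCAL : St_CAL := by
  intro n N X S μ hμ hσ w hw R Nn hR
  have hM := stMUL X.M (Eu N) μ
  have hA := stALGB n N X S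
  have hB := smb_holds n X
  have hC := core_holds n N X S
  have hm := mem_holds n N X S μ hμ
  have hL := lic_holds n N X S μ hμ hσ
  have hapi := rapi_holds n N X S μ hμ hσ w hw R Nn hR
  have hdw : ∀ {s}, IsT X S s → cl μ (dw X S w s) = cl μ (dir X S s) + cst μ w (cl μ s) :=
    fun hs => rapi_dw hM hC hm hs
  have hD : ∀ {s}, IsT X S s → cl μ (dw X S w s) - cst μ w (cl μ s) = cl μ (dir X S s) :=
    fun hs => by rw [hdw hs]; abel
  have hq : ∀ {v : X.M → ℝ}, Bm v → ∀ {s}, IsT X S s →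
      Integrable (fun y => v y * ‖s y‖ ^ 2) μ ∧
      ⟪mul (Eu N) μ v (cl μ s), cl μ s⟫_ℝ = ∫ y, v y * ‖s y‖ ^ 2 ∂μ := fun {v} hv {s} hs => by
    have h1 := hM.mul_cl hv (hm s hs).1
    have h2 := hM.inner_cl h1.1 (hm s hs).1
    simp only [real_inner_smul_left, real_inner_self_eq_norm_sq] at h2
    rw [h1.2]
    exact h2
  refine ⟨⟨star_eq_of_inner (hM.cst_inner w w hw.sym), ?_, star_eq_of_inner hapi.sym, ?_,
    hapi.inj⟩, ?_, ?_⟩
  · rw [← hM.cst_mul, show w * w = 1 from ContinuousLinearMap.ext hw.sq, hM.cst_one]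
  · rw [hapi.anti, two_smul]
  · intro v hv hvs η
    refine hR.dense.induction (P := fun η => ∑ j, ‖Nn j η‖ ^ 2 +
      ⟪mul (Eu N) μ v (R η), R η⟫_ℝ ≤ ‖η - cst μ w (R η)‖ ^ 2) ?_
      (isClosed_le (by fun_prop) (by fun_prop)) η
    rintro _ ⟨s, hs, rfl⟩
    have e2 : ∑ j, ‖Nn j (cl μ (dw X S w s))‖ ^ 2 = ∑ j, ‖cl μ (nab X S j s)‖ ^ 2 :=
      Finset.sum_congr rfl fun j _ => by rw [hR.N_cl s hs]
    rw [hR.R_cl s hs, hD hs, e2, hL.lich hs, (hq hv hs).2]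
    exact add_le_add le_rfl (integral_mono (hq hv hs).1 (hL.int hs) fun y =>
      mul_le_mul_of_nonneg_right (hvs y) (sq_nonneg _))
  intro τ hτ f b hf hb hfb B hBe
  have hfb' := hB.bm hf
  have hτn : ∀ u, ‖τ u‖ = ‖u‖ := fun u => by
    have : ‖τ u‖ ^ 2 = ‖u‖ ^ 2 := by
      rw [← real_inner_self_eq_norm_sq, hτ.gt.sym, hτ.gt.sq, real_inner_self_eq_norm_sq]
    exact (pow_left_inj₀ (norm_nonneg _) (norm_nonneg _) two_ne_zero).1 this
  have hcomm : ∀ (A : Eu N →L[ℝ] Eu N) g,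
      mul (Eu N) μ f (cst μ A g) = cst μ A (mul (Eu N) μ f g) := fun A g =>
    congrArg (fun T => T g) (hM.mul_cst hfb'.1 A)
  have hBa : ∀ g, B g = mul (Eu N) μ f (cst μ τ g) := fun g => by rw [hBe]; rfl
  have hBcl : ∀ {s}, MemLp s 2 μ → MemLp (fun y => f y • τ (s y)) 2 μ ∧
      B (cl μ s) = cl μ fun y => f y • τ (s y) := fun {s} hs => by
    have h1 := hM.cst_cl τ hs
    have h2 := hM.mul_cl hfb'.1 h1.1
    exact ⟨h2.1, by rw [hBa, h1.2, h2.2]⟩
  have hdp : ∀ {s}, IsT X S s →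
      cl μ (dp X S w τ f s) = (1 + B * R) (cl μ (dw X S w s)) := fun {s} hs => by
    have h1 := hBcl (hm s hs).1
    have h2 : MemLp (dw X S w s) 2 μ :=
      (hm _ (hC.dir hs)).1.add (hM.cst_cl w (hm s hs).1).1
    rw [add_apply, mul_apply_eq_comp, hR.R_cl s hs, h1.2, one_apply_eq_self,
      ← hM.cl_add h2 h1.1]
    rfl
  refine ⟨star_eq_of_inner fun x y => ?_, ?_, fun η => ?_, ?_⟩
  · rw [hBa, hBa, hM.mul_inner hfb'.1, hM.cst_inner τ τ hτ.gt.sym, hcomm]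
  · ext1 g
    have h0 : MemLp (g : X.M → Eu N) 2 μ := Lp.memLp g
    have h1 := hM.cst_cl w h0
    have h2 := hM.cst_cl τ h0
    have h3 : cst μ τ (cst μ w g) = -cst μ w (cst μ τ g) := by
      conv_lhs => rw [← hM.cl_coe g]
      conv_rhs => rw [← hM.cl_coe g]
      rw [h1.2, h2.2, (hM.cst_cl τ h1.1).2, (hM.cst_cl w h2.1).2, ← hM.cl_neg]
      simp only [hτ.anti]
    rw [add_apply, mul_apply_eq_comp, mul_apply_eq_comp, hBa, hBa, h3, map_neg, hcomm w,
      add_neg_cancel]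
    rfl
  · refine hR.dense.induction (P := fun η =>
      ⟪mul (Eu N) μ (fun y => f y ^ 2 - b y) (R η), R η⟫_ℝ ≤
        2 * ⟪η - cst μ w (R η), B (R η)⟫_ℝ + ‖B (R η)‖ ^ 2) ?_
      (isClosed_le (by fun_prop) (by fun_prop)) η
    rintro _ ⟨s, hs, rfl⟩
    have ht := hC.w hτ.gt hs
    have hsm : ∀ y ∈ tsupport fun y => τ (s y), ContMDiffAt (𝓡 n) 𝓘(ℝ, ℝ) ∞ f y :=
      fun y _ => hf.sm y
    have hu := hC.mul ht hsm
    have h1 := hBcl (hm s hs).1
    have h2 := hBcl (hm _ (hC.dir hs)).1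
    have hg := rapi_cg (S := S) hM hfb'.2 (hm _ ht).1
    have hg' : MemLp (fun y => ∑ i, gam S i (dv X i f y • τ (s y))) 2 μ :=
      memLp_finsetSum _ fun i _ => hg.1 i
    have e1 : dir X S (fun y => f y • τ (s y)) = fun y => -(f y • τ (dir X S s y)) +
        ∑ i, gam S i (dv X i f y • τ (s y)) := funext fun y => by
      rw [hC.dir_mul ht hsm, hC.dir_w hτ.gt hs, smul_neg]
    have e2 := hL.sym hs hu
    have h2' : MemLp (fun y => -(f y • τ (dir X S s y))) 2 μ := h2.1.neg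
    rw [e1, hM.cl_add h2' hg', hM.cl_neg, ← h1.2, ← h2.2, inner_add_right, inner_neg_right]
      at e2
    have e3 : ⟪cl μ s, B (cl μ (dir X S s))⟫_ℝ = ⟪cl μ (dir X S s), B (cl μ s)⟫_ℝ := by
      rw [hBa, hBa, ← hM.mul_inner hfb'.1, ← hM.cst_inner τ τ hτ.gt.sym, ← hcomm,
        real_inner_comm]
    have h3 := hM.inner_cl (hm s hs).1 hg'
    have h4 := hM.norm_cl h1.1
    have hv : Bm fun y => f y ^ 2 - b y := by
      have h5 := (hM.mul_add (hM.mul_mul hfb'.1 hfb'.1).1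
        (hM.mul_mul (hM.mul_const (-1)).1 hb).1).1
      convert h5 using 2
      ring
    have h6 := hq hv hs
    rw [hR.R_cl s hs, hD hs, h6.2, h1.2, h4.2, ← h1.2]
    have e4 : 2 * ⟪cl μ (dir X S s), B (cl μ s)⟫_ℝ =
        ∫ y, ⟪s y, ∑ i, gam S i (dv X i f y • τ (s y))⟫_ℝ ∂μ := by
      rw [← h3.2]
      linarith
    rw [e4, ← integral_add h3.1 h4.1]
    refine integral_mono h6.1 (h3.1.add h4.1) fun y => ?_
    have h7 := cal_norm hA (fun i => dv X i f y) (τ (s y))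
    have h8 : ‖∑ i, gam S i (dv X i f y • τ (s y))‖ ≤ b y * ‖s y‖ := by
      refine (pow_le_pow_iff_left₀ (norm_nonneg _) (mul_nonneg (hfb y).1 (norm_nonneg _))
        two_ne_zero).1 ?_
      rw [h7, hτn, mul_pow]
      exact mul_le_mul_of_nonneg_right (hfb y).2 (sq_nonneg _)
    have h9 := abs_real_inner_le_norm (s y) (∑ i, gam S i (dv X i f y • τ (s y)))
    have h10 := mul_le_mul_of_nonneg_left h8 (norm_nonneg (s y))
    have h11 : ‖f y • τ (s y)‖ ^ 2 = f y ^ 2 * ‖s y‖ ^ 2 := by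
      rw [norm_smul, mul_pow, Real.norm_eq_abs, sq_abs, hτn]
    simp only [h11]
    nlinarith [neg_abs_le ⟪s y, ∑ i, gam S i (dv X i f y • τ (s y))⟫_ℝ]
  · intro R' N' hU hR' hN'
    refine ⟨fun s hs => ?_, fun s hs j => ?_, ?_⟩
    · rw [hdp hs, ← mul_apply_eq_comp, hR', hR.R_cl s hs]
    · rw [hdp hs, ← mul_apply_eq_comp, hN', hR.N_cl s hs]
    · obtain ⟨u, hu⟩ := hU
      have hs : Surjective (1 + B * R : Lp (Eu N) 2 μ →L[ℝ] Lp (Eu N) 2 μ) := fun y =>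
        ⟨(↑u⁻¹ : Lp (Eu N) 2 μ →L[ℝ] Lp (Eu N) 2 μ) y, by
          rw [← mul_apply_eq_comp, ← hu, Units.mul_inv, one_apply_eq_self]⟩
      refine (hs.denseRange.dense_image (1 + B * R).continuous hR.dense).mono ?_
      rintro _ ⟨_, ⟨s, hs, rfl⟩, rfl⟩
      exact ⟨s, hs, (hdp hs).symm⟩

end Pool.Agent.Lib.WD
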