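import Pool.Agent.Lib.WD.Blue

/-! COL: an identity on the collar. -/

noncomputable section

open Set Function MeasureTheory CliffordAlgebra Filter Topology
open scoped Manifold ContDiff InnerProductSpace

namespace Pool.Agent.Lib.WD

open CX AN
open ANA.Cyl (ht)

namespace COLb

variable {n N : ℕ} (X : SM n) (S : Spinor n N)

/-- Clifford multiplication by the gradient in one frame -/
def cP (a : ℕ) (Φ : X.M → ℝ) (y : X.M) (w : Eu N) : Eu N := ∑ j, X.dd a j Φ y • gam S j w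

/-- the derivative along the gradient in one frame -/
def nL (a : ℕ) (Φ : X.M → ℝ) (u : X.M → Eu N) (y : X.M) : Eu N :=
  ∑ j, X.dd a j Φ y • nabL X S a j u y

/-- the identity in one frame -/
def Idn (a : ℕ) (Φ : X.M → ℝ) (u : X.M → Eu N) (y : X.M) (l : ℝ) : Prop :=
  nL X S a Φ (fun z => cP X S a Φ z (u z)) y + cP X S a Φ y (nL X S a Φ u y) +
    cP X S a Φ y (X.dirac S a (fun z => cP X S a Φ z (u z)) y) = l • X.dirac S a u y

variable {X S} {a b : ℕ} {Φ : X.M → ℝ} {u u' : X.M → Eu N} {y : X.M} {l : ℝ}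

theorem cP_tr (ha : y ∈ X.U a) (hb : y ∈ X.U b) (w : Eu N) :
    cP X S a Φ y (tr X S a b y w) = tr X S a b y (cP X S b Φ y w) := by
  have A := stALGB n N X S
  simp only [cP, map_sum, map_smul, A.tr_gam ha hb, A.dd_om Φ ha hb, Finset.sum_smul,
    Finset.smul_sum, smul_smul, smul_eq_mul]
  rw [Finset.sum_comm]
  simp only [mul_comm]

theorem nL_tr (ha : y ∈ X.U a) (hb : y ∈ X.U b) (hu : MDifferentiableAt (𝓡 n) 𝓘(ℝ, Eu N) u y) :
    nL X S a Φ (fun z => tr X S a b z (u z)) y = tr X S a b y (nL X S b Φ u y) := by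
  have A := stALGB n N X S
  simp only [nL, map_sum, map_smul, (stGAU n N X S).nabL ha hb hu, Finset.smul_sum, smul_smul]
  rw [Finset.sum_comm]
  refine Finset.sum_congr rfl fun j _ => ?_
  rw [← Finset.sum_smul]
  congr 1
  simp only [A.dd_om Φ ha hb, smul_eq_mul, Finset.sum_mul]
  rw [Finset.sum_comm]
  simp only [mul_right_comm, ← Finset.sum_mul, A.om_col ha hb]
  simp

theorem nL_congr (h : u =ᶠ[𝓝 y] u') : nL X S a Φ u y = nL X S a Φ u' y :=
  Finset.sum_congr rfl fun j _ => by rw [(stLOC n N X S).nabL_congr h]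

theorem dirac_congr (h : u =ᶠ[𝓝 y] u') : X.dirac S a u y = X.dirac S a u' y := by
  rw [dirac_eq, dirac_eq]
  exact Finset.sum_congr rfl fun j _ => by rw [(stLOC n N X S).nabL_congr h]

theorem Idn.tr (ha : y ∈ X.U a) (hb : y ∈ X.U b) (hΦ : ContMDiffAt (𝓡 n) 𝓘(ℝ, ℝ) ∞ Φ y)
    (hu : ContMDiffAt (𝓡 n) 𝓘(ℝ, Eu N) ∞ u y) (h : Idn X S b Φ u y l)
    (e : u' =ᶠ[𝓝 y] fun z => tr X S a b z (u z)) : Idn X S a Φ u' y l := by
  have h1 := hu.mdifferentiableAt (by simp)
  have h2 : MDifferentiableAt (𝓡 n) 𝓘(ℝ, Eu N) (fun z => cP X S b Φ z (u z)) y :=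
    (contMDiffAt_finsetSum fun j _ => ((stLOC n N X S).dd_sm hb hΦ j).smul
      ((gam S j).contMDiffAt.comp y hu)).mdifferentiableAt (by simp)
  have h3 : (fun z => cP X S a Φ z (u' z)) =ᶠ[𝓝 y] fun z => AN.tr X S a b z (cP X S b Φ z (u z)) := by
    filter_upwards [e, (X.isOpen a).mem_nhds ha, (X.isOpen b).mem_nhds hb] with z h1 h2 h3
    rw [h1, cP_tr h2 h3]
  rw [Idn, nL_congr h3, nL_congr e, dirac_congr h3, dirac_congr e, nL_tr ha hb h1, nL_tr ha hb h2,
    (stGAU n N X S).dirac ha hb h1, (stGAU n N X S).dirac ha hb h2, cP_tr ha hb, cP_tr ha hb,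
    ← map_add, ← map_add, h, map_smul]

theorem idn_prod (t : Fin n) {ψ : X.M → ℝ} {c : ℝ}
    (h1 : ∀ᶠ z in 𝓝 y, ∀ j, X.dd a j Φ z = if j = t then ψ z else 0)
    (h2 : ∀ j, X.dd a j ψ y = if j = t then c else 0)
    (h3 : ∀ i j k, j = t ∨ k = t → X.ga a i j k y = 0)
    (hψ : MDifferentiableAt (𝓡 n) 𝓘(ℝ, ℝ) ψ y) (hu : MDifferentiableAt (𝓡 n) 𝓘(ℝ, Eu N) u y) :
    Idn X S a Φ u y (ψ y ^ 2) := by
  have A := stALGB n N X S
  have L := stLOC n N X S
  have e : (fun z => cP X S a Φ z (u z)) =ᶠ[𝓝 y] fun z => ψ z • gam S t (u z) :=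
    h1.mono fun z hz => by simp [cP, hz]
  have g1 : ∀ j, j ≠ t → ∀ w, gam S j (gam S t w) = -gam S t (gam S j w) := fun j hj w => by
    have := A.gam_rel j t w
    rw [if_neg hj, zero_smul] at this
    exact eq_neg_of_add_eq_zero_left this
  have g2 : ∀ w, gam S t (gam S t w) = -w := fun w => by
    have := A.gam_rel t t w
    rw [if_pos rfl] at this
    linear_combination (norm := module) (1 / 2 : ℝ) • this
  have g3 : ∀ i, nabL X S a i (fun z => gam S t (u z)) y = gam S t (nabL X S a i u y) := fun i => by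
    rw [nabL, nabL, L.dd_comp (gam S t).differentiableAt hu, (gam S t).fderiv, map_add, map_smul,
      map_sum]
    congr 2
    refine Finset.sum_congr rfl fun j _ => ?_
    rw [map_sum]
    refine Finset.sum_congr rfl fun k _ => ?_
    by_cases h : j = t ∨ k = t
    · simp [h3 i j k h]
    rw [not_or] at h
    rw [map_smul, map_mul]
    change _ • gam S j (gam S k _) = _ • gam S t (gam S j (gam S k _))
    rw [g1 k h.2, map_neg, g1 j h.1, neg_neg]
  have g4 : ∀ i, nabL X S a i (fun z => ψ z • gam S t (u z)) y =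
      ψ y • gam S t (nabL X S a i u y) + (if i = t then c else 0) • gam S t (u y) := fun i => by
    rw [L.nabL_smul (u := fun z => gam S t (u z)) hψ ((gam S t).mdifferentiableAt.comp y hu), g3,
      h2]
  have g5 : ∑ i ∈ Finset.univ.erase t, gam S i (ψ y • gam S t (nabL X S a i u y) +
      (if i = t then c else 0) • gam S t (u y)) =
      -ψ y • gam S t (∑ i ∈ Finset.univ.erase t, gam S i (nabL X S a i u y)) := by
    rw [map_sum, Finset.smul_sum]
    refine Finset.sum_congr rfl fun i hi => ?_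
    have := Finset.ne_of_mem_erase hi
    rw [if_neg this, zero_smul, add_zero, map_smul, g1 i this, smul_neg, neg_smul]
  rw [Idn, nL_congr e, dirac_congr e, dirac_eq, dirac_eq]
  simp only [nL, cP, h1.self_of_nhds, ite_smul, zero_smul, Finset.sum_ite_eq', Finset.mem_univ,
    if_true]
  simp only [g4]
  rw [← Finset.add_sum_erase _ _ (Finset.mem_univ t), ← Finset.add_sum_erase _ _ (Finset.mem_univ t),
    g5]
  simp only [if_true, map_add, map_smul, map_neg, g2]
  module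

theorem of_idn {v : X.M → Eu N} (h : Idn X S (X.fr y) Φ (loc X S (X.fr y) v) y l) :
    nV X S Φ (cV X S Φ v) y + cV X S Φ (nV X S Φ v) y + cV X S Φ (dir X S (cV X S Φ v)) y =
      l • dir X S v y := by
  have A := stALGB n N X S
  have e : loc X S (X.fr y) (cV X S Φ v) =ᶠ[𝓝 y] fun z =>
      cP X S (X.fr y) Φ z (loc X S (X.fr y) v z) := by
    filter_upwards [(X.isOpen _).mem_nhds (A.mem_fr y)] with z hz
    exact (cP_tr hz (A.mem_fr z) _).symm
  rw [Idn, ← nL_congr e, ← dirac_congr e] at h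
  exact h

open ANA.Cyl

variable {G : Type} [Group G] {m : ℕ} (x : Sing G m) (S : Spinor (m + 1) N)

theorem idn_even (a : ℕ) (Φ : x.X.M → ℝ) (u : x.X.M → Eu N) (y : x.X.M) (l : ℝ)
    (h : Idn (ext x) S (2 * a) Φ u y l) : Idn x.X S a Φ u y l := by
  unfold Idn nL cP nabL at h ⊢
  rw [dirac_even, ga_even, dd_even, dd_even] at h
  exact h

theorem idn_odd {η : ℝ → ℝ} (hη : ContDiff ℝ ∞ η) {z : x.N.M × Eu 1} (hz : z ∈ O x) {b : ℕ}
    (hb : z.1 ∈ x.N.U b) {u : (ext x).M → Eu N}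
    (hu : MDifferentiableAt (𝓡 (m + 1)) 𝓘(ℝ, Eu N) u (x.j z)) :
    Idn (ext x) S (2 * b + 1) (fun p => η (ht x p)) u (x.j z) (deriv η (ht x (x.j z)) ^ 2) := by
  have hd : ContDiff ℝ ∞ (deriv η) := hη.iterate_deriv 1
  have hj : x.j '' O x ∈ 𝓝 (x.j z) :=
    (ANA.CylB.isOpen_image x.prod.1 (isOpen_O x) subset_rfl).mem_nhds ⟨z, hz, rfl⟩
  refine idn_prod (X := ext x) (Fin.last m) (ψ := fun p => deriv η (ht x p)) ?_
    (fun j => dd_comp_ht x _ j hz (hd.differentiable (by simp) _))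
    (fun i j k h => ga_last x _ hz hb (.inr h)) ?_ hu
  · filter_upwards [hj]
    rintro _ ⟨w, hw, rfl⟩ j
    rw [ht_j x hw]
    exact dd_comp_ht x _ j hw (hη.differentiable (by simp) _)
  · exact ((hd.contMDiff _).comp _ (ANA.CylB.contMDiffAt_pull (isOpen_O x) (inj x) hz (loc x hz)
      (contMDiff_t x z) 0)).mdifferentiableAt (by simp)

end COLb

open COLb ANA.Cyl in
theorem stCOLb : St_COL := by
  rintro G _ m N x S η s hη hs h0 Φ hΦ v hv p
  have hsm : ContMDiff (𝓡 (m + 1)) 𝓘(ℝ, ℝ) ∞ Φ := hΦ ▸ contMDiff_comp_ht x hη hs h0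
  by_cases hO : p ∈ x.j '' O x
  swap
  · have h1 := g2_comp_ht x (hη.differentiable (by simp)) hs h0 p
    have h2 : η =ᶠ[𝓝 0] fun _ => η 0 := (eventually_lt_nhds hs).mono h0
    have h3 : deriv η (ht x p) ^ 2 = 0 := by simp [ht_off x hO, h2.deriv_eq]
    rw [h3, ← hΦ, g2, Finset.sum_eq_zero_iff_of_nonneg fun _ _ => sq_nonneg _] at h1
    have h4 : ∀ j, dv x.X j Φ p = 0 := fun j => pow_eq_zero_iff two_ne_zero |>.1 (h1 j (by simp))
    simp [nV, cV, h3, h4]
  obtain ⟨z, hz, rfl⟩ := hO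
  have B := stALGB _ N (ext x) S
  have hp := (stALGB _ N x.X S).mem_fr (x.j z)
  have hq := (stALGB _ 0 x.N (sp0 _)).mem_fr z.1
  refine of_idn (idn_even x S _ _ _ _ _ ?_)
  have hu := (hv.sm _).contMDiffAt ((x.X.isOpen _).mem_nhds hp)
  generalize AN.loc x.X S (x.X.fr (x.j z)) v = u at hu
  have ha : x.j z ∈ (ext x).U (2 * x.X.fr (x.j z)) := mem_even x hp
  have hb : x.j z ∈ (ext x).U (2 * x.N.fr z.1 + 1) := mem_odd x hz hq
  have hn := (((ext x).isOpen _).inter ((ext x).isOpen _)).mem_nhds ⟨hb, ha⟩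
  have hu' := ((B.tr_sm _ _).contMDiffAt hn).clm_apply hu
  subst hΦ
  refine (idn_odd x S hη hz hq (hu'.mdifferentiableAt (by simp))).tr ha hb (hsm _) hu' ?_
  filter_upwards [hn] with y hy
  rw [B.tr_tr hy.2 hy.1 hy.2, B.tr_self hy.2]

end Pool.Agent.Lib.WD
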