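import Pool.Agent.Lib.WD.CPL3

/-! Coupled packages have the same index. -/

set_option linter.unusedSectionVars false

noncomputable section

open ContinuousLinearMap
open scoped InnerProductSpace

namespace Pool.Agent.Lib.WD

open CPL3

namespace CPL2b

variable {G : Type} [Group G] {E F : Type} [NormedAddCommGroup E] [InnerProductSpace ℝ E]
  [CompleteSpace E] [NormedAddCommGroup F] [InnerProductSpace ℝ F] [CompleteSpace F] {n : ℕ}
  {A : Type} [Fintype A]

/-- an off diagonal operator -/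
def off (X : F →L[ℝ] E) (Y : E →L[ℝ] F) : H2 E F →L[ℝ] H2 E F :=
  col (X ∘L p2 E F) (Y ∘L p1 E F)

theorem p1_off (X : F →L[ℝ] E) (Y : E →L[ℝ] F) (v : H2 E F) :
    p1 E F (off X Y v) = X (p2 E F v) := p1_col _ _ v

theorem p2_off (X : F →L[ℝ] E) (Y : E →L[ℝ] F) (v : H2 E F) :
    p2 E F (off X Y v) = Y (p1 E F v) := p2_col _ _ v

theorem off_itw {X : F →L[ℝ] E} {Y : E →L[ℝ] F} {a : E →L[ℝ] E} {b : F →L[ℝ] F}
    (h1 : X ∘L b = a ∘L X) (h2 : Y ∘L a = b ∘L Y) : off X Y ∘L ds a b = ds a b ∘L off X Y :=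
  ContinuousLinearMap.ext fun v => ext2
    (by
      rw [comp_apply, comp_apply, p1_off, p1_ds, p2_ds, p1_off]
      exact congrArg (fun T : F →L[ℝ] E => T (p2 E F v)) h1)
    (by
      rw [comp_apply, comp_apply, p2_off, p1_ds, p2_ds, p2_off]
      exact congrArg (fun T : E →L[ℝ] F => T (p1 E F v)) h2)

theorem adj_itw {X : F →L[ℝ] E} {a : E →L[ℝ] E} {b : F →L[ℝ] F} (ha : star a = a)
    (hb : star b = b) (h : X ∘L b = a ∘L X) : adjoint X ∘L a = b ∘L adjoint X := by
  have := congrArg adjoint h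
  rw [adjoint_comp, adjoint_comp, ← star_eq_adjoint a, ← star_eq_adjoint b, ha, hb] at this
  exact this.symm

end CPL2b

open CPL2b in
theorem stCPL2b (h1 : St_ZERO) (h2 : St_POT) (h3 : St_SUM) (h4 : St_NEG) : St_CPL2 := by
  intro G _ E F _ _ _ _ _ _ n A _ P Q T T' V₁ V₂ pr Gm K K' C κ hκ hP hQ hs k1 k2 z z' hz hz'
  obtain ⟨Q', w', R', N', ph', E', lb', ix'⟩ := h4 G F n A Q
  obtain ⟨S, w, R, N, ph, E'', lb, ix⟩ := h3 G E F n A P Q'
  rw [w'] at w
  rw [R'] at R
  simp only [N'] at N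
  simp only [ph'] at ph
  simp only [E'] at E''
  have itw : ∀ {X : F →L[ℝ] E} {Y : E →L[ℝ] F}, Itw Q P X → Itw P Q Y → Itw S S (off X Y) :=
    fun hX hY => ⟨fun a => by rw [ph]; exact off_itw (hX.1 a) (hY.1 a),
      fun a g => by rw [E'']; exact off_itw (hX.2 a g) (hY.2 a g)⟩
  have gw' := adj_itw P.res.w_sa Q.res.w_sa hs.gw.symm
  obtain ⟨U, -, -, -, -, -, -, -, -, lbU, ixU⟩ := h2 G _ n A S (off Gm (adjoint Gm)) (ds T T')
    (κ • 1) (fun j => off (K j) (K' j))
    (star_eq_of_inner fun u v => by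
      rw [inner_eq, inner_eq, p1_off, p1_off, p2_off, p2_off, adjoint_inner_left,
        adjoint_inner_right, add_comm])
    (ContinuousLinearMap.ext fun v => by
      have e1 := congrArg (fun T : F →L[ℝ] E => T (p2 E F v)) hs.gw
      have e2 := congrArg (fun T : E →L[ℝ] F => T (p1 E F v)) gw'
      simp only [comp_apply] at e1 e2
      rw [w]
      refine ext2 ?_ ?_
      · simp only [add_apply, mul_apply_eq_comp, map_add, p1_ds, p2_ds, p1_off, neg_apply, map_neg,
          e1, zero_apply, map_zero, add_neg_cancel]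
      · simp only [add_apply, mul_apply_eq_comp, map_add, p1_ds, p2_ds, p2_off, neg_apply,
          e2, zero_apply, map_zero, neg_add_cancel])
    (itw hs.itwG ⟨fun a => adj_itw (P.mul_sa _ (P.ph_mem a)) (Q.mul_sa _ (Q.ph_mem a))
      (hs.itwG.1 a), fun a g => adj_itw (P.mul_sa _ (P.E_mem a g)) (Q.mul_sa _ (Q.E_mem a g))
      (hs.itwG.2 a g)⟩)
    (fun j => itw (hs.itwK j) (hs.itwK' j)) (lb T T' hP (lb' T' hQ)) fun η => by
      have g := hs.gain (P.R (p1 E F η)) (-Q.R (p2 E F η))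
      have c := hs.cross (p1 E F η) (p2 E F η)
      have a1 := k1 (P.R (p1 E F η))
      have a2 := k2 (-Q.R (p2 E F η))
      rw [← adjoint_inner_right Gm _ (P.R (p1 E F η))] at c
      rw [smul_apply, one_apply_eq_self, real_inner_smul_left, real_inner_self_eq_norm_sq]
      simp only [w, R, N, norm_eq, inner_eq, map_sub, p1_ds, p2_ds, p1_off, p2_off, neg_apply,
        map_neg, norm_neg, inner_neg_left, inner_neg_right, neg_neg, Finset.sum_add_distrib,
        Finset.sum_neg_distrib] at g a2 ⊢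
      linarith
  have hc : IsCompactOperator (off Gm (adjoint Gm) * S.R : H2 E F →L[ℝ] H2 E F) := by
    have e : off Gm (adjoint Gm) * S.R = i1 E F ∘L (Gm ∘L Q.R) ∘L (-p2 E F) +
        i2 E F ∘L (adjoint Gm ∘L P.R) ∘L p1 E F := by
      rw [R]
      refine ContinuousLinearMap.ext fun v => ext2 ?_ ?_
      · rw [mul_apply_eq_comp, p1_off, p2_ds]
        simp [p1, i1, i2]
      · rw [mul_apply_eq_comp, p2_off, p1_ds]
        simp [p2, i1, i2]
    rw [e]
    exact ((hs.cptr.comp_clm (-p2 E F)).clm_comp (i1 E F)).add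
      ((hs.cptl.comp_clm (p1 E F)).clm_comp (i2 E F))
  obtain ⟨u, z0⟩ := h1 G _ n A U
  exact add_neg_eq_zero.1 (u _ _ (ixU hc _ (ix z (-z') hz (ix' z' hz'))) (z0 κ hκ lbU))

end Pool.Agent.Lib.WD
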