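import Pool.Agent.Lib.WD.Blue

/-! Block CPL3: two orthogonal couplings. -/

set_option linter.unusedSectionVars false

noncomputable section

open ContinuousLinearMap
open scoped InnerProductSpace

namespace Pool.Agent.Lib.WD

namespace CPL3

variable {E F F' : Type} [NormedAddCommGroup E] [InnerProductSpace ℝ E] [CompleteSpace E]
  [NormedAddCommGroup F] [InnerProductSpace ℝ F] [CompleteSpace F]
  [NormedAddCommGroup F'] [InnerProductSpace ℝ F'] [CompleteSpace F']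

/-- a row of two operators -/
def row (X : F →L[ℝ] E) (Y : F' →L[ℝ] E) : H2 F F' →L[ℝ] E := X ∘L p1 F F' + Y ∘L p2 F F'

/-- a column of two operators -/
def col (X : E →L[ℝ] F) (Y : E →L[ℝ] F') : E →L[ℝ] H2 F F' := i1 F F' ∘L X + i2 F F' ∘L Y

theorem row_apply (X : F →L[ℝ] E) (Y : F' →L[ℝ] E) (v : H2 F F') :
    row X Y v = X (p1 F F' v) + Y (p2 F F' v) := rfl

theorem p1_col (X : E →L[ℝ] F) (Y : E →L[ℝ] F') (u : E) : p1 F F' (col X Y u) = X u := by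
  simp [col, p1, i1, i2]

theorem p2_col (X : E →L[ℝ] F) (Y : E →L[ℝ] F') (u : E) : p2 F F' (col X Y u) = Y u := by
  simp [col, p2, i1, i2]

theorem p1_ds (X : F →L[ℝ] F) (Y : F' →L[ℝ] F') (v : H2 F F') :
    p1 F F' (ds X Y v) = X (p1 F F' v) := by
  simp [ds, p1, p2, i1, i2]

theorem p2_ds (X : F →L[ℝ] F) (Y : F' →L[ℝ] F') (v : H2 F F') :
    p2 F F' (ds X Y v) = Y (p2 F F' v) := by
  simp [ds, p1, p2, i1, i2]

theorem inner_eq (v v' : H2 F F') :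
    ⟪v, v'⟫_ℝ = ⟪p1 F F' v, p1 F F' v'⟫_ℝ + ⟪p2 F F' v, p2 F F' v'⟫_ℝ :=
  WithLp.prod_inner_apply v v'

theorem norm_eq (v : H2 F F') : ‖v‖ ^ 2 = ‖p1 F F' v‖ ^ 2 + ‖p2 F F' v‖ ^ 2 := by
  rw [← real_inner_self_eq_norm_sq, ← real_inner_self_eq_norm_sq, ← real_inner_self_eq_norm_sq,
    inner_eq]

theorem ext2 {v v' : H2 F F'} (h1 : p1 F F' v = p1 F F' v') (h2 : p2 F F' v = p2 F F' v') :
    v = v' := by
  have : ‖v - v'‖ ^ 2 = 0 := by rw [norm_eq, map_sub, map_sub, h1, h2]; simp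
  exact sub_eq_zero.1 (norm_eq_zero.1 (pow_eq_zero_iff two_ne_zero |>.1 this))

theorem adjoint_row (X : F →L[ℝ] E) (Y : F' →L[ℝ] E) :
    adjoint (row X Y) = col (adjoint X) (adjoint Y) := by
  symm
  rw [eq_adjoint_iff]
  intro u v
  rw [inner_eq, p1_col, p2_col, row_apply, inner_add_right, adjoint_inner_left,
    adjoint_inner_left]

theorem row_itw {X : F →L[ℝ] E} {Y : F' →L[ℝ] E} {a : F →L[ℝ] F} {b : F' →L[ℝ] F'}
    {c : E →L[ℝ] E} (h : X ∘L a = c ∘L X) (h' : Y ∘L b = c ∘L Y) :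
    row X Y ∘L ds a b = c ∘L row X Y := by
  ext1 v
  have e1 : X (a (p1 F F' v)) = c (X (p1 F F' v)) := DFunLike.congr_fun h _
  have e2 : Y (b (p2 F F' v)) = c (Y (p2 F F' v)) := DFunLike.congr_fun h' _
  rw [comp_apply, comp_apply, row_apply, row_apply, p1_ds, p2_ds, map_add, e1, e2]

theorem col_itw {X : E →L[ℝ] F} {Y : E →L[ℝ] F'} {a : F →L[ℝ] F} {b : F' →L[ℝ] F'}
    {c : E →L[ℝ] E} (h : X ∘L c = a ∘L X) (h' : Y ∘L c = b ∘L Y) :
    col X Y ∘L c = ds a b ∘L col X Y := by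
  ext1 u
  have e1 : X (c u) = a (X u) := DFunLike.congr_fun h _
  have e2 : Y (c u) = b (Y u) := DFunLike.congr_fun h' _
  refine ext2 ?_ ?_
  · rw [comp_apply, comp_apply, p1_ds, p1_col, p1_col, e1]
  · rw [comp_apply, comp_apply, p2_ds, p2_col, p2_col, e2]

theorem row_norm {X : F →L[ℝ] E} {Y : F' →L[ℝ] E} {pr ps : E →L[ℝ] E} (hs : star pr = pr)
    (h0 : pr * ps = 0) (h : pr ∘L X = X) (h' : ps ∘L Y = Y) (v : H2 F F') :
    ‖row X Y v‖ ^ 2 = ‖X (p1 F F' v)‖ ^ 2 + ‖Y (p2 F F' v)‖ ^ 2 := by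
  have e1 : pr (X (p1 F F' v)) = X (p1 F F' v) := DFunLike.congr_fun h _
  have e2 : ps (Y (p2 F F' v)) = Y (p2 F F' v) := DFunLike.congr_fun h' _
  have e3 : pr (ps (Y (p2 F F' v))) = 0 := DFunLike.congr_fun h0 _
  have e4 : ⟪X (p1 F F' v), Y (p2 F F' v)⟫_ℝ = 0 := by
    rw [← e1, ← e2, ← adjoint_inner_right, ← star_eq_adjoint, hs, e3, inner_zero_right]
  rw [row_apply, norm_add_sq_real, e4]
  ring

theorem col_cpt {X : E →L[ℝ] F} {Y : E →L[ℝ] F'} {R : E →L[ℝ] E}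
    (h : IsCompactOperator (X ∘L R : E →L[ℝ] F)) (h' : IsCompactOperator (Y ∘L R : E →L[ℝ] F')) :
    IsCompactOperator (col X Y ∘L R : E →L[ℝ] H2 F F') :=
  (h.clm_comp (i1 F F')).add (h'.clm_comp (i2 F F'))

theorem row_cpt {X : F →L[ℝ] E} {Y : F' →L[ℝ] E} {R : F →L[ℝ] F} {R' : F' →L[ℝ] F'}
    (h : IsCompactOperator (X ∘L R : F →L[ℝ] E)) (h' : IsCompactOperator (Y ∘L R' : F' →L[ℝ] E)) :
    IsCompactOperator (row X Y ∘L ds R R' : H2 F F' →L[ℝ] E) := by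
  have e : (row X Y ∘L ds R R' : H2 F F' →L[ℝ] E) = row (X ∘L R) (Y ∘L R') := by
    ext1 v
    rw [comp_apply, row_apply, row_apply, p1_ds, p2_ds, comp_apply, comp_apply]
  rw [e]
  exact (h.comp_clm (p1 F F')).add (h'.comp_clm (p2 F F'))

end CPL3

open CPL3

theorem stCPL3 (hS : St_SUM) (hC : St_CPL2) : St_CPL3 := by
  intro G _ E F F' _ _ _ _ _ _ _ _ _ n A _ P Q Q' T T₂ T₃ V₁ V₂ pr Gm K K' C W₁ W₂ ps Gn L L' D κ
    hκ hT hT₂ hT₃ s s' hs h0 h1 h2 h3 z z' z'' hz hz' hz''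
  obtain ⟨S, ew, eR, eN, eph, eE, hLB, hI⟩ := hS G F F' n A Q Q'
  have itw : ∀ {X : F →L[ℝ] E} {Y : F' →L[ℝ] E}, Itw Q P X → Itw Q' P Y → Itw S P (row X Y) :=
    fun h h' => ⟨fun a => by rw [eph]; exact row_itw (h.1 a) (h'.1 a),
      fun a g => by rw [eE]; exact row_itw (h.2 a g) (h'.2 a g)⟩
  have itw' : ∀ {X : E →L[ℝ] F} {Y : E →L[ℝ] F'}, Itw P Q X → Itw P Q' Y → Itw P S (col X Y) :=
    fun h h' => ⟨fun a => by rw [eph]; exact col_itw (h.1 a) (h'.1 a),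
      fun a g => by rw [eE]; exact col_itw (h.2 a g) (h'.2 a g)⟩
  refine hC G E (H2 F F') n A P S T (ds T₂ T₃) (V₁ + W₁) (ds V₂ W₂) 1 (row Gm Gn)
    (fun j => row (K j) (L j)) (fun j => col (K' j) (L' j)) (row C D) κ hκ hT (hLB _ _ hT₂ hT₃)
    ⟨?_, itw s.itwG s'.itwG, fun j => itw (s.itwK j) (s'.itwK j),
      fun j => itw' (s.itwK' j) (s'.itwK' j), ?_, ?_, rfl, fun _ => rfl, fun u v => ?_,
      fun η ζ => ?_⟩ (fun u => ?_) (fun v => ?_) z _ hz (hI _ _ hz' hz'')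
  · rw [ew]
    exact (row_itw s.gw.symm s'.gw.symm).symm
  · rw [adjoint_row]
    exact col_cpt s.cptl s'.cptl
  · rw [eR]
    exact row_cpt s.cptr s'.cptr
  · have a1 := s.gain u (p1 F F' v)
    have a2 := s'.gain u (p2 F F' v)
    have b1 : ∀ j, ‖row (K j) (L j) v‖ ^ 2 = ‖K j (p1 F F' v)‖ ^ 2 + ‖L j (p2 F F' v)‖ ^ 2 :=
      fun j => row_norm hs h0 (s.prK j) (s'.prK j) v
    have b2 : ∀ j, ‖col (K' j) (L' j) u‖ ^ 2 = ‖K' j u‖ ^ 2 + ‖L' j u‖ ^ 2 := fun j => by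
      rw [norm_eq, p1_col, p2_col]
    simp only [b1, b2, Finset.sum_add_distrib]
    rw [adjoint_row, norm_eq (col _ _ u), p1_col, p2_col, row_norm hs h0 s.prG s'.prG,
      inner_eq (ds V₂ W₂ v), p1_ds, p2_ds, row_apply, inner_add_right, add_apply, inner_add_left]
    linarith
  · have a1 := s.cross η (p1 F F' ζ)
    have a2 := s'.cross η (p2 F F' ζ)
    have b1 : ∀ j, ⟪S.N j ζ, col (K' j) (L' j) (P.R η)⟫_ℝ =
        ⟪Q.N j (p1 F F' ζ), K' j (P.R η)⟫_ℝ + ⟪Q'.N j (p2 F F' ζ), L' j (P.R η)⟫_ℝ := fun j => by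
      rw [eN, inner_eq, p1_ds, p2_ds, p1_col, p2_col]
    simp only [b1, eR, ew, row_apply, map_sub (p1 F F'), map_sub (p2 F F'), p1_ds, p2_ds,
      inner_add_left, inner_add_right, Finset.sum_add_distrib]
    linarith
  · rw [add_apply, inner_add_left]
    linarith [h1 u]
  · rw [norm_eq v, inner_eq (ds T₂ T₃ v), inner_eq (ds V₂ W₂ v), p1_ds, p2_ds, p1_ds, p2_ds]
    linarith [h2 (p1 F F' v), h3 (p2 F F' v)]

end Pool.Agent.Lib.WD
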