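import Pool.Agent.Lib.WD.Prod
import Pool.Agent.Lib.RQ.BRG
import Pool.Agent.Lib.RQ.Glue
import Pool.Agent.Lib.AN.ASM
import Pool.Agent.Lib.MFI.CXGlue
import Pool.Agent.Lib.TP.Alg

/-! The index is a bordism invariant: definitions. -/

set_option linter.unusedSectionVars false

noncomputable section

open Set Function MeasureTheory CliffordAlgebra BCO ContinuousLinearMap
open scoped Manifold ContDiff InnerProductSpace

namespace Pool.Agent.Lib.WD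

open CX AN
open ANA.Cyl (ht)
open ANA.CylB (pull)

/-! ### Operator packages -/

section Abs

variable {G : Type} [Group G] {E F H : Type} [NormedAddCommGroup E] [InnerProductSpace ℝ E]
  [CompleteSpace E] [NormedAddCommGroup F] [InnerProductSpace ℝ F] [CompleteSpace F]
  [NormedAddCommGroup H] [InnerProductSpace ℝ H] [CompleteSpace H] {n n' : ℕ} {A : Type}
  [Fintype A]

theorem res_of {w R : E →L[ℝ] E} (h : RQ.Res w R) (hi : Injective R) : Res w R :=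
  ⟨h.w_sa, h.w_sq, h.sa, by rw [h.anti, two_mul], hi⟩

theorem Res.rq {w R : E →L[ℝ] E} (h : Res w R) : RQ.Res w R :=
  ⟨h.esa, h.esq, h.sa, by rw [h.rel, two_mul]⟩

theorem pack_res (P : RQ.Pack G E n A) : Res P.w P.R := res_of P.res P.inj

open Classical in
/-- a vector put on the sheet `(a, g)` -/
def sh (P : RQ.Pack G E n A) (a : A) (g : G) : E →L[ℝ] V G E :=
  ∑ h ∈ P.F, lp.singleContinuousLinearMap ℝ (fun _ : G => E) 2 (h * g) ∘L P.E a h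

theorem sh_apply (P : RQ.Pack G E n A) (a : A) (g : G) (s : E) (γ : G) :
    sh P a g s γ = P.E a (γ * g⁻¹) s := by
  classical
  rw [sh, _root_.sum_apply, lp.coeFn_sum, Finset.sum_apply, Finset.sum_eq_single (γ * g⁻¹)]
  · simp [lp.single_apply]
  · intro h _ hh
    have : γ ≠ h * g := fun e => hh (by rw [e, mul_inv_cancel_right])
    simp [lp.single_apply, Pi.single_eq_of_ne this]
  · intro h
    simp [P.E_off a _ h]

/-- the resolvent of the operator on the covering -/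
structure Tw (P : RQ.Pack G E n A) (R' : V G E →L[ℝ] V G E) : Prop where
  mem : R' ∈ RA G E
  res : Res (amp G P.w) R'
  good : ∀ a g s' s, P.Good a s' s → R' (sh P a g s') = sh P a g s

/-- the index of the operator with grading `ε` and resolvent `R` -/
def Ix (ε R : V G E →L[ℝ] V G E) (z : BCH.K0 (Cr G)) : Prop := IsInd (ng ε + R) (ng ε) z

/-- the index of a package -/
def PInd (P : RQ.Pack G E n A) (z : BCH.K0 (Cr G)) : Prop :=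
  ∃ R', Tw P R' ∧ Ix (amp G P.w) R' z

/-- the lower bound `∇* ∇ + T ≤ D²` -/
def LB (P : RQ.Pack G E n A) (T : E →L[ℝ] E) : Prop :=
  ∀ η, ∑ j, ‖P.N j η‖ ^ 2 + ⟪T (P.R η), P.R η⟫_ℝ ≤ ‖η - P.w (P.R η)‖ ^ 2

theorem LB.mono {P : RQ.Pack G E n A} {T T' : E →L[ℝ] E} (h : LB P T)
    (h' : ∀ u, ⟪T' u, u⟫_ℝ ≤ ⟪T u, u⟫_ℝ) : LB P T' := fun η => by linarith [h η, h' (P.R η)]

theorem lb_chi (P : RQ.Pack G E n A) : LB P (-(P.chi * P.chi)) := fun η => by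
  have h := P.lich η
  have h1 : ⟪(-(P.chi * P.chi)) (P.R η), P.R η⟫_ℝ = -‖P.chi (P.R η)‖ ^ 2 := by
    rw [neg_apply, inner_neg_left, mul_apply_eq_comp, inner_sa (P.mul_sa _ P.chi_mem),
      real_inner_self_eq_norm_sq]
  nlinarith [mul_nonneg P.kap_pos.le (sq_nonneg ‖P.R η‖)]

/-- `X` intertwines the partitions and the sheets -/
def Itw (P : RQ.Pack G E n A) (Q : RQ.Pack G F n' A) (X : E →L[ℝ] F) : Prop :=
  (∀ a, X ∘L P.ph a = Q.ph a ∘L X) ∧ ∀ a g, X ∘L P.E a g = Q.E a g ∘L X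

/-- the canonical good pairs -/
def can (P : RQ.Pack G E n A) (a : A) (z : E) : E × E :=
  (P.ph a z + P.C a (P.R z), P.ph a (P.R z))

variable (G E) in
/-- the algebra and its ideal -/
def alg : OpAlg (V G E) where
  L := RA G E
  J := KK G E
  closed := isClosed_RA
  star_mem _ h := TP.RR_adjoint h
  left _ h _ h' := MFI.mul_mem_KK h h'
  right _ h _ h' := MFI.KK_mul_mem h' h

theorem amp_neg (T : E →L[ℝ] F) : amp G (-T) = -amp G T := map_neg (ampL G) T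

theorem amp_add (T S : E →L[ℝ] F) : amp G (T + S) = amp G T + amp G S := map_add (ampL G) T S

theorem amp_ng (w : E →L[ℝ] E) : amp G ((1 / 2 : ℝ) • (1 - w)) = ng (amp G w) :=
  ContinuousLinearMap.ext fun _ => lp.ext (funext fun _ => rfl)

open Classical in
/-- a package without the lower bound -/
structure Pre (G : Type) [Group G] (W : Type) [NormedAddCommGroup W] [InnerProductSpace ℝ W]
    [CompleteSpace W] (n : ℕ) (A : Type) [Fintype A] where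
  F : Finset G
  w : W →L[ℝ] W
  R : W →L[ℝ] W
  gam : Fin n → W →L[ℝ] W
  N : Fin n → W →L[ℝ] W
  ph : A → W →L[ℝ] W
  dph : A → Fin n → W →L[ℝ] W
  E : A → G → W →L[ℝ] W
  mul : Set (W →L[ℝ] W)
  ph_mem : ∀ a, ph a ∈ mul
  dph_mem : ∀ a j, dph a j ∈ mul
  E_mem : ∀ a g, E a g ∈ mul
  mul_sa : ∀ x ∈ mul, star x = x
  mul_comm : ∀ x ∈ mul, ∀ y ∈ mul, x * y = y * x
  mul_w : ∀ x ∈ mul, x * w = w * x
  mul_gam : ∀ x ∈ mul, ∀ j, x * gam j = gam j * x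
  res : Res w R
  gam_skew : ∀ j, star (gam j) = -gam j
  gam_cl : ∀ j k, gam j * gam k + gam k * gam j = if j = k then -2 else 0
  E_mul : ∀ a g h, E a g * E a h = if g = h then E a g else 0
  E_off : ∀ a, ∀ g ∉ F, E a g = 0
  ph_supp : ∀ a, (∑ g ∈ F, E a g) * ph a = ph a
  dph_supp : ∀ a j, (∑ g ∈ F, E a g) * dph a j = dph a j
  ph_sq : ∑ a, ph a * ph a = 1
  ph_dph : ∀ j, ∑ a, ph a * dph a j = 0
  comm : ∀ a b g,
    let e := ∑ h ∈ F, E a h * E b (h * g)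
    let ψ := ph a * ph b * e
    let dψ := fun j => (dph a j * ph b + ph a * dph b j) * e
    let C := ∑ j, gam j * dψ j
    ψ * R - R * ψ = R * C * R ∧ ∀ j, N j * (ψ + C * R) = ψ * N j + dψ j * R

/-- a package from a lower bound -/
def Pre.pack (P : Pre G E n A) (T : E →L[ℝ] E)
    (h : ∀ η, ∑ j, ‖P.N j η‖ ^ 2 + ⟪T (P.R η), P.R η⟫_ℝ ≤ ‖η - P.w (P.R η)‖ ^ 2) :
    RQ.Pack G E n A where
  F := P.F
  w := P.w
  R := P.R
  chi := √(‖T‖ + 1) • 1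
  gam := P.gam
  N := P.N
  ph := P.ph
  dph := P.dph
  E := P.E
  kap := 1
  mul := P.mul ∪ range fun c : ℝ => c • 1
  chi_mem := .inr ⟨_, rfl⟩
  ph_mem a := .inl (P.ph_mem a)
  dph_mem a j := .inl (P.dph_mem a j)
  E_mem a g := .inl (P.E_mem a g)
  mul_sa := by
    rintro x (hx | ⟨c, rfl⟩)
    · exact P.mul_sa x hx
    · rw [StarModule.star_smul, star_one, star_trivial]
  mul_comm := by
    rintro x (hx | ⟨c, rfl⟩) y (hy | ⟨d, rfl⟩)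
    · exact P.mul_comm x hx y hy
    all_goals simp only [mul_smul_comm, smul_mul_assoc, mul_one, one_mul]
    exact smul_comm _ _ _
  mul_w := by
    rintro x (hx | ⟨c, rfl⟩)
    · exact P.mul_w x hx
    · simp only [mul_smul_comm, smul_mul_assoc, mul_one, one_mul]
  mul_gam := by
    rintro x (hx | ⟨c, rfl⟩) j
    · exact P.mul_gam x hx j
    · simp only [mul_smul_comm, smul_mul_assoc, mul_one, one_mul]
  res := P.res.rq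
  inj := P.res.inj
  gam_skew := P.gam_skew
  gam_cl := P.gam_cl
  E_mul := P.E_mul
  E_off := P.E_off
  ph_supp := P.ph_supp
  dph_supp := P.dph_supp
  ph_sq := P.ph_sq
  ph_dph := P.ph_dph
  comm := P.comm
  kap_pos := one_pos
  lich η := by
    have h1 := h η
    have h2 : -(‖T‖ * ‖P.R η‖ ^ 2) ≤ ⟪T (P.R η), P.R η⟫_ℝ := by
      have h3 := abs_real_inner_le_norm (T (P.R η)) (P.R η)
      have h4 := mul_le_mul_of_nonneg_right (T.le_opNorm (P.R η)) (norm_nonneg (P.R η))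
      nlinarith [neg_abs_le ⟪T (P.R η), P.R η⟫_ℝ]
    rw [_root_.smul_apply, one_apply_eq_self, norm_smul, mul_pow, Real.norm_eq_abs, sq_abs,
      Real.sq_sqrt (by positivity)]
    linarith

/-- the Hilbert sum -/
abbrev H2 (E F : Type) : Type := WithLp 2 (E × F)

variable (E F) in
/-- first inclusion -/
def i1 : E →L[ℝ] H2 E F :=
  (WithLp.prodContinuousLinearEquiv 2 ℝ E F).symm.toContinuousLinearMap ∘L .inl ℝ E F

variable (E F) in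
/-- second inclusion -/
def i2 : F →L[ℝ] H2 E F :=
  (WithLp.prodContinuousLinearEquiv 2 ℝ E F).symm.toContinuousLinearMap ∘L .inr ℝ E F

variable (E F) in
/-- first projection -/
def p1 : H2 E F →L[ℝ] E :=
  .fst ℝ E F ∘L (WithLp.prodContinuousLinearEquiv 2 ℝ E F).toContinuousLinearMap

variable (E F) in
/-- second projection -/
def p2 : H2 E F →L[ℝ] F :=
  .snd ℝ E F ∘L (WithLp.prodContinuousLinearEquiv 2 ℝ E F).toContinuousLinearMap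

/-- the diagonal sum of two operators -/
def ds (T : E →L[ℝ] E) (S : F →L[ℝ] F) : H2 E F →L[ℝ] H2 E F :=
  i1 E F ∘L T ∘L p1 E F + i2 E F ∘L S ∘L p2 E F

/-- `H` is the Hilbert tensor product of `E` and `F` -/
structure Tens (b : E →L[ℝ] F →L[ℝ] H) : Prop where
  inner : ∀ x y x' y', ⟪b x y, b x' y'⟫_ℝ = ⟪x, x'⟫_ℝ * ⟪y, y'⟫_ℝ
  dense : Dense (Submodule.span ℝ {v | ∃ x y, v = b x y} : Set H)

theorem Tens.flip {b : E →L[ℝ] F →L[ℝ] H} (h : Tens b) : Tens b.flip :=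
  ⟨fun x y x' y' => (h.inner y x y' x').trans (_root_.mul_comm _ _), by
    have : {v | ∃ x y, v = b.flip x y} = {v | ∃ x y, v = b x y} :=
      Set.ext fun _ => ⟨fun ⟨x, y, e⟩ => ⟨y, x, e⟩, fun ⟨x, y, e⟩ => ⟨y, x, e⟩⟩
    rw [this]
    exact h.dense⟩

/-- the operator `T ⊗ 1` -/
def lt (b : E →L[ℝ] F →L[ℝ] H) (T : E →L[ℝ] E) : H →L[ℝ] H :=
  Classical.epsilon fun S : H →L[ℝ] H => ∀ x y, S (b x y) = b (T x) y

/-- the operator `1 ⊗ T` -/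
abbrev rt (b : E →L[ℝ] F →L[ℝ] H) (T : F →L[ℝ] F) : H →L[ℝ] H := lt b.flip T

variable (G) in
/-- the tensor product structure on `ℓ²(G, H)` -/
def lf (b : E →L[ℝ] F →L[ℝ] H) : V G E →L[ℝ] F →L[ℝ] V G H := ((ampL G).comp b.flip).flip

theorem lf_apply (b : E →L[ℝ] F →L[ℝ] H) (ξ : V G E) (y : F) (γ : G) :
    lf G b ξ y γ = b (ξ γ) y := rfl

/-- `B` is the resolvent of an operator with finite dimensional kernel, a spectral gap and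
index `m` -/
def Ker (B : F →L[ℝ] F) (m : ℤ) : Prop :=
  ∃ (p q : ℕ) (k : Fin p ⊕ Fin q → F) (θ : ℝ), Orthonormal ℝ k ∧
    (∀ i, B (k (.inl i)) = k (.inl i)) ∧ (∀ i, B (k (.inr i)) = -k (.inr i)) ∧ 0 ≤ θ ∧ θ < 1 ∧
    (∀ y, (∀ i, ⟪k i, y⟫_ℝ = 0) → ‖B y‖ ≤ θ * ‖y‖) ∧ m = p - q

/-- a coupling of two packages -/
structure Side (P : RQ.Pack G E n A) (Q : RQ.Pack G F n A) (V₁ : E →L[ℝ] E) (V₂ : F →L[ℝ] F)
    (pr : E →L[ℝ] E) (Gm : F →L[ℝ] E) (K : Fin n → F →L[ℝ] E) (K' : Fin n → E →L[ℝ] F)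
    (C : F →L[ℝ] E) : Prop where
  gw : P.w ∘L Gm = Gm ∘L Q.w
  itwG : Itw Q P Gm
  itwK : ∀ j, Itw Q P (K j)
  itwK' : ∀ j, Itw P Q (K' j)
  cptl : IsCompactOperator (adjoint Gm ∘L P.R : E →L[ℝ] F)
  cptr : IsCompactOperator (Gm ∘L Q.R : F →L[ℝ] E)
  prG : pr ∘L Gm = Gm
  prK : ∀ j, pr ∘L K j = K j
  gain : ∀ u v, ⟪V₁ u, u⟫_ℝ + ⟪V₂ v, v⟫_ℝ ≤ ‖adjoint Gm u‖ ^ 2 + ‖Gm v‖ ^ 2 - ∑ j, ‖K j v‖ ^ 2 -
    ∑ j, ‖K' j u‖ ^ 2 + 2 * ⟪u, C v⟫_ℝ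
  cross : ∀ η ζ, ⟪η - P.w (P.R η), Gm (Q.R ζ)⟫_ℝ - ⟪Gm (ζ - Q.w (Q.R ζ)), P.R η⟫_ℝ +
    ∑ j, ⟪P.N j η, K j (Q.R ζ)⟫_ℝ + ∑ j, ⟪Q.N j ζ, K' j (P.R η)⟫_ℝ = ⟪P.R η, C (Q.R ζ)⟫_ℝ

end Abs

/-! ### Dirac operators with a potential -/

section Geo

variable {n N : ℕ} (X : SM n) (S : Spinor n N)

/-- two anticommuting gradings -/
structure Tau (w τ : Eu N →L[ℝ] Eu N) : Prop where
  gw : Gr S w
  gt : Gr S τ
  anti : ∀ u, τ (w u) = -w (τ u)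

/-- the operator `D + w + f τ` -/
def dp (w τ : Eu N →L[ℝ] Eu N) (f : X.M → ℝ) (s : X.M → Eu N) (y : X.M) : Eu N :=
  dw X S w s y + f y • τ (s y)

/-- `R = (D + w + f τ)⁻¹` and `Nn j = ∇_j R` -/
structure ResP (w τ : Eu N →L[ℝ] Eu N) (f : X.M → ℝ) (μ : Measure X.M)
    (R : Lp (Eu N) 2 μ →L[ℝ] Lp (Eu N) 2 μ) (Nn : Fin n → Lp (Eu N) 2 μ →L[ℝ] Lp (Eu N) 2 μ) :
    Prop where
  R_cl : ∀ s, IsT X S s → R (cl μ (dp X S w τ f s)) = cl μ s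
  N_cl : ∀ s, IsT X S s → ∀ j, Nn j (cl μ (dp X S w τ f s)) = cl μ (nab X S j s)
  dense : Dense {η | ∃ s, IsT X S s ∧ η = cl μ (dp X S w τ f s)}

/-- Clifford multiplication by the gradient of `Φ` -/
def cV (Φ : X.M → ℝ) (s : X.M → Eu N) (y : X.M) : Eu N := ∑ j, dv X j Φ y • gam S j (s y)

/-- the covariant derivative along the gradient of `Φ` -/
def nV (Φ : X.M → ℝ) (s : X.M → Eu N) (y : X.M) : Eu N := ∑ j, dv X j Φ y • nab X S j s y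

variable {G : Type} [Group G] {m : ℕ}

/-- the algebraic part of the package of a manifold -/
structure Geo (x : Sing G m) (S : Spinor (m + 1) N) (w : Eu N →L[ℝ] Eu N) (μ : Measure x.X.M)
    (r : ℕ) (φ : ℕ → x.X.M → ℝ) (P : RQ.Pack G (Lp (Eu N) 2 μ) (m + 1) (Fin (r + 1))) : Prop where
  w : P.w = cst μ w
  gam : ∀ j, P.gam j = cst μ (gam S j)
  ph : ∀ a, P.ph a = mul (Eu N) μ (φ a)
  dph : ∀ a j, P.dph a j = mul (Eu N) μ (dv x.X j (φ a))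
  E : ∀ a g, P.E a g = mul (Eu N) μ (RQ.BRG.ef x a g)

/-- only the first `r + 1` join coordinates occur -/
def Top (x : Sing G m) (r : ℕ) : Prop := ∀ a, r < a → OO x a = ∅

end Geo

/-! ### Products -/

section Prod

/-- the pointwise tensor product -/
def bx {α β E F H : Type} [NormedAddCommGroup E] [NormedSpace ℝ E] [NormedAddCommGroup F]
    [NormedSpace ℝ F] [NormedAddCommGroup H] [NormedSpace ℝ H] (b : E →L[ℝ] F →L[ℝ] H) (s : α → E)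
    (t : β → F) (z : α × β) : H := b (s z.1) (t z.2)

/-- transport of sections -/
def push {α β W : Type} [NormedAddCommGroup W] [NormedSpace ℝ W] (ψ : α → β) (O : Set α)
    (T : α → W →L[ℝ] W) (s : α → W) : β → W := pull ψ O (fun z => T z (s z)) 0

variable {p q n N₁ N₂ N : ℕ}

/-- the graded tensor product of spinor modules -/
structure TS (h : p + q = n) (S₁ : Spinor p N₁) (e : Eu N₁ →L[ℝ] Eu N₁) (S₂ : Spinor q N₂)
    (S : Spinor n N) (b : Eu N₁ →L[ℝ] Eu N₂ →L[ℝ] Eu N) : Prop where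
  tens : Tens b
  gr : Gr S₁ e
  l : ∀ v u u', S.c (ι (Qn n) (inc (il h) v)) (b u u') = b (S₁.c (ι (Qn p) v) u) u'
  r : ∀ v u u', S.c (ι (Qn n) (inc (ir h) v)) (b u u') = b (e u) (S₂.c (ι (Qn q) v) u')

/-- another system of frames on the same manifold -/
structure Fm (Z : SM n) where
  U : ℕ → Set Z.M
  F : ℕ → ∀ y : Z.M, Eu n ≃L[ℝ] TangentSpace (𝓡 n) y
  s : ℕ → ℕ → Z.M → Cl n
  isOpen : ∀ a, IsOpen (U a)
  cover : ∀ x, ∃ a, x ∈ U a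
  smooth : ∀ a v, ContMDiffOn (𝓡 n) (𝓡 n).tangent ∞
    (fun x => (⟨x, F a x v⟩ : TangentBundle (𝓡 n) Z.M)) (U a)
  spin : ∀ a b, ∀ x ∈ U a ∩ U b, Covers (s a b x) id fun v => (F a x).symm (F b x v)
  smc : ∀ a b, SmC (𝓡 n) (s a b) (U a ∩ U b)
  cocycle : ∀ a b c, ∀ x ∈ U a ∩ U b ∩ U c, s a b x * s b c x = s a c x

/-- the manifold with the new frames -/
abbrev Fm.sm {Z : SM n} (Φ : Fm Z) : SM n where
  M := Z.M
  U := Φ.U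
  F := Φ.F
  s := Φ.s
  isOpen := Φ.isOpen
  cover := Φ.cover
  smooth := Φ.smooth
  spin := Φ.spin
  smc := Φ.smc
  cocycle := Φ.cocycle

/-- the number of the product frame -/
def od (b c : ℕ) : ℕ := 2 * Nat.pair b c + 1

/-- the numbering of the coordinates of a product -/
def ix (h : p + q = n) : Fin p ⊕ Fin q → Fin n := Sum.elim (il h) (ir h)

/-- block diagonal tensors -/
def blk3 (f : Fin p → Fin p → Fin p → ℝ) (g : Fin q → Fin q → Fin q → ℝ) :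
    Fin p ⊕ Fin q → Fin p ⊕ Fin q → Fin p ⊕ Fin q → ℝ
  | .inl i, .inl j, .inl k => f i j k
  | .inr i, .inr j, .inr k => g i j k
  | _, _, _ => 0

variable (h : p + q = n) (X : SM p) (Y : SM q) {Z : SM n} (ψ : X.M × Y.M → Z.M)
  (O : Set (X.M × Y.M))

/-- the frames of `Z` and the product frames -/
structure FmApi (Φ : Fm Z) : Prop where
  U0 : ∀ a, Φ.U (2 * a) = Z.U a
  F0 : ∀ a, Φ.F (2 * a) = Z.F a
  s0 : ∀ a b, Φ.s (2 * a) (2 * b) = Z.s a b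
  U1 : ∀ b c, Φ.U (od b c) = ψ '' {z ∈ O | z.1 ∈ X.U b ∧ z.2 ∈ Y.U c}
  F1 : ∀ b c, ∀ z ∈ O, ∀ (v : Eu p) (v' : Eu q),
    Φ.F (od b c) (ψ z) (inc (il h) v + inc (ir h) v') =
      mfderiv ((𝓡 p).prod (𝓡 q)) (𝓡 n) ψ z (X.F b z.1 v, Y.F c z.2 v')
  s1 : ∀ b c b' c', ∀ z ∈ O, Φ.s (od b c) (od b' c') (ψ z) =
    CliffordAlgebra.map (inc (il h)) (X.s b b' z.1) * CliffordAlgebra.map (inc (ir h)) (Y.s c c' z.2)
  ddl : ∀ {W : Type} [NormedAddCommGroup W] [NormedSpace ℝ W] (u : Z.M → W) b c i, ∀ z ∈ O,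
    Φ.sm.dd (od b c) (il h i) u (ψ z) = mfderiv ((𝓡 p).prod (𝓡 q)) 𝓘(ℝ, W) (u ∘ ψ) z
      ((X.e b i z.1 : Eu p), (0 : Eu q))
  ddr : ∀ {W : Type} [NormedAddCommGroup W] [NormedSpace ℝ W] (u : Z.M → W) b c i, ∀ z ∈ O,
    Φ.sm.dd (od b c) (ir h i) u (ψ z) = mfderiv ((𝓡 p).prod (𝓡 q)) 𝓘(ℝ, W) (u ∘ ψ) z
      ((0 : Eu p), (Y.e c i z.2 : Eu q))
  cc : ∀ b c i j k, ∀ z ∈ O, z.1 ∈ X.U b → z.2 ∈ Y.U c →
    Φ.sm.cc (od b c) (ix h i) (ix h j) (ix h k) (ψ z) =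
      blk3 (fun i j k => X.cc b i j k z.1) (fun i j k => Y.cc c i j k z.2) i j k

/-- from the product frame to the frame of `Z`, on spinors -/
def pT (Φ : Fm Z) (S : Spinor n N) (z : X.M × Y.M) : Eu N →L[ℝ] Eu N :=
  tr Φ.sm S (2 * Z.fr (ψ z)) (od (X.fr z.1) (Y.fr z.2)) (ψ z)

/-- from the product frame to the frame of `Z`, on vectors -/
def pO (Φ : Fm Z) (z : X.M × Y.M) (i j : Fin n) : ℝ :=
  om Φ.sm (2 * Z.fr (ψ z)) (od (X.fr z.1) (Y.fr z.2)) (ψ z) i j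

/-- pointwise algebra of the transport -/
structure PtA (S : Spinor n N) (T : X.M × Y.M → Eu N →L[ℝ] Eu N)
    (Ω : X.M × Y.M → Fin n → Fin n → ℝ) : Prop where
  meas : StronglyMeasurable (O.indicator T)
  iso : ∀ z ∈ O, ∀ u v, ⟪T z u, T z v⟫_ℝ = ⟪u, v⟫_ℝ
  odd : ∀ τ, Gr S τ → ∀ z ∈ O, ∀ u, T z (τ u) = τ (T z u)
  gam : ∀ z ∈ O, ∀ j u, T z (gam S j u) = ∑ i, Ω z i j • gam S i (T z u)
  row : ∀ z ∈ O, ∀ i k, ∑ j, Ω z i j * Ω z k j = if i = k then 1 else 0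
  col : ∀ z ∈ O, ∀ j k, ∑ i, Ω z i j * Ω z i k = if j = k then 1 else 0

/-- transport of product functions -/
def PtF (Ω : X.M × Y.M → Fin n → Fin n → ℝ) : Prop :=
  ∀ (f : X.M → ℝ) (g : Y.M → ℝ), ContMDiff (𝓡 p) 𝓘(ℝ, ℝ) ∞ f → ContMDiff (𝓡 q) 𝓘(ℝ, ℝ) ∞ g →
    HasCompactSupport f → HasCompactSupport g → tsupport f ×ˢ tsupport g ⊆ O →
    ContMDiff (𝓡 n) 𝓘(ℝ, ℝ) ∞ (pull ψ O (fun z => f z.1 * g z.2) 0) ∧
    HasCompactSupport (pull ψ O (fun z => f z.1 * g z.2) 0) ∧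
    ∀ z ∈ O, ∀ i, dv Z i (pull ψ O (fun z => f z.1 * g z.2) 0) (ψ z) =
      ∑ j, Ω z i (il h j) * (dv X j f z.1 * g z.2) + ∑ j, Ω z i (ir h j) * (f z.1 * dv Y j g z.2)

/-- transport of product sections -/
def PtT (S₁ : Spinor p N₁) (e : Eu N₁ →L[ℝ] Eu N₁) (S₂ : Spinor q N₂) (S : Spinor n N)
    (b : Eu N₁ →L[ℝ] Eu N₂ →L[ℝ] Eu N) (T : X.M × Y.M → Eu N →L[ℝ] Eu N)
    (Ω : X.M × Y.M → Fin n → Fin n → ℝ) : Prop :=
  ∀ s t, IsT X S₁ s → IsT Y S₂ t → tsupport s ×ˢ tsupport t ⊆ O →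
    IsT Z S (push ψ O T (bx b s t)) ∧
    tsupport (push ψ O T (bx b s t)) ⊆ ψ '' (tsupport s ×ˢ tsupport t) ∧
    (∀ z ∈ O, dir Z S (push ψ O T (bx b s t)) (ψ z) =
      T z (b (dir X S₁ s z.1) (t z.2) + b (e (s z.1)) (dir Y S₂ t z.2))) ∧
    ∀ z ∈ O, ∀ i, nab Z S i (push ψ O T (bx b s t)) (ψ z) =
      ∑ j, Ω z i (il h j) • T z (b (nab X S₁ j s z.1) (t z.2)) +
        ∑ j, Ω z i (ir h j) • T z (b (s z.1) (nab Y S₂ j t z.2))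

/-- the geometry of a product embedding -/
structure PtApi (S₁ : Spinor p N₁) (e : Eu N₁ →L[ℝ] Eu N₁) (S₂ : Spinor q N₂) (S : Spinor n N)
    (b : Eu N₁ →L[ℝ] Eu N₂ →L[ℝ] Eu N) (T : X.M × Y.M → Eu N →L[ℝ] Eu N)
    (Ω : X.M × Y.M → Fin n → Fin n → ℝ) : Prop where
  a : PtA X Y O S T Ω
  f : PtF h X Y ψ O Ω
  t : PtT h X Y ψ O S₁ e S₂ S b T Ω
  s : ∀ z ∈ O, Z.scal (ψ z) = X.scal z.1 + Y.scal z.2

end Prod

section Tr

variable {α β : Type} [MeasurableSpace α] [MeasurableSpace β] {N₁ N₂ N : ℕ}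

/-- the tensor product of `L²` spaces -/
structure BoxApi (b : Eu N₁ →L[ℝ] Eu N₂ →L[ℝ] Eu N) (μ : Measure α) (ν : Measure β)
    (box : Lp (Eu N₁) 2 μ →L[ℝ] Lp (Eu N₂) 2 ν →L[ℝ] Lp (Eu N) 2 (μ.prod ν)) : Prop where
  tens : Tens box
  cl : ∀ s t, MemLp s 2 μ → MemLp t 2 ν → MemLp (bx b s t) 2 (μ.prod ν) ∧
    box (cl μ s) (cl ν t) = cl (μ.prod ν) (bx b s t)
  mull : ∀ f, Bm f → Bm (fun z : α × β => f z.1) ∧
    lt box (mul (Eu N₁) μ f) = mul (Eu N) (μ.prod ν) fun z => f z.1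
  mulr : ∀ g, Bm g → Bm (fun z : α × β => g z.2) ∧
    rt box (mul (Eu N₂) ν g) = mul (Eu N) (μ.prod ν) fun z => g z.2
  cstl : ∀ A, lt box (cst μ A) = cst (μ.prod ν) (lt b A)
  cstr : ∀ A, rt box (cst ν A) = cst (μ.prod ν) (rt b A)

/-- the partial isometry of a measure preserving embedding -/
structure TrApi (ψ : α → β) (O : Set α) (T : α → Eu N →L[ℝ] Eu N) (μ : Measure α) (ρ : Measure β)
    (U : Lp (Eu N) 2 μ →L[ℝ] Lp (Eu N) 2 ρ) : Prop where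
  measO : MeasurableSet O
  meas : MeasurableSet (ψ '' O)
  ae : ∀ f, U f =ᵐ[ρ] push ψ O T f
  ae' : ∀ g, ∀ᵐ z ∂μ, (z ∈ O → T z (adjoint U g z) = g (ψ z)) ∧ (z ∉ O → adjoint U g z = 0)
  cl : ∀ s, MemLp s 2 μ → MemLp (push ψ O T s) 2 ρ ∧ U (cl μ s) = cl ρ (push ψ O T s)
  inner : adjoint U ∘L U = mul (Eu N) μ (O.indicator 1)
  onto : U ∘L adjoint U = mul (Eu N) ρ ((ψ '' O).indicator 1)
  bm : ∀ f, Bm f → Bm (pull ψ O f 0)
  bm' : ∀ g, Bm g → Bm (O.indicator fun z => g (ψ z))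
  itw : ∀ {ι κ : Type} [Fintype ι] [Fintype κ] (g : ι → β → ℝ) (B : ι → Eu N →L[ℝ] Eu N)
    (f : κ → α → ℝ) (A : κ → Eu N →L[ℝ] Eu N), (∀ i, Bm (g i)) → (∀ j, Bm (f j)) →
    (∀ z ∈ O, ∀ u, ∑ i, g i (ψ z) • B i (T z u) = T z (∑ j, f j z • A j u)) →
    (∑ i, mul (Eu N) ρ (g i) * cst ρ (B i)) ∘L U = U ∘L ∑ j, mul (Eu N) μ (f j) * cst μ (A j)
  mul : ∀ g f, Bm g → Bm f → (∀ z ∈ O, g (ψ z) = f z) →
    mul (Eu N) ρ g ∘L U = U ∘L mul (Eu N) μ f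
  cst : ∀ B A, (∀ z ∈ O, ∀ u, B (T z u) = T z (A u)) → cst ρ B ∘L U = U ∘L cst μ A

end Tr

/-! ### Bordisms -/

/-- the real functions of the coupling -/
structure Fn (κ C R : ℝ) where
  Φ : ℝ → ℝ
  k : ℝ → ℝ
  φ : ℝ → ℝ
  γ : ℝ → ℝ
  γ₁ : ℝ → ℝ
  M : ℝ
  Λ : ℝ
  R₀ : ℝ
  smΦ : ContDiff ℝ ∞ Φ
  smk : ContDiff ℝ ∞ k
  smφ : ContDiff ℝ ∞ φ
  smγ : ContDiff ℝ ∞ γ
  smγ₁ : ContDiff ℝ ∞ γ₁
  lo : ∀ s < (1 / 4 : ℝ), Φ s = Φ 0 ∧ k s = k 0 ∧ deriv Φ s = 0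
  hi : ∀ s, (3 / 4 : ℝ) ≤ s → Φ s = 0 ∧ k s = 0 ∧ deriv Φ s = 0 ∧ deriv k s = 0
  pos : 0 < Λ
  big : κ + C ≤ Λ ^ 2
  φlo : ∀ t ≤ R, φ t = -Λ
  φhi : ∀ t, R₀ ≤ t → φ t = Λ
  supp : ∀ t, t ≤ R + 1 ∨ R₀ ≤ t → γ t = 0 ∧ γ₁ t = 0 ∧ deriv γ t = 0
  one : ∀ t ∈ tsupport γ, γ₁ t = 1 ∧ deriv γ₁ t = 0
  ineq1 : ∀ s t σ : ℝ, 0 ≤ s → -C ≤ σ → (0 < s → 3 * κ ≤ σ) → κ ≤ σ + φ t ^ 2 - |deriv φ t| +
    (γ t ^ 2 * ((k s + M * deriv Φ s ^ 2) ^ 2 - (M * deriv Φ s ^ 2) ^ 2) - |γ t| * |deriv k s| -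
      |k s + M * deriv Φ s ^ 2| * |deriv γ t|)
  ineq2 : ∀ t σ : ℝ, -C ≤ σ → (R < t → 3 * κ ≤ σ) → κ ≤ σ + φ t ^ 2 - |deriv φ t|

/-- the coupling function on the manifold -/
def Fn.g {κ C R : ℝ} (F : Fn κ C R) (s : ℝ) : ℝ := F.k s + F.M * deriv F.Φ s ^ 2

/-- the gain of the coupling -/
def Fn.a {κ C R : ℝ} (F : Fn κ C R) (s t : ℝ) : ℝ :=
  F.γ t ^ 2 * (F.g s ^ 2 - (F.M * deriv F.Φ s ^ 2) ^ 2) - |F.γ t| * |deriv F.k s| -
    |F.g s| * |deriv F.γ t|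

/-- the line -/
def LN : SM 1 := flat 1

/-- points of the line as vectors -/
def co (t : LN.M) : Eu 1 := t

/-- the coordinate on the line -/
def tc (t : LN.M) : ℝ := co t 0

section Bord

variable {G : Type} [Group G] {m N₁ N : ℕ}

/-- the embedding of the product with a half line -/
def eψ (x : Sing G m) (w : Sing G (m + 1)) (ς : ℤ) (α : x.X.M → w.N.M)
    (z : x.X.M × LN.M) : w.X.M := w.j (α z.1, (ς : ℝ) • co z.2)

/-- its domain -/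
def eO (x : Sing G m) (ς : ℤ) : Set (x.X.M × LN.M) := {z | z.1 ∈ x.nbd ∧ 0 < ς * tc z.2}

/-- one end of a bordism -/
structure Emb (x : Sing G m) (w : Sing G (m + 1)) (ς : ℤ) (α : x.X.M → w.N.M) : Prop where
  sg : ς = 1 ∨ ς = -1
  prod : IsProd rfl x.X LN w.X (eψ x w ς α) (eO x ς)
  f : ∀ p ∈ x.core, w.f (w.j (α p, bv 0)) = x.f p

/-- the operator of the product with the line, on product sections -/
def dq {n : ℕ} (X : SM n) (S₁ : Spinor n N₁) (e : Eu N₁ →L[ℝ] Eu N₁) (S₂ : Spinor 1 2)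
    (d σ : Eu 2 →L[ℝ] Eu 2) (b : Eu N₁ →L[ℝ] Eu 2 →L[ℝ] Eu N) (f : LN.M → ℝ)
    (s : X.M → Eu N₁) (t : LN.M → Eu 2) (z : X.M × LN.M) : Eu N :=
  b (dir X S₁ s z.1) (t z.2) + b (e (s z.1)) (dp LN S₂ d σ f t z.2)

/-- the package of the product with the line -/
structure Prd (x : Sing G m) (S₁ : Spinor (m + 1) N₁) (e : Eu N₁ →L[ℝ] Eu N₁) (S₂ : Spinor 1 2)
    (d σ : Eu 2 →L[ℝ] Eu 2) (b : Eu N₁ →L[ℝ] Eu 2 →L[ℝ] Eu N) (f : LN.M → ℝ)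
    (μ : Measure x.X.M) (ν : Measure LN.M) (r : ℕ) (φ : ℕ → x.X.M → ℝ)
    (Q : RQ.Pack G (Lp (Eu N) 2 (μ.prod ν)) (m + 1 + 1) (Fin (r + 1))) : Prop where
  w : Q.w = cst (μ.prod ν) (lt b e * rt b d)
  ph : ∀ a, Q.ph a = mul (Eu N) (μ.prod ν) fun z => φ a z.1
  E : ∀ a g, Q.E a g = mul (Eu N) (μ.prod ν) fun z => RQ.BRG.ef x a g z.1
  mem : ∀ s t, IsT x.X S₁ s → IsT LN S₂ t → MemLp (bx b s t) 2 (μ.prod ν) ∧
    MemLp (dq x.X S₁ e S₂ d σ b f s t) 2 (μ.prod ν) ∧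
    ∀ j, MemLp (bx b (nab x.X S₁ j s) t) 2 (μ.prod ν)
  R_cl : ∀ s t, IsT x.X S₁ s → IsT LN S₂ t →
    Q.R (cl (μ.prod ν) (dq x.X S₁ e S₂ d σ b f s t)) = cl (μ.prod ν) (bx b s t)
  N_cl : ∀ s t, IsT x.X S₁ s → IsT LN S₂ t → ∀ j : Fin (m + 1),
    Q.N j.castSucc (cl (μ.prod ν) (dq x.X S₁ e S₂ d σ b f s t)) =
      cl (μ.prod ν) (bx b (nab x.X S₁ j s) t)
  N_last : Q.N (Fin.last _) = 0
  dense : Dense (Submodule.span ℝ {η | ∃ s t, IsT x.X S₁ s ∧ IsT LN S₂ t ∧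
    η = cl (μ.prod ν) (dq x.X S₁ e S₂ d σ b f s t)} : Set (Lp (Eu N) 2 (μ.prod ν)))
  cpt : ∀ (χ : x.X.M → ℝ) (χ' : LN.M → ℝ), Bm χ → Bm χ' → HasCompactSupport χ →
    HasCompactSupport χ' → IsCompactOperator ((mul (Eu N) (μ.prod ν) fun z => χ z.1 * χ' z.2) * Q.R :
      Lp (Eu N) 2 (μ.prod ν) →L[ℝ] Lp (Eu N) 2 (μ.prod ν))

/-- the data on the bordism -/
structure CD (G : Type) [Group G] (m N₁ N : ℕ) where
  w : Sing G (m + 1)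
  S₁ : Spinor (m + 1) N₁
  e : Eu N₁ →L[ℝ] Eu N₁
  S₂ : Spinor 1 2
  d : Eu 2 →L[ℝ] Eu 2
  σ : Eu 2 →L[ℝ] Eu 2
  S : Spinor (m + 1 + 1) N
  b : Eu N₁ →L[ℝ] Eu 2 →L[ℝ] Eu N
  ν : Measure LN.M
  ρ : Measure w.X.M
  r : ℕ
  φ : ℕ → w.X.M → ℝ
  κ : ℝ
  C : ℝ
  R : ℝ
  F : Fn κ C R
  P : RQ.Pack G (Lp (Eu N) 2 ρ) (m + 1 + 1) (Fin (r + 1))
  ts : TS rfl S₁ e S₂ S b
  tau : Tau S₂ d σ
  tau' : Tau S (lt b e * rt b d) (lt b e * rt b σ)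
  hν : LN.IsVol ν
  hρ : w.X.IsVol ρ
  phi : Phi w r φ
  hR : 1 ≤ R
  geo : Geo w S (lt b e * rt b d) ρ r φ P
  res : ResP w.X S (lt b e * rt b d) (lt b e * rt b σ) (fun p => F.φ (ht w p)) ρ P.R P.N
  cpt : ∀ χ : w.X.M → ℝ, Bm χ → HasCompactSupport χ →
    IsCompactOperator (mul (Eu N) ρ χ * P.R : Lp (Eu N) 2 ρ →L[ℝ] Lp (Eu N) 2 ρ)

/-- the data of one end -/
structure SD (D : CD G m N₁ N) where
  x : Sing G m
  ς : ℤ
  α : x.X.M → D.w.N.M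
  μ : Measure x.X.M
  φ : ℕ → x.X.M → ℝ
  Q : RQ.Pack G (Lp (Eu N) 2 (μ.prod D.ν)) (m + 1 + 1) (Fin (D.r + 1))
  T : x.X.M × LN.M → Eu N →L[ℝ] Eu N
  Ω : x.X.M × LN.M → Fin (m + 1 + 1) → Fin (m + 1 + 1) → ℝ
  U : Lp (Eu N) 2 (μ.prod D.ν) →L[ℝ] Lp (Eu N) 2 D.ρ
  emb : Emb x D.w ς α
  hμ : x.X.IsVol μ
  phi : Phi x D.r φ
  compat : ∀ a p (t : Eu 1), ht x p ≤ 3 / 4 → D.R ≤ t 0 → D.φ a (D.w.j (α p, t)) = φ a p
  prd : Prd x D.S₁ D.e D.S₂ D.d D.σ D.b (fun t => D.F.φ (ς * tc t)) μ D.ν D.r φ Q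
  pt : PtApi rfl x.X LN (eψ x D.w ς α) (eO x ς) D.S₁ D.e D.S₂ D.S D.b T Ω
  tr : TrApi (eψ x D.w ς α) (eO x ς) T (μ.prod D.ν) D.ρ U

namespace SD

variable {D : CD G m N₁ N} (s : SD D)

/-- the Hilbert space of the product -/
abbrev H : Type := Lp (Eu N) 2 (s.μ.prod D.ν)

/-- multiplication on the product -/
abbrev mu (f : s.x.X.M × LN.M → ℝ) : s.H →L[ℝ] s.H := mul (Eu N) (s.μ.prod D.ν) f

/-- a function of the collar coordinate -/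
def fx (η : ℝ → ℝ) (p : s.x.X.M) : ℝ := η (ht s.x p)

/-- a function of the line coordinate -/
def fl (η : ℝ → ℝ) (t : LN.M) : ℝ := η (s.ς * tc t)

/-- Clifford multiplication by the gradient of a function on the first factor -/
def cg (f : s.x.X.M → ℝ) : s.H →L[ℝ] s.H :=
  ∑ j : Fin (m + 1), s.mu (fun z => dv s.x.X j f z.1) * cst (s.μ.prod D.ν) (gam D.S j.castSucc)

/-- the potential of the vector field on the bordism -/
def ΦW : D.w.X.M → ℝ :=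
  pull (eψ s.x D.w s.ς s.α) (eO s.x s.ς) (fun z => s.fx D.F.Φ z.1 * s.fl D.F.γ₁ z.2) 0

/-- the coupling -/
def Gm : s.H →L[ℝ] Lp (Eu N) 2 D.ρ := s.U ∘L s.mu fun z => s.fx D.F.g z.1 * s.fl D.F.γ z.2

/-- the change of the connection, from the product to the bordism -/
def K (j : Fin (m + 1 + 1)) : s.H →L[ℝ] Lp (Eu N) 2 D.ρ :=
  mul (Eu N) D.ρ (dv D.w.X j s.ΦW) ∘L s.U ∘L
    (s.mu (fun z => D.F.M * s.fl D.F.γ z.2) * s.cg (s.fx D.F.Φ))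

/-- the change of the connection, from the bordism to the product -/
def K' (j : Fin (m + 1 + 1)) : Lp (Eu N) 2 D.ρ →L[ℝ] s.H :=
  Fin.lastCases (motive := fun _ => Lp (Eu N) 2 D.ρ →L[ℝ] s.H) 0 (fun j =>
    (s.mu (fun z => -(D.F.M * s.fl D.F.γ z.2 * dv s.x.X j (s.fx D.F.Φ) z.1)) *
      s.cg (s.fx D.F.Φ)) ∘L adjoint s.U) j

/-- the bounded cross term -/
def C : s.H →L[ℝ] Lp (Eu N) 2 D.ρ :=
  s.U ∘L (s.mu (fun z => s.fl D.F.γ z.2) * s.cg (s.fx D.F.k) +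
    s.mu (fun z => s.fx D.F.g z.1 * (s.ς * s.fl (deriv D.F.γ) z.2)) *
      cst (s.μ.prod D.ν) (gam D.S (Fin.last _)))

/-- the gain -/
def a (z : s.x.X.M × LN.M) : ℝ := D.F.a (ht s.x z.1) (s.ς * tc z.2)

/-- the gain on the bordism -/
def aW : D.w.X.M → ℝ := pull (eψ s.x D.w s.ς s.α) (eO s.x s.ς) s.a 0

/-- the support projection -/
def pr : Lp (Eu N) 2 D.ρ →L[ℝ] Lp (Eu N) 2 D.ρ :=
  mul (Eu N) D.ρ ((eψ s.x D.w s.ς s.α '' eO s.x s.ς).indicator 1)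

end SD

end Bord

end Pool.Agent.Lib.WD
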