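import Pool.Agent.Lib.WD.Blue
import Pool.Agent.Lib.SZ.Bridge2

/-! The final statement in compact form. -/

noncomputable section

open Set Function

namespace Pool.Agent.Lib.SZ

/-- The empty manifold. -/
def emptySM (n : ℕ) : SM (Eu n) :=
  letI : ChartedSpace (Eu n) Empty := ChartedSpace.empty _ _
  { M := Empty
    U _ := univ
    F _ x := x.elim
    s _ _ x := x.elim
    isOpen _ := isOpen_univ
    cover x := x.elim
    smooth _ _ x := x.elim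
    spin _ _ x := x.elim
    smc _ _ _ x := x.elim
    cocycle _ _ _ x := x.elim }

/-- A closed manifold as a cycle with empty boundary. -/
def closedSing {G : Type} [Group G] {m : ℕ} (B : SM (Eu (m + 1))) [CompactSpace B.M]
    (f : B.M → BG G) (hf : Continuous f) : Sing G m where
  X := B
  N := emptySM m
  j z := Empty.elim z.1
  f := f
  cpt := inferInstanceAs (CompactSpace Empty)
  prod := ⟨⟨fun z => Empty.elim z.1.1, fun z => Empty.elim z.1⟩, fun _ z => Empty.elim z.1,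
    fun _ _ z => Empty.elim z.1, fun _ z => Empty.elim z.1, fun _ _ z => Empty.elim z.1⟩
  core_cpt := by
    rw [eq_empty_of_forall_notMem (s := _ '' _) fun _ ⟨z, _⟩ => Empty.elim z.1, compl_empty]
    exact isCompact_univ
  closed := by
    rw [eq_empty_of_forall_notMem (s := _ '' _) fun _ ⟨z, _⟩ => Empty.elim z.1]
    exact isClosed_empty
  cont := hf
  cyl y := Empty.elim y

theorem one_iff {m N : ℕ} (b : Sing Unit m) (S : Spinor (Eu (m + 1)) (Eu N))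
    (h : b.IsIndex S (K0.mk (k := 1) ⟨1, one_mul 1⟩)) :
    (toSing b).IsIndex (toSp S) (BCH.cls (1 : Matrix (Fin 1) (Fin 1) (CX.Cr Unit))) := by
  have := transport (G := Unit) (fun A => IsIndexOf bv b.X b.f S (R := A) Subtype.val
    (K0.mk (k := 1) ⟨1, one_mul 1⟩) → (toSing b).IsIndex (toSp S)
      (BCH.cls (1 : Matrix (Fin 1) (Fin 1) (CX.Cr Unit)))) fun h => by
    rw [show BCH.cls (1 : Matrix (Fin 1) (Fin 1) (CX.Cr Unit)) = _ from
      BCH.cls_eq_mk (R := CX.Cr Unit) ⟨1, one_mul 1⟩]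
    exact (isIndexOf_iff b S _).1 h
  exact this h

theorem fin_of (hG : RQ.St_GOAL) (hC : RQ.St_CLF) (hB : WD.St_BORD) (hW : WD.St_WD) :
    ∃ (G : Type) (_ : Group G), Group.FG G ∧ ∃ ind : Cyc G → K0 (Cr G),
    (∀ (k : ℕ) (x : Sing G (8 * k + 7)) (h : x.Psc) (z : K0 (Cr G)), ind ⟨k, x, h⟩ = z ↔
      ∃ S : Spinor (Eu (8 * k + 7 + 1)) (Eu (16 ^ (k + 1))), x.IsIndex S z) ∧
    (∀ (k : ℕ) (x y : Sing G (8 * k + 7)) (hx : x.Psc) (hy : y.Psc), Bord x y →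
      ind ⟨k, x, hx⟩ = ind ⟨k, y, hy⟩) ∧
    AddSubgroup.closure (Set.range ind) ≠ ⊤ ∧
    ∀ (B : SM (Eu 8)) (f : B.M → BG Unit) (S : Spinor (Eu 8) (Eu 16)), CompactSpace B.M →
      Continuous f →
      IsIndexOf bv B f S (R := Cr Unit) Subtype.val (K0.mk (k := 1) ⟨1, one_mul 1⟩) →
      ∃ θ : RB G B → K0 (Cr G), (∀ x, θ (Quot.mk _ x) = ind x) ∧ ¬Function.Surjective θ := by
  obtain ⟨G, _, h1, z, hz⟩ := hG.2
  refine ⟨G, _, h1, transport (fun A => ∃ ind : Cyc G → K0 A,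
    (∀ (k : ℕ) (x : Sing G (8 * k + 7)) (h : x.Psc) (z : K0 A), ind ⟨k, x, h⟩ = z ↔
      ∃ S : Spinor (Eu (8 * k + 7 + 1)) (Eu (16 ^ (k + 1))),
        IsIndexOf bv x.X x.f S (R := A) Subtype.val z) ∧
    (∀ (k : ℕ) (x y : Sing G (8 * k + 7)) (hx : x.Psc) (hy : y.Psc), Bord x y →
      ind ⟨k, x, hx⟩ = ind ⟨k, y, hy⟩) ∧
    AddSubgroup.closure (Set.range ind) ≠ ⊤ ∧
    ∀ (B : SM (Eu 8)) (f : B.M → BG Unit) (S : Spinor (Eu 8) (Eu 16)), CompactSpace B.M →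
      Continuous f →
      IsIndexOf bv B f S (R := Cr Unit) Subtype.val (K0.mk (k := 1) ⟨1, one_mul 1⟩) →
      ∃ θ : RB G B → K0 A, (∀ x, θ (Quot.mk _ x) = ind x) ∧ ¬Function.Surjective θ) ?_⟩
  have S := fun k => (CX.spinor_nonempty k).some
  choose ind hi hu using fun x : Cyc G => hG.1 G x.1 _ (S x.1) (toCyc x).2.1 (toCyc x).2.2
  have hr : z ∉ AddSubgroup.closure (Set.range ind) := fun h => hz <| by
    refine AddSubgroup.closure_mono ?_ h
    rintro _ ⟨x, rfl⟩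
    exact ⟨x.1, _, S x.1, (toCyc x).2.1, (toCyc x).2.2, hi x⟩
  refine ⟨ind, fun k x hx w =>
    ⟨fun h => ⟨ofSp (S k), (isIndexOf_iff x _ w).2 (h ▸ hi ⟨k, x, hx⟩)⟩,
      fun ⟨S', h⟩ => (hu ⟨k, x, hx⟩ w (((isIndexOf_iff x S' w).1 h).indep _)).symm⟩,
    fun k x y hx hy h => hB G _ _ (toSing x) (toSing y) (S k) (hC k _ _) ((psc_iff _).1 hx)
      ((psc_iff _).1 hy) ((bord_iff _ _).1 h) _ _ (hi ⟨k, x, hx⟩) (hi ⟨k, y, hy⟩),
    fun h => hr (h ▸ AddSubgroup.mem_top _), fun B f S₀ hB hf h0 => ?_⟩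
  obtain ⟨θ, hθ⟩ := hW G (toSing (closedSing (m := 7) B f hf)) (toSp S₀)
    (inferInstanceAs (IsEmpty Empty)) (one_iff (closedSing (m := 7) B f hf) S₀ h0)
  have h2 : ∀ x : Cyc G, θ ((rbEquiv B).symm (Quot.mk _ x)) = ind x := fun x =>
    (hθ (toCyc x) (S x.1) _).2 (hi x)
  refine ⟨θ ∘ (rbEquiv B).symm, h2, fun hs => hr ?_⟩
  obtain ⟨c, rfl⟩ := hs z
  obtain ⟨x, rfl⟩ := Quot.exists_rep c
  exact AddSubgroup.subset_closure ⟨x, (h2 x).symm⟩

end Pool.Agent.Lib.SZ
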