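import Pool.Agent.Lib.WD.Blue

/-! Calculus on the line. -/

noncomputable section

open Set Function MeasureTheory CliffordAlgebra
open scoped Manifold ContDiff InnerProductSpace

namespace Pool.Agent.Lib.WD

namespace FLT

open CX AN

/-- the coordinate as a linear isomorphism -/
def L : Eu 1 ≃L[ℝ] ℝ :=
  (EuclideanSpace.equiv (Fin 1) ℝ).trans (ContinuousLinearEquiv.funUnique (Fin 1) ℝ ℝ)

theorem L_apply (t : Eu 1) : L t = t 0 := rfl

theorem tc_eq (t : LN.M) : tc t = L (co t) := rfl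

theorem L_bv (i : Fin 1) : L (bv i) = 1 := by
  rw [Subsingleton.elim i 0, L_apply]
  simp [bv]

theorem ga_zero (X : SM 1) (a : ℕ) (i j k : Fin 1) (x : X.M) : X.ga a i j k x = 0 := by
  have h : ∀ i j k, X.cc a i j k x = 0 := fun i j k => by
    rw [Subsingleton.elim j i, SM.cc, VectorField.mlieBracket_self]
    simp
  simp [SM.ga, h]

theorem scal_zero (X : SM 1) (x : X.M) : X.scal x = 0 := by
  simp [SM.scal, SM.riem, ga_zero]

variable {W : Type} [NormedAddCommGroup W] [NormedSpace ℝ W]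

theorem dd_eq (a : ℕ) (i : Fin 1) (η : ℝ → W) (t : LN.M) :
    LN.dd a i (fun t => η (tc t)) t = deriv η (tc t) := by
  have h : LN.dd a i (fun t => η (tc t)) t = fderiv ℝ (η ∘ L) (co t) (bv i) := by
    rw [← mfderiv_eq_fderiv]
    rfl
  rw [h, L.comp_right_fderiv, ContinuousLinearMap.comp_apply, ContinuousLinearEquiv.coe_coe, L_bv]
  rfl

theorem sm (η : ℝ → W) :
    ContMDiff (𝓡 1) 𝓘(ℝ, W) ∞ (fun t : LN.M => η (tc t)) ↔ ContDiff ℝ ∞ η := by
  rw [← L.contDiff_comp_iff (f := η), ← contMDiff_iff_contDiff]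
  rfl

/-- the coordinate as a homeomorphism -/
def hm : LN.M ≃ₜ ℝ := L.toHomeomorph

omit [NormedSpace ℝ W] in
theorem cpt (η : ℝ → W) : HasCompactSupport (fun t : LN.M => η (tc t)) ↔ HasCompactSupport η :=
  ⟨fun h => by
    have := h.comp_homeomorph hm.symm
    have e : (fun t : LN.M => η (tc t)) ∘ hm.symm = η :=
      funext fun s => congrArg η (hm.apply_symm_apply s)
    rwa [e] at this, fun h => h.comp_homeomorph hm⟩

theorem loc_eq {N : ℕ} (S : Spinor 1 N) (a : ℕ) (s : LN.M → Eu N) : loc LN S a s = s :=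
  funext fun y => by
    have : tr LN S a (LN.fr y) y = 1 := map_one S.c
    rw [loc, this]
    rfl

theorem dv_eq (η : ℝ → ℝ) (c : ℝ) (i : Fin 1) (t : LN.M) :
    dv LN i (fun t => η (c * tc t)) t = c * deriv η (c * tc t) := by
  rw [dv, dd_eq _ i (fun s => η (c * s)), deriv_comp_mul_left, smul_eq_mul]

theorem cpl : Cpl LN where
  sc := hm.isClosedEmbedding.sigmaCompactSpace
  cut K hK ε hε := by
    let f : ContDiffBump (0 : ℝ) := ⟨1, 2, one_pos, one_lt_two⟩
    obtain ⟨C, hC⟩ := (f.contDiff (n := 1)).continuous_deriv_one.bounded_above_of_compact_support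
      f.hasCompactSupport.deriv
    obtain ⟨R, hR⟩ := (hK.image hm.continuous).isBounded.subset_closedBall 0
    have hC0 : 0 ≤ C := (norm_nonneg _).trans (hC 0)
    set c : ℝ := min (ε / (C + 1)) (1 / (|R| + 1))
    have hc : 0 < c := lt_min (by positivity) (by positivity)
    refine ⟨fun t => f (c * tc t), (sm fun s => f (c * s)).2
      (f.contDiff.comp (contDiff_const.mul contDiff_id)), (cpt fun s => f (c * s)).2
      (f.hasCompactSupport.comp_homeomorph (Homeomorph.mulLeft₀ c hc.ne')), fun y hy => ?_,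
      fun i y => ?_⟩
    · refine f.one_of_mem_closedBall ?_
      have h1 : |tc y| ≤ R := mem_closedBall_zero_iff.1 (hR ⟨y, hy, rfl⟩)
      have h2 : c * (|R| + 1) ≤ 1 := (le_div_iff₀ (by positivity)).1 (min_le_right _ _)
      have h3 := le_abs_self R
      rw [mem_closedBall_zero_iff, Real.norm_eq_abs, abs_mul, abs_of_pos hc]
      show _ ≤ (1 : ℝ)
      nlinarith
    · rw [dv_eq, abs_mul, abs_of_pos hc]
      have h2 : c * (C + 1) ≤ ε := (le_div_iff₀ (by positivity)).1 (min_le_left _ _)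
      have h3 : |deriv f (c * tc y)| ≤ C := hC _
      nlinarith

theorem vol (ν : Measure LN.M) (h : LN.IsVol ν) : MeasurePreserving tc ν volume := by
  have : BorelSpace LN.M := ⟨rfl⟩
  have hm' : Measurable tc := hm.continuous.measurable
  have hp : MeasurePreserving (fun t : Eu 1 => t 0) volume volume :=
    (volume_preserving_funUnique (Fin 1) ℝ).comp (PiLp.volume_preserving_ofLp (Fin 1))
  refine ⟨hm', Measure.ext fun s hs => ?_⟩
  rw [Measure.map_apply hm' hs, h (0 : Eu 1) 0 _ (hm' hs) fun _ _ => ⟨trivial, trivial⟩,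
    ← hp.measure_preimage hs.nullMeasurableSet, ← setLIntegral_one]
  have e : ∀ y : Eu 1, ENNReal.ofReal |ContinuousLinearMap.det
      ((mfderiv (𝓡 1) (𝓡 1) (id : Eu 1 → Eu 1) y).comp (ContinuousLinearMap.id ℝ (Eu 1)) :
        Eu 1 →L[ℝ] Eu 1)|⁻¹ = 1 := fun y => by
    rw [mfderiv_id]
    have : ContinuousLinearMap.det ((ContinuousLinearMap.id ℝ (Eu 1)).comp
      (ContinuousLinearMap.id ℝ (Eu 1))) = 1 := LinearMap.det_id
    erw [this]
    simp
  have e2 : (id : Eu 1 → Eu 1) '' ((fun t : Eu 1 => t 0) ⁻¹' s) = (fun t : Eu 1 => t 0) ⁻¹' s :=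
    image_id _
  rw [← e2]
  exact lintegral_congr e

end FLT

open CX AN FLT

theorem stFLT : St_FLT where
  cpl := cpl
  scal := scal_zero LN
  homeo := ⟨hm, fun _ => rfl⟩
  vol := vol
  sm := sm
  dv η _ := dv_eq η
  isT S η := ⟨fun h => ⟨(sm η).1 (by
      have := h.sm 0
      rw [loc_eq] at this
      exact contMDiffOn_univ.1 this), (cpt η).1 h.cpt⟩,
    fun h => ⟨(cpt η).2 h.2, fun a => by
      rw [loc_eq]
      exact ((sm η).2 h.1).contMDiffOn⟩⟩
  dir S η t := by
    rw [dir, loc_eq, dirac_eq, Fin.sum_univ_one, nabL, dd_eq]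
    simp [ga_zero]

end Pool.Agent.Lib.WD
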