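import Pool.Agent.Lib.WD.Blue

/-! Block FUN: the real functions of the coupling. -/

noncomputable section

open Set Function
open scoped ContDiff

namespace Pool.Agent.Lib.WD

namespace F56

open Real

theorem st_sm : ContDiff ℝ ∞ smoothTransition := smoothTransition.contDiff

theorem d_min {f : ℝ → ℝ} {a t : ℝ} (h : ∀ s, a ≤ f s) (ht : f t = a) : deriv f t = 0 :=
  IsLocalMin.deriv_eq_zero (Filter.Eventually.of_forall fun s => ht ▸ h s)

theorem d_max {f : ℝ → ℝ} {a t : ℝ} (h : ∀ s, f s ≤ a) (ht : f t = a) : deriv f t = 0 :=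
  IsLocalMax.deriv_eq_zero (Filter.Eventually.of_forall fun s => ht ▸ h s)

theorem st_bd : ∃ B : ℝ, 0 < B ∧ ∀ s, |deriv smoothTransition s| ≤ B := by
  have hc : Continuous (deriv smoothTransition) := st_sm.continuous_deriv (by simp)
  obtain ⟨B, hB⟩ := (isCompact_Icc (a := (0 : ℝ)) (b := 1)).exists_bound_of_continuousOn
    hc.continuousOn
  refine ⟨|B| + 1, by positivity, fun s => ?_⟩
  by_cases h : s ∈ Icc (0 : ℝ) 1
  · have := hB s h
    rw [Real.norm_eq_abs] at this
    linarith [le_abs_self B]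
  · have : deriv smoothTransition s = 0 := by
      rw [mem_Icc, not_and_or, not_le, not_le] at h
      rcases h with h | h
      · exact d_min smoothTransition.nonneg (smoothTransition.zero_of_nonpos h.le)
      · exact d_max smoothTransition.le_one (smoothTransition.one_of_one_le h.le)
    rw [this, abs_zero]; positivity

theorem st_hd (a b t : ℝ) : HasDerivAt (fun t => smoothTransition (a * t + b))
    (deriv smoothTransition (a * t + b) * a) t := by
  have h1 : HasDerivAt smoothTransition (deriv smoothTransition (a * t + b)) (a * t + b) :=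
    ((st_sm.differentiable (by simp)) _).hasDerivAt
  have h2 : HasDerivAt (fun t => a * t + b) a t := by
    simpa using ((hasDerivAt_id t).const_mul a).add_const b
  exact h1.comp t h2

theorem st_cd (a b : ℝ) : ContDiff ℝ ∞ fun t => smoothTransition (a * t + b) :=
  st_sm.comp ((contDiff_const.mul contDiff_id).add contDiff_const)

/-- a plateau -/
def pl (a b t : ℝ) : ℝ := smoothTransition (1 * t + -a) * smoothTransition (-1 * t + b)

theorem pl_cd (a b : ℝ) : ContDiff ℝ ∞ (pl a b) := (st_cd _ _).mul (st_cd _ _)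

theorem pl_nn (a b t : ℝ) : 0 ≤ pl a b t :=
  mul_nonneg (smoothTransition.nonneg _) (smoothTransition.nonneg _)

theorem pl_le (a b t : ℝ) : pl a b t ≤ 1 :=
  mul_le_one₀ (smoothTransition.le_one _) (smoothTransition.nonneg _) (smoothTransition.le_one _)

theorem pl_zero {a b t : ℝ} (h : t ≤ a ∨ b ≤ t) : pl a b t = 0 := by
  rcases h with h | h
  · rw [pl, smoothTransition.zero_of_nonpos (by linarith), zero_mul]
  · rw [pl, smoothTransition.zero_of_nonpos (x := -1 * t + b) (by linarith), mul_zero]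

theorem pl_one {a b t : ℝ} (h : a + 1 ≤ t) (h' : t ≤ b - 1) : pl a b t = 1 := by
  rw [pl, smoothTransition.one_of_one_le (by linarith),
    smoothTransition.one_of_one_le (by linarith), mul_one]

theorem pl_d {B : ℝ} (hB : ∀ s, |deriv smoothTransition s| ≤ B) (a b t : ℝ) :
    |deriv (pl a b) t| ≤ 2 * B := by
  have h := ((st_hd 1 (-a) t).mul (st_hd (-1) b t)).deriv
  have e : deriv (pl a b) t = _ := h
  rw [e]
  have h1 := hB (1 * t + -a)
  have h2 := hB (-1 * t + b)
  have h3 := smoothTransition.nonneg (1 * t + -a)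
  have h4 := smoothTransition.le_one (1 * t + -a)
  have h5 := smoothTransition.nonneg (-1 * t + b)
  have h6 := smoothTransition.le_one (-1 * t + b)
  have hB0 : 0 ≤ B := (abs_nonneg _).trans h1
  refine (abs_add_le _ _).trans ?_
  simp only [abs_mul, mul_one, abs_neg, abs_one, abs_of_nonneg h3, abs_of_nonneg h5]
  nlinarith [abs_nonneg (deriv smoothTransition (1 * t + -a)),
    abs_nonneg (deriv smoothTransition (-1 * t + b))]

theorem pl_supp (a b : ℝ) : tsupport (pl a b) ⊆ Icc a b := by
  refine closure_minimal (fun t ht => ?_) isClosed_Icc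
  by_contra h
  rw [mem_Icc, not_and_or, not_le, not_le] at h
  exact ht (pl_zero (h.imp le_of_lt le_of_lt))

end F56

open F56 Real in
theorem stFUN : St_FUN := by
  intro κ C R hκ hC
  obtain ⟨B, hB0, hB⟩ := st_bd
  set k0 : ℝ := 2 * κ + C + 1 with hk0
  have hk0p : 0 < k0 := by positivity
  set k : ℝ → ℝ := fun s => k0 * smoothTransition (-2 * s + 3 / 2) with hk
  have ksm : ContDiff ℝ ∞ k := contDiff_const.mul (st_cd _ _)
  have knn : ∀ s, 0 ≤ k s := fun s => mul_nonneg hk0p.le (smoothTransition.nonneg _)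
  have kle : ∀ s, k s ≤ k0 := fun s =>
    mul_le_of_le_one_right hk0p.le (smoothTransition.le_one _)
  have klo : ∀ s ≤ (1 / 4 : ℝ), k s = k0 := fun s hs => by
    simp only [hk]; rw [smoothTransition.one_of_one_le (by linarith), mul_one]
  have khi : ∀ s, (3 / 4 : ℝ) ≤ s → k s = 0 := fun s hs => by
    simp only [hk]; rw [smoothTransition.zero_of_nonpos (by linarith), mul_zero]
  have kd : ∀ s, |deriv k s| ≤ k0 * (B * 2) := fun s => by
    have e : deriv k s = _ := ((st_hd (-2) (3 / 2) s).const_mul k0).deriv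
    rw [e, abs_mul, abs_mul, abs_of_pos hk0p]
    have : |(-2 : ℝ)| = 2 := by norm_num
    rw [this]
    gcongr
    exact hB _
  have kc : Continuous (deriv k) := ksm.continuous_deriv (by simp)
  obtain ⟨m, hm0, hm⟩ : ∃ m : ℝ, 0 < m ∧ ∀ s, κ ≤ |deriv k s| → m ≤ k s := by
    have hK : IsCompact (Icc (0 : ℝ) 1 ∩ {s | κ ≤ |deriv k s|}) :=
      isCompact_Icc.inter_right (isClosed_le continuous_const kc.abs)
    obtain ⟨m, hm0, hm⟩ := hK.exists_forall_le' (f := k) ksm.continuous.continuousOn (a := 0)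
      (fun s hs => lt_of_le_of_ne (knn s) fun h => by
        have h1 : κ ≤ |deriv k s| := hs.2
        rw [d_min knn h.symm, abs_zero] at h1
        linarith)
    refine ⟨m, hm0, fun s hs => hm s ⟨?_, hs⟩⟩
    by_contra h
    rw [mem_Icc, not_and_or, not_le, not_le] at h
    rcases h with h | h
    · rw [d_max kle (klo s (by linarith)), abs_zero] at hs; linarith
    · rw [d_min knn (khi s (by linarith)), abs_zero] at hs; linarith
  set M : ℝ := 1 / (m * κ) with hM
  have hM0 : 0 < M := by positivity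
  have key : ∀ s, |deriv k s| ≤ κ + 2 * k s * (M * deriv k s ^ 2) := fun s => by
    have h0 : 0 ≤ 2 * k s * (M * deriv k s ^ 2) := by have := knn s; positivity
    by_cases h : κ ≤ |deriv k s|
    · have h1 := hm s h
      have h2 : M * (m * κ) = 1 := by rw [hM]; field_simp
      have h3 : m * κ ≤ k s * |deriv k s| := mul_le_mul h1 h hκ.le (knn s)
      have h4 : 1 ≤ M * (k s * |deriv k s|) := h2 ▸ mul_le_mul_of_nonneg_left h3 hM0.le
      have h5 : |deriv k s| ≤ M * (k s * |deriv k s|) * |deriv k s| :=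
        le_mul_of_one_le_left (abs_nonneg _) h4
      have h6 : M * (k s * |deriv k s|) * |deriv k s| = k s * (M * deriv k s ^ 2) := by
        rw [← sq_abs]; ring
      linarith
    · push Not at h
      linarith
  set D : ℝ := k0 * (B * 2) with hD
  have hD0 : 0 < D := by positivity
  set Λ : ℝ := κ + C + D + (k0 + M * D ^ 2) * (2 * B) + 1 with hΛ
  have hX : 0 < (k0 + M * D ^ 2) * (2 * B) := by positivity
  have hΛ1 : 1 ≤ Λ := by linarith
  have hΛ2 : Λ ≤ Λ ^ 2 := by rw [sq]; exact le_mul_of_one_le_left (by linarith) hΛ1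
  set L : ℝ := 2 * Λ * B / κ with hL
  have hL0 : 0 < L := by positivity
  set φ : ℝ → ℝ := fun t => 2 * Λ * smoothTransition (L⁻¹ * t + -(L⁻¹ * (R + 3))) + -Λ with hφ
  have φsm : ContDiff ℝ ∞ φ := (contDiff_const.mul (st_cd _ _)).add contDiff_const
  have φge : ∀ t, -Λ ≤ φ t := fun t => by
    have := smoothTransition.nonneg (L⁻¹ * t + -(L⁻¹ * (R + 3)))
    have := mul_nonneg (by linarith : 0 ≤ 2 * Λ) this
    simp only [hφ]; linarith
  have φle : ∀ t, φ t ≤ Λ := fun t => by
    have := smoothTransition.le_one (L⁻¹ * t + -(L⁻¹ * (R + 3)))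
    have := mul_le_mul_of_nonneg_left this (by linarith : 0 ≤ 2 * Λ)
    simp only [hφ]; linarith
  have φlo : ∀ t ≤ R + 3, φ t = -Λ := fun t ht => by
    have : L⁻¹ * t + -(L⁻¹ * (R + 3)) ≤ 0 := by
      have := mul_le_mul_of_nonneg_left ht (inv_pos.2 hL0).le
      linarith
    simp only [hφ]; rw [smoothTransition.zero_of_nonpos this]; ring
  have φhi : ∀ t, R + 3 + L ≤ t → φ t = Λ := fun t ht => by
    have : 1 ≤ L⁻¹ * t + -(L⁻¹ * (R + 3)) := by
      have h1 := mul_le_mul_of_nonneg_left ht (inv_pos.2 hL0).le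
      have h2 : L⁻¹ * L = 1 := inv_mul_cancel₀ hL0.ne'
      rw [mul_add, h2] at h1
      linarith
    simp only [hφ]; rw [smoothTransition.one_of_one_le this]; ring
  have φd : ∀ t, |deriv φ t| ≤ κ := fun t => by
    have e : deriv φ t = _ :=
      (((st_hd L⁻¹ (-(L⁻¹ * (R + 3))) t).const_mul (2 * Λ)).add_const (-Λ)).deriv
    rw [e, abs_mul, abs_of_pos (by positivity : 0 < 2 * Λ), abs_mul,
      abs_of_pos (inv_pos.2 hL0)]
    have h1 : 2 * Λ * (B * L⁻¹) = κ := by rw [hL]; field_simp
    rw [← h1]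
    gcongr
    exact hB _
  have out : ∀ t, t ≤ R + 3 ∨ R + 3 + L ≤ t → φ t ^ 2 = Λ ^ 2 ∧ deriv φ t = 0 := fun t ht => by
    rcases ht with h | h
    · exact ⟨by rw [φlo t h]; ring, d_min φge (φlo t h)⟩
    · exact ⟨by rw [φhi t h], d_max φle (φhi t h)⟩
  clear_value φ L Λ D M k k0
  clear hφ hL hD hM hk hm kc
  refine ⟨⟨k, k, φ, pl (R + 2) (R + 4 + L), pl (R + 1) (R + 5 + L), M, Λ, R + 5 + L, ksm, ksm,
    φsm, pl_cd _ _, pl_cd _ _, fun s hs => ?_, fun s hs => ?_, by linarith, by linarith,
    fun t ht => φlo t (by linarith), fun t ht => φhi t (by linarith), fun t ht => ?_,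
    fun t ht => ?_, fun s t σ hs hσ hσ' => ?_, fun t σ hσ hσ' => ?_⟩⟩
  · have e : k s = k 0 := by rw [klo s hs.le, klo 0 (by norm_num)]
    exact ⟨e, e, d_max kle (klo s hs.le)⟩
  · exact ⟨khi s hs, khi s hs, d_min knn (khi s hs), d_min knn (khi s hs)⟩
  · have h1 : pl (R + 2) (R + 4 + L) t = 0 :=
      pl_zero (ht.imp (fun h => by linarith) fun h => by linarith)
    exact ⟨h1, pl_zero ht, d_min (pl_nn _ _) h1⟩
  · have h := pl_supp _ _ ht
    have h1 : pl (R + 1) (R + 5 + L) t = 1 := pl_one (by linarith [h.1]) (by linarith [h.2])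
    exact ⟨h1, d_max (pl_le _ _) h1⟩
  · have hw : 0 ≤ M * deriv k s ^ 2 := by positivity
    have hks := knn s
    by_cases ht : t ≤ R + 3 ∨ R + 3 + L ≤ t
    · obtain ⟨e1, e2⟩ := out t ht
      rw [e1, e2, abs_zero]
      have g0 := pl_nn (R + 2) (R + 4 + L) t
      have g1 := pl_le (R + 2) (R + 4 + L) t
      have g2 := pl_d hB (R + 2) (R + 4 + L) t
      have a1 : 0 ≤ pl (R + 2) (R + 4 + L) t ^ 2 *
          ((k s + M * deriv k s ^ 2) ^ 2 - (M * deriv k s ^ 2) ^ 2) :=
        mul_nonneg (sq_nonneg _) (sub_nonneg.2 (pow_le_pow_left₀ hw (by linarith) 2))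
      have a2 : |pl (R + 2) (R + 4 + L) t| * |deriv k s| ≤ D := by
        rw [abs_of_nonneg g0]
        exact (mul_le_of_le_one_left (abs_nonneg _) g1).trans (kd s)
      have a3 : |k s + M * deriv k s ^ 2| ≤ k0 + M * D ^ 2 := by
        rw [abs_of_nonneg (by linarith)]
        have : deriv k s ^ 2 ≤ D ^ 2 := by
          rw [← sq_abs]; exact pow_le_pow_left₀ (abs_nonneg _) (kd s) 2
        have := mul_le_mul_of_nonneg_left this hM0.le
        linarith [kle s]
      have a4 : |k s + M * deriv k s ^ 2| * |deriv (pl (R + 2) (R + 4 + L)) t| ≤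
          (k0 + M * D ^ 2) * (2 * B) := mul_le_mul a3 g2 (abs_nonneg _) (by positivity)
      linarith
    · push Not at ht
      have h1 : pl (R + 2) (R + 4 + L) t = 1 := pl_one (by linarith [ht.1]) (by linarith [ht.2])
      rw [h1, d_max (pl_le _ _) h1, abs_zero, abs_one]
      have h2 := φd t
      have h3 := key s
      rcases hs.eq_or_lt with h | h
      · subst h
        have e1 : k 0 = k0 := klo 0 (by norm_num)
        have e2 : deriv k 0 = 0 := d_max kle e1
        rw [e1, e2, abs_zero]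
        have : k0 ≤ k0 ^ 2 := by rw [sq]; exact le_mul_of_one_le_left hk0p.le (by linarith)
        have := sq_nonneg (φ t)
        simp only [ne_eq, OfNat.ofNat_ne_zero, not_false_eq_true, zero_pow, mul_zero, add_zero,
          sub_zero, one_pow, one_mul]
        linarith
      · have := hσ' h
        have e : (k s + M * deriv k s ^ 2) ^ 2 - (M * deriv k s ^ 2) ^ 2 =
            k s ^ 2 + 2 * k s * (M * deriv k s ^ 2) := by ring
        rw [e]
        linarith [sq_nonneg (φ t), sq_nonneg (k s)]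
  · by_cases ht : R < t
    · have := hσ' ht
      linarith [sq_nonneg (φ t), φd t]
    · obtain ⟨e1, e2⟩ := out t (Or.inl (by linarith [not_lt.1 ht]))
      rw [e1, e2, abs_zero]
      linarith

end Pool.Agent.Lib.WD
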