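import Pool.Agent.Lib.WD.Blue

/-! Finite dimensional kernel and spectral gap. -/

noncomputable section

open Filter Topology Metric
open scoped InnerProductSpace

namespace Pool.Agent.Lib.WD

namespace GAP

variable {F : Type} [NormedAddCommGroup F] [InnerProductSpace ℝ F] [CompleteSpace F]

/-- bounded sequences on which `A` tends to zero have convergent subsequences -/
theorem key {A C : F →L[ℝ] F} (hC : IsCompactOperator C) {M : ℝ} (hM : 0 ≤ M)
    (hlow : ∀ z, ‖z‖ ≤ M * ‖A.prod C z‖) (y : ℕ → F) (hy : ∀ n, ‖y n‖ ≤ 1)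
    (hA : Tendsto (fun n => A (y n)) atTop (𝓝 0)) :
    ∃ x, ∃ φ : ℕ → ℕ, StrictMono φ ∧ Tendsto (y ∘ φ) atTop (𝓝 x) := by
  have hK := IsCompactOperator.isCompact_closure_image_closedBall (f := C.toLinearMap) hC 1
  obtain ⟨c, -, φ, hφ, hc⟩ := hK.tendsto_subseq (x := fun n => C (y n)) fun n =>
    subset_closure ⟨y n, mem_closedBall_zero_iff.2 (hy n), rfl⟩
  have ha : AntilipschitzWith M.toNNReal (A.prod C) :=
    ContinuousLinearMap.antilipschitz_of_bound _ fun x => by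
      rw [Real.coe_toNNReal _ hM]
      exact hlow x
  have h1 : Tendsto (fun n => A.prod C ((y ∘ φ) n)) atTop (𝓝 (0, c)) :=
    (hA.comp hφ.tendsto_atTop).prodMk_nhds hc
  have h2 : CauchySeq (y ∘ φ) :=
    (ha.isUniformInducing (A.prod C).uniformContinuous).cauchy_map_iff.1 h1.cauchySeq
  obtain ⟨x, hx⟩ := cauchySeq_tendsto_of_complete h2
  exact ⟨x, φ, hφ, hx⟩

theorem fin {A C : F →L[ℝ] F} (hC : IsCompactOperator C) {M : ℝ} (hM : 0 ≤ M)
    (hlow : ∀ z, ‖z‖ ≤ M * ‖A.prod C z‖) (T : F →L[ℝ] F) (hT : ∀ z, T z = 0 → A z = 0) :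
    FiniteDimensional ℝ (LinearMap.ker T.toLinearMap) := by
  refine FiniteDimensional.of_isCompact_closedBall₀ ℝ one_pos (IsSeqCompact.isCompact fun y hy => ?_)
  have hy' : ∀ n, ‖(y n : F)‖ ≤ 1 := fun n => mem_closedBall_zero_iff.1 (hy n)
  obtain ⟨x, φ, hφ, hx⟩ := key hC hM hlow (fun n => (y n : F)) hy' (by
    have : (fun n => A (y n : F)) = fun _ => 0 := funext fun n => hT _ (y n).2
    rw [this]
    exact tendsto_const_nhds)
  have hx0 : x ∈ LinearMap.ker T.toLinearMap :=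
    T.isClosed_ker.mem_of_tendsto hx (Eventually.of_forall fun n => (y (φ n)).2)
  refine ⟨⟨x, hx0⟩, mem_closedBall_zero_iff.2 ?_, φ, hφ, tendsto_subtype_rng.2 hx⟩
  exact le_of_tendsto hx.norm (Eventually.of_forall fun n => hy' (φ n))

theorem low {A C : F →L[ℝ] F} (hC : IsCompactOperator C) {M : ℝ} (hM : 0 ≤ M)
    (hlow : ∀ z, ‖z‖ ≤ M * ‖A.prod C z‖) (W : Submodule ℝ F) (hW : IsClosed (W : Set F))
    (h0 : ∀ z ∈ W, A z = 0 → z = 0) : ∃ c : ℝ, 0 < c ∧ ∀ z ∈ W, c * ‖z‖ ≤ ‖A z‖ := by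
  by_contra hne
  push Not at hne
  have hex : ∀ n : ℕ, ∃ u ∈ W, ‖u‖ = 1 ∧ ‖A u‖ ≤ 1 / ((n : ℝ) + 1) := fun n => by
    obtain ⟨z, hz, hlt⟩ := hne (1 / ((n : ℝ) + 1)) (by positivity)
    have hz0 : 0 < ‖z‖ := by
      refine norm_pos_iff.2 fun e => ?_
      rw [e, map_zero, norm_zero, mul_zero] at hlt
      exact lt_irrefl _ hlt
    refine ⟨‖z‖⁻¹ • z, W.smul_mem _ hz, ?_, ?_⟩
    · rw [norm_smul, norm_inv, norm_norm, inv_mul_cancel₀ hz0.ne']
    · rw [map_smul, norm_smul, norm_inv, norm_norm, ← div_eq_inv_mul, div_le_iff₀ hz0]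
      exact hlt.le
  choose u huW hu1 huA using hex
  have hA : Tendsto (fun n => A (u n)) atTop (𝓝 0) :=
    squeeze_zero_norm huA tendsto_one_div_add_atTop_nhds_zero_nat
  obtain ⟨x, φ, hφ, hx⟩ := key hC hM hlow u (fun n => (hu1 n).le) hA
  have hxW : x ∈ W := hW.mem_of_tendsto hx (Eventually.of_forall fun n => huW (φ n))
  have hxA : A x = 0 :=
    tendsto_nhds_unique ((A.continuous.tendsto x).comp hx) (hA.comp hφ.tendsto_atTop)
  have hx1 : ‖x‖ = 1 := by
    refine tendsto_nhds_unique hx.norm ?_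
    have : (fun n => ‖(u ∘ φ) n‖) = fun _ => (1 : ℝ) := funext fun n => hu1 (φ n)
    rw [this]
    exact tendsto_const_nhds
  rw [h0 x hxW hxA, norm_zero] at hx1
  exact zero_ne_one hx1

omit [CompleteSpace F] in
theorem perp {N : Submodule ℝ F} {p : ℕ} (b : OrthonormalBasis (Fin p) ℝ N) {y : F}
    (h : ∀ i, ⟪(b i : F), y⟫_ℝ = 0) : y ∈ Nᗮ := by
  refine (Submodule.mem_orthogonal N y).2 fun u hu => ?_
  have h1 := congrArg (fun v : N => (v : F)) (b.sum_repr ⟨u, hu⟩)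
  simp only [Submodule.coe_sum, Submodule.coe_smul] at h1
  rw [← h1, sum_inner]
  exact Finset.sum_eq_zero fun i _ => by rw [real_inner_smul_left, h i, mul_zero]

end GAP

open GAP in
theorem stGAP : St_GAP := by
  intro F _ _ _ d B X κ hR hC hκ hb
  set A : F →L[ℝ] F := 1 - d * B with hAdef
  have hA : ∀ z, A z = z - d (B z) := fun z => rfl
  have py : ∀ z, ‖z‖ ^ 2 = ‖A z‖ ^ 2 + ‖B z‖ ^ 2 := hR.pyth
  set M : ℝ := √(1 + 2 / κ) with hMdef
  have hM : 0 ≤ M := Real.sqrt_nonneg _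
  have hlow : ∀ z, ‖z‖ ≤ M * ‖A.prod (X * B) z‖ := fun z => by
    refine (pow_le_pow_iff_left₀ (norm_nonneg _) (by positivity) two_ne_zero).1 ?_
    have h1 : ‖A z‖ ^ 2 ≤ ‖A.prod (X * B) z‖ ^ 2 :=
      pow_le_pow_left₀ (norm_nonneg _) (norm_fst_le (A.prod (X * B) z)) 2
    have h2 : ‖X (B z)‖ ^ 2 ≤ ‖A.prod (X * B) z‖ ^ 2 :=
      pow_le_pow_left₀ (norm_nonneg _) (norm_snd_le (A.prod (X * B) z)) 2
    have h3 : ‖B z‖ ^ 2 ≤ 2 / κ * ‖A.prod (X * B) z‖ ^ 2 := by
      rw [div_mul_eq_mul_div, le_div_iff₀ hκ]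
      have := hb z
      rw [← hA] at this
      linarith
    rw [mul_pow, hMdef, Real.sq_sqrt (by positivity), py z]
    linarith
  have hz : ∀ z, ‖B z‖ = ‖z‖ → A z = 0 := fun z e => by
    have := py z
    rw [e] at this
    exact norm_eq_zero.1 (pow_eq_zero_iff two_ne_zero |>.1 (by linarith))
  have e1 : ∀ z, z ∈ LinearMap.ker (B - 1).toLinearMap ↔ B z = z := fun z =>
    LinearMap.mem_ker.trans sub_eq_zero
  have e2 : ∀ z, z ∈ LinearMap.ker (B + 1).toLinearMap ↔ B z = -z := fun z =>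
    LinearMap.mem_ker.trans add_eq_zero_iff_eq_neg
  have := fin hC hM hlow (B - 1) fun z e => hz z (by rw [(e1 z).1 e])
  have := fin hC hM hlow (B + 1) fun z e => hz z (by rw [(e2 z).1 e, norm_neg])
  set b1 := stdOrthonormalBasis ℝ (LinearMap.ker (B - 1).toLinearMap)
  set b2 := stdOrthonormalBasis ℝ (LinearMap.ker (B + 1).toLinearMap)
  have cr : ∀ u v, B u = u → B v = -v → ⟪u, v⟫_ℝ = 0 := fun u v hu hv => by
    have := inner_sa hR.sa u v
    rw [hu, hv, inner_neg_right] at this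
    linarith
  obtain ⟨c, hc, hcl⟩ := low hC hM hlow
    ((LinearMap.ker (B - 1).toLinearMap)ᗮ ⊓ (LinearMap.ker (B + 1).toLinearMap)ᗮ)
    ((Submodule.isClosed_orthogonal _).inter (Submodule.isClosed_orthogonal _)) fun z hzW hz0 => by
      have h1 : ‖B z‖ ^ 2 = ‖z‖ ^ 2 := by rw [py z, hz0, norm_zero]; ring
      have h2 : B (B z) = z := by
        have h3 := norm_sub_sq_real z (B (B z))
        rw [← inner_sa hR.sa z (B z), real_inner_self_eq_norm_sq] at h3
        have h4 := pow_le_pow_left₀ (norm_nonneg _) (hR.apply_le (B z)) 2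
        have h5 : ‖z - B (B z)‖ ^ 2 = 0 := le_antisymm (by linarith) (sq_nonneg _)
        exact (sub_eq_zero.1 (norm_eq_zero.1 (pow_eq_zero_iff two_ne_zero |>.1 h5))).symm
      have h6 := (Submodule.mem_orthogonal _ z).1 hzW.1 (z + B z)
        ((e1 _).2 (by rw [map_add, h2, add_comm]))
      have h7 := (Submodule.mem_orthogonal _ z).1 hzW.2 (z - B z)
        ((e2 _).2 (by rw [map_sub, h2, neg_sub]))
      rw [inner_add_left] at h6
      rw [inner_sub_left] at h7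
      exact inner_self_eq_zero (𝕜 := ℝ) |>.1 (by linarith)
  refine ⟨_, _, Sum.elim (fun i => (b1 i : F)) (fun i => (b2 i : F)), √(1 - c ^ 2), ?_,
    fun i => (e1 _).1 (b1 i).2, fun i => (e2 _).1 (b2 i).2, Real.sqrt_nonneg _,
    (Real.sqrt_lt' one_pos).2 (by nlinarith), fun y hy => ?_, rfl⟩
  · refine ⟨?_, ?_⟩
    · rintro (i | i)
      · exact b1.orthonormal.1 i
      · exact b2.orthonormal.1 i
    · rintro (i | i) (j | j) hij
      · exact b1.orthonormal.2 fun e => hij (by rw [e])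
      · exact cr _ _ ((e1 _).1 (b1 i).2) ((e2 _).1 (b2 j).2)
      · exact (real_inner_comm _ _).trans (cr _ _ ((e1 _).1 (b1 j).2) ((e2 _).1 (b2 i).2))
      · exact b2.orthonormal.2 fun e => hij (by rw [e])
  · have h1 := hcl y ⟨perp b1 fun i => hy (.inl i), perp b2 fun i => hy (.inr i)⟩
    have h2 := pow_le_pow_left₀ (by positivity) h1 2
    rw [← Real.sqrt_sq (norm_nonneg y), ← Real.sqrt_mul' _ (sq_nonneg _)]
    refine Real.le_sqrt_of_sq_le ?_
    rw [mul_pow] at h2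
    linarith [py y]

end Pool.Agent.Lib.WD
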