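import Pool.Agent.Lib.WD.Blue

/-! The package of a manifold. -/

noncomputable section

open Set Function MeasureTheory CliffordAlgebra BCO ContinuousLinearMap
open scoped Manifold ContDiff InnerProductSpace

namespace Pool.Agent.Lib.WD

open CX AN

namespace GEO

variable {G : Type} [Group G] {m N : ℕ} {x : Sing G m} {S : Spinor (m + 1) N}
  {μ : Measure x.X.M} {w : Eu N →L[ℝ] Eu N} {r : ℕ} {φ : ℕ → x.X.M → ℝ}

theorem apack (hμ : x.X.IsVol μ) (hw : Gr S w) (hφ : Phi x r φ) {R Nn}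
    (hR : AN.Res x.X S w μ R Nn) : AN.Pack x S w μ r φ R Nn :=
  ⟨stMUL _ _ μ, stALGB _ _ _ S, smb_holds _ _, stCOC G m x, hφ, psi_holds G m x r φ hφ, hR,
    rapi_holds _ _ _ S μ hμ inferInstance w hw R Nn hR,
    stTEST stMUL stALGB stPART4 smb_holds core_holds mem_holds stCOC psi_holds G m N x S μ hμ w hw
      r φ hφ R Nn hR,
    rel_holds _ _ _ S μ hμ inferInstance w hw R Nn hR, (stKAP stLOC stGAU cyl_holds G m N x S).2⟩

variable {P : RQ.Pack G (Lp (Eu N) 2 μ) (m + 1) (Fin (r + 1))}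

theorem C_eq (h : Geo x S w μ r φ P) (a : Fin (r + 1)) :
    P.C a = cg x.X S μ fun j => dv x.X j (φ a) :=
  Finset.sum_congr rfl fun j _ => by rw [h.gam, h.dph]

theorem E2_eq (h : Geo x S w μ r φ P) (a b : Fin (r + 1)) (g : G) :
    P.E2 a b g = mul (Eu N) μ (EE x a b g) := by
  classical
  have L := stMUL _ (Eu N) μ
  obtain ⟨r', F, -, -, hF⟩ := (stCOC G m x).fin
  have e0 := fun k : G => L.mul_mul (RQ.BRG.bm_ef x a k) (RQ.BRG.bm_ef x b (k * g))
  rw [← RQ.BRG.ef_two x hF, (L.mul_sum _ _ fun k _ => (e0 k).1).2, RQ.Pack.E2,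
    Finset.sum_subset (Finset.subset_union_left (s₂ := F.image (·⁻¹)))
      (fun k _ hk => by rw [P.E_off a k hk, zero_mul]),
    Finset.sum_subset (Finset.subset_union_right (s₁ := P.F) (s₂ := F.image (·⁻¹)))
      (fun k _ hk => by rw [(e0 k).2, RQ.BRG.ef_off x hF a hk, RQ.BRG.mul_zero' L, zero_mul])]
  exact Finset.sum_congr rfl fun k _ => by rw [(e0 k).2, h.E, h.E]

open TEST in
theorem loc (hμ : x.X.IsVol μ) (hw : Gr S w) (hφ : Phi x r φ) {R Nn}
    (hR : AN.Res x.X S w μ R Nn) {i : ℕ} {s : x.X.M → Eu N} (h1 : IsT x.X S s)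
    (hsub : tsupport s ⊆ OO x i) (b : ℕ) (g : G) :
    R (mul (Eu N) μ (EE x b i g) (mul (Eu N) μ (φ b) (cl μ (dw x.X S w s)) +
      cg x.X S μ (fun j => dv x.X j (φ b)) (cl μ s))) =
    mul (Eu N) μ (EE x b i g) (mul (Eu N) μ (φ b) (cl μ s)) := by
  have L := stMUL _ (Eu N) μ
  have C := core_holds _ _ x.X S
  have B := smb_holds _ x.X
  have O := stCOC G m x
  have P := psi_holds G m x r φ hφ
  have M : ∀ {s}, IsT x.X S s → MemLp s 2 μ := fun hs => (mem_holds _ _ x.X S μ hμ _ hs).1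
  have key : mul (Eu N) μ (φ b) (cl μ (dw x.X S w s)) +
      cg x.X S μ (fun j => dv x.X j (φ b)) (cl μ s) =
        cl μ (dw x.X S w fun z => φ b z • s z) := by
    have h3 := L.mul_cl (B.bm (hφ.sm b)).1 (M (isT_dw C hw h1))
    have h2 := cg_cl (S := S) L (B.bm (hφ.sm b)).2 (M h1)
    rw [h3.2, h2.2, ← L.cl_add h3.1 h2.1]
    congr 1
    funext y
    exact (dw_mul C h1 (fun y _ => (hφ.sm b).sm y) y).symm
  have hψ : ∀ y ∈ tsupport s,
      ContMDiffAt (𝓡 (m + 1)) 𝓘(ℝ, ℝ) ∞ (fun q => EE x b i g q * φ b q) y :=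
    fun y hy => (P.loc i b g y (hsub hy)).1
  have h3 := C.mul h1 hψ
  have h4 := C.mul h1 fun y _ => (hφ.sm b).sm y
  rw [key, (L.mul_cl (O.bm b i g) (M (isT_dw C hw h4))).2,
    (L.mul_cl (B.bm (hφ.sm b)).1 (M h1)).2, (L.mul_cl (O.bm b i g) (M h4)).2]
  have e1 : (fun y => EE x b i g y • dw x.X S w (fun z => φ b z • s z) y) =
      dw x.X S w fun z => (EE x b i g z * φ b z) • s z := by
    funext y
    rw [dw_mul C h1 hψ, dw_mul C h1 fun y _ => (hφ.sm b).sm y]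
    by_cases hy : y ∈ OO x i
    · simp only [(P.loc i b g y hy).2, mul_smul, map_smul, smul_add, Finset.smul_sum]
    · have h5 : EE x b i g y = 0 := if_neg fun h => hy h.2.1
      have h6 : s y = 0 := image_eq_zero_of_notMem_tsupport fun h => hy (hsub h)
      simp [h5, h6]
  rw [e1, hR.R_cl _ h3]
  simp only [mul_smul]

end GEO

open GEO in
theorem stGEO : St_GEO := by
  intro G _ m N x S μ hμ w hw r φ hφ
  have hk := (stKAP stLOC stGAU cyl_holds G m N x S).1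
  refine ⟨?_, fun P hP hR => ⟨fun a s hs hsub b g => ?_, fun a z => ?_⟩⟩
  · obtain ⟨R, Nn, hR⟩ := res_holds _ _ x.X S μ hμ (cyl_holds G m x).cpl hk w hw
    have A := apack hμ hw hφ hR
    obtain ⟨r', F, -, -, hF⟩ := A.coc.fin
    obtain ⟨C, hC⟩ := hk
    have e : ∀ a : Fin (r + 1), RQ.BRG.tc r φ a = φ a := fun a => if_pos a.2
    refine ⟨RQ.BRG.pack A hw hF (K := r + 1) le_rfl (χ := fun _ => 1 + |C|) (κ := 1)
      (A.l2.mul_const _).1 one_pos fun p => ?_, ⟨rfl, fun _ => rfl, fun a => ?_, fun a j => ?_,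
        fun _ _ => rfl⟩, hR⟩
    · nlinarith [hC p, le_abs_self C, abs_nonneg C]
    · rw [← e]; rfl
    · rw [← e]; rfl
  · rw [E2_eq hP, C_eq hP, hP.ph]
    exact loc hμ hw hφ hR hs hsub b g
  · have h := (apack hμ hw hφ hR).test.core a z
    rw [can, C_eq hP, hP.ph]
    refine Submodule.topologicalClosure_mono (Submodule.span_mono ?_) h
    rintro _ ⟨b, u, hu, rfl⟩
    obtain ⟨h1, h2, -, -⟩ := (core_holds _ _ x.X S).glob hu
    exact ⟨_, h1, fun y hy => (hu.sub (h2 hy)).2, rfl⟩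

end Pool.Agent.Lib.WD
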