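import Pool.Agent.Lib.WD.Blue

/-! IXC: corners, orthogonal sums, isomorphisms, stability of the index. -/

set_option linter.unusedSectionVars false

noncomputable section

open Matrix BCO

namespace Pool.Agent.Lib.WD

open CX MFI

namespace IXC22

section Ring

variable {L A : Type} [Ring L] [Ring A] {C : Ctx L A}

theorem sc_idem {e : L} (h : e * e = e) : sc e * sc e = sc e := by rw [sc_mul, h]

theorem idx_sum {e f e' f' : L} (he : e * e = e) (hf : f * f = f) (he' : e' * e' = e')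
    (hf' : f' * f' = f') (a1 : e * e' = 0) (a2 : e' * e = 0) (a3 : f * f' = 0) (a4 : f' * f = 0)
    (a5 : f * e' = 0) (a6 : f' * e = 0) {z z' : BCH.K0 A}
    (h : IsIdx C (sc e) (sc f) (sc (f * e)) z) (h' : IsIdx C (sc e') (sc f') (sc (f' * e')) z') :
    IsIdx C (sc (e + e')) (sc (f + f')) (sc ((f + f') * (e + e'))) (z + z') := by
  have i1 : sc (e + e') * sc (e + e') = sc (e + e') :=
    sc_idem (by rw [add_mul, mul_add, mul_add, he, he', a1, a2, add_zero, zero_add])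
  have i2 : sc (f + f') * sc (f + f') = sc (f + f') :=
    sc_idem (by rw [add_mul, mul_add, mul_add, hf, hf', a3, a4, add_zero, zero_add])
  have j1 := BCH.idem_fromBlocks (sc_idem he) (sc_idem he')
  have j2 := BCH.idem_fromBlocks (sc_idem hf) (sc_idem hf')
  have k1 : IsIdx C (sc (e + e')) (fromBlocks (sc e) 0 0 (sc e')) (fromRows (sc e) (sc e')) 0 :=
    IsIdx.of_iso (fromCols (sc e) (sc e'))
      (by rw [fromCols_mul_fromRows, sc_mul, sc_mul, he, he']; rfl)
      (by rw [fromRows_mul_fromCols, sc_mul, sc_mul, sc_mul, sc_mul, he, he', a1, a2]; rfl)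
  have k2 : IsIdx C (fromBlocks (sc f) 0 0 (sc f')) (sc (f + f')) (fromCols (sc f) (sc f')) 0 :=
    IsIdx.of_iso (fromRows (sc f) (sc f'))
      (by rw [fromRows_mul_fromCols, sc_mul, sc_mul, sc_mul, sc_mul, hf, hf', a3, a4]; rfl)
      (by rw [fromCols_mul_fromRows, sc_mul, sc_mul, hf, hf']; rfl)
  have k := (k1.comp (h.sum h') i1 j1 j2).comp k2 i1 j2 i2
  rw [zero_add, add_zero] at k
  refine k.congr (entJ_of_eq entJ_zero (sub_eq_zero.2 ?_))
  rw [fromCols_mul_fromBlocks, fromBlocks_multiply, fromBlocks_mul_fromRows, fromCols_mul_fromRows]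
  simp only [Matrix.mul_zero, Matrix.zero_mul, add_zero, zero_add, sc_mul]
  rw [add_mul, mul_add, mul_add, a5, a6, add_zero, zero_add, hf, hf', mul_assoc f e, he,
    mul_assoc f' e', he', mul_assoc f e, he, mul_assoc f' e', he', ← mul_assoc, hf, ← mul_assoc, hf']
  rfl

theorem idx_stab {e e' f T S u v : L} (he : e * e = e) (he' : e' * e' = e') (hf : f * f = f)
    (a1 : S * T = e') (a2 : T * S = e) (a3 : u * v = f) (a4 : v * u = f)
    (a5 : u * (f * e) * T - f * e' ∈ C.J) {z : BCH.K0 A}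
    (h : IsIdx C (sc e) (sc f) (sc (f * e)) z) : IsIdx C (sc e') (sc f) (sc (f * e')) z := by
  have k1 : IsIdx C (sc e') (sc e) (sc T) 0 :=
    IsIdx.of_iso (sc S) (by rw [sc_mul, a1]) (by rw [sc_mul, a2])
  have k2 : IsIdx C (sc f) (sc f) (sc u) 0 :=
    IsIdx.of_iso (sc v) (by rw [sc_mul, a4]) (by rw [sc_mul, a3])
  have k := (k1.comp h (sc_idem he') (sc_idem he) (sc_idem hf)).comp k2 (sc_idem he') (sc_idem hf)
    (sc_idem hf)
  rw [zero_add, add_zero] at k
  refine k.congr ?_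
  rw [sc_mul, sc_mul, sc_mul, sc_mul, sc_sub, mul_assoc f e, he, mul_assoc u, ← mul_assoc f,
    ← mul_assoc f, hf, ← mul_assoc u]
  exact ent_sc.2 a5

end Ring

theorem near {L : Type} [NormedRing L] [CompleteSpace L] {e f : L} (he : e * e = e)
    (hf : f * f = f) (h : ‖e - f‖ < 1) : ∃ S, S * (f * e) = e ∧ f * e * S = f := by
  have n : ‖(e - f) * (e - f)‖ < 1 := (norm_mul_le _ _).trans_lt
    (mul_lt_one_of_nonneg_of_lt_one_left (norm_nonneg _) h h.le)
  let u := Units.oneSub _ n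
  have hu : (u : L) = 1 - (e - f) * (e - f) := rfl
  have x : (e - f) * (e - f) = e + f - e * f - f * e := by
    rw [sub_mul, mul_sub, mul_sub, he, hf]; abel
  have e1 : (u : L) * e = e * f * e := by
    rw [hu, x]; simp only [sub_mul, add_mul, one_mul, he, mul_assoc]; abel
  have e2 : e * (u : L) = e * f * e := by
    rw [hu, x]; simp only [mul_sub, mul_add, mul_one, he, ← mul_assoc]; abel
  have f1 : (u : L) * f = f * e * f := by
    rw [hu, x]; simp only [sub_mul, add_mul, one_mul, hf, mul_assoc]; abel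
  have f2 : f * (u : L) = f * e * f := by
    rw [hu, x]; simp only [mul_sub, mul_add, mul_one, hf, ← mul_assoc]; abel
  have c1 : Commute e ↑u⁻¹ := Commute.units_inv_right (e2.trans e1.symm)
  have c2 : Commute f ↑u⁻¹ := Commute.units_inv_right (f2.trans f1.symm)
  refine ⟨↑u⁻¹ * (e * f), ?_, ?_⟩
  · rw [mul_assoc, mul_assoc, ← mul_assoc f, hf, ← mul_assoc e, ← e1, Units.inv_mul_cancel_left]
  · rw [← mul_assoc, (c2.mul_left c1).eq, mul_assoc, mul_assoc, ← mul_assoc e, he, ← mul_assoc f,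
      ← f1, Units.inv_mul_cancel_left]

section Op

variable {G : Type} [Group G] {E F : Type} [NormedAddCommGroup E] [InnerProductSpace ℝ E]
  [CompleteSpace E] [NormedAddCommGroup F] [InnerProductSpace ℝ F] [CompleteSpace F]

variable (G E) in
/-- the standard corner -/
def Φ : RA G E →ₙ+* RA G (HS E) := corner G (hI E) (hP E) hP_hI

theorem key (e f : RA G E) (he : e * e = e) (hf : f * f = f) (z : BCH.K0 (Cr G)) :
    IsInd e.1 f.1 z ↔ IsIdx (cx G (hJ E) (hQ E) hQ_hJ) (sc (Φ G E e)) (sc (Φ G E f))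
      (sc (Φ G E f * Φ G E e)) z := by
  rw [← map_mul]; exact isInd_iff hP_hI hQ_hJ e f he hf z

theorem mu {a b c : RA G E} (h : a * b = c) : Φ G E a * Φ G E b = Φ G E c := by rw [← map_mul, h]

theorem m0 {a b : RA G E} (h : a * b = 0) : Φ G E a * Φ G E b = 0 := by rw [mu h, map_zero]

theorem ind_corner (i : E →L[ℝ] F) (p : F →L[ℝ] E) (hp : p ∘L i = .id ℝ E) (e f : RA G E)
    (a : e * e = e) (b : f * f = f) {z : BCH.K0 (Cr G)} (h : IsInd e.1 f.1 z) :
    IsInd (corner G i p hp e).1 (corner G i p hp f).1 z := by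
  have k := (isInd_iff (i := hI F ∘L i) (p := p ∘L hP F) hp (hQ_hJ (E := F)) _ _ a b z).1 h
  refine (isInd_iff hP_hI (hQ_hJ (E := F)) (corner G i p hp e) (corner G i p hp f)
    (by rw [← map_mul, a]) (by rw [← map_mul, b]) z).2 ?_
  rw [← map_mul]
  exact k

theorem ind_sum {e f e' f' : RA G E} (he : e * e = e) (hf : f * f = f) (he' : e' * e' = e')
    (hf' : f' * f' = f') (a1 : e * e' = 0) (a2 : e' * e = 0) (a3 : f * f' = 0) (a4 : f' * f = 0)
    (a5 : f * e' = 0) (a6 : f' * e = 0) {z z' : BCH.K0 (Cr G)} (h : IsInd e.1 f.1 z)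
    (h' : IsInd e'.1 f'.1 z') : IsInd (e + e').1 (f + f').1 (z + z') := by
  have i1 : (e + e') * (e + e') = e + e' := by
    rw [add_mul, mul_add, mul_add, he, he', a1, a2, add_zero, zero_add]
  have i2 : (f + f') * (f + f') = f + f' := by
    rw [add_mul, mul_add, mul_add, hf, hf', a3, a4, add_zero, zero_add]
  refine (key _ _ i1 i2 _).2 ?_
  have ad : ∀ a b : RA G E, Φ G E (a + b) = Φ G E a + Φ G E b := (Φ G E).map_add'
  rw [ad, ad]
  exact idx_sum (mu he) (mu hf) (mu he') (mu hf') (m0 a1) (m0 a2) (m0 a3) (m0 a4) (m0 a5) (m0 a6)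
    ((key _ _ he hf _).1 h) ((key _ _ he' hf' _).1 h')

theorem ind_near {e f : RA G E} (he : e * e = e) (hf : f * f = f) (h : ‖e - f‖ < 1) :
    IsInd e.1 f.1 0 := by
  obtain ⟨S, a, b⟩ := near (L := RA G E) (e := e) (f := f) he hf h
  refine (key _ _ he hf _).2 (IsIdx.of_iso (sc (Φ G E S)) ?_ ?_)
  · rw [sc_mul, ← map_mul, ← map_mul, a]
  · rw [sc_mul, ← map_mul, ← map_mul, b]

theorem ind_stab {e e' f T S u v : RA G E} (he : e * e = e) (he' : e' * e' = e') (hf : f * f = f)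
    (a1 : S * T = e') (a2 : T * S = e) (a3 : u * v = f) (a4 : v * u = f)
    (a5 : u * (f * e) * T - f * e' ∈ KI G E) {z : BCH.K0 (Cr G)} (h : IsInd e.1 f.1 z) :
    IsInd e'.1 f.1 z := by
  refine (key _ _ he' hf _).2 (idx_stab (mu he) (mu he') (mu hf) (mu a1) (mu a2) (mu a3) (mu a4) ?_
    ((key _ _ he hf _).1 h))
  rw [← map_mul, ← map_mul, ← map_mul, ← map_mul, ← map_sub]
  exact sand_mem_KI _ _ a5

end Op

end IXC22

open IXC22

theorem stIXC : St_IXC := by
  intro G _ E F _ _ _ _ _ _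
  refine ⟨fun i p hp e he f hf ee ff z h => ?_,
    fun e he f hf e' he' f' hf' ee ff ee' ff' a1 a2 a3 a4 a5 a6 z z' h h' => ?_,
    fun e he f hf ee ff h => ?_, fun e e' f T S u v z hT hS hu hv ee ee' ff a1 a2 a3 a4 a5 h => ?_⟩
  · exact ind_corner i p hp ⟨e, he⟩ ⟨f, hf⟩ (Subtype.ext ee) (Subtype.ext ff) h
  · exact ind_sum (e := ⟨e, he⟩) (f := ⟨f, hf⟩) (e' := ⟨e', he'⟩) (f' := ⟨f', hf'⟩) (Subtype.ext ee)
      (Subtype.ext ff) (Subtype.ext ee') (Subtype.ext ff') (Subtype.ext a1) (Subtype.ext a2)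
      (Subtype.ext a3) (Subtype.ext a4) (Subtype.ext a5) (Subtype.ext a6) h h'
  · exact ind_near (e := ⟨e, he⟩) (f := ⟨f, hf⟩) (Subtype.ext ee) (Subtype.ext ff) h
  · have he : e ∈ RA G E := a2 ▸ mul_mem hT hS
    have he' : e' ∈ RA G E := a1 ▸ mul_mem hS hT
    have hf : f ∈ RA G E := a3 ▸ mul_mem hu hv
    exact ind_stab (e := ⟨e, he⟩) (e' := ⟨e', he'⟩) (f := ⟨f, hf⟩) (T := ⟨T, hT⟩) (S := ⟨S, hS⟩)
      (u := ⟨u, hu⟩) (v := ⟨v, hv⟩) (Subtype.ext ee) (Subtype.ext ee') (Subtype.ext ff)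
      (Subtype.ext a1) (Subtype.ext a2) (Subtype.ext a3) (Subtype.ext a4) (mem_KI.2 a5) h

end Pool.Agent.Lib.WD
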