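import Pool.Agent.Lib.WD.Blue

/-! The index for the opposite grading. -/

noncomputable section

open Set Function MeasureTheory CliffordAlgebra BCO ContinuousLinearMap
open scoped InnerProductSpace

namespace Pool.Agent.Lib.WD

open CX AN

namespace IXN

open MFI BCH BCK

/-- a limit of invertible elements that is right invertible modulo `J` is congruent to a unit -/
theorem exists_unit {B : Type} [NormedRing B] [NormedAlgebra ℝ B] [CompleteSpace B]
    (J : TwoSidedIdeal B) (a Y : B) (ha : ‖a‖ ≤ 1) (h : (1 - a) * Y - 1 ∈ J) :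
    ∃ u v : B, u * v = 1 ∧ v * u = 1 ∧ u - (1 - a) ∈ J := by
  set δ : ℝ := (‖Y * a‖ + 2)⁻¹ with hδ
  have h0 : 0 < δ := by positivity
  have h1 : δ < 1 := inv_lt_one_of_one_lt₀ (by linarith [norm_nonneg (Y * a)])
  have n1 : ‖(1 - δ) • a‖ < 1 := by
    rw [norm_smul, Real.norm_of_nonneg (by linarith)]
    nlinarith [norm_nonneg a]
  have n2 : ‖-(δ • (Y * a))‖ < 1 := by
    rw [norm_neg, norm_smul, Real.norm_of_nonneg h0.le, hδ, ← div_eq_inv_mul,
      div_lt_one (by positivity)]
    linarith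
  set U := Units.oneSub _ n1
  set Z := Units.oneSub _ n2
  refine ⟨↑(U * Z⁻¹), ↑(U * Z⁻¹)⁻¹, Units.mul_inv _, Units.inv_mul _, ?_⟩
  have e1 : (↑(U * Z⁻¹) : B) - (1 - a) = (↑U - (1 - a) * ↑Z) * ↑Z⁻¹ := by
    rw [sub_mul, mul_assoc, Units.mul_inv, mul_one, Units.val_mul]
  have e2 : (↑U : B) - (1 - a) * ↑Z = (-δ) • (1 : B) * (((1 - a) * Y - 1) * a) := by
    change 1 - (1 - δ) • a - (1 - a) * (1 - -(δ • (Y * a))) = _
    rw [smul_mul_assoc, one_mul]
    simp only [sub_neg_eq_add, mul_add, sub_mul, mul_smul_comm, one_mul, mul_one, mul_assoc]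
    module
  rw [e1, e2]
  exact J.mul_mem_right _ _ (J.mul_mem_left _ _ (J.mul_mem_right _ _ h))

/-- a parametrix for the complementary idempotents -/
theorem par_compl {B : Type} [Ring B] (J : TwoSidedIdeal B) {e f S T : B} (he : e * e = e)
    (hf : f * f = f) (h2 : f * e * S - f ∈ J) (k1 : e * f * T - e ∈ J) (k2 : T * (e * f) - f ∈ J) :
    (1 - f * T * e) * ((1 - f) * (1 - e)) - (1 - e) ∈ J ∧
      (1 - f) * (1 - e) * (1 - f * T * e) - (1 - f) ∈ J ∧
      (1 - (1 - (f * e + (1 - f) * (1 - e)))) * (e * S + (1 - e) * (1 - f * T * e)) - 1 ∈ J := by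
  have a1 : ∀ {p : B}, p * p = p → p * (1 - p) = 0 := fun hp => by rw [mul_sub, mul_one, hp, sub_self]
  have a2 : ∀ {p : B}, p * p = p → (1 - p) * p = 0 := fun hp => by rw [sub_mul, one_mul, hp, sub_self]
  have a3 : ∀ {p : B}, p * p = p → (1 - p) * (1 - p) = 1 - p := fun hp => by
    rw [mul_sub, mul_one, a2 hp, sub_zero]
  have k4 : (1 - f) * (1 - e) * (1 - f * T * e) - (1 - f) ∈ J := by
    have : (1 - f) * (1 - e) * (1 - f * T * e) - (1 - f) = (1 - f) * (e * f * T - e) * e := by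
      calc _ = (1 - f) * (e * f * T - e) * e + (1 - f) * (e * e - e) - (1 - f) * f * T * e := by
            noncomm_ring
        _ = _ := by rw [he, a2 hf, sub_self, zero_mul, zero_mul, mul_zero, add_zero, sub_zero]
    rw [this]
    exact J.mul_mem_right _ _ (J.mul_mem_left _ _ k1)
  refine ⟨?_, k4, ?_⟩
  · have : (1 - f * T * e) * ((1 - f) * (1 - e)) - (1 - e) = f * (T * (e * f) - f) * (1 - e) := by
      calc _ = f * (T * (e * f) - f) * (1 - e) + (f * f - f) * (1 - e) - f * T * (e * (1 - e)) := by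
            noncomm_ring
        _ = _ := by rw [hf, a1 he, sub_self, zero_mul, mul_zero, add_zero, sub_zero]
    rw [this]
    exact J.mul_mem_right _ _ (J.mul_mem_left _ _ k2)
  · have : (1 - (1 - (f * e + (1 - f) * (1 - e)))) * (e * S + (1 - e) * (1 - f * T * e)) - 1 =
        (f * e * S - f) + ((1 - f) * (1 - e) * (1 - f * T * e) - (1 - f)) := by
      calc _ = f * (e * e) * S + f * (e * (1 - e)) * (1 - f * T * e) + (1 - f) * ((1 - e) * e) * S +
            (1 - f) * ((1 - e) * (1 - e)) * (1 - f * T * e) - 1 := by noncomm_ring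
        _ = _ := by rw [he, a1 he, a2 he, a3 he]; noncomm_ring
    rw [this]
    exact J.add_mem h2 k4

/-- complementary indices add up to zero -/
theorem add_eq_zero {L A B : Type} [NormedRing L] [NormedAlgebra ℝ L] [CompleteSpace L] [Ring A]
    [Ring B] {C : Ctx L A} (hC : Approx C) (ψ : B →ₙ+* Matrix Unit Unit L) (J : TwoSidedIdeal B)
    (hJ : ∀ a ∈ J, Ent (C.J : Set L) (ψ a)) {e f u v : B} (he : e * e = e) (hf : f * f = f)
    (h1 : u * v = 1) (h2 : v * u = 1) (h3 : u - (f * e + (1 - f) * (1 - e)) ∈ J) {κ κ' : K0 A}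
    (h : IsIdx C (ψ e) (ψ f) (ψ (f * e)) κ)
    (h' : IsIdx C (ψ (1 - e)) (ψ (1 - f)) (ψ ((1 - f) * (1 - e))) κ') : κ + κ' = 0 := by
  have bm : ∀ a b c d a' b' c' d' : B, Matrix.fromBlocks (ψ a) (ψ b) (ψ c) (ψ d) *
      Matrix.fromBlocks (ψ a') (ψ b') (ψ c') (ψ d') =
      Matrix.fromBlocks (ψ (a * a' + b * c')) (ψ (a * b' + b * d')) (ψ (c * a' + d * c'))
        (ψ (c * b' + d * d')) := fun _ _ _ _ _ _ _ _ => by
    rw [Matrix.fromBlocks_multiply]; simp only [map_add, map_mul]
  have key : ∀ {p x y : B}, p * p = p → x * y = 1 → ∀ a b : B,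
      a * x * p * (p * y * b) + a * x * (1 - p) * ((1 - p) * y * b) = a * b :=
    fun {p x y} hp hxy a b => by
      calc _ = a * (x * y) * b + 2 • (a * x * (p * p) * y * b) - 2 • (a * x * p * y * b) := by
            noncomm_ring
        _ = _ := by rw [hp, hxy, mul_one, add_sub_cancel_right]
  have a1 : ∀ {p : B}, p * p = p → p * (1 - p) = 0 := fun hp => by rw [mul_sub, mul_one, hp, sub_self]
  have a2 : ∀ {p : B}, p * p = p → (1 - p) * p = 0 := fun hp => by rw [sub_mul, one_mul, hp, sub_self]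
  have a3 : ∀ {p : B}, p * p = p → (1 - p) * (1 - p) = 1 - p := fun hp => by
    rw [mul_sub, mul_one, a2 hp, sub_zero]
  have i1 : ∀ {p : B}, p * p = p → Matrix.fromBlocks (ψ p) 0 0 (ψ (1 - p)) *
      Matrix.fromBlocks (ψ p) 0 0 (ψ (1 - p)) = Matrix.fromBlocks (ψ p) 0 0 (ψ (1 - p)) :=
    fun hp => idem_fromBlocks (by rw [← map_mul, hp]) (by rw [← map_mul, a3 hp])
  have h0 : IsIdx C (Matrix.fromBlocks (ψ e) 0 0 (ψ (1 - e)))
      (Matrix.fromBlocks (ψ f) 0 0 (ψ (1 - f)))
      (Matrix.fromBlocks (ψ (f * u * e)) (ψ (f * u * (1 - e))) (ψ ((1 - f) * u * e))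
        (ψ ((1 - f) * u * (1 - e)))) 0 := by
    refine IsIdx.of_iso (Matrix.fromBlocks (ψ (e * v * f)) (ψ (e * v * (1 - f)))
      (ψ ((1 - e) * v * f)) (ψ ((1 - e) * v * (1 - f)))) ?_ ?_
    · rw [bm, key hf h2, key hf h2, key hf h2, key hf h2, he, a1 he, a2 he, a3 he, map_zero]
    · rw [bm, key he h1, key he h1, key he h1, key he h1, hf, a1 hf, a2 hf, a3 hf, map_zero]
  refine hC.uniq (i1 he) (i1 hf) (h.sum h') (h0.congr ?_)
  have m : ∀ a b : B, Ent (C.J : Set L) (ψ (a * (u - (f * e + (1 - f) * (1 - e))) * b)) :=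
    fun a b => hJ _ (J.mul_mem_right _ _ (J.mul_mem_left _ _ h3))
  have k : ∀ a b : B, a * (u - (f * e + (1 - f) * (1 - e))) * b =
      a * u * b - (a * f * (e * b) + a * (1 - f) * ((1 - e) * b)) := fun a b => by noncomm_ring
  rintro (i | i) (j | j)
  · have := m f e i j
    rwa [k, hf, he, a1 hf, zero_mul, add_zero, map_sub] at this
  · have := m f (1 - e) i j
    rw [k, a1 he, a1 hf, zero_mul, mul_zero, add_zero, sub_zero] at this
    simpa using this
  · have := m (1 - f) e i j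
    rw [k, a2 he, a2 hf, zero_mul, mul_zero, add_zero, sub_zero] at this
    simpa using this
  · have := m (1 - f) (1 - e) i j
    rwa [k, a2 hf, zero_mul, zero_add, a3 hf, a3 he, map_sub] at this

variable {G : Type} [Group G] {E : Type} [NormedAddCommGroup E] [InnerProductSpace ℝ E]
  [CompleteSpace E]

theorem star_mem_KK {K : V G E →L[ℝ] V G E} (hK : K ∈ KK G E) : star K ∈ KK G E := by
  refine TP.cs_adjoint isClosed_KK ?_ hK
  rintro _ ⟨g, T, hT, rfl⟩
  rw [TP.adjoint_tw]
  exact tw_mem_KK _ (TP.compact_adjoint hT)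

variable (G E) in
/-- the corner embedding into `1 × 1` matrices -/
def ps : RA G E →ₙ+* Matrix Unit Unit (RA G (HS E)) where
  toFun a := sc (corner G (hI E) (hP E) hP_hI a)
  map_mul' a b := by rw [sc_mul, map_mul]
  map_zero' := by rw [map_zero]; rfl
  map_add' a b := by rw [map_add]; rfl

/-- an operator with an index has a parametrix -/
theorem parametrix {e P : RA G E} (he : e * e = e) (hP' : P * P = P) {z : K0 (Cr G)}
    (h : IsInd e.1 P.1 z) : ∃ S : RA G E, S * (P * e) - e ∈ KI G E ∧ P * e * S - P ∈ KI G E := by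
  obtain ⟨S, h1, h2⟩ := ((isInd_iff hP_hI hQ_hJ e P he hP' z).1 h).fred
    (by rw [sc_mul, ← map_mul, he]) (by rw [sc_mul, ← map_mul, hP'])
    (by rw [sc_mul, ← map_mul, mul_assoc, he]) (by rw [sc_mul, ← map_mul, ← mul_assoc, hP'])
  have c : ∀ ξ : V G E, amp G (hP E) (amp G (hI E) ξ) = ξ := fun ξ => lp.ext (funext fun _ => rfl)
  refine ⟨sand G (hP E) (hI E) (S () ()), ?_, ?_⟩
  · have := sand_mem_KI (hP E) (hI E) (h1 () ())
    convert this using 1
    rw [Matrix.sub_apply, Matrix.mul_apply, Fintype.sum_unique]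
    refine Subtype.ext (ContinuousLinearMap.ext fun ξ => ?_)
    change amp G (hP E) ((S () ()).1 (amp G (hI E) ((P * e).1 ξ))) - e.1 ξ =
      amp G (hP E) ((S () ()).1 (amp G (hI E) ((P * e).1 (amp G (hP E) (amp G (hI E) ξ)))) -
        amp G (hI E) (e.1 (amp G (hP E) (amp G (hI E) ξ))))
    rw [map_sub, c, c]
  · have := sand_mem_KI (hP E) (hI E) (h2 () ())
    convert this using 1
    rw [Matrix.sub_apply, Matrix.mul_apply, Fintype.sum_unique]
    refine Subtype.ext (ContinuousLinearMap.ext fun ξ => ?_)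
    change (P * e).1 (amp G (hP E) ((S () ()).1 (amp G (hI E) ξ))) - P.1 ξ =
      amp G (hP E) (amp G (hI E) ((P * e).1 (amp G (hP E) ((S () ()).1 (amp G (hI E) ξ)))) -
        amp G (hI E) (P.1 (amp G (hP E) (amp G (hI E) ξ))))
    rw [map_sub, c, c, c]

/-- the complementary projections have the opposite index -/
theorem compl {e f : RA G E} (he : e * e = e) (hf : f * f = f) (se : star e.1 = e.1)
    (sf : star f.1 = f.1) (hn : ‖1 - (f * e + (1 - f) * (1 - e))‖ ≤ 1) {z : K0 (Cr G)}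
    (h : IsInd e.1 f.1 z) : IsInd (1 - e).1 (1 - f).1 (-z) := by
  obtain ⟨S, h1, h2⟩ := parametrix he hf h
  let T : RA G E := ⟨star S.1, TP.RR_adjoint S.2⟩
  have a3 : ∀ {p : RA G E}, p * p = p → (1 - p) * (1 - p) = 1 - p := fun hp => by
    rw [mul_sub, mul_one, sub_mul, one_mul, hp, sub_self, sub_zero]
  have k1 : e * f * T - e ∈ KI G E := by
    have := star_mem_KK (mem_KI.1 h1)
    change star (S.1 * (f.1 * e.1) - e.1) ∈ _ at this
    rw [star_sub, star_mul, star_mul, se, sf] at this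
    exact mem_KI.2 this
  have k2 : T * (e * f) - f ∈ KI G E := by
    have := star_mem_KK (mem_KI.1 h2)
    change star (f.1 * e.1 * S.1 - f.1) ∈ _ at this
    rw [star_sub, star_mul, star_mul, se, sf] at this
    exact mem_KI.2 this
  obtain ⟨k3, k4, k5⟩ := par_compl (KI G E) he hf h2 k1 k2
  obtain ⟨z', hz'⟩ := isInd_exists (1 - e).2 (1 - f).2 (1 - f * T * e).2
    (congrArg Subtype.val (a3 he)) (congrArg Subtype.val (a3 hf)) (mem_KI.1 k3) (mem_KI.1 k4)
  obtain ⟨u, v, u1, u2, u3⟩ := exists_unit (KI G E) _ _ hn k5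
  rw [sub_sub_cancel] at u3
  have := add_eq_zero (approx_cx _ _ (hQ_hJ (E := E))) (ps G E) (KI G E)
    (fun a ha => ent_sc.2 (sand_mem_KI _ _ ha)) he hf u1 u2 u3
    ((isInd_iff hP_hI hQ_hJ e f he hf z).1 h)
    ((isInd_iff hP_hI hQ_hJ _ _ (a3 he) (a3 hf) z').1 hz')
  rwa [neg_eq_of_add_eq_zero_right this]

end IXN

theorem stIXN (_h : St_IXC) : St_IXN := by
  intro G _ E _ _ _ w R hR h z hz
  have hw : amp G w ∈ RA G E := amp_mem w
  have hf : ng (amp G w) ∈ RA G E := (alg G E).ng_mem hw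
  have sf : star (ng (amp G w)) = ng (amp G w) := by
    rw [ng, StarModule.star_smul, star_sub, star_one, h.esa, star_trivial]
  have ff := ng_idem h.esq
  have n1 : ng (-amp G w) = 1 - ng (amp G w) := by simp only [ng]; module
  have h1 : IsInd (1 - (ng (amp G w) + R)) (1 - ng (amp G w)) (-z) := by
    refine IXN.compl (e := ⟨_, add_mem hf hR⟩) (f := ⟨_, hf⟩) (Subtype.ext h.idem) (Subtype.ext ff)
      (by rw [star_add, sf, h.sa]) sf ?_ hz
    change ‖1 - (ng (amp G w) * (ng (amp G w) + R) +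
      (1 - ng (amp G w)) * (1 - (ng (amp G w) + R)))‖ ≤ 1
    have : 1 - (ng (amp G w) * (ng (amp G w) + R) +
        (1 - ng (amp G w)) * (1 - (ng (amp G w) + R))) = amp G w * R := by
      conv_rhs => rw [eps_eq (amp G w)]
      generalize ng (amp G w) = f at ff
      calc _ = (1 - (f + f)) * R + 2 • (f - f * f) := by noncomm_ring
        _ = _ := by rw [ff, sub_self, smul_zero, add_zero]
    rw [this]
    refine ContinuousLinearMap.opNorm_le_bound _ zero_le_one fun ξ => ?_
    rw [one_mul, mul_apply_eq_comp, h.norm_eps]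
    exact h.apply_le ξ
  have ww : amp G (w * w) = amp G 1 := by rw [← ClifInv.amp_mul, h.esq, ClifInv.amp_one]
  refine ⟨?_, ?_⟩
  · rw [Ix, n1]
    convert h1 using 1
    abel
  · have ww1 : w * w = 1 := by
      classical
      refine ContinuousLinearMap.ext fun v => ?_
      have := congrArg (fun T : V G E →L[ℝ] V G E => T (lp.single 2 (1 : G) v) 1) ww
      simpa using this
    have h2 := ClifInv.conj_ind (u := w) (v := w) ww1 h1
    have e1 : amp G w * (1 - ng (amp G w)) * amp G w = 1 - ng (amp G w) := by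
      have := h.esq
      rw [← n1, ng]
      generalize amp G w = x at this
      rw [mul_smul_comm, smul_mul_assoc, sub_neg_eq_add, mul_add, add_mul, mul_one, this, one_mul]
    rw [Ix, n1]
    convert h2 using 1
    · rw [← sub_sub, mul_sub _ _ R, sub_mul, e1, ← sub_eq_add_neg]
    · exact e1.symm

end Pool.Agent.Lib.WD
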