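import Pool.Agent.Lib.WD.Blue

/-! The operator on the line. -/

noncomputable section

open Set Function MeasureTheory CliffordAlgebra BCO ContinuousLinearMap Filter Topology
open scoped Manifold ContDiff InnerProductSpace

namespace Pool.Agent.Lib.WD

open CX AN

namespace LINE

theorem far {φ : ℝ → ℝ} {Λ a b : ℝ} (ha : ∀ t ≤ a, φ t = -Λ) (hb : ∀ t, b ≤ t → φ t = Λ) {t : ℝ}
    (h : t ∉ Icc (-(|a| + |b|)) (|a| + |b|)) : φ t ^ 2 = Λ ^ 2 ∧ deriv φ t = 0 := by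
  rw [mem_Icc, not_and_or, not_le, not_le] at h
  obtain h | h := h
  · have h1 : t < a := by linarith [neg_abs_le a, abs_nonneg b]
    have h2 : φ =ᶠ[𝓝 t] fun _ => -Λ := mem_of_superset (Iio_mem_nhds h1) fun s hs => ha s hs.le
    exact ⟨by rw [ha t h1.le, neg_sq], by rw [h2.deriv_eq, deriv_const]⟩
  · have h1 : b < t := by linarith [le_abs_self b, abs_nonneg a]
    have h2 : φ =ᶠ[𝓝 t] fun _ => Λ := mem_of_superset (Ioi_mem_nhds h1) fun s hs => hb s hs.le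
    exact ⟨by rw [hb t h1.le], by rw [h2.deriv_eq, deriv_const]⟩

theorem bdd {g : ℝ → ℝ} {L D : ℝ} (hg : Continuous g) (h : ∀ t ∉ Icc (-L) L, |g t| ≤ D) :
    ∃ C, ∀ t, |g t| ≤ C := by
  obtain ⟨C, hC⟩ := (isCompact_Icc (a := -L) (b := L)).exists_bound_of_continuousOn hg.continuousOn
  refine ⟨max C D, fun t => ?_⟩
  by_cases k : t ∈ Icc (-L) L
  · exact (hC t k).trans (le_max_left _ _)
  · exact (h t k).trans (le_max_right _ _)

end LINE

theorem stLINE (hG : St_GAP) (hC : St_CAL) (hP : St_POS) (hF : St_FLT) (hK : St_LKER) :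
    St_LINE := by
  obtain ⟨S, d, σ, tau, hker⟩ := hK
  refine ⟨S, d, σ, tau, fun ν hν φ Λ a b ς hς hφ hΛ ha hb => ?_⟩
  have api := stMUL LN.M (Eu 2) ν
  have mt : Measurable tc := (hF.vol ν hν).measurable
  have c1 : Continuous φ := hφ.continuous
  have c2 : Continuous (deriv φ) := hφ.continuous_deriv (by simp)
  have aς : |(ς : ℝ)| = 1 := by obtain rfl | rfl := hς <;> simp
  obtain ⟨C₁, b1⟩ := LINE.bdd (D := |Λ|) c1 fun t k => (sq_eq_sq_iff_abs_eq_abs _ _).1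
    (LINE.far ha hb k).1 |>.le
  obtain ⟨C₂, b2⟩ := LINE.bdd (D := 0) c2 fun t k => by rw [(LINE.far ha hb k).2, abs_zero]
  obtain ⟨C₃, b3⟩ := LINE.bdd (L := |a| + |b|) (g := fun t => φ t ^ 2 - |deriv φ t|) (D := Λ ^ 2)
    (by fun_prop) fun t k => by simp [LINE.far ha hb k]
  obtain ⟨C₄, b4⟩ := LINE.bdd (L := |a| + |b|) (D := 0)
    (g := fun t => √(Λ ^ 2 - (φ t ^ 2 - |deriv φ t|))) (by fun_prop) fun t k => by simp [LINE.far ha hb k]
  have hv : Bm fun t : LN.M => φ (ς * tc t) ^ 2 - |deriv φ (ς * tc t)| :=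
    ⟨((c1.measurable.comp (mt.const_mul _)).pow_const 2).sub
      (c2.abs.measurable.comp (mt.const_mul _)), C₃, fun t => b3 _⟩
  have hχ : Bm fun t : LN.M => √(Λ ^ 2 - (φ (ς * tc t) ^ 2 - |deriv φ (ς * tc t)|)) :=
    ⟨(hv.1.const_sub _).sqrt, C₄, fun t => b4 _⟩
  have hb' : Bm fun t : LN.M => |deriv φ (ς * tc t)| :=
    ⟨c2.abs.measurable.comp (mt.const_mul _), C₂, fun t => by rw [abs_abs]; exact b2 _⟩
  have sm : Sm LN fun t => φ (ς * tc t) :=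
    ⟨(hF.sm fun r => φ (ς * r)).2 (hφ.comp (contDiff_const.mul contDiff_id)), ⟨C₁, fun t => b1 _⟩,
      C₂, fun i t => by rw [hF.dv φ hφ, abs_mul, aς, one_mul]; exact b2 _⟩
  refine ⟨hv, ?_⟩
  obtain ⟨R, Nn, hR⟩ := res_holds 1 2 LN S ν hν hF.cpl ⟨0, fun y => by simp [hF.scal]⟩ d tau.gw
  obtain ⟨r1, -, r2⟩ := hC 1 2 LN S ν hν hF.cpl.sc d tau.gw R Nn hR
  obtain ⟨s1, s2, s3, s4⟩ := r2 σ tau _ _ sm hb' (fun y => ⟨abs_nonneg _, by
    rw [Fin.sum_univ_one, hF.dv φ hφ, mul_pow, ← sq_abs (ς : ℝ), aς, sq_abs]; simp⟩) _ rfl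
  set B := mul (Eu 2) ν (fun t => φ (ς * tc t)) * cst ν σ
  obtain ⟨W, w1, w2, w3, -⟩ := r1.pert s1 s2
  have rp := s4 (R * W) (fun j => Nn j * W) ⟨⟨_, W, w1, w2⟩, rfl⟩ (by rw [mul_assoc, w2, mul_one])
    fun j => by rw [mul_assoc, w2, mul_one]
  have lb : ∀ y, ⟪mul (Eu 2) ν (fun t => φ (ς * tc t) ^ 2 - |deriv φ (ς * tc t)|) ((R * W) y),
      (R * W) y⟫_ℝ ≤ ‖y - cst ν d ((R * W) y)‖ ^ 2 := fun y => by
    have e : y = W y + B (R (W y)) := (congrArg (fun T : _ →L[ℝ] _ => T y) w1).symm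
    have e2 : y - cst ν d ((R * W) y) = (W y - cst ν d (R (W y))) + B (R (W y)) := by
      rw [mul_apply_eq_comp]
      conv_lhs => enter [1]; rw [e]
      abel
    rw [e2, norm_add_sq_real, mul_apply_eq_comp]
    linarith [s3 (W y), sq_nonneg ‖W y - cst ν d (R (W y))‖]
  have cp : ∀ χ : LN.M → ℝ, Bm χ → HasCompactSupport χ →
      IsCompactOperator (mul (Eu 2) ν χ * (R * W) : Lp (Eu 2) 2 ν →L[ℝ] Lp (Eu 2) 2 ν) :=
    fun χ k l => by
      rw [← mul_assoc]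
      exact (rel_holds 1 2 LN S ν hν hF.cpl.sc d tau.gw R Nn hR χ k l).comp_clm W
  refine ⟨R * W, _, rp, w3, ?_, lb, cp⟩
  rw [← hker ν hν φ Λ a b ς hς hφ hΛ ha hb _ _ rp w3]
  obtain ⟨h, hh⟩ := hF.homeo
  refine hG _ _ _ _ (Λ ^ 2) w3 (cp _ hχ ?_) (by positivity) fun k => ?_
  · refine HasCompactSupport.intro (h.isCompact_preimage.2
      (isCompact_Icc (a := -(|a| + |b|)) (b := |a| + |b|))) fun t k => ?_
    have : (ς : ℝ) * tc t ∉ Icc (-(|a| + |b|)) (|a| + |b|) := fun l => k (by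
      rw [mem_preimage, hh, mem_Icc, ← abs_le]
      rwa [mem_Icc, ← abs_le, abs_mul, aς, one_mul] at l)
    simp [LINE.far ha hb this]
  · have p := hP _ 2 ν _ _ (api.mul_const (Λ ^ 2)).1 (api.mul_add hv (api.mul_mul hχ hχ).1).1
      (fun y => by
        have := Real.sq_sqrt' (x := Λ ^ 2 - (φ (ς * tc y) ^ 2 - |deriv φ (ς * tc y)|))
        have := le_max_left (Λ ^ 2 - (φ (ς * tc y) ^ 2 - |deriv φ (ς * tc y)|)) 0
        nlinarith) ((R * W) k)
    rw [(api.mul_const _).2, (api.mul_add hv (api.mul_mul hχ hχ).1).2, (api.mul_mul hχ hχ).2,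
      add_apply, inner_add_left, mul_apply_eq_comp (AN.mul _ _ _), api.mul_inner hχ,
      real_inner_self_eq_norm_sq, _root_.smul_apply, one_apply_eq_self, real_inner_smul_left,
      real_inner_self_eq_norm_sq] at p
    linarith [lb k]

end Pool.Agent.Lib.WD
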