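import Pool.Agent.Lib.WD.GEO
import Pool.Agent.Lib.RQ.GRAPH
import Pool.Agent.Lib.RQ.VOL

/-! The index of the statement is the index of the package. -/

noncomputable section

open Set Function MeasureTheory BCO ContinuousLinearMap
open scoped Manifold ContDiff InnerProductSpace

namespace Pool.Agent.Lib.WD

open CX AN RQ.BRG

theorem stLINKb (h1 : St_TWX) (h2 : St_GEO) : St_LINK := by
  classical
  intro G _ m N x S μ hμ hS r φ hφ htop P hP hR z
  have hw := gr_of hS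
  have A := GEO.apack hμ hw hφ hR
  obtain ⟨⟨R, hT⟩, -, -, hTW⟩ := h1 G _ _ _ P
  obtain ⟨hd, hu, -, -⟩ := hTW R hT
  obtain ⟨hgood, -⟩ := (h2 G m N x S μ hμ _ hw r φ hφ).2 P hP hR
  have hsh : ∀ (i : Fin (r + 1)) g s γ, sh P i g s γ = mul (Eu N) μ (ef x i (γ * g⁻¹)) s :=
    fun i g s γ => by rw [sh_apply, hP.E]
  have hz : ∀ i, ¬ i < r + 1 → ∀ k, mul (Eu N) μ (ef x i k) = 0 := fun i hi k => by
    rw [ef, htop i (by omega), empty_inter, indicator_empty]
    exact mul_zero' A.l2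
  have hmem : ∀ (a : ℕ) (i : Fin (r + 1)) g u, IsE x.X a (OO x i) u →
      (sh P i g (cl μ (dw x.X S S.gr (glob x.X S a u))), sh P i g (cl μ (glob x.X S a u))) ∈
        RQ.tests x S μ := fun a i g u hu =>
    ⟨a, i, g, u, hu.sm, hu.cpt, hu.sub, fun γ => by
      rw [hsh, hsh]
      exact sec_cl A hu g γ⟩
  have hH : RQ.HasTests x S μ := fun a i g u u1 u2 u3 => by
    obtain ⟨r', F, -, -, hF⟩ := A.coc.fin
    obtain ⟨η, hη⟩ := exists_vec A hF i g (cl μ (dw x.X S S.gr (glob x.X S a u)))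
    obtain ⟨ξ, hξ⟩ := exists_vec A hF i g (cl μ (glob x.X S a u))
    exact ⟨ξ, η, fun γ => by rw [hη, hξ]; exact sec_cl A ⟨u1, u2, u3⟩ g γ⟩
  have ht : ∀ q ∈ RQ.tests x S μ, R q.1 = q.2 := by
    rintro q ⟨a, i, g, u, u1, u2, u3, hq⟩
    have hu : IsE x.X a (OO x i) u := ⟨u1, u2, u3⟩
    have e : ∀ γ, q.1 γ = mul (Eu N) μ (ef x i (γ * g⁻¹))
        (cl μ (dw x.X S S.gr (glob x.X S a u))) ∧
        q.2 γ = mul (Eu N) μ (ef x i (γ * g⁻¹)) (cl μ (glob x.X S a u)) := fun γ =>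
      ⟨Lp.ext ((hq γ).1.trans (sec_cl A hu g γ).1.symm),
        Lp.ext ((hq γ).2.trans (sec_cl A hu g γ).2.symm)⟩
    by_cases hi : i < r + 1
    · obtain ⟨c1, c2, -, -⟩ := (core_holds _ _ x.X S).glob hu
      have e1 : q.1 = sh P ⟨i, hi⟩ g (cl μ (dw x.X S S.gr (glob x.X S a u))) :=
        lp.ext (funext fun γ => (e γ).1.trans (hsh ⟨i, hi⟩ g _ γ).symm)
      have e2 : q.2 = sh P ⟨i, hi⟩ g (cl μ (glob x.X S a u)) :=
        lp.ext (funext fun γ => (e γ).2.trans (hsh ⟨i, hi⟩ g _ γ).symm)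
      rw [e1, e2]
      exact hT.good _ _ _ _ (hgood ⟨i, hi⟩ _ c1 fun y hy => (hu.sub (c2 hy)).2)
    · have e1 : q.1 = 0 := lp.ext (funext fun γ => by rw [(e γ).1, hz i hi]; rfl)
      have e2 : q.2 = 0 := lp.ext (funext fun γ => by rw [(e γ).2, hz i hi]; rfl)
      rw [e1, e2, map_zero]
  have hd' : ∀ η, (η, R η) ∈ (Submodule.span ℝ (RQ.tests x S μ)).topologicalClosure := fun η => by
    refine Submodule.topologicalClosure_minimal _ (Submodule.span_le.2 ?_)
      (Submodule.isClosed_topologicalClosure _) (hd η)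
    rintro _ ⟨a, g, y, rfl⟩
    have h := A.test.core a y
    rw [← GEO.C_eq hP, ← hP.ph] at h
    refine Submodule.topologicalClosure_minimal _ (t := Submodule.comap
      ((sh P a g).prodMap (sh P a g)).toLinearMap
        (Submodule.span ℝ (RQ.tests x S μ)).topologicalClosure) (Submodule.span_le.2 ?_)
      ((Submodule.isClosed_topologicalClosure _).preimage
        ((sh P a g).prodMap (sh P a g)).continuous) h
    rintro _ ⟨b, u, hu, rfl⟩
    exact Submodule.le_topologicalClosure _ (Submodule.subset_span (hmem b a g u hu))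
  obtain ⟨hem, -, h3⟩ := RQ.abs_key P.w _ R hT.mem hT.res.rq ht hd' _ rfl
  have hG := RQ.stGRAPH G m N x S hS μ hH
  have hw' : P.w = S.gr.compLpL 2 μ := hP.w
  rw [← hw'] at hG
  constructor
  · rintro ⟨μ', hμ', e', -, h4, h6⟩
    obtain rfl := (RQ.stVOL G m x).unique hμ hμ'
    rw [(h3 e').1 ((hG e').1 h4), RQ.compLpL_half, ← hw', amp_ng] at h6
    exact ⟨R, hT, h6⟩
  · rintro ⟨R', hT', h6⟩
    rw [hu R' hT'] at h6
    refine ⟨μ, hμ, _, hem, (hG _).2 ((h3 _).2 rfl), ?_⟩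
    rw [RQ.compLpL_half, ← hw', amp_ng]
    exact h6

end Pool.Agent.Lib.WD
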