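import Pool.Agent.Lib.WD.Blue

/-! The kernel of the operator on the line. -/

noncomputable section

open Set Function MeasureTheory CliffordAlgebra Filter Topology
open scoped Manifold ContDiff InnerProductSpace

namespace Pool.Agent.Lib.WD

open CX AN

namespace LKER


/-- test functions -/
structure Tst {W : Type} [NormedAddCommGroup W] [NormedSpace ℝ W] (η : ℝ → W) : Prop where
  sm : ContDiff ℝ ∞ η
  cpt : HasCompactSupport η

theorem prim {θ : ℝ → ℝ} (h : ContDiff ℝ ∞ θ) (a : ℝ) :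
    ContDiff ℝ ∞ (fun t => ∫ s in a..t, θ s) ∧ ∀ t, HasDerivAt (fun t => ∫ s in a..t, θ s) (θ t) t := by
  have h1 : ∀ t, HasDerivAt (fun t => ∫ s in a..t, θ s) (θ t) t := fun t =>
    (h.continuous.integral_hasStrictDerivAt a t).hasDerivAt
  refine ⟨contDiff_infty_iff_deriv.2 ⟨fun t => (h1 t).differentiableAt, ?_⟩, h1⟩
  rw [show deriv (fun t => ∫ s in a..t, θ s) = θ from funext fun t => (h1 t).deriv]
  exact h

theorem prim_tst {θ : ℝ → ℝ} (h : Tst θ) (h0 : ∫ t, θ t = 0) : ∃ ζ, Tst ζ ∧ deriv ζ = θ := by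
  obtain ⟨R, hR⟩ := h.cpt.isCompact.isBounded.subset_ball 0
  have hs : ∀ t, θ t ≠ 0 → -R < t ∧ t < R := fun t ht => by
    have := hR (subset_tsupport _ ht)
    rwa [mem_ball_zero_iff, Real.norm_eq_abs, abs_lt] at this
  obtain ⟨h1, h2⟩ := prim h.sm (-R)
  refine ⟨_, ⟨h1, HasCompactSupport.intro (isCompact_Icc (a := -R) (b := R)) fun t ht => ?_⟩,
    funext fun t => (h2 t).deriv⟩
  rw [mem_Icc, not_and_or, not_le, not_le] at ht
  obtain ht | ht := ht
  · rw [intervalIntegral.integral_congr (g := fun _ => 0) fun s k => ?_,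
      intervalIntegral.integral_zero]
    rw [uIcc_of_ge ht.le] at k
    by_contra l
    linarith [(hs s l).1, k.2]
  · rw [intervalIntegral.integral_eq_integral_of_support_subset fun s k =>
      ⟨(hs s k).1, by linarith [(hs s k).2]⟩, h0]

theorem Tst.int {η w : ℝ → ℝ} (h : Tst η) (hw : LocallyIntegrable w) :
    Integrable fun t => η t * w t :=
  hw.integrable_smul_left_of_hasCompactSupport h.sm.continuous h.cpt

theorem const_of_weak {w : ℝ → ℝ} (hw : LocallyIntegrable w)
    (h : ∀ ζ, Tst ζ → ∫ t, deriv ζ t * w t = 0) : ∃ C, ∀ᵐ t, w t = C := by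
  let f : ContDiffBump (0 : ℝ) := ⟨1, 2, one_pos, one_lt_two⟩
  have hρ : Tst (f.normed volume) := ⟨f.contDiff_normed, f.hasCompactSupport_normed⟩
  have one : LocallyIntegrable (fun _ : ℝ => (1 : ℝ)) := locallyIntegrable_const 1
  refine ⟨∫ t, f.normed volume t * w t, ?_⟩
  have := ae_eq_zero_of_integral_contDiff_smul_eq_zero
    (hw.sub (locallyIntegrable_const (∫ t, f.normed volume t * w t))) fun g g1 g2 => by
      have hg : Tst g := ⟨g1, g2⟩
      have i1 : Integrable g := by simpa using hg.int one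
      have i2 : Integrable (f.normed volume) := f.integrable_normed
      obtain ⟨ζ, z1, z2⟩ := prim_tst (θ := fun t => g t - (∫ s, g s) * f.normed volume t)
        ⟨g1.sub (contDiff_const.mul hρ.sm), g2.sub hρ.cpt.mul_left⟩ (by
          rw [integral_sub i1 (i2.const_mul _), integral_const_mul, f.integral_normed, mul_one,
            sub_self])
      have k := h ζ z1
      simp only [z2, sub_mul, mul_assoc] at k
      rw [integral_sub (hg.int hw) ((hρ.int hw).const_mul _), integral_const_mul] at k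
      simp only [Pi.sub_apply, smul_eq_mul, mul_sub]
      rw [integral_sub (hg.int hw) (i1.mul_const _), integral_mul_const, k]
  filter_upwards [this] with t ht using sub_eq_zero.1 ht

variable {g G : ℝ → ℝ}

theorem weak (hG : ContDiff ℝ ∞ G) (hg : ∀ t, HasDerivAt G (g t) t) {v : ℝ → ℝ}
    (hv : LocallyIntegrable v) (h : ∀ η, Tst η → ∫ t, v t * (g t * η t - deriv η t) = 0) :
    ∃ C, ∀ᵐ t, v t = C * Real.exp (-G t) := by
  obtain ⟨C, hC⟩ := const_of_weak (w := fun t => Real.exp (G t) * v t)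
    (hv.continuous_mul hG.continuous.rexp) fun ζ hζ => by
      have k := h (fun t => Real.exp (G t) * ζ t) ⟨hG.exp.mul hζ.sm, hζ.cpt.mul_left⟩
      rw [← neg_eq_zero, ← integral_neg, ← k]
      refine integral_congr_ae (.of_forall fun t => ?_)
      have := ((hg t).exp.mul (hζ.sm.differentiable (by simp) t).hasDerivAt).deriv
      simp only [Pi.mul_def] at this
      simp only [this]
      ring
  refine ⟨C, ?_⟩
  filter_upwards [hC] with t ht
  rw [← ht, Real.exp_neg]
  field_simp

theorem strong (hG : ContDiff ℝ ∞ G) (hg : ∀ t, HasDerivAt G (g t) t) {η : ℝ → ℝ} (hη : Tst η) :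
    ∫ t, Real.exp (-G t) * (g t * η t - deriv η t) = 0 := by
  have c1 : Continuous G := hG.continuous
  have c2 : Continuous g := by
    rw [show g = deriv G from funext fun t => (hg t).deriv.symm]
    exact hG.continuous_deriv (by simp)
  have c3 : Continuous η := hη.sm.continuous
  have c4 : Continuous (deriv η) := hη.sm.continuous_deriv (by simp)
  refine integral_eq_zero_of_hasDerivAt_of_integrable (f := fun t => -(Real.exp (-G t) * η t))
    (fun t => ?_) (Continuous.integrable_of_hasCompactSupport (by fun_prop) ?_)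
    (Continuous.integrable_of_hasCompactSupport (by fun_prop) hη.cpt.mul_left.neg)
  · refine (((hg t).neg.exp.mul (hη.sm.differentiable (by simp) t).hasDerivAt).neg).congr_deriv ?_
    simp only [Pi.neg_apply]
    ring
  · exact (hη.cpt.mul_left.sub hη.cpt.deriv).mul_left

theorem lin (hg : ∀ t, HasDerivAt G (g t) t) {s : Set ℝ} (hs : IsOpen s) (hc : IsPreconnected s)
    {L : ℝ} (h : ∀ t ∈ s, g t = L) : ∃ c, ∀ t ∈ s, G t = L * t + c := by
  have k : ∀ t, HasDerivAt (fun t => G t - L * t) (g t - L * 1) t := fun t =>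
    (hg t).sub ((hasDerivAt_id t).const_mul L)
  obtain ⟨c, hc⟩ := hs.exists_is_const_of_deriv_eq_zero hc
    (fun t _ => (k t).differentiableAt.differentiableWithinAt) fun t ht => by
      rw [(k t).deriv, h t ht, mul_one, sub_self, Pi.zero_apply]
  exact ⟨c, fun t ht => by linarith [hc t ht]⟩

theorem dec (hG : ContDiff ℝ ∞ G) (hg : ∀ t, HasDerivAt G (g t) t) {L a b : ℝ} (hL : 0 < L)
    (ha : ∀ t ≤ a, g t = -L) (hb : ∀ t, b ≤ t → g t = L) :
    MemLp (fun t => Real.exp (-G t)) 2 := by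
  have c1 : Continuous G := hG.continuous
  obtain ⟨c, hc⟩ := lin hg isOpen_Iio isPreconnected_Iio fun t (k : t < a) => ha t k.le
  obtain ⟨c', hc'⟩ := lin hg isOpen_Ioi isPreconnected_Ioi fun t (k : b < t) => hb t k.le
  rw [memLp_two_iff_integrable_sq (by fun_prop), ← integrableOn_univ]
  have i1 : IntegrableOn (fun t => Real.exp (-G t) ^ 2) (Iio a) :=
    IntegrableOn.congr_fun (((integrableOn_exp_mul_Iic (a := 2 * L) (by positivity) a).mono_set
      Iio_subset_Iic_self).const_mul (Real.exp (-(2 * c)))) (fun t k => by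
        simp only [hc t k, sq, ← Real.exp_add]
        congr 1
        ring) measurableSet_Iio
  have i2 : IntegrableOn (fun t => Real.exp (-G t) ^ 2) (Ioi b) :=
    IntegrableOn.congr_fun ((integrableOn_exp_mul_Ioi (a := -(2 * L)) (by linarith) b).const_mul
      (Real.exp (-(2 * c')))) (fun t k => by
        simp only [hc' t k, sq, ← Real.exp_add]
        congr 1
        ring) measurableSet_Ioi
  have i3 : IntegrableOn (fun t => Real.exp (-G t) ^ 2) (Icc a b) :=
    Continuous.integrableOn_Icc (by fun_prop)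
  refine ((i1.union i2).union i3).mono_set fun t _ => ?_
  by_cases k : t < a
  · exact .inl (.inl k)
  by_cases l : b < t
  · exact .inl (.inr l)
  · exact .inr ⟨not_lt.1 k, not_lt.1 l⟩

theorem gro (hg : ∀ t, HasDerivAt G (g t) t) {L b C : ℝ} (hL : 0 < L)
    (hb : ∀ t, b ≤ t → g t = -L) (h : MemLp (fun t => C * Real.exp (-G t)) 2) : C = 0 := by
  obtain ⟨c, hc⟩ := lin hg isOpen_Ioi isPreconnected_Ioi fun t (k : b < t) => hb t k.le
  have i1 := ((memLp_two_iff_integrable_sq h.1).1 h).integrableOn (s := Ioi b)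
  have i2 : IntegrableOn (fun _ : ℝ => (C * Real.exp (L * b - c)) ^ 2) (Ioi b) := by
    refine i1.mono' aestronglyMeasurable_const ?_
    filter_upwards [ae_restrict_mem measurableSet_Ioi] with t k
    rw [Real.norm_of_nonneg (sq_nonneg _), mul_pow, mul_pow, hc t k]
    have : L * b ≤ L * t := mul_le_mul_of_nonneg_left (le_of_lt k) hL.le
    gcongr
    linarith
  simpa using (integrableOn_const_iff enorm_ne_top).1 i2

/-- a `2 × 2` matrix -/
def mt (a b c e : ℝ) : Eu 2 →L[ℝ] Eu 2 := LinearMap.toContinuousLinearMap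
  { toFun x := WithLp.toLp 2 ![a * x 0 + b * x 1, c * x 0 + e * x 1]
    map_add' x y := by ext i; fin_cases i <;> simp <;> ring
    map_smul' r x := by ext i; fin_cases i <;> simp <;> ring }

theorem mt0 (a b c e : ℝ) (x : Eu 2) : mt a b c e x 0 = a * x 0 + b * x 1 := rfl

theorem mt1 (a b c e : ℝ) (x : Eu 2) : mt a b c e x 1 = c * x 0 + e * x 1 := rfl

theorem ext2 {x y : Eu 2} (h0 : x 0 = y 0) (h1 : x 1 = y 1) : x = y := by
  ext i; fin_cases i
  exacts [h0, h1]

theorem inn (x y : Eu 2) : ⟪x, y⟫_ℝ = x 0 * y 0 + x 1 * y 1 := by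
  simp [PiLp.inner_apply, Fin.sum_univ_two, mul_comm]

/-- Clifford multiplication -/
def cm : Eu 1 →ₗ[ℝ] Eu 2 →L[ℝ] Eu 2 where
  toFun v := mt 0 (-v 0) (v 0) 0
  map_add' x y := ContinuousLinearMap.ext fun u =>
    ext2 (by simp [mt0]; ring) (by simp [mt1]; ring)
  map_smul' r x := ContinuousLinearMap.ext fun u =>
    ext2 (by simp [mt0]; ring) (by simp [mt1]; ring)

theorem cm_sq (v : Eu 1) : cm v * cm v = algebraMap ℝ _ (Qn 1 v) := by
  have : Qn 1 v = -(v 0 * v 0) := by
    simp only [Qn, _root_.neg_apply, LinearMap.BilinMap.toQuadraticMap_apply, innerₗ_apply_apply]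
    rw [PiLp.inner_apply]
    simp [sq]
  refine ContinuousLinearMap.ext fun x => ext2 ?_ ?_ <;>
    simp [this, cm, mt0, mt1, Algebra.algebraMap_eq_smul_one] <;> ring

/-- the spinor module of the line -/
def S0 : Spinor 1 2 where
  c := CliffordAlgebra.lift _ ⟨cm, cm_sq⟩
  skew v u w := by
    simp [inn, cm, mt0, mt1]
    ring

theorem S0_c (v : Eu 1) : S0.c (ι (Qn 1) v) = mt 0 (-v 0) (v 0) 0 := lift_ι_apply _ _ v

theorem S0_gam : gam S0 0 = mt 0 (-1) 1 0 := by
  rw [ANA.gam, S0_c]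
  simp [bv]

theorem tau : Tau S0 (mt 1 0 0 (-1)) (mt 0 1 1 0) where
  gw := ⟨fun u => ext2 (by simp [mt0]) (by simp [mt1]), fun u v => by simp [inn, mt0, mt1],
    fun v u => ext2 (by simp [S0_c, mt0, mt1]) (by simp [S0_c, mt0, mt1])⟩
  gt := ⟨fun u => ext2 (by simp [mt0, mt1]) (by simp [mt0, mt1]),
    fun u v => by simp [inn, mt0, mt1]; ring,
    fun v u => ext2 (by simp [S0_c, mt0, mt1]) (by simp [S0_c, mt0, mt1])⟩
  anti u := ext2 (by simp [mt0, mt1]) (by simp [mt0, mt1])

theorem fix {H : Type} [NormedAddCommGroup H] [InnerProductSpace ℝ H] [CompleteSpace H]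
    {d B : H →L[ℝ] H} (h : Res d B) {c : ℝ} (hc : c * c = 1) {u : H} (hu : B u = c • u) :
    d u = c • u := by
  have h1 : d (B u) + B (d u) = B (B u) + B (B u) := congrArg (fun T : H →L[ℝ] H => T u) h.rel
  have h2 := congrArg (fun v => ⟪v, u⟫_ℝ) h1
  have h3 : ⟪d u, d u⟫_ℝ = ⟪u, u⟫_ℝ := by
    rw [inner_sa h.esa, ← mul_apply_eq_comp, h.esq, one_apply_eq_self]
  simp only [inner_add_left, inner_sa h.sa, hu, map_smul, real_inner_smul_left,
    real_inner_smul_right] at h2
  rw [← sub_eq_zero, ← inner_self_eq_zero (𝕜 := ℝ), inner_sub_left, inner_sub_right,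
    inner_sub_right, h3]
  simp only [real_inner_smul_left, real_inner_smul_right, real_inner_comm (d u) u] at h2 ⊢
  linear_combination (-1) * h2 - ⟪u, u⟫_ℝ * hc

theorem Tst.co {η : ℝ → Eu 2} (h : Tst η) (j : Fin 2) :
    Tst (fun t => η t j) ∧ ∀ t, deriv (fun t => η t j) t = deriv η t j := by
  let p : Eu 2 →L[ℝ] ℝ := EuclideanSpace.proj j
  exact ⟨⟨p.contDiff.comp h.sm, h.cpt.comp_left (g := p) (map_zero p)⟩, fun t =>
    (p.hasFDerivAt.comp_hasDerivAt t (h.sm.differentiable (by simp) t).hasDerivAt).deriv⟩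

theorem memco {U : ℝ → Eu 2} (h : MemLp U 2) (j : Fin 2) : MemLp (fun t => U t j) 2 :=
  (EuclideanSpace.proj j : Eu 2 →L[ℝ] ℝ).comp_memLp' h

/-- the operator on the line -/
def op (J d σ : Eu 2 →L[ℝ] Eu 2) (f : ℝ → ℝ) (η : ℝ → Eu 2) (t : ℝ) : Eu 2 :=
  J (deriv η t) + d (η t) + f t • σ (η t)

theorem Tst.mem {η : ℝ → Eu 2} (k : Tst η) : MemLp η 2 :=
  k.sm.continuous.memLp_of_hasCompactSupport k.cpt

theorem Tst.op {η : ℝ → Eu 2} (k : Tst η) (J d σ : Eu 2 →L[ℝ] Eu 2) {f : ℝ → ℝ}
    (hf : Continuous f) : MemLp (op J d σ f η) 2 := by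
  have c3 : Continuous η := k.sm.continuous
  have c4 : Continuous (deriv η) := k.sm.continuous_deriv (by simp)
  refine Continuous.memLp_of_hasCompactSupport (by unfold LKER.op; fun_prop) ?_
  refine HasCompactSupport.intro k.cpt fun t ht => ?_
  have h1 := image_eq_zero_of_notMem_tsupport ht
  have h2 : deriv η t = 0 := by
    by_contra l
    exact ht (support_deriv_subset l)
  simp [LKER.op, h1, h2]

theorem core (hF : St_FLT) {S : Spinor 1 2} {d σ : Eu 2 →L[ℝ] Eu 2} {ν : Measure LN.M}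
    (hν : LN.IsVol ν) {f : ℝ → ℝ} (hf : ContDiff ℝ ∞ f) {B Nn}
    (hB : ResP LN S d σ (fun t => f (tc t)) ν B Nn) (hR : Res (cst ν d) B) {c : ℝ} (hc : c * c = 1)
    {i j : Fin 2} (hij : j ≠ i) (hin : ∀ x y : Eu 2, ⟪x, y⟫_ℝ = x i * y i + x j * y j)
    (hd : ∀ y, d y = c • y → y j = 0)
    (hP : ∀ x y (r : ℝ), (gam S 0 x + d y + r • σ y) i = c * y i + (r * y j - c * x j))
    (hG : ContDiff ℝ ∞ G) (hg : ∀ t, HasDerivAt G (c * f t) t) :
    (MemLp (fun t => Real.exp (-G t)) 2 →
      Module.finrank ℝ (LinearMap.ker (B - c • 1).toLinearMap) = 1) ∧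
    ((∀ C, MemLp (fun t => C * Real.exp (-G t)) 2 → C = 0) →
      Module.finrank ℝ (LinearMap.ker (B - c • 1).toLinearMap) = 0) := by
  have api := stMUL LN.M (Eu 2) ν
  obtain ⟨h, hh⟩ := hF.homeo
  have : BorelSpace LN.M := ⟨rfl⟩
  have mp : MeasurePreserving tc ν volume := hF.vol ν hν
  have eh : tc = h := funext fun t => (hh t).symm
  have mq : MeasurePreserving h.symm volume ν :=
    MeasurePreserving.symm h.toMeasurableEquiv (by rw [eh] at mp; exact mp)
  have tq : ∀ t, tc (h.symm t) = t := fun t => by rw [← hh, h.apply_symm_apply]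
  let T : (ℝ → Eu 2) → Lp (Eu 2) 2 ν := fun U => cl ν fun t => U (tc t)
  have mem : ∀ {U : ℝ → Eu 2}, MemLp U 2 → MemLp (fun t => U (tc t)) 2 ν := fun k =>
    k.comp_measurePreserving mp
  have T1 : ∀ u, ∃ U, MemLp U 2 ∧ u = T U := fun u =>
    ⟨fun t => u (h.symm t), (Lp.memLp u).comp_measurePreserving mq, by
      simp only [T, eh, h.symm_apply_apply, api.cl_coe]⟩
  have T2 : ∀ {U W}, MemLp U 2 → MemLp W 2 → ⟪T U, T W⟫_ℝ = ∫ t, ⟪U t, W t⟫_ℝ := fun k l => by
    rw [(api.inner_cl (mem k) (mem l)).2]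
    exact mp.integral_comp (eh ▸ h.measurableEmbedding) fun t => ⟪_, _⟫_ℝ
  have T3 : ∀ {U W}, U =ᵐ[volume] W → T U = T W := fun k =>
    api.cl_congr (mp.quasiMeasurePreserving.ae k)
  have T4 : ∀ {U W}, MemLp U 2 → MemLp W 2 → T U = T W → U =ᵐ[volume] W := fun {U W} k l e => by
    have a := api.cl_ae (mem k)
    rw [show cl ν (fun t => U (tc t)) = cl ν fun t => W (tc t) from e] at a
    filter_upwards [mq.quasiMeasurePreserving.ae (a.symm.trans (api.cl_ae (mem l)))] with t ht
    simpa only [tq] using ht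
  obtain ⟨P, hP'⟩ : ∃ P, P = op (gam S 0) d σ f := ⟨_, rfl⟩
  have dpe : ∀ η, dp LN S d σ (fun t => f (tc t)) (fun t => η (tc t)) = fun t => P η (tc t) :=
    fun η => funext fun t => by rw [dp, dw, hF.dir, hP', op]
  have m2 : ∀ {η}, Tst η → MemLp (P η) 2 := fun k => hP' ▸ k.op _ _ _ hf.continuous
  have BP : ∀ {η}, Tst η → B (T (P η)) = T η := fun {η} k => by
    have := hB.R_cl _ ((hF.isT S η).2 ⟨k.sm, k.cpt⟩)
    rwa [dpe] at this
  have key : ∀ {U : ℝ → Eu 2}, MemLp U 2 → (∀ᵐ t, U t j = 0) → ∀ {η}, Tst η → ⟪c • T U, T (P η)⟫_ℝ =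
      ⟪T U, T η⟫_ℝ + ∫ t, U t i * (c * f t * η t j - deriv (fun t => η t j) t) :=
    fun {U} k l η m => by
      obtain ⟨q1, q2⟩ := m.co j
      have lu := (memco k i).locallyIntegrable one_le_two
      have i1 : Integrable fun t => U t i * (c * f t * η t j - deriv (fun t => η t j) t) := by
        simpa only [mul_comm (U _ i)] using Tst.int ⟨((contDiff_const.mul hf).mul q1.sm).sub
          (contDiff_infty_iff_deriv.1 q1.sm).2, q1.cpt.mul_left.sub q1.cpt.deriv⟩ lu
      rw [real_inner_smul_left, T2 k (m2 m), T2 k m.mem, ← integral_const_mul,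
        ← integral_add ((stMUL ℝ (Eu 2) volume).inner_cl k m.mem).1 i1]
      refine integral_congr_ae ?_
      filter_upwards [l] with t ht
      simp only [hin, ht, hP', op, hP, q2]
      linear_combination (U t i * η t i - U t i * deriv η t j) * hc
  have ker : ∀ u, u ∈ LinearMap.ker (B - c • 1).toLinearMap ↔ B u = c • u := fun u => by
    simp [sub_eq_zero]
  have sol : ∀ u, B u = c • u → ∃ C, MemLp (fun t => C * Real.exp (-G t)) 2 ∧
      u = C • T fun t => Real.exp (-G t) • bv i := fun u hu => by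
    obtain ⟨U, k, rfl⟩ := T1 u
    have a := fix hR hc hu
    rw [(api.cst_cl d (mem k)).2, ← api.cl_smul] at a
    have l : ∀ᵐ t, U t j = 0 := by
      filter_upwards [T4 (U := fun t => d (U t)) (W := fun t => c • U t) (d.comp_memLp' k)
        (k.const_smul c) a] with t ht using hd _ ht
    obtain ⟨C, hC⟩ := weak hG hg ((memco k i).locallyIntegrable one_le_two) fun η m => by
      have m' : Tst fun t => η t • (bv j : Eu 2) :=
        ⟨m.sm.smul contDiff_const, m.cpt.smul_right⟩
      have := key k l m'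
      rw [← hu, inner_sa hR.sa, BP m', left_eq_add] at this
      simpa [bv] using this
    refine ⟨C, (memLp_congr_ae hC).1 (memco k i), ?_⟩
    rw [← api.cl_smul]
    refine T3 (W := fun t => C • Real.exp (-G t) • bv i) ?_
    filter_upwards [l, hC] with t h1 h2
    rw [← sub_eq_zero, ← inner_self_eq_zero (𝕜 := ℝ), hin]
    simp [bv, h1, h2, hij]
  refine ⟨fun k => ?_, fun k => ?_⟩
  · have k' : MemLp (fun t => Real.exp (-G t) • (bv i : Eu 2)) 2 :=
      ((ContinuousLinearMap.id ℝ ℝ).smulRight (bv i : Eu 2)).comp_memLp' k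
    have b1 : B (T fun t => Real.exp (-G t) • bv i) = c • T fun t => Real.exp (-G t) • bv i := by
      refine hB.dense.eq_of_inner_left ℝ ?_
      rintro _ ⟨s, hs, rfl⟩
      obtain ⟨η, rfl⟩ : ∃ η : ℝ → Eu 2, s = fun t => η (tc t) :=
        ⟨fun t => s (h.symm t), by simp only [eh, h.symm_apply_apply]⟩
      have m : Tst η := ⟨((hF.isT S η).1 hs).1, ((hF.isT S η).1 hs).2⟩
      rw [dpe, inner_sa hR.sa]
      refine ((key k' (.of_forall fun t => by simp [bv, hij]) m).trans ?_).symm
      rw [show B (cl ν fun t => P η (tc t)) = _ from BP m, add_eq_left]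
      simpa [bv] using strong hG hg (m.co j).1
    have b2 : (T fun t => Real.exp (-G t) • bv i) ≠ 0 := fun e => by
      obtain ⟨t, ht⟩ := (T4 k' (W := fun _ => 0) MemLp.zero (e.trans api.cl_zero.symm)).exists
      simpa [bv] using congrArg (fun x : Eu 2 => x i) ht
    refine (congrArg (fun K : Submodule ℝ _ => Module.finrank ℝ K) (Submodule.ext fun u => ?_)).trans
      (finrank_span_singleton (K := ℝ) b2)
    rw [ker, Submodule.mem_span_singleton]
    exact ⟨fun e => (sol u e).imp fun C e => e.2.symm, by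
      rintro ⟨C, rfl⟩
      rw [map_smul, b1, smul_comm]⟩
  · refine (congrArg (fun K : Submodule ℝ _ => Module.finrank ℝ K) (eq_bot_iff.2 ?_)).trans
      (finrank_bot ℝ _)
    intro u e
    obtain ⟨C, e1, rfl⟩ := sol u ((ker u).1 e)
    rw [k C e1, zero_smul]
    rfl

end LKER

open LKER in
theorem stLKER (hF : St_FLT) : St_LKER := by
  refine ⟨S0, _, _, tau, fun ν hν φ Λ a b ς hς hφ hΛ ha hb B Nn hB hR => ?_⟩
  have hf : ContDiff ℝ ∞ fun t => φ (ς * t) := hφ.comp (contDiff_const.mul contDiff_id)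
  obtain ⟨g1, g2⟩ := prim (contDiff_const (c := (1 : ℝ)).mul hf) 0
  obtain ⟨g3, g4⟩ := prim (contDiff_const (c := (-1 : ℝ)).mul hf) 0
  obtain ⟨p1, p2⟩ := core hF hν hf hB hR (c := 1) (by simp) (i := 0) (j := 1) (by simp) inn
    (fun y e => by
      have := congrArg (fun x : Eu 2 => x 1) e
      simp [mt1] at this
      linarith) (fun x y r => by simp [S0_gam, mt0]; ring) g1 g2
  obtain ⟨q1, q2⟩ := core hF hν hf hB hR (c := -1) (by simp) (i := 1) (j := 0) (by simp)
    (fun x y => by rw [inn, add_comm]) (fun y e => by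
      have := congrArg (fun x : Eu 2 => x 0) e
      simp [mt0] at this
      linarith) (fun x y r => by simp [S0_gam, mt1]; ring) g3 g4
  rw [one_smul] at p1 p2
  rw [neg_one_smul, sub_neg_eq_add] at q1 q2
  obtain rfl | rfl := hς
  · rw [p1 (dec g1 g2 hΛ (a := a) (b := b) (fun t k => by simp [ha t k]) fun t k => by
      simp [hb t k]), q2 fun C => gro g4 hΛ (b := b) fun t k => by simp [hb t k]]
    rfl
  · rw [q1 (dec g3 g4 hΛ (a := -b) (b := -a) (fun t k => by simp [hb (-t) (by linarith)])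
      fun t k => by simp [ha (-t) (by linarith)]),
      p2 fun C => gro g2 hΛ (b := -a) fun t k => by simp [ha (-t) (by linarith)]]
    rfl

end Pool.Agent.Lib.WD
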