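import Pool.Agent.Lib.WD.Blue

/-! Block MAP: comparison of two packages. -/

noncomputable section

open Set Function BCO ContinuousLinearMap
open scoped InnerProductSpace

namespace Pool.Agent.Lib.WD

open CX AN

theorem MAP.amp_sh {G : Type} [Group G] {E F : Type} [NormedAddCommGroup E]
    [InnerProductSpace ℝ E] [CompleteSpace E] [NormedAddCommGroup F] [InnerProductSpace ℝ F]
    [CompleteSpace F] {n n' : ℕ} {A : Type} [Fintype A] (P : RQ.Pack G E n A)
    (Q : RQ.Pack G F n' A) (X : E →L[ℝ] F) (h : ∀ a g, X ∘L P.E a g = Q.E a g ∘L X) (a : A)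
    (g : G) (s : E) : amp G X (sh P a g s) = sh Q a g (X s) := by
  refine lp.ext (funext fun γ => ?_)
  have h1 : amp G X (sh P a g s) γ = X (sh P a g s γ) := rfl
  rw [h1, sh_apply, sh_apply]
  exact congrArg (fun T : E →L[ℝ] F => T s) (h a (γ * g⁻¹))

theorem stMAP (hT : St_TWX) : St_MAP := by
  intro G _ E F _ _ _ _ _ _ n n' A _ P Q α β γ hE hG R R' hR hR' η
  have hd := ((hT G E n A P).2.2.2 R hR).1 η
  let Φ : (V G E × V G E) →L[ℝ] V G F :=
    R' ∘L (amp G α ∘L ContinuousLinearMap.fst ℝ _ _ + amp G β ∘L ContinuousLinearMap.snd ℝ _ _) -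
      amp G γ ∘L ContinuousLinearMap.snd ℝ _ _
  have hΦ : ∀ q : V G E × V G E,
      Φ q = R' (amp G α q.1 + amp G β q.2) - amp G γ q.2 := fun q => rfl
  have hle : (Submodule.span ℝ {q : V G E × V G E | ∃ a g z,
      q = (sh P a g (can P a z).1, sh P a g (can P a z).2)}).topologicalClosure ≤
      LinearMap.ker Φ.toLinearMap := by
    refine Submodule.topologicalClosure_minimal _ (Submodule.span_le.2 ?_) Φ.isClosed_ker
    rintro q ⟨a, g, z, rfl⟩
    show Φ _ = 0
    rw [hΦ]
    simp only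
    rw [MAP.amp_sh P Q α (fun a g => (hE a g).1), MAP.amp_sh P Q β (fun a g => (hE a g).2.1),
      MAP.amp_sh P Q γ (fun a g => (hE a g).2.2), ← map_add, hR'.good a g _ _ (hG a z), sub_self]
  have h0 : Φ (η, R η) = 0 := hle hd
  rw [hΦ] at h0
  exact sub_eq_zero.1 h0

end Pool.Agent.Lib.WD
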