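import Pool.Agent.Lib.WD.SD2

/-! The algebraic properties of the coupling. -/

noncomputable section

open Set MeasureTheory BCO ContinuousLinearMap
open scoped Manifold ContDiff InnerProductSpace

namespace Pool.Agent.Lib.WD

open CX AN RQ.BRG SD2 MUL
open ANA.Cyl (ht)
open ANA.CylB (pull)

namespace SD1b

theorem adj {E F : Type} [NormedAddCommGroup E] [InnerProductSpace ℝ E] [CompleteSpace E]
    [NormedAddCommGroup F] [InnerProductSpace ℝ F] [CompleteSpace F] {X : F →L[ℝ] E}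
    {a : E →L[ℝ] E} {b : F →L[ℝ] F} (ha : star a = a) (hb : star b = b) (h : a ∘L X = X ∘L b) :
    adjoint X ∘L a = b ∘L adjoint X := by
  have := congrArg adjoint h
  rwa [adjoint_comp, adjoint_comp, ← star_eq_adjoint a, ← star_eq_adjoint b, ha, hb] at this

variable {G : Type} [Group G] {m N₁ N : ℕ} {D : CD G m N₁ N} (s : SD D)

/-- the region of the coupling -/
def Ok : Set (s.x.X.M × LN.M) := {z | ht s.x z.1 ≤ 3 / 4 ∧ D.R + 1 ≤ s.ς * tc z.2}

theorem bm_ok (hF : St_FLT) : Bm ((Ok s).indicator (1 : s.x.X.M × LN.M → ℝ)) :=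
  bm_ind ((measurableSet_le ((ANA.Cyl.continuous_ht s.x).measurable.comp measurable_fst)
    measurable_const).inter (measurableSet_le measurable_const
      (((cont_tc hF).const_mul _).measurable.comp measurable_snd)))

theorem ok_mul (hF : St_FLT) {χ : s.x.X.M × LN.M → ℝ} (hχ : Bm χ) (h : ∀ z, χ z ≠ 0 → z ∈ Ok s) :
    s.mu ((Ok s).indicator 1) * s.mu χ = s.mu χ := by
  rw [← ((stMUL _ (Eu N) (s.μ.prod D.ν)).mul_mul (bm_ok s hF) hχ).2]
  congr 1
  funext z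
  by_cases hz : z ∈ Ok s
  · rw [indicator_of_mem hz, Pi.one_apply, one_mul]
  · rw [indicator_of_notMem hz, zero_mul]
    exact (of_not_not fun e => hz (h z e)).symm

theorem cut (hF : St_FLT) (hS : St_SCAL) {g : D.w.X.M → ℝ} {f : s.x.X.M × LN.M → ℝ} (hg : Bm g)
    (hf : Bm f) (h : ∀ z ∈ Ok s, g (eψ s.x D.w s.ς s.α z) = f z) :
    mul (Eu N) D.ρ g ∘L (s.U ∘L s.mu ((Ok s).indicator 1)) =
      (s.U ∘L s.mu ((Ok s).indicator 1)) ∘L s.mu f := by
  have L := stMUL _ (Eu N) (s.μ.prod D.ν)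
  have b := s.tr.bm' g hg
  rw [← comp_assoc, s.tr.mul g _ hg b fun z hz => by rw [indicator_of_mem hz], comp_assoc,
    comp_assoc]
  congr 1
  refine ((L.mul_mul b (bm_ok s hF)).2.symm.trans ?_).trans (L.mul_mul (bm_ok s hF) hf).2
  congr 1
  funext z
  by_cases hz : z ∈ Ok s
  · rw [indicator_of_mem hz, indicator_of_mem (mem_O s hS hz.1 hz.2), h z hz, mul_comm]
  · rw [indicator_of_notMem hz, zero_mul, mul_zero]

theorem both (hF : St_FLT) (hS : St_SCAL) {g : D.w.X.M → ℝ} {f : s.x.X.M × LN.M → ℝ} (hg : Bm g)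
    (hf : Bm f) (h : ∀ z ∈ Ok s, g (eψ s.x D.w s.ς s.α z) = f z) {Y : s.H →L[ℝ] s.H}
    (h1 : s.mu ((Ok s).indicator 1) * Y = Y) (h2 : ∀ f, Bm f → Commute (s.mu f) Y) :
    (s.U ∘L Y) ∘L s.mu f = mul (Eu N) D.ρ g ∘L (s.U ∘L Y) ∧
      (Y ∘L adjoint s.U) ∘L mul (Eu N) D.ρ g = s.mu f ∘L (Y ∘L adjoint s.U) := by
  have L := stMUL _ (Eu N) (s.μ.prod D.ν)
  have c := cut s hF hS hg hf h
  have c' := adj (star_of ((stMUL _ (Eu N) D.ρ).mul_inner hg)) (star_of (L.mul_inner hf)) c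
  rw [adjoint_comp, ← star_eq_adjoint, star_of (L.mul_inner (bm_ok s hF))] at c'
  have e1 : ∀ v, s.mu ((Ok s).indicator 1) (Y v) = Y v := fun v => DFunLike.congr_fun h1 v
  have e2 : ∀ v, Y (s.mu ((Ok s).indicator 1) v) = Y v := fun v =>
    DFunLike.congr_fun ((h2 _ (bm_ok s hF)).symm.eq.trans h1) v
  have e3 : ∀ v, s.mu f (Y v) = Y (s.mu f v) := fun v => DFunLike.congr_fun (h2 f hf).eq v
  refine ⟨ContinuousLinearMap.ext fun v => ?_, ContinuousLinearMap.ext fun v => ?_⟩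
  · have := DFunLike.congr_fun c (Y v)
    simp only [comp_apply] at this ⊢
    rw [e1, e3, e1] at this
    exact this.symm
  · have := congrArg Y (DFunLike.congr_fun c' v)
    simp only [comp_apply] at this ⊢
    rw [e2, ← e3, e2] at this
    exact this

theorem itw (hF : St_FLT) (hS : St_SCAL) {Y : s.H →L[ℝ] s.H}
    (h1 : s.mu ((Ok s).indicator 1) * Y = Y) (h2 : ∀ f, Bm f → Commute (s.mu f) Y) :
    Itw s.Q D.P (s.U ∘L Y) ∧ Itw D.P s.Q (Y ∘L adjoint s.U) := by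
  have a1 := fun a : Fin (D.r + 1) => both s hF hS ((smb_holds _ _).bm (D.phi.sm a)).1
    (bm_comp ((smb_holds _ _).bm (s.phi.sm a)).1 measurable_fst)
    (fun z hz => s.compat a z.1 _ hz.1 (by
      have := hz.2
      change D.R ≤ (s.ς : ℝ) * tc z.2
      linarith)) h1 h2
  have a2 := fun (a : Fin (D.r + 1)) (g : G) => both s hF hS (bm_ef D.w a g)
    (bm_comp (bm_ef s.x a g) measurable_fst) (fun z hz => by
      have e : D.w.f (eψ s.x D.w s.ς s.α z) = s.x.f z.1 := by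
        rw [eψ, D.w.cyl _ _ (by
          have := hz.2
          change 1 ≤ (s.ς : ℝ) * tc z.2
          linarith [D.hR]), s.emb.f _ ((ANA.Cyl.mem_core_iff s.x).2 (by linarith [hz.1]))]
      have e' : eψ s.x D.w s.ς s.α z ∈ OO D.w a ↔ z.1 ∈ OO s.x a := by
        change (D.w.f _).t a ≠ 0 ↔ (s.x.f _).t a ≠ 0
        rw [e]
      rw [ef_apply, ef_apply]
      classical
      exact if_congr (by rw [e, e']) rfl rfl) h1 h2
  exact ⟨⟨fun a => by rw [s.prd.ph, D.geo.ph]; exact (a1 a).1,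
    fun a g => by rw [s.prd.E, D.geo.E]; exact (a2 a g).1⟩,
    ⟨fun a => by rw [s.prd.ph, D.geo.ph]; exact (a1 a).2,
    fun a g => by rw [s.prd.E, D.geo.E]; exact (a2 a g).2⟩⟩

end SD1b

open SD1b in
theorem stSD1b (_hT : St_TENS) (hF : St_FLT) (hS : St_SCAL) : St_SD1 := by
  intro G _ m N₁ N D s
  have L := stMUL _ (Eu N) (s.μ.prod D.ν)
  have W := stMUL _ (Eu N) D.ρ
  have g0 : ∀ t, (3 / 4 : ℝ) ≤ t → D.F.g t = 0 := fun t h => by
    simp [Fn.g, (D.F.hi t h).2.1, (D.F.hi t h).2.2.1]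
  have sg : ContDiff ℝ ∞ D.F.g :=
    D.F.smk.add (contDiff_const.mul ((contDiff_infty_iff_deriv.1 D.F.smΦ).2.pow 2))
  obtain ⟨g1, g2, -⟩ := sm_fx s hS sg (fun t h => by
    rw [Fn.g, Fn.g, (D.F.lo t h).2.1, (D.F.lo t h).2.2, (D.F.lo 0 (by norm_num)).2.2]) g0
  obtain ⟨a1, -, a3⟩ := sm_fx s hS D.F.smΦ (fun t h => (D.F.lo t h).1) fun t h => (D.F.hi t h).1
  have bg := bm_fx s sg.continuous g0
  have bγ := bm_fl s hF D.F.smγ.continuous fun t h => (D.F.supp t h).1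
  have bd : ∀ j, Bm fun z : s.x.X.M × LN.M => dv s.x.X j (s.fx D.F.Φ) z.1 := fun j =>
    bm_comp (((smb_holds _ s.x.X).bm a1).2 j) measurable_fst
  have bG := bm_mul bg bγ
  have bM := bm_mul (bm_const D.F.M) bγ
  have γ1 : ContMDiff (𝓡 1) 𝓘(ℝ, ℝ) ∞ (s.fl D.F.γ) :=
    (hF.sm fun t => D.F.γ (s.ς * t)).2 (D.F.smγ.comp (contDiff_const.mul contDiff_id))
  have γ2 : HasCompactSupport (s.fl D.F.γ) := (cpt_fl s hF).mono fun t ht e =>
    one_ne_zero ((D.F.one _ (subset_tsupport _ ht)).1.symm.trans e)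
  have oγ : ∀ t, s.fl D.F.γ t ≠ 0 → D.R + 1 ≤ s.ς * tc t := fun t ht =>
    le_of_not_ge fun h => ht (D.F.supp _ (.inl h)).1
  have og : ∀ p, s.fx D.F.g p ≠ 0 → ht s.x p ≤ 3 / 4 := fun p hp =>
    le_of_not_ge fun h => hp (g0 _ h)
  have od : ∀ j p, dv s.x.X j (s.fx D.F.Φ) p ≠ 0 → ht s.x p ≤ 3 / 4 := fun j p hp =>
    le_of_not_ge fun h => hp (by
      have e := a3 p
      rw [(D.F.hi _ h).2.2.1, zero_pow two_ne_zero,
        Finset.sum_eq_zero_iff_of_nonneg fun _ _ => sq_nonneg _] at e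
      exact pow_eq_zero_iff two_ne_zero |>.1 (e j (Finset.mem_univ j)))
  have cm : ∀ {f f'}, Bm f → Bm f' → Commute (s.mu f) (s.mu f') := fun h h' => mul_comm' L h h'
  have cc : ∀ f, Bm f → Commute (s.mu f) (s.cg (s.fx D.F.Φ)) := fun f hf =>
    Commute.sum_right _ _ _ fun j _ => (cm hf (bd j)).mul_right (L.mul_cst hf _)
  have i1 := (itw s hF hS (ok_mul s hF bG fun z hz =>
    ⟨og _ (left_ne_zero_of_mul hz), oγ _ (right_ne_zero_of_mul hz)⟩) fun f hf => cm hf bG).1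
  have i2 := (itw s hF hS (Y := s.mu (fun z => D.F.M * s.fl D.F.γ z.2) * s.cg (s.fx D.F.Φ)) (by
    rw [SD.cg, Finset.mul_sum, Finset.mul_sum]
    refine Finset.sum_congr rfl fun j _ => ?_
    rw [← mul_assoc (s.mu fun z => D.F.M * s.fl D.F.γ z.2), ← (L.mul_mul bM (bd j)).2, ← mul_assoc,
      ok_mul s hF (bm_mul bM (bd j)) fun z hz => ⟨od _ _ (right_ne_zero_of_mul hz),
        oγ _ (right_ne_zero_of_mul (left_ne_zero_of_mul hz))⟩])
    fun f hf => (cm hf bM).mul_right (cc f hf)).1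
  have bw := (grad_W s hF hS).1
  have pU : s.pr ∘L s.U = s.U := by
    rw [SD.pr, s.tr.mul _ _ (bm_ind s.tr.meas) (bm_const 1) fun z hz => by
      rw [indicator_of_mem (mem_image_of_mem _ hz), Pi.one_apply], mul_one' L]
    rfl
  have sw : ∀ {g g' : D.w.X.M → ℝ} {Z : s.H →L[ℝ] Lp (Eu N) 2 D.ρ} {a : s.H →L[ℝ] s.H}, Bm g →
      Bm g' → Z ∘L a = mul (Eu N) D.ρ g' ∘L Z → (mul (Eu N) D.ρ g ∘L Z) ∘L a =
        mul (Eu N) D.ρ g' ∘L (mul (Eu N) D.ρ g ∘L Z) := fun h h' e => by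
    rw [comp_assoc, e, ← comp_assoc, ← comp_assoc]
    exact congrArg (· ∘L _) (mul_comm' W h h')
  refine ⟨?_, i1, fun j => ⟨fun a => ?_, fun a g => ?_⟩, fun j => ?_, ?_, ?_, ?_, fun j => ?_⟩
  · rw [D.geo.w, s.prd.w, SD.Gm, ← comp_assoc,
      s.tr.cst _ _ fun z hz u => (s.pt.a.odd _ D.tau'.gw z hz u).symm, comp_assoc, comp_assoc]
    exact congrArg (s.U ∘L ·) (L.mul_cst bG _).symm
  · have e := i2.1 a
    rw [D.geo.ph] at e ⊢
    exact sw (bw j) ((smb_holds _ _).bm (D.phi.sm a)).1 e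
  · have e := i2.2 a g
    rw [D.geo.E] at e ⊢
    exact sw (bw j) (bm_ef D.w a g) e
  · induction j using Fin.lastCases with
    | last =>
      rw [SD.K', Fin.lastCases_last]
      exact ⟨fun a => by rw [zero_comp, comp_zero], fun a g => by rw [zero_comp, comp_zero]⟩
    | cast j =>
      rw [SD.K', Fin.lastCases_castSucc]
      have b := bm_neg (bm_mul bM (bd j))
      refine (itw s hF hS ?_ fun f hf => (cm hf b).mul_right (cc f hf)).2
      rw [← mul_assoc, ok_mul s hF b fun z hz => ⟨od _ _ (right_ne_zero_of_mul (neg_ne_zero.1 hz)),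
        oγ _ (right_ne_zero_of_mul (left_ne_zero_of_mul (neg_ne_zero.1 hz)))⟩]
  · have c1 : tsupport (s.fx D.F.g) ⊆ {p | ht s.x p ≤ 3 / 4} :=
      closure_minimal og (isClosed_le (ANA.Cyl.continuous_ht s.x) continuous_const)
    have c2 : tsupport (s.fl D.F.γ) ⊆ {t | D.R + 1 ≤ s.ς * tc t} :=
      closure_minimal oγ (isClosed_le continuous_const ((cont_tc hF).const_mul _))
    obtain ⟨-, d2, -⟩ := s.pt.f _ _ g1.sm γ1 g2 γ2 fun z hz => mem_O s hS (c1 hz.1) (c2 hz.2)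
    have bW := s.tr.bm _ bG
    have e := adj (star_of (W.mul_inner bW)) (star_of (L.mul_inner bG))
      (s.tr.mul _ _ bW bG fun z hz => ANA.CylB.pull_j s.emb.prod.2.1 _ _ hz)
    rw [SD.Gm, adjoint_comp, ← star_eq_adjoint, star_of (L.mul_inner bG), ← e]
    exact (D.cpt _ bW d2).clm_comp (adjoint s.U)
  · exact (s.prd.cpt _ _ ((smb_holds _ _).bm g1).1
      ((smb_holds _ _).bm ((smb_holds _ LN).of_cpt γ1 γ2)).1 g2 γ2).clm_comp s.U
  · rw [SD.Gm, ← comp_assoc, pU]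
  · rw [SD.K, ← comp_assoc, ← comp_assoc, ← comp_assoc]
    congr 1
    refine (congrArg (· ∘L s.U) (mul_comm' W (bm_ind s.tr.meas) (bw j))).trans ?_
    exact congrArg (_ ∘L ·) pU

end Pool.Agent.Lib.WD
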