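import Pool.Agent.Lib.WD.Main0
import Pool.Agent.Lib.WD.SD1b
import Pool.Agent.Lib.RQ.Main

/-! The index map is well defined on the Bott-localised bordism classes. -/

namespace Pool.Agent.Lib.WD

theorem bord_holds : St_BORD := bord_of (stSD1b stTENS stFLT stSCAL)

theorem wd_holds : St_WD := wd_of RQ.goal_holds RQ.stCLF bord_holds bott_holds bker_holds

end Pool.Agent.Lib.WD
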