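import Pool.Agent.Lib.WD.Blue

/-! The opposite package. -/

noncomputable section

open Set Function BCO ContinuousLinearMap
open scoped InnerProductSpace

namespace Pool.Agent.Lib.WD

open CX AN

section

variable {G : Type} [Group G] {E : Type} [NormedAddCommGroup E] [InnerProductSpace ℝ E]
  [CompleteSpace E] {n : ℕ} {A : Type} [Fintype A]

/-- the opposite package -/
def opp (P : RQ.Pack G E n A) : RQ.Pack G E n A :=
  { P with
    w := -P.w
    R := -P.R
    gam := fun j => -P.gam j
    N := fun j => -P.N j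
    mul_w := fun x hx => by rw [mul_neg, neg_mul, P.mul_w x hx]
    mul_gam := fun x hx j => by rw [mul_neg, neg_mul, P.mul_gam x hx]
    res := ⟨by rw [star_neg, P.res.w_sa], by rw [neg_mul_neg, P.res.w_sq],
      by rw [star_neg, P.res.sa], by simp only [neg_mul_neg, P.res.anti]⟩
    inj := fun x y h => P.inj (neg_injective h)
    gam_skew := fun j => by rw [star_neg, P.gam_skew]
    gam_cl := fun j k => by simp only [neg_mul_neg, P.gam_cl]
    comm := fun a b g => by
      obtain ⟨h1, h2⟩ := P.comm a b g
      refine ⟨?_, fun j => ?_⟩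
      · simp only [neg_mul, mul_neg, Finset.sum_neg_distrib, neg_neg]
        rw [← h1]
        abel
      · simp only [neg_mul, mul_neg, Finset.sum_neg_distrib, neg_neg]
        rw [h2 j]
        abel
    lich := fun η => by
      simpa only [neg_apply, map_neg, neg_neg, norm_neg] using P.lich η }

theorem opp_good (P : RQ.Pack G E n A) {a : A} {s' s : E} (h : (opp P).Good a s' s) :
    P.Good a s' (-s) := fun b g => by
  have h1 := h b g
  have h2 : (opp P).C b = -P.C b := by
    simp only [RQ.Pack.C, opp, neg_mul, Finset.sum_neg_distrib]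
  rw [h2] at h1
  have h3 : -P.R (P.E2 b a g (P.ph b s' + -P.C b s)) = P.E2 b a g (P.ph b s) := h1
  simp only [map_neg]
  rw [← h3, neg_neg]

theorem opp_tw (P : RQ.Pack G E n A) {R' : V G E →L[ℝ] V G E} (h : Tw P R') :
    Tw (opp P) (-R') where
  mem := neg_mem h.mem
  res := by
    have h1 : amp G (opp P).w = -amp G P.w := amp_neg P.w
    rw [h1]
    exact ⟨by rw [star_neg, h.res.esa], by rw [neg_mul_neg, h.res.esq],
      by rw [star_neg, h.res.sa], by simp only [neg_mul_neg, h.res.rel],
      fun x y e => h.res.inj (neg_injective e)⟩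
  good a g s' s hs := by
    have h1 := h.good a g s' (-s) (opp_good P hs)
    rw [map_neg] at h1
    have h2 : sh (opp P) a g = sh P a g := rfl
    rw [h2, neg_apply, h1, neg_neg]

end

theorem stNEG (h1 : St_IXN) (_h2 : St_TWX) (_h3 : St_MAP) : St_NEG := by
  intro G _ E _ _ _ n A _ P
  refine ⟨opp P, rfl, rfl, fun _ => rfl, rfl, rfl, fun T h η => ?_, ?_⟩
  · have h2 := h η
    have h3 : (opp P).R η = -P.R η := rfl
    have h4 : ∀ u, (opp P).w u = -P.w u := fun _ => rfl
    have h5 : ∀ j, (opp P).N j η = -P.N j η := fun _ => rfl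
    simpa only [h3, h4, h5, map_neg, neg_neg, norm_neg, inner_neg_neg] using h2
  · rintro z ⟨R', hR, hz⟩
    refine ⟨-R', opp_tw P hR, ?_⟩
    have h2 : amp G (opp P).w = -amp G P.w := amp_neg P.w
    rw [h2]
    exact (h1 G E P.w R' hR.mem hR.res z hz).1

end Pool.Agent.Lib.WD
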