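import Pool.Agent.Lib.WD.PTT
import Pool.Agent.Lib.ANA.CylX

/-! The product frames along a product embedding. -/

noncomputable section

open Manifold Set Topology Filter VectorField CliffordAlgebra
open scoped ContDiff

namespace Pool.Agent.Lib.WD

namespace PFR

open CX ANA.CylB
open ANA.Cyl (inc_apply covers_trans s_self starL)

variable {p q n : ℕ} (h : p + q = n)

theorem il_ne_ir (i : Fin p) (j : Fin q) : il h i ≠ ir h j := by
  intro e
  have h1 := congrArg Fin.val e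
  have := i.2
  simp [il, ir] at h1
  omega

theorem exists_ix (k : Fin n) : (∃ i, k = il h i) ∨ ∃ j, k = ir h j := by
  subst h
  refine Fin.addCases (fun i => Or.inl ⟨i, rfl⟩) (fun j => Or.inr ⟨j, rfl⟩) k

theorem inc_self {r : ℕ} (f : Fin r ↪ Fin n) (v : Eu r) (i : Fin r) : inc f v (f i) = v i := by
  rw [inc_apply]
  simp [f.injective.eq_iff]

theorem inc_off {r : ℕ} (f : Fin r ↪ Fin n) (v : Eu r) {k : Fin n} (hk : ∀ i, k ≠ f i) :
    inc f v k = 0 := by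
  rw [inc_apply]
  simp [hk]

theorem inc_bv {r : ℕ} (f : Fin r ↪ Fin n) (i : Fin r) : inc f (bv i) = bv (f i) := by
  change ∑ j, (bv i : Eu r) j • bv (f j) = _
  simp [bv]

/-- The splitting of Euclidean space. -/
def sp : (Eu p × Eu q) ≃L[ℝ] Eu n :=
  LinearEquiv.toContinuousLinearEquiv
    { toFun := fun v => inc (il h) v.1 + inc (ir h) v.2
      invFun := fun w => (WithLp.toLp 2 fun i => w (il h i), WithLp.toLp 2 fun j => w (ir h j))
      map_add' := fun u v => by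
        simp only [Prod.fst_add, Prod.snd_add, map_add]
        abel
      map_smul' := fun r v => by
        simp only [Prod.smul_fst, Prod.smul_snd, map_smul, smul_add, RingHom.id_apply]
      left_inv := fun v => by
        ext i
        · change inc (il h) v.1 (il h i) + inc (ir h) v.2 (il h i) = v.1 i
          rw [inc_self, inc_off _ _ (il_ne_ir h i), add_zero]
        · change inc (il h) v.1 (ir h i) + inc (ir h) v.2 (ir h i) = v.2 i
          rw [inc_self, inc_off _ _ fun j => (il_ne_ir h j i).symm, zero_add]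
      right_inv := fun w => by
        ext k
        change inc (il h) _ k + inc (ir h) _ k = w k
        rcases exists_ix h k with ⟨i, rfl⟩ | ⟨i, rfl⟩
        · rw [inc_self, inc_off _ _ (il_ne_ir h i), add_zero]
        · rw [inc_self, inc_off _ _ fun j => (il_ne_ir h j i).symm, zero_add] }

theorem sp_eq (v : Eu p × Eu q) : sp h v = inc (il h) v.1 + inc (ir h) v.2 := rfl

theorem sp_il (v : Eu p × Eu q) (i : Fin p) : sp h v (il h i) = v.1 i := by
  change inc (il h) v.1 (il h i) + inc (ir h) v.2 (il h i) = v.1 i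
  rw [inc_self, inc_off _ _ (il_ne_ir h i), add_zero]

theorem sp_ir (v : Eu p × Eu q) (i : Fin q) : sp h v (ir h i) = v.2 i := by
  change inc (il h) v.1 (ir h i) + inc (ir h) v.2 (ir h i) = v.2 i
  rw [inc_self, inc_off _ _ fun j => (il_ne_ir h j i).symm, zero_add]

theorem sp_symm_il (i : Fin p) : (sp h).symm (bv (il h i)) = (bv i, 0) := by
  rw [ContinuousLinearEquiv.symm_apply_eq, sp_eq, map_zero, add_zero, inc_bv]

theorem sp_symm_ir (i : Fin q) : (sp h).symm (bv (ir h i)) = (0, bv i) := by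
  rw [ContinuousLinearEquiv.symm_apply_eq, sp_eq, map_zero, zero_add, inc_bv]

/-- smoothness of a product in the Clifford algebra -/
theorem smc_mul {E H W : Type} [NormedAddCommGroup E] [NormedSpace ℝ E] [TopologicalSpace H]
    {I : ModelWithCorners ℝ E H} [TopologicalSpace W] [ChartedSpace H W] {s t : W → Cl n} {z : W}
    (hs : ∀ l : Cl n →ₗ[ℝ] ℝ, ContMDiffAt I 𝓘(ℝ, ℝ) ∞ (fun w => l (s w)) z)
    (ht : ∀ l : Cl n →ₗ[ℝ] ℝ, ContMDiffAt I 𝓘(ℝ, ℝ) ∞ (fun w => l (t w)) z) (l : Cl n →ₗ[ℝ] ℝ) :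
    ContMDiffAt I 𝓘(ℝ, ℝ) ∞ (fun w => l (s w * t w)) z := by
  classical
  let b := Module.finBasis ℝ (Cl n)
  have e : (fun w => l (s w * t w)) =
      fun w => ∑ i, b.coord i (s w) * (l ∘ₗ LinearMap.mulLeft ℝ (b i)) (t w) := by
    funext w
    conv_lhs => rw [← b.sum_repr (s w), Finset.sum_mul, map_sum]
    simp
  rw [e]
  exact contMDiffAt_finsetSum fun i _ => (hs _).mul (ht _)

variable {h} {X : SM p} {Y : SM q} {Z : SM n} {ψ : X.M × Y.M → Z.M} {O : Set (X.M × Y.M)}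
  (hP : IsProd h X Y Z ψ O)

include hP in
theorem loc {z : X.M × Y.M} (hz : z ∈ O) :
    IsLocalDiffeomorphAt ((𝓡 p).prod (𝓡 q)) (𝓡 n) ∞ ψ z := hP.1 ⟨z, hz⟩

/-- The lift of the derivative. -/
def T (c b : ℕ) (z : X.M × Y.M) : Cl n := hP.2.2.choose (b.unpair.1, b.unpair.2, c) z

open Classical in
/-- The product frame. -/
def Fz (b : ℕ) (z : X.M × Y.M) : Eu n ≃L[ℝ] Eu n :=
  if hz : z ∈ O then
    ((sp h).symm.trans (ContinuousLinearEquiv.prodCongr (X.F b.unpair.1 z.1 : Eu p ≃L[ℝ] Eu p)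
      (Y.F b.unpair.2 z.2 : Eu q ≃L[ℝ] Eu q))).trans
      ((loc hP hz).mfderivToContinuousLinearEquiv (by simp))
  else ContinuousLinearEquiv.refl ℝ _

theorem Fz_apply (b : ℕ) {z : X.M × Y.M} (hz : z ∈ O) (v : Eu n) :
    Fz hP b z v = mfderiv ((𝓡 p).prod (𝓡 q)) (𝓡 n) ψ z
      (pv (fun y => X.F b.unpair.1 y ((sp h).symm v).1)
        (fun y => Y.F b.unpair.2 y ((sp h).symm v).2) z) := by
  rw [Fz, dif_pos hz]; rfl

theorem Fz_symm (b : ℕ) {z : X.M × Y.M} (hz : z ∈ O) {v : Eu n} {w : Eu p × Eu q}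
    (hw : ((loc hP hz).mfderivToContinuousLinearEquiv (by simp)).symm v = w) :
    (Fz hP b z).symm v =
      sp h ((X.F b.unpair.1 z.1).symm w.1, (Y.F b.unpair.2 z.2).symm w.2) := by
  rw [Fz, dif_pos hz, ← hw]; rfl

variable (X Y O) in
/-- The domain of a product frame. -/
def dom (b : ℕ) : Set (X.M × Y.M) := {z ∈ O | z.1 ∈ X.U b.unpair.1 ∧ z.2 ∈ Y.U b.unpair.2}

variable (h X Y) in
/-- The cocycle of the product. -/
def ss (a b : ℕ) (z : X.M × Y.M) : Cl n :=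
  CliffordAlgebra.map (inc (il h)) (X.s a.unpair.1 b.unpair.1 z.1) *
    CliffordAlgebra.map (inc (ir h)) (Y.s a.unpair.2 b.unpair.2 z.2)

theorem ss_self {a : ℕ} {z : X.M × Y.M} (hz : z ∈ dom X Y O a) : ss h X Y a a z = 1 := by
  rw [ss, s_self _ hz.2.1, s_self _ hz.2.2, map_one, map_one, mul_one]

theorem T_smc (c b : ℕ) : SmC ((𝓡 p).prod (𝓡 q)) (T hP c b) {z ∈ dom X Y O b | ψ z ∈ Z.U c} :=
  fun l => (hP.2.2.choose_spec.1 (b.unpair.1, b.unpair.2, c) l).mono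
    fun _ hz => ⟨hz.1.1, hz.1.2.1, hz.1.2.2, hz.2⟩

theorem T_covers {c b : ℕ} {z : X.M × Y.M} (hz : z ∈ dom X Y O b) (hc : ψ z ∈ Z.U c) :
    Covers (T hP c b z) id fun v => (Z.F c (ψ z)).symm (Fz hP b z v) := by
  have h0 := hP.2.2.choose_spec.2.1 (b.unpair.1, b.unpair.2, c) z ⟨hz.1, hz.2.1, hz.2.2, hc⟩
  refine ⟨h0.1, fun v => ?_⟩
  have h1 := h0.2 ((sp h).symm v)
  simp only [← sp_eq, ContinuousLinearEquiv.apply_symm_apply] at h1
  exact (congrArg (fun w : Eu n => ι (Qn n) ((Z.F c (ψ z)).symm w) * T hP c b z)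
    (Fz_apply hP b hz.1 v)).trans h1

theorem T_compat {c c' b b' : ℕ} {z : X.M × Y.M} (hb : z ∈ dom X Y O b) (hb' : z ∈ dom X Y O b')
    (hc : ψ z ∈ Z.U c) (hc' : ψ z ∈ Z.U c') :
    Z.s c c' (ψ z) * T hP c' b' z = T hP c b z * ss h X Y b b' z :=
  hP.2.2.choose_spec.2.2 (b.unpair.1, b.unpair.2, c) (b'.unpair.1, b'.unpair.2, c') z
    ⟨⟨hb.1, hb.2.1, hb.2.2, hc⟩, ⟨hb'.1, hb'.2.1, hb'.2.2, hc'⟩⟩

variable (ψ O) in
/-- The domains of the frames. -/
def eU (a : ℕ) : Set Z.M := if a % 2 = 0 then Z.U (a / 2) else ψ '' dom X Y O (a / 2)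

/-- The frames. -/
def eF (a : ℕ) (y : Z.M) : Eu n ≃L[ℝ] TangentSpace (𝓡 n) y :=
  if a % 2 = 0 then Z.F (a / 2) y
  else pull ψ O (Fz hP (a / 2)) (ContinuousLinearEquiv.refl ℝ _) y

/-- The cocycle. -/
def es (a b : ℕ) : Z.M → Cl n :=
  if a % 2 = 0 then
    if b % 2 = 0 then Z.s (a / 2) (b / 2) else pull ψ O (T hP (a / 2) (b / 2)) 1
  else
    if b % 2 = 0 then pull ψ O (fun z => star (T hP (b / 2) (a / 2) z)) 1
    else pull ψ O (ss h X Y (a / 2) (b / 2)) 1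

theorem eU_even (a : ℕ) : eU ψ O (2 * a) = Z.U a := by simp [eU]

theorem eU_odd (b : ℕ) : eU ψ O (2 * b + 1) = ψ '' dom X Y O b := by
  have : (2 * b + 1) / 2 = b := by omega
  simp [eU, this]

theorem eF_even (a : ℕ) : eF hP (2 * a) = Z.F a := by funext p; simp [eF]

theorem eF_odd (b : ℕ) {z : X.M × Y.M} (hz : z ∈ O) : eF hP (2 * b + 1) (ψ z) = Fz hP b z := by
  have : (2 * b + 1) / 2 = b := by omega
  rw [eF, if_neg (by omega), this]
  exact pull_j hP.2.1 _ _ hz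

theorem es_ee (a b : ℕ) : es hP (2 * a) (2 * b) = Z.s a b := by simp [es]

theorem es_eo (a b : ℕ) : es hP (2 * a) (2 * b + 1) = pull ψ O (T hP a b) 1 := by
  have : (2 * b + 1) / 2 = b := by omega
  simp [es, this]

theorem es_oe (a b : ℕ) :
    es hP (2 * a + 1) (2 * b) = pull ψ O (fun z => star (T hP b a z)) 1 := by
  have : (2 * a + 1) / 2 = a := by omega
  simp [es, this]

theorem es_oo (a b : ℕ) : es hP (2 * a + 1) (2 * b + 1) = pull ψ O (ss h X Y a b) 1 := by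
  have h1 : (2 * a + 1) / 2 = a := by omega
  have h2 : (2 * b + 1) / 2 = b := by omega
  simp [es, h1, h2]

theorem isOpen_dom (hO : IsOpen O) (b : ℕ) : IsOpen (dom X Y O b) :=
  hO.inter (((X.isOpen _).preimage continuous_fst).inter ((Y.isOpen _).preimage continuous_snd))

include hP in
theorem isOpen_eU (hO : IsOpen O) (a : ℕ) : IsOpen (eU ψ O a) := by
  obtain ⟨a, rfl | rfl⟩ := Nat.even_or_odd' a
  · rw [eU_even]; exact Z.isOpen a
  · rw [eU_odd]; exact isOpen_image hP.1 (isOpen_dom hO a) fun _ h => h.1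

theorem es_covers {c a : ℕ} {y : Z.M} (hc : y ∈ Z.U c) (ha : y ∈ eU ψ O a) :
    Covers (es hP (2 * c) a y) id fun v => (Z.F c y).symm (eF hP a y v) := by
  obtain ⟨a, rfl | rfl⟩ := Nat.even_or_odd' a
  · rw [eU_even] at ha
    rw [es_ee, eF_even]
    exact Z.spin c a y ⟨hc, ha⟩
  · rw [eU_odd] at ha
    obtain ⟨z, hz, rfl⟩ := ha
    rw [es_eo, pull_j hP.2.1 _ _ hz.1, eF_odd hP a hz.1]
    exact T_covers hP hz hc

theorem es_fac {c a b : ℕ} {y : Z.M} (hc : y ∈ Z.U c) (ha : y ∈ eU ψ O a) (hb : y ∈ eU ψ O b) :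
    es hP a b y = star (es hP (2 * c) a y) * es hP (2 * c) b y := by
  have h0 := spinGroup.star_mul_self_of_mem (es_covers hP hc ha).1
  suffices h : es hP (2 * c) a y * es hP a b y = es hP (2 * c) b y by
    rw [← h, ← mul_assoc, h0, one_mul]
  obtain ⟨a, rfl | rfl⟩ := Nat.even_or_odd' a <;> obtain ⟨b, rfl | rfl⟩ := Nat.even_or_odd' b
  · rw [eU_even] at ha hb
    rw [es_ee, es_ee, es_ee]
    exact Z.cocycle c a b y ⟨⟨hc, ha⟩, hb⟩
  · rw [eU_even] at ha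
    rw [eU_odd] at hb
    obtain ⟨z, hz, rfl⟩ := hb
    rw [es_ee, es_eo, es_eo, pull_j hP.2.1 _ _ hz.1, pull_j hP.2.1 _ _ hz.1,
      T_compat hP hz hz hc ha, ss_self hz, mul_one]
  · rw [eU_even] at hb
    rw [eU_odd] at ha
    obtain ⟨z, hz, rfl⟩ := ha
    have h2 := T_compat hP hz hz hc hb
    rw [ss_self hz, mul_one] at h2
    rw [es_ee, es_eo, es_oe, pull_j hP.2.1 _ _ hz.1, pull_j hP.2.1 _ _ hz.1, ← h2, mul_assoc,
      spinGroup.mul_star_self_of_mem (T_covers hP hz hb).1, mul_one]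
  · rw [eU_odd] at ha hb
    obtain ⟨z, hz, rfl⟩ := ha
    obtain ⟨w, hw, hwz⟩ := hb
    obtain rfl : w = z := hP.2.1 hw.1 hz.1 hwz
    rw [es_eo, es_eo, es_oo, pull_j hP.2.1 _ _ hz.1, pull_j hP.2.1 _ _ hz.1,
      pull_j hP.2.1 _ _ hz.1, ← T_compat hP hz hw hc hc, s_self _ hc, one_mul]

theorem es_smc (hO : IsOpen O) (a b : ℕ) : SmC (𝓡 n) (es hP a b) (eU ψ O a ∩ eU ψ O b) := by
  have key : ∀ (c b : ℕ) (l : Cl n →ₗ[ℝ] ℝ) {z : X.M × Y.M}, z ∈ dom X Y O b →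
      ψ z ∈ Z.U c → ContMDiffAt ((𝓡 p).prod (𝓡 q)) 𝓘(ℝ, ℝ) ∞ (fun w => l (T hP c b w)) z :=
    fun c b l z hz hc => (T_smc hP c b l).contMDiffAt (by
      filter_upwards [(isOpen_dom hO b).mem_nhds hz,
        (loc hP hz.1).contMDiffAt.continuousAt ((Z.isOpen c).mem_nhds hc)] with w h1 h2
      exact ⟨h1, h2⟩)
  have fin : ∀ (u : X.M × Y.M → Cl n) (l : Cl n →ₗ[ℝ] ℝ) {z : X.M × Y.M},
      z ∈ O → ContMDiffAt ((𝓡 p).prod (𝓡 q)) 𝓘(ℝ, ℝ) ∞ (fun w => l (u w)) z →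
      ContMDiffAt (𝓡 n) 𝓘(ℝ, ℝ) ∞ (fun p => l (pull ψ O u 1 p)) (ψ z) :=
    fun u l z hz hu => contMDiffAt_of_comp (loc hP hz) (hu.congr_of_eventuallyEq
      ((pull_comp_ev hO hP.2.1 hz u 1).fun_comp l))
  obtain ⟨a, rfl | rfl⟩ := Nat.even_or_odd' a <;> obtain ⟨b, rfl | rfl⟩ := Nat.even_or_odd' b
  · rw [eU_even, eU_even, es_ee]
    exact Z.smc a b
  · rw [eU_even, eU_odd, es_eo]
    rintro l _ ⟨ha, z, hz, rfl⟩
    exact (fin _ l hz.1 (key a b l hz ha)).contMDiffWithinAt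
  · rw [eU_even, eU_odd, es_oe]
    rintro l _ ⟨⟨z, hz, rfl⟩, hb⟩
    exact (fin _ l hz.1 (key b a (l ∘ₗ starL _) hz hb)).contMDiffWithinAt
  · rw [eU_odd, eU_odd, es_oo]
    rintro l _ ⟨⟨z, hz, rfl⟩, w, hw, hwz⟩
    obtain rfl : w = z := hP.2.1 hw.1 hz.1 hwz
    refine (fin _ l hz.1 (smc_mul (fun l => ?_) (fun l => ?_) l)).contMDiffWithinAt
    · exact ((X.smc _ _ (l ∘ₗ (CliffordAlgebra.map (inc (il h))).toLinearMap)).contMDiffAt
        (((X.isOpen _).inter (X.isOpen _)).mem_nhds ⟨hz.2.1, hw.2.1⟩)).comp w contMDiffAt_fst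
    · exact ((Y.smc _ _ (l ∘ₗ (CliffordAlgebra.map (inc (ir h))).toLinearMap)).contMDiffAt
        (((Y.isOpen _).inter (Y.isOpen _)).mem_nhds ⟨hz.2.2, hw.2.2⟩)).comp w contMDiffAt_snd

theorem eF_smooth (hB : St_BRK) (hO : IsOpen O) (a : ℕ) (v : Eu n) :
    ContMDiffOn (𝓡 n) (𝓡 n).tangent ∞
      (fun y => (⟨y, eF hP a y v⟩ : TangentBundle (𝓡 n) Z.M)) (eU ψ O a) := by
  obtain ⟨a, rfl | rfl⟩ := Nat.even_or_odd' a
  · rw [eU_even, eF_even]
    exact Z.smooth a v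
  · rw [eU_odd]
    rintro _ ⟨z, hz, rfl⟩
    refine (contMDiffAt_push hO hP.1 hz.1 (hB p q X Y _ (fun _ => 0) _ (fun _ => 0) z
      ((X.smooth _ ((sp h).symm v).1).contMDiffAt ((X.isOpen _).mem_nhds hz.2.1))
      ((Y.smooth _ ((sp h).symm v).2).contMDiffAt ((Y.isOpen _).mem_nhds hz.2.2))).1
      fun w hw => ?_).contMDiffWithinAt
    rw [eF_odd hP a hw]
    exact Fz_apply hP a hw v

/-- The frames of `Z` together with the product frames. -/
def fm (hB : St_BRK) (hO : IsOpen O) : Fm Z where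
  U := eU ψ O
  F := eF hP
  s := es hP
  isOpen := isOpen_eU hP hO
  cover y := (Z.cover y).imp' (2 * ·) fun a ha => (eU_even (ψ := ψ) (O := O) a).symm ▸ ha
  smooth := eF_smooth hP hB hO
  spin a b y hy := by
    obtain ⟨c, hc⟩ := Z.cover y
    rw [es_fac hP hc hy.1 hy.2]
    refine covers_trans (es_covers hP hc hy.1) (es_covers hP hc hy.2) fun v => ?_
    rw [ContinuousLinearEquiv.apply_symm_apply]
  smc := es_smc hP hO
  cocycle a b c y hy := by
    obtain ⟨d, hd⟩ := Z.cover y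
    rw [es_fac hP hd hy.1.1 hy.1.2, es_fac hP hd hy.1.2 hy.2, es_fac hP hd hy.1.1 hy.2, mul_assoc,
      ← mul_assoc (es hP (2 * d) b y), spinGroup.mul_star_self_of_mem (es_covers hP hd hy.1.2).1,
      one_mul]

variable (hB : St_BRK) (hO : IsOpen O)

variable (h X) in
/-- The first component of a product vector field. -/
def V1 (b : ℕ) (i : Fin n) (y : X.M) : TangentSpace (𝓡 p) y := X.F b y ((sp h).symm (bv i)).1

variable (h Y) in
/-- The second component of a product vector field. -/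
def V2 (b : ℕ) (i : Fin n) (y : Y.M) : TangentSpace (𝓡 q) y := Y.F b y ((sp h).symm (bv i)).2

theorem V1_il (b : ℕ) (i : Fin p) : V1 h X b (il h i) = X.e b i := by
  funext y; rw [V1, sp_symm_il]; rfl

theorem V1_ir (b : ℕ) (i : Fin q) : V1 h X b (ir h i) = 0 := by
  funext y; rw [V1, sp_symm_ir]; exact map_zero _

theorem V2_il (b : ℕ) (i : Fin p) : V2 h Y b (il h i) = 0 := by
  funext y; rw [V2, sp_symm_il]; exact map_zero _

theorem V2_ir (b : ℕ) (i : Fin q) : V2 h Y b (ir h i) = Y.e b i := by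
  funext y; rw [V2, sp_symm_ir]; rfl

theorem e_odd (b : ℕ) (i : Fin n) {z : X.M × Y.M} (hz : z ∈ O) :
    (fm hP hB hO).sm.e (2 * b + 1) i (ψ z) = mfderiv ((𝓡 p).prod (𝓡 q)) (𝓡 n) ψ z
      (pv (V1 h X b.unpair.1 i) (V2 h Y b.unpair.2 i) z) :=
  (congrArg (fun F : Eu n ≃L[ℝ] Eu n => F (bv i)) (eF_odd hP b hz)).trans (Fz_apply hP b hz _)

theorem dd_odd {S : Type} [NormedAddCommGroup S] [NormedSpace ℝ S] (b : ℕ) (i : Fin n)
    (φ : Z.M → S) {z : X.M × Y.M} (hz : z ∈ O) :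
    (fm hP hB hO).sm.dd (2 * b + 1) i φ (ψ z) = mfderiv ((𝓡 p).prod (𝓡 q)) 𝓘(ℝ, S) (φ ∘ ψ) z
      ((V1 h X b.unpair.1 i z.1 : Eu p), (V2 h Y b.unpair.2 i z.2 : Eu q)) := by
  unfold SM.dd
  rw [e_odd hP hB hO b i hz]
  exact (mfderiv_comp_j (loc hP hz) φ _).symm

theorem cc_odd (b : ℕ) (i j k : Fin n) {z : X.M × Y.M} (hz : z ∈ dom X Y O b) :
    (fm hP hB hO).sm.cc (2 * b + 1) i j k (ψ z) =
      sp h ((X.F b.unpair.1 z.1).symm
        (mlieBracket (𝓡 p) (V1 h X b.unpair.1 i) (V1 h X b.unpair.1 j) z.1),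
        (Y.F b.unpair.2 z.2).symm
        (mlieBracket (𝓡 q) (V2 h Y b.unpair.2 i) (V2 h Y b.unpair.2 j) z.2)) k := by
  have i1 : IsManifold (𝓡 n) (minSmoothness ℝ 2) Z.M := by
    rw [minSmoothness_of_isRCLikeNormedField]; infer_instance
  have i2 : IsManifold ((𝓡 p).prod (𝓡 q)) (minSmoothness ℝ 2) (X.M × Y.M) := by
    rw [minSmoothness_of_isRCLikeNormedField]; infer_instance
  have hn : minSmoothness ℝ 2 ≤ (∞ : WithTop ℕ∞) := by
    rw [minSmoothness_of_isRCLikeNormedField]; exact WithTop.coe_le_coe.2 le_top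
  have hU : eU ψ O (2 * b + 1) ∈ 𝓝 (ψ z) :=
    (isOpen_eU hP hO _).mem_nhds (by rw [eU_odd]; exact ⟨z, hz, rfl⟩)
  have hd : ∀ i, MDifferentiableAt (𝓡 n) (𝓡 n).tangent
      (fun y => (⟨y, (fm hP hB hO).sm.e (2 * b + 1) i y⟩ : TangentBundle (𝓡 n) Z.M)) (ψ z) :=
    fun i => ((eF_smooth hP hB hO _ (bv i)).contMDiffAt hU).mdifferentiableAt (by simp)
  have k1 := mpullback_mlieBracket (hd i) (hd j) (loc hP hz.1).contMDiffAt hn
  have hev : ∀ i, mpullback ((𝓡 p).prod (𝓡 q)) (𝓡 n) ψ ((fm hP hB hO).sm.e (2 * b + 1) i) =ᶠ[𝓝 z]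
      pv (V1 h X b.unpair.1 i) (V2 h Y b.unpair.2 i) := fun i => by
    filter_upwards [hO.mem_nhds hz.1] with w hw
    rw [mpullback_apply, e_odd hP hB hO b i hw,
      ← (loc hP hw).mfderivToContinuousLinearEquiv_coe (by simp),
      ContinuousLinearMap.inverse_equiv]
    exact ((loc hP hw).mfderivToContinuousLinearEquiv (by simp)).symm_apply_apply _
  have s1 : ∀ i, ContMDiffAt (𝓡 p) (𝓡 p).tangent ∞
      (fun y => (⟨y, V1 h X b.unpair.1 i y⟩ : TangentBundle (𝓡 p) X.M)) z.1 := fun i =>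
    (X.smooth _ _).contMDiffAt ((X.isOpen _).mem_nhds hz.2.1)
  have s2 : ∀ i, ContMDiffAt (𝓡 q) (𝓡 q).tangent ∞
      (fun y => (⟨y, V2 h Y b.unpair.2 i y⟩ : TangentBundle (𝓡 q) Y.M)) z.2 := fun i =>
    (Y.smooth _ _).contMDiffAt ((Y.isOpen _).mem_nhds hz.2.2)
  rw [(hev i).mlieBracket_vectorField_eq (hev j),
    (hB p q X Y _ _ _ _ z (s1 i) (s2 i)).2 (s1 j) (s2 j), mpullback_apply,
    ← (loc hP hz.1).mfderivToContinuousLinearEquiv_coe (by simp),
    ContinuousLinearMap.inverse_equiv] at k1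
  have k2 := (congrArg (fun F : Eu n ≃L[ℝ] Eu n => F.symm
    (mlieBracket (𝓡 n) ((fm hP hB hO).sm.e (2 * b + 1) i) ((fm hP hB hO).sm.e (2 * b + 1) j)
      (ψ z)) k) (eF_odd hP b hz.1))
  refine k2.trans ?_
  have k3 := Fz_symm hP b hz.1
    (w := ((mlieBracket (𝓡 p) (V1 h X b.unpair.1 i) (V1 h X b.unpair.1 j) z.1 : Eu p),
      (mlieBracket (𝓡 q) (V2 h Y b.unpair.2 i) (V2 h Y b.unpair.2 j) z.2 : Eu q))) k1
  exact congrArg (fun w : Eu n => w k) k3

theorem api : FmApi h X Y ψ O (fm hP hB hO) where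
  U0 := eU_even
  F0 := eF_even hP
  s0 := es_ee hP
  U1 b c := by
    refine (eU_odd (Nat.pair b c)).trans ?_
    rw [dom, Nat.unpair_pair]
  F1 b c z hz v v' := by
    refine (congrArg (fun F : Eu n ≃L[ℝ] Eu n => F (sp h (v, v')))
      (eF_odd hP (Nat.pair b c) hz)).trans ((Fz_apply hP _ hz _).trans ?_)
    rw [Nat.unpair_pair, ContinuousLinearEquiv.symm_apply_apply]
    rfl
  s1 b c b' c' z hz := by
    refine (congrFun (es_oo hP (Nat.pair b c) (Nat.pair b' c')) _).trans ?_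
    rw [pull_j hP.2.1 _ _ hz, ss, Nat.unpair_pair, Nat.unpair_pair]
  ddl u b c i z hz := by
    refine (dd_odd hP hB hO (Nat.pair b c) _ u hz).trans ?_
    rw [Nat.unpair_pair, V1_il, V2_il]
    rfl
  ddr u b c i z hz := by
    refine (dd_odd hP hB hO (Nat.pair b c) _ u hz).trans ?_
    rw [Nat.unpair_pair, V1_ir, V2_ir]
    rfl
  cc b c i j k z hz hb hc := by
    refine (cc_odd hP hB hO (Nat.pair b c) _ _ _
      (show z ∈ dom X Y O (Nat.pair b c) by rw [dom, Nat.unpair_pair]; exact ⟨hz, hb, hc⟩)).trans ?_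
    rw [Nat.unpair_pair]
    rcases i with i | i <;> rcases j with j | j <;> rcases k with k | k <;>
      simp only [ix, Sum.elim_inl, Sum.elim_inr, sp_il, sp_ir, V1_il, V1_ir, V2_il, V2_ir,
        mlieBracket_zero_left, mlieBracket_zero_right, Pi.zero_apply, map_zero, blk3] <;> rfl

end PFR

theorem stPFR (hB : St_BRK) : St_PFR := fun _ _ _ _ _ _ _ _ _ hP hO =>
  ⟨PFR.fm hP hB hO, PFR.api hP hB hO⟩

end Pool.Agent.Lib.WD
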