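import Pool.Agent.Lib.WD.Blue

/-! Block PHIC: compatible partitions of unity. -/

noncomputable section

open Set Function Filter Topology
open scoped Manifold ContDiff

namespace Pool.Agent.Lib.WD

open CX AN
open ANA.Cyl (ht)

namespace PHIC

variable {G : Type} [Group G] {m : ℕ}

/-- a linear partition of unity, invariant along the far cylinder -/
structure Lin (x : Sing G m) (r : ℕ) (h : ℕ → x.X.M → ℝ) (g : ℕ → x.N.M → ℝ) : Prop where
  sm : ∀ a, ContMDiff (𝓡 (m + 1)) 𝓘(ℝ, ℝ) ∞ (h a)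
  smg : ∀ a, ContMDiff (𝓡 m) 𝓘(ℝ, ℝ) ∞ (g a)
  sub : ∀ a p, h a p ≠ 0 → p ∈ OO x a
  sum : ∀ p, ∑ a ∈ Finset.range (r + 1), h a p = 1
  sumg : ∀ y, ∑ a ∈ Finset.range (r + 1), g a y = 1
  cyl : ∀ a y (t : Eu 1), 3 ≤ t 0 → h a (x.j (y, t)) = g a y

theorem lin_exists (x : Sing G m) (r : ℕ) (hr : ∀ p, ∃ a < r + 1, p ∈ OO x a) :
    ∃ h g, Lin x r h g := by
  have := x.cpt
  have hE := stEXT G m x
  have hC := stCOC G m x
  have hb : (bv 0 : Eu 1) 0 = 1 := by simp [bv]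
  have hj : Continuous fun y => x.j (y, bv 0) :=
    x.continuousOn_j.comp_continuous (by fun_prop) fun y => show 0 < (bv 0 : Eu 1) 0 by
      rw [hb]; exact one_pos
  obtain ⟨θ, θ1, θ2, θ3⟩ := PHI.part x.X (r + 1) (OO x) hC.isOpen hr
  obtain ⟨g, g1, g2, g3⟩ := PHI.part x.N (r + 1) (fun a => (fun y => x.j (y, bv 0)) ⁻¹' OO x a)
    (fun a => (hC.isOpen a).preimage hj) fun y => hr _
  have hη : ContDiff ℝ ∞ fun t : ℝ => Real.smoothTransition (t - 2) :=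
    Real.smoothTransition.contDiff.comp (contDiff_id.sub contDiff_const)
  have hη0 : ∀ t ≤ (2 : ℝ), Real.smoothTransition (t - 2) = 0 := fun t ht =>
    Real.smoothTransition.zero_of_nonpos (sub_nonpos.2 ht)
  choose ψ ψ1 ψ2 ψ3 using fun a => hE.ext (g a) _ (g1 a) hη 2 two_pos hη0
  obtain ⟨ρ, ρ1, ρ2, ρ3⟩ := hE.ext (fun _ => 1) _ contMDiff_const hη 2 two_pos hη0
  refine ⟨fun a p => (1 - ρ p) * θ a p + ψ a p, g,
    fun a => ((contMDiff_const.sub ρ1).mul (θ1 a)).add (ψ1 a), g1, fun a p hp => ?_,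
    fun p => ?_, g3, fun a y t ht => ?_⟩
  · by_contra hn
    refine hp ?_
    have e1 : θ a p = 0 := by_contra fun e => hn (θ2 a p e)
    have e2 : ψ a p = 0 := by
      by_cases hp' : p ∈ x.j '' {z | 2 ≤ z.2 0}
      · obtain ⟨⟨y, t⟩, ht, rfl⟩ := hp'
        have ht' : (2 : ℝ) ≤ t 0 := ht
        rw [ψ2 a y t (by linarith)]
        refine mul_eq_zero_of_right _ (by_contra fun e => hn ?_)
        have e3 := g2 a y e
        simp only [OO, mem_preimage, mem_ofPred_eq] at e3 ⊢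
        rwa [x.cyl y t (by linarith)]
      · exact ψ3 a p hp'
    simp only [e1, e2, mul_zero, add_zero]
  · have e : ∑ a ∈ Finset.range (r + 1), ψ a p = ρ p := by
      by_cases hp' : p ∈ x.j '' {z | 2 ≤ z.2 0}
      · obtain ⟨⟨y, t⟩, ht, rfl⟩ := hp'
        have ht' : (0 : ℝ) < t 0 := two_pos.trans_le ht
        simp only [ψ2 _ y t ht', ρ2 y t ht', ← Finset.mul_sum, g3]
      · simp only [ψ3 _ p hp', ρ3 p hp', Finset.sum_const_zero]
    simp only [Finset.sum_add_distrib, ← Finset.mul_sum, θ3, e]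
    ring
  · have e : Real.smoothTransition (t 0 - 2) = 1 :=
      Real.smoothTransition.one_of_one_le (by linarith)
    simp only [ψ2 _ y t (by linarith), ρ2 y t (by linarith), e, mul_one, sub_self, zero_mul,
      zero_add, one_mul]

theorem Lin.phi {x : Sing G m} {r : ℕ} {h : ℕ → x.X.M → ℝ} {g : ℕ → x.N.M → ℝ}
    (L : Lin x r h g) : Phi x r fun a p => PHI.nm (r + 1) (fun b => h b p) a := by
  have := x.cpt
  refine ⟨fun a => ?_, fun a => (PHI.nm_supp x.X (L.sm a).continuous).trans (L.sub a), fun p => by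
    rw [← PHI.nm_sq (L.sum p), Finset.sum_range]⟩
  refine (cyl_holds G m x).pull _ _ (PHI.nm_smooth x.X L.sm L.sum a)
    (PHI.nm_smooth x.N L.smg L.sumg a) 3 three_pos fun y t ht => ?_
  simp only [L.cyl _ y t ht]

theorem Lin.glue {x : Sing G m} {r : ℕ} {h : ℕ → x.X.M → ℝ} {g : ℕ → x.N.M → ℝ}
    (L : Lin x r h g) (k : ℕ → x.X.M → ℝ)
    (k1 : ∀ a p, ht x p ≤ 1 → ContMDiffAt (𝓡 (m + 1)) 𝓘(ℝ, ℝ) ∞ (k a) p)
    (k2 : ∀ a p, ht x p ≤ 1 → k a p ≠ 0 → p ∈ OO x a)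
    (k3 : ∀ p, ∑ a ∈ Finset.range (r + 1), k a p = 1) :
    ∃ h', Lin x r h' g ∧ ∀ a p, ht x p ≤ 3 / 4 → h' a p = k a p := by
  have hη : ContDiff ℝ ∞ fun t : ℝ => Real.smoothTransition (7 - 8 * t) :=
    Real.smoothTransition.contDiff.comp (contDiff_const.sub (contDiff_const.mul contDiff_id))
  have η1 : ∀ t ≤ (3 / 4 : ℝ), Real.smoothTransition (7 - 8 * t) = 1 := fun t ht =>
    Real.smoothTransition.one_of_one_le (by linarith)
  have η0 : ∀ t, (7 / 8 : ℝ) ≤ t → Real.smoothTransition (7 - 8 * t) = 0 := fun t ht =>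
    Real.smoothTransition.zero_of_nonpos (by linarith)
  have hχ : ContMDiff (𝓡 (m + 1)) 𝓘(ℝ, ℝ) ∞ fun p => Real.smoothTransition (7 - 8 * ht x p) :=
    ANA.Cyl.contMDiff_comp_ht x hη (s := 3 / 4) (by norm_num) fun t ht => by
      rw [η1 t ht.le, η1 0 (by norm_num)]
  refine ⟨fun a p => Real.smoothTransition (7 - 8 * ht x p) * k a p +
    (1 - Real.smoothTransition (7 - 8 * ht x p)) * h a p,
    ⟨fun a => ContMDiff.add (fun p => ?_) ((contMDiff_const.sub hχ).mul (L.sm a)), L.smg,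
      fun a p hp => ?_, fun p => ?_, L.sumg, fun a y t h3 => ?_⟩, fun a p hp => ?_⟩
  · rcases le_or_gt (ht x p) 1 with h1 | h1
    · exact (hχ p).mul (k1 a p h1)
    · refine (contMDiffAt_const (c := (0 : ℝ))).congr_of_eventuallyEq ?_
      filter_upwards [(isOpen_lt continuous_const (ANA.Cyl.continuous_ht x)).mem_nhds h1] with q hq
      have hq' : 1 < ht x q := hq
      rw [η0 _ (by linarith), zero_mul]
  · by_contra hn
    refine hp ?_
    have e1 : h a p = 0 := by_contra fun e => hn (L.sub a p e)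
    rcases le_or_gt (ht x p) 1 with h1 | h1
    · have e2 : k a p = 0 := by_contra fun e => hn (k2 a p h1 e)
      simp only [e1, e2, mul_zero, add_zero]
    · simp only [e1, η0 _ (by linarith : 7 / 8 ≤ ht x p), mul_zero, zero_mul, add_zero]
  · simp only [Finset.sum_add_distrib, ← Finset.mul_sum, k3, L.sum]
    ring
  · have e : ht x (x.j (y, t)) = t 0 := ANA.Cyl.ht_j x (z := (y, t)) (show 0 < t 0 by linarith)
    simp only [e, η0 _ (by linarith : 7 / 8 ≤ t 0), L.cyl a y t h3, zero_mul, sub_zero, one_mul,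
      zero_add]
  · simp only [η1 _ hp, one_mul, sub_self, zero_mul, add_zero]

theorem Lin.emb {w : Sing G (m + 1)} {x : Sing G m} {ς : ℤ} {α : x.X.M → w.N.M}
    (e : Emb x w ς α) {r : ℕ} {h : ℕ → w.X.M → ℝ} {g : ℕ → w.N.M → ℝ} (L : Lin w r h g)
    (hr : ∀ p, ∃ a < r + 1, p ∈ OO x a) :
    ∃ φ, Phi x r φ ∧ ∀ a p (t : Eu 1), ht x p ≤ 3 / 4 → 3 ≤ t 0 →
      PHI.nm (r + 1) (fun b => h b (w.j (α p, t))) a = φ a p := by
  obtain ⟨hx, gx, Lx⟩ := lin_exists x r hr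
  have hb : (bv 0 : Eu 1) 0 = 1 := by simp [bv]
  have hs : (ς : ℝ) * ς = 1 := by rcases e.sg with h | h <;> simp [h]
  let t₀ : LN.M := ((ς : ℝ) • (3 : ℝ) • bv 0 : Eu 1)
  have h0 : (ς : ℝ) • co t₀ = (3 : ℝ) • bv 0 := by
    change (ς : ℝ) • (ς : ℝ) • (3 : ℝ) • (bv 0 : Eu 1) = _
    rw [smul_smul, hs, one_smul]
  have h3 : (3 : ℝ) ≤ ((3 : ℝ) • bv 0 : Eu 1) 0 := by simp [hb]
  have hk : ∀ a p, h a (eψ x w ς α (p, t₀)) = g a (α p) := fun a p => by
    simp only [eψ, h0]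
    exact L.cyl a _ _ h3
  have k1 : ∀ a p, ht x p ≤ 1 →
      ContMDiffAt (𝓡 (m + 1)) 𝓘(ℝ, ℝ) ∞ (fun p => g a (α p)) p := fun a p hp => by
    have hz : (p, t₀) ∈ eO x ς := by
      refine ⟨fun hq => ?_, ?_⟩
      · have := (ANA.Cyl.le_ht_iff x two_pos).2 hq
        linarith
      · have : (ς : ℝ) * tc t₀ = ((ς : ℝ) • co t₀) 0 := rfl
        change 0 < (ς : ℝ) * tc t₀
        rw [this, h0]
        linarith
    simp only [← hk]
    have h1 : ContMDiffAt (𝓡 (m + 1)) ((𝓡 (m + 1)).prod (𝓡 1)) ∞ (fun q : x.X.M => (q, t₀)) p :=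
      contMDiffAt_id.prodMk contMDiffAt_const
    have h2 := ContMDiffAt.comp (f := fun q : x.X.M => (q, t₀)) p
      (e.prod.1 ⟨_, hz⟩).contMDiffAt h1
    exact (L.sm a _).comp p h2
  have k2 : ∀ a p, ht x p ≤ 1 → g a (α p) ≠ 0 → p ∈ OO x a := fun a p hp hn => by
    rw [← hk] at hn
    have e3 := L.sub a _ hn
    simp only [OO, eψ, h0, mem_ofPred_eq] at e3 ⊢
    rwa [w.cyl _ _ (by linarith), e.f p ((ANA.Cyl.mem_core_iff x).2 hp)] at e3
  obtain ⟨h', L', c⟩ := Lx.glue (fun a p => g a (α p)) k1 k2 fun p => L.sumg _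
  refine ⟨_, L'.phi, fun a p t hp ht => ?_⟩
  simp only [c _ p hp, L.cyl _ _ t ht]

theorem top (x : Sing G m) : ∃ r₀, ∀ r, r₀ ≤ r → Top x r ∧ ∀ p, ∃ a < r + 1, p ∈ OO x a := by
  obtain ⟨r₀, -, h1, h2, -⟩ := (stCOC G m x).fin
  exact ⟨r₀, fun r hr => ⟨fun a ha => h2 a (by omega), fun p =>
    let ⟨a, ha, h⟩ := h1 p
    ⟨a, by omega, h⟩⟩⟩

end PHIC

open PHIC in
theorem stPHIC : St_PHIC := by
  intro G _ m
  refine ⟨fun x => ?_, fun w x y ς ς' α β ex ey => ?_⟩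
  · obtain ⟨r₀, h⟩ := top x
    refine ⟨r₀, fun r hr => ⟨(h r hr).1, ?_⟩⟩
    obtain ⟨hx, gx, L⟩ := lin_exists x r (h r hr).2
    exact ⟨_, L.phi⟩
  · obtain ⟨a, ha⟩ := top w
    obtain ⟨b, hb⟩ := top x
    obtain ⟨c, hc⟩ := top y
    obtain ⟨h, g, L⟩ := lin_exists w (a + b + c) (ha _ (by omega)).2
    obtain ⟨φx, p1, p2⟩ := L.emb ex (hb _ (by omega)).2
    obtain ⟨φy, q1, q2⟩ := L.emb ey (hc _ (by omega)).2
    exact ⟨a + b + c, 3, _, φx, φy, by norm_num, L.phi, p1, q1, (hb _ (by omega)).1,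
      (hc _ (by omega)).1, p2, q2⟩

end Pool.Agent.Lib.WD
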