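import Pool.Agent.Lib.WD.Blue

/-! PIX: the index of a product. -/

set_option linter.unusedSectionVars false

noncomputable section

open Set Function BCO ContinuousLinearMap
open scoped InnerProductSpace

namespace Pool.Agent.Lib.WD

open CX

namespace PIX

variable {G : Type} [Group G] {E F H : Type} [NormedAddCommGroup E] [InnerProductSpace ℝ E]
  [CompleteSpace E] [NormedAddCommGroup F] [InnerProductSpace ℝ F] [CompleteSpace F]
  [NormedAddCommGroup H] [InnerProductSpace ℝ H] [CompleteSpace H]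

theorem inj_of_dense {T : H →L[ℝ] H} (h : star T = T) (hd : DenseRange T) : Injective T := by
  rw [injective_iff_map_eq_zero]
  intro u hu
  have : ∀ v, ⟪u, v⟫_ℝ = 0 := fun v => hd.induction_on (p := fun v => ⟪u, v⟫_ℝ = 0) v
    (isClosed_eq (by fun_prop) continuous_const) fun w => by
      rw [← inner_sa h, hu, inner_zero_left]
  exact inner_self_eq_zero.1 (this u)

theorem res_lt {b : E →L[ℝ] F →L[ℝ] H} (hb : TensApi b) {e R : E →L[ℝ] E} (h : Res e R) :
    Res (lt b e) (lt b R) := by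
  obtain ⟨φ, hφ⟩ := hb.hom
  have sa : star (lt b R) = lt b R := by rw [← hφ, ← map_star, h.sa]
  refine ⟨by rw [← hφ, ← map_star, h.esa], by rw [← hφ, ← map_mul, h.esq, map_one], sa,
    by simp only [← hφ, ← map_mul, ← map_add, h.rel], inj_of_dense sa ?_⟩
  refine (hb.dense _ _ h.dense dense_univ).mono ?_
  have : Submodule.span ℝ {v | ∃ x ∈ range R, ∃ y ∈ univ, v = b x y} ≤
      LinearMap.range (lt b R).toLinearMap := Submodule.span_le.2 (by
    rintro _ ⟨_, ⟨x, rfl⟩, y, -, rfl⟩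
    exact ⟨b x y, hb.lt_b R x y⟩)
  exact fun v hv => this hv

/-- the rank one projection -/
def rk (k : F) : F →L[ℝ] F := (innerSL ℝ k).smulRight k

theorem rk_apply (k y : F) : rk k y = ⟪k, y⟫_ℝ • k := rfl

theorem adj_b {b : E →L[ℝ] F →L[ℝ] H} (hb : Tens b) (k : F) (x : E) (y : F) :
    adjoint (b.flip k) (b x y) = ⟪k, y⟫_ℝ • x := by
  refine ext_inner_right ℝ fun x' => ?_
  rw [adjoint_inner_left, flip_apply, hb.inner, real_inner_smul_left, real_inner_comm k y,
    _root_.mul_comm]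

theorem rk_comm {T : F →L[ℝ] F} (h : star T = T) {k : F} {s : ℝ} (hk : T k = s • k) :
    rk k * T = T * rk k := by
  ext y
  rw [mul_apply_eq_comp, mul_apply_eq_comp, rk_apply, rk_apply, ← inner_sa h, hk,
    real_inner_smul_left, map_smul, hk, smul_smul, _root_.mul_comm]

theorem ng_comm {W Q : H →L[ℝ] H} (h : Commute Q W) : Commute Q (ng W) :=
  ((Commute.one_right Q).sub_right h).smul_right _

section
variable (hC : St_IXC) {P N : V G H →L[ℝ] V G H} (hP : P ∈ RA G H) (hN : N ∈ RA G H)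
  (PP : P * P = P) (NN : N * N = N)
include hC hP hN PP NN

/-- idempotents of the algebra that commute with `P` and `N` -/
structure Cut (P N π : V G H →L[ℝ] V G H) : Prop where
  mem : π ∈ RA G H
  idem : π * π = π
  cP : Commute π P
  cN : Commute π N

theorem osum {π π' : V G H →L[ℝ] V G H} (h : Cut P N π) (h' : Cut P N π') (o : π * π' = 0)
    (o' : π' * π = 0) {z z'} (a : IsInd (P * π) (N * π) z) (a' : IsInd (P * π') (N * π') z') :
    IsInd (P * (π + π')) (N * (π + π')) (z + z') := by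
  have k : ∀ {X Y σ τ : V G H →L[ℝ] V G H}, Commute σ Y → X * σ * (Y * τ) = X * Y * (σ * τ) :=
    fun {X Y σ τ} c => by rw [mul_assoc, ← mul_assoc σ, c.eq, mul_assoc, mul_assoc]
  rw [mul_add, mul_add]
  refine (hC G H H).2.1 _ (mul_mem hP h.mem) _ (mul_mem hN h.mem) _ (mul_mem hP h'.mem) _
    (mul_mem hN h'.mem) ?_ ?_ ?_ ?_ ?_ ?_ ?_ ?_ ?_ ?_ _ _ a a'
  · rw [k h.cP, PP, h.idem]
  · rw [k h.cN, NN, h.idem]
  · rw [k h'.cP, PP, h'.idem]
  · rw [k h'.cN, NN, h'.idem]
  · rw [k h.cP, o, mul_zero]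
  · rw [k h'.cP, o', mul_zero]
  · rw [k h.cN, o, mul_zero]
  · rw [k h'.cN, o', mul_zero]
  · rw [k h.cP, o, mul_zero]
  · rw [k h'.cP, o', mul_zero]

theorem fsum {ι : Type} {π : ι → V G H →L[ℝ] V G H} (h : ∀ i, Cut P N (π i))
    (o : ∀ i j, i ≠ j → π i * π j = 0) {z : ι → BCH.K0 (Cr G)}
    (a : ∀ i, IsInd (P * π i) (N * π i) (z i)) (s : Finset ι) : Cut P N (∑ i ∈ s, π i) ∧
      IsInd (P * ∑ i ∈ s, π i) (N * ∑ i ∈ s, π i) (∑ i ∈ s, z i) := by
  classical
  induction s using Finset.induction_on with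
  | empty =>
    simp only [Finset.sum_empty, mul_zero]
    exact ⟨⟨zero_mem _, mul_zero _, Commute.zero_left _, Commute.zero_left _⟩,
      (hC G H H).2.2.1 0 (zero_mem _) 0 (zero_mem _) (mul_zero _) (mul_zero _)
        (by rw [sub_zero, opNorm_zero]; exact one_pos)⟩
  | insert i s hi ih =>
    have o1 : π i * ∑ j ∈ s, π j = 0 := by
      rw [Finset.mul_sum]
      exact Finset.sum_eq_zero fun j hj => o i j fun e => hi (e ▸ hj)
    have o2 : (∑ j ∈ s, π j) * π i = 0 := by
      rw [Finset.sum_mul]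
      exact Finset.sum_eq_zero fun j hj => o j i fun e => hi (e ▸ hj)
    rw [Finset.sum_insert hi, Finset.sum_insert hi]
    refine ⟨⟨add_mem (h i).mem ih.1.mem, ?_, (h i).cP.add_left ih.1.cP, (h i).cN.add_left ih.1.cN⟩,
      osum hC hP hN PP NN (h i) ih.1 o1 o2 (a i) ih.2⟩
    rw [add_mul, mul_add, mul_add, (h i).idem, ih.1.idem, o1, o2, add_zero, zero_add]

/-- removing a part on which `P` and `N` are close -/
theorem rest {π : V G H →L[ℝ] V G H} (h : Cut P N π) (c : ‖(P - N) * (1 - π)‖ < 1) {z}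
    (a : IsInd (P * π) (N * π) z) : IsInd P N z := by
  have o : π * (1 - π) = 0 := by rw [mul_sub, mul_one, h.idem, sub_self]
  have o' : (1 - π) * π = 0 := by rw [sub_mul, one_mul, h.idem, sub_self]
  have h' : Cut P N (1 - π) := ⟨sub_mem (one_mem _) h.mem, by rw [mul_sub, mul_one, o', sub_zero],
    (Commute.one_left _).sub_left h.cP, (Commute.one_left _).sub_left h.cN⟩
  have k : ∀ {X : V G H →L[ℝ] V G H}, X * X = X → Commute (1 - π) X →
      X * (1 - π) * (X * (1 - π)) = X * (1 - π) := fun {X} XX c => by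
    rw [mul_assoc, ← mul_assoc (1 - π), c.eq, mul_assoc, h'.idem, ← mul_assoc, XX]
  have := osum hC hP hN PP NN h h' o o' a ((hC G H H).2.2.1 _ (mul_mem hP h'.mem) _
    (mul_mem hN h'.mem) (k PP h'.cP) (k NN h'.cN) (by rwa [← sub_mul]))
  rwa [add_sub_cancel, mul_one, mul_one, add_zero] at this

end

/-- one kernel vector -/
theorem one (hC : St_IXC) {b : E →L[ℝ] F →L[ℝ] H} (hb : Tens b) (api : TensApi (lf G b)) {k : F}
    (hk : ⟪k, k⟫_ℝ = 1) {ε S : V G E →L[ℝ] V G E} (hε : ε ∈ RA G E) (hS : S ∈ RA G E)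
    (h : Res ε S) {W R : V G H →L[ℝ] V G H} (hW : ∀ η, W (lf G b η k) = lf G b (ε η) k)
    (hR : ∀ η, R (lf G b η k) = lf G b (S η) k) {z} (a : Ix ε S z) :
    IsInd ((ng W + R) * rt (lf G b) (rk k)) (ng W * rt (lf G b) (rk k)) z := by
  have hn := (alg G E).ng_mem hε
  have := (hC G E H).1 (b.flip k) (adjoint (b.flip k)) (by
    ext x
    rw [ContinuousLinearMap.comp_apply, flip_apply, adj_b hb, hk, one_smul, one_apply_eq_self]) _ (add_mem hn hS) _ hn
    h.idem (ng_idem h.esq) z a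
  have p : ∀ η y, amp G (adjoint (b.flip k)) (lf G b η y) = ⟪k, y⟫_ℝ • η := fun η y =>
    lp.ext (funext fun γ => adj_b hb k (η γ) y)
  have j : ∀ η, amp G (b.flip k) η = lf G b η k := fun η => rfl
  have n : ∀ η, ng W (lf G b η k) = lf G b (ng ε η) k := fun η => by
    simp only [ng, _root_.smul_apply, sub_apply, one_apply_eq_self, hW, map_smul, map_sub]
  convert this using 1 <;> refine api.ext _ _ fun η y => ?_
  · rw [mul_apply_eq_comp, api.rt_b, rk_apply, ContinuousLinearMap.comp_apply,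
      ContinuousLinearMap.comp_apply, p, j]
    simp only [map_smul, add_apply, n, hR, map_add, _root_.smul_apply]
  · rw [mul_apply_eq_comp, api.rt_b, rk_apply, ContinuousLinearMap.comp_apply,
      ContinuousLinearMap.comp_apply, p, j]
    simp only [map_smul, n, _root_.smul_apply]

end PIX

open PIX in
theorem stPIX (hC : St_IXC) (hX : St_IXN) (hT : St_TENS) (hL : St_TENL) : St_PIX := by
  intro G _ E F H _ _ _ _ _ _ _ _ _ b hb e d B m hB ⟨p, q, k, θ, onk, kp, kn, θ0, θ1, gap, hm⟩ R hR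
    hres R' hR' z hz
  obtain ⟨tb, mA, le, rS⟩ := hL G E F H b hb
  have api := hT _ _ _ _ tb
  have apf := hT _ _ _ _ tb.flip
  obtain ⟨ψ, hψ⟩ := apf.hom
  replace hψ : ∀ T, ψ T = rt (lf G b) T := hψ
  have pr : Pair (lt (lf G b) (amp G e)) (lt (lf G b) R) (rt (lf G b) d) (rt (lf G b) B) :=
    ⟨res_lt api hres, res_lt apf hB, api.comm _ _, api.comm _ _, api.comm _ _, api.comm _ _⟩
  have hz' : R' * zz (lt (lf G b) (amp G e)) (lt (lf G b) R) (rt (lf G b) B) =
      lt (lf G b) R * rt (lf G b) B := api.ext _ _ fun η y => by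
    have : (1 - rt (lf G b) B) (lf G b η y) = lf G b η (y - B y) := by
      rw [sub_apply, one_apply_eq_self, api.rt_b, map_sub]
    rw [mul_apply_eq_comp, zz, add_apply, mul_apply_eq_comp, this, mul_apply_eq_comp,
      mul_apply_eq_comp, api.rt_b, api.lt_b, api.lt_b, api.lt_b]
    exact hR' η y
  have mr : ∀ S, rt (lf G b) S ∈ RA G H := fun S => rS S ▸ amp_mem _
  have me : amp G e ∈ RA G E := amp_mem e
  have hW : amp G (lt b e * rt b d) = lt (lf G b) (amp G e) * rt (lf G b) d := by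
    rw [le, rS]
    exact map_mul (ampA G) _ _
  rw [hW]
  set W := lt (lf G b) (amp G e) * rt (lf G b) d with hWd
  have res : Res W R' := pr.res hz'
  have mR : R' ∈ RA G H := pr.mem isClosed_RA (alg G H).star_mem (mA _ me) (mA _ hR) (mr B) hz'
  have mN : ng W ∈ RA G H := (alg G H).ng_mem (mul_mem (mA _ me) (mr d))
  have dp : ∀ i, d (k (.inl i)) = k (.inl i) := fun i => by
    have := hB.pyth (k (.inl i))
    rw [kp] at this
    exact (sub_eq_zero.1 (norm_eq_zero.1 (pow_eq_zero_iff two_ne_zero |>.1 (by linarith)))).symm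
  have dn : ∀ i, d (k (.inr i)) = -k (.inr i) := fun i => by
    have := hB.pyth (k (.inr i))
    rw [kn, map_neg, sub_neg_eq_add, norm_neg] at this
    exact eq_neg_of_add_eq_zero_right
      (norm_eq_zero.1 (pow_eq_zero_iff two_ne_zero |>.1 (by linarith)))
  have oi : ∀ i j, ⟪k i, k j⟫_ℝ = if i = j then 1 else 0 := by
    classical exact orthonormal_iff_ite.1 onk
  have cB : ∀ i, rk (k i) * B = B * rk (k i) := by
    rintro (i | i)
    exacts [rk_comm hB.sa (s := 1) (by rw [kp, one_smul]),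
      rk_comm hB.sa (s := -1) (by rw [kn, neg_one_smul])]
  have cd : ∀ i, rk (k i) * d = d * rk (k i) := by
    rintro (i | i)
    exacts [rk_comm hB.esa (s := 1) (by rw [dp, one_smul]),
      rk_comm hB.esa (s := -1) (by rw [dn, neg_one_smul])]
  have cr : ∀ {S T : F →L[ℝ] F}, S * T = T * S → Commute (rt (lf G b) S) (rt (lf G b) T) :=
    fun h => by
      change _ * _ = _ * _
      rw [← hψ, ← hψ, ← map_mul, h, map_mul]
  have cl : ∀ S T, Commute (rt (lf G b) S) (lt (lf G b) T) := fun S T => (api.comm T S).symm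
  have rr : ∀ i j, rk (k i) * rk (k j) = if i = j then rk (k i) else 0 := fun i j => by
    ext y
    rw [mul_apply_eq_comp, rk_apply, rk_apply, real_inner_smul_right, oi]
    split_ifs with h
    · rw [mul_one, h, rk_apply]
    · simp
  have cut : ∀ i, Cut (ng W + R') (ng W) (rt (lf G b) (rk (k i))) := fun i =>
    have c := ng_comm ((cl _ _).mul_right (cr (cd i)))
    ⟨mr _, by rw [← hψ, ← map_mul, rr, if_pos rfl],
      c.add_right (pr.comm hz' (cl _ _) (cl _ _) (cr (cB i))), c⟩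
  have ind : ∀ i, IsInd ((ng W + R') * rt (lf G b) (rk (k i))) (ng W * rt (lf G b) (rk (k i)))
      (Sum.elim (fun _ => z) (fun _ => -z) i) := by
    rintro (i | i)
    · refine one hC hb api (by rw [oi, if_pos rfl]) me hR hres (fun η => ?_) (fun η => ?_) hz
      · rw [hWd, mul_apply_eq_comp, api.rt_b, dp, api.lt_b]
      · rw [Pair.on_pos hz' (by rw [api.rt_b, kp]), api.lt_b]
    · refine one hC hb api (by rw [oi, if_pos rfl]) (neg_mem me)
        (neg_mem (mul_mem (mul_mem me hR) me)) hres.neg (fun η => ?_) (fun η => ?_)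
        (hX G E e R hR hres z hz).2
      · rw [hWd, mul_apply_eq_comp, api.rt_b, dn, api.lt_b, map_neg, neg_apply, map_neg, neg_apply]
      · rw [pr.on_neg hz' (by rw [api.rt_b, kn, map_neg]), api.lt_b, api.lt_b, api.lt_b, neg_apply,
          map_neg, neg_apply]
        rfl
  obtain ⟨c, a⟩ := fsum hC (add_mem mN mR) mN res.idem (ng_idem res.esq) cut
    (fun i j h => by rw [← hψ, ← hψ, ← map_mul, rr, if_neg h, map_zero]) ind Finset.univ
  have hs : ∑ i, Sum.elim (fun _ : Fin p => z) (fun _ : Fin q => -z) i = m • z := by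
    simp [Fintype.sum_sum_type, hm, add_smul, sub_eq_add_neg]
  rw [hs] at a
  refine rest hC (add_mem mN mR) mN res.idem (ng_idem res.esq) c ?_ a
  set u : F →L[ℝ] F := 1 - ∑ i, rk (k i) with hu
  have eu : 1 - ∑ i, rt (lf G b) (rk (k i)) = rt (lf G b) u := by
    simp only [← hψ, hu, map_sub, map_one, map_sum]
  have uy : ∀ y, u y = y - ∑ i, ⟪k i, y⟫_ℝ • k i := fun y => by
    rw [hu, sub_apply, _root_.sum_apply]
    rfl
  have ku : ∀ y i, ⟪k i, u y⟫_ℝ = 0 := fun y i => by
    rw [uy, inner_sub_right, onk.inner_right_fintype, sub_self]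
  have uu : u * u = u := by
    ext y
    rw [mul_apply_eq_comp, uy (u y), Finset.sum_eq_zero fun i _ => by rw [ku, zero_smul], sub_zero]
  have un : ∀ y, ‖u y‖ ≤ ‖y‖ := fun y => by
    have h1 : ⟪u y, y - u y⟫_ℝ = 0 := by
      have : y - u y = ∑ i, ⟪k i, y⟫_ℝ • k i := by rw [uy, sub_sub_cancel]
      rw [this, inner_sum]
      exact Finset.sum_eq_zero fun i _ => by
        rw [real_inner_smul_right, real_inner_comm (k i) (u y), ku, mul_zero]
    have h2 := norm_add_sq_real (u y) (y - u y)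
    rw [add_sub_cancel, h1] at h2
    exact (pow_le_pow_iff_left₀ (norm_nonneg _) (norm_nonneg _) two_ne_zero).1
      (by linarith [sq_nonneg ‖y - u y‖])
  have cu : u * B = B * u := by
    rw [hu, sub_mul, mul_sub, one_mul, mul_one, Finset.sum_mul, Finset.mul_sum]
    simp only [cB]
  have n1 : ‖rt (lf G b) u‖ ≤ 1 := (apf.norm u).trans
    (opNorm_le_bound _ zero_le_one fun y => by rw [one_mul]; exact un y)
  have n2 : ‖rt (lf G b) (B * u)‖ ≤ θ := (apf.norm _).trans (opNorm_le_bound _ θ0 fun y =>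
    (gap _ (ku y)).trans (mul_le_mul_of_nonneg_left (un y) θ0))
  rw [eu, add_sub_cancel_left]
  refine lt_of_le_of_lt (opNorm_le_bound _ θ0 fun x => ?_) θ1
  refine (pr.off_ker hz' (cl _ _) (cl _ _) (cr cu) θ0 (fun x => ?_) x).trans
    (mul_le_mul_of_nonneg_left (((rt (lf G b) u).le_of_opNorm_le n1 x).trans_eq (one_mul _)) θ0)
  have : rt (lf G b) B * rt (lf G b) u = rt (lf G b) (B * u) * rt (lf G b) u := by
    rw [← hψ, ← hψ, ← hψ, ← map_mul, ← map_mul, mul_assoc, uu]
  rw [← mul_apply_eq_comp, this, mul_apply_eq_comp]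
  exact (rt (lf G b) (B * u)).le_of_opNorm_le n2 _

end Pool.Agent.Lib.WD
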