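import Pool.Agent.Lib.WD.Blue

/-! POL: the polarised Lichnerowicz formula. -/

noncomputable section

open Set Function MeasureTheory CliffordAlgebra BCO ContinuousLinearMap
open scoped Manifold ContDiff InnerProductSpace

namespace Pool.Agent.Lib.WD

open CX AN

variable {n N : ℕ} {X : SM n} {S : Spinor n N} {μ : Measure X.M}

theorem pol_dir {Φ} (hΦ : Sm X Φ) {t} (ht : IsT X S t) (y) :
    dir X S (fun z => Φ z • t z) y = Φ y • dir X S t y + cV X S Φ t y := by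
  rw [(core_holds n N X S).dir_mul ht fun y _ => hΦ.sm y]
  simp [cV]

theorem pol_T {Φ} (hΦ : Sm X Φ) {t} (ht : IsT X S t) : IsT X S (cV X S Φ t) := by
  have C := core_holds n N X S
  have h := C.add (C.dir (C.mul ht fun y _ => hΦ.sm y))
    (C.smul (-1) (C.mul (C.dir ht) fun y _ => hΦ.sm y))
  convert h using 2 with y
  rw [pol_dir hΦ ht]
  simp

theorem pol_lich (hμ : X.IsVol μ) (hσ : SigmaCompactSpace X.M) {u v} (hu : IsT X S u)
    (hv : IsT X S v) : 2 * ⟪cl μ (dir X S u), cl μ (dir X S v)⟫_ℝ =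
      2 * ∑ i, ⟪cl μ (nab X S i u), cl μ (nab X S i v)⟫_ℝ +
        ∫ y, X.scal y / 2 * ⟪u y, v y⟫_ℝ ∂μ := by
  have C := core_holds n N X S
  have L := lic_holds n N X S μ hμ hσ
  have M := stMUL X.M (Eu N) μ
  have m := mem_holds n N X S μ hμ
  have h := L.lich (C.add hu hv)
  have e1 : cl μ (dir X S fun y => u y + v y) = cl μ (dir X S u) + cl μ (dir X S v) := by
    rw [← M.cl_add (m _ (C.dir hu)).1 (m _ (C.dir hv)).1]
    exact congrArg _ (funext (C.dir_add hu hv))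
  have e2 : ∀ i, cl μ (nab X S i fun y => u y + v y) =
      cl μ (nab X S i u) + cl μ (nab X S i v) := fun i => by
    rw [← M.cl_add ((m _ hu).2 i) ((m _ hv).2 i)]
    exact congrArg _ (funext (C.nab_add hu hv i))
  have e3 : ∫ y, X.scal y / 2 * ⟪u y, v y⟫_ℝ ∂μ = ∫ y, X.scal y / 4 * ‖u y + v y‖ ^ 2 ∂μ -
      ∫ y, X.scal y / 4 * ‖u y‖ ^ 2 ∂μ - ∫ y, X.scal y / 4 * ‖v y‖ ^ 2 ∂μ := by
    rw [← integral_sub (L.int (C.add hu hv)) (L.int hu),
      ← integral_sub (by exact (L.int (C.add hu hv)).sub (L.int hu)) (L.int hv)]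
    congr 1
    funext y
    simp only [norm_add_sq_real]
    ring
  simp only [e1, e2, norm_add_sq_real, Finset.sum_add_distrib, ← Finset.mul_sum] at h
  rw [e3]
  simp only [norm_add_sq_real]
  linarith [L.lich hu, L.lich hv]

theorem stPOL : St_POL := by
  intro n N X S μ hμ hσ Φ hΦ s t hs ht
  have C := core_holds n N X S
  have L := lic_holds n N X S μ hμ hσ
  have M := stMUL X.M (Eu N) μ
  have m := mem_holds n N X S μ hμ
  obtain ⟨b, b'⟩ := (smb_holds n X).bm hΦ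
  have hn : ∀ {u}, IsT X S u → MemLp (nV X S Φ u) 2 μ ∧ cl μ (nV X S Φ u) =
      ∑ i, mul (Eu N) μ (dv X i Φ) (cl μ (nab X S i u)) := fun {u} hu =>
    ⟨memLp_finsetSum _ fun i _ => (M.mul_cl (b' i) ((m _ hu).2 i)).1,
      (M.cl_sum _ _ fun i _ => (M.mul_cl (b' i) ((m _ hu).2 i)).1).trans
        (Finset.sum_congr rfl fun i _ => (M.mul_cl (b' i) ((m _ hu).2 i)).2.symm)⟩
  have hd : ∀ {u}, IsT X S u → cl μ (dir X S fun y => Φ y • u y) =
      mul (Eu N) μ Φ (cl μ (dir X S u)) + cl μ (cV X S Φ u) := fun {u} hu => by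
    have := M.mul_cl b (m _ (C.dir hu)).1
    rw [this.2, ← M.cl_add this.1 (m _ (pol_T hΦ hu)).1]
    exact congrArg _ (funext (pol_dir hΦ hu))
  have he : ∀ {u}, IsT X S u → ∀ i, cl μ (nab X S i fun y => Φ y • u y) =
      mul (Eu N) μ Φ (cl μ (nab X S i u)) + mul (Eu N) μ (dv X i Φ) (cl μ u) := fun {u} hu i => by
    have h1 := M.mul_cl b ((m _ hu).2 i)
    have h2 := M.mul_cl (b' i) (m _ hu).1
    rw [h1.2, h2.2, ← M.cl_add h1.1 h2.1]
    exact congrArg _ (funext (C.nab_mul hu (fun y _ => hΦ.sm y) i))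
  have h1 := pol_lich hμ hσ (C.mul hs fun y _ => hΦ.sm y) ht
  have h2 := pol_lich hμ hσ hs (C.mul ht fun y _ => hΦ.sm y)
  have m1 := (m _ (pol_T hΦ (C.dir ht))).1
  have m2 := (m _ (C.dir (pol_T hΦ ht))).1
  have h3 : ⟪cl μ (cV X S Φ s), cl μ (dir X S t)⟫_ℝ =
      -⟪cl μ s, cl μ (cV X S Φ (dir X S t))⟫_ℝ := by
    rw [(M.inner_cl (m _ (pol_T hΦ hs)).1 (m _ (C.dir ht)).1).2, (M.inner_cl (m _ hs).1 m1).2,
      ← integral_neg]
    congr 1
    funext y
    simp [cV, sum_inner, inner_sum, inner_smul_left, inner_smul_right,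
      (stALGB n N X S).gam_skew]
  refine ⟨pol_T hΦ ht, (hn ht).1, m1, ?_⟩
  rw [M.cl_add (by exact (hn ht).1.add m1) m2, M.cl_add (hn ht).1 m1, (hn ht).2, (hn hs).2]
  simp only [hd hs, hd ht, he hs, he ht, inner_add_left, inner_add_right, M.mul_inner b,
    M.mul_inner (b' _), Finset.sum_add_distrib, real_inner_smul_left, real_inner_smul_right,
    sum_inner, inner_sum] at h1 h2 ⊢
  linarith [L.sym hs (pol_T hΦ ht)]

end Pool.Agent.Lib.WD
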