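import Pool.Agent.Lib.WD.Blue
import Pool.Agent.Lib.AN.MUL

/-! POS: positivity of multiplication operators. -/

noncomputable section

open MeasureTheory
open scoped InnerProductSpace

namespace Pool.Agent.Lib.WD

open CX AN

theorem stPOS : St_POS := by
  intro α _ N μ f g hf hg hfg u
  have M := stMUL α (Eu N) μ
  rw [L2.inner_def, L2.inner_def]
  refine integral_mono_ae (L2.integrable_inner _ _) (L2.integrable_inner _ _) ?_
  filter_upwards [M.mul_ae hf u, M.mul_ae hg u] with y h1 h2
  rw [h1, h2, real_inner_smul_left, real_inner_smul_left]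
  exact mul_le_mul_of_nonneg_right (hfg y) real_inner_self_nonneg

end Pool.Agent.Lib.WD
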