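import Pool.Agent.Lib.WD.Blue

/-! A bounded potential and a change of the connection. -/

noncomputable section

open Set Function BCO ContinuousLinearMap
open scoped InnerProductSpace

namespace Pool.Agent.Lib.WD

open CX AN

namespace POT

theorem alg1 {M : Type} [Ring M] {R B W ψ C : M} (a1 : (1 + B * R) * W = 1)
    (a2 : W * (1 + B * R) = 1) (hB : B * ψ = ψ * B) (h : ψ * R - R * ψ = R * C * R) :
    W * (ψ + C * (R * W)) = (ψ + C * R) * W := by
  have h1 : (1 + B * R) * (ψ + C * R) = (ψ + C * (R * W)) * (1 + B * R) := by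
    calc _ = ψ + C * R + B * (R * ψ + R * C * R) := by noncomm_ring
      _ = ψ + C * R + B * ψ * R := by rw [← h]; noncomm_ring
      _ = ψ * (1 + B * R) + C * R * (W * (1 + B * R)) := by rw [hB, a2]; noncomm_ring
      _ = _ := by noncomm_ring
  calc _ = W * (ψ + C * (R * W)) * ((1 + B * R) * W) := by rw [a1, mul_one]
    _ = W * ((ψ + C * (R * W)) * (1 + B * R)) * W := by noncomm_ring
    _ = W * (1 + B * R) * (ψ + C * R) * W := by rw [← h1]; noncomm_ring
    _ = _ := by rw [a2, one_mul]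

theorem alg2 {M : Type} [Ring M] {R B W ψ C : M} (a1 : (1 + B * R) * W = 1)
    (a2 : W * (1 + B * R) = 1) (hB : B * ψ = ψ * B) (h : ψ * R - R * ψ = R * C * R) :
    ψ * (R * W) - R * W * ψ = R * W * C * (R * W) := by
  have h1 := alg1 a1 a2 hB h
  calc _ = (ψ * R - R * ψ) * W + R * ψ * W - R * W * ψ := by noncomm_ring
    _ = R * ((ψ + C * R) * W) - R * W * ψ := by rw [h]; noncomm_ring
    _ = _ := by rw [← h1]; noncomm_ring

theorem alg3 {M : Type} [Ring M] {R B W ψ C N K d : M} (a1 : (1 + B * R) * W = 1)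
    (a2 : W * (1 + B * R) = 1) (hB : B * ψ = ψ * B) (hK : K * ψ = ψ * K)
    (h : ψ * R - R * ψ = R * C * R) (h' : N * (ψ + C * R) = ψ * N + d * R) :
    (N - K * R) * W * (ψ + C * (R * W)) = ψ * ((N - K * R) * W) + d * (R * W) := by
  calc _ = (N * (ψ + C * R) - K * (R * ψ + R * C * R)) * W := by
        rw [mul_assoc, alg1 a1 a2 hB h]; noncomm_ring
    _ = (ψ * N + d * R - K * ψ * R) * W := by rw [h', ← h]; noncomm_ring
    _ = _ := by rw [hK]; noncomm_ring

variable {G : Type} [Group G] {E : Type} [NormedAddCommGroup E] [InnerProductSpace ℝ E]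
  [CompleteSpace E] {n : ℕ} {A : Type} [Fintype A]

theorem c_ph {P : RQ.Pack G E n A} {X : E →L[ℝ] E} (h : Itw P P X) (a : A) :
    Commute X (P.ph a) := h.1 a

theorem c_E2 {P : RQ.Pack G E n A} {X : E →L[ℝ] E} (h : Itw P P X) (a b : A) (g : G) :
    Commute X (P.E2 a b g) :=
  Commute.sum_right _ _ _ fun k _ =>
    Commute.mul_right (show Commute X (P.E a k) from h.2 a k) (h.2 b (k * g))

/-- the perturbed package, without the lower bound -/
def pre (P : RQ.Pack G E n A) (B W : E →L[ℝ] E) (K : Fin n → E →L[ℝ] E)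
    (a1 : (1 + B * P.R) * W = 1) (a2 : W * (1 + B * P.R) = 1) (r : Res P.w (P.R * W))
    (hB : Itw P P B) (hK : ∀ j, Itw P P (K j)) : Pre G E n A where
  F := P.F
  w := P.w
  R := P.R * W
  gam := P.gam
  N j := (P.N j - K j * P.R) * W
  ph := P.ph
  dph := P.dph
  E := P.E
  mul := P.mul
  ph_mem := P.ph_mem
  dph_mem := P.dph_mem
  E_mem := P.E_mem
  mul_sa := P.mul_sa
  mul_comm := P.mul_comm
  mul_w := P.mul_w
  mul_gam := P.mul_gam
  res := r
  gam_skew := P.gam_skew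
  gam_cl := P.gam_cl
  E_mul := P.E_mul
  E_off := P.E_off
  ph_supp := P.ph_supp
  dph_supp := P.dph_supp
  ph_sq := P.ph_sq
  ph_dph := P.ph_dph
  comm a b g := by
    obtain ⟨h1, h2⟩ := P.comm a b g
    have c : ∀ {X : E →L[ℝ] E}, Itw P P X → Commute X (P.ph a * P.ph b * P.E2 a b g) := fun h =>
      ((c_ph h a).mul_right (c_ph h b)).mul_right (c_E2 h a b g)
    exact ⟨alg2 a1 a2 (c hB) h1, fun j => alg3 a1 a2 (c hB) (c (hK j)) h1 (h2 j)⟩

end POT

open POT in
theorem stPOT (h1 : St_IXC) (h2 : St_TWX) (h3 : St_MAP) : St_POT := by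
  intro G _ E _ _ _ n A _ P B T T' K hs ho hB hK hT hT'
  obtain ⟨W, a1, a2, r, -⟩ := (pack_res P).pert hs ho
  have lb : ∀ η, ∑ j, ‖((P.N j - K j * P.R) * W) η‖ ^ 2 +
      ⟪T' ((P.R * W) η), (P.R * W) η⟫_ℝ ≤ ‖η - P.w ((P.R * W) η)‖ ^ 2 := fun η => by
    have e1 : η = W η + B (P.R (W η)) := by
      have := congrArg (fun S : E →L[ℝ] E => S η) a1
      simpa using this.symm
    have e2 : η - P.w (P.R (W η)) = W η - P.w (P.R (W η)) + B (P.R (W η)) := by
      rw [sub_add_eq_add_sub, ← e1]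
    have e3 := hT (W η)
    have e4 := hT' (W η)
    simp only [mul_apply_eq_comp, sub_apply, norm_sub_sq_real (P.N _ _), Finset.sum_add_distrib,
      Finset.sum_sub_distrib, ← Finset.mul_sum]
    rw [e2, norm_add_sq_real]
    linarith
  have hR : P.R * W * (1 + B * P.R) = P.R := by rw [mul_assoc, a2, mul_one]
  refine ⟨(pre P B W K a1 a2 r hB hK).pack T' lb, rfl, rfl, rfl, rfl, rfl, ⟨⟨_, W, a1, a2⟩, rfl⟩,
    hR, fun j => ?_, lb, ?_⟩
  · change (P.N j - K j * P.R) * W * (1 + B * P.R) = _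
    rw [mul_assoc, a2, mul_one]
  rintro hc z ⟨R₁, t1, hz⟩
  set Q := (pre P B W K a1 a2 r hB hK).pack T' lb
  obtain ⟨-, g1, -, p1⟩ := h2 G E n A P
  obtain ⟨⟨R₂, t2⟩, -⟩ := h2 G E n A Q
  have m := h3 G E E n n A P Q 1 B 1 (fun a g => ⟨rfl, hB.2 a g, rfl⟩) (fun a z b g => ?_)
    R₁ R₂ t1 t2
  · have hC : R₂ - R₁ = -(R₂ * amp G B * R₁) := by
      refine ContinuousLinearMap.ext fun η => ?_
      have e1 : R₂ (η + amp G B (R₁ η)) = R₁ η := m η
      rw [map_add] at e1
      rw [sub_apply, neg_apply, mul_apply_eq_comp, mul_apply_eq_comp, sub_eq_iff_eq_add,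
        eq_neg_add_iff_add_eq, add_comm, e1]
    refine ⟨R₂, t2, (alg G E).pert (h1 G E E).2.2.2 t1.res t2.res (amp_mem _) t1.mem t2.mem hC
      ?_ hz⟩
    rw [hC, mul_assoc]
    exact neg_mem ((alg G E).left _ t2.mem _ ((p1 R₁ t1).2.2.1 B hB hc))
  · have e1 := g1 a z b g
    set s' := (can P a z).1
    set s := (can P a z).2
    have e2 : P.E2 b a g (P.ph b (B s)) = B (P.E2 b a g (P.ph b s)) :=
      congrArg (fun S : E →L[ℝ] E => S s) ((c_E2 hB b a g).mul_right (c_ph hB b)).eq.symm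
    change (P.R * W) (P.E2 b a g (P.ph b (s' + B s) + P.C b s)) = P.E2 b a g (P.ph b s)
    have e3 : P.E2 b a g (P.ph b (s' + B s) + P.C b s) =
        (1 + B * P.R) (P.E2 b a g (P.ph b s' + P.C b s)) := by
      rw [add_apply, one_apply_eq_self, mul_apply_eq_comp, e1, ← e2, ← map_add, map_add (P.ph b)]
      congr 1
      abel
    rw [e3, ← mul_apply_eq_comp, hR, e1]

end Pool.Agent.Lib.WD
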