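import Pool.Agent.Lib.WD.GEO

/-! The package of the product with the line. -/

noncomputable section

open Set Function MeasureTheory BCO ContinuousLinearMap
open scoped Manifold ContDiff InnerProductSpace

namespace Pool.Agent.Lib.WD

open CX AN RQ.BRG

theorem stPRDb (_h1 : St_TENS) (h2 : St_TEN) (h3 : St_BOX) : St_PRD := by
  intro G _ m N₁ N x S₁ e μ hμ he r φ hφ P hP hR S₂ d σ b hb hτ ν hν hσ f B Nn hf hB hres hcpt
  have A := GEO.apack hμ he hφ hR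
  have sc : SecondCountableTopology LN.M := inferInstanceAs (SecondCountableTopology (Eu 1))
  obtain ⟨box, hbox⟩ := h3 _ _ N₁ 2 N b μ ν hμ.sigmaFinite hν.sigmaFinite hb
  have L₁ := stMUL _ (Eu N₁) μ
  have L₂ := stMUL _ (Eu 2) ν
  have L := stMUL _ (Eu N) (μ.prod ν)
  have G₂ := stALGB _ _ LN S₂
  have hJ : cst ν (gam S₂ 0) * cst ν (gam S₂ 0) = -1 := by
    have h := cst_cl' L₂ (G₂.gam_rel 0 0)
    rw [if_pos rfl, ← two_smul ℝ] at h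
    refine smul_right_injective _ (two_ne_zero (α := ℝ)) (h.trans ?_)
    rw [neg_smul]
    exact (smul_neg _ _).symm
  have hw : ∀ j, P.w * P.gam j = -(P.gam j * P.w) := fun j => by
    have h := cst_cl' L₁ (A := e) (B := gam S₁ j) (c := 0) fun u => by
      rw [zero_smul]
      exact add_eq_zero_iff_eq_neg.2 (he.anti _ u)
    rw [hP.w, hP.gam, ← add_eq_zero_iff_eq_neg, h, zero_smul]
  obtain ⟨Q, qw, qph, qE, qR, qN, qL, qD, qC, qB, qI⟩ := h2 G _ _ _ _ _ P box hbox.tens (cst ν d) B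
    (cst ν (gam S₂ 0)) hres (cst_skew L₂ (G₂.gam_skew 0)) hJ hw
  have C₁ := core_holds _ _ x.X S₁
  have C₂ := core_holds _ _ LN S₂
  have M₁ := mem_holds _ _ x.X S₁ μ hμ
  have M₂ := mem_holds _ _ LN S₂ ν hν
  have mp : ∀ t, IsT LN S₂ t → MemLp (dp LN S₂ d σ f t) 2 ν := fun t ht =>
    (M₂ _ (TEST.isT_dw C₂ hτ.gw ht)).1.add (L₂.mul_cl hf (L₂.cst_cl σ (M₂ t ht).1).1).1
  have key : ∀ s t, IsT x.X S₁ s → IsT LN S₂ t →
      MemLp (dq x.X S₁ e S₂ d σ b f s t) 2 (μ.prod ν) ∧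
      cl (μ.prod ν) (dq x.X S₁ e S₂ d σ b f s t) =
        box (cl μ (dw x.X S₁ e s)) (B (cl ν (dp LN S₂ d σ f t))) +
          box (P.w (P.R (cl μ (dw x.X S₁ e s))))
            (cl ν (dp LN S₂ d σ f t) - B (cl ν (dp LN S₂ d σ f t))) := fun s t hs ht => by
    have m1 := (M₁ _ (C₁.dir hs)).1
    obtain ⟨m2, m3⟩ := L₁.cst_cl e (M₁ s hs).1
    obtain ⟨a1, a2⟩ := hbox.cl _ _ m1 (M₂ t ht).1
    obtain ⟨b1, b2⟩ := hbox.cl _ _ m2 (mp t ht)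
    have e1 : cl μ (dw x.X S₁ e s) = cl μ (dir x.X S₁ s) + cl μ fun y => e (s y) := L₁.cl_add m1 m2
    refine ⟨a1.add b1, (L.cl_add a1 b1).trans ?_⟩
    rw [hR.R_cl s hs, hB.R_cl t ht, hP.w, m3, e1, map_add, add_apply, map_sub, ← a2, ← b2]
    abel
  refine ⟨Q, ⟨?_, fun a => ?_, fun a g => ?_, fun s t hs ht => ⟨(hbox.cl _ _ (M₁ s hs).1
    (M₂ t ht).1).1, (key s t hs ht).1, fun j => (hbox.cl _ _ ((M₁ s hs).2 j) (M₂ t ht).1).1⟩,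
    fun s t hs ht => ?_, fun s t hs ht j => ?_, qL, ?_, fun χ χ' c1 c2 c3 c4 => ?_⟩,
    fun v v' c1 c2 l1 l2 => ?_, qI⟩
  · rw [qw, hP.w, hbox.cstl, hbox.cstr, L.cst_mul]
  · rw [qph, hP.ph, (hbox.mull _ (A.smb.bm (hφ.sm a)).1).2]
  · rw [qE, hP.E, (hbox.mull _ (bm_ef x a g)).2]
  · rw [(key s t hs ht).2, qR, hR.R_cl s hs, hB.R_cl t ht, (hbox.cl _ _ (M₁ s hs).1 (M₂ t ht).1).2]
  · rw [(key s t hs ht).2, qN, hR.N_cl s hs, hB.R_cl t ht,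
      (hbox.cl _ _ ((M₁ s hs).2 j) (M₂ t ht).1).2]
  · refine (qD _ _ hR.dense hB.dense).mono (Submodule.span_mono ?_)
    rintro _ ⟨_, ⟨s, hs, rfl⟩, _, ⟨t, ht, rfl⟩, rfl⟩
    exact ⟨s, t, hs, ht, (key s t hs ht).2.symm⟩
  · rw [(L.mul_mul (hbox.mull _ c1).1 (hbox.mulr _ c2).1).2, ← (hbox.mull _ c1).2,
      ← (hbox.mulr _ c2).2]
    exact qC _ _ (A.cpt χ c1 c3) (hcpt χ' c2 c4)
  · rw [(L.mul_add (hbox.mull _ c1).1 (hbox.mulr _ c2).1).2, ← (hbox.mull _ c1).2,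
      ← (hbox.mulr _ c2).2]
    exact qB _ _ l1 l2

end Pool.Agent.Lib.WD
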