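import Pool.Agent.Lib.WD.PTT

/-! The scalar curvature of a product. -/

noncomputable section

open Set Function Filter Topology
open scoped Manifold ContDiff

namespace Pool.Agent.Lib.WD

open CX AN PTT

namespace PSC

variable {p q n : ℕ} {h : p + q = n} {X : SM p} {Y : SM q} {Z : SM n} {ψ : X.M × Y.M → Z.M}
  {O : Set (X.M × Y.M)} {Φ : Fm Z} {b c : ℕ} {z : X.M × Y.M}

theorem sum_ix (h : p + q = n) (f : Fin n → ℝ) : ∑ i, f i = ∑ j, f (ix h j) := by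
  rw [sum_split h, Fintype.sum_sum_type]
  rfl

theorem ga_ev (hO : IsOpen O) (hΦ : FmApi h X Y ψ O Φ) (hz : z ∈ O) (hb : z.1 ∈ X.U b)
    (hc : z.2 ∈ Y.U c) (i j k : Fin p ⊕ Fin q) :
    Φ.sm.ga (od b c) (ix h i) (ix h j) (ix h k) ∘ ψ =ᶠ[𝓝 z] fun w =>
      blk3 (fun i j k => X.ga b i j k w.1) (fun i j k => Y.ga c i j k w.2) i j k := by
  filter_upwards [hO.mem_nhds hz,
    continuous_fst.continuousAt.preimage_mem_nhds ((X.isOpen b).mem_nhds hb),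
    continuous_snd.continuousAt.preimage_mem_nhds ((Y.isOpen c).mem_nhds hc)] with w h1 h2 h3
    using ga_od hΦ h1 h2 h3 i j k

theorem dd_zero (hΦ : FmApi h X Y ψ O Φ) (hz : z ∈ O) {u : Z.M → ℝ}
    (hu : u ∘ ψ =ᶠ[𝓝 z] fun _ => 0) (m : Fin p ⊕ Fin q) :
    Φ.sm.dd (od b c) (ix h m) u (ψ z) = 0 := by
  rcases m with m | m
  · change Φ.sm.dd (od b c) (il h m) u (ψ z) = 0
    rw [hΦ.ddl u b c m z hz, hu.mfderiv_eq, mfderiv_const]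
    rfl
  · change Φ.sm.dd (od b c) (ir h m) u (ψ z) = 0
    rw [hΦ.ddr u b c m z hz, hu.mfderiv_eq, mfderiv_const]
    rfl

theorem dd_l (hΦ : FmApi h X Y ψ O Φ) (hz : z ∈ O) {u : Z.M → ℝ} {f : X.M → ℝ}
    (hf : ContMDiffAt (𝓡 p) 𝓘(ℝ, ℝ) ∞ f z.1) (hu : u ∘ ψ =ᶠ[𝓝 z] fun w => f w.1) (m : Fin p) :
    Φ.sm.dd (od b c) (ix h (.inl m)) u (ψ z) = X.dd b m f z.1 := by
  change Φ.sm.dd (od b c) (il h m) u (ψ z) = _
  rw [hΦ.ddl u b c m z hz, hu.mfderiv_eq]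
  exact DFunLike.congr_fun (((hf.mdifferentiableAt (by simp)).hasMFDerivAt.comp z
    (hasMFDerivAt_fst (I := 𝓡 p) (I' := 𝓡 q) z)).mfderiv) _

theorem dd_r (hΦ : FmApi h X Y ψ O Φ) (hz : z ∈ O) {u : Z.M → ℝ} {f : Y.M → ℝ}
    (hf : ContMDiffAt (𝓡 q) 𝓘(ℝ, ℝ) ∞ f z.2) (hu : u ∘ ψ =ᶠ[𝓝 z] fun w => f w.2) (m : Fin q) :
    Φ.sm.dd (od b c) (ix h (.inr m)) u (ψ z) = Y.dd c m f z.2 := by
  change Φ.sm.dd (od b c) (ir h m) u (ψ z) = _
  rw [hΦ.ddr u b c m z hz, hu.mfderiv_eq]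
  exact DFunLike.congr_fun (((hf.mdifferentiableAt (by simp)).hasMFDerivAt.comp z
    (hasMFDerivAt_snd (I := 𝓡 p) (I' := 𝓡 q) z)).mfderiv) _

theorem scal_od (hO : IsOpen O) (hΦ : FmApi h X Y ψ O Φ) (hz : z ∈ O) (hb : z.1 ∈ X.U b)
    (hc : z.2 ∈ Y.U c) : scalL Φ.sm (od b c) (ψ z) = scalL X b z.1 + scalL Y c z.2 := by
  have ev := ga_ev hO hΦ hz hb hc
  have l := fun m i j k => dd_l (b := b) (c := c) hΦ hz ((ANA.sm X b).ga_smooth hb i j k)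
    (ev (.inl i) (.inl j) (.inl k)) m
  have r := fun m i j k => dd_r (b := b) (c := c) hΦ hz ((ANA.sm Y c).ga_smooth hc i j k)
    (ev (.inr i) (.inr j) (.inr k)) m
  have z1 := fun m i j k => dd_zero (b := b) (c := c) hΦ hz (ev (.inl i) (.inl j) (.inr k)) m
  have z2 := fun m i j k => dd_zero (b := b) (c := c) hΦ hz (ev (.inl i) (.inr j) (.inl k)) m
  have z3 := fun m i j k => dd_zero (b := b) (c := c) hΦ hz (ev (.inr i) (.inr j) (.inl k)) m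
  have z4 := fun m i j k => dd_zero (b := b) (c := c) hΦ hz (ev (.inr i) (.inl j) (.inr k)) m
  have hcc := fun i j k => hΦ.cc b c i j k z hz hb hc
  simp only [AN.scalL, SM.riem, sum_ix h, ga_od hΦ hz hb hc, hcc, Fintype.sum_sum_type, l, r, z1,
    z2, z3, z4, blk3, mul_zero, zero_mul, sub_zero, add_zero, zero_add, Finset.sum_const_zero]
  rfl

end PSC

theorem stPSC : St_PSC := by
  intro p q n h X Y Z ψ O _ hO Φ hΦ z hz
  have e1 : scalL Φ.sm (2 * Z.fr (ψ z)) (ψ z) = Z.scal (ψ z) := by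
    change ANA.Fm.scal (Φ.F (2 * Z.fr (ψ z))) (ψ z) = _
    rw [hΦ.F0]
    rfl
  have e2 := SMG.scal_gauge Φ.sm (mem_ev hΦ (ANA.mem_fr Z (ψ z)))
  have e3 := SMG.scal_gauge Φ.sm (mem_od hΦ hz (ANA.mem_fr X z.1) (ANA.mem_fr Y z.2))
  exact e1.symm.trans ((e2.trans e3.symm).trans
    (PSC.scal_od hO hΦ hz (ANA.mem_fr X z.1) (ANA.mem_fr Y z.2)))

end Pool.Agent.Lib.WD
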