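import Pool.Agent.Lib.WD.PTT

/-! Pointwise algebra of the transport along a product embedding, and product functions. -/

noncomputable section

open Set Function Filter Topology CliffordAlgebra MeasureTheory
open scoped Manifold ContDiff InnerProductSpace

namespace Pool.Agent.Lib.WD

open CX AN PTT
open ANA.CylB (pull pull_j pull_off pull_comp_ev contMDiffAt_pull)

namespace PTA

variable {p q n N : ℕ} {h : p + q = n} {X : SM p} {Y : SM q} {Z : SM n} {ψ : X.M × Y.M → Z.M}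
  {O : Set (X.M × Y.M)} {Φ : Fm Z}

theorem meas (hp : IsProd h X Y Z ψ O) (hO : IsOpen O) (hX : SigmaCompactSpace X.M)
    (hY : SigmaCompactSpace Y.M) (hΦ : FmApi h X Y ψ O Φ) (S : Spinor n N) :
    StronglyMeasurable (O.indicator (pT X Y ψ Φ S)) := by
  classical
  have := ChartedSpace.secondCountable_of_sigmaCompact (Eu p) X.M
  have := ChartedSpace.secondCountable_of_sigmaCompact (Eu q) Y.M
  borelize (Eu N →L[ℝ] Eu N)
  have AX := stALGB p 0 X (sp0 p)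
  have AY := stALGB q 0 Y (sp0 q)
  have AZ := stALGB n N Z S
  have A := stALGB n N Φ.sm S
  have hc : ContinuousOn ψ O := hp.1.contMDiffOn.continuousOn
  let D : ℕ × ℕ × ℕ → Set (X.M × Y.M) := fun a =>
    O ∩ ψ ⁻¹' (Φ.sm.U (2 * a.1) ∩ Φ.sm.U (od a.2.1 a.2.2))
  have hD : ∀ a, IsOpen (D a) := fun a =>
    hc.isOpen_inter_preimage hO ((Φ.sm.isOpen _).inter (Φ.sm.isOpen _))
  let g : ℕ × ℕ × ℕ → X.M × Y.M → Eu N →L[ℝ] Eu N := fun a =>
    (D a).indicator fun z => tr Φ.sm S (2 * a.1) (od a.2.1 a.2.2) (ψ z)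
  have h1 : ∀ a, Measurable (g a) := fun a => by
    have k : ContinuousOn (fun z => tr Φ.sm S (2 * a.1) (od a.2.1 a.2.2) (ψ z)) (D a) :=
      (A.tr_sm _ _).continuousOn.comp (hc.mono inter_subset_left) fun z hz => hz.2
    have k2 := k.measurable_piecewise (g := 0) continuousOn_const (hD a).measurableSet
    rwa [piecewise_eq_indicator] at k2
  have h2 : Measurable fun z : (X.M × Y.M) × (ℕ × ℕ × ℕ) => g z.2 z.1 :=
    measurable_from_prod_countable_left h1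
  have h3 : Measurable (O.piecewise (fun z => Z.fr (ψ z)) fun _ => 0) := by
    refine measurable_of_restrict_of_restrict_compl hO.measurableSet ?_ ?_
    · rw [domRestrict_piecewise]
      exact AZ.meas_fr.comp hc.domRestrict.measurable
    · rw [domRestrict_piecewise_compl]
      exact measurable_const
  have h4 := h2.comp (measurable_id.prodMk (h3.prodMk
    ((AX.meas_fr.comp measurable_fst).prodMk (AY.meas_fr.comp measurable_snd))))
  have h5 : O.indicator (pT X Y ψ Φ S) = (fun z : (X.M × Y.M) × (ℕ × ℕ × ℕ) => g z.2 z.1) ∘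
      fun z => (id z, O.piecewise (fun z => Z.fr (ψ z)) (fun _ => 0) z,
        (X.fr ∘ Prod.fst) z, (Y.fr ∘ Prod.snd) z) := by
    funext z
    by_cases hz : z ∈ O
    · rw [indicator_of_mem hz, comp_apply, piecewise_eq_of_mem _ _ _ hz]
      have k : z ∈ D (Z.fr (ψ z), X.fr z.1, Y.fr z.2) :=
        ⟨hz, mem_ev hΦ (AZ.mem_fr _), mem_od hΦ hz (AX.mem_fr _) (AY.mem_fr _)⟩
      exact (indicator_of_mem k fun z' => tr Φ.sm S (2 * Z.fr (ψ z))
        (od (X.fr z.1) (Y.fr z.2)) (ψ z')).symm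
    · rw [indicator_of_notMem hz, comp_apply]
      have k : ∀ a, g a z = 0 := fun a => indicator_of_notMem (fun h' : z ∈ D a => hz h'.1) _
      exact (k _).symm
  rw [h5]
  exact h4.stronglyMeasurable

theorem dd_even (hΦ : FmApi h X Y ψ O Φ) (a : ℕ) (i : Fin n) (u : Z.M → ℝ) (y : Z.M) :
    Φ.sm.dd (2 * a) i u y = Z.dd a i u y := by
  have he : Φ.sm.e (2 * a) = Z.e a := by
    funext i x
    change Φ.F (2 * a) x (bv i) = Z.F a x (bv i)
    rw [hΦ.F0]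
  simp only [SM.dd, he]

theorem mul_sm {f : X.M → ℝ} {g : Y.M → ℝ} (hf : ContMDiff (𝓡 p) 𝓘(ℝ, ℝ) ∞ f)
    (hg : ContMDiff (𝓡 q) 𝓘(ℝ, ℝ) ∞ g) :
    ContMDiff ((𝓡 p).prod (𝓡 q)) 𝓘(ℝ, ℝ) ∞ fun z : X.M × Y.M => f z.1 * g z.2 :=
  (hf.comp contMDiff_fst).mul (hg.comp contMDiff_snd)

theorem mf_mul {f : X.M → ℝ} {g : Y.M → ℝ} (hf : ContMDiff (𝓡 p) 𝓘(ℝ, ℝ) ∞ f)
    (hg : ContMDiff (𝓡 q) 𝓘(ℝ, ℝ) ∞ g) (z : X.M × Y.M) (v : Eu p) (w : Eu q) :
    (mfderiv ((𝓡 p).prod (𝓡 q)) 𝓘(ℝ, ℝ) (fun z : X.M × Y.M => f z.1 * g z.2) z (v, w) : ℝ) =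
      (ContinuousLinearMap.mul ℝ ℝ).flip (g z.2) (mfderiv (𝓡 p) 𝓘(ℝ, ℝ) f z.1 v) +
        ContinuousLinearMap.mul ℝ ℝ (f z.1) (mfderiv (𝓡 q) 𝓘(ℝ, ℝ) g z.2 w) := by
  rw [PG.mfderiv_prod ((mul_sm hf hg z).mdifferentiableAt (by simp))]
  have h1 := (((ContinuousLinearMap.mul ℝ ℝ).flip (g z.2)).hasMFDerivAt.comp z.1
    ((hf z.1).mdifferentiableAt (by simp)).hasMFDerivAt).mfderiv
  have h2 := ((ContinuousLinearMap.mul ℝ ℝ (f z.1)).hasMFDerivAt.comp z.2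
    ((hg z.2).mdifferentiableAt (by simp)).hasMFDerivAt).mfderiv
  exact congrArg₂ (· + ·) (DFunLike.congr_fun h1 v) (DFunLike.congr_fun h2 w)

end PTA

theorem stPTA : St_PTA := by
  intro p q n N h X Y Z ψ O hp hO hX hY Φ hΦ S
  have AX := stALGB p 0 X (sp0 p)
  have AY := stALGB q 0 Y (sp0 q)
  have AZ := stALGB n N Z S
  have A := stALGB n N Φ.sm S
  have m1 : ∀ z : X.M × Y.M, ψ z ∈ Φ.sm.U (2 * Z.fr (ψ z)) := fun z => mem_ev hΦ (AZ.mem_fr _)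
  have m2 : ∀ z ∈ O, ψ z ∈ Φ.sm.U (od (X.fr z.1) (Y.fr z.2)) := fun z hz =>
    mem_od hΦ hz (AX.mem_fr _) (AY.mem_fr _)
  refine ⟨⟨PTA.meas hp hO hX hY hΦ S, fun z hz => A.tr_inner (m1 z) (m2 z hz),
    fun τ hτ z hz => A.tr_w hτ (m1 z) (m2 z hz), fun z hz => A.tr_gam (m1 z) (m2 z hz),
    fun z hz => A.om_row (m1 z) (m2 z hz), fun z hz => A.om_col (m1 z) (m2 z hz)⟩, ?_⟩
  intro f g hf hg cf cg hst
  set σ := pull ψ O (fun z => f z.1 * g z.2) 0 with hσ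
  have hK : IsCompact (ψ '' (tsupport f ×ˢ tsupport g)) :=
    (cf.isCompact.prod cg.isCompact).image_of_continuousOn
      (hp.1.contMDiffOn.continuousOn.mono hst)
  have h0 : ∀ y, y ∉ ψ '' (tsupport f ×ˢ tsupport g) → σ y = 0 := by
    intro y hy
    by_cases hy' : y ∈ ψ '' O
    · obtain ⟨z, hz, rfl⟩ := hy'
      rw [hσ, pull_j hp.2.1 _ _ hz]
      by_cases h1 : z.1 ∈ tsupport f
      · rw [image_eq_zero_of_notMem_tsupport fun h2 : z.2 ∈ tsupport g => hy ⟨z, ⟨h1, h2⟩, rfl⟩,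
          mul_zero]
      · rw [image_eq_zero_of_notMem_tsupport h1, zero_mul]
    · exact pull_off _ _ hy'
  refine ⟨fun y => ?_, HasCompactSupport.intro hK h0, fun z hz i => ?_⟩
  · by_cases hy' : y ∈ ψ '' (tsupport f ×ˢ tsupport g)
    · obtain ⟨z, hz, rfl⟩ := hy'
      exact contMDiffAt_pull hO hp.2.1 (hst hz) (hp.1 ⟨z, hst hz⟩) (PTA.mul_sm hf hg z) 0
    · refine (contMDiffAt_const (c := (0 : ℝ))).congr_of_eventuallyEq ?_
      filter_upwards [hK.isClosed.isOpen_compl.mem_nhds hy'] with w hw using h0 w hw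
  · rw [dv, ← PTA.dd_even hΦ, A.dd_om σ (m1 z) (m2 z hz), sum_split h]
    refine congrArg₂ (· + ·) (Finset.sum_congr rfl fun j _ => ?_)
      (Finset.sum_congr rfl fun j _ => ?_)
    · rw [hΦ.ddl _ _ _ j z hz, hσ, (pull_comp_ev hO hp.2.1 hz _ _).mfderiv_eq]
      refine congrArg (fun v : ℝ => pO X Y ψ Φ z i (il h j) * v) ?_
      refine (PTA.mf_mul hf hg z (X.e _ j z.1) 0).trans ?_
      have k0 : (mfderiv (𝓡 q) 𝓘(ℝ, ℝ) g z.2 (0 : Eu q) : ℝ) = (0 : ℝ) :=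
        ContinuousLinearMap.map_zero _
      rw [k0, map_zero, add_zero]
      rfl
    · rw [hΦ.ddr _ _ _ j z hz, hσ, (pull_comp_ev hO hp.2.1 hz _ _).mfderiv_eq]
      refine congrArg (fun v : ℝ => pO X Y ψ Φ z i (ir h j) * v) ?_
      refine (PTA.mf_mul hf hg z 0 (Y.e _ j z.2)).trans ?_
      have k0 : (mfderiv (𝓡 p) 𝓘(ℝ, ℝ) f z.1 (0 : Eu p) : ℝ) = (0 : ℝ) :=
        ContinuousLinearMap.map_zero _
      rw [k0, map_zero, zero_add]
      rfl

end Pool.Agent.Lib.WD
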