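import Pool.Agent.Lib.WD.Blue
import Pool.Agent.Lib.WD.PGA73

/-! Transport of product sections. -/

noncomputable section

open Set Function Filter Topology CliffordAlgebra
open scoped Manifold ContDiff InnerProductSpace

namespace Pool.Agent.Lib.WD

open CX AN
open ANA.CylB (pull pull_j pull_off pull_comp_ev contMDiffAt_pull)

namespace PTT

variable {p q n N₁ N₂ N : ℕ}

theorem inc_bv' (f : Fin p ↪ Fin n) (i : Fin p) : inc f (bv i) = bv (f i) := by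
  change ∑ j, bv i j • bv (f j) = bv (f i)
  rw [Finset.sum_eq_single i]
  · simp [bv]
  · intro j _ hj
    simp [bv, hj]
  · simp

theorem sum_split {W : Type} [AddCommMonoid W] (h : p + q = n) (f : Fin n → W) :
    ∑ i, f i = ∑ j, f (il h j) + ∑ j, f (ir h j) := by
  subst h
  exact Fin.sum_univ_add f

section Alg

variable {h : p + q = n} {S₁ : Spinor p N₁} {e : Eu N₁ →L[ℝ] Eu N₁} {S₂ : Spinor q N₂}
  {S : Spinor n N} {β : Eu N₁ →L[ℝ] Eu N₂ →L[ℝ] Eu N}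

theorem c_left (ts : TS h S₁ e S₂ S β) (x : Cl p) (u : Eu N₁) (u' : Eu N₂) :
    S.c (CliffordAlgebra.map (inc (il h)) x) (β u u') = β (S₁.c x u) u' := by
  induction x using CliffordAlgebra.induction generalizing u with
  | algebraMap r =>
    simp only [Algebra.algebraMap_eq_smul_one, _root_.smul_apply, one_apply_eq_self, map_smul,
      map_one]
  | ι v => rw [map_apply_ι, ts.l]
  | mul a b ha hb =>
    rw [map_mul, map_mul, map_mul, mul_apply_eq_comp, mul_apply_eq_comp,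
      hb, ha]
  | add a b ha hb =>
    simp only [map_add, _root_.add_apply, ha, hb]

theorem c_two (ts : TS h S₁ e S₂ S β) (v w : Eu q) (u : Eu N₁) (u' : Eu N₂) :
    S.c (ι (Qn n) (inc (ir h) v) * ι (Qn n) (inc (ir h) w)) (β u u') =
      β u (S₂.c (ι (Qn q) v * ι (Qn q) w) u') := by
  rw [map_mul, map_mul, mul_apply_eq_comp, mul_apply_eq_comp, ts.r, ts.r,
    ts.gr.sq]

theorem c_right (ts : TS h S₁ e S₂ S β) {y : Cl q} (hy : y ∈ evenOdd (Qn q) 0) (u : Eu N₁)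
    (u' : Eu N₂) : S.c (CliffordAlgebra.map (inc (ir h)) y) (β u u') = β u (S₂.c y u') := by
  induction y, hy using CliffordAlgebra.even_induction generalizing u' with
  | algebraMap r =>
    simp only [Algebra.algebraMap_eq_smul_one, _root_.smul_apply, one_apply_eq_self, map_smul,
      map_one]
  | add a b _ _ ha hb => simp only [map_add, _root_.add_apply, ha, hb]
  | ι_mul_ι_mul v w x _ hx =>
    rw [map_mul, map_mul S.c, mul_apply_eq_comp, hx, map_mul, map_apply_ι, map_apply_ι,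
      c_two ts, map_mul S₂.c (_ * _), mul_apply_eq_comp]

theorem gam_l (ts : TS h S₁ e S₂ S β) (j : Fin p) (u : Eu N₁) (u' : Eu N₂) :
    gam S (il h j) (β u u') = β (gam S₁ j u) u' := by
  rw [ANA.gam, ← inc_bv', ts.l]
  rfl

theorem gam_r (ts : TS h S₁ e S₂ S β) (j : Fin q) (u : Eu N₁) (u' : Eu N₂) :
    gam S (ir h j) (β u u') = β (e u) (gam S₂ j u') := by
  rw [ANA.gam, ← inc_bv', ts.r]
  rfl

theorem cc_l (ts : TS h S₁ e S₂ S β) (j k : Fin p) (u : Eu N₁) (u' : Eu N₂) :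
    S.c (ι (Qn n) (bv (il h j)) * ι (Qn n) (bv (il h k))) (β u u') =
      β (S₁.c (ι (Qn p) (bv j) * ι (Qn p) (bv k)) u) u' := by
  rw [← c_left ts, map_mul (CliffordAlgebra.map _), map_apply_ι, map_apply_ι, inc_bv', inc_bv']

theorem cc_r (ts : TS h S₁ e S₂ S β) (j k : Fin q) (u : Eu N₁) (u' : Eu N₂) :
    S.c (ι (Qn n) (bv (ir h j)) * ι (Qn n) (bv (ir h k))) (β u u') =
      β u (S₂.c (ι (Qn q) (bv j) * ι (Qn q) (bv k)) u') := by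
  rw [← c_two ts, inc_bv', inc_bv']

end Alg

variable {h : p + q = n} {X : SM p} {Y : SM q} {Z : SM n} {ψ : X.M × Y.M → Z.M}
  {O : Set (X.M × Y.M)} {Φ : Fm Z} {S₁ : Spinor p N₁} {e : Eu N₁ →L[ℝ] Eu N₁} {S₂ : Spinor q N₂}
  {S : Spinor n N} {β : Eu N₁ →L[ℝ] Eu N₂ →L[ℝ] Eu N}

theorem nabL_even (hΦ : FmApi h X Y ψ O Φ) (a : ℕ) (i : Fin n) (u : Z.M → Eu N) (y : Z.M) :
    nabL Φ.sm S (2 * a) i u y = nabL Z S a i u y := by
  have he : Φ.sm.e (2 * a) = Z.e a := by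
    funext i x
    change Φ.F (2 * a) x (bv i) = Z.F a x (bv i)
    rw [hΦ.F0]
  have hc : Φ.sm.cc (2 * a) = Z.cc a := by
    funext i j k x
    change (Φ.F (2 * a) x).symm (VectorField.mlieBracket (𝓡 n) (Φ.sm.e (2 * a) i)
      (Φ.sm.e (2 * a) j) x) k = _
    rw [hΦ.F0, he]
    rfl
  simp only [nabL, SM.ga, SM.dd, he, hc]

theorem tr_even (hΦ : FmApi h X Y ψ O Φ) (a b : ℕ) (y : Z.M) :
    tr Φ.sm S (2 * a) (2 * b) y = tr Z S a b y := by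
  change S.c (Φ.s (2 * a) (2 * b) y) = _
  rw [hΦ.s0]
  rfl

theorem mem_od (hΦ : FmApi h X Y ψ O Φ) {b c : ℕ} {z : X.M × Y.M} (hz : z ∈ O)
    (hb : z.1 ∈ X.U b) (hc : z.2 ∈ Y.U c) : ψ z ∈ Φ.sm.U (od b c) := by
  change ψ z ∈ Φ.U (od b c)
  rw [hΦ.U1]
  exact ⟨z, ⟨hz, hb, hc⟩, rfl⟩

theorem mem_ev (hΦ : FmApi h X Y ψ O Φ) {a : ℕ} {y : Z.M} (hy : y ∈ Z.U a) :
    y ∈ Φ.sm.U (2 * a) := by
  change y ∈ Φ.U (2 * a)
  rwa [hΦ.U0]

theorem tr_od (hΦ : FmApi h X Y ψ O Φ) (ts : TS h S₁ e S₂ S β) {b c b' c' : ℕ} {z : X.M × Y.M}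
    (hz : z ∈ O) (hc : z.2 ∈ Y.U c) (hc' : z.2 ∈ Y.U c') (u : Eu N₁) (u' : Eu N₂) :
    tr Φ.sm S (od b c) (od b' c') (ψ z) (β u u') =
      β (tr X S₁ b b' z.1 u) (tr Y S₂ c c' z.2 u') := by
  change S.c (Φ.s (od b c) (od b' c') (ψ z)) _ = _
  rw [hΦ.s1 b c b' c' z hz, map_mul, mul_apply_eq_comp,
    c_right ts (spinGroup.mem_even (Y.spin c c' z.2 ⟨hc, hc'⟩).1), c_left ts]
  rfl

/-- the components in the product frame -/
def cp (ψ : X.M × Y.M → Z.M) (O : Set (X.M × Y.M)) (S₁ : Spinor p N₁) (S₂ : Spinor q N₂)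
    (β : Eu N₁ →L[ℝ] Eu N₂ →L[ℝ] Eu N) (s : X.M → Eu N₁) (t : Y.M → Eu N₂) (b c : ℕ) :
    Z.M → Eu N := pull ψ O (bx β (loc X S₁ b s) (loc Y S₂ c t)) 0

theorem loc_push (hp : IsProd h X Y Z ψ O) (hΦ : FmApi h X Y ψ O Φ) (ts : TS h S₁ e S₂ S β)
    (s : X.M → Eu N₁) (t : Y.M → Eu N₂) {a b c : ℕ} {z : X.M × Y.M} (hz : z ∈ O)
    (ha : ψ z ∈ Z.U a) (hb : z.1 ∈ X.U b) (hc : z.2 ∈ Y.U c) :
    loc Z S a (push ψ O (pT X Y ψ Φ S) (bx β s t)) (ψ z) =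
      tr Φ.sm S (2 * a) (od b c) (ψ z) (cp ψ O S₁ S₂ β s t b c (ψ z)) := by
  have A := stALGB n N Φ.sm S
  have f1 := (stALGB p N₁ X S₁).mem_fr z.1
  have f2 := (stALGB q N₂ Y S₂).mem_fr z.2
  have f3 := mem_ev hΦ ((stALGB n N Z S).mem_fr (ψ z))
  rw [loc, push, cp, pull_j hp.2.1 _ _ hz, pull_j hp.2.1 _ _ hz, pT, ← tr_even hΦ,
    A.tr_tr (mem_ev hΦ ha) f3 (mem_od hΦ hz f1 f2),
    ← A.tr_tr (mem_ev hΦ ha) (mem_od hΦ hz hb hc) (mem_od hΦ hz f1 f2), bx, tr_od hΦ ts hz hc f2]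
  rfl

theorem loc_ev (hp : IsProd h X Y Z ψ O) (hΦ : FmApi h X Y ψ O Φ) (ts : TS h S₁ e S₂ S β)
    (s : X.M → Eu N₁) (t : Y.M → Eu N₂) {a b c : ℕ} {z : X.M × Y.M} (hz : z ∈ O)
    (ha : ψ z ∈ Z.U a) (hb : z.1 ∈ X.U b) (hc : z.2 ∈ Y.U c) :
    loc Z S a (push ψ O (pT X Y ψ Φ S) (bx β s t)) =ᶠ[𝓝 (ψ z)]
      fun y => tr Φ.sm S (2 * a) (od b c) y (cp ψ O S₁ S₂ β s t b c y) := by
  filter_upwards [(Z.isOpen a).mem_nhds ha, (Φ.sm.isOpen _).mem_nhds (mem_od hΦ hz hb hc)]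
    with y hy hy'
  change y ∈ Φ.U (od b c) at hy'
  rw [hΦ.U1] at hy'
  obtain ⟨w, ⟨h1, h2, h3⟩, rfl⟩ := hy'
  exact loc_push hp hΦ ts s t h1 hy h2 h3

theorem bx_sm {s : X.M → Eu N₁} {t : Y.M → Eu N₂} {z : X.M × Y.M}
    (hs : ContMDiffAt (𝓡 p) 𝓘(ℝ, Eu N₁) ∞ s z.1) (ht : ContMDiffAt (𝓡 q) 𝓘(ℝ, Eu N₂) ∞ t z.2) :
    ContMDiffAt ((𝓡 p).prod (𝓡 q)) 𝓘(ℝ, Eu N) ∞ (bx β s t) z :=
  ((β.contMDiffAt.comp z.1 hs).comp z contMDiffAt_fst).clm_apply (ht.comp z contMDiffAt_snd)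

theorem loc_sm {s : X.M → Eu N₁} (hs : IsT X S₁ s) {b : ℕ} {x : X.M} (hb : x ∈ X.U b) :
    ContMDiffAt (𝓡 p) 𝓘(ℝ, Eu N₁) ∞ (loc X S₁ b s) x :=
  (hs.sm b).contMDiffAt ((X.isOpen b).mem_nhds hb)

theorem cp_sm (hp : IsProd h X Y Z ψ O) (hO : IsOpen O) {s : X.M → Eu N₁} {t : Y.M → Eu N₂}
    (hs : IsT X S₁ s) (ht : IsT Y S₂ t) {b c : ℕ} {z : X.M × Y.M} (hz : z ∈ O)
    (hb : z.1 ∈ X.U b) (hc : z.2 ∈ Y.U c) :
    ContMDiffAt (𝓡 n) 𝓘(ℝ, Eu N) ∞ (cp ψ O S₁ S₂ β s t b c) (ψ z) :=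
  contMDiffAt_pull hO hp.2.1 hz (hp.1 ⟨z, hz⟩) (bx_sm (loc_sm hs hb) (loc_sm ht hc)) 0

theorem mf_bx {s : X.M → Eu N₁} {t : Y.M → Eu N₂} {z : X.M × Y.M}
    (hs : ContMDiffAt (𝓡 p) 𝓘(ℝ, Eu N₁) ∞ s z.1) (ht : ContMDiffAt (𝓡 q) 𝓘(ℝ, Eu N₂) ∞ t z.2)
    (v : Eu p) (w : Eu q) :
    (mfderiv ((𝓡 p).prod (𝓡 q)) 𝓘(ℝ, Eu N) (bx β s t) z (v, w) : Eu N) =
      β (mfderiv (𝓡 p) 𝓘(ℝ, Eu N₁) s z.1 v) (t z.2) +
        β (s z.1) (mfderiv (𝓡 q) 𝓘(ℝ, Eu N₂) t z.2 w) := by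
  rw [PG.mfderiv_prod ((bx_sm hs ht).mdifferentiableAt (by simp))]
  have h1 := ((β.flip (t z.2)).hasMFDerivAt.comp z.1
    (hs.mdifferentiableAt (by simp)).hasMFDerivAt).mfderiv
  have h2 := ((β (s z.1)).hasMFDerivAt.comp z.2
    (ht.mdifferentiableAt (by simp)).hasMFDerivAt).mfderiv
  exact congrArg₂ (· + ·) (DFunLike.congr_fun h1 v) (DFunLike.congr_fun h2 w)

theorem ga_od (hΦ : FmApi h X Y ψ O Φ) {b c : ℕ} {z : X.M × Y.M} (hz : z ∈ O)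
    (hb : z.1 ∈ X.U b) (hc : z.2 ∈ Y.U c) (i j k : Fin p ⊕ Fin q) :
    Φ.sm.ga (od b c) (ix h i) (ix h j) (ix h k) (ψ z) =
      blk3 (fun i j k => X.ga b i j k z.1) (fun i j k => Y.ga c i j k z.2) i j k := by
  rw [SM.ga, hΦ.cc b c i j k z hz hb hc, hΦ.cc b c j k i z hz hb hc, hΦ.cc b c k i j z hz hb hc]
  rcases i with i | i <;> rcases j with j | j <;> rcases k with k | k <;> simp [blk3, SM.ga]

theorem nabL_l (hp : IsProd h X Y Z ψ O) (hO : IsOpen O) (hΦ : FmApi h X Y ψ O Φ)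
    (ts : TS h S₁ e S₂ S β) {s : X.M → Eu N₁} {t : Y.M → Eu N₂} (hs : IsT X S₁ s)
    (ht : IsT Y S₂ t) {b c : ℕ} {z : X.M × Y.M} (hz : z ∈ O) (hb : z.1 ∈ X.U b)
    (hc : z.2 ∈ Y.U c) (i : Fin p) :
    nabL Φ.sm S (od b c) (il h i) (cp ψ O S₁ S₂ β s t b c) (ψ z) =
      β (nabL X S₁ b i (loc X S₁ b s) z.1) (loc Y S₂ c t z.2) := by
  have g1 := fun j k => ga_od hΦ hz hb hc (.inl i) (.inl j) (.inl k)
  have g2 := fun j k => ga_od hΦ hz hb hc (.inl i) (.inl j) (.inr k)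
  have g3 := fun j k => ga_od hΦ hz hb hc (.inl i) (.inr j) (.inl k)
  have g4 := fun j k => ga_od hΦ hz hb hc (.inl i) (.inr j) (.inr k)
  simp only [ix, Sum.elim_inl, Sum.elim_inr, blk3] at g1 g2 g3 g4
  have k : Φ.sm.dd (od b c) (il h i) (cp ψ O S₁ S₂ β s t b c) (ψ z) =
      β (X.dd b i (loc X S₁ b s) z.1) (loc Y S₂ c t z.2) := by
    rw [hΦ.ddl _ b c i z hz, cp, (pull_comp_ev hO hp.2.1 hz _ _).mfderiv_eq]
    refine (mf_bx (loc_sm hs hb) (loc_sm ht hc) (X.e b i z.1) 0).trans ?_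
    have k0 : (mfderiv (𝓡 q) 𝓘(ℝ, Eu N₂) (loc Y S₂ c t) z.2 (0 : Eu q) : Eu N₂) = (0 : Eu N₂) :=
      ContinuousLinearMap.map_zero _
    rw [k0, map_zero, add_zero]
    rfl
  rw [nabL, k, cp, pull_j hp.2.1 _ _ hz]
  simp only [sum_split h, g1, g2, g3, g4, bx, cc_l ts, zero_smul, Finset.sum_const_zero, add_zero,
    nabL, map_add, map_smul, map_sum, _root_.add_apply, _root_.smul_apply, _root_.sum_apply]

theorem nabL_r (hp : IsProd h X Y Z ψ O) (hO : IsOpen O) (hΦ : FmApi h X Y ψ O Φ)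
    (ts : TS h S₁ e S₂ S β) {s : X.M → Eu N₁} {t : Y.M → Eu N₂} (hs : IsT X S₁ s)
    (ht : IsT Y S₂ t) {b c : ℕ} {z : X.M × Y.M} (hz : z ∈ O) (hb : z.1 ∈ X.U b)
    (hc : z.2 ∈ Y.U c) (i : Fin q) :
    nabL Φ.sm S (od b c) (ir h i) (cp ψ O S₁ S₂ β s t b c) (ψ z) =
      β (loc X S₁ b s z.1) (nabL Y S₂ c i (loc Y S₂ c t) z.2) := by
  have g1 := fun j k => ga_od hΦ hz hb hc (.inr i) (.inl j) (.inl k)
  have g2 := fun j k => ga_od hΦ hz hb hc (.inr i) (.inl j) (.inr k)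
  have g3 := fun j k => ga_od hΦ hz hb hc (.inr i) (.inr j) (.inl k)
  have g4 := fun j k => ga_od hΦ hz hb hc (.inr i) (.inr j) (.inr k)
  simp only [ix, Sum.elim_inl, Sum.elim_inr, blk3] at g1 g2 g3 g4
  have k : Φ.sm.dd (od b c) (ir h i) (cp ψ O S₁ S₂ β s t b c) (ψ z) =
      β (loc X S₁ b s z.1) (Y.dd c i (loc Y S₂ c t) z.2) := by
    rw [hΦ.ddr _ b c i z hz, cp, (pull_comp_ev hO hp.2.1 hz _ _).mfderiv_eq]
    refine (mf_bx (loc_sm hs hb) (loc_sm ht hc) 0 (Y.e c i z.2)).trans ?_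
    have k0 : (mfderiv (𝓡 p) 𝓘(ℝ, Eu N₁) (loc X S₁ b s) z.1 (0 : Eu p) : Eu N₁) = (0 : Eu N₁) :=
      ContinuousLinearMap.map_zero _
    rw [k0, map_zero, _root_.zero_apply, zero_add]
    rfl
  rw [nabL, k, cp, pull_j hp.2.1 _ _ hz]
  simp only [sum_split h, g1, g2, g3, g4, bx, cc_r ts, zero_smul, Finset.sum_const_zero, add_zero,
    zero_add, nabL, map_add, map_smul, map_sum]

end PTT

open PTT

theorem stPTT : St_PTT := by
  intro p q n N₁ N₂ N h X Y Z ψ O hp hO Φ hΦ S₁ e S₂ S β ts s t hs ht hst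
  have AX := stALGB p N₁ X S₁
  have AY := stALGB q N₂ Y S₂
  have AZ := stALGB n N Z S
  have A := stALGB n N Φ.sm S
  have Ga := stGAU n N Φ.sm S
  have L := stLOC n N Φ.sm S
  set σ := push ψ O (pT X Y ψ Φ S) (bx β s t) with hσ
  have hK : IsCompact (ψ '' (tsupport s ×ˢ tsupport t)) :=
    (hs.cpt.isCompact.prod ht.cpt.isCompact).image_of_continuousOn
      (hp.1.contMDiffOn.continuousOn.mono hst)
  have h0 : ∀ y, y ∉ ψ '' (tsupport s ×ˢ tsupport t) → σ y = 0 := by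
    intro y hy
    by_cases hy' : y ∈ ψ '' O
    · obtain ⟨z, hz, rfl⟩ := hy'
      rw [hσ, push, pull_j hp.2.1 _ _ hz, bx]
      by_cases h1 : z.1 ∈ tsupport s
      · rw [image_eq_zero_of_notMem_tsupport fun h2 : z.2 ∈ tsupport t => hy ⟨z, ⟨h1, h2⟩, rfl⟩,
          map_zero, map_zero]
      · rw [image_eq_zero_of_notMem_tsupport h1, map_zero, _root_.zero_apply, map_zero]
    · exact pull_off _ _ hy'
  have hsub : tsupport σ ⊆ ψ '' (tsupport s ×ˢ tsupport t) :=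
    closure_minimal (fun y hy => by_contra fun h' => hy (h0 y h')) hK.isClosed
  have key : ∀ z ∈ O, ∀ i, nab Z S i σ (ψ z) = nabL Φ.sm S (2 * Z.fr (ψ z)) i (fun y =>
      tr Φ.sm S (2 * Z.fr (ψ z)) (od (X.fr z.1) (Y.fr z.2)) y
        (cp ψ O S₁ S₂ β s t (X.fr z.1) (Y.fr z.2) y)) (ψ z) := fun z hz i => by
    rw [nab, ← nabL_even hΦ]
    exact L.nabL_congr (loc_ev hp hΦ ts s t hz (AZ.mem_fr _) (AX.mem_fr _) (AY.mem_fr _)) _ _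
  have kl : ∀ z ∈ O, ∀ i, nabL Φ.sm S (od (X.fr z.1) (Y.fr z.2)) (il h i)
      (cp ψ O S₁ S₂ β s t (X.fr z.1) (Y.fr z.2)) (ψ z) = β (nab X S₁ i s z.1) (t z.2) :=
    fun z hz i => by
      rw [nabL_l hp hO hΦ ts hs ht hz (AX.mem_fr _) (AY.mem_fr _), loc, AY.tr_self (AY.mem_fr _)]
      rfl
  have kr : ∀ z ∈ O, ∀ i, nabL Φ.sm S (od (X.fr z.1) (Y.fr z.2)) (ir h i)
      (cp ψ O S₁ S₂ β s t (X.fr z.1) (Y.fr z.2)) (ψ z) = β (s z.1) (nab Y S₂ i t z.2) :=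
    fun z hz i => by
      rw [nabL_r hp hO hΦ ts hs ht hz (AX.mem_fr _) (AY.mem_fr _), loc, AX.tr_self (AX.mem_fr _)]
      rfl
  have kd : ∀ z ∈ O, MDifferentiableAt (𝓡 n) 𝓘(ℝ, Eu N)
      (cp ψ O S₁ S₂ β s t (X.fr z.1) (Y.fr z.2)) (ψ z) := fun z hz =>
    (cp_sm hp hO hs ht hz (AX.mem_fr _) (AY.mem_fr _)).mdifferentiableAt (by simp)
  refine ⟨⟨hK.of_isClosed_subset (isClosed_tsupport _) hsub, fun a y hy => ?_⟩, hsub,
    fun z hz => ?_, fun z hz i => ?_⟩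
  · by_cases hy' : y ∈ ψ '' (tsupport s ×ˢ tsupport t)
    · obtain ⟨z, hz, rfl⟩ := hy'
      have hz' := hst hz
      have m1 := mem_ev hΦ hy
      have m2 := mem_od hΦ hz' (AX.mem_fr _) (AY.mem_fr _)
      refine ((((A.tr_sm _ _).contMDiffAt (((Φ.sm.isOpen _).inter (Φ.sm.isOpen _)).mem_nhds
        ⟨m1, m2⟩)).clm_apply (cp_sm (β := β) hp hO hs ht hz' (AX.mem_fr _)
        (AY.mem_fr _))).congr_of_eventuallyEq ?_).contMDiffWithinAt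
      exact loc_ev hp hΦ ts s t hz' hy (AX.mem_fr _) (AY.mem_fr _)
    · refine ((contMDiffAt_const (c := (0 : Eu N))).congr_of_eventuallyEq ?_).contMDiffWithinAt
      filter_upwards [hK.isClosed.isOpen_compl.mem_nhds hy'] with w hw
      rw [loc, h0 w hw, map_zero]
  · have h1 := Ga.dirac (mem_ev hΦ (AZ.mem_fr (ψ z)))
      (mem_od hΦ hz (AX.mem_fr _) (AY.mem_fr _)) (kd z hz)
    rw [dirac_eq, dirac_eq, sum_split h (fun i => gam S i (nabL Φ.sm S (od _ _) i _ _))] at h1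
    simp only [dir_eq, key z hz, h1, map_sum, _root_.sum_apply]
    exact congrArg (pT X Y ψ Φ S z) (congrArg₂ (· + ·)
      (Finset.sum_congr rfl fun j _ => (congrArg _ (kl z hz j)).trans (gam_l ts j _ _))
      (Finset.sum_congr rfl fun j _ => (congrArg _ (kr z hz j)).trans (gam_r ts j _ _)))
  · rw [key z hz, Ga.nabL (mem_ev hΦ (AZ.mem_fr (ψ z)))
      (mem_od hΦ hz (AX.mem_fr _) (AY.mem_fr _)) (kd z hz), sum_split h]
    exact congrArg₂ (· + ·)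
      (Finset.sum_congr rfl fun j _ => congrArg (fun v => _ • pT X Y ψ Φ S z v) (kl z hz j))
      (Finset.sum_congr rfl fun j _ => congrArg (fun v => _ • pT X Y ψ Φ S z v) (kr z hz j))

end Pool.Agent.Lib.WD
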