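import Pool.Agent.Lib.WD.Blue

/-! Block SCAL: curvature bounds and functions of the height. -/

noncomputable section

open Set Function MeasureTheory CliffordAlgebra
open scoped Manifold ContDiff InnerProductSpace

namespace Pool.Agent.Lib.WD

open CX AN
open ANA.Cyl (ht)
open ANA.CylB (pull)

namespace SCAL

open ANA.Cyl Filter Topology

variable {G : Type} [Group G] {m : ℕ}

theorem nbd_iff (x : Sing G m) (p : x.X.M) : p ∈ x.nbd ↔ ht x p < 2 := by
  rw [← not_le, le_ht_iff x two_pos]; rfl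

theorem nbd_open (x : Sing G m) : IsOpen x.nbd := (isClosed_cyl x two_pos).isOpen_compl

theorem core_sub (x : Sing G m) : x.core ⊆ x.nbd := fun p hp =>
  (nbd_iff x p).2 (((mem_core_iff x).1 hp).trans_lt one_lt_two)

theorem scal_bm (x : Sing G m) : Bm x.X.scal := by
  have := x.cpt
  have hb : BorelSpace x.X.M := ⟨rfl⟩
  have hc := continuous_scal x.N (CYL.gauge stGAU x.N)
  have hX := continuous_scal x.X (CYL.gauge stGAU x.X)
  obtain ⟨C₁, h1⟩ := isCompact_univ.bddAbove_image hc.abs.continuousOn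
  obtain ⟨C₂, h2⟩ := x.core_cpt.bddAbove_image hX.abs.continuousOn
  refine ⟨hX.measurable, max C₁ C₂, fun p => ?_⟩
  rcases le_or_gt (ht x p) 1 with h | h
  · exact (h2 ⟨p, (mem_core_iff x).2 h, rfl⟩).trans (le_max_right _ _)
  · obtain ⟨z, hz, rfl, -⟩ := exists_of_ht_pos x (one_pos.trans h)
    rw [scal_j x (CYL.gauge stGAU) hz]
    exact (h1 ⟨z.1, trivial, rfl⟩).trans (le_max_left _ _)

theorem comp (x : Sing G m) {η : ℝ → ℝ} {s R : ℝ} (hη : ContDiff ℝ ∞ η) (hs : 0 < s)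
    (h0 : ∀ t < s, η t = η 0) (hR : ∀ t, R ≤ t → η t = η R) :
    Sm x.X (fun p => η (ht x p)) ∧ (Bm fun p => |deriv η (ht x p)|) ∧
      (HasCompactSupport fun p => η (ht x p) - η R) ∧
      ∀ p, ∑ i, dv x.X i (fun p => η (ht x p)) p ^ 2 = deriv η (ht x p) ^ 2 := by
  have hb : BorelSpace x.X.M := ⟨rfl⟩
  have hd : Continuous (deriv η) := hη.continuous_deriv (by simp)
  refine ⟨CYL.sm_of_inv x (contMDiff_comp_ht x hη hs h0) (R := R) (g := fun _ => η R)
    fun z hz h => ?_, ⟨(hd.comp (continuous_ht x)).abs.measurable, ?_⟩, ?_,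
    fun p => g2_comp_ht x (hη.differentiable (by simp)) hs h0 p⟩
  · rw [ht_j x hz]; exact hR _ h
  · obtain ⟨C, hC⟩ := (isCompact_Icc (a := (0 : ℝ)) (b := R)).bddAbove_image hd.abs.continuousOn
    refine ⟨max C 0, fun p => ?_⟩
    rw [abs_abs]
    rcases le_or_gt (ht x p) R with h | h
    · exact (hC ⟨_, ⟨ht_nonneg x p, h⟩, rfl⟩).trans (le_max_left _ _)
    · have h1 : η =ᶠ[𝓝 (ht x p)] fun _ => η R :=
        (eventually_gt_nhds h).mono fun t h2 => hR t h2.le
      rw [h1.deriv_eq, deriv_const, abs_zero]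
      exact le_max_right _ _
  · exact HasCompactSupport.intro (isCompact_ht_le x R) fun p hp =>
      sub_eq_zero.2 (hR _ (le_of_lt (lt_of_not_ge hp)))

theorem continuous_tc : Continuous tc :=
  (EuclideanSpace.proj (0 : Fin 1) : Eu 1 →L[ℝ] ℝ).continuous

theorem eO_open (x : Sing G m) (ς : ℤ) : IsOpen (eO x ς) :=
  ((nbd_open x).preimage continuous_fst).inter
    (isOpen_lt continuous_const (continuous_const.mul (continuous_tc.comp continuous_snd)))

theorem mem_O {w : Sing G (m + 1)} {x : Sing G m} {ς : ℤ} (α : x.X.M → w.N.M)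
    {z : x.X.M × LN.M} (hz : z ∈ eO x ς) : ((α z.1, (ς : ℝ) • co z.2) : w.N.M × Eu 1) ∈ O w := hz.2

theorem mem_img {w : Sing G (m + 1)} {x : Sing G m} {ς : ℤ} {α : x.X.M → w.N.M}
    (h : Emb x w ς α) {y : w.N.M} {t : Eu 1} (ht : 0 < t 0) :
    w.j (y, t) ∈ eψ x w ς α '' eO x ς ↔ y ∈ α '' x.nbd := by
  have h1 : (ς : ℝ) * ς = 1 := by rcases h.sg with rfl | rfl <;> simp
  constructor
  · rintro ⟨z, hz, e⟩
    exact ⟨z.1, hz.1, congrArg Prod.fst (inj w (mem_O α hz) ht e)⟩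
  · rintro ⟨q, hq, rfl⟩
    refine ⟨(q, ((ς : ℝ) • t : Eu 1)), ⟨hq, ?_⟩, ?_⟩
    · change 0 < (ς : ℝ) * ((ς : ℝ) * t 0)
      rwa [← mul_assoc, h1, one_mul]
    · change w.j (α q, (ς : ℝ) • (ς : ℝ) • t) = _
      rw [smul_smul, h1, one_smul]

theorem img_open {w : Sing G (m + 1)} {x : Sing G m} {ς : ℤ} {α : x.X.M → w.N.M}
    (h : Emb x w ς α) : IsOpen (α '' x.nbd) := by
  have h0 : 0 < (bv 0 : Eu 1) 0 := by simp [bv]
  have h1 : Continuous fun y : w.N.M => w.j (y, bv 0) :=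
    w.prod.1.contMDiffOn.continuousOn.comp_continuous (continuous_id.prodMk continuous_const)
      fun _ => h0
  have h2 := (ANA.CylB.isOpen_image h.prod.1 (eO_open x ς) subset_rfl).preimage h1
  convert h2 using 1
  ext y
  exact (mem_img h h0).symm

end SCAL

open SCAL ANA.Cyl in
theorem stSCAL : St_SCAL := by
  intro G _ m
  refine ⟨fun x => ⟨scal_bm x, nbd_open x, nbd_iff x, fun η s R hη hs h0 hR => comp x hη hs h0 hR⟩,
    fun w x ς α _ => ⟨eO_open x ς, fun z hz => ht_j w (mem_O α hz)⟩,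
    fun w x y ς ς' α β hx hy => ⟨fun hd => ?_, fun hp => ?_⟩⟩
  · rw [Set.disjoint_left]
    rintro _ ⟨z, hz, rfl⟩ h
    exact Set.disjoint_left.1 hd ⟨z.1, hz.1, rfl⟩ ((mem_img hy (mem_O α hz)).1 h)
  · have := w.cpt
    have hc := continuous_scal w.N (CYL.gauge stGAU w.N)
    obtain ⟨κ, h0, hκ⟩ := ((img_open hx).union (img_open hy)).isClosed_compl.isCompact.exists_forall_le'
      hc.continuousOn fun q hq => hp q (fun h => hq (Or.inl (image_mono (core_sub x) h)))
        fun h => hq (Or.inr (image_mono (core_sub y) h))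
    refine ⟨κ, h0, fun p h1 h2 h3 => ?_⟩
    obtain ⟨z, hz, rfl, -⟩ := exists_of_ht_pos w h3
    rw [scal_j w (CYL.gauge stGAU) hz]
    exact hκ _ fun h => h.elim (fun h => h1 ((mem_img hx hz).2 h)) fun h => h2 ((mem_img hy hz).2 h)

end Pool.Agent.Lib.WD
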