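import Pool.Agent.Lib.WD.PFR

/-! The cross terms of the coupling on test sections. -/

noncomputable section

open Set Function MeasureTheory CliffordAlgebra BCO ContinuousLinearMap
open scoped Manifold ContDiff InnerProductSpace

namespace Pool.Agent.Lib.WD

open CX AN
open ANA.Cyl (ht)
open ANA.CylB (pull pull_j pull_off)

namespace SD3

theorem bd_of_supp {η : ℝ → ℝ} (h : Continuous η) {a b : ℝ} (h0 : ∀ t, t ≤ a ∨ b ≤ t → η t = 0) :
    ∃ C, ∀ t, |η t| ≤ C := by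
  obtain ⟨C, hC⟩ := (isCompact_Icc (a := a) (b := b)).exists_bound_of_continuousOn h.continuousOn
  refine ⟨max C 0, fun t => ?_⟩
  by_cases ht : t ≤ a ∨ b ≤ t
  · rw [h0 t ht, abs_zero]; exact le_max_right _ _
  · push Not at ht
    exact (hC t ⟨ht.1.le, ht.2.le⟩).trans (le_max_left _ _)

theorem bm_fst {α β : Type} [MeasurableSpace α] [MeasurableSpace β] {f : α → ℝ} (h : Bm f) :
    Bm fun z : α × β => f z.1 :=
  ⟨h.1.comp measurable_fst, h.2.imp fun _ h z => h z.1⟩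

theorem bm_snd {α β : Type} [MeasurableSpace α] [MeasurableSpace β] {f : β → ℝ} (h : Bm f) :
    Bm fun z : α × β => f z.2 :=
  ⟨h.1.comp measurable_snd, h.2.imp fun _ h z => h z.2⟩

theorem bm_neg {α : Type} [MeasurableSpace α] {f : α → ℝ} (h : Bm f) : Bm fun z => -f z :=
  ⟨h.1.neg, h.2.imp fun _ h z => (abs_neg _).trans_le (h z)⟩

/-- Clifford multiplication by a vector with given components -/
def cc {n N k : ℕ} (S : Spinor n N) (ι : Fin k → Fin n) (d : Fin k → ℝ) : Eu N →L[ℝ] Eu N :=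
  ∑ j, d j • gam S (ι j)

theorem cc_apply {n N k : ℕ} (S : Spinor n N) (ι : Fin k → Fin n) (d : Fin k → ℝ) (u : Eu N) :
    cc S ι d u = ∑ j, d j • gam S (ι j) u := by
  simp only [cc, _root_.sum_apply, _root_.smul_apply]

theorem cc_sq {n N : ℕ} (X : SM n) (S : Spinor n N) (d : Fin n → ℝ) (u : Eu N) :
    cc S id d (cc S id d u) = -(∑ j, d j ^ 2) • u := by
  have h2 : cc S id d (cc S id d u) = ∑ i, ∑ j, (d i * d j) • gam S j (gam S i u) := by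
    simp only [cc_apply, map_sum, map_smul, Finset.smul_sum, smul_smul, id]
  have h1 : cc S id d (cc S id d u) = ∑ i, ∑ j, (d i * d j) • gam S i (gam S j u) := by
    rw [h2, Finset.sum_comm]
    simp only [mul_comm]
  have h3 : (2 : ℝ) • cc S id d (cc S id d u) = (2 : ℝ) • (-(∑ j, d j ^ 2) • u) := by
    rw [two_smul]
    nth_rewrite 1 [h1]
    rw [h2, ← Finset.sum_add_distrib]
    simp only [← Finset.sum_add_distrib, ← smul_add, (stALGB _ _ X S).gam_rel, smul_smul]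
    rw [← Finset.sum_neg_distrib, Finset.mul_sum, Finset.sum_smul]
    refine Finset.sum_congr rfl fun i _ => ?_
    rw [← Finset.sum_smul]
    congr 1
    simp only [mul_ite, mul_zero, Finset.sum_ite_eq, Finset.mem_univ, if_true]
    ring
  exact smul_right_injective _ two_ne_zero h3

theorem rot {n k l : ℕ} {W : Type} [AddCommGroup W] [Module ℝ W] (Ω : Fin n → Fin n → ℝ)
    (col : ∀ j k, ∑ i, Ω i j * Ω i k = if j = k then 1 else 0) (f : Fin k → Fin n)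
    (g : Fin l → Fin n) (hf : Injective f) (hfg : ∀ i j, f i ≠ g j) (c : Fin k → ℝ)
    (w : Fin k → W) (w' : Fin l → W) :
    ∑ i, (∑ j, Ω i (f j) * c j) • (∑ j, Ω i (f j) • w j + ∑ j, Ω i (g j) • w' j) =
      ∑ j, c j • w j := by
  have h1 : ∀ (b : Fin n) (y : W), ∑ i, (∑ j, Ω i (f j) * c j) • Ω i b • y =
      (∑ j, c j * if f j = b then 1 else 0) • y := fun b y => by
    simp only [smul_smul, ← Finset.sum_smul, Finset.sum_mul, ← col, Finset.mul_sum]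
    rw [Finset.sum_comm]
    congr 1
    exact Finset.sum_congr rfl fun _ _ => Finset.sum_congr rfl fun _ _ => by ring
  simp only [smul_add, Finset.smul_sum, Finset.sum_add_distrib]
  rw [Finset.sum_comm, Finset.sum_comm (γ := Fin n)]
  simp only [h1, hf.eq_iff, hfg, if_false, mul_zero, Finset.sum_const_zero, zero_smul, add_zero,
    mul_ite, mul_one, Finset.sum_ite_eq', Finset.mem_univ, if_true]

variable {G : Type} [Group G] {m N₁ N : ℕ} {D : CD G m N₁ N} (s : SD D)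

theorem gam_l (j : Fin (m + 1)) (u : Eu N₁) (u' : Eu 2) :
    gam D.S j.castSucc (D.b u u') = D.b (gam D.S₁ j u) u' := by
  have h := D.ts.l (bv j) u u'
  rw [PFR.inc_bv] at h
  exact h

theorem gam_r (u : Eu N₁) (u' : Eu 2) :
    gam D.S (Fin.last _) (D.b u u') = D.b (D.e u) (gam D.S₂ 0 u') := by
  have h := D.ts.r (bv 0) u u'
  rw [PFR.inc_bv] at h
  exact h

/-- Clifford multiplication by a gradient on the first factor -/
abbrev cv (f : s.x.X.M → ℝ) (p : s.x.X.M) : Eu N₁ →L[ℝ] Eu N₁ :=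
  cc D.S₁ id fun j => dv s.x.X j f p

/-- the same on the product -/
abbrev cw (f : s.x.X.M → ℝ) (p : s.x.X.M) : Eu N →L[ℝ] Eu N :=
  cc D.S Fin.castSucc fun j => dv s.x.X j f p

theorem cw_b (f : s.x.X.M → ℝ) (p : s.x.X.M) (u : Eu N₁) (u' : Eu 2) :
    cw s f p (D.b u u') = D.b (cv s f p u) u' := by
  simp only [cc_apply, gam_l, map_sum, map_smul, _root_.sum_apply, _root_.smul_apply, id]

theorem cV_eq (f : s.x.X.M → ℝ) (v : s.x.X.M → Eu N₁) (p : s.x.X.M) :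
    cV s.x.X D.S₁ f v p = cv s f p (v p) := (cc_apply _ _ _ _).symm

theorem cv_e (f : s.x.X.M → ℝ) (p : s.x.X.M) (u : Eu N₁) :
    cv s f p (D.e u) = -D.e (cv s f p u) := by
  simp only [cc_apply, map_sum, map_smul, ← Finset.sum_neg_distrib, ← smul_neg, id]
  refine Finset.sum_congr rfl fun j _ => congrArg _ ?_
  exact (neg_neg _).symm.trans (congrArg Neg.neg (D.ts.gr.anti (bv j) u).symm)

theorem cg_cl {f : s.x.X.M → ℝ} (hf : Sm s.x.X f) {F : s.x.X.M × LN.M → Eu N}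
    (hF : MemLp F 2 (s.μ.prod D.ν)) : MemLp (fun z => cw s f z.1 (F z)) 2 (s.μ.prod D.ν) ∧
    s.cg f (cl _ F) = cl _ fun z => cw s f z.1 (F z) := by
  have A := stMUL _ (Eu N) (s.μ.prod D.ν)
  have h := fun j : Fin (m + 1) => A.mul_cl (bm_fst (((smb_holds _ _).bm hf).2 j))
    (A.cst_cl (gam D.S j.castSucc) hF).1
  simp only [cc_apply]
  refine ⟨memLp_finsetSum _ fun j _ => (h j).1, ?_⟩
  rw [A.cl_sum _ _ fun j _ => (h j).1, SD.cg, _root_.sum_apply]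
  refine Finset.sum_congr rfl fun j _ => ?_
  rw [mul_apply_eq_comp, (A.cst_cl _ hF).2, (h j).2]

theorem cg_skew {f : s.x.X.M → ℝ} (hf : Sm s.x.X f) (a b : s.H) :
    ⟪a, s.cg f b⟫_ℝ = -⟪s.cg f a, b⟫_ℝ := by
  have A := stMUL _ (Eu N) (s.μ.prod D.ν)
  obtain ⟨a1, a2⟩ := cg_cl s hf (Lp.memLp a)
  obtain ⟨b1, b2⟩ := cg_cl s hf (Lp.memLp b)
  have h1 := (A.inner_cl (Lp.memLp a) b1).2
  have h2 := (A.inner_cl a1 (Lp.memLp b)).2
  rw [← b2] at h1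
  rw [← a2] at h2
  simp only [A.cl_coe] at h1 h2
  rw [h1, h2, ← integral_neg]
  refine integral_congr_ae (.of_forall fun z => ?_)
  simp only [cc_apply, inner_sum, sum_inner, inner_smul_left, inner_smul_right,
    (stALGB _ _ D.w.X D.S).gam_skew, ← Finset.sum_neg_distrib, mul_neg, neg_neg, conj_trivial]

/-- the embedding -/
abbrev ψ : s.x.X.M × LN.M → D.w.X.M := eψ s.x D.w s.ς s.α

/-- the domain -/
abbrev O : Set (s.x.X.M × LN.M) := eO s.x s.ς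

/-- the transport -/
abbrev ps (F : s.x.X.M × LN.M → Eu N) : D.w.X.M → Eu N := push (ψ s) (O s) s.T F

theorem ps_on (F : s.x.X.M × LN.M → Eu N) {z : s.x.X.M × LN.M} (hz : z ∈ O s) :
    ps s F (ψ s z) = s.T z (F z) := pull_j s.emb.prod.2.1 _ _ hz

theorem ps_off (F : s.x.X.M × LN.M → Eu N) {y : D.w.X.M} (hy : y ∉ ψ s '' O s) :
    ps s F y = 0 := pull_off _ _ hy

/-- the Dirac operator on product sections -/
def d0 (v : s.x.X.M → Eu N₁) (t : LN.M → Eu 2) (z : s.x.X.M × LN.M) : Eu N :=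
  D.b (dir s.x.X D.S₁ v z.1) (t z.2) + D.b (D.e (v z.1)) (dir LN D.S₂ t z.2)

variable {v : s.x.X.M → Eu N₁} {t : LN.M → Eu 2}

theorem mem_d0 (hv : IsT s.x.X D.S₁ v) (ht : IsT LN D.S₂ t) :
    MemLp (d0 s v t) 2 (s.μ.prod D.ν) :=
  (s.prd.mem _ _ ((core_holds _ _ _ _).dir hv) ht).1.add
    (s.prd.mem _ _ ((core_holds _ _ _ _).w D.ts.gr hv) ((core_holds _ _ _ _).dir ht)).1

theorem dir_ps (hv : IsT s.x.X D.S₁ v) (ht : IsT LN D.S₂ t) (h : tsupport v ×ˢ tsupport t ⊆ O s) :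
    dir D.w.X D.S (ps s (bx D.b v t)) = ps s (d0 s v t) := by
  obtain ⟨-, h2, h3, -⟩ := s.pt.t v t hv ht h
  funext y
  by_cases hy : y ∈ ψ s '' O s
  · obtain ⟨z, hz, rfl⟩ := hy
    rw [ps_on s _ hz]
    exact h3 z hz
  · rw [ps_off s _ hy]
    exact (core_holds _ _ _ _).dir_zero fun h' => hy (image_mono h (h2 h'))

theorem cV_ps {Φ : D.w.X.M → ℝ} {f : s.x.X.M → ℝ} {K : Set LN.M}
    (h : ∀ z ∈ O s, z.2 ∈ K → ∀ i, dv D.w.X i Φ (ψ s z) =
      ∑ j : Fin (m + 1), s.Ω z i j.castSucc * dv s.x.X j f z.1)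
    {F : s.x.X.M × LN.M → Eu N} (hF : ∀ z, z.2 ∉ K → F z = 0) :
    cV D.w.X D.S Φ (ps s F) = ps s fun z => cw s f z.1 (F z) := by
  funext y
  by_cases hy : y ∈ ψ s '' O s
  · obtain ⟨z, hz, rfl⟩ := hy
    rw [ps_on s _ hz, cV, ps_on s _ hz]
    by_cases hK : z.2 ∈ K
    · simp only [h z hz hK, cc_apply, map_sum, map_smul, s.pt.a.gam z hz, Finset.sum_smul,
        Finset.smul_sum, smul_smul]
      rw [Finset.sum_comm]
      simp only [mul_comm]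
    · simp only [hF z hK, map_zero, smul_zero, Finset.sum_const_zero]
  · simp only [cV, ps_off s _ hy, map_zero, smul_zero, Finset.sum_const_zero]

theorem nV_ps {Φ : D.w.X.M → ℝ} {f : s.x.X.M → ℝ}
    (h : ∀ z ∈ O s, z.2 ∈ tsupport t → ∀ i, dv D.w.X i Φ (ψ s z) =
      ∑ j : Fin (m + 1), s.Ω z i j.castSucc * dv s.x.X j f z.1)
    (hv : IsT s.x.X D.S₁ v) (ht : IsT LN D.S₂ t) (hs : tsupport v ×ˢ tsupport t ⊆ O s) :
    nV D.w.X D.S Φ (ps s (bx D.b v t)) = ps s (bx D.b (nV s.x.X D.S₁ f v) t) := by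
  obtain ⟨-, h2, -, h3⟩ := s.pt.t v t hv ht hs
  funext y
  by_cases hy : y ∈ ψ s '' O s
  · obtain ⟨z, hz, rfl⟩ := hy
    rw [ps_on s _ hz, nV]
    simp only [h3 z hz]
    by_cases hK : z.2 ∈ tsupport t
    · simp only [h z hz hK]
      refine (rot (s.Ω z) (s.pt.a.col z hz) Fin.castSucc _ (Fin.castSucc_injective _)
        (PFR.il_ne_ir (rfl : m + 1 + 1 = _)) _ _ _).trans ?_
      simp only [bx, nV, map_sum, map_smul, _root_.sum_apply, _root_.smul_apply]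
    · simp only [bx, image_eq_zero_of_notMem_tsupport hK, (core_holds _ _ LN D.S₂).nab_zero hK,
        map_zero, smul_zero, Finset.sum_const_zero, add_zero]
  · rw [ps_off s _ hy, nV]
    simp only [(core_holds _ _ _ D.S).nab_zero fun h' => hy (image_mono hs (h2 h')), smul_zero,
      Finset.sum_const_zero]

/-! ### The functions -/

theorem fx_api (hS : St_SCAL) {η : ℝ → ℝ} (h1 : ContDiff ℝ ∞ η) (h2 : ∀ r < (1 / 4 : ℝ), η r = η 0)
    (h3 : ∀ r, (3 / 4 : ℝ) ≤ r → η r = 0) : Sm s.x.X (s.fx η) ∧ HasCompactSupport (s.fx η) ∧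
    (∀ p, ∑ i, dv s.x.X i (s.fx η) p ^ 2 = deriv η (ht s.x p) ^ 2) ∧
    tsupport (s.fx η) ⊆ {p | ht s.x p ≤ 3 / 4} := by
  obtain ⟨a1, -, a3, a4⟩ := ((hS G m).1 s.x).2.2.2 η (1 / 4) (3 / 4) h1 (by norm_num) h2
    fun r hr => (h3 r hr).trans (h3 _ le_rfl).symm
  simp only [h3 _ le_rfl, sub_zero] at a3
  exact ⟨a1, a3, a4, closure_minimal (fun p hp => le_of_not_ge fun h => hp (h3 _ h))
    (isClosed_le (ANA.Cyl.continuous_ht s.x) continuous_const)⟩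

theorem fl_api (hF : St_FLT) {η : ℝ → ℝ} (h1 : ContDiff ℝ ∞ η)
    (h2 : ∀ r, r ≤ D.R + 1 ∨ D.F.R₀ ≤ r → η r = 0) :
    ContMDiff (𝓡 1) 𝓘(ℝ, ℝ) ∞ (s.fl η) ∧ Bm (s.fl η) ∧ HasCompactSupport (s.fl η) ∧
    (∀ i r, dv LN i (s.fl η) r = s.ς * s.fl (deriv η) r) ∧
    (∀ r ∈ tsupport (s.fl η), s.ς * tc r ∈ tsupport η) ∧
    ∀ r ∈ tsupport (s.fl η), 0 < s.ς * tc r := by
  obtain ⟨φ, hφ⟩ := hF.homeo
  have c0 : Continuous tc := φ.continuous.congr hφ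
  have c1 : Continuous fun r : LN.M => (s.ς : ℝ) * tc r := continuous_const.mul c0
  have sm : ContMDiff (𝓡 1) 𝓘(ℝ, ℝ) ∞ (s.fl η) :=
    (hF.sm fun r => η (s.ς * r)).2 (h1.comp (contDiff_const.mul contDiff_id))
  have a1 : ∀ r ∈ tsupport (s.fl η), s.ς * tc r ∈ tsupport η := fun r hr =>
    closure_minimal (t := (fun r : LN.M => (s.ς : ℝ) * tc r) ⁻¹' tsupport η)
      (fun r hr => subset_tsupport η hr) ((isClosed_tsupport η).preimage c1) hr
  have a2 : tsupport η ⊆ Icc (D.R + 1) D.F.R₀ := closure_minimal (fun r hr =>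
    ⟨le_of_not_ge fun h => hr (h2 r (.inl h)), le_of_not_ge fun h => hr (h2 r (.inr h))⟩)
    isClosed_Icc
  refine ⟨sm, ⟨sm.continuous.measurable, (bd_of_supp h1.continuous h2).imp fun _ h _ => h _⟩, ?_,
    fun i r => hF.dv η h1 _ i r, a1, fun r hr => ?_⟩
  · refine (φ.isCompact_preimage.2 (isCompact_Icc (a := -|D.F.R₀|) (b := |D.F.R₀|))).of_isClosed_subset
      (isClosed_tsupport _) fun r hr => ?_
    have h3 := a2 (a1 r hr)
    have h4 := D.hR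
    have h5 := le_abs_self D.F.R₀
    rw [mem_preimage, hφ]
    rcases s.emb.sg with e | e <;> simp only [e, Int.cast_one, Int.cast_neg, one_mul, neg_mul,
      mem_Icc] at h3 ⊢ <;> constructor <;> linarith [h3.1, h3.2]
  · linarith [(a2 (a1 r hr)).1, D.hR]

theorem sub_O (hS : St_SCAL) {A : Set s.x.X.M} {B : Set LN.M} (hA : A ⊆ {p | ht s.x p ≤ 3 / 4})
    (hB : ∀ r ∈ B, 0 < s.ς * tc r) : A ×ˢ B ⊆ O s := fun z hz =>
  ⟨(((hS G m).1 s.x).2.2.1 _).2 (lt_of_le_of_lt (hA hz.1) (by norm_num)), hB _ hz.2⟩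

end SD3

open SD3 in
theorem stSD3 (hF : St_FLT) (hS : St_SCAL) (hP : St_POL) (hC : St_COL) : St_SD3 := by
  intro G _ m N₁ N D s u v t hu hv ht'
  have A := stMUL _ (Eu N) (s.μ.prod D.ν)
  have B := stMUL _ (Eu N) D.ρ
  have cX := core_holds _ _ s.x.X D.S₁
  have cL := core_holds _ _ LN D.S₂
  have sd : ContDiff ℝ ∞ (deriv D.F.Φ) := D.F.smΦ.iterate_deriv 1
  obtain ⟨Φ1, Φ2, Φ3, Φ4⟩ := fx_api s hS D.F.smΦ (fun r h => (D.F.lo r h).1)
    fun r h => (D.F.hi r h).1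
  obtain ⟨k1, -, -, -⟩ := fx_api s hS D.F.smk (fun r h => (D.F.lo r h).2.1)
    fun r h => (D.F.hi r h).2.1
  obtain ⟨r1, -, -, -⟩ := fx_api s hS (η := fun r => -deriv D.F.Φ r ^ 2) (sd.pow 2).neg
    (fun r h => by rw [(D.F.lo r h).2.2, (D.F.lo 0 (by norm_num)).2.2])
    fun r h => by rw [(D.F.hi r h).2.2.1]; simp
  obtain ⟨g1, -, -, g4⟩ := fx_api s hS (η := D.F.g)
    (D.F.smk.add (contDiff_const.mul (sd.pow 2)))
    (fun r h => by rw [Fn.g, Fn.g, (D.F.lo r h).2.1, (D.F.lo r h).2.2, (D.F.lo 0 (by norm_num)).2.2])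
    fun r h => by rw [Fn.g, (D.F.hi r h).2.2.1, (D.F.hi r h).2.1]; simp
  obtain ⟨γ1, γ2, -, γ4, γ5, γ6⟩ := fl_api s hF D.F.smγ fun r h => (D.F.supp r h).1
  obtain ⟨δ1, -, δ3, δ4, -, δ6⟩ := fl_api s hF D.F.smγ₁ fun r h => (D.F.supp r h).2.1
  obtain ⟨-, ε2, -⟩ := fl_api s hF (η := deriv D.F.γ) (D.F.smγ.iterate_deriv 1)
    fun r h => (D.F.supp r h).2.2
  set Φ := s.fx D.F.Φ with hΦ
  set k := s.fx D.F.k with hk
  set g := s.fx D.F.g with hg
  set r2 := s.fx fun r => -deriv D.F.Φ r ^ 2 with hr2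
  set γ := s.fl D.F.γ with hγ
  set M := D.F.M with hM
  have bg := ((smb_holds _ _).bm g1).1
  have bΦ := ((smb_holds _ _).bm Φ1).2
  have bM : Bm fun z : s.x.X.M × LN.M => M * γ z.2 := (A.mul_mul (A.mul_const M).1 (bm_snd γ2)).1
  have bG : Bm fun z : s.x.X.M × LN.M => g z.1 * γ z.2 := (A.mul_mul (bm_fst bg) (bm_snd γ2)).1
  obtain ⟨m0, -, m1⟩ := s.prd.mem v t hv ht'
  -- the potential on the bordism
  obtain ⟨W1, W2, W3⟩ := s.pt.f Φ (s.fl D.F.γ₁) Φ1.sm δ1 Φ2 δ3 (sub_O s hS Φ4 δ6)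
  have smW : Sm D.w.X s.ΦW := (smb_holds _ _).of_cpt W1 W2
  -- the sections
  let t₁ : LN.M → Eu 2 := fun r => γ r • t r
  let t₂ : LN.M → Eu 2 := fun r => (M * γ r) • t r
  let v₁ : s.x.X.M → Eu N₁ := fun p => g p • v p
  let v₂ : s.x.X.M → Eu N₁ := cV s.x.X D.S₁ Φ v
  let v₃ : s.x.X.M → Eu N₁ := cV s.x.X D.S₁ Φ v₂
  have ht₁ : IsT LN D.S₂ t₁ := cL.mul ht' fun r _ => γ1 r
  have ht₂ : IsT LN D.S₂ t₂ := cL.mul ht' fun r _ => contMDiffAt_const.mul (γ1 r)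
  have hv₁ : IsT s.x.X D.S₁ v₁ := cX.mul hv fun p _ => g1.sm p
  have hv₂ : IsT s.x.X D.S₁ v₂ := (hP _ _ _ D.S₁ _ s.hμ inferInstance Φ Φ1 v v hv hv).1
  have hv₃ : IsT s.x.X D.S₁ v₃ := (hP _ _ _ D.S₁ _ s.hμ inferInstance Φ Φ1 v v₂ hv hv₂).1
  have st₁ : tsupport t₁ ⊆ tsupport γ := tsupport_smul_subset_left _ _
  have st₂ : tsupport t₂ ⊆ tsupport γ :=
    (tsupport_smul_subset_left _ _).trans tsupport_mul_subset_right
  have scV : ∀ w, tsupport (cV s.x.X D.S₁ Φ w) ⊆ {p | ht s.x p ≤ 3 / 4} := fun w => by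
    refine (closure_minimal (fun p hp => ?_) (isClosed_tsupport Φ)).trans Φ4
    by_contra h
    exact hp (by simp only [cV, (smb_holds _ _).dv_zero h, zero_smul, Finset.sum_const_zero])
  have o₁ : tsupport v₁ ×ˢ tsupport t₁ ⊆ O s :=
    sub_O s hS ((tsupport_smul_subset_left _ _).trans g4) fun r hr => γ6 r (st₁ hr)
  have o₂ : tsupport v₂ ×ˢ tsupport t₂ ⊆ O s := sub_O s hS (scV _) fun r hr => γ6 r (st₂ hr)
  have o₃ : tsupport v₃ ×ˢ tsupport t₂ ⊆ O s := sub_O s hS (scV _) fun r hr => γ6 r (st₂ hr)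
  have dW : ∀ z ∈ O s, z.2 ∈ tsupport t₂ → ∀ i, dv D.w.X i s.ΦW (ψ s z) =
      ∑ j : Fin (m + 1), s.Ω z i j.castSucc * dv s.x.X j Φ z.1 := fun z hz hK i => by
    have h := D.F.one _ (γ5 _ (st₂ hK))
    refine (W3 z hz i).trans ?_
    simp only [δ4, SD.fl, h.1, h.2, mul_one, mul_zero, Finset.sum_const_zero, add_zero]
    rfl
  -- the five functions
  let F1 := d0 s v₁ t₁
  let F2 : s.x.X.M × LN.M → Eu N := fun z => (g z.1 * γ z.2) • d0 s v t z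
  let F3 : s.x.X.M × LN.M → Eu N := fun z =>
    bx D.b (nV s.x.X D.S₁ Φ v₂) t₂ z + cw s Φ z.1 (d0 s v₂ t₂ z) + d0 s v₃ t₂ z
  let H : s.x.X.M × LN.M → Eu N := fun z => ∑ j : Fin (m + 1),
    (-(M * γ z.2 * dv s.x.X j Φ z.1)) • bx D.b (nab s.x.X D.S₁ j v) t z
  let F4 : s.x.X.M × LN.M → Eu N := fun z => cw s Φ z.1 (H z)
  let F5 : s.x.X.M × LN.M → Eu N := fun z => γ z.2 • cw s k z.1 (bx D.b v t z) +
    (g z.1 * (s.ς * s.fl (deriv D.F.γ) z.2)) • gam D.S (Fin.last _) (bx D.b v t z)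
  have key : F3 = fun z => F5 z + (-F1 z + (F2 z + F4 z)) := by
    funext z
    have e1 := hC G m N₁ s.x D.S₁ D.F.Φ (1 / 4) D.F.smΦ (by norm_num) (fun r h => (D.F.lo r h).1)
      Φ rfl v hv z.1
    have e2 : v₃ = fun p => r2 p • v p := funext fun p => by
      change cV _ _ _ (cV _ _ _ _) p = _
      rw [cV_eq, cV_eq, cc_sq s.x.X, Φ3]
      rfl
    have e3 : ∀ i, dv s.x.X i k z.1 = dv s.x.X i g z.1 + M * dv s.x.X i r2 z.1 := fun i => by
      have d1 := (g1.sm z.1).mdifferentiableAt (by simp)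
      have d2 := (r1.sm z.1).mdifferentiableAt (by simp)
      have e : k = fun p => g p + M • r2 p := funext fun p => by
        simp only [hk, hg, hr2, hM, SD.fx, Fn.g, smul_eq_mul]
        ring
      have L := stLOC _ _ s.x.X D.S₁
      rw [e, dv, L.dd_add (v := fun p => M • r2 p) d1 (d2.const_smul M),
        L.dd_smul mdifferentiableAt_const d2, L.dd_const,
        zero_smul, add_zero]
      rfl
    have e4 : cv s k z.1 (v z.1) = cv s g z.1 (v z.1) + M • cv s r2 z.1 (v z.1) := by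
      simp only [cc_apply, e3, add_smul, Finset.sum_add_distrib, Finset.smul_sum, smul_smul]
    have e5 : dir s.x.X D.S₁ v₃ z.1 = r2 z.1 • dir s.x.X D.S₁ v z.1 + cv s r2 z.1 (v z.1) := by
      rw [e2, cX.dir_mul hv fun p _ => r1.sm p]
      simp only [cc_apply, map_smul, id]
    have e6 : dir s.x.X D.S₁ v₁ z.1 = g z.1 • dir s.x.X D.S₁ v z.1 + cv s g z.1 (v z.1) := by
      rw [cX.dir_mul hv fun p _ => g1.sm p]
      simp only [cc_apply, map_smul, id]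
    have e7 : dir LN D.S₂ t₁ z.2 = γ z.2 • dir LN D.S₂ t z.2 +
        (s.ς * s.fl (deriv D.F.γ) z.2) • gam D.S₂ 0 (t z.2) := by
      rw [cL.dir_mul ht' fun r _ => γ1 r]
      simp only [Fin.sum_univ_one, map_smul, γ4]
    have e8 : H z = -D.b (nV s.x.X D.S₁ Φ v z.1) (t₂ z.2) := by
      simp only [H, bx, nV, t₂, map_sum, map_smul, _root_.sum_apply, _root_.smul_apply,
        Finset.smul_sum, smul_smul, ← Finset.sum_neg_distrib, neg_smul]
    have e9 : r2 z.1 = -deriv D.F.Φ (ht s.x z.1) ^ 2 := rfl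
    rw [cV_eq, cV_eq] at e1
    have e0 : nV s.x.X D.S₁ Φ v₂ z.1 = deriv D.F.Φ (ht s.x z.1) ^ 2 • dir s.x.X D.S₁ v z.1 -
        cv s Φ z.1 (dir s.x.X D.S₁ v₂ z.1) - cv s Φ z.1 (nV s.x.X D.S₁ Φ v z.1) :=
      eq_sub_of_add_eq (eq_sub_of_add_eq e1)
    have e10 : v₃ z.1 = cv s Φ z.1 (v₂ z.1) := cV_eq s _ _ _
    simp only [F1, F2, F3, F4, F5, d0, bx, e8, map_add, map_neg, cw_b, gam_r, e4, e5, e6, e7, cv_e,
      e10, e9, e0]
    simp only [t₁, t₂, v₁, map_add, map_sub, map_neg, map_smul, _root_.add_apply,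
      _root_.sub_apply, _root_.neg_apply, _root_.smul_apply]
    module
  have mF1 : MemLp F1 2 (s.μ.prod D.ν) := mem_d0 s hv₁ ht₁
  obtain ⟨mF2, cF2⟩ := A.mul_cl bG (mem_d0 s hv ht')
  have hH := fun j : Fin (m + 1) =>
    A.mul_cl (bm_neg (A.mul_mul bM (bm_fst (bΦ j))).1) (m1 j)
  have mH : MemLp H 2 (s.μ.prod D.ν) := memLp_finsetSum _ fun j _ => (hH j).1
  obtain ⟨mF4, cF4⟩ := cg_cl s Φ1 mH
  obtain ⟨n1, n2⟩ := cg_cl s k1 m0
  obtain ⟨n3, n4⟩ := A.mul_cl (bm_snd γ2) n1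
  obtain ⟨n5, n6⟩ := A.cst_cl (gam D.S (Fin.last _)) m0
  obtain ⟨n7, n8⟩ := A.mul_cl (A.mul_mul (bm_fst bg)
    (A.mul_mul (A.mul_const s.ς).1 (bm_snd ε2)).1).1 n5
  have mF5 : MemLp F5 2 (s.μ.prod D.ν) := n3.add n7
  have a1 : MemLp (fun z => F2 z + F4 z) 2 (s.μ.prod D.ν) := mF2.add mF4
  have a2 : MemLp (fun z => -F1 z) 2 (s.μ.prod D.ν) := mF1.neg
  have a3 : MemLp (fun z => -F1 z + (F2 z + F4 z)) 2 (s.μ.prod D.ν) := a2.add a1
  have mF3 : MemLp F3 2 (s.μ.prod D.ν) := key ▸ mF5.add a3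
  have cF3 : cl (s.μ.prod D.ν) F3 = cl _ F5 + (-cl _ F1 + (cl _ F2 + cl _ F4)) := by
    rw [key, A.cl_add mF5 a3, A.cl_add a2 a1, A.cl_add (s := F2) (t := F4) mF2 mF4, A.cl_neg]
  -- the five terms
  have T1 : ⟪cl D.ρ (dir D.w.X D.S u), s.Gm (cl _ (bx D.b v t))⟫_ℝ =
      ⟪cl D.ρ u, s.U (cl _ F1)⟫_ℝ := by
    have e : (fun z : s.x.X.M × LN.M => (g z.1 * γ z.2) • bx D.b v t z) = bx D.b v₁ t₁ :=
      funext fun z => by
        simp only [bx, v₁, t₁, map_smul, _root_.smul_apply, smul_smul, mul_comm]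
    rw [SD.Gm, ContinuousLinearMap.comp_apply, (A.mul_cl bG m0).2, e, (s.tr.cl _ (s.prd.mem _ _ hv₁ ht₁).1).2,
      (lic_holds _ _ _ D.S _ D.hρ inferInstance).sym hu (s.pt.t _ _ hv₁ ht₁ o₁).1,
      dir_ps s hv₁ ht₁ o₁, (s.tr.cl _ mF1).2]
  have T2 : ⟪s.Gm (cl _ (d0 s v t)), cl D.ρ u⟫_ℝ = ⟪cl D.ρ u, s.U (cl _ F2)⟫_ℝ := by
    rw [SD.Gm, ContinuousLinearMap.comp_apply, cF2, real_inner_comm]
  have T3 : ∑ j, ⟪cl D.ρ (nab D.w.X D.S j u), s.K j (cl _ (bx D.b v t))⟫_ℝ =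
      ⟪cl D.ρ u, s.U (cl _ F3)⟫_ℝ := by
    obtain ⟨p1, p2⟩ := cg_cl s Φ1 m0
    have e : (fun z : s.x.X.M × LN.M => (M * γ z.2) • cw s Φ z.1 (bx D.b v t z)) =
        bx D.b v₂ t₂ := funext fun z => by
      simp only [bx, v₂, t₂, cw_b, cV_eq, map_smul]
    have hy := (s.pt.t _ _ hv₂ ht₂ o₂).1
    have bW := ((smb_holds _ _).bm smW).2
    have q := fun j => B.mul_cl (bW j) ((mem_holds _ _ _ D.S _ D.hρ u hu).2 j)
    have e1 : ∀ j, ⟪cl D.ρ (nab D.w.X D.S j u), s.K j (cl _ (bx D.b v t))⟫_ℝ =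
        ⟪cl D.ρ fun y => dv D.w.X j s.ΦW y • nab D.w.X D.S j u y,
          cl D.ρ (ps s (bx D.b v₂ t₂))⟫_ℝ := fun j => by
      rw [SD.K, ContinuousLinearMap.comp_apply, ContinuousLinearMap.comp_apply, mul_apply_eq_comp, p2, (A.mul_cl bM p1).2, e,
        (s.tr.cl _ (s.prd.mem _ _ hv₂ ht₂).1).2, ← B.mul_inner (bW j), (q j).2]
    have e2 : cV D.w.X D.S s.ΦW (ps s (bx D.b v₂ t₂)) = ps s (bx D.b v₃ t₂) := by
      rw [cV_ps s dW fun z hz => by rw [bx, image_eq_zero_of_notMem_tsupport hz, map_zero]]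
      congr 1
      funext z
      simp only [bx, v₃, cw_b, cV_eq]
    simp only [e1]
    rw [← sum_inner, ← B.cl_sum _ _ fun j _ => (q j).1]
    refine (hP _ _ _ D.S _ D.hρ inferInstance _ smW u _ hu hy).2.2.2.trans ?_
    rw [(s.tr.cl _ mF3).2, nV_ps s dW hv₂ ht₂ o₂, e2, dir_ps s hv₂ ht₂ o₂, dir_ps s hv₃ ht₂ o₃,
      cV_ps s dW fun z hz => by
        rw [d0, image_eq_zero_of_notMem_tsupport hz, cL.dir_zero hz, map_zero, map_zero, add_zero]]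
    congr 2
    funext y
    by_cases hy : y ∈ ψ s '' O s
    · obtain ⟨z, hz, rfl⟩ := hy
      simp only [ps_on s _ hz, F3, map_add]
    · simp only [ps_off s _ hy, add_zero]
  have T4 : ∑ j : Fin (m + 1), ⟪cl _ (bx D.b (nab s.x.X D.S₁ j v) t), s.K' j.castSucc (cl D.ρ u)⟫_ℝ =
      -⟪cl D.ρ u, s.U (cl _ F4)⟫_ℝ := by
    have e1 : ∀ j : Fin (m + 1),
        ⟪cl _ (bx D.b (nab s.x.X D.S₁ j v) t), s.K' j.castSucc (cl D.ρ u)⟫_ℝ =
        ⟪cl (s.μ.prod D.ν) fun z => (-(M * γ z.2 * dv s.x.X j Φ z.1)) •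
          bx D.b (nab s.x.X D.S₁ j v) t z, s.cg Φ (adjoint s.U (cl D.ρ u))⟫_ℝ := fun j => by
      rw [SD.K', Fin.lastCases_castSucc, ContinuousLinearMap.comp_apply, mul_apply_eq_comp,
        ← A.mul_inner (bm_neg (A.mul_mul bM (bm_fst (bΦ j))).1), (hH j).2]
    simp only [e1]
    rw [← sum_inner, ← A.cl_sum _ _ fun j _ => (hH j).1, cg_skew s Φ1, cF4, adjoint_inner_right,
      real_inner_comm]
  have T5 : s.C (cl _ (bx D.b v t)) = s.U (cl _ F5) := by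
    rw [SD.C, ContinuousLinearMap.comp_apply, _root_.add_apply, mul_apply_eq_comp, mul_apply_eq_comp, n2, n4, n6, n8,
      A.cl_add n3 n7]
  change _ - ⟪s.Gm (cl _ (d0 s v t)), cl D.ρ u⟫_ℝ + _ + _ = _
  rw [T1, T2, T3, T4, T5, cF3]
  simp only [map_add, map_neg, inner_add_right, inner_neg_right]
  ring

end Pool.Agent.Lib.WD
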