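import Pool.Agent.Lib.WD.Blue

/-! Block SD4: the cross terms, by density. -/

noncomputable section

open Set Function MeasureTheory CliffordAlgebra BCO ContinuousLinearMap
open scoped Manifold ContDiff InnerProductSpace

namespace Pool.Agent.Lib.WD

open CX AN
open ANA.Cyl (ht)
open ANA.CylB (pull)

namespace SD4

theorem dens {E H ι : Type} [NormedAddCommGroup E] [InnerProductSpace ℝ E] [NormedAddCommGroup H]
    [InnerProductSpace ℝ H] [Fintype ι] (w R : E →L[ℝ] E) (N : ι → E →L[ℝ] E) (w' R' : H →L[ℝ] H)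
    (N' : ι → H →L[ℝ] H) (Gm C : H →L[ℝ] E) (K : ι → H →L[ℝ] E) (K' : ι → E →L[ℝ] H)
    {A : Set E} {A' : Set H} (hA : Dense A) (hA' : Dense (Submodule.span ℝ A' : Set H))
    (h : ∀ η ∈ A, ∀ ζ ∈ A', ⟪η - w (R η), Gm (R' ζ)⟫_ℝ - ⟪Gm (ζ - w' (R' ζ)), R η⟫_ℝ +
      ∑ j, ⟪N j η, K j (R' ζ)⟫_ℝ + ∑ j, ⟪N' j ζ, K' j (R η)⟫_ℝ = ⟪R η, C (R' ζ)⟫_ℝ) (η : E) (ζ : H) :
    ⟪η - w (R η), Gm (R' ζ)⟫_ℝ - ⟪Gm (ζ - w' (R' ζ)), R η⟫_ℝ +
      ∑ j, ⟪N j η, K j (R' ζ)⟫_ℝ + ∑ j, ⟪N' j ζ, K' j (R η)⟫_ℝ = ⟪R η, C (R' ζ)⟫_ℝ := by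
  refine Dense.induction hA (fun η hη => ?_) (isClosed_eq (by fun_prop) (by fun_prop)) η
  refine Dense.induction hA' (fun ζ hζ => ?_) (isClosed_eq (by fun_prop) (by fun_prop)) ζ
  induction hζ using Submodule.span_induction with
  | mem x hx => exact h η hη x hx
  | zero => simp
  | add x y _ _ hx hy =>
    simp only [map_add, map_sub, inner_add_left, inner_add_right, inner_sub_left,
      Finset.sum_add_distrib] at hx hy ⊢
    linarith
  | smul a x _ hx =>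
    simp only [map_smul, map_sub, inner_smul_left, inner_smul_right, inner_sub_left,
      ← Finset.mul_sum, conj_trivial] at hx ⊢
    linear_combination a * hx

theorem bdd {η : ℝ → ℝ} (h : Continuous η) {a b c d : ℝ} (h1 : ∀ t ≤ a, η t = c)
    (h2 : ∀ t, b ≤ t → η t = d) : ∃ C, ∀ t, |η t| ≤ C := by
  obtain ⟨C, hC⟩ := (isCompact_Icc (a := a) (b := b)).exists_bound_of_continuousOn h.continuousOn
  refine ⟨max C (max |c| |d|), fun t => ?_⟩
  rcases le_total t a with k | k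
  · rw [h1 t k]; simp
  · rcases le_total b t with l | l
    · rw [h2 t l]; simp
    · exact le_max_of_le_left (hC t ⟨k, l⟩)

end SD4

theorem stSD4 (hT : St_TENS) (hF : St_FLT) (hS : St_SCAL) (h3 : St_SD3) : St_SD4 := by
  intro G _ m N₁ N D s
  have MW := stMUL _ (Eu N) D.ρ
  have MH := stMUL _ (Eu N) (s.μ.prod D.ν)
  have tb := hT _ _ _ D.b D.ts.tens
  have hR := D.hR
  have mtc : Measurable tc := (hF.vol D.ν D.hν).measurable
  set τ := lt D.b D.e * rt D.b D.σ with hτ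
  set fW : D.w.X.M → ℝ := fun p => D.F.φ (ht D.w p) with hfW
  set fH : s.x.X.M × LN.M → ℝ := fun z => D.F.φ (s.ς * tc z.2) with hfH
  set g : s.x.X.M × LN.M → ℝ := fun z => s.fx D.F.g z.1 * s.fl D.F.γ z.2 with hg
  have bW : Bm fW := ((smb_holds _ D.w.X).bm (((hS G (m + 1)).1 D.w).2.2.2 D.F.φ 1 D.F.R₀ D.F.smφ
    one_pos (fun t ht => by rw [D.F.φlo t (by linarith), D.F.φlo 0 (by linarith)])
    (fun t ht => by rw [D.F.φhi t ht, D.F.φhi _ le_rfl])).1).1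
  have bH : Bm fH := by
    obtain ⟨C, hC⟩ := SD4.bdd D.F.smφ.continuous D.F.φlo D.F.φhi
    exact ⟨D.F.smφ.continuous.measurable.comp
      (measurable_const.mul (mtc.comp measurable_snd)), C, fun z => hC _⟩
  have bg : Bm g := by
    have smg : ContDiff ℝ ∞ D.F.g :=
      D.F.smk.add (contDiff_const.mul ((contDiff_infty_iff_deriv.1 D.F.smΦ).2.pow 2))
    have b1 : Bm (s.fx D.F.g) := ((smb_holds _ s.x.X).bm (((hS G m).1 s.x).2.2.2 D.F.g (1 / 4) (3 / 4)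
      smg (by norm_num) (fun t ht => by
        simp only [Fn.g, (D.F.lo t ht).2.1, (D.F.lo t ht).2.2, (D.F.lo 0 (by norm_num)).2.2])
      (fun t ht => by
        simp only [Fn.g, (D.F.hi t ht).2.1, (D.F.hi t ht).2.2.1, (D.F.hi _ le_rfl).2.1,
          (D.F.hi _ le_rfl).2.2.1])).1).1
    obtain ⟨C, hC⟩ := SD4.bdd D.F.smγ.continuous (fun t ht => (D.F.supp t (.inl ht)).1)
      (fun t ht => (D.F.supp t (.inr ht)).1)
    obtain ⟨b1, C', hC'⟩ := b1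
    exact (MH.mul_mul (ψ := fun z => s.fx D.F.g z.1) (χ := fun z => s.fl D.F.γ z.2)
      ⟨b1.comp measurable_fst, C', fun z => hC' _⟩
      ⟨D.F.smγ.continuous.measurable.comp (measurable_const.mul (mtc.comp measurable_snd)), C,
        fun z => hC _⟩).1
  have e1 : mul (Eu N) D.ρ fW ∘L s.U = s.U ∘L mul (Eu N) (s.μ.prod D.ν) fH :=
    s.tr.mul fW fH bW bH fun z hz => by
      simp only [hfW, hfH, (((hS G m).2.1 D.w s.x s.ς s.α s.emb).2 z hz)]
  have e2 : cst D.ρ τ ∘L s.U = s.U ∘L cst (s.μ.prod D.ν) τ :=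
    s.tr.cst τ τ fun z hz u => (s.pt.a.odd τ D.tau'.gt z hz u).symm
  have pot : ∀ (u : Lp (Eu N) 2 D.ρ) (y : s.H), ⟪mul (Eu N) D.ρ fW (cst D.ρ τ u), s.Gm y⟫_ℝ =
      ⟪s.Gm (s.mu fH (cst _ τ y)), u⟫_ℝ := by
    intro u y
    rw [MW.mul_inner bW, MW.cst_inner τ τ D.tau'.gt.sym, real_inner_comm]
    congr 1
    show cst D.ρ τ (mul (Eu N) D.ρ fW (s.U (s.mu g y))) = s.U (s.mu g (s.mu fH (cst _ τ y)))
    have a1 : mul (Eu N) D.ρ fW (s.U (s.mu g y)) = s.U (s.mu fH (s.mu g y)) :=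
      congrArg (fun k => k (s.mu g y)) e1
    have a2 : cst D.ρ τ (s.U (s.mu fH (s.mu g y))) = s.U (cst _ τ (s.mu fH (s.mu g y))) :=
      congrArg (fun k => k (s.mu fH (s.mu g y))) e2
    rw [a1, a2]
    congr 1
    have c1 : s.mu fH * s.mu g = s.mu g * s.mu fH := by
      rw [← (MH.mul_mul bH bg).2, ← (MH.mul_mul bg bH).2]
      simp only [_root_.mul_comm]
    have c2 : cst _ τ * (s.mu fH * s.mu g) = s.mu g * (s.mu fH * cst _ τ) := by
      rw [c1, ← mul_assoc, ← MH.mul_cst bg, mul_assoc, ← MH.mul_cst bH]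
    exact congrArg (fun k => k y) c2
  refine SD4.dens D.P.w D.P.R D.P.N s.Q.w s.Q.R s.Q.N s.Gm s.C s.K s.K' D.res.dense s.prd.dense ?_
  rintro _ ⟨u, hu, rfl⟩ _ ⟨v, t, hv, ht, rfl⟩
  have m1 := (mem_holds _ _ D.w.X D.S D.ρ D.hρ u hu).1
  have m2 := (mem_holds _ _ D.w.X D.S D.ρ D.hρ _ ((core_holds _ _ D.w.X D.S).dir hu)).1
  obtain ⟨n1, n2, -⟩ := s.prd.mem v t hv ht
  set wo := lt D.b D.e * rt D.b D.d with hwo
  have k1 : cl D.ρ (dp D.w.X D.S wo τ fW u) = cl D.ρ (dir D.w.X D.S u) + cst D.ρ wo (cl D.ρ u) +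
      mul (Eu N) D.ρ fW (cst D.ρ τ (cl D.ρ u)) := by
    rw [(MW.cst_cl wo m1).2, (MW.cst_cl τ m1).2, (MW.mul_cl bW (MW.cst_cl τ m1).1).2,
      ← MW.cl_add m2 (MW.cst_cl wo m1).1,
      ← MW.cl_add (s := fun y => dir D.w.X D.S u y + wo (u y)) (m2.add (MW.cst_cl wo m1).1)
        (MW.mul_cl bW (MW.cst_cl τ m1).1).1]
    rfl
  set q : s.x.X.M × LN.M → Eu N := fun z => D.b (dir s.x.X D.S₁ v z.1) (t z.2) +
    D.b (D.e (v z.1)) (dir LN D.S₂ t z.2) with hq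
  have p1 : ∀ z, dq s.x.X D.S₁ D.e D.S₂ D.d D.σ D.b (fun t => D.F.φ (s.ς * tc t)) v t z =
      q z + wo (bx D.b v t z) + fH z • τ (bx D.b v t z) := by
    intro z
    simp only [dq, dp, dw, bx, hq, hwo, hτ, hfH, mul_apply_eq_comp, tb.lt_b, tb.rt_b, map_add,
      map_smul]
    abel
  have n3 := (MH.cst_cl wo n1).1
  have n4 := (MH.mul_cl bH (MH.cst_cl τ n1).1).1
  have n5 : MemLp q 2 (s.μ.prod D.ν) := by
    have : q = dq s.x.X D.S₁ D.e D.S₂ D.d D.σ D.b (fun t => D.F.φ (s.ς * tc t)) v t -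
        (fun z => wo (bx D.b v t z)) - fun z => fH z • τ (bx D.b v t z) := by
      funext z
      simp only [Pi.sub_apply, p1]
      abel
    rw [this]
    exact (n2.sub n3).sub n4
  have k2 : cl _ (dq s.x.X D.S₁ D.e D.S₂ D.d D.σ D.b (fun t => D.F.φ (s.ς * tc t)) v t) =
      cl _ q + cst _ wo (cl _ (bx D.b v t)) + s.mu fH (cst _ τ (cl _ (bx D.b v t))) := by
    rw [(MH.cst_cl wo n1).2, (MH.cst_cl τ n1).2, (MH.mul_cl bH (MH.cst_cl τ n1).1).2,
      ← MH.cl_add n5 n3, ← MH.cl_add (s := fun y => q y + wo (bx D.b v t y)) (n5.add n3) n4]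
    exact congrArg _ (funext p1)
  have key := h3 G m N₁ N D s u v t hu hv ht
  rw [← hq] at key
  rw [D.res.R_cl u hu, s.prd.R_cl v t hv ht, Fin.sum_univ_castSucc (fun j => ⟪s.Q.N j _, _⟫_ℝ)]
  have k3 : ∀ j, D.P.N j (cl D.ρ (dp D.w.X D.S wo τ fW u)) = cl D.ρ (nab D.w.X D.S j u) :=
    D.res.N_cl u hu
  rw [k1] at k3
  simp only [s.prd.N_cl v t hv ht, s.prd.N_last, zero_apply, inner_zero_left,
    add_zero]
  rw [k1, k2, D.geo.w, s.prd.w, add_sub_right_comm, add_sub_cancel_right, add_sub_right_comm,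
    add_sub_cancel_right, inner_add_left, map_add, inner_add_left, pot]
  simp only [k3]
  linarith

end Pool.Agent.Lib.WD
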