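import Pool.Agent.Lib.WD.CPL3

/-! Direct sums of packages. -/

set_option linter.unusedSectionVars false

noncomputable section

open Set Function BCO ContinuousLinearMap
open scoped InnerProductSpace

namespace Pool.Agent.Lib.WD

open CX AN CPL3

namespace SUMb

variable {G : Type} [Group G] {E F : Type} [NormedAddCommGroup E] [InnerProductSpace ℝ E]
  [CompleteSpace E] [NormedAddCommGroup F] [InnerProductSpace ℝ F] [CompleteSpace F] {n : ℕ}
  {A : Type} [Fintype A]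

theorem dext {S T : H2 E F →L[ℝ] H2 E F} (h1 : ∀ v, p1 E F (S v) = p1 E F (T v))
    (h2 : ∀ v, p2 E F (S v) = p2 E F (T v)) : S = T :=
  ContinuousLinearMap.ext fun v => ext2 (h1 v) (h2 v)

theorem ds_mul (x x' : E →L[ℝ] E) (y y' : F →L[ℝ] F) :
    ds x y * ds x' y' = ds (x * x') (y * y') :=
  dext (fun v => by simp only [mul_apply_eq_comp, p1_ds]) fun v => by
    simp only [mul_apply_eq_comp, p2_ds]

theorem ds_add (x x' : E →L[ℝ] E) (y y' : F →L[ℝ] F) :
    ds x y + ds x' y' = ds (x + x') (y + y') :=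
  dext (fun v => by simp only [add_apply, map_add, p1_ds]) fun v => by
    simp only [add_apply, map_add, p2_ds]

theorem ds_neg (x : E →L[ℝ] E) (y : F →L[ℝ] F) : -ds x y = ds (-x) (-y) :=
  dext (fun v => by simp only [neg_apply, map_neg, p1_ds]) fun v => by
    simp only [neg_apply, map_neg, p2_ds]

theorem ds_sub (x x' : E →L[ℝ] E) (y y' : F →L[ℝ] F) :
    ds x y - ds x' y' = ds (x - x') (y - y') := by
  rw [sub_eq_add_neg, ds_neg, ds_add, ← sub_eq_add_neg, ← sub_eq_add_neg]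

theorem ds_one : ds (1 : E →L[ℝ] E) (1 : F →L[ℝ] F) = 1 :=
  dext (fun v => p1_ds _ _ v) fun v => p2_ds _ _ v

theorem ds_zero : ds (0 : E →L[ℝ] E) (0 : F →L[ℝ] F) = 0 :=
  dext (fun v => by rw [p1_ds]; simp) fun v => by rw [p2_ds]; simp

theorem ds_sum {ι : Type} (s : Finset ι) (x : ι → E →L[ℝ] E) (y : ι → F →L[ℝ] F) :
    ∑ i ∈ s, ds (x i) (y i) = ds (∑ i ∈ s, x i) (∑ i ∈ s, y i) := by
  classical
  induction s using Finset.induction_on with
  | empty => simp only [Finset.sum_empty, ds_zero]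
  | insert a s ha ih => simp only [Finset.sum_insert ha, ih, ds_add]

theorem ds_star (x : E →L[ℝ] E) (y : F →L[ℝ] F) : star (ds x y) = ds (star x) (star y) :=
  star_eq_of_inner fun u v => by
    rw [inner_eq, inner_eq, p1_ds, p1_ds, p2_ds, p2_ds, inner_star, inner_star]

theorem ds_res {w R : E →L[ℝ] E} {w' R' : F →L[ℝ] F} (h : Res w R) (h' : Res w' R') :
    Res (ds w w') (ds R R') where
  esa := by rw [ds_star, h.esa, h'.esa]
  esq := by rw [ds_mul, h.esq, h'.esq, ds_one]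
  sa := by rw [ds_star, h.sa, h'.sa]
  rel := by simp only [ds_mul, ds_add, h.rel, h'.rel]
  inj u v e := ext2 (h.inj (by rw [← p1_ds R R', ← p1_ds R R', e]))
    (h'.inj (by rw [← p2_ds R R', ← p2_ds R R', e]))

theorem sumE (P : RQ.Pack G E n A) {S : Finset G} (hS : P.F ⊆ S) (a : A) (u : G → E →L[ℝ] E) :
    ∑ g ∈ S, P.E a g * u g = ∑ g ∈ P.F, P.E a g * u g :=
  (Finset.sum_subset hS fun g _ hg => by rw [P.E_off a g hg, zero_mul]).symm

theorem sumE' (P : RQ.Pack G E n A) {S : Finset G} (hS : P.F ⊆ S) (a : A) :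
    ∑ g ∈ S, P.E a g = ∑ g ∈ P.F, P.E a g :=
  (Finset.sum_subset hS fun g _ hg => P.E_off a g hg).symm

variable (P : RQ.Pack G E n A) (P' : RQ.Pack G F n A)

open Classical in
/-- the sum without the lower bound -/
def pre : Pre G (H2 E F) n A where
  F := P.F ∪ P'.F
  w := ds P.w P'.w
  R := ds P.R P'.R
  gam j := ds (P.gam j) (P'.gam j)
  N j := ds (P.N j) (P'.N j)
  ph a := ds (P.ph a) (P'.ph a)
  dph a j := ds (P.dph a j) (P'.dph a j)
  E a g := ds (P.E a g) (P'.E a g)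
  mul := {z | ∃ x ∈ P.mul, ∃ y ∈ P'.mul, z = ds x y}
  ph_mem a := ⟨_, P.ph_mem a, _, P'.ph_mem a, rfl⟩
  dph_mem a j := ⟨_, P.dph_mem a j, _, P'.dph_mem a j, rfl⟩
  E_mem a g := ⟨_, P.E_mem a g, _, P'.E_mem a g, rfl⟩
  mul_sa := by
    rintro _ ⟨x, hx, y, hy, rfl⟩
    rw [ds_star, P.mul_sa x hx, P'.mul_sa y hy]
  mul_comm := by
    rintro _ ⟨x, hx, y, hy, rfl⟩ _ ⟨x', hx', y', hy', rfl⟩
    rw [ds_mul, ds_mul, P.mul_comm x hx x' hx', P'.mul_comm y hy y' hy']
  mul_w := by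
    rintro _ ⟨x, hx, y, hy, rfl⟩
    rw [ds_mul, ds_mul, P.mul_w x hx, P'.mul_w y hy]
  mul_gam := by
    rintro _ ⟨x, hx, y, hy, rfl⟩ j
    rw [ds_mul, ds_mul, P.mul_gam x hx, P'.mul_gam y hy]
  res := ds_res (pack_res P) (pack_res P')
  gam_skew j := by rw [ds_star, P.gam_skew, P'.gam_skew, ds_neg]
  gam_cl j k := by
    rw [ds_mul, ds_mul, ds_add, P.gam_cl, P'.gam_cl]
    split_ifs
    · rw [← ds_neg, ← one_add_one_eq_two (R := E →L[ℝ] E), ← one_add_one_eq_two (R := F →L[ℝ] F),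
        ← ds_add, ds_one, one_add_one_eq_two]
    · exact ds_zero
  E_mul a g h := by
    rw [ds_mul, P.E_mul, P'.E_mul]
    split_ifs
    · rfl
    · exact ds_zero
  E_off a g hg := by
    rw [Finset.mem_union, not_or] at hg
    rw [P.E_off a g hg.1, P'.E_off a g hg.2, ds_zero]
  ph_supp a := by
    rw [ds_sum, ds_mul, sumE' P Finset.subset_union_left, sumE' P' Finset.subset_union_right,
      P.ph_supp, P'.ph_supp]
  dph_supp a j := by
    rw [ds_sum, ds_mul, sumE' P Finset.subset_union_left, sumE' P' Finset.subset_union_right,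
      P.dph_supp, P'.dph_supp]
  ph_sq := by simp only [ds_mul, ds_sum, P.ph_sq, P'.ph_sq, ds_one]
  ph_dph j := by simp only [ds_mul, ds_sum, P.ph_dph, P'.ph_dph, ds_zero]
  comm a b g := by
    obtain ⟨h1, h2⟩ := P.comm a b g
    obtain ⟨h3, h4⟩ := P'.comm a b g
    simp only [ds_mul, ds_sum, ds_add, ds_sub, sumE P Finset.subset_union_left,
      sumE P' Finset.subset_union_right]
    exact ⟨by rw [h1, h3], fun j => by rw [h2 j, h4 j]⟩

theorem lb {T : E →L[ℝ] E} {T' : F →L[ℝ] F} (h : LB P T) (h' : LB P' T') (η : H2 E F) :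
    ∑ j, ‖ds (P.N j) (P'.N j) η‖ ^ 2 + ⟪ds T T' (ds P.R P'.R η), ds P.R P'.R η⟫_ℝ ≤
      ‖η - ds P.w P'.w (ds P.R P'.R η)‖ ^ 2 := by
  simp only [norm_eq, inner_eq, map_sub, p1_ds, p2_ds, Finset.sum_add_distrib]
  linarith [h (p1 E F η), h' (p2 E F η)]

/-- the sum -/
def pk : RQ.Pack G (H2 E F) n A := (pre P P').pack _ (lb P P' (lb_chi P) (lb_chi P'))

theorem pk_E2 (a b : A) (g : G) : (pk P P').E2 a b g = ds (P.E2 a b g) (P'.E2 a b g) := by
  classical
  simp only [RQ.Pack.E2, pk, Pre.pack, pre, ds_mul, ds_sum, sumE P Finset.subset_union_left,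
    sumE P' Finset.subset_union_right]

theorem pk_C (a : A) : (pk P P').C a = ds (P.C a) (P'.C a) := by
  simp only [RQ.Pack.C, pk, Pre.pack, pre, ds_mul, ds_sum]

theorem pk_good {a : A} {v' v : H2 E F} (h : P.Good a (p1 E F v') (p1 E F v))
    (h' : P'.Good a (p2 E F v') (p2 E F v)) : (pk P P').Good a v' v := fun b g => by
  rw [pk_E2, pk_C]
  change ds P.R P'.R (ds _ _ (ds (P.ph b) (P'.ph b) v' + _)) = ds _ _ (ds (P.ph b) (P'.ph b) v)
  refine ext2 ?_ ?_
  · simp only [p1_ds, map_add]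
    simpa only [map_add] using h b g
  · simp only [p2_ds, map_add]
    simpa only [map_add] using h' b g

theorem good_zero (a : A) : P.Good a 0 0 := fun b g => by simp

theorem p1_i1 (x : E) : p1 E F (i1 E F x) = x := rfl

theorem p2_i2 (x : F) : p2 E F (i2 E F x) = x := rfl

theorem p1_i2 (x : F) : p1 E F (i2 E F x) = 0 := rfl

theorem p2_i1 (x : E) : p2 E F (i1 E F x) = 0 := rfl

theorem i1_ds (x : E →L[ℝ] E) (y : F →L[ℝ] F) : i1 E F ∘L x = ds x y ∘L i1 E F :=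
  ContinuousLinearMap.ext fun v => ext2 (p1_ds x y (i1 E F v)).symm
    (((p2_ds x y (i1 E F v)).trans (map_zero y)).symm)

theorem i2_ds (x : E →L[ℝ] E) (y : F →L[ℝ] F) : i2 E F ∘L y = ds x y ∘L i2 E F :=
  ContinuousLinearMap.ext fun v => ext2 (((p1_ds x y (i2 E F v)).trans (map_zero x)).symm)
    (p2_ds x y (i2 E F v)).symm

variable {H : Type} [NormedAddCommGroup H] [InnerProductSpace ℝ H] [CompleteSpace H]

/-- a corner -/
abbrev cn (i : E →L[ℝ] H) (p : H →L[ℝ] E) (X : V G E →L[ℝ] V G E) : V G H →L[ℝ] V G H :=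
  amp G i ∘L X ∘L amp G p

theorem cn_mem (i : E →L[ℝ] H) (p : H →L[ℝ] E) {X : V G E →L[ℝ] V G E} (h : X ∈ RA G E) :
    cn i p X ∈ RA G H := comp_mem (amp_mem i) (comp_mem h (amp_mem p))

theorem cn_idem {i : E →L[ℝ] H} {p : H →L[ℝ] E} (h : ∀ x, p (i x) = x) {X : V G E →L[ℝ] V G E}
    (hX : X * X = X) : cn i p X * cn i p X = cn i p X :=
  ContinuousLinearMap.ext fun η => by
    have e : amp G p (amp G i (X (amp G p η))) = X (amp G p η) := lp.ext (funext fun _ => h _)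
    change amp G i (X (amp G p (amp G i (X (amp G p η))))) = amp G i (X (amp G p η))
    rw [e, ← mul_apply_eq_comp, hX]

theorem cn_orth {i : E →L[ℝ] H} {p : H →L[ℝ] E} {i' : F →L[ℝ] H} {p' : H →L[ℝ] F}
    (h : ∀ x, p (i' x) = 0) (X : V G E →L[ℝ] V G E) (Y : V G F →L[ℝ] V G F) :
    cn i p X * cn i' p' Y = 0 :=
  ContinuousLinearMap.ext fun η => by
    have e : amp G p (amp G i' (Y (amp G p' η))) = 0 := lp.ext (funext fun _ => h _)
    change amp G i (X (amp G p (amp G i' (Y (amp G p' η))))) = 0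
    rw [e, map_zero, map_zero]

theorem ng_ds (w : E →L[ℝ] E) (w' : F →L[ℝ] F) : ng (amp G (ds w w')) =
    cn (i1 E F) (p1 E F) (ng (amp G w)) + cn (i2 E F) (p2 E F) (ng (amp G w')) :=
  op_ext fun ξ γ => by
    change (1 / 2 : ℝ) • (ξ γ - ds w w' (ξ γ)) =
      i1 E F ((1 / 2 : ℝ) • (p1 E F (ξ γ) - w (p1 E F (ξ γ)))) +
        i2 E F ((1 / 2 : ℝ) • (p2 E F (ξ γ) - w' (p2 E F (ξ γ))))
    refine ext2 ?_ ?_
    · rw [map_add, p1_i1, p1_i2, add_zero, map_smul, map_sub, p1_ds]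
    · rw [map_add, p2_i1, p2_i2, zero_add, map_smul, map_sub, p2_ds]

end SUMb

open SUMb in
theorem stSUMb (h1 : St_IXC) (h2 : St_TWX) (h3 : St_MAP) : St_SUM := by
  intro G _ E F _ _ _ _ _ _ n A _ P P'
  refine ⟨pk P P', rfl, rfl, fun _ => rfl, fun _ => rfl, fun _ _ => rfl,
    fun T T' h h' => lb P P' h h', ?_⟩
  rintro z z' ⟨R, hR, hz⟩ ⟨R', hR', hz'⟩
  obtain ⟨S, hS⟩ := (h2 G _ n A (pk P P')).1
  have z0 : ∀ {K : Type} [NormedAddCommGroup K] [InnerProductSpace ℝ K] (η : V G K),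
      amp G (0 : K →L[ℝ] H2 E F) η = 0 := fun η => lp.ext (funext fun _ => rfl)
  have m1 := h3 G E _ n n A P (pk P P') (i1 E F) 0 (i1 E F)
    (fun a g => ⟨i1_ds _ _, by rw [zero_comp, comp_zero], i1_ds _ _⟩)
    (fun a y => pk_good P P' (by
      rw [zero_apply, add_zero]
      exact (h2 G E n A P).2.1 a y) (by
      rw [zero_apply, add_zero]
      exact good_zero P' a)) R S hR hS
  have m2 := h3 G F _ n n A P' (pk P P') (i2 E F) 0 (i2 E F)
    (fun a g => ⟨i2_ds _ _, by rw [zero_comp, comp_zero], i2_ds _ _⟩)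
    (fun a y => pk_good P P' (by
      rw [zero_apply, add_zero]
      exact good_zero P a) (by
      rw [zero_apply, add_zero]
      exact (h2 G F n A P').2.1 a y)) R' S hR' hS
  simp only [z0, add_zero] at m1 m2
  have eS : S = cn (i1 E F) (p1 E F) R + cn (i2 E F) (p2 E F) R' :=
    ContinuousLinearMap.ext fun η => by
      have e : η = amp G (i1 E F) (amp G (p1 E F) η) + amp G (i2 E F) (amp G (p2 E F) η) :=
        lp.ext (funext fun γ => ext2 (add_zero _).symm (zero_add _).symm)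
      exact (congrArg S e).trans (by rw [map_add, m1, m2]; rfl)
  have n1 : ng (amp G P.w) ∈ RA G E := (alg G E).ng_mem (amp_mem _)
  have n2 : ng (amp G P'.w) ∈ RA G F := (alg G F).ng_mem (amp_mem _)
  have a1 := (RA G E).add_mem n1 hR.mem
  have a2 := (RA G F).add_mem n2 hR'.mem
  have c1 := (h1 G E (H2 E F)).1 (i1 E F) (p1 E F) rfl _ a1 _ n1 hR.res.idem
    (ng_idem hR.res.esq) z hz
  have c2 := (h1 G F (H2 E F)).1 (i2 E F) (p2 E F) rfl _ a2 _ n2 hR'.res.idem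
    (ng_idem hR'.res.esq) z' hz'
  have o := (h1 G (H2 E F) (H2 E F)).2.1 _ (cn_mem _ _ a1) _ (cn_mem _ _ n1) _ (cn_mem _ _ a2) _
    (cn_mem _ _ n2) (cn_idem p1_i1 hR.res.idem) (cn_idem p1_i1 (ng_idem hR.res.esq))
    (cn_idem p2_i2 hR'.res.idem) (cn_idem p2_i2 (ng_idem hR'.res.esq)) (cn_orth p1_i2 _ _)
    (cn_orth p2_i1 _ _) (cn_orth p1_i2 _ _) (cn_orth p2_i1 _ _) (cn_orth p1_i2 _ _)
    (cn_orth p2_i1 _ _) z z' c1 c2
  refine ⟨S, hS, ?_⟩
  change IsInd (ng (amp G (ds P.w P'.w)) + S) (ng (amp G (ds P.w P'.w))) _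
  rw [ng_ds, eS]
  convert o using 1
  simp only [cn, comp_add, add_comp]
  abel

end Pool.Agent.Lib.WD
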