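import Pool.Agent.Lib.WD.Blue

/-! The tensor product structure lifted to square summable functions on a group. -/

noncomputable section

open BCO
open scoped InnerProductSpace

namespace Pool.Agent.Lib.WD

theorem stTENL (hT : St_TENS) : St_TENL := by
  intro G _ E F H _ _ _ _ _ _ _ _ _ b hb
  classical
  have ht : Tens (lf G b) := by
    refine ⟨fun ξ y ξ' y' => ?_, ?_⟩
    · rw [lp.inner_eq_tsum, lp.inner_eq_tsum, ← tsum_mul_right]
      exact tsum_congr fun γ => hb.inner _ _ _ _
    · rw [Submodule.dense_iff_topologicalClosure_eq_top, eq_top_iff]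
      intro v _
      set S := (Submodule.span ℝ {v | ∃ x y, v = lf G b x y}).topologicalClosure with hS
      have hc : IsClosed (S : Set (V G H)) := Submodule.isClosed_topologicalClosure _
      have h1 : ∀ (γ : G) (h : H), lp.single 2 γ h ∈ S := by
        intro γ h
        let j := lp.singleContinuousLinearMap ℝ (fun _ : G => H) 2 γ
        have h2 : (Submodule.span ℝ {v | ∃ x y, v = b x y}).topologicalClosure ≤
            S.comap j.toLinearMap := by
          refine Submodule.topologicalClosure_minimal _ (Submodule.span_le.2 ?_)
            (hc.preimage j.continuous)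
          rintro _ ⟨x, y, rfl⟩
          refine Submodule.le_topologicalClosure _ (Submodule.subset_span
            ⟨lp.single 2 γ x, y, lp.ext (funext fun δ => ?_)⟩)
          rw [lf_apply]
          change (lp.single 2 γ (b x y) : V G H) δ = _
          by_cases h : δ = γ
          · subst h; simp
          · simp [lp.single_apply, Pi.single_eq_of_ne h]
        rw [Submodule.dense_iff_topologicalClosure_eq_top.1 hb.dense] at h2
        exact h2 (Submodule.mem_top (x := h))
      exact hc.mem_of_tendsto (lp.hasSum_single (by norm_num) v)
        (Filter.Eventually.of_forall fun s => sum_mem fun γ _ => h1 γ _)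
  have A := hT _ _ _ _ ht
  have B := hT _ _ _ _ hb
  have h3 : ∀ (g : G) T, lt (lf G b) (tw g T) = tw g (lt b T) := fun g T =>
    A.ext _ _ fun ξ y => by
      rw [A.lt_b]
      exact lp.ext (funext fun γ => (B.lt_b T _ y).symm)
  refine ⟨ht, fun X hX => ?_, fun T => by rw [← tw_one, h3, tw_one], fun S =>
    A.ext _ _ fun ξ y => ?_⟩
  · obtain ⟨φ, hφ⟩ := A.hom
    have := RR_map (LinearMap.mkContinuous φ.toAlgHom.toLinearMap 1 fun T => by
      rw [one_mul]; exact (congrArg norm (hφ T)).le.trans (A.norm T)) (RR G H H) isClosed_RR
      (fun g T => by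
        change φ (tw g T) ∈ _
        rw [hφ, h3]; exact tw_mem _ _) hX
    rw [← hφ]
    exact this
  · rw [A.rt_b]
    exact lp.ext (funext fun γ => (B.rt_b S _ y).symm)

end Pool.Agent.Lib.WD
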