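import Pool.Agent.Lib.WD.Blue
import Pool.Agent.Lib.MFI.Apx

/-! TENS: operators on a Hilbert tensor product. -/

noncomputable section

open Set Function Filter Topology TensorProduct
open scoped InnerProductSpace

namespace Pool.Agent.Lib.WD

namespace TENS

variable {E F H : Type} [NormedAddCommGroup E] [InnerProductSpace ℝ E] [CompleteSpace E]
  [NormedAddCommGroup F] [InnerProductSpace ℝ F] [CompleteSpace F] [NormedAddCommGroup H]
  [InnerProductSpace ℝ H] [CompleteSpace H] {b : E →L[ℝ] F →L[ℝ] H}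

theorem ext (h : Tens b) {K : Type} [NormedAddCommGroup K] [NormedSpace ℝ K] (S S' : H →L[ℝ] K)
    (e : ∀ x y, S (b x y) = S' (b x y)) : S = S' :=
  ContinuousLinearMap.ext_on h.dense (by rintro _ ⟨x, y, rfl⟩; exact e x y)

/-- the algebraic tensor product inside `H` -/
def J (b : E →L[ℝ] F →L[ℝ] H) : E ⊗[ℝ] F →ₗ[ℝ] H := TensorProduct.lift b.toLinearMap₁₂

theorem J_tmul (x : E) (y : F) : J b (x ⊗ₜ y) = b x y := rfl

theorem inner_J (h : Tens b) (u v : E ⊗[ℝ] F) : ⟪J b u, J b v⟫_ℝ = ⟪u, v⟫_ℝ := by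
  induction u with
  | zero => simp
  | add u u' h1 h2 => rw [map_add, inner_add_left, inner_add_left, h1, h2]
  | tmul x y =>
    induction v with
    | zero => simp
    | add v v' h1 h2 => rw [map_add, inner_add_right, inner_add_right, h1, h2]
    | tmul x' y' => rw [J_tmul, J_tmul, h.inner, TensorProduct.inner_tmul]

theorem norm_J (h : Tens b) (u : E ⊗[ℝ] F) : ‖J b u‖ = ‖u‖ := by
  rw [@norm_eq_sqrt_real_inner H, inner_J h]
  exact (norm_eq_sqrt_real_inner u).symm

theorem dense_J (h : Tens b) : DenseRange (J b) :=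
  h.dense.mono fun v hv => (Submodule.span_le (p := LinearMap.range (J b))).2
    (by rintro _ ⟨x, y, rfl⟩; exact ⟨x ⊗ₜ y, rfl⟩) hv

theorem exists_lt (h : Tens b) (T : E →L[ℝ] E) :
    ∃ S : H →L[ℝ] H, (∀ x y, S (b x y) = b (T x) y) ∧ ‖S‖ ≤ ‖T‖ := by
  have hn : ∀ u, ‖(J b ∘ₗ (T.rTensor F).toLinearMap) u‖ ≤ ‖T‖ * ‖J b u‖ := fun u => by
    rw [LinearMap.comp_apply, norm_J h, norm_J h]
    exact ((T.rTensor F).le_opNorm u).trans
      (mul_le_mul_of_nonneg_right (ContinuousLinearMap.norm_rTensor_le F T) (norm_nonneg _))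
  exact ⟨(J b ∘ₗ (T.rTensor F).toLinearMap).extendOfNorm (J b), fun x y =>
    LinearMap.extendOfNorm_eq (dense_J h) ⟨_, hn⟩ (x ⊗ₜ y),
    LinearMap.opNorm_extendOfNorm_le (dense_J h) (norm_nonneg _) hn⟩

theorem lt_b (h : Tens b) (T : E →L[ℝ] E) (x : E) (y : F) : lt b T (b x y) = b (T x) y :=
  Classical.epsilon_spec (p := fun S : H →L[ℝ] H => ∀ x y, S (b x y) = b (T x) y)
    ((exists_lt h T).imp fun _ hS => hS.1) x y

theorem rt_b (h : Tens b) (T : F →L[ℝ] F) (x : E) (y : F) : rt b T (b x y) = b x (T y) :=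
  lt_b h.flip T y x

theorem norm_lt (h : Tens b) (T : E →L[ℝ] E) : ‖lt b T‖ ≤ ‖T‖ := by
  obtain ⟨S, h1, h2⟩ := exists_lt h T
  rwa [ext h (lt b T) S fun x y => by rw [lt_b h, h1]]

theorem lt_star (h : Tens b) (T : E →L[ℝ] E) : lt b (star T) = star (lt b T) := by
  refine ext h _ _ fun x y => ext_inner_right ℝ fun v => ?_
  rw [ContinuousLinearMap.star_eq_adjoint (lt b T), ContinuousLinearMap.adjoint_inner_left]
  refine DFunLike.congr_fun (ext h (innerSL ℝ (lt b (star T) (b x y)))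
    (innerSL ℝ (b x y) ∘L lt b T) fun x' y' => ?_) v
  change ⟪lt b (star T) (b x y), b x' y'⟫_ℝ = ⟪b x y, lt b T (b x' y')⟫_ℝ
  rw [lt_b h, lt_b h, h.inner, h.inner, ContinuousLinearMap.star_eq_adjoint,
    ContinuousLinearMap.adjoint_inner_left]

/-- `T ↦ T ⊗ 1` -/
def hom (h : Tens b) : (E →L[ℝ] E) →⋆ₐ[ℝ] (H →L[ℝ] H) where
  toFun := lt b
  map_one' := ext h _ _ fun x y => by rw [lt_b h]; rfl
  map_mul' T S := ext h _ _ fun x y => by
    rw [ContinuousLinearMap.mul_apply, lt_b h, lt_b h, lt_b h]; rfl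
  map_zero' := ext h _ _ fun x y => by rw [lt_b h]; simp
  map_add' T S := ext h _ _ fun x y => by
    rw [ContinuousLinearMap.add_apply, lt_b h, lt_b h, lt_b h]; simp
  commutes' r := ext h _ _ fun x y => by rw [lt_b h]; simp [Algebra.algebraMap_eq_smul_one]
  map_star' := lt_star h

theorem comm (h : Tens b) (T : E →L[ℝ] E) (S : F →L[ℝ] F) :
    lt b T * rt b S = rt b S * lt b T :=
  ext h _ _ fun x y => by
    rw [ContinuousLinearMap.mul_apply, ContinuousLinearMap.mul_apply, rt_b h, lt_b h, lt_b h,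
      rt_b h]

theorem pos (h : Tens b) (T : E →L[ℝ] E) (hT : ∀ x, 0 ≤ ⟪T x, x⟫_ℝ) (v : H) :
    0 ≤ ⟪lt b T v, v⟫_ℝ := by
  have key : ∀ ε : ℝ, 0 < ε → -(ε * (‖T‖ ^ 2 * ‖v‖ ^ 2)) ≤ 2 * ⟪lt b T v, v⟫_ℝ := fun ε hε => by
    have h1 : ‖1 - ε • T‖ ≤ √(1 + ε ^ 2 * ‖T‖ ^ 2) := by
      refine ContinuousLinearMap.opNorm_le_bound _ (Real.sqrt_nonneg _) fun x => ?_
      refine abs_le_of_sq_le_sq' ?_ (by positivity) |>.2
      rw [mul_pow, Real.sq_sqrt (by positivity)]
      have e : (1 - ε • T) x = x - ε • T x := rfl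
      have h2 : ‖T x‖ ^ 2 ≤ ‖T‖ ^ 2 * ‖x‖ ^ 2 := by
        rw [← mul_pow]; exact pow_le_pow_left₀ (norm_nonneg _) (T.le_opNorm x) 2
      rw [e, norm_sub_sq_real, inner_smul_right, norm_smul, mul_pow, Real.norm_eq_abs, sq_abs,
        real_inner_comm]
      nlinarith [mul_nonneg hε.le (hT x), mul_le_mul_of_nonneg_left h2 (sq_nonneg ε)]
    have h3 : ‖v - ε • lt b T v‖ ≤ √(1 + ε ^ 2 * ‖T‖ ^ 2) * ‖v‖ := by
      have e : lt b (1 - ε • T) = 1 - ε • lt b T := by
        change hom h _ = 1 - ε • hom h T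
        rw [map_sub, map_one, map_smul]
      have := (lt b (1 - ε • T)).le_of_opNorm_le ((norm_lt h _).trans h1) v
      rwa [e] at this
    have h4 := pow_le_pow_left₀ (norm_nonneg _) h3 2
    rw [mul_pow, Real.sq_sqrt (by positivity), norm_sub_sq_real, inner_smul_right,
      real_inner_comm] at h4
    refine le_of_mul_le_mul_left ?_ hε
    nlinarith [sq_nonneg ‖ε • lt b T v‖]
  have lim : Tendsto (fun ε : ℝ => -(ε * (‖T‖ ^ 2 * ‖v‖ ^ 2))) (𝓝[>] 0) (𝓝 0) := by
    have : Continuous fun ε : ℝ => -(ε * (‖T‖ ^ 2 * ‖v‖ ^ 2)) := by fun_prop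
    simpa using (this.tendsto 0).mono_left nhdsWithin_le_nhds
  have := le_of_tendsto lim (eventually_mem_nhdsWithin.mono fun ε hε => key ε hε)
  linarith

theorem cont (h : Tens b) : Continuous (lt b) :=
  AddMonoidHomClass.continuous_of_bound (hom h) 1 fun T => (norm_lt h T).trans_eq (one_mul _).symm

open MFI in
theorem cpt_pr (h : Tens b) (s : Finset E) (t : Finset F) :
    IsCompactOperator (lt b (prS s) * rt b (prS t) : H →L[ℝ] H) := by
  classical
  let W : Submodule ℝ H := Submodule.span ℝ (Set.image2 (fun x y => b x y) (s : Set E) (t : Set F))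
  haveI : FiniteDimensional ℝ W :=
    FiniteDimensional.span_of_finite ℝ (s.finite_toSet.image2 _ t.finite_toSet)
  have hW : ∀ x ∈ Submodule.span ℝ (s : Set E), ∀ y ∈ Submodule.span ℝ (t : Set F),
      b x y ∈ W := fun x hx y hy => by
    have := Submodule.apply_mem_map₂ b.toLinearMap₁₂ hx hy
    rwa [Submodule.map₂_span_span] at this
  have e : (lt b (prS s) * rt b (prS t) : H →L[ℝ] H) =
      W.subtypeL ∘L W.orthogonalProjection ∘L (lt b (prS s) * rt b (prS t)) :=
    ext h _ _ fun x y => by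
      have : W.starProjection (b (prS s x) (prS t y)) = b (prS s x) (prS t y) :=
        Submodule.starProjection_eq_self_iff.2 (hW _ (prS_mem s x) _ (prS_mem t y))
      simp only [ContinuousLinearMap.mul_apply, ContinuousLinearMap.comp_apply, rt_b h, lt_b h]
      exact this.symm
  rw [e]
  exact (isCompactOperator_of_locallyCompactSpace_dom
    (W.orthogonalProjection ∘L (lt b (prS s) * rt b (prS t)))).clm_comp W.subtypeL

open MFI in
theorem cpt (h : Tens b) (T : E →L[ℝ] E) (S : F →L[ℝ] F) (hT : IsCompactOperator T)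
    (hS : IsCompactOperator S) : IsCompactOperator (lt b T * rt b S : H →L[ℝ] H) := by
  classical
  have h1 := (((cont h).tendsto T).comp (tendsto_prS hT)).comp
    (tendsto_fst (f := atTop) (g := (atTop : Filter (Finset F))))
  have h2 := (((cont h.flip).tendsto S).comp (tendsto_prS hS)).comp
    (tendsto_snd (f := (atTop : Filter (Finset E))) (g := atTop))
  refine isCompactOperator_of_tendsto (h1.mul h2) (Eventually.of_forall fun p => ?_)
  have e : (lt b (prS p.1 * T * prS p.1) * rt b (prS p.2 * S * prS p.2) : H →L[ℝ] H) =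
      (lt b (prS p.1) * rt b (prS p.2)) ∘L (lt b (T * prS p.1) * rt b (S * prS p.2)) :=
    ext h _ _ fun x y => by
      simp only [ContinuousLinearMap.mul_apply, ContinuousLinearMap.comp_apply, rt_b h, lt_b h]
  change IsCompactOperator (lt b (prS p.1 * T * prS p.1) * rt b (prS p.2 * S * prS p.2) : H →L[ℝ] H)
  rw [e]
  exact (cpt_pr h p.1 p.2).comp_clm _

theorem dense (h : Tens b) (D : Set E) (D' : Set F) (hD : Dense D) (hD' : Dense D') :
    Dense (Submodule.span ℝ {v | ∃ x ∈ D, ∃ y ∈ D', v = b x y} : Set H) := by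
  let W := Submodule.span ℝ {v | ∃ x ∈ D, ∃ y ∈ D', v = b x y}
  have h1 : ∀ x y, b x y ∈ W.topologicalClosure := fun x y =>
    map_mem_closure₂ (f := fun x y => b x y) b.continuous₂ (hD x) (hD' y)
      fun x hx y hy => Submodule.subset_span ⟨x, hx, y, hy, rfl⟩
  refine Dense.of_closure (h.dense.mono fun v hv => ?_)
  exact (Submodule.span_le (p := W.topologicalClosure)).2
    (by rintro _ ⟨x, y, rfl⟩; exact h1 x y) hv

end TENS

theorem stTENS : St_TENS := fun _ _ _ _ _ _ _ _ _ _ _ _ _ h =>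
  ⟨fun S S' e => TENS.ext h S S' e, TENS.lt_b h, TENS.rt_b h, ⟨TENS.hom h, fun _ => rfl⟩,
    TENS.norm_lt h, TENS.comm h, TENS.pos h, TENS.cpt h, TENS.dense h⟩

end Pool.Agent.Lib.WD
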