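import Pool.Agent.Lib.WD.Blue

/-! The product package. -/

noncomputable section

open Set Function BCO ContinuousLinearMap
open scoped InnerProductSpace

namespace Pool.Agent.Lib.WD

open CX AN

namespace TENb

variable {E F H : Type} [NormedAddCommGroup E] [InnerProductSpace ℝ E] [CompleteSpace E]
  [NormedAddCommGroup F] [InnerProductSpace ℝ F] [CompleteSpace F] [NormedAddCommGroup H]
  [InnerProductSpace ℝ H] [CompleteSpace H] {b : E →L[ℝ] F →L[ℝ] H}

theorem res_lt (t : TensApi b) {φ : (E →L[ℝ] E) →⋆ₐ[ℝ] (H →L[ℝ] H)} (hφ : ∀ T, φ T = lt b T)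
    {w R : E →L[ℝ] E} (h : Res w R) : Res (φ w) (φ R) := by
  have sa : star (φ R) = φ R := by rw [← map_star, h.sa]
  refine ⟨by rw [← map_star, h.esa], by rw [← map_mul, h.esq, map_one], sa,
    by simp only [← map_mul, ← map_add, h.rel], (injective_iff_map_eq_zero _).2 fun x hx => ?_⟩
  have hd := t.dense _ _ h.dense dense_univ
  refine ext_inner_right ℝ fun v => ?_
  rw [inner_zero_left]
  refine hd.induction (P := fun v => ⟪x, v⟫_ℝ = 0) (fun v hv => ?_)
    (isClosed_eq (by fun_prop) continuous_const) v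
  refine Submodule.span_induction (p := fun v _ => ⟪x, v⟫_ℝ = 0) ?_ (inner_zero_right _)
    (fun u v _ _ h1 h2 => by rw [inner_add_right, h1, h2, add_zero])
    (fun c u _ h1 => by rw [inner_smul_right, h1, mul_zero]) hv
  rintro _ ⟨_, ⟨u, rfl⟩, y, -, rfl⟩
  rw [← t.lt_b, ← hφ, ← inner_sa sa, hx, inner_zero_left]

theorem lb_lt (t : TensApi b) {φ : (E →L[ℝ] E) →⋆ₐ[ℝ] (H →L[ℝ] H)} (hφ : ∀ T, φ T = lt b T)
    {ι : Type} [Fintype ι] (N : ι → E →L[ℝ] E) (T w R : E →L[ℝ] E)
    (h : ∀ x, ∑ j, ‖N j x‖ ^ 2 + ⟪T (R x), R x⟫_ℝ ≤ ‖x - w (R x)‖ ^ 2) (u : H) :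
    ∑ j, ‖φ (N j) u‖ ^ 2 + ⟪φ T (φ R u), φ R u⟫_ℝ ≤ ‖u - φ w (φ R u)‖ ^ 2 := by
  have key : ∀ {K : Type} [NormedAddCommGroup K] [InnerProductSpace ℝ K] [CompleteSpace K]
      (N : ι → K →L[ℝ] K) (T w R : K →L[ℝ] K) (x : K),
      ⟪(star (1 - w * R) * (1 - w * R) - ∑ j, star (N j) * N j - star R * T * R) x, x⟫_ℝ =
        ‖x - w (R x)‖ ^ 2 - ∑ j, ‖N j x‖ ^ 2 - ⟪T (R x), R x⟫_ℝ := by
    intro K _ _ _ N T w R x
    rw [sub_apply, sub_apply, inner_sub_left, inner_sub_left, mul_apply_eq_comp, inner_star]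
    simp only [sub_apply, _root_.sum_apply, sum_inner, mul_apply_eq_comp,
      inner_star, real_inner_self_eq_norm_sq, one_apply_eq_self]
  have h1 := t.pos _ (fun x => by rw [key N T w R x]; linarith [h x]) u
  rw [← hφ] at h1
  simp only [map_sub, map_mul, map_sum, map_star, map_one] at h1
  rw [key] at h1
  linarith

end TENb

open TENb in
theorem stTENb (hT : St_TWX) (hM : St_MAP) (hS : St_TENS) (hX : St_PIX) : St_TEN := by
  intro G _ E F H _ _ _ _ _ _ _ _ _ n A _ P b hb d B J hB hJ hJ2 hw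
  classical
  have t := hS E F H b hb
  have t' := hS F E H b.flip hb.flip
  obtain ⟨φ, hφ⟩ := t.hom
  obtain ⟨χ, hχ⟩ := t'.hom
  have cm : ∀ X Y, φ X * χ Y = χ Y * φ X := fun X Y => by rw [hφ, hχ]; exact t.comm X Y
  have fb : ∀ X x y, φ X (b x y) = b (X x) y := fun X x y => by rw [hφ, t.lt_b]
  have gb : ∀ Y x y, χ Y (b x y) = b x (Y y) := fun Y x y => by rw [hχ]; exact t.rt_b Y x y
  have p : Pair (φ P.w) (φ P.R) (χ d) (χ B) :=
    ⟨res_lt t hφ (pack_res P), res_lt t' hχ hB, cm _ _, cm _ _, cm _ _, cm _ _⟩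
  obtain ⟨R, hR⟩ := p.exists_res
  have r := p.res hR
  set Z := zz (φ P.w) (φ P.R) (χ B) with hZ
  have hRv : ∀ v, R (Z v) = φ P.R (χ B v) := fun v => DFunLike.congr_fun hR v
  have zb : ∀ x y, Z (b x y) = b x (B y) + b (P.w (P.R x)) (y - B y) := fun x y => by
    simp only [hZ, zz, add_apply, mul_apply_eq_comp, sub_apply, one_apply_eq_self, gb, map_sub, fb]
  have lb : ∀ (T : E →L[ℝ] E) (T' : F →L[ℝ] F), LB P T →
      (∀ y, ⟪T' (B y), B y⟫_ℝ ≤ ‖y - d (B y)‖ ^ 2) → ∀ v, ∑ j, ‖φ (P.N j) (χ B v)‖ ^ 2 +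
        ⟪(φ T + χ T') (R (Z v)), R (Z v)⟫_ℝ ≤ ‖Z v - (φ P.w * χ d) (R (Z v))‖ ^ 2 := by
    intro T T' h1 h2 v
    have a1 := lb_lt t hφ P.N T P.w P.R h1 (χ B v)
    have a2 := lb_lt t' hχ (fun _ : Empty => 0) T' d B (by simpa using h2) (φ P.R v)
    rw [hRv, p.norm_D, add_apply, inner_add_left]
    rw [← p.swap] at a2
    rw [← p.swap]
    simp only [Finset.univ_eq_empty, Finset.sum_empty, zero_add] at a2
    linarith
  have lb0 := lb _ 0 (lb_chi P) fun y => by simp
  have hN : ∀ j, ∃ M : H →L[ℝ] H, M * Z = φ (P.N j) * χ B := fun j => by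
    set T := φ (-(P.chi * P.chi)) + χ 0
    have hn : ∀ v, ‖(φ (P.N j) * χ B) v‖ ≤ (1 + ‖T‖) * ‖Z v‖ := fun v => by
      have a1 := lb0 v
      have a2 := Finset.single_le_sum (f := fun j => ‖φ (P.N j) (χ B v)‖ ^ 2)
        (fun _ _ => sq_nonneg _) (Finset.mem_univ j)
      have a3 := r.pyth (Z v)
      have a4 := neg_le_of_abs_le (abs_real_inner_le_norm (T (R (Z v))) (R (Z v)))
      have a5 := mul_le_mul_of_nonneg_right (T.le_opNorm (R (Z v))) (norm_nonneg (R (Z v)))
      have a6 := mul_le_mul_of_nonneg_left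
        (pow_le_pow_left₀ (norm_nonneg _) (r.apply_le (Z v)) 2) (norm_nonneg T)
      refine (pow_le_pow_iff_left₀ (norm_nonneg _) (by positivity) two_ne_zero).1 ?_
      rw [mul_apply_eq_comp]
      nlinarith [sq_nonneg ‖R (Z v)‖, mul_nonneg (norm_nonneg T) (sq_nonneg ‖Z v‖),
        mul_nonneg (sq_nonneg ‖T‖) (sq_nonneg ‖Z v‖)]
    refine ⟨LinearMap.extendOfNorm (φ (P.N j) * χ B : H →L[ℝ] H).toLinearMap Z.toLinearMap, ?_⟩
    ext v
    exact LinearMap.extendOfNorm_eq (f := (φ (P.N j) * χ B : H →L[ℝ] H).toLinearMap)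
      (e := Z.toLinearMap) p.dense ⟨_, hn⟩ v
  choose M hMZ using hN
  have hMv : ∀ j v, M j (Z v) = φ (P.N j) (χ B v) := fun j v => DFunLike.congr_fun (hMZ j) v
  have lb2 : ∀ T : H →L[ℝ] H, (∀ v, ∑ j, ‖φ (P.N j) (χ B v)‖ ^ 2 +
      ⟪T (R (Z v)), R (Z v)⟫_ℝ ≤ ‖Z v - (φ P.w * χ d) (R (Z v))‖ ^ 2) → ∀ η,
      ∑ j, ‖(Fin.snoc M 0 : Fin (n + 1) → H →L[ℝ] H) j η‖ ^ 2 + ⟪T (R η), R η⟫_ℝ ≤
        ‖η - (φ P.w * χ d) (R η)‖ ^ 2 := fun T h η => by
    simp only [Fin.sum_univ_castSucc, Fin.snoc_castSucc, Fin.snoc_last, zero_apply, norm_zero,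
      ne_eq, two_ne_zero, not_false_eq_true, zero_pow, add_zero]
    refine p.dense.induction_on (p := fun η => ∑ j, ‖M j η‖ ^ 2 + ⟪T (R η), R η⟫_ℝ ≤
      ‖η - (φ P.w * χ d) (R η)‖ ^ 2) η (isClosed_le (by fun_prop) (by fun_prop)) fun v => ?_
    simpa only [← hZ, hMv] using h v
  have wg : ∀ j, φ (P.gam j) * (φ P.w * χ J) + φ P.w * χ J * φ (P.gam j) = 0 := fun j => by
    rw [mul_assoc (φ P.w), ← cm, ← mul_assoc, ← mul_assoc, ← map_mul, ← map_mul, hw, map_neg,
      neg_mul, add_neg_cancel]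
  let Q : Pre G H (n + 1) A :=
    { F := P.F
      w := φ P.w * χ d
      R := R
      gam := Fin.snoc (fun j => φ (P.gam j)) (φ P.w * χ J)
      N := Fin.snoc M 0
      ph := fun a => φ (P.ph a)
      dph := fun a => Fin.snoc (fun j => φ (P.dph a j)) 0
      E := fun a g => φ (P.E a g)
      mul := insert 0 (φ '' P.mul)
      ph_mem := fun a => .inr ⟨_, P.ph_mem a, rfl⟩
      dph_mem := fun a j => by
        refine Fin.lastCases ?_ (fun j => ?_) j
        · rw [Fin.snoc_last]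
          exact .inl rfl
        · rw [Fin.snoc_castSucc]
          exact .inr ⟨_, P.dph_mem a j, rfl⟩
      E_mem := fun a g => .inr ⟨_, P.E_mem a g, rfl⟩
      mul_sa := by
        rintro _ (rfl | ⟨x, hx, rfl⟩)
        · exact star_zero _
        · rw [← map_star, P.mul_sa x hx]
      mul_comm := by
        rintro _ (rfl | ⟨x, hx, rfl⟩) _ (rfl | ⟨y, hy, rfl⟩)
        any_goals simp only [zero_mul, mul_zero]
        rw [← map_mul, ← map_mul, P.mul_comm x hx y hy]
      mul_w := by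
        rintro _ (rfl | ⟨x, hx, rfl⟩)
        · simp only [zero_mul, mul_zero]
        · rw [← mul_assoc, ← map_mul, P.mul_w x hx, map_mul, mul_assoc, cm, mul_assoc]
      mul_gam := by
        rintro _ (rfl | ⟨x, hx, rfl⟩) j
        · simp only [zero_mul, mul_zero]
        refine Fin.lastCases ?_ (fun j => ?_) j
        · rw [Fin.snoc_last, ← mul_assoc, ← map_mul, P.mul_w x hx, map_mul, mul_assoc, cm,
            mul_assoc]
        · rw [Fin.snoc_castSucc, ← map_mul, ← map_mul, P.mul_gam x hx]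
      res := r
      gam_skew := fun j => by
        refine Fin.lastCases ?_ (fun j => ?_) j
        · rw [Fin.snoc_last, star_mul, ← map_star, ← map_star, hJ, P.res.w_sa, map_neg, neg_mul,
            cm]
        · rw [Fin.snoc_castSucc, ← map_star, P.gam_skew, map_neg]
      gam_cl := fun j k => by
        refine Fin.lastCases ?_ (fun j => ?_) j <;> refine Fin.lastCases ?_ (fun k => ?_) k
        · have : φ P.w * χ J * (φ P.w * χ J) = -1 := by
            rw [mul_assoc, ← mul_assoc (χ J), ← cm, mul_assoc, ← map_mul, hJ2, ← mul_assoc,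
              ← map_mul, P.res.w_sq, map_one, one_mul, map_neg, map_one]
          rw [Fin.snoc_last, this, if_pos rfl, ← neg_add, one_add_one_eq_two]
        · rw [Fin.snoc_last, Fin.snoc_castSucc, if_neg (Fin.castSucc_lt_last k).ne', add_comm, wg]
        · rw [Fin.snoc_last, Fin.snoc_castSucc, if_neg (Fin.castSucc_lt_last j).ne, wg]
        · rw [Fin.snoc_castSucc, Fin.snoc_castSucc, ← map_mul, ← map_mul, ← map_add, P.gam_cl]
          simp only [Fin.castSucc_inj]
          split_ifs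
          · rw [map_neg, map_ofNat]
          · exact map_zero φ
      E_mul := fun a g h => by
        rw [← map_mul, P.E_mul]
        split_ifs
        · rfl
        · exact map_zero φ
      E_off := fun a g h => by rw [P.E_off a g h, map_zero]
      ph_supp := fun a => by rw [← map_sum, ← map_mul, P.ph_supp]
      dph_supp := fun a j => by
        refine Fin.lastCases ?_ (fun j => ?_) j
        · rw [Fin.snoc_last, mul_zero]
        · rw [Fin.snoc_castSucc, ← map_sum, ← map_mul, P.dph_supp]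
      ph_sq := by simp only [← map_mul, ← map_sum, P.ph_sq, map_one]
      ph_dph := fun j => by
        refine Fin.lastCases ?_ (fun j => ?_) j
        · simp only [Fin.snoc_last, mul_zero, Finset.sum_const_zero]
        · simp only [Fin.snoc_castSucc, ← map_mul, ← map_sum, P.ph_dph, map_zero]
      comm := fun a c g => by
        obtain ⟨h1, h2⟩ := P.comm a c g
        have h0 : P.ph a * P.ph c * (∑ h ∈ P.F, P.E a h * P.E c (h * g)) * P.w =
            P.w * (P.ph a * P.ph c * ∑ h ∈ P.F, P.E a h * P.E c (h * g)) :=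
          (Commute.mul_left (Commute.mul_left (P.mul_w _ (P.ph_mem a)) (P.mul_w _ (P.ph_mem c)))
            (Commute.sum_left _ _ _ fun h _ =>
              Commute.mul_left (P.mul_w _ (P.E_mem a h)) (P.mul_w _ (P.E_mem c _)))).eq
        simp only [Fin.sum_univ_castSucc, Fin.snoc_castSucc, Fin.snoc_last, zero_mul, mul_zero,
          add_zero, ← map_mul, ← map_sum, ← map_add]
        set e := ∑ h ∈ P.F, P.E a h * P.E c (h * g)
        set ψ := P.ph a * P.ph c * e
        set C := ∑ j, P.gam j * ((P.dph a j * P.ph c + P.ph a * P.dph c j) * e)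
        clear_value ψ C
        have h3 : P.R * (ψ + C * P.R) = ψ * P.R := by
          rw [mul_add, ← mul_assoc, ← h1, add_sub_cancel]
        have h4 : Z * φ (ψ + C * P.R) = φ ψ * Z + φ C * (φ P.R * χ B) := by
          have c1 : (1 - χ B) * φ (ψ + C * P.R) = φ (ψ + C * P.R) * (1 - χ B) := by
            rw [sub_mul, mul_sub, one_mul, mul_one, cm]
          rw [hZ, zz, add_mul, mul_assoc, c1, ← cm, ← mul_assoc, mul_assoc (φ P.w), ← map_mul, h3,
            ← map_mul, ← mul_assoc, ← h0, mul_add (φ ψ)]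
          simp only [map_add, map_mul, add_mul, mul_assoc]
          abel
        have h5 : (φ ψ + φ C * R) * Z = Z * φ (ψ + C * P.R) := by
          rw [h4, add_mul, mul_assoc, hR]
        refine ⟨ext_dense p.dense ?_, fun j => ?_⟩
        · change (φ ψ * R - R * φ ψ) * Z = R * φ C * R * Z
          have h6 : R * ((φ ψ + φ C * R) * Z) = φ ψ * (R * Z) := by
            rw [h5, ← mul_assoc, hR, mul_assoc, ← cm, ← mul_assoc, ← map_mul, h3, map_mul,
              mul_assoc]
          rw [sub_mul, mul_assoc, ← h6]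
          noncomm_ring
        refine Fin.lastCases ?_ (fun j => ?_) j
        · simp only [Fin.snoc_last, zero_mul, mul_zero, add_zero]
        · simp only [Fin.snoc_castSucc, ← map_mul, ← map_add]
          refine ext_dense p.dense ?_
          change M j * (φ ψ + φ C * R) * Z = (φ ψ * M j + φ _ * R) * Z
          rw [mul_assoc, h5, ← mul_assoc, hMZ, mul_assoc, ← cm, ← mul_assoc, ← map_mul, h2 j,
            add_mul (φ ψ * M j), mul_assoc (φ ψ), mul_assoc _ R, hMZ, hR]
          simp only [map_add, map_mul, add_mul, mul_assoc] }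
  have qw : φ P.w * χ d = lt b P.w * rt b d := by rw [hφ, hχ]
  have qR : ∀ x y, R (b x (B y) + b (P.w (P.R x)) (y - B y)) = b (P.R x) (B y) := fun x y => by
    rw [← zb, hRv, gb, fb]
  refine ⟨Q.pack _ (lb2 _ lb0), qw, fun a => hφ _, fun a g => hφ _, qR, fun j x y => ?_,
    Fin.snoc_last (α := fun _ => H →L[ℝ] H) 0 M, fun D D' h1 h2 => ?_, fun X Y h1 h2 => ?_, fun T T' h1 h2 => ?_,
    fun k z hk ⟨R₁, h1, h2⟩ => ?_⟩
  · change (Fin.snoc M 0 : Fin (n + 1) → H →L[ℝ] H) j.castSucc _ = _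
    rw [Fin.snoc_castSucc, ← zb, hMv, gb, fb]
  · refine (p.dense.dense_image Z.continuous (t.dense D D' h1 h2)).mono ?_
    rintro _ ⟨v, hv, rfl⟩
    refine Submodule.span_mono ?_ (Submodule.apply_mem_span_image_of_mem_span Z.toLinearMap hv)
    rintro _ ⟨_, ⟨x, hx, y, hy, rfl⟩, rfl⟩
    exact ⟨x, hx, y, hy, zb x y⟩
  · have h3 := t.cpt _ _ h1 h2
    rw [← hφ, show rt b (Y * B) = χ (Y * B) from (hχ _).symm] at h3
    rw [← hφ, show rt b Y = χ Y from (hχ _).symm]
    refine isClosed_setOfPred_isCompactOperator.closure_subset (a := φ X * χ Y * R)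
      (Metric.mem_closure_iff.2 fun η hη => ?_)
    obtain ⟨W, -, h4⟩ := p.approx (L := ⊤) isClosed_univ (fun _ _ => trivial) trivial trivial
      trivial hR (η := η / (‖φ X * χ Y‖ + 1)) (by positivity)
    refine ⟨φ (X * P.R) * χ (Y * B) * W, h3.comp_clm W, ?_⟩
    have h5 : φ X * χ Y * R - φ (X * P.R) * χ (Y * B) * W =
        φ X * χ Y * (R - φ P.R * χ B * W) := by
      rw [map_mul, map_mul, mul_assoc (φ X) (φ P.R), ← mul_assoc (φ P.R), cm P.R Y]
      noncomm_ring
    rw [dist_eq_norm, h5]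
    rw [lt_div_iff₀ (by positivity)] at h4
    nlinarith [norm_mul_le (φ X * χ Y) (R - φ P.R * χ B * W), norm_nonneg (R - φ P.R * χ B * W)]
  · rw [← hφ, show rt b T' = χ T' from (hχ _).symm]
    exact lb2 _ (lb T T' h1 h2)
  · obtain ⟨R', hR'⟩ := (hT G H _ A (Q.pack _ (lb2 _ lb0))).1
    refine ⟨R', hR', ?_⟩
    change Ix (amp G (φ P.w * χ d)) R' _
    rw [qw]
    refine hX G E F H b hb P.w d B k hB hk R₁ h1.mem h1.res R' (fun η y => ?_) z h2
    refine hM G E H n (n + 1) A P (Q.pack _ (lb2 _ lb0)) _ _ _ (fun a g => ?_) (fun a u => ?_) R₁ R'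
      h1 hR' η
    · refine ⟨ContinuousLinearMap.ext fun x => (fb _ _ _).symm,
        ContinuousLinearMap.ext fun x => Eq.trans ?_ (fb _ _ _).symm,
        ContinuousLinearMap.ext fun x => (fb _ _ _).symm⟩
      exact congrArg (b · (y - B y)) (DFunLike.congr_fun (P.mul_w _ (P.E_mem a g)) x).symm
    · intro c g
      have h3 := (hT G E n A P).2.1 a u c g
      generalize (can P a u).1 = s' at h3 ⊢
      generalize (can P a u).2 = s at h3 ⊢
      have e1 : (Q.pack _ (lb2 _ lb0)).E2 c a g = φ (P.E2 c a g) := by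
        simp only [RQ.Pack.E2, map_sum, map_mul]
        rfl
      have e2 : (Q.pack _ (lb2 _ lb0)).C c = φ (P.C c) := by
        simp only [RQ.Pack.C, map_sum, map_mul, Fin.sum_univ_castSucc]
        simp only [Pre.pack, Q, Fin.snoc_castSucc, Fin.snoc_last, mul_zero, add_zero]
      have e3 : P.E2 c a g (P.ph c (P.w s)) = P.w (P.E2 c a g (P.ph c s)) :=
        DFunLike.congr_fun (Commute.mul_left (Commute.sum_left _ _ _ fun h _ =>
          Commute.mul_left (P.mul_w _ (P.E_mem c h)) (P.mul_w _ (P.E_mem a _)))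
          (P.mul_w _ (P.ph_mem c))).eq s
      rw [e1, e2]
      change R (φ _ (φ (P.ph c) (b s' (B y) + b (P.w s) (y - B y)) + φ _ (b s (B y)))) =
        φ _ (φ (P.ph c) (b s (B y)))
      rw [fb _ s, fb _ s, fb _ (P.ph c s), ← h3, ← qR, h3, ← e3]
      congr 1
      simp only [map_add, fb, add_apply]
      abel

end Pool.Agent.Lib.WD
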