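import Pool.Agent.Lib.WD.Blue
import Pool.Agent.Lib.AN.MUL

/-! Block TR: transport of `L²` sections along a measure preserving embedding. -/

noncomputable section

open Set Function Filter MeasureTheory ContinuousLinearMap
open scoped InnerProductSpace ENNReal

namespace Pool.Agent.Lib.WD

open CX AN
open ANA.CylB (pull pull_j pull_off)

namespace TR

variable {α β : Type} [MeasurableSpace α] [MeasurableSpace β] {N : ℕ}

/-- the hypotheses on the embedding -/
structure Hy (ψ : α → β) (O : Set α) (μ : Measure α) (ρ : Measure β) : Prop where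
  mO : MeasurableSet O
  emb : MeasurableEmbedding (O.domRestrict ψ)
  vol : ∀ A ⊆ O, MeasurableSet A → ρ (ψ '' A) = μ A

variable {ψ : α → β} {O : Set α} {μ : Measure α} {ρ : Measure β}

theorem Hy.inj (h : Hy ψ O μ ρ) : InjOn ψ O := fun a ha b hb e =>
  congrArg Subtype.val (h.emb.injective (a₁ := ⟨a, ha⟩) (a₂ := ⟨b, hb⟩) e)

theorem Hy.mI (h : Hy ψ O μ ρ) : MeasurableSet (ψ '' O) := by
  have := h.emb.measurableSet_range
  rwa [range_domRestrict] at this

theorem Hy.pre (h : Hy ψ O μ ρ) {B : Set β} (hB : MeasurableSet B) :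
    MeasurableSet (O ∩ ψ ⁻¹' B) := by
  have := (MeasurableEmbedding.subtype_coe h.mO).measurableSet_image.2 (h.emb.measurable hB)
  convert this using 1
  ext z
  exact ⟨fun hz => ⟨⟨z, hz.1⟩, hz.2, rfl⟩, fun ⟨a, ha, e⟩ => e ▸ ⟨a.2, ha⟩⟩

theorem Hy.map (h : Hy ψ O μ ρ) :
    (μ.comap (Subtype.val : O → α)).map (O.domRestrict ψ) = ρ.restrict (ψ '' O) := by
  ext B hB
  rw [h.emb.map_apply, Measure.restrict_apply hB,
    (MeasurableEmbedding.subtype_coe h.mO).comap_apply]
  have e : Subtype.val '' (O.domRestrict ψ ⁻¹' B) = O ∩ ψ ⁻¹' B := by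
    ext z
    exact ⟨fun ⟨a, ha, e⟩ => e ▸ ⟨a.2, ha⟩, fun hz => ⟨⟨z, hz.1⟩, hz.2, rfl⟩⟩
  rw [e, ← h.vol _ inter_subset_left (h.pre hB), image_inter_preimage, inter_comm]

theorem Hy.map' (h : Hy ψ O μ ρ) :
    (μ.comap (Subtype.val : O → α)).map Subtype.val = μ.restrict O := by
  rw [(MeasurableEmbedding.subtype_coe h.mO).map_comap, Subtype.range_coe]

theorem Hy.fwd (h : Hy ψ O μ ρ) {p : α → Prop} (hp : ∀ᵐ z ∂μ, p z) :
    ∀ᵐ y ∂ρ, ∀ z ∈ O, ψ z = y → p z := by
  obtain ⟨M, h1, h2, h3⟩ := exists_measurable_superset_of_null (ae_iff.1 hp)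
  have h4 : ρ (ψ '' (M ∩ O)) = 0 := by
    rw [h.vol _ inter_subset_right (h2.inter h.mO)]
    exact measure_mono_null inter_subset_left h3
  refine measure_mono_null (fun y hy => ?_) h4
  by_contra hc
  exact hy fun z hz e => by_contra fun hn => hc ⟨z, ⟨h1 hn, hz⟩, e⟩

theorem Hy.bwd (h : Hy ψ O μ ρ) {q : β → Prop} (hq : ∀ᵐ y ∂ρ, q y) :
    ∀ᵐ z ∂μ, z ∈ O → q (ψ z) := by
  obtain ⟨M, h1, h2, h3⟩ := exists_measurable_superset_of_null (ae_iff.1 hq)
  have h4 : μ (O ∩ ψ ⁻¹' M) = 0 := by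
    rw [← h.vol _ inter_subset_left (h.pre h2)]
    exact measure_mono_null (by rintro _ ⟨z, hz, rfl⟩; exact hz.2) h3
  refine measure_mono_null (fun z hz => ?_) h4
  by_contra hc
  exact hz fun hO => by_contra fun hn => hc ⟨hO, h1 hn⟩

theorem Hy.memLp (h : Hy ψ O μ ρ) (g : β → Eu N) :
    MemLp g 2 (ρ.restrict (ψ '' O)) ↔ MemLp (fun z => g (ψ z)) 2 (μ.restrict O) := by
  rw [← h.map, ← h.map', h.emb.memLp_map_measure_iff,
    (MeasurableEmbedding.subtype_coe h.mO).memLp_map_measure_iff]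
  rfl

theorem Hy.eLp (h : Hy ψ O μ ρ) (g : β → Eu N) :
    eLpNorm g 2 (ρ.restrict (ψ '' O)) = eLpNorm (fun z => g (ψ z)) 2 (μ.restrict O) := by
  rw [← h.map, ← h.map', h.emb.eLpNorm_map_measure,
    (MeasurableEmbedding.subtype_coe h.mO).eLpNorm_map_measure]
  rfl

theorem Hy.integral (h : Hy ψ O μ ρ) (g : β → ℝ) :
    ∫ y in ψ '' O, g y ∂ρ = ∫ z in O, g (ψ z) ∂μ := by
  rw [← h.map, ← h.map', h.emb.integral_map,
    (MeasurableEmbedding.subtype_coe h.mO).integral_map]
  rfl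

omit [MeasurableSpace α] [MeasurableSpace β] in
theorem pull_ind {W : Type} [Zero W] (u : α → W) :
    (ψ '' O).indicator (pull ψ O u 0) = pull ψ O u 0 := by
  ext y
  by_cases hy : y ∈ ψ '' O
  · rw [indicator_of_mem hy]
  · rw [indicator_of_notMem hy, pull_off _ _ hy]

/-- a measurable field of isometries on `O` -/
structure Iso (O : Set α) (T : α → Eu N →L[ℝ] Eu N) : Prop where
  meas : StronglyMeasurable (O.indicator T)
  norm : ∀ z ∈ O, ∀ u, ‖T z u‖ = ‖u‖

variable {T : α → Eu N →L[ℝ] Eu N}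

theorem Iso.eLp (hT : Iso O T) (hO : MeasurableSet O) (s : α → Eu N) :
    eLpNorm (fun z => T z (s z)) 2 (μ.restrict O) = eLpNorm s 2 (μ.restrict O) :=
  eLpNorm_congr_norm_ae ((ae_restrict_mem hO).mono fun z hz => hT.norm z hz _)

theorem Iso.memLp (hT : Iso O T) (hO : MeasurableSet O) {s : α → Eu N}
    (hs : MemLp s 2 (μ.restrict O)) : MemLp (fun z => T z (s z)) 2 (μ.restrict O) := by
  refine ⟨?_, (hT.eLp hO s).trans_lt hs.2⟩
  have h1 : AEStronglyMeasurable (fun z => O.indicator T z (s z)) (μ.restrict O) :=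
    (isBoundedBilinearMap_apply (𝕜 := ℝ)).continuous.comp_aestronglyMeasurable
      (hT.meas.aestronglyMeasurable.prodMk hs.1)
  exact h1.congr ((ae_restrict_mem hO).mono fun z hz => by
    simp only [indicator_of_mem hz])

theorem adj_right {A : Eu N →L[ℝ] Eu N} (h : ∀ u v, ⟪A u, A v⟫_ℝ = ⟪u, v⟫_ℝ) (v : Eu N) :
    A (adjoint A v) = v := by
  have h1 : ∀ u, adjoint A (A u) = u := fun u =>
    ext_inner_left ℝ fun w => by rw [adjoint_inner_right, h]
  have h2 : Surjective (A : Eu N →ₗ[ℝ] Eu N) :=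
    LinearMap.injective_iff_surjective.1 fun a b e => by
      rw [← h1 a, ← h1 b]
      exact congrArg _ e
  obtain ⟨u, rfl⟩ := h2 v
  exact congrArg A (h1 u)

theorem push_mem (h : Hy ψ O μ ρ) (hT : Iso O T) {s : α → Eu N} (hs : MemLp s 2 μ) :
    MemLp (push ψ O T s) 2 ρ ∧ eLpNorm (push ψ O T s) 2 ρ ≤ eLpNorm s 2 μ := by
  have e : (fun z => push ψ O T s (ψ z)) =ᵐ[μ.restrict O] fun z => T z (s z) :=
    (ae_restrict_mem h.mO).mono fun z hz => pull_j h.inj _ _ hz
  constructor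
  · rw [push, ← pull_ind, memLp_indicator_iff_restrict h.mI, h.memLp]
    exact (hT.memLp h.mO (hs.restrict O)).ae_eq e.symm
  · rw [push, ← pull_ind, eLpNorm_indicator_eq_eLpNorm_restrict h.mI, h.eLp]
    exact ((eLpNorm_congr_ae e).trans (hT.eLp h.mO s)).trans_le
      (eLpNorm_mono_measure _ Measure.restrict_le_self)

theorem pull_ae (h : Hy ψ O μ ρ) {W : Type} [Zero W] {P : β → W → Prop} {u : α → W}
    (h0 : ∀ y ∉ ψ '' O, P y 0) (hu : ∀ᵐ z ∂μ, z ∈ O → P (ψ z) (u z)) :
    ∀ᵐ y ∂ρ, P y (pull ψ O u 0 y) := by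
  filter_upwards [h.fwd hu] with y hy
  by_cases hm : y ∈ ψ '' O
  · obtain ⟨z, hz, rfl⟩ := hm
    rw [pull_j h.inj _ _ hz]
    exact hy z hz rfl hz
  · rw [pull_off _ _ hm]
    exact h0 y hm

theorem exists_U (h : Hy ψ O μ ρ) (hT : Iso O T) :
    ∃ U : Lp (Eu N) 2 μ →L[ℝ] Lp (Eu N) 2 ρ, ∀ f, U f =ᵐ[ρ] push ψ O T f := by
  have hm := fun f : Lp (Eu N) 2 μ => push_mem h hT (Lp.memLp f)
  let L : Lp (Eu N) 2 μ →ₗ[ℝ] Lp (Eu N) 2 ρ :=
    { toFun := fun f => (hm f).1.toLp _
      map_add' := fun f g => by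
        rw [← MemLp.toLp_add]
        refine MemLp.toLp_congr _ _ (pull_ae h (P := fun y w => w = (push ψ O T f + push ψ O T g) y)
          (fun y hy => ?_) ?_)
        · simp only [Pi.add_apply, push, pull_off _ _ hy, add_zero]
        · filter_upwards [Lp.coeFn_add f g] with z hz hO
          simp only [Pi.add_apply, push, pull_j h.inj _ _ hO, hz, map_add]
      map_smul' := fun c f => by
        rw [RingHom.id_apply, ← MemLp.toLp_const_smul]
        refine MemLp.toLp_congr _ _ (pull_ae h (P := fun y w => w = (c • push ψ O T f) y)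
          (fun y hy => ?_) ?_)
        · simp only [Pi.smul_apply, push, pull_off _ _ hy, smul_zero]
        · filter_upwards [Lp.coeFn_smul c f] with z hz hO
          simp only [Pi.smul_apply, push, pull_j h.inj _ _ hO, hz, map_smul] }
  refine ⟨L.mkContinuous 1 fun f => ?_, fun f => (hm f).1.coeFn_toLp⟩
  rw [one_mul, Lp.norm_def f]
  exact (Lp.norm_toLp _ (hm f).1).trans_le (ENNReal.toReal_mono (Lp.eLpNorm_ne_top f) (hm f).2)

variable {U : Lp (Eu N) 2 μ →L[ℝ] Lp (Eu N) 2 ρ}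

theorem adj_ae (h : Hy ψ O μ ρ) (hT : Iso O T) (hi : ∀ z ∈ O, ∀ u v, ⟪T z u, T z v⟫_ℝ = ⟪u, v⟫_ℝ)
    (hU : ∀ f, U f =ᵐ[ρ] push ψ O T f) (g : Lp (Eu N) 2 ρ) :
    adjoint U g =ᵐ[μ] O.indicator fun z => adjoint (T z) (g (ψ z)) := by
  have hT' : Iso O fun z => adjoint (T z) := by
    refine ⟨?_, fun z hz u => ?_⟩
    · have := (adjoint (𝕜 := ℝ) (E := Eu N) (F := Eu N)).continuous.comp_stronglyMeasurable hT.meas
      have e : (O.indicator fun z => adjoint (T z)) = fun x => adjoint (O.indicator T x) := by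
        funext z
        by_cases hz : z ∈ O
        · simp only [indicator_of_mem hz]
        · simp only [indicator_of_notMem hz, map_zero]
      rw [e]
      exact this
    · rw [← hT.norm z hz, adj_right (hi z hz)]
  have hm : MemLp (O.indicator fun z => adjoint (T z) (g (ψ z))) 2 μ :=
    (memLp_indicator_iff_restrict h.mO).2
      (hT'.memLp h.mO ((h.memLp g).1 ((Lp.memLp g).restrict _)))
  have e : adjoint U g = hm.toLp _ := by
    refine ext_inner_left ℝ fun f => ?_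
    rw [adjoint_inner_right, L2.inner_def, L2.inner_def]
    calc ∫ y, ⟪U f y, g y⟫_ℝ ∂ρ
        = ∫ y, (ψ '' O).indicator (fun y => ⟪push ψ O T f y, g y⟫_ℝ) y ∂ρ := by
          refine integral_congr_ae ((hU f).mono fun y hy => ?_)
          by_cases hm : y ∈ ψ '' O
          · simp only [hy, indicator_of_mem hm]
          · simp only [hy, indicator_of_notMem hm, push, pull_off _ _ hm, inner_zero_left]
      _ = ∫ z, O.indicator (fun z => ⟪push ψ O T f (ψ z), g (ψ z)⟫_ℝ) z ∂μ := by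
          rw [integral_indicator h.mI, integral_indicator h.mO, h.integral]
      _ = _ := by
          refine integral_congr_ae (hm.coeFn_toLp.mono fun z hz => ?_)
          by_cases hO : z ∈ O
          · simp only [hz, indicator_of_mem hO, push, pull_j h.inj _ _ hO, adjoint_inner_right]
          · simp only [hz, indicator_of_notMem hO, inner_zero_right]
  rw [e]
  exact hm.coeFn_toLp

theorem itw_gen (h : Hy ψ O μ ρ) (hU : ∀ f, U f =ᵐ[ρ] push ψ O T f)
    {P : Lp (Eu N) 2 ρ →L[ℝ] Lp (Eu N) 2 ρ} {Q : Lp (Eu N) 2 μ →L[ℝ] Lp (Eu N) 2 μ}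
    (p : β → Eu N → Eu N) (q : α → Eu N → Eu N) (hP : ∀ g, P g =ᵐ[ρ] fun y => p y (g y))
    (hQ : ∀ f, Q f =ᵐ[μ] fun z => q z (f z)) (h0 : ∀ y, p y 0 = 0)
    (hpq : ∀ z ∈ O, ∀ u, p (ψ z) (T z u) = T z (q z u)) : P ∘L U = U ∘L Q := by
  refine ContinuousLinearMap.ext fun f => Lp.ext ?_
  have h1 : ∀ᵐ y ∂ρ, push ψ O T (Q f) y = p y (push ψ O T f y) := by
    refine pull_ae h (P := fun y w => w = p y (push ψ O T f y)) (fun y hy => ?_) ?_
    · rw [push, pull_off _ _ hy, h0]
    · filter_upwards [hQ f] with z hz hO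
      rw [push, pull_j h.inj _ _ hO, hz, hpq z hO]
  filter_upwards [hP (U f), hU f, hU (Q f), h1] with y a1 a2 a3 a4
  rw [ContinuousLinearMap.comp_apply, ContinuousLinearMap.comp_apply, a1, a2, a3, a4]

theorem mul_ae {ψ : α → ℝ} (h : Bm ψ) (f : Lp (Eu N) 2 μ) :
    mul (Eu N) μ ψ f =ᵐ[μ] fun y => ψ y • f y := by
  rw [MUL.mul_eq (MUL.top h)]
  exact mulS_coe (MUL.top h) f

theorem op_ae {κ : Type} [Fintype κ] (f : κ → α → ℝ) (A : κ → Eu N →L[ℝ] Eu N)
    (hf : ∀ j, Bm (f j)) (g : Lp (Eu N) 2 μ) :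
    (∑ j, mul (Eu N) μ (f j) * cst μ (A j)) g =ᵐ[μ] fun z => ∑ j, f j z • A j (g z) := by
  rw [_root_.sum_apply]
  have h1 : ∀ᵐ z ∂μ, ∀ j, (mul (Eu N) μ (f j) * cst μ (A j)) g z = f j z • A j (g z) := by
    refine ae_all_iff.2 fun j => ?_
    filter_upwards [mul_ae (hf j) (cst μ (A j) g), (A j).coeFn_compLpL g] with z a1 a2
    rw [mul_apply_eq_comp, a1, a2]
  filter_upwards [Lp.coeFn_finsetSum Finset.univ fun j => (mul (Eu N) μ (f j) * cst μ (A j)) g,
    h1] with z a1 a2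
  rw [a1, Finset.sum_apply]
  exact Finset.sum_congr rfl fun j _ => a2 j

theorem bm_ind {s : Set α} (hs : MeasurableSet s) : Bm (s.indicator (1 : α → ℝ)) :=
  ⟨measurable_one.indicator hs, 1, fun y => by
    by_cases hy : y ∈ s <;> simp [hy]⟩

end TR

open TR in
theorem stTR : St_TR := by
  intro α β _ _ N ψ O T μ ρ h1 h2 h3 h4 h5
  have h : Hy ψ O μ ρ := ⟨h1, h2, h3⟩
  have hT : Iso O T := ⟨h4, fun z hz u => by
    rw [norm_eq_sqrt_real_inner, h5 z hz, ← norm_eq_sqrt_real_inner]⟩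
  obtain ⟨U, hU⟩ := exists_U h hT
  have ha := adj_ae h hT h5 hU
  have ha' : ∀ g, ∀ᵐ z ∂μ, (z ∈ O → T z (adjoint U g z) = g (ψ z)) ∧
      (z ∉ O → adjoint U g z = 0) := fun g => (ha g).mono fun z hz =>
    ⟨fun hO => by rw [hz, indicator_of_mem hO, adj_right (h5 z hO)],
      fun hO => by rw [hz, indicator_of_notMem hO]⟩
  refine ⟨U, h1, h.mI, hU, ha', fun s hs => ⟨(push_mem h hT hs).1, (MUL.cl_eq ((hU _).trans ?_)).symm⟩,
    ?_, ?_, fun f hf => ?_, fun g hg => ?_, fun g B f A hg hf e => ?_, fun g f hg hf e => ?_,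
    fun B A e => ?_⟩
  · refine pull_ae h (P := fun y w => w = push ψ O T s y) (fun y hy => (pull_off _ _ hy).symm) ?_
    filter_upwards [MUL.cl_ae hs] with z hz hO
    rw [push, pull_j h.inj _ _ hO, hz]
  · refine ContinuousLinearMap.ext fun f => Lp.ext ?_
    filter_upwards [ha (U f), h.bwd (hU f), mul_ae (bm_ind h1) f] with z a1 a2 a3
    rw [ContinuousLinearMap.comp_apply, a1, a3]
    by_cases hO : z ∈ O
    · rw [indicator_of_mem hO, indicator_of_mem hO, a2 hO, push, pull_j h.inj _ _ hO, Pi.one_apply,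
        one_smul]
      exact ext_inner_left ℝ fun w => by rw [adjoint_inner_right, h5 z hO]
    · rw [indicator_of_notMem hO, indicator_of_notMem hO, zero_smul]
  · refine ContinuousLinearMap.ext fun g => Lp.ext ?_
    have a0 : ∀ᵐ y ∂ρ, push ψ O T (adjoint U g) y = (ψ '' O).indicator (1 : β → ℝ) y • g y := by
      refine pull_ae h (P := fun y w => w = (ψ '' O).indicator (1 : β → ℝ) y • g y)
        (fun y hy => ?_) ?_
      · rw [indicator_of_notMem hy, zero_smul]
      · filter_upwards [ha' g] with z hz hO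
        rw [hz.1 hO, indicator_of_mem (mem_image_of_mem ψ hO), Pi.one_apply, one_smul]
    filter_upwards [hU (adjoint U g), a0, mul_ae (bm_ind h.mI) g] with y a1 a2 a3
    rw [ContinuousLinearMap.comp_apply, a1, a2, a3]
  · obtain ⟨m, C, hC⟩ := hf
    refine ⟨?_, |C|, fun y => ?_⟩
    · have := h2.measurable_extend (g := fun z : O => f z) (g' := fun _ => (0 : ℝ))
        (m.comp measurable_subtype_coe) measurable_const
      convert this using 1
      ext y
      by_cases hy : y ∈ ψ '' O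
      · obtain ⟨z, hz, rfl⟩ := hy
        rw [pull_j h.inj _ _ hz]
        exact (h2.injective.extend_apply (fun z : O => f z) _ ⟨z, hz⟩).symm
      · rw [pull_off _ _ hy, extend_apply']
        rintro ⟨z, rfl⟩
        exact hy ⟨z, z.2, rfl⟩
    · by_cases hy : y ∈ ψ '' O
      · obtain ⟨z, hz, rfl⟩ := hy
        rw [pull_j h.inj _ _ hz]
        exact (hC z).trans (le_abs_self C)
      · rw [pull_off _ _ hy, abs_zero]
        exact abs_nonneg C
  · obtain ⟨m, C, hC⟩ := hg
    refine ⟨?_, |C|, fun z => ?_⟩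
    · have := (MeasurableEmbedding.subtype_coe h1).measurable_extend
        (g := fun z : O => g (ψ z)) (g' := fun _ => (0 : ℝ)) (m.comp h2.measurable) measurable_const
      convert this using 1
      ext z
      by_cases hz : z ∈ O
      · rw [indicator_of_mem hz]
        exact (Subtype.val_injective.extend_apply (fun z : O => g (ψ z)) _ ⟨z, hz⟩).symm
      · rw [indicator_of_notMem hz, extend_apply']
        rintro ⟨a, rfl⟩
        exact hz a.2
    · by_cases hz : z ∈ O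
      · rw [indicator_of_mem hz]
        exact (hC _).trans (le_abs_self C)
      · rw [indicator_of_notMem hz, abs_zero]
        exact abs_nonneg C
  · exact itw_gen h hU (fun y u => ∑ i, g i y • B i u) (fun z u => ∑ j, f j z • A j u)
      (op_ae g B hg) (op_ae f A hf) (fun y => by simp) e
  · exact itw_gen h hU (fun y u => g y • u) (fun z u => f z • u) (mul_ae hg) (mul_ae hf)
      (fun y => smul_zero _) fun z hz u => by rw [e z hz, map_smul]
  · exact itw_gen h hU (fun _ u => B u) (fun _ u => A u) B.coeFn_compLpL A.coeFn_compLpL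
      (fun _ => map_zero _) e

end Pool.Agent.Lib.WD
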