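import Pool.Agent.Lib.WD.Blue

/-! TSP: tensor products of spinor modules. -/

noncomputable section

open Set Function CliffordAlgebra ContinuousLinearMap
open scoped InnerProductSpace

namespace Pool.Agent.Lib.WD

open CX AN

namespace TSP

/-- the standard tensor product of Euclidean spaces -/
def bb (N₁ N₂ : ℕ) : Eu N₁ →L[ℝ] Eu N₂ →L[ℝ] Eu (N₁ * N₂) :=
  LinearMap.toContinuousLinearMap (LinearMap.toContinuousLinearMap.toLinearMap ∘ₗ
    LinearMap.mk₂ ℝ (fun (x : Eu N₁) (y : Eu N₂) => (WithLp.toLp 2 fun k =>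
      x (finProdFinEquiv.symm k).1 * y (finProdFinEquiv.symm k).2 : Eu (N₁ * N₂)))
      (fun _ _ _ => by ext k; simp [add_mul]) (fun _ _ _ => by ext k; simp [mul_assoc])
      (fun _ _ _ => by ext k; simp [mul_add]) (fun _ _ _ => by ext k; simp [mul_left_comm]))

theorem bb_apply {N₁ N₂ : ℕ} (x : Eu N₁) (y : Eu N₂) (k : Fin (N₁ * N₂)) :
    bb N₁ N₂ x y k = x (finProdFinEquiv.symm k).1 * y (finProdFinEquiv.symm k).2 := rfl

theorem tens_bb (N₁ N₂ : ℕ) : Tens (bb N₁ N₂) := by
  refine ⟨fun x y x' y' => ?_, ?_⟩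
  · simp only [PiLp.inner_apply, bb_apply]
    rw [Finset.sum_mul_sum, ← Fintype.sum_prod_type']
    refine Fintype.sum_equiv finProdFinEquiv.symm _ _ fun k => ?_
    simp only [RCLike.inner_apply, conj_trivial]
    ring
  · have : Submodule.span ℝ {v | ∃ x y, v = bb N₁ N₂ x y} = ⊤ := by
      refine eq_top_iff.2 fun v _ => ?_
      have hv : v = ∑ k, v k • bb N₁ N₂ (bv (finProdFinEquiv.symm k).1)
          (bv (finProdFinEquiv.symm k).2) := by
        ext l
        rw [WithLp.ofLp_sum, Finset.sum_apply, Finset.sum_eq_single l]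
        · simp [bb_apply, bv]
        · intro k _ hk
          have : ¬ ((finProdFinEquiv.symm l).1 = (finProdFinEquiv.symm k).1 ∧
              (finProdFinEquiv.symm l).2 = (finProdFinEquiv.symm k).2) := fun h =>
            hk (finProdFinEquiv.symm.injective (Prod.ext h.1 h.2)).symm
          simp only [PiLp.smul_apply, WithLp.ofLp_smul, Pi.smul_apply, bb_apply, bv,
            PiLp.single_apply, smul_eq_mul]
          by_cases h1 : (finProdFinEquiv.symm l).1 = (finProdFinEquiv.symm k).1
          · rw [if_neg fun h2 => this ⟨h1, h2⟩]; simp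
          · rw [if_neg h1]; simp
        · simp
      rw [hv]
      exact Submodule.sum_mem _ fun k _ =>
        Submodule.smul_mem _ _ (Submodule.subset_span ⟨_, _, rfl⟩)
    rw [this]
    simp

variable {p q n N N₁ N₂ : ℕ}

theorem nm (X Y : Eu N →L[ℝ] Eu N) : -X * Y = -(X * Y) := rfl

theorem ma (X Y : Eu N →L[ℝ] Eu N) (u : Eu N) : (X * Y) u = X (Y u) := rfl

theorem star_c (S : Spinor n N) (v : Eu n) : star (S.c (ι (Qn n) v)) = -S.c (ι (Qn n) v) := by
  rw [star_eq_adjoint]
  refine ContinuousLinearMap.ext fun u => ext_inner_left ℝ fun w => ?_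
  rw [adjoint_inner_right, S.skew, neg_apply, inner_neg_right]

theorem skew_of {T : Eu N →L[ℝ] Eu N} (h : star T = -T) (u w : Eu N) :
    ⟪T u, w⟫_ℝ = -⟪u, T w⟫_ℝ := by
  rw [← adjoint_inner_right, ← star_eq_adjoint, h, neg_apply, inner_neg_right]

theorem gr_iff (S : Spinor n N) (w : Eu N →L[ℝ] Eu N) : Gr S w ↔ w * w = 1 ∧ star w = w ∧
    ∀ v, w * S.c (ι (Qn n) v) = -(S.c (ι (Qn n) v) * w) := by
  constructor
  · intro h
    refine ⟨ContinuousLinearMap.ext h.sq, ?_, fun v => ContinuousLinearMap.ext (h.anti v)⟩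
    rw [star_eq_adjoint]
    refine ContinuousLinearMap.ext fun u => ext_inner_left ℝ fun w' => ?_
    rw [adjoint_inner_right, h.sym]
  · rintro ⟨h1, h2, h3⟩
    refine ⟨fun u => congrArg (fun T : Eu N →L[ℝ] Eu N => T u) h1, fun u v => ?_,
      fun v u => congrArg (fun T : Eu N →L[ℝ] Eu N => T u) (h3 v)⟩
    rw [← adjoint_inner_right, ← star_eq_adjoint, h2]

theorem cl_rel (S : Spinor n N) (i j : Fin n) :
    S.c (ι (Qn n) (bv i)) * S.c (ι (Qn n) (bv j)) + S.c (ι (Qn n) (bv j)) * S.c (ι (Qn n) (bv i)) =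
      (if i = j then (-2 : ℝ) else 0) • 1 := by
  rw [← map_mul S.c, ← map_mul S.c, ← map_add S.c, ι_mul_ι_add_swap, AlgHom.commutes,
    Algebra.algebraMap_eq_smul_one]
  congr 1
  have h1 : ∀ v : Eu n, Qn n v = -⟪v, v⟫_ℝ := fun v => by
    simp only [Qn, _root_.neg_apply, LinearMap.BilinMap.toQuadraticMap_apply, innerₗ_apply_apply]
  rw [QuadraticMap.polar, h1, h1, h1, inner_add_left, inner_add_right, inner_add_right]
  simp only [bv, EuclideanSpace.inner_single_left, PiLp.single_apply, map_one, one_mul]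
  by_cases h : i = j
  · subst h; simp; norm_num
  · simp [h, Ne.symm h]

theorem inc_bv (f : Fin p ↪ Fin n) (i : Fin p) : inc f (bv i) = bv (f i) := by
  change ∑ j, bv i j • bv (f j) = _
  rw [Finset.sum_eq_single i]
  · simp [bv]
  · intro j _ hj
    simp [bv, hj]
  · simp

theorem eq_sum (v : Eu n) : v = ∑ i, v i • bv i := by
  ext l
  simp [bv, Finset.sum_apply, Pi.single_apply]

theorem split (v : Eu (p + q)) : ∃ v₁ v₂, v = inc (il rfl) v₁ + inc (ir rfl) v₂ := by
  refine ⟨WithLp.toLp 2 fun i => v (Fin.castAdd q i), WithLp.toLp 2 fun j => v (Fin.natAdd p j), ?_⟩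
  conv_lhs => rw [eq_sum v, Fin.sum_univ_add]
  rfl

theorem prod_comm {A : Type} [Ring A] (a : A) : ∀ (l : List A), (∀ x ∈ l, a * x = x * a) →
    (l.map fun x => a * x).prod = a ^ l.length * l.prod
  | [], _ => by simp
  | x :: l, h => by
    rw [List.map_cons, List.prod_cons, prod_comm a l fun y hy => h y (List.mem_cons_of_mem _ hy),
      List.length_cons, List.prod_cons, pow_succ', mul_assoc, mul_assoc, ← mul_assoc x,
      ← (Commute.pow_left (h x List.mem_cons_self) l.length).eq, mul_assoc]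

end TSP

open TSP in
theorem stTSP (hT : St_TENS) : St_TSP := by
  intro p q n N₁ N₂ N h S₁ e S₂
  subst h
  constructor
  · rintro he rfl
    have hb := tens_bb N₁ N₂
    set b := bb N₁ N₂
    have A := hT _ _ _ b hb
    obtain ⟨φ, hφ⟩ := A.hom
    obtain ⟨ψ, hψ'⟩ := (hT _ _ _ b.flip hb.flip).hom
    have hψ : ∀ T, ψ T = rt b T := hψ'
    have hc : ∀ T S, φ T * ψ S = ψ S * φ T := fun T S => by rw [hφ, hψ]; exact A.comm T S
    obtain ⟨e1, e2, e3⟩ := (gr_iff S₁ e).1 he
    let g : Fin (p + q) → Eu (N₁ * N₂) →L[ℝ] Eu (N₁ * N₂) := Fin.addCases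
      (fun i => φ (S₁.c (ι (Qn p) (bv i)))) fun j => φ e * ψ (S₂.c (ι (Qn q) (bv j)))
    have gl : ∀ i, g (Fin.castAdd q i) = φ (S₁.c (ι (Qn p) (bv i))) := fun i =>
      Fin.addCases_left i
    have gr : ∀ j, g (Fin.natAdd p j) = φ e * ψ (S₂.c (ι (Qn q) (bv j))) := fun j =>
      Fin.addCases_right j
    have mix : ∀ i j, g (Fin.castAdd q i) * g (Fin.natAdd p j) +
        g (Fin.natAdd p j) * g (Fin.castAdd q i) = 0 := fun i j => by
      rw [gl, gr, mul_assoc, ← hc, ← mul_assoc, ← mul_assoc, ← map_mul φ, ← map_mul φ, e3,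
        map_neg φ, nm, add_neg_cancel]
    have ne : ∀ i j, Fin.castAdd q i ≠ Fin.natAdd p j := fun i j h => by
      have := congrArg Fin.val h
      simp at this
      omega
    obtain ⟨c, hc'⟩ := Clif.exists_lift g fun i j => by
      induction i using Fin.addCases with
      | left i =>
        induction j using Fin.addCases with
        | left j =>
          rw [gl, gl, ← map_mul φ, ← map_mul φ, ← map_add φ, cl_rel, map_smul, map_one]
          simp only [Fin.castAdd_inj]
        | right j => rw [mix, if_neg (ne i j), zero_smul]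
      | right i =>
        induction j using Fin.addCases with
        | left j => rw [add_comm, mix, if_neg (ne j i).symm, zero_smul]
        | right j =>
          have k : ∀ X Y, φ e * ψ X * (φ e * ψ Y) = ψ (X * Y) := fun X Y => by
            rw [mul_assoc, ← mul_assoc (ψ X), ← hc, mul_assoc, ← mul_assoc, ← map_mul, e1, map_one,
              one_mul, map_mul]
          rw [gr, gr, k, k, ← map_add ψ, cl_rel, map_smul, map_one]
          simp only [Fin.natAdd_inj]
    have gs : ∀ i, star (g i) = -g i := fun i => by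
      induction i using Fin.addCases with
      | left i => rw [gl, ← map_star φ, star_c, map_neg φ]
      | right j => rw [gr, star_mul, ← map_star φ, ← map_star ψ, star_c, e2, map_neg ψ, nm, hc]
    have cb : ∀ i, c (ι (Qn _) (bv i)) = g i := fun i => by
      rw [hc', Finset.sum_eq_single i]
      · simp [bv]
      · intro j _ hj
        simp [bv, hj]
      · simp
    refine ⟨⟨c, fun v u w => ?_⟩, b, hb, he, fun v u u' => ?_, fun v u u' => ?_⟩
    · rw [hc', _root_.sum_apply, _root_.sum_apply, sum_inner, inner_sum, ← Finset.sum_neg_distrib]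
      exact Finset.sum_congr rfl fun i _ => by
        rw [_root_.smul_apply, _root_.smul_apply, real_inner_smul_left, real_inner_smul_right,
          skew_of (gs i), mul_neg]
    · have : c (ι (Qn _) (inc (il (rfl : p + q = p + q)) v)) = φ (S₁.c (ι (Qn p) v)) := by
        conv_lhs => rw [eq_sum v]
        conv_rhs => rw [eq_sum v]
        simp only [map_sum, map_smul, inc_bv, cb]
        exact Finset.sum_congr rfl fun i _ => congrArg _ (gl i)
      change c _ _ = _
      rw [this, hφ, A.lt_b]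
    · have : c (ι (Qn _) (inc (ir (rfl : p + q = p + q)) v)) = φ e * ψ (S₂.c (ι (Qn q) v)) := by
        conv_lhs => rw [eq_sum v]
        conv_rhs => rw [eq_sum v]
        simp only [map_sum, map_smul, inc_bv, cb, Finset.mul_sum, mul_smul_comm]
        exact Finset.sum_congr rfl fun i _ => congrArg _ (gr i)
      change c _ _ = _
      rw [this, hφ, hψ, ma, A.rt_b, A.lt_b]
  · intro S b hS
    have A := hT _ _ _ b hS.tens
    obtain ⟨φ, hφ⟩ := A.hom
    obtain ⟨ψ, hψ'⟩ := (hT _ _ _ b.flip hS.tens.flip).hom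
    have hψ : ∀ T, ψ T = rt b T := hψ'
    have hc : ∀ T S, φ T * ψ S = ψ S * φ T := fun T S => by rw [hφ, hψ]; exact A.comm T S
    obtain ⟨e1, e2, e3⟩ := (gr_iff S₁ e).1 hS.gr
    have cl : ∀ v, S.c (ι (Qn _) (inc (il rfl) v)) = φ (S₁.c (ι (Qn p) v)) := fun v =>
      A.ext _ _ fun x y => by rw [hS.l, hφ, A.lt_b]
    have cr : ∀ v, S.c (ι (Qn _) (inc (ir rfl) v)) = φ e * ψ (S₂.c (ι (Qn q) v)) := fun v =>
      A.ext _ _ fun x y => by rw [hS.r, hφ, hψ, ma, A.rt_b, A.lt_b]
    have k : ∀ X Y, φ e * ψ X * (φ e * ψ Y) = ψ (X * Y) := fun X Y => by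
      rw [mul_assoc, ← mul_assoc (ψ X), ← hc, mul_assoc, ← mul_assoc, ← map_mul, e1, map_one,
        one_mul, map_mul]
    have G : ∀ d, Gr S₂ d → Gr S (lt b e * rt b d) := fun d hd => by
      obtain ⟨d1, d2, d3⟩ := (gr_iff S₂ d).1 hd
      rw [← hφ, ← hψ d]
      refine (gr_iff S _).2 ⟨by rw [k, d1, map_one], ?_, fun v => ?_⟩
      · rw [star_mul, ← map_star φ, ← map_star ψ, d2, e2, hc]
      · obtain ⟨v₁, v₂, rfl⟩ := split v
        rw [map_add, map_add, cl, cr, mul_add, add_mul, k, k, d3, map_neg ψ, neg_add, mul_assoc,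
          ← hc, ← mul_assoc, ← mul_assoc, ← map_mul φ, ← map_mul φ, e3, map_neg φ, nm]
    refine ⟨G, fun d σ hd => ⟨G d hd.gw, G σ hd.gt, fun u => ?_⟩, fun hq => ?_⟩
    · have h1 : σ * d = -(d * σ) := ContinuousLinearMap.ext hd.anti
      rw [← ma _ (lt b e * rt b d), ← ma (lt b e * rt b d), ← hφ, ← hψ d, ← hψ σ, k, k, h1, map_neg,
        neg_apply]
    · rw [← hφ, ← hψ S₂.gr, Spinor.gr, Spinor.gr, Spinor.gr, List.ofFn_add, List.prod_append,
        map_mul]
      congr 1
      · simp only [map_list_prod, List.map_ofFn]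
        refine congrArg _ (congrArg _ (funext fun i => ?_))
        simp only [comp_apply]
        rw [← cl, inc_bv]
        rfl
      · obtain ⟨r, hr⟩ := hq
        have h1 : φ e ^ q = 1 := by rw [hr, ← two_mul, pow_mul, sq, ← map_mul, e1, map_one, one_pow]
        have h2 := prod_comm (φ e) (List.ofFn fun j => ψ (S₂.c (ι (Qn q) (bv j)))) fun x hx => by
          obtain ⟨j, rfl⟩ := (List.mem_ofFn' _ _).1 hx
          exact hc _ _
        rw [List.length_ofFn, h1, one_mul] at h2
        simp only [map_list_prod, List.map_ofFn] at h2 ⊢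
        refine Eq.trans ?_ h2
        refine congrArg _ (congrArg _ (funext fun i => ?_))
        simp only [comp_apply]
        rw [← cr, inc_bv]
        rfl

end Pool.Agent.Lib.WD
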