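import Pool.Agent.Lib.WD.Blue
import Pool.Agent.Lib.RQ.ALG
import Pool.Agent.Lib.RQ.MISH
import Pool.Agent.Lib.RQ.AMP
import Pool.Agent.Lib.RQ.LIFT

/-! Block TWX: the twisted resolvent. -/

set_option linter.unusedSectionVars false

noncomputable section

open Set Function BCO ContinuousLinearMap
open scoped InnerProductSpace

namespace Pool.Agent.Lib.WD

open CX

namespace TWX

variable {G : Type} [Group G] {E : Type} [NormedAddCommGroup E] [InnerProductSpace ℝ E]
  [CompleteSpace E] {n : ℕ} {A : Type} [Fintype A]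

theorem good_can (P : RQ.Pack G E n A) (a : A) (z : E) :
    P.Good a (can P a z).1 (can P a z).2 := fun b g => by
  have h := (P.comm b a g).1
  change P.ph b * P.ph a * P.E2 b a g * P.R - P.R * (P.ph b * P.ph a * P.E2 b a g) = P.R *
    (∑ j, P.gam j * ((P.dph b j * P.ph a + P.ph b * P.dph a j) * P.E2 b a g)) * P.R at h
  have ce : ∀ {x}, (∀ y ∈ P.mul, y * x = x * y) → Commute (P.E2 b a g) x := fun hx =>
    Commute.sum_left _ _ _ fun k _ => Commute.mul_left (hx _ (P.E_mem _ _)) (hx _ (P.E_mem _ _))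
  have cm : ∀ {x}, x ∈ P.mul → Commute (P.E2 b a g) x := fun hx =>
    ce fun y hy => P.mul_comm y hy _ hx
  have h1 : P.E2 b a g * (P.ph b * P.ph a) = P.ph b * P.ph a * P.E2 b a g :=
    ((cm (P.ph_mem b)).mul_right (cm (P.ph_mem a))).eq
  have h2 : P.E2 b a g * (P.ph b * P.C a + P.C b * P.ph a) =
      ∑ j, P.gam j * ((P.dph b j * P.ph a + P.ph b * P.dph a j) * P.E2 b a g) := by
    rw [RQ.Pack.C, RQ.Pack.C, Finset.mul_sum, Finset.sum_mul, ← Finset.sum_add_distrib,
      Finset.mul_sum]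
    refine Finset.sum_congr rfl fun j _ => ?_
    rw [← (((cm (P.dph_mem b j)).mul_right (cm (P.ph_mem a))).add_right
      ((cm (P.ph_mem b)).mul_right (cm (P.dph_mem a j)))).eq, ← mul_assoc (P.gam j),
      ← (ce fun y hy => P.mul_gam y hy j).eq, ← mul_assoc (P.ph b),
      P.mul_gam _ (P.ph_mem b), mul_assoc (P.E2 b a g), mul_add (P.gam j), add_comm]
    simp only [mul_assoc]
  rw [← h2, ← h1] at h
  have h3 := congrArg (fun T : E →L[ℝ] E => T z) (sub_eq_iff_eq_add.1 h)
  simp only [mul_apply_eq_comp, add_apply, map_add] at h3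
  simp only [can, map_add, h3]
  abel

theorem good_clos (P : RQ.Pack G E n A) (a : A) (𝒮 : Set (E × E))
    (h : ∀ q ∈ 𝒮, P.Good a q.1 q.2) :
    ∀ q ∈ (Submodule.span ℝ 𝒮).topologicalClosure, P.Good a q.1 q.2 := fun q hq b g => by
  let φ : E × E →L[ℝ] E := P.R ∘L P.E2 b a g ∘L (P.ph b ∘L fst ℝ E E + P.C b ∘L snd ℝ E E) -
    P.E2 b a g ∘L P.ph b ∘L snd ℝ E E
  have h1 : (Submodule.span ℝ 𝒮).topologicalClosure ≤ LinearMap.ker φ.toLinearMap :=
    Submodule.topologicalClosure_minimal _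
      (Submodule.span_le.2 fun q hq => sub_eq_zero.2 (h q hq b g)) φ.isClosed_ker
  exact sub_eq_zero.1 (h1 hq)

/-- the generating pairs -/
def gen (P : RQ.Pack G E n A) : Set (V G E × V G E) :=
  {q | ∃ a g z, q = (sh P a g (can P a z).1, sh P a g (can P a z).2)}

/-- from the sheet `a` to the global trivialisation -/
def TT (P : RQ.Pack G E n A) (a : A) : V G E →L[ℝ] V G E := ∑ g ∈ P.F, amp G (P.E a g) * lam g

open Classical in
theorem TT_single (P : RQ.Pack G E n A) (a : A) (g : G) (s : E) :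
    TT P a (lp.single 2 g s) = sh P a g s := by
  refine lp.ext (funext fun γ => ?_)
  rw [sh_apply, TT, _root_.sum_apply, lp.coeFn_sum, Finset.sum_apply,
    Finset.sum_eq_single (γ * g⁻¹)]
  · simp [lp.single_apply]
  · intro h _ hh
    have : h⁻¹ * γ ≠ g := fun e => hh (by rw [← e]; group)
    simp [lp.single_apply, Pi.single_eq_of_ne this]
  · intro h
    simp [P.E_off a _ h]

open Classical in
theorem amp_single (T : E →L[ℝ] E) (g : G) (s : E) :
    amp G T (lp.single 2 g s) = lp.single 2 g (T s) := by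
  rw [← RQ.ALG.ten_dl, ← RQ.ALG.ten_dl, RQ.ALG.amp_ten]

theorem lam_amp (g : G) (T : E →L[ℝ] E) : (lam g * amp G T : V G E →L[ℝ] _) = amp G T * lam g :=
  op_ext fun _ _ => rfl

theorem ex (P : RQ.Pack G E n A) : ∃ R', Tw P R' ∧
    (∀ η, (η, R' η) ∈ (Submodule.span ℝ (gen P)).topologicalClosure) ∧
    (∀ X : E →L[ℝ] E, Itw P P X → IsCompactOperator (X * P.R : E →L[ℝ] E) →
      amp G X * R' ∈ KK G E) ∧
    ∀ κ : ℝ, P.kap = κ → P.chi = 0 → ∀ η, κ * ‖R' η‖ ^ 2 ≤ ‖η - amp G P.w (R' η)‖ ^ 2 := by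
  classical
  obtain ⟨Q₀, qF, qw, qR, qchi, qgam, qN, qph, qdph, qE, qmul, qG⟩ := RQ.stAMP RQ.stLIFT G E n A P G
  let Q : RQ.Pack G (V G E) n A :=
    { Q₀ with
      kap := P.kap
      kap_pos := P.kap_pos
      lich := fun η => by
        simp only [qw, qR, qchi, qN]
        exact hasSum_le (fun i => P.lich (η i))
          ((hasSum_sum fun j _ => RQ.AMP.hasSum_sq (amp G (P.N j) η)).add
            ((RQ.AMP.hasSum_sq (amp G P.R η)).mul_left P.kap))
          ((RQ.AMP.hasSum_sq (η - amp G P.w (amp G P.R η))).add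
            (RQ.AMP.hasSum_sq (amp G P.chi (amp G P.R η)))) }
  have hops : ∀ x ∈ Q.ops, ∃ T, x = amp G T := by
    rintro x (((hx | hx | hx) | ⟨j, rfl⟩) | ⟨j, rfl⟩)
    · have hx' : x ∈ Q₀.mul := hx
      rw [qmul] at hx'
      obtain ⟨T, -, rfl⟩ := hx'
      exact ⟨T, rfl⟩
    · exact ⟨_, hx.trans qw⟩
    · exact ⟨_, (mem_singleton_iff.1 hx).trans qR⟩
    · exact ⟨_, qgam j⟩
    · exact ⟨_, qN j⟩
  have hT : ∀ a, Q.T lam a = TT P a := fun a => by simp only [RQ.Pack.T, TT, Q, qF, qE]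
  have hC : ∀ a, Q.C a = amp G (P.C a) := fun a => by
    simp only [RQ.Pack.C, Q, qgam, qdph, RQ.ALG.amp_sum, RQ.ALG.amp_mul]
  have hl : ∀ g : G, (lam g : V G E →L[ℝ] V G E) ∈ RA G E := fun g => tw_id (E := E) g ▸ tw_mem g 1
  have hr : RQ.IsLoc Q.F (lam : G → V G E →L[ℝ] V G E) :=
    ⟨RQ.ALG.lam_one, fun g _ => ⟨by rw [RQ.ALG.star_lam, RQ.ALG.lam_mul, mul_inv_cancel,
      RQ.ALG.lam_one], fun h _ => by rw [RQ.ALG.star_lam, RQ.ALG.lam_mul]⟩⟩
  have hc : ∀ g ∈ Q.F, ∀ x ∈ Q.ops, lam g * x = x * lam g ∧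
      star (lam (E := E) g) * x = x * star (lam (E := E) g) := fun g _ x hx => by
      obtain ⟨T, rfl⟩ := hops x hx
      exact ⟨lam_amp g T, by rw [RQ.ALG.star_lam]; exact lam_amp _ T⟩
  have hs : ∀ x ∈ RA G E, star x ∈ RA G E := fun _ h => TP.RR_adjoint h
  obtain ⟨R', hR', hres, -, hlich, hgood, hdens⟩ := RQ.stMISH G (V G E) n A Q lam (RA G E)
    ⟨isClosed_RA, hs⟩ (fun x hx => by obtain ⟨T, rfl⟩ := hops x hx; exact amp_mem T)
    (fun g _ => hl g) hr hc
  have g1 : ∀ a, R' * (Q.T lam a * (Q.ph a + Q.C a * Q.R)) = Q.T lam a * (Q.ph a * Q.R) :=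
    fun a => ContinuousLinearMap.ext fun ζ => hgood a _ _ (good_can Q a ζ)
  have g2 : ∀ a, Q.ph a * star (Q.T lam a) * R' =
      Q.R * (Q.ph a * star (Q.T lam a) - star (Q.C a) * star (Q.T lam a) * R') := fun a => by
    have := congrArg star (g1 a)
    simp only [star_mul, star_add, hres.sa, Q.res.sa, Q.mul_sa _ (Q.ph_mem a)] at this
    rw [mul_sub, ← mul_assoc, ← this, add_mul, add_mul]
    simp only [mul_assoc, add_sub_cancel_right]
  have g3 : ∑ a, Q.T lam a * Q.ph a * (Q.ph a * star (Q.T lam a)) = 1 := by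
    rw [← Q.ph_sq]
    exact Finset.sum_congr rfl fun a _ => by
      refine Eq.trans ?_ (RQ.M91.T_ph hr hc (Q.ph_mem a) a)
      simp only [mul_assoc]
  have hinj : Injective R' := (injective_iff_map_eq_zero R').2 fun η h => by
    have h1 : ∀ a, (Q.ph a * star (Q.T lam a)) η = 0 := fun a => Q.inj (by
      have := congrArg (fun T : V G E →L[ℝ] _ => T η) (g2 a)
      simp only [mul_apply_eq_comp, sub_apply, h, map_zero, sub_zero] at this
      rw [map_zero]
      exact this.symm)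
    have := congrArg (fun T : V G E →L[ℝ] _ => T η) g3
    simp only [_root_.sum_apply, mul_apply_eq_comp _ (Q.ph _ * _), h1, map_zero,
      Finset.sum_const_zero] at this
    exact this.symm
  have hw : Q.w = amp G P.w := qw
  have hR : Q.R = amp G P.R := qR
  have hp : ∀ a, Q.ph a = amp G (P.ph a) := qph
  refine ⟨R', ⟨hR', hw ▸ res_of hres hinj, fun a g s' s h => ?_⟩, hdens _ fun a ζ => ?_,
    fun X hX hK => ?_, fun κ h1 h2 η => ?_⟩
  · rw [← TT_single, ← TT_single, ← hT, ← RQ.ALG.ten_dl, ← RQ.ALG.ten_dl]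
    exact hgood a _ _ (qG a s' s _ h)
  · rw [hT, hC, hp, hR]
    refine RQ.ALG.sum_clos (TT P a ∘L (amp G (P.ph a) + amp G (P.C a) ∘L amp G P.R))
      (TT P a ∘L amp G (P.ph a) ∘L amp G P.R) (lp.hasSum_single (by norm_num) ζ) fun g => ?_
    refine Submodule.le_topologicalClosure _ (Submodule.subset_span ⟨a, g, ζ g, ?_⟩)
    simp only [ContinuousLinearMap.comp_apply, _root_.add_apply, amp_single, ← TT_single, can, lp.single_add]
  · have e : amp G X * R' = ∑ a, Q.T lam a * Q.ph a * amp G (X * P.R) *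
        (Q.ph a * star (Q.T lam a) - star (Q.C a) * star (Q.T lam a) * R') := by
      conv_lhs => rw [← one_mul R', ← g3, Finset.sum_mul, Finset.mul_sum]
      refine Finset.sum_congr rfl fun a _ => ?_
      have c1 : Commute (amp G X) (Q.T lam a * Q.ph a) := by
        rw [hT, hp]
        refine Commute.mul_right (Commute.sum_right _ _ _ fun g _ =>
          Commute.mul_right ?_ (lam_amp g X).symm) ?_
        · exact (RQ.ALG.amp_mul _ _).symm.trans
            ((congrArg (amp G) (hX.2 a g)).trans (RQ.ALG.amp_mul _ _))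
        · exact (RQ.ALG.amp_mul _ _).symm.trans
            ((congrArg (amp G) (hX.1 a)).trans (RQ.ALG.amp_mul _ _))
      rw [mul_assoc (Q.T lam a * Q.ph a), g2, ← mul_assoc, c1.eq, RQ.ALG.amp_mul, ← hR]
      simp only [mul_assoc]
    have mT : ∀ a, Q.T lam a ∈ RA G E := fun a => hT a ▸ Subalgebra.sum_mem _ fun g _ =>
      Subalgebra.mul_mem _ (amp_mem _) (hl g)
    have mp : ∀ a, Q.ph a ∈ RA G E := fun a => hp a ▸ amp_mem _
    have mC : ∀ a, Q.C a ∈ RA G E := fun a => hC a ▸ amp_mem _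
    rw [e]
    exact Submodule.sum_mem _ fun a _ => MFI.KK_mul_mem
      (MFI.mul_mem_KK (mul_mem (mT a) (mp a)) (tw_one (G := G) (X * P.R) ▸ MFI.tw_mem_KK 1 hK))
      (sub_mem (mul_mem (mp a) (hs _ (mT a)))
        (mul_mem (mul_mem (hs _ (mC a)) (hs _ (mT a))) hR'))
  · have h3 := hlich η
    have h4 : Q.chi (R' η) = 0 := by
      change Q₀.chi _ = 0
      rw [qchi, h2]
      exact lp.ext rfl
    rw [h4, hw, norm_zero] at h3
    rw [← h1]
    simpa using h3

theorem uniq {P : RQ.Pack G E n A} {R R' : V G E →L[ℝ] V G E} (h : Tw P R')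
    (hd : ∀ η, (η, R η) ∈ (Submodule.span ℝ (gen P)).topologicalClosure) : R' = R :=
  RQ.ALG.graph_eq (by
    rintro _ ⟨a, g, z, rfl⟩
    exact h.good a g _ _ (good_can P a z)) hd

/-- the package with an invertible operator -/
def re (P : RQ.Pack G E n A) (κ : ℝ) (h : 0 < κ) (hL : LB P (κ • 1)) : RQ.Pack G E n A :=
  { P with
    chi := 0
    kap := κ
    mul := insert 0 P.mul
    chi_mem := .inl rfl
    ph_mem := fun a => .inr (P.ph_mem a)
    dph_mem := fun a j => .inr (P.dph_mem a j)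
    E_mem := fun a g => .inr (P.E_mem a g)
    mul_sa := by
      rintro x (rfl | hx)
      exacts [star_zero _, P.mul_sa x hx]
    mul_comm := by
      rintro x (rfl | hx) y (rfl | hy)
      exacts [rfl, by simp, by simp, P.mul_comm x hx y hy]
    mul_w := by
      rintro x (rfl | hx)
      exacts [by simp, P.mul_w x hx]
    mul_gam := by
      rintro x (rfl | hx) j
      exacts [by simp, P.mul_gam x hx j]
    kap_pos := h
    lich := fun η => by
      have := hL η
      rw [_root_.smul_apply, one_apply_eq_self, real_inner_smul_left,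
        real_inner_self_eq_norm_sq] at this
      simpa using this }

end TWX

open TWX in
theorem stTWX : St_TWX := by
  intro G _ E _ _ _ n A _ P
  obtain ⟨R, h1, h2, h3, -⟩ := ex P
  refine ⟨⟨R, h1⟩, good_can P, good_clos P, fun R' h => ?_⟩
  obtain rfl := uniq h h2
  refine ⟨h2, fun _ h' => uniq h' h2, h3, fun κ hκ hL => ?_⟩
  obtain ⟨S, k1, -, -, k4⟩ := ex (re P κ hκ hL)
  obtain rfl : S = R' := uniq ⟨k1.mem, k1.res, k1.good⟩ h2
  exact k4 κ rfl rfl

end Pool.Agent.Lib.WD
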