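import Pool.Agent.Lib.WD.Blue
import Pool.Agent.Lib.CX.Vol

/-! VOLP: the Riemannian volume of a product. -/

noncomputable section

open Set Function MeasureTheory CliffordAlgebra Topology Filter
open scoped Manifold ContDiff InnerProductSpace ENNReal

namespace Pool.Agent.Lib.WD

open CX

namespace VolP

theorem norm_inc {p n : ℕ} (f : Fin p ↪ Fin n) (v : Eu p) : ‖inc f v‖ ^ 2 = ‖v‖ ^ 2 := by
  have := (inc f).map_app v
  simpa only [Qn, _root_.neg_apply, LinearMap.BilinMap.toQuadraticMap_apply, innerₗ_apply_apply,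
    neg_inj, real_inner_self_eq_norm_sq] using this

theorem inner_inc {p q n : ℕ} (h : p + q = n) (v : Eu p) (w : Eu q) :
    ⟪inc (il h) v, inc (ir h) w⟫_ℝ = 0 := by
  change ⟪∑ i, v i • bv (il h i), ∑ j, w j • bv (ir h j)⟫_ℝ = 0
  rw [sum_inner]
  refine Finset.sum_eq_zero fun i _ => ?_
  rw [inner_sum]
  refine Finset.sum_eq_zero fun j _ => ?_
  have : il h i ≠ ir h j := by
    intro e
    have := congrArg Fin.val e
    simp [il, ir] at this
    omega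
  rw [inner_smul_left, inner_smul_right,
    (EuclideanSpace.orthonormal_single (𝕜 := ℝ) (ι := Fin n)).2 this |> fun e => (e : ⟪bv _, bv _⟫_ℝ = 0)]
  simp

theorem exists_L {p q n : ℕ} (h : p + q = n) : ∃ L : (Eu p × Eu q) ≃L[ℝ] Eu n,
    MeasurePreserving L ∧ ∀ v : Eu p × Eu q, ‖inc (il h) v.1 + inc (ir h) v.2‖ = ‖L v‖ := by
  have hd : Module.finrank ℝ (WithLp 2 (Eu p × Eu q)) = n := by
    rw [(WithLp.linearEquiv 2 ℝ (Eu p × Eu q)).finrank_eq, Module.finrank_prod]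
    simp [h]
  let L0 : WithLp 2 (Eu p × Eu q) ≃ₗᵢ[ℝ] Eu n :=
    ((stdOrthonormalBasis ℝ _).reindex (finCongr hd)).repr
  refine ⟨(WithLp.prodContinuousLinearEquiv 2 ℝ _ _).symm.trans L0.toContinuousLinearEquiv,
    L0.measurePreserving.comp (WithLp.volume_preserving_toLp _ _), fun v => ?_⟩
  refine (pow_left_inj₀ (norm_nonneg _) (norm_nonneg _) two_ne_zero).1 ?_
  change _ = ‖L0 (WithLp.toLp 2 v)‖ ^ 2
  rw [L0.norm_map, WithLp.prod_norm_sq_eq_of_L2, norm_add_sq_real, inner_inc, norm_inc, norm_inc]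
  simp

theorem chg {E : Type} [NormedAddCommGroup E] [NormedSpace ℝ E] [MeasureSpace E] [BorelSpace E]
    {n : ℕ} (L : E ≃L[ℝ] Eu n) (hL : MeasurePreserving L) {Φ : E → Eu n} {Φ' : E → E →L[ℝ] Eu n}
    {B : Set E} (hB : MeasurableSet B) (hd : ∀ u ∈ B, HasFDerivAt Φ (Φ' u) u) (hi : InjOn Φ B)
    (g : Eu n → ℝ≥0∞) : ∫⁻ y in Φ '' B, g y =
      ∫⁻ u in B, ENNReal.ofReal |((Φ' u).comp (L.symm : Eu n →L[ℝ] E)).det| * g (Φ u) := by
  have he : MeasurableEmbedding L := L.toHomeomorph.measurableEmbedding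
  have e : Φ '' B = (Φ ∘ L.symm) '' (L '' B) := by
    rw [image_image]
    simp
  rw [e, lintegral_image_eq_lintegral_abs_det_fderiv_mul volume (he.measurableSet_image' hB)
    (f' := fun y => (Φ' (L.symm y)).comp (L.symm : Eu n →L[ℝ] E)), ← hL.setLIntegral_comp_emb he]
  · simp
  · rintro _ ⟨u, hu, rfl⟩
    refine (HasFDerivAt.comp _ ?_ L.symm.hasFDerivAt).hasFDerivWithinAt
    rw [L.symm_apply_apply]
    exact hd u hu
  · rintro _ ⟨u, hu, rfl⟩ _ ⟨v, hv, rfl⟩ h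
    rw [comp_apply, comp_apply, L.symm_apply_apply, L.symm_apply_apply] at h
    rw [hi hu hv h]

theorem map_prod {α β γ δ : Type} [MeasurableSpace α] [MeasurableSpace β] [MeasurableSpace γ]
    [MeasurableSpace δ] {f : α → β} {g : γ → δ} {μ : Measure α} {ν : Measure γ} [SFinite μ]
    [SFinite ν] (hf : AEMeasurable f μ) (hg : AEMeasurable g ν) :
    (μ.map f).prod (ν.map g) = (μ.prod ν).map (Prod.map f g) := by
  rw [Measure.map_congr hf.ae_eq_mk, Measure.map_congr hg.ae_eq_mk,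
    Measure.map_prod_map _ _ hf.measurable_mk hg.measurable_mk]
  refine Measure.map_congr ?_
  filter_upwards [Measure.quasiMeasurePreserving_fst.ae_eq_comp hf.ae_eq_mk,
    Measure.quasiMeasurePreserving_snd.ae_eq_comp hg.ae_eq_mk] with z h1 h2
  exact Prod.ext h1.symm h2.symm

variable {p q n : ℕ} {X : SM p} {Y : SM q} {Z : SM n}

theorem pre_eq {x : X.M} {y : Y.M} {a b : ℕ} {A : Set (X.M × Y.M)}
    (hs : A ⊆ X.W x a ×ˢ Y.W y b) :
    Prod.map (X.ct x).symm (Y.ct y).symm ⁻¹' A ∩ X.Om x a ×ˢ Y.Om y b =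
      Prod.map (X.ct x) (Y.ct y) '' A := by
  ext u
  constructor
  · rintro ⟨h1, h2, h3⟩
    exact ⟨_, h1, Prod.ext ((X.ct x).right_inv (SM.Om_sub h2)) ((Y.ct y).right_inv (SM.Om_sub h3))⟩
  · rintro ⟨z, hz, rfl⟩
    refine ⟨?_, ⟨_, (hs hz).1, rfl⟩, ⟨_, (hs hz).2, rfl⟩⟩
    have : Prod.map (X.ct x).symm (Y.ct y).symm (Prod.map (X.ct x) (Y.ct y) z) = z :=
      Prod.ext ((X.ct x).left_inv (hs hz).1.1) ((Y.ct y).left_inv (hs hz).2.1)
    rwa [mem_preimage, this]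

theorem prod_loc [SecondCountableTopology X.M] [SecondCountableTopology Y.M] {μ : Measure X.M}
    {ν : Measure Y.M} (hμ : X.IsVol μ) (hν : Y.IsVol ν) {x : X.M} {y : Y.M} {a b : ℕ}
    {A : Set (X.M × Y.M)} (hA : MeasurableSet A) (hs : A ⊆ X.W x a ×ˢ Y.W y b) :
    μ.prod ν A = ∫⁻ u in Prod.map (X.ct x) (Y.ct y) '' A,
      ENNReal.ofReal (X.dens x a u.1) * ENNReal.ofReal (Y.dens y b u.2) := by
  have := hμ.sigmaFinite
  have := hν.sigmaFinite
  have i1 : SFinite (X.vo x a) := by unfold SM.vo; infer_instance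
  have i2 : SFinite (Y.vo y b) := by unfold SM.vo; infer_instance
  have m1 := SM.aemeasurable_symm x a
  have m2 := SM.aemeasurable_symm y b
  have m3 : AEMeasurable (Prod.map (X.ct x).symm (Y.ct y).symm) ((X.vo x a).prod (Y.vo y b)) :=
    (m1.comp_quasiMeasurePreserving Measure.quasiMeasurePreserving_fst).prodMk
      (m2.comp_quasiMeasurePreserving Measure.quasiMeasurePreserving_snd)
  rw [← Measure.restrict_eq_self _ hs, ← Measure.prod_restrict, hμ.restrict_W, hν.restrict_W,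
    map_prod m1 m2, Measure.map_apply_of_aemeasurable m3 hA, SM.vo, SM.vo, prod_withDensity₀
      (((SM.contDiffOn_dens x a).continuousOn.aemeasurable
        (X.isOpen_Om x a).measurableSet).ennreal_ofReal)
      (((SM.contDiffOn_dens y b).continuousOn.aemeasurable
        (Y.isOpen_Om y b).measurableSet).ennreal_ofReal), Measure.prod_restrict,
    withDensity_apply', Measure.restrict_restrict'
      ((X.isOpen_Om x a).measurableSet.prod (Y.isOpen_Om y b).measurableSet), pre_eq hs]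
  rfl

theorem emb {ψ : X.M × Y.M → Z.M} {O : Set (X.M × Y.M)}
    (h1 : IsLocalDiffeomorphOn ((𝓡 p).prod (𝓡 q)) (𝓡 n) ∞ ψ O) (h2 : InjOn ψ O) (hO : IsOpen O) :
    IsOpenEmbedding (O.domRestrict ψ) := by
  have h : ∀ z : O, map (O.domRestrict ψ) (𝓝 z) = 𝓝 (O.domRestrict ψ z) := fun z => by
    change map (ψ ∘ Subtype.val) (𝓝 z) = 𝓝 (ψ z)
    rw [← Filter.map_map, hO.isOpenEmbedding_subtypeVal.map_nhds_eq,
      h1.isLocalHomeomorphOn.map_nhds_eq z.2]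
  exact .of_continuous_injective_isOpenMap (continuous_iff_continuousAt.2 fun z => (h z).le)
    h2.injective (IsOpenMap.of_nhds_le fun z => (h z).ge)

theorem det_loc (h : p + q = n) {ψ : X.M × Y.M → Z.M} {O : Set (X.M × Y.M)}
    (hp : IsProd h X Y Z ψ O) (L : (Eu p × Eu q) ≃L[ℝ] Eu n)
    (hL : ∀ v : Eu p × Eu q, ‖inc (il h) v.1 + inc (ir h) v.2‖ = ‖L v‖) {x : X.M} {y : Y.M}
    {w : Z.M} {a b c : ℕ} {z : X.M × Y.M} (hz : z ∈ O) (h1 : z.1 ∈ X.W x a) (h2 : z.2 ∈ Y.W y b)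
    (h3 : ψ z ∈ Z.W w c) (D : Eu p × Eu q →L[ℝ] Eu n)
    (hD : ∀ v : Eu p × Eu q, D (X.J x a z.1 v.1, Y.J y b z.2 v.2) = mfderiv (𝓡 n) (𝓡 n) (Z.ct w) (ψ z)
      (mfderiv ((𝓡 p).prod (𝓡 q)) (𝓡 n) ψ z (X.F a z.1 v.1, Y.F b z.2 v.2))) :
    |(D.comp (L.symm : Eu n →L[ℝ] Eu p × Eu q)).det| * |(Z.J w c (ψ z)).det|⁻¹ =
      |(X.J x a z.1).det|⁻¹ * |(Y.J y b z.2).det|⁻¹ := by
  obtain ⟨t, -, ht, -⟩ := hp.2.2
  have hc := ht (a, b, c) z ⟨hz, h1.2, h2.2, h3.2⟩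
  let R0 : Eu p × Eu q →L[ℝ] Eu n := ((Z.F c (ψ z)).symm.toContinuousLinearMap.comp
    (mfderiv ((𝓡 p).prod (𝓡 q)) (𝓡 n) ψ z)).comp
      ((X.F a z.1).toContinuousLinearMap.prodMap (Y.F b z.2).toContinuousLinearMap)
  let R : Eu n →ₗᵢ[ℝ] Eu n := ⟨(R0.comp (L.symm : Eu n →L[ℝ] Eu p × Eu q)).toLinearMap, fun v =>
    (hc.norm_eq (L.symm v)).trans ((hL _).trans (by rw [L.apply_symm_apply]))⟩
  let K := (X.J x a z.1).toLinearMap.prodMap (Y.J y b z.2).toLinearMap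
  have e : (D.comp (L.symm : Eu n →L[ℝ] Eu p × Eu q)).toLinearMap ∘ₗ
      ((L.toLinearEquiv : _ →ₗ[ℝ] _) ∘ₗ K ∘ₗ (L.toLinearEquiv.symm : _ →ₗ[ℝ] _)) =
      (Z.J w c (ψ z)).toLinearMap ∘ₗ R.toLinearMap := by
    refine LinearMap.ext fun v => ?_
    change D (L.symm (L (K (L.symm v)))) = mfderiv (𝓡 n) (𝓡 n) (Z.ct w) (ψ z)
      (Z.F c (ψ z) ((Z.F c (ψ z)).symm _))
    rw [L.symm_apply_apply, ContinuousLinearEquiv.apply_symm_apply]
    exact hD (L.symm v)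
  have e2 := congrArg (fun T => |LinearMap.det T|) e
  simp only [LinearMap.det_comp (D.comp (L.symm : Eu n →L[ℝ] Eu p × Eu q)).toLinearMap,
    LinearMap.det_comp (Z.J w c (ψ z)).toLinearMap, LinearMap.det_conj, abs_mul, K,
    LinearMap.det_prodMap] at e2
  rw [← LinearMap.normDet_eq_abs_det R.toLinearMap, R.normDet_eq_one, mul_one] at e2
  have n1 := abs_ne_zero.2 (SM.det_J_ne a h1.1)
  have n2 := abs_ne_zero.2 (SM.det_J_ne b h2.1)
  have n3 := abs_ne_zero.2 (SM.det_J_ne c h3.1)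
  simp only [ContinuousLinearMap.det] at n1 n2 n3 ⊢
  rw [← e2] at n3 ⊢
  have n4 := left_ne_zero_of_mul n3
  field_simp

theorem vol_loc [SecondCountableTopology X.M] [SecondCountableTopology Y.M] (h : p + q = n)
    {ψ : X.M × Y.M → Z.M} {O : Set (X.M × Y.M)} (hp : IsProd h X Y Z ψ O) {μ : Measure X.M}
    {ν : Measure Y.M} {ρ : Measure Z.M} (hμ : X.IsVol μ) (hν : Y.IsVol ν) (hρ : Z.IsVol ρ)
    {x : X.M} {y : Y.M} {w : Z.M} {a b c : ℕ} {A : Set (X.M × Y.M)} (hA : MeasurableSet A)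
    (hA' : MeasurableSet (ψ '' A)) (hO : A ⊆ O) (hs : A ⊆ X.W x a ×ˢ Y.W y b)
    (hw : ψ '' A ⊆ Z.W w c) : ρ (ψ '' A) = μ.prod ν A := by
  obtain ⟨L, hL, hn⟩ := exists_L h
  let s : Eu p × Eu q → X.M × Y.M := Prod.map (X.ct x).symm (Y.ct y).symm
  have hl : ∀ z ∈ A, s (Prod.map (X.ct x) (Y.ct y) z) = z := fun z hz =>
    Prod.ext ((X.ct x).left_inv (hs hz).1.1) ((Y.ct y).left_inv (hs hz).2.1)
  have e : Z.ct w '' (ψ '' A) = (Z.ct w ∘ ψ ∘ s) '' (Prod.map (X.ct x) (Y.ct y) '' A) := by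
    rw [image_image, image_image]
    exact image_congr fun z hz => by rw [comp_apply, comp_apply, hl z hz]
  have hB : MeasurableSet (Prod.map (X.ct x) (Y.ct y) '' A) := by
    have ho := (X.isOpen_Om x a).prod (Y.isOpen_Om y b)
    have hc : ContinuousOn s (X.Om x a ×ˢ Y.Om y b) :=
      ((X.ct x).continuousOn_symm.mono SM.Om_sub).prodMap ((Y.ct y).continuousOn_symm.mono SM.Om_sub)
    have := (continuousOn_iff_continuous_domRestrict.1 hc).measurable hA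
    rw [← pre_eq hs]
    convert ho.measurableSet.subtype_image this using 1
    ext u
    simp [and_comm, s]
  have c0 := mdifferentiable_chart (I := 𝓡 p) x
  have c1 := mdifferentiable_chart (I := 𝓡 q) y
  have c2 := mdifferentiable_chart (I := 𝓡 n) w
  let D : Eu p × Eu q → Eu p × Eu q →L[ℝ] Eu n := fun u =>
    (mfderiv (𝓡 n) (𝓡 n) (Z.ct w) (ψ (s u))).comp
      ((mfderiv ((𝓡 p).prod (𝓡 q)) (𝓡 n) ψ (s u)).comp
        ((mfderiv (𝓡 p) (𝓡 p) (X.ct x).symm u.1).prodMap (mfderiv (𝓡 q) (𝓡 q) (Y.ct y).symm u.2)))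
  rw [prod_loc hμ hν hA hs, Z.isVol_iff.1 hρ w c _ hA' hw, e, chg L hL hB (Φ' := D)]
  · refine setLIntegral_congr_fun hB ?_
    rintro _ ⟨z, hz, rfl⟩
    have k := det_loc h hp L hn (hO hz) (hs hz).1 (hs hz).2 (hw ⟨z, hz, rfl⟩)
      (D (Prod.map (X.ct x) (Y.ct y) z)) fun v => by
        have k1 := DFunLike.congr_fun (c0.symm_comp_deriv (hs hz).1.1) (X.F a z.1 v.1)
        have k2 := DFunLike.congr_fun (c1.symm_comp_deriv (hs hz).2.1) (Y.F b z.2 v.2)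
        change mfderiv (𝓡 n) (𝓡 n) (Z.ct w) (ψ (s _)) (mfderiv ((𝓡 p).prod (𝓡 q)) (𝓡 n) ψ (s _)
          (_, _)) = _
        rw [hl z hz]
        exact congrArg (fun v => mfderiv (𝓡 n) (𝓡 n) (Z.ct w) (ψ z)
          (mfderiv ((𝓡 p).prod (𝓡 q)) (𝓡 n) ψ z v)) (Prod.ext k1 k2)
    dsimp only
    rw [Prod.map_fst, Prod.map_snd, ← ENNReal.ofReal_mul (abs_nonneg _), ← ENNReal.ofReal_mul
      (SM.dens_pos a ((X.ct x).map_source (hs hz).1.1)).le, SM.dens, SM.dens, SM.dens, comp_apply,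
      comp_apply, hl z hz, (Z.ct w).left_inv (hw ⟨z, hz, rfl⟩).1, k, (X.ct x).left_inv (hs hz).1.1, (Y.ct y).left_inv (hs hz).2.1]
  · rintro _ ⟨z, hz, rfl⟩
    have l := hl z hz
    have d1 := (c0.mdifferentiableAt_symm ((X.ct x).map_source (hs hz).1.1)).hasMFDerivAt
    have d2 := (c1.mdifferentiableAt_symm ((Y.ct y).map_source (hs hz).2.1)).hasMFDerivAt
    have d3 := HasMFDerivAt.prodMap (p := Prod.map (X.ct x) (Y.ct y) z) d1 d2
    have d4 : HasMFDerivAt ((𝓡 p).prod (𝓡 q)) (𝓡 n) ψ (s (Prod.map (X.ct x) (Y.ct y) z)) _ :=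
      (((hp.1 ⟨s (Prod.map (X.ct x) (Y.ct y) z), by rw [l]; exact hO hz⟩).contMDiffAt).mdifferentiableAt
        (by simp)).hasMFDerivAt
    have d5 := (c2.mdifferentiableAt (x := ψ (s (Prod.map (X.ct x) (Y.ct y) z)))
      (by rw [l]; exact (hw ⟨z, hz, rfl⟩).1)).hasMFDerivAt
    have d6 := HasMFDerivAt.comp (f := ψ ∘ s) (Prod.map (X.ct x) (Y.ct y) z) d5 (d4.comp _ d3)
    rw [← modelWithCornersSelf_prod, chartedSpaceSelf_prod] at d6
    exact hasMFDerivAt_iff_hasFDerivAt.1 d6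
  · rintro _ ⟨z, hz, rfl⟩ _ ⟨z', hz', rfl⟩ k
    simp only [comp_apply, hl z hz, hl z' hz'] at k
    rw [hp.2.1 (hO hz) (hO hz') ((Z.ct w).injOn (hw ⟨z, hz, rfl⟩).1 (hw ⟨z', hz', rfl⟩).1 k)]

end VolP

open VolP in
theorem stVOLP : St_VOLP := by
  intro p q n h X Y Z ψ O hp hO hX hY μ ν ρ hμ hν hρ
  have := ChartedSpace.secondCountable_of_sigmaCompact (Eu p) X.M
  have := ChartedSpace.secondCountable_of_sigmaCompact (Eu q) Y.M
  have he := emb hp.1 hp.2.1 hO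
  have hm := he.measurableEmbedding
  have hi : ∀ A ⊆ O, MeasurableSet A → MeasurableSet (ψ '' A) := fun A hA h1 => by
    have := hm.measurableSet_image' (measurable_subtype_coe h1)
    convert this using 1
    ext u
    exact ⟨fun ⟨z, hz, e⟩ => ⟨⟨z, hA hz⟩, hz, e⟩, fun ⟨z, hz, e⟩ => ⟨z, hz, e⟩⟩
  refine ⟨hO.measurableSet, hm, fun A hA h1 => ?_⟩
  let V : X.M × Y.M → Set (X.M × Y.M) := fun z =>
    (O ∩ ψ ⁻¹' Z.W (ψ z) (Z.fr (ψ z))) ∩ X.W z.1 (X.fr z.1) ×ˢ Y.W z.2 (Y.fr z.2)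
  have hV : ∀ z, IsOpen (V z) := fun z =>
    (hp.1.contMDiffOn.continuousOn.isOpen_inter_preimage hO (Z.isOpen_W _ _)).inter
      ((X.isOpen_W _ _).prod (Y.isOpen_W _ _))
  obtain ⟨s, -, s2, s3⟩ := TopologicalSpace.countable_cover_nhdsWithin (f := V) (s := O)
    fun z hz => mem_nhdsWithin_of_mem_nhds
      ((hV z).mem_nhds ⟨⟨hz, Z.mem_W_fr _⟩, X.mem_W_fr _, Y.mem_W_fr _⟩)
  rcases A.eq_empty_or_nonempty with rfl | ⟨z₀, -⟩
  · simp
  have : Nonempty (X.M × Y.M) := ⟨z₀⟩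
  obtain ⟨z, hz⟩ := countable_iff_exists_subset_range.1 s2
  let D := disjointed fun k => V (z k)
  have d1 : ∀ k, MeasurableSet (A ∩ D k) := fun k =>
    h1.inter (MeasurableSet.disjointed (fun k => (hV _).measurableSet) k)
  have d2 : Pairwise (Disjoint on fun k => A ∩ D k) := (disjoint_disjointed _).mono fun _ _ h =>
    h.mono inter_subset_right inter_subset_right
  have d3 : A = ⋃ k, A ∩ D k := by
    rw [← inter_iUnion, iUnion_disjointed]
    refine (inter_eq_left.2 fun u hu => ?_).symm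
    obtain ⟨_, hq, hu⟩ := mem_iUnion₂.1 (s3 (hA hu))
    obtain ⟨k, rfl⟩ := hz hq
    exact mem_iUnion.2 ⟨k, hu⟩
  have d4 : ∀ k, A ∩ D k ⊆ V (z k) := fun k u hu => disjointed_subset _ k hu.2
  have d5 : ∀ k, A ∩ D k ⊆ O := fun k u hu => hA hu.1
  rw [d3, image_iUnion, measure_iUnion d2 d1, measure_iUnion
    (fun i j hij => Disjoint.image (d2 hij) hp.2.1 (d5 i) (d5 j)) fun k => hi _ (d5 k) (d1 k)]
  exact tsum_congr fun k => vol_loc h hp hμ hν hρ (d1 k) (hi _ (d5 k) (d1 k)) (d5 k)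
    (fun u hu => (d4 k hu).2) (image_subset_iff.2 fun u hu => (d4 k hu).1.2)

end Pool.Agent.Lib.WD

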