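import Pool.Agent.Lib.WD.Blue

/-! Block WPK: the package of the bordism. -/

noncomputable section

open Set Function MeasureTheory BCO ContinuousLinearMap
open scoped Manifold ContDiff InnerProductSpace

namespace Pool.Agent.Lib.WD

open CX AN

theorem stWPK (hZ : St_ZERO) (hP : St_POT) (hG : St_GEO) (hC : St_CAL) (hS : St_POS) :
    St_WPK := by
  intro G _ m N x S μ hμ w τ hτ r φ hφ f b Λ κ hf hb hb' hc hκ hΛ hsc
  have L := stMUL x.X.M (Eu N) μ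
  obtain ⟨⟨P, g, hR⟩, -⟩ := hG G m N x S μ hμ w hτ.gw r φ hφ
  obtain ⟨-, c1, c2⟩ := hC _ _ x.X S μ hμ inferInstance w hτ.gw _ _ hR
  have sb := smb_holds _ x.X
  have bf := (sb.bm hf).1
  have bc : ∀ c : ℝ, Bm fun _ : x.X.M => c := fun c => (L.mul_const c).1
  have b4 : Bm fun y => x.X.scal y / 4 := by
    simpa only [div_eq_mul_inv] using (L.mul_mul hsc (bc 4⁻¹)).1
  have dc : ∀ (c : ℝ) i y, dv x.X i (fun _ => c) y = 0 := fun c i y =>
    (stLOC _ _ x.X S).dd_const c _ i y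
  have smc : ∀ c : ℝ, Sm x.X fun _ => c := fun c =>
    ⟨contMDiff_const, ⟨|c|, fun _ => le_rfl⟩, ⟨0, fun i y => by rw [dc, abs_zero]⟩⟩
  have cc := fun c : ℝ => c2 τ hτ (fun _ => c) (fun _ => 0) (smc c) (bc 0)
    (fun y => ⟨le_rfl, by simp [dc]⟩) _ rfl
  obtain ⟨f1, f2, f3, f4⟩ := c2 τ hτ f b hf hb hb' _ rfl
  have bd := L.mul_add bf (bc (-Λ))
  have bv : Bm fun y => f y ^ 2 - b y := by
    simpa only [sq, sub_eq_add_neg, neg_one_mul] using
      (L.mul_add (L.mul_mul bf bf).1 (L.mul_mul (bc (-1)) hb).1).1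
  have cpt := rel_holds _ _ x.X S μ hμ inferInstance w hτ.gw _ _ hR
  have itw : ∀ (Q : RQ.Pack G (Lp (Eu N) 2 μ) (m + 1) (Fin (r + 1))), Q.ph = P.ph → Q.E = P.E →
      ∀ u, Bm u → Itw Q Q (mul (Eu N) μ u * cst μ τ) := fun Q h1 h2 u hu => by
    have k : ∀ v, Bm v → (mul (Eu N) μ u * cst μ τ) ∘L mul (Eu N) μ v =
        mul (Eu N) μ v ∘L (mul (Eu N) μ u * cst μ τ) := fun v hv => by
      change mul (Eu N) μ u * cst μ τ * mul (Eu N) μ v =
        mul (Eu N) μ v * (mul (Eu N) μ u * cst μ τ)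
      rw [mul_assoc, ← L.mul_cst hv, ← mul_assoc, RQ.BRG.mul_comm' L hu hv, mul_assoc]
    refine ⟨fun a => ?_, fun a h => ?_⟩
    · rw [h1, g.ph]; exact k _ (sb.bm (hφ.sm a)).1
    · rw [h2, g.E]; exact k _ (RQ.BRG.bm_ef x a h)
  have it0 : ∀ (Q : RQ.Pack G (Lp (Eu N) 2 μ) (m + 1) (Fin (r + 1))), Itw Q Q 0 := fun Q =>
    ⟨fun a => by simp, fun a h => by simp⟩
  have tn : ∀ u, ‖cst μ τ u‖ = ‖u‖ := L.cst_norm τ fun u => by
    have := hτ.gt.sym u (τ u)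
    rw [hτ.gt.sq, real_inner_self_eq_norm_sq, real_inner_self_eq_norm_sq] at this
    exact (pow_left_inj₀ (norm_nonneg _) (norm_nonneg _) two_ne_zero).1 this
  have eB : mul (Eu N) μ f * cst μ τ = mul (Eu N) μ (fun _ => Λ) * cst μ τ +
      mul (Eu N) μ (fun y => f y + -Λ) * cst μ τ := by
    rw [← add_mul, ← (L.mul_add (bc Λ) bd.1).2]
    congr 2
    funext y
    ring
  rw [← g.w] at c1 f2 f3
  obtain ⟨a1, a2, a3, -⟩ := cc Λ
  obtain ⟨-, -, a4, -⟩ := cc (-Λ)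
  rw [← g.w] at a2 a3 a4
  rw [eB] at f1 f2 f3 f4
  simp only [(L.mul_const _).2] at a1 a2 a3 a4 f1 f2 f3 f4
  have i1 := itw P rfl rfl _ (bc Λ)
  rw [(L.mul_const _).2] at i1
  set B₁ : Lp (Eu N) 2 μ →L[ℝ] Lp (Eu N) 2 μ := (Λ • 1) * cst μ τ with hB₁
  set B₂ := mul (Eu N) μ (fun y => f y + -Λ) * cst μ τ with hB₂
  set T := mul (Eu N) μ fun y => x.X.scal y / 4 with hT
  obtain ⟨Q, q1, q2, q3, q4, q5, q6, q7, q8, q9, -⟩ := hP G _ _ _ P B₁ T (T + (Λ ^ 2 - 0) • 1)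
    (fun _ => 0) a1 a2 i1 (fun _ => it0 P) (c1 _ b4 fun _ => le_rfl) fun η => by
      have := a3 η
      simp only [add_apply, inner_add_left, zero_apply, inner_zero_right, norm_zero,
        Finset.sum_const_zero, ne_eq, OfNat.ofNat_ne_zero, not_false_eq_true, zero_pow]
      linarith
  have z0 : PInd Q 0 := (hZ G _ _ _ Q).2 κ hκ (q9.mono fun u => by
    have := hS _ _ μ _ _ (bc κ) (L.mul_add b4 (bc (Λ ^ 2 - 0))).1 (fun y => by
      have := hΛ y; linarith) u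
    rwa [(L.mul_add b4 (bc _)).2, (L.mul_const _).2, (L.mul_const _).2] at this)
  obtain ⟨U, hU⟩ := q6
  have eR : Q.R = P.R * ↑U⁻¹ := by rw [← q7, ← hU, mul_assoc, U.mul_inv, mul_one]
  obtain ⟨Q', p1, p2, p3, p4, p5, p6, p7, p8, p9, p10⟩ := hP G _ _ _ Q B₂ _
    (T + mul (Eu N) μ fun y => f y ^ 2 - b y) (fun _ => 0)
    (by rw [star_add, a1] at f1; exact add_left_cancel f1)
    (by
      rw [q1]
      calc _ = P.w * (B₁ + B₂) + (B₁ + B₂) * P.w - (P.w * B₁ + B₁ * P.w) := by noncomm_ring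
        _ = 0 := by rw [f2, a2, sub_zero])
    (itw Q q3 q5 _ bd.1) (fun _ => it0 Q) q9 fun η => by
      set ζ := (U⁻¹).val η
      have e1 : Q.R η = P.R ζ := by rw [eR]; rfl
      have e2 : η = ζ + B₁ (P.R ζ) := by
        have : (U.val * (U⁻¹).val) η = η := by rw [U.mul_inv]; rfl
        rw [hU] at this
        exact this.symm
      have k1 := f3 ζ
      have k2 := a4 ζ
      have k3 : ‖B₁ (P.R ζ)‖ ^ 2 = Λ ^ 2 * ‖P.R ζ‖ ^ 2 := by
        change ‖Λ • cst μ τ (P.R ζ)‖ ^ 2 = _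
        rw [norm_smul, tn, mul_pow, Real.norm_eq_abs, sq_abs]
      have k4 : ((-Λ) • (1 : Lp (Eu N) 2 μ →L[ℝ] Lp (Eu N) 2 μ) * cst μ τ :
          Lp (Eu N) 2 μ →L[ℝ] Lp (Eu N) 2 μ) (P.R ζ) = -B₁ (P.R ζ) := neg_smul Λ _
      rw [k4, inner_neg_right, norm_neg] at k2
      rw [e1, q1]
      have e3 : η - P.w (P.R ζ) = ζ - P.w (P.R ζ) + B₁ (P.R ζ) := by
        conv_lhs => rw [e2]
        abel
      rw [e3]
      simp only [add_apply, inner_add_left, inner_add_right, zero_apply, inner_zero_right,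
        norm_zero, Finset.sum_const_zero, ne_eq, OfNat.ofNat_ne_zero, not_false_eq_true, zero_pow,
        smul_apply, one_apply_eq_self, real_inner_smul_left, real_inner_self_eq_norm_sq,
        norm_add_sq_real] at k1 k2 ⊢
      nlinarith
  have eU : 1 + (B₁ + B₂) * P.R = (1 + B₂ * Q.R) * (1 + B₁ * P.R) := by
    rw [add_mul 1, mul_assoc B₂, q7]; noncomm_ring
  have cQ : ∀ χ : x.X.M → ℝ, Bm χ → HasCompactSupport χ →
      IsCompactOperator (mul (Eu N) μ χ * Q.R : Lp (Eu N) 2 μ →L[ℝ] Lp (Eu N) 2 μ) :=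
    fun χ h1 h2 => by
      rw [eR, ← mul_assoc]
      exact (cpt χ h1 h2).comp_clm _
  refine ⟨Q', ⟨by rw [p1, q1, g.w], fun j => by rw [p2, q2, g.gam], fun a => by rw [p3, q3, g.ph],
    fun a j => by rw [p4, q4, g.dph], fun a h => by rw [p5, q5, g.E]⟩, ?_, ?_, fun χ h1 h2 => ?_,
    p10 ?_ 0 z0⟩
  · refine f4 _ _ (eU ▸ p6.mul ⟨U, hU⟩) (by rw [eU, ← mul_assoc, p7, q7]) fun j => ?_
    rw [eU, ← mul_assoc, p8, zero_mul, sub_zero, q8, zero_mul, sub_zero]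
  · rwa [(L.mul_add b4 bv).2]
  · obtain ⟨U', hU'⟩ := p6
    have : Q'.R = Q.R * ↑U'⁻¹ := by rw [← p7, ← hU', mul_assoc, U'.mul_inv, mul_one]
    rw [this, ← mul_assoc]
    exact (cQ χ h1 h2).comp_clm _
  · rw [hB₂, L.mul_cst bd.1, mul_assoc]
    exact (cQ _ bd.1 (by simpa only [sub_eq_add_neg] using hc)).clm_comp (cst μ τ)

end Pool.Agent.Lib.WD
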