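import Pool.Agent.Lib.WD.Blue

/-! Uniqueness and vanishing of the index of a package. -/

noncomputable section

namespace Pool.Agent.Lib.WD

open CX AN BCO

theorem stZERO (h1 : St_IXC) (h2 : St_TWX) : St_ZERO := by
  intro G _ E _ _ _ n A _ P
  obtain ⟨⟨R, hR⟩, -, -, h⟩ := h2 G E n A P
  have m : ng (amp G P.w) ∈ RA G E := (alg G E).ng_mem (amp_mem _)
  refine ⟨fun z z' ⟨S, a, b⟩ ⟨S', a', b'⟩ => ?_, fun κ k l => ⟨R, hR, ?_⟩⟩
  · rw [(h S a).2.1 S' a'] at b'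
    exact MFI.isInd_unique ((RA G E).add_mem m a.mem) m a.res.idem (ng_idem a.res.esq) b b'
  · refine (h1 G E E).2.2.1 _ ((RA G E).add_mem m hR.mem) _ m hR.res.idem (ng_idem hR.res.esq) ?_
    rw [add_sub_cancel_left]
    exact hR.res.norm_lt k ((h R hR).2.2.2 κ k l)

end Pool.Agent.Lib.WD
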