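import Pool.Agent.Lib.WD.BKER
import Pool.Agent.Lib.WD.BORD
import Pool.Agent.Lib.WD.BOTT
import Pool.Agent.Lib.WD.BOX
import Pool.Agent.Lib.WD.BRK
import Pool.Agent.Lib.WD.CAL
import Pool.Agent.Lib.WD.COLb
import Pool.Agent.Lib.WD.CPL2b
import Pool.Agent.Lib.WD.CPL3
import Pool.Agent.Lib.WD.FLT
import Pool.Agent.Lib.WD.FUN
import Pool.Agent.Lib.WD.GAP
import Pool.Agent.Lib.WD.GEO
import Pool.Agent.Lib.WD.IXC
import Pool.Agent.Lib.WD.IXN
import Pool.Agent.Lib.WD.LINE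
import Pool.Agent.Lib.WD.LINKb
import Pool.Agent.Lib.WD.LKER
import Pool.Agent.Lib.WD.MAP
import Pool.Agent.Lib.WD.NEG
import Pool.Agent.Lib.WD.PFR
import Pool.Agent.Lib.WD.PHIC
import Pool.Agent.Lib.WD.PIX
import Pool.Agent.Lib.WD.POL
import Pool.Agent.Lib.WD.POS
import Pool.Agent.Lib.WD.POT
import Pool.Agent.Lib.WD.PRDb
import Pool.Agent.Lib.WD.PSC
import Pool.Agent.Lib.WD.PTA
import Pool.Agent.Lib.WD.PTT
import Pool.Agent.Lib.WD.SCAL
import Pool.Agent.Lib.WD.SD2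
import Pool.Agent.Lib.WD.SD3
import Pool.Agent.Lib.WD.SD4
import Pool.Agent.Lib.WD.SUMb
import Pool.Agent.Lib.WD.TENL
import Pool.Agent.Lib.WD.TENS
import Pool.Agent.Lib.WD.TENb
import Pool.Agent.Lib.WD.TR
import Pool.Agent.Lib.WD.TSP
import Pool.Agent.Lib.WD.TWX
import Pool.Agent.Lib.WD.VOLP
import Pool.Agent.Lib.WD.WPK
import Pool.Agent.Lib.WD.ZERO

/-! Assembly of the blocks. -/

namespace Pool.Agent.Lib.WD

theorem map_holds : St_MAP := stMAP stTWX

theorem zero_holds : St_ZERO := stZERO stIXC stTWX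

theorem pot_holds : St_POT := stPOT stIXC stTWX map_holds

theorem sum_holds : St_SUM := stSUMb stIXC stTWX map_holds

theorem pix_holds : St_PIX := stPIX stIXC (stIXN stIXC) stTENS (stTENL stTENS)

theorem link_holds : St_LINK := stLINKb stTWX stGEO

theorem pt_holds : St_PT := pt_of stTR stVOLP (stPFR stBRK) stPSC stPTA stPTT

theorem cpl3_holds : St_CPL3 := stCPL3 sum_holds
  (stCPL2b zero_holds pot_holds sum_holds (stNEG (stIXN stIXC) stTWX map_holds))

theorem bott_holds : St_BOTT := stBOTT stTWX map_holds stTENS pix_holds stGEO link_holds stCAL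
  (stTSP stTENS) (stBOX stTENS) pt_holds stPHIC

theorem bker_holds : St_BKER :=
  stBKER stTWX zero_holds stGAP pix_holds stGEO link_holds stPHIC

theorem bord_of (h : St_SD1) : St_BORD := stBORD cpl3_holds stGEO link_holds stCAL stPOS
  (stWPK zero_holds pot_holds stGEO stCAL stPOS) stFLT
  (stLINE stGAP stCAL stPOS stFLT (stLKER stFLT)) (stTSP stTENS) pt_holds
  (stPRDb stTENS (stTENb stTWX map_holds stTENS pix_holds) (stBOX stTENS)) stFUN stPHIC stSCAL h
  (stSD2 stFLT stSCAL) (stSD4 stTENS stFLT stSCAL (stSD3 stFLT stSCAL stPOL stCOLb))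

end Pool.Agent.Lib.WD
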