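import Pool.Agent.Lib.WD.Res

/-! The index of `D⁺` does not change under scaling and relatively compact perturbation. -/

noncomputable section

open Function
open scoped InnerProductSpace

namespace Pool.Agent.Lib.WD

variable {H : Type} [NormedAddCommGroup H] [InnerProductSpace ℝ H] [CompleteSpace H]

variable (H) in
/-- a closed `*`-algebra of operators with an ideal -/
structure OpAlg where
  L : Subalgebra ℝ (H →L[ℝ] H)
  J : Submodule ℝ (H →L[ℝ] H)
  closed : IsClosed (L : Set (H →L[ℝ] H))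
  star_mem : ∀ T ∈ L, star T ∈ L
  left : ∀ T ∈ L, ∀ K ∈ J, T * K ∈ J
  right : ∀ T ∈ L, ∀ K ∈ J, K * T ∈ J

/-- the projection onto the negative part -/
def ng (ε : H →L[ℝ] H) : H →L[ℝ] H := (1 / 2 : ℝ) • (1 - ε)

/-- an index relation is stable under isomorphisms of source and target -/
def OpAlg.Stable (A : OpAlg H) {κ : Type} (I : (H →L[ℝ] H) → (H →L[ℝ] H) → κ → Prop) : Prop :=
  ∀ e e' f T S u v z, T ∈ A.L → S ∈ A.L → u ∈ A.L → v ∈ A.L → e * e = e → e' * e' = e' →
    f * f = f → S * T = e' → T * S = e → u * v = f → v * u = f → u * (f * e) * T - f * e' ∈ A.J →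
    I e f z → I e' f z

variable {ε R R' : H →L[ℝ] H}

omit [CompleteSpace H] in
theorem ng_idem (h : ε * ε = 1) : ng ε * ng ε = ng ε := by
  simp only [ng, smul_mul_assoc, mul_smul_comm, mul_sub, sub_mul, one_mul, mul_one, h]
  module

omit [CompleteSpace H] in
theorem eps_eq (ε : H →L[ℝ] H) : ε = 1 - (ng ε + ng ε) := by
  simp only [ng]; module

theorem Res.ng_rel (h : Res ε R) : ng ε * R + R * ng ε + R * R = R := by
  simp only [ng, smul_mul_assoc, mul_smul_comm, mul_sub, sub_mul, one_mul, mul_one]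
  have := h.rel
  calc _ = R - (1 / 2 : ℝ) • (ε * R + R * ε) + R * R := by module
    _ = _ := by rw [this]; module

theorem Res.idem (h : Res ε R) : (ng ε + R) * (ng ε + R) = ng ε + R := by
  calc _ = ng ε * ng ε + (ng ε * R + R * ng ε + R * R) := by noncomm_ring
    _ = _ := by rw [ng_idem h.esq, h.ng_rel]

theorem OpAlg.ng_mem (A : OpAlg H) (h : ε ∈ A.L) : ng ε ∈ A.L :=
  A.L.smul_mem (A.L.sub_mem A.L.one_mem h) _

/-- the graph of `D` is mapped into the graph of `s D` by `P₊ + s P₋` -/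
theorem Res.graph_scale (h : Res ε R) {s : ℝ} (hR : R' * (s • 1 + (1 - s) • (ε * R)) = R) :
    (ng ε + R') * ((1 - ng ε + s • ng ε) * (ng ε + R)) = (1 - ng ε + s • ng ε) * (ng ε + R) := by
  set f := ng ε with hf
  have ff : f * f = f := ng_idem h.esq
  have h1 : R * (f + R) = (1 - f) * R := by
    have := h.ng_rel
    rw [← hf] at this
    calc _ = f * R + R * f + R * R - f * R := by noncomm_ring
      _ = _ := by rw [this]; noncomm_ring
  have h2 : ε * (1 - f) = 1 - f := by
    rw [eps_eq ε, ← hf]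
    calc _ = 1 - f - (f - f * f) - (f - f * f) := by noncomm_ring
      _ = _ := by rw [ff]; abel
  have h3 : (1 - f) * (f + R) = (1 - f) * R := by
    calc _ = f - f * f + (1 - f) * R := by noncomm_ring
      _ = _ := by rw [ff, sub_self, zero_add]
  have h4 : (1 - f + s • f) * (f + R) = (s • 1 + (1 - s) • (ε * R)) * (f + R) := by
    rw [add_mul (s • 1), smul_mul_assoc, smul_mul_assoc, mul_assoc, h1, ← mul_assoc ε, h2, ← h3,
      add_mul (1 - f), smul_mul_assoc, one_mul, sub_mul, one_mul]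
    module
  have h5 : f * (1 - f + s • f) = s • f := by
    rw [mul_add, mul_sub, mul_one, mul_smul_comm, ff, sub_self, zero_add]
  calc _ = f * (1 - f + s • f) * (f + R) + R' * ((1 - f + s • f) * (f + R)) := by
        rw [add_mul f, mul_assoc]
    _ = _ := by
      rw [h5]
      conv_lhs => rw [h4, ← mul_assoc R', hR, h1, ← h3]
      rw [add_mul (1 - f), add_comm]

/-- scaling does not change the index -/
theorem OpAlg.scale (A : OpAlg H) {κ : Type} {I : (H →L[ℝ] H) → (H →L[ℝ] H) → κ → Prop}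
    (hI : A.Stable I) (h : Res ε R) (h' : Res ε R') (hε : ε ∈ A.L) (hR : R ∈ A.L) (hR' : R' ∈ A.L)
    {s : ℝ} (hs : s ≠ 0) (h1 : R' * (s • 1 + (1 - s) • (ε * R)) = R)
    (h2 : R * (s⁻¹ • 1 + (1 - s⁻¹) • (ε * R')) = R') {z : κ}
    (hz : I (ng ε + R) (ng ε) z) : I (ng ε + R') (ng ε) z := by
  have a := h.graph_scale h1
  have b := h'.graph_scale h2
  have ee := h.idem
  have ee' := h'.idem
  have ff : ng ε * ng ε = ng ε := ng_idem h.esq
  have hf := A.ng_mem hε
  set f := ng ε
  set e := f + R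
  set e' := f + R'
  have he : e ∈ A.L := A.L.add_mem hf hR
  have he' : e' ∈ A.L := A.L.add_mem hf hR'
  have gm : ∀ t : ℝ, 1 - f + t • f ∈ A.L := fun t =>
    A.L.add_mem (A.L.sub_mem A.L.one_mem hf) (A.L.smul_mem hf _)
  have gg : ∀ t r : ℝ, t * r = 1 → (1 - f + t • f) * (1 - f + r • f) = 1 := fun t r htr => by
    simp only [add_mul, mul_add, sub_mul, mul_sub, one_mul, mul_one, smul_mul_assoc, mul_smul_comm,
      ff, smul_add, smul_sub, smul_smul]
    rw [mul_comm r t, htr, one_smul]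
    abel
  set g := 1 - f + s • f
  set g' := 1 - f + s⁻¹ • f
  have g1 : g * g' = 1 := gg _ _ (mul_inv_cancel₀ hs)
  have g2 : g' * g = 1 := gg _ _ (inv_mul_cancel₀ hs)
  refine hI e e' f (g' * e') (g * e) (s • f) (s⁻¹ • f) z (A.L.mul_mem (gm _) he')
    (A.L.mul_mem (gm _) he) (A.L.smul_mem hf _) (A.L.smul_mem hf _) ee ee' ff ?_ ?_ ?_ ?_ ?_ hz
  · rw [mul_assoc, b, ← mul_assoc, g1, one_mul]
  · rw [mul_assoc, a, ← mul_assoc, g2, one_mul]
  · rw [smul_mul_smul_comm, mul_inv_cancel₀ hs, one_smul, ff]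
  · rw [smul_mul_smul_comm, inv_mul_cancel₀ hs, one_smul, ff]
  · have h5 : f * g' = s⁻¹ • f := by
      rw [mul_add, mul_sub, mul_one, mul_smul_comm, ff, sub_self, zero_add]
    have : s • f * (f * e) * (g' * e') = f * e' := by
      rw [mul_assoc, mul_assoc, b, ← mul_assoc f, h5, ← mul_assoc, smul_mul_smul_comm,
        mul_inv_cancel₀ hs, one_smul, ff]
    rw [this, sub_self]
    exact A.J.zero_mem

/-- close and congruent idempotents have the same index -/
theorem OpAlg.close (A : OpAlg H) {κ : Type} {I : (H →L[ℝ] H) → (H →L[ℝ] H) → κ → Prop}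
    (hI : A.Stable I) {e e' f : H →L[ℝ] H} (he : e ∈ A.L) (he' : e' ∈ A.L) (hf : f ∈ A.L)
    (ee : e * e = e) (ee' : e' * e' = e') (ff : f * f = f) (hJ : e' - e ∈ A.J)
    (hn : ‖(1 - (e + e)) * (e' - e)‖ < 1) {z : κ} (hz : I e f z) : I e' f z := by
  set Z := 1 - (1 - (e + e)) * (e' - e) with hZ
  have hZL : Z ∈ A.L := A.L.sub_mem A.L.one_mem
    (A.L.mul_mem (A.L.sub_mem A.L.one_mem (A.L.add_mem he he)) (A.L.sub_mem he' he))
  set u := Units.oneSub _ hn
  have a1 : Z * ↑u⁻¹ = 1 := u.mul_inv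
  have a2 : ↑u⁻¹ * Z = 1 := u.inv_mul
  have hW := inv_mem A.closed A.star_mem hZL a1 a2
  set W : H →L[ℝ] H := ↑u⁻¹
  have z1 : Z * e' = e * e' := by
    calc _ = e' - e' * e' + e * e' + (e * (e' * e') + e * (e' * e'))
          - (e * e * e' + e * e * e') := by rw [hZ]; noncomm_ring
      _ = _ := by rw [ee, ee']; abel
  have z2 : e * Z = e * e' := by
    calc _ = e - e * e' + e * e + (e * e * e' + e * e * e') - (e * e * e + e * e * e) := by
          rw [hZ]; noncomm_ring
      _ = _ := by rw [ee, ee]; abel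
  refine hI e e' f (e * e') (W * e) f f z (A.L.mul_mem he he') (A.L.mul_mem hW he) hf hf ee ee' ff
    ?_ ?_ ff ff ?_ hz
  · rw [mul_assoc, ← mul_assoc e, ee, ← z1, ← mul_assoc, a2, one_mul]
  · rw [← z2, mul_assoc, ← mul_assoc Z, a1, one_mul, ee]
  · have : f * (f * e) * (e * e') - f * e' = -(f * (e' - e) * e') := by
      calc _ = f * f * (e * e) * e' - f * e' := by noncomm_ring
        _ = f * e * e' - f * (e' * e') := by rw [ff, ee, ee']
        _ = _ := by noncomm_ring
    rw [this]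
    exact A.J.neg_mem (A.right _ he' _ (A.left _ hf _ hJ))

/-- a bounded relatively compact perturbation does not change the index -/
theorem OpAlg.pert (A : OpAlg H) {κ : Type} {I : (H →L[ℝ] H) → (H →L[ℝ] H) → κ → Prop}
    (hI : A.Stable I) (h : Res ε R) (h' : Res ε R') (hε : ε ∈ A.L) (hR : R ∈ A.L) (hR' : R' ∈ A.L)
    {C : H →L[ℝ] H} (hC : R' - R = -(R' * C * R)) (hJ : R' - R ∈ A.J) {z : κ}
    (hz : I (ng ε + R) (ng ε) z) : I (ng ε + R') (ng ε) z := by
  set s : ℝ := (3 * ‖C‖ + 1)⁻¹ with hsd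
  have hs : 0 < s := by positivity
  obtain ⟨W, a1, a2, r, c⟩ := h.scale hs
  obtain ⟨W', a1', a2', r', c'⟩ := h'.scale hs
  have zm : ∀ T ∈ A.L, s • 1 + (1 - s) • (ε * T) ∈ A.L := fun T hT =>
    A.L.add_mem (A.L.smul_mem A.L.one_mem _) (A.L.smul_mem (A.L.mul_mem hε hT) _)
  have hW := inv_mem A.closed A.star_mem (zm R hR) a1 a2
  have hW' := inv_mem A.closed A.star_mem (zm R' hR') a1' a2'
  have key : ∀ {T V : H →L[ℝ] H}, (s • 1 + (1 - s) • (ε * T)) * V = 1 →
      T * (s⁻¹ • 1 + (1 - s⁻¹) • (ε * (T * V))) = T * V := fun {T V} hV => by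
    congr 1
    have : s • V + (1 - s) • (ε * (T * V)) = 1 := by
      rw [← hV, add_mul, smul_mul_assoc, smul_mul_assoc, one_mul, mul_assoc]
    refine smul_right_injective _ hs.ne' ?_
    dsimp only
    rw [← this, smul_add, smul_smul, smul_smul, mul_inv_cancel₀ hs.ne', one_smul, mul_sub,
      mul_inv_cancel₀ hs.ne']
    module
  have k1 : R * W * (s • 1 + (1 - s) • (ε * R)) = R := by rw [mul_assoc, a2, mul_one]
  have k2 : R' * W' * (s • 1 + (1 - s) • (ε * R')) = R' := by rw [mul_assoc, a2', mul_one]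
  have m := A.L.mul_mem hR hW
  have m' := A.L.mul_mem hR' hW'
  have z1 := A.scale hI h r hε hR m hs.ne' k1 (key a1) hz
  have d : R' * W' - R * W = s • (star W' * (R' - R) * W) := by
    have b1 : star W' * (s • 1 + (1 - s) • (R' * ε)) = 1 := by
      have := congrArg star a1'
      rwa [star_mul, star_one, star_add, star_smul, star_smul, star_one, star_mul, h'.sa,
        h'.esa] at this
    calc _ = star W' * R' * ((s • 1 + (1 - s) • (ε * R)) * W)
          - star W' * (s • 1 + (1 - s) • (R' * ε)) * R * W := by rw [a1, b1, c', mul_one, one_mul]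
      _ = _ := by
        simp only [add_mul, mul_add, mul_sub, sub_mul, smul_mul_assoc, mul_smul_comm, one_mul,
          mul_one, mul_assoc]
        module
  have hf := A.ng_mem hε
  have z2 : I (ng ε + R' * W') (ng ε) z := by
    refine A.close hI (A.L.add_mem hf m) (A.L.add_mem hf m') hf r.idem r'.idem (ng_idem h.esq)
      ?_ ?_ z1
    · rw [add_sub_add_left_eq_sub, d]
      exact A.J.smul_mem _ (A.right _ hW _ (A.left _ (A.star_mem _ hW') _ hJ))
    · have e1 : 1 - (ng ε + R * W + (ng ε + R * W)) = ε - R * W - R * W := by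
        conv_rhs => rw [eps_eq ε]
        abel
      have e2 : star W' * (R' - R) * W = -(R' * W' * C * (R * W)) := by
        rw [hC, ← c']; noncomm_ring
      have n0 : ‖ε‖ ≤ 1 := ContinuousLinearMap.opNorm_le_bound _ zero_le_one fun x => by
        rw [h.norm_eps, one_mul]
      have n1 : ‖ε - R * W - R * W‖ ≤ 3 := by
        have := norm_sub_le (ε - R * W) (R * W)
        have := norm_sub_le ε (R * W)
        linarith [r.norm_le]
      have n2 : ‖R' * W' * C * (R * W)‖ ≤ ‖C‖ := by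
        calc _ ≤ ‖R' * W'‖ * ‖C‖ * ‖R * W‖ :=
              (norm_mul_le _ _).trans (mul_le_mul_of_nonneg_right (norm_mul_le _ _) (norm_nonneg _))
          _ ≤ 1 * ‖C‖ * 1 := by gcongr; exacts [r'.norm_le, r.norm_le]
          _ = _ := by ring
      rw [e1, add_sub_add_left_eq_sub, d, e2]
      calc _ ≤ ‖ε - R * W - R * W‖ * ‖s • -(R' * W' * C * (R * W))‖ := norm_mul_le _ _
        _ ≤ 3 * (s * ‖C‖) := by
          rw [norm_smul, norm_neg, Real.norm_of_nonneg hs.le]; gcongr
        _ < 1 := by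
          rw [hsd, ← div_eq_inv_mul, ← mul_div_assoc, div_lt_one (by positivity)]; linarith
  refine A.scale hI r' h' hε m' hR' (inv_ne_zero hs.ne') (key a1') ?_ z2
  rw [inv_inv]; exact k2

end Pool.Agent.Lib.WD
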