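import Pool.Agent.Lib.WD.Pert

/-! The resolvent of a graded product `D₁ ⊗ 1 + ε₁ ⊗ D₂`. -/

noncomputable section

open Function Filter Topology
open scoped InnerProductSpace

namespace Pool.Agent.Lib.WD

variable {H : Type} [NormedAddCommGroup H] [InnerProductSpace ℝ H] [CompleteSpace H]

/-- two commuting resolvent data `(ε₁, A)`, `(ε₂, B)` -/
structure Pair (e A d B : H →L[ℝ] H) : Prop where
  r1 : Res e A
  r2 : Res d B
  ed : e * d = d * e
  eB : e * B = B * e
  Ad : A * d = d * A
  AB : A * B = B * A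

/-- `(D + ε) A B` -/
def zz (e A B : H →L[ℝ] H) : H →L[ℝ] H := B + e * A * (1 - B)

namespace Pair

variable {e A d B : H →L[ℝ] H} (h : Pair e A d B)
include h

theorem star_zz : star (zz e A B) = B + (1 - B) * (A * e) := by
  rw [zz, star_add, star_mul, star_mul, star_sub, star_one, h.r2.sa, h.r1.sa, h.r1.esa]

theorem c1 : Commute B (e * A) := Commute.mul_right h.eB.symm h.AB.symm

theorem c2 : Commute B (A * e) := Commute.mul_right h.AB.symm h.eB.symm

theorem gen {X Y : H →L[ℝ] H} (hX : Commute B X) (hY : Commute B Y)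
    (h1 : X + Y = A * A + A * A) (h2 : Y * X = A * A) :
    (B + (1 - B) * Y) * (B + X * (1 - B)) = A * A + B * B - A * B * (A * B) := by
  have a : Commute B (A * A) := Commute.mul_right h.AB.symm h.AB.symm
  have b : A * B * (A * B) = B * B * (A * A) := by
    calc _ = A * (B * A) * B := by noncomm_ring
      _ = A * A * B * B := by rw [← h.AB]; noncomm_ring
      _ = _ := by rw [← a.eq, mul_assoc, ← a.eq, mul_assoc]
  have x1 : X * (1 - B) = (1 - B) * X := ((Commute.one_left X).sub_left hX).eq.symm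
  rw [b, x1]
  calc _ = B * B + B * (1 - B) * X + (1 - B) * (Y * B) + (1 - B) * (Y * (1 - B)) * X := by
        noncomm_ring
    _ = B * B + B * (1 - B) * (X + Y) + (1 - B) * (1 - B) * (Y * X) := by
        rw [← hY.eq, ← ((Commute.one_left Y).sub_left hY).eq]; noncomm_ring
    _ = _ := by rw [h1, h2]; noncomm_ring

theorem star_mul_self : star (zz e A B) * zz e A B = A * A + B * B - A * B * (A * B) := by
  rw [h.star_zz, zz]
  refine h.gen h.c1 h.c2 h.r1.rel ?_
  rw [mul_assoc, ← mul_assoc e, h.r1.esq, one_mul]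

theorem self_mul_star : zz e A B * star (zz e A B) = A * A + B * B - A * B * (A * B) := by
  rw [h.star_zz, zz, ← ((Commute.one_left _).sub_left h.c1).eq,
    ((Commute.one_left _).sub_left h.c2).eq]
  refine h.gen h.c2 h.c1 (by rw [add_comm, h.r1.rel]) ?_
  rw [mul_assoc, ← mul_assoc A, ← mul_assoc, h.r1.comm_sq, mul_assoc, h.r1.esq, mul_one]

theorem star_AB : star (A * B) = A * B := by rw [star_mul, h.r1.sa, h.r2.sa, h.AB]

theorem inner_M (w : H) : ⟪w, (A * A + B * B - A * B * (A * B)) w⟫_ℝ =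
    ‖A w‖ ^ 2 + ‖B w‖ ^ 2 - ‖A (B w)‖ ^ 2 := by
  have a := norm_sq_eq A w
  have b := norm_sq_eq B w
  have c := norm_sq_eq (A * B) w
  rw [h.r1.sa] at a
  rw [h.r2.sa] at b
  rw [h.star_AB] at c
  rw [sub_apply, add_apply, inner_sub_right, inner_add_right, ← a, ← b, ← c, mul_apply_eq_comp]

theorem norm_zz (w : H) : ‖zz e A B w‖ ^ 2 = ‖A w‖ ^ 2 + ‖B w‖ ^ 2 - ‖A (B w)‖ ^ 2 := by
  rw [norm_sq_eq, h.star_mul_self, h.inner_M]

theorem swap (w : H) : A (B w) = B (A w) := congrArg (fun T : H →L[ℝ] H => T w) h.AB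

theorem le_zz (w : H) : ‖A w‖ ≤ ‖zz e A B w‖ := by
  refine (pow_le_pow_iff_left₀ (norm_nonneg _) (norm_nonneg _) two_ne_zero).1 ?_
  have := pow_le_pow_left₀ (norm_nonneg _) (h.r1.apply_le (B w)) 2
  rw [h.norm_zz]; linarith

theorem dense : DenseRange (zz e A B) := by
  refine dense_of_inj ((injective_iff_map_eq_zero _).2 fun w hw => ?_)
  have a := norm_sq_eq (star (zz e A B)) w
  rw [star_star, h.self_mul_star, h.inner_M, hw, norm_zero] at a
  have b := pow_le_pow_left₀ (norm_nonneg _) (h.r1.apply_le (B w)) 2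
  have c : ‖A w‖ ^ 2 = 0 := le_antisymm (by linarith) (sq_nonneg _)
  exact h.r1.inj ((norm_eq_zero.1 (pow_eq_zero_iff two_ne_zero |>.1 c)).trans (map_zero A).symm)

theorem res_prod_eps : star (e * d) = e * d ∧ e * d * (e * d) = 1 := by
  refine ⟨by rw [star_mul, h.r1.esa, h.r2.esa, h.ed], ?_⟩
  calc _ = e * (d * e) * d := by noncomm_ring
    _ = e * e * (d * d) := by rw [← h.ed]; noncomm_ring
    _ = 1 := by rw [h.r1.esq, h.r2.esq, one_mul]

/-- an operator with `R Z = A B` is the resolvent of the product -/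
theorem res {R : H →L[ℝ] H} (hR : R * zz e A B = A * B) : Res (e * d) R := by
  set Z := zz e A B with hZ
  have ext2 : ∀ {S T : H →L[ℝ] H}, star Z * S * Z = star Z * T * Z → S = T := fun {S T} hST => by
    have a : star Z * S = star Z * T := ext_dense h.dense hST
    have b : star S * Z = star T * Z := by
      have := congrArg star a
      rwa [star_mul, star_mul, star_star] at this
    exact star_injective (ext_dense h.dense b)
  have hR' : star Z * star R = A * B := by rw [← star_mul, hR, h.star_AB]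
  have cA : B * (A * e * A) = A * e * A * B :=
    (Commute.mul_right h.c2 h.AB.symm).eq
  have sa : star R = R := ext2 (by
    rw [hR', mul_assoc (star Z), hR, h.star_zz, hZ, zz]
    calc _ = A * B * B + A * (B * (e * A)) * (1 - B) := by noncomm_ring
      _ = A * B * B + A * e * A * B * (1 - B) := by rw [h.c1.eq]; noncomm_ring
      _ = B * A * B + (A * e * A * B - A * e * A * B * B) := by rw [h.AB]; noncomm_ring
      _ = B * A * B + (A * e * A * B - B * (A * e * A) * B) := by rw [cA]
      _ = _ := by noncomm_ring)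
  rw [sa] at hR'
  refine ⟨h.res_prod_eps.1, h.res_prod_eps.2, sa, ext2 ?_, ?_⟩
  · have k : A * B * (e * d) * Z = A * e * (B * d * B) + A * A * (B * d * (1 - B)) := by
      have u1 : B * (e * d) = e * (B * d) := by rw [← mul_assoc, ← h.eB, mul_assoc]
      have u2 : B * d * (e * A) = e * A * (B * d) :=
        (Commute.mul_left h.c1 (Commute.mul_right h.ed.symm h.Ad.symm)).eq
      calc _ = A * (B * (e * d)) * B + A * (B * (e * d)) * (e * A) * (1 - B) := by
            rw [hZ, zz]; noncomm_ring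
        _ = A * e * (B * d * B) + A * e * (B * d * (e * A)) * (1 - B) := by rw [u1]; noncomm_ring
        _ = A * e * (B * d * B) + A * (e * e) * A * (B * d * (1 - B)) := by rw [u2]; noncomm_ring
        _ = _ := by rw [h.r1.esq, mul_one]
    have cd : Commute A (B * d * B) := Commute.mul_right (Commute.mul_right h.AB h.Ad) h.AB
    have ce : Commute e (B * d * B) := Commute.mul_right (Commute.mul_right h.eB h.ed) h.eB
    have cf : Commute A ((1 - B) * (d * B)) :=
      Commute.mul_right ((Commute.one_right A).sub_right h.AB) (Commute.mul_right h.Ad h.AB)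
    have k' : star Z * (e * d) * (A * B) =
        e * A * (B * d * B) + A * A * ((1 - B) * (d * B)) := by
      have := congrArg star k
      simp only [star_mul, star_add, star_sub, star_one, h.r1.sa, h.r1.esa, h.r2.sa,
        h.r2.esa] at this
      rw [mul_assoc, h.ed, h.AB, this, ← mul_assoc B, (Commute.mul_left ce cd).eq,
        (Commute.mul_left cf cf).eq, mul_assoc (1 - B)]
    have m : A * B * (A * B) = A * A * (B * B) := by
      calc _ = A * (B * A) * B := by noncomm_ring
        _ = _ := by rw [← h.AB]; noncomm_ring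
    calc _ = star Z * (e * d) * (R * Z) + star Z * R * (e * d) * Z := by noncomm_ring
      _ = (e * A + A * e) * (B * d * B) + A * A * (d * B + B * d - (B * d * B + B * d * B)) := by
          rw [hR, hR', k, k']; noncomm_ring
      _ = A * A * (B * B) + A * A * (B * B) := by rw [h.r1.rel, h.r2.rel]; noncomm_ring
      _ = star Z * R * (R * Z) + star Z * R * (R * Z) := by rw [hR, hR', m]
      _ = _ := by noncomm_ring
  · rw [injective_iff_map_eq_zero]
    intro u hu
    have : A (B u) = 0 := by rw [← mul_apply_eq_comp, ← hR', mul_apply_eq_comp, hu, map_zero]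
    exact h.r2.inj ((h.r1.inj (this.trans (map_zero A).symm)).trans (map_zero B).symm)

theorem exists_res : ∃ R : H →L[ℝ] H, R * zz e A B = A * B := by
  have hn : ∀ w, ‖(A * B) w‖ ≤ 1 * ‖zz e A B w‖ := fun w => by
    rw [one_mul, mul_apply_eq_comp, h.swap]
    exact (h.r2.apply_le _).trans (h.le_zz w)
  refine ⟨LinearMap.extendOfNorm (A * B : H →L[ℝ] H).toLinearMap (zz e A B).toLinearMap, ?_⟩
  ext w
  exact LinearMap.extendOfNorm_eq (f := (A * B : H →L[ℝ] H).toLinearMap)
    (e := (zz e A B).toLinearMap) h.dense ⟨1, hn⟩ w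

theorem uniq {R R' : H →L[ℝ] H} (hR : R * zz e A B = A * B) (hR' : R' * zz e A B = A * B) :
    R = R' := ext_dense h.dense (hR.trans hR'.symm)

/-- the product resolvent is a limit of multiples of `A B` -/
theorem approx {L : Subalgebra ℝ (H →L[ℝ] H)} (hL : IsClosed (L : Set (H →L[ℝ] H)))
    (hs : ∀ T ∈ L, star T ∈ L) (he : e ∈ L) (hA : A ∈ L) (hB : B ∈ L) {R : H →L[ℝ] H}
    (hR : R * zz e A B = A * B) {η : ℝ} (hη : 0 < η) : ∃ Y ∈ L, ‖R - A * B * Y‖ < η := by
  set Z := zz e A B with hZ
  set M := A * A + B * B - A * B * (A * B) with hM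
  have hZL : Z ∈ L := L.add_mem hB (L.mul_mem (L.mul_mem he hA) (L.sub_mem L.one_mem hB))
  have m1 : star Z * Z = M := h.star_mul_self
  have m2 : Z * star Z = M := h.self_mul_star
  have hML : M ∈ L := m1 ▸ L.mul_mem (hs _ hZL) hZL
  have sM : star M = M := by rw [← m1, star_mul, star_star]
  have pos : ∀ w, 0 ≤ ⟪w, M w⟫_ℝ := fun w => by rw [← m1, ← norm_sq_eq]; positivity
  -- `‖R w‖² ≤ ⟪w, M w⟫`
  have key : ∀ w, ‖R w‖ ^ 2 ≤ ⟪w, M w⟫_ℝ := fun w => by
    refine h.dense.induction_on (p := fun w => ‖R w‖ ^ 2 ≤ ⟪w, M w⟫_ℝ) w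
      (isClosed_le (by fun_prop) (by fun_prop)) fun v => ?_
    have a : ⟪Z v, M (Z v)⟫_ℝ = ‖M v‖ ^ 2 := by
      rw [← m2, mul_apply_eq_comp, ← inner_star, ← mul_apply_eq_comp, m1, m2,
        real_inner_self_eq_norm_sq]
    have cB : Commute B M := by
      have x : Commute B A := h.AB.symm
      have y := x.mul_right (Commute.refl B)
      exact ((x.mul_right x).add_right ((Commute.refl B).mul_right (Commute.refl B))).sub_right
        (y.mul_right y)
    have b : ‖A (B v)‖ ^ 2 ≤ ‖M v‖ * ‖B (B v)‖ := by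
      have b1 : ‖B (B v)‖ ^ 2 ≤ ‖B (B v)‖ ^ 2 := le_rfl
      have b2 : ‖A (B v)‖ ^ 2 ≤ ⟪B v, M (B v)⟫_ℝ := by
        rw [hM, h.inner_M]
        have := pow_le_pow_left₀ (norm_nonneg _) (h.r1.apply_le (B (B v))) 2
        linarith
      rw [← mul_apply_eq_comp M, ← cB.eq, mul_apply_eq_comp, ← inner_sa h.r2.sa] at b2
      exact b2.trans ((real_inner_le_norm _ _).trans_eq (mul_comm _ _))
    have c : ‖B (B v)‖ ≤ ‖M v‖ := by
      have c1 : ‖B (B v)‖ ^ 2 ≤ ⟪B v, M (B v)⟫_ℝ := by
        rw [hM, h.inner_M, h.swap (B v)]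
        have := pow_le_pow_left₀ (norm_nonneg _) (h.r2.apply_le (A (B v))) 2
        linarith
      rw [← mul_apply_eq_comp M, ← cB.eq, mul_apply_eq_comp, ← inner_sa h.r2.sa] at c1
      have c2 := c1.trans (real_inner_le_norm _ _)
      rcases (norm_nonneg (B (B v))).eq_or_lt with c3 | c3
      · rw [← c3]; exact norm_nonneg _
      · exact le_of_mul_le_mul_left (by rw [← sq]; exact c2) c3
    rw [a, ← mul_apply_eq_comp R, hR, mul_apply_eq_comp]
    nlinarith [norm_nonneg (M v)]
  set t := η ^ 2 with ht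
  have t0 : 0 < t := by positivity
  have hlow : ∀ w, t * ‖w‖ ≤ ‖(t • 1 + M) w‖ := fun w => by
    refine (pow_le_pow_iff_left₀ (by positivity) (norm_nonneg _) two_ne_zero).1 ?_
    rw [add_apply, smul_apply, one_apply_eq_self, norm_add_sq_real, inner_smul_left, norm_smul,
      Real.norm_of_nonneg t0.le]
    have := mul_nonneg t0.le (pos w)
    simp only [conj_trivial]
    nlinarith [sq_nonneg ‖M w‖]
  have sN : star (t • 1 + M) = t • 1 + M := by rw [star_add, star_smul, star_one, sM]; rfl
  obtain ⟨u, hu⟩ := isUnit_of_lower t0 hlow (by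
    rw [sN, injective_iff_map_eq_zero]
    intro w hw
    have := hlow w
    rw [hw, norm_zero] at this
    exact norm_eq_zero.1 (le_antisymm (by nlinarith [norm_nonneg w]) (norm_nonneg _)))
  set W : H →L[ℝ] H := ↑u⁻¹
  have a1 : (t • 1 + M) * W = 1 := by rw [← hu]; exact u.mul_inv
  have a2 : W * (t • 1 + M) = 1 := by rw [← hu]; exact u.inv_mul
  have hW := inv_mem hL hs (L.add_mem (L.smul_mem L.one_mem t) hML) a1 a2
  refine ⟨star Z * W, L.mul_mem (hs _ hZL) hW, ?_⟩
  have d1 : R - A * B * star Z * W = t • (R * W) := by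
    calc _ = R * ((t • 1 + M) * W) - R * (Z * star Z) * W := by rw [a1, mul_one, ← hR]; noncomm_ring
      _ = _ := by
        rw [m2]; simp only [add_mul, mul_add, smul_mul_assoc, mul_smul_comm, one_mul, mul_assoc]
        abel
  rw [← mul_assoc, d1]
  refine lt_of_le_of_lt (ContinuousLinearMap.opNorm_le_bound _ (by positivity : 0 ≤ 3 / 4 * η)
    fun x => ?_) (by linarith)
  refine (pow_le_pow_iff_left₀ (norm_nonneg _) (by positivity) two_ne_zero).1 ?_
  have x1 : x = t • W x + M (W x) := by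
    have := congrArg (fun T : H →L[ℝ] H => T x) a1
    simpa using this.symm
  have x2 : 2 * (t * ⟪W x, M (W x)⟫_ℝ) ≤ ‖x‖ ^ 2 := by
    conv_rhs => rw [x1, norm_add_sq_real, inner_smul_left]
    simp only [conj_trivial]
    nlinarith [sq_nonneg ‖t • W x‖, sq_nonneg ‖M (W x)‖]
  rw [smul_apply, mul_apply_eq_comp, norm_smul, Real.norm_of_nonneg t0.le, mul_pow, mul_pow,
    mul_pow, ← ht]
  have x3 := mul_le_mul_of_nonneg_left (key (W x)) (sq_nonneg t)
  have x4 := mul_le_mul_of_nonneg_left x2 t0.le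
  nlinarith [mul_nonneg t0.le (sq_nonneg ‖x‖)]

/-- the product resolvent lies in every closed `*`-algebra containing the factors -/
theorem mem {L : Subalgebra ℝ (H →L[ℝ] H)} (hL : IsClosed (L : Set (H →L[ℝ] H)))
    (hs : ∀ T ∈ L, star T ∈ L) (he : e ∈ L) (hA : A ∈ L) (hB : B ∈ L) {R : H →L[ℝ] H}
    (hR : R * zz e A B = A * B) : R ∈ L :=
  hL.closure_subset (Metric.mem_closure_iff.2 fun η hη => by
    obtain ⟨Y, h1, h2⟩ := h.approx hL hs he hA hB hR hη
    exact ⟨_, L.mul_mem (L.mul_mem hA hB) h1, by rwa [dist_eq_norm]⟩)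

variable {R : H →L[ℝ] H}

omit [CompleteSpace H] h in
/-- on the even kernel of the second factor -/
theorem on_pos (hR : R * zz e A B = A * B) {x : H} (hx : B x = x) : R x = A x := by
  have : zz e A B x = x := by simp [zz, hx]
  conv_lhs => rw [← this, ← mul_apply_eq_comp, hR, mul_apply_eq_comp, hx]

/-- on the odd kernel of the second factor -/
theorem on_neg (hR : R * zz e A B = A * B) {x : H} (hx : B x = -x) : R x = -(e (A (e x))) := by
  set T := A * e + A * e - 1 with hT
  have c : B * T = T * B := ((h.c2.add_right h.c2).sub_right (Commute.one_right B)).eq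
  have b : B (T x) = -T x := by rw [← mul_apply_eq_comp, c, mul_apply_eq_comp, hx, map_neg]
  have q : A * (A * e) + A * (A * e) = e * A * e + A := by
    calc _ = (A * A + A * A) * e := by noncomm_ring
      _ = _ := by rw [← h.r1.rel, add_mul, mul_assoc A, h.r1.esq, mul_one]
  have a : (e * A + e * A - 1) * T = 1 := by
    calc _ = e * (A * (A * e) + A * (A * e)) + e * (A * (A * e) + A * (A * e))
          - (e * A + e * A) - (A * e + A * e) + 1 := by rw [hT]; noncomm_ring
      _ = e * e * A * e + e * e * A * e - (A * e + A * e) + 1 := by rw [q]; noncomm_ring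
      _ = 1 := by rw [h.r1.esq, one_mul]; abel
  have z : zz e A B (T x) = x := by
    calc _ = ((e * A + e * A - 1) * T) x := by
          simp only [zz, add_apply, sub_apply, mul_apply_eq_comp, one_apply_eq_self, b, map_sub,
            map_neg]
          abel
      _ = x := by rw [a, one_apply_eq_self]
  have y : A * T = e * A * e := by
    calc _ = A * (A * e) + A * (A * e) - A := by rw [hT]; noncomm_ring
      _ = _ := by rw [q]; abel
  conv_lhs => rw [← z, ← mul_apply_eq_comp, hR, mul_apply_eq_comp, b, map_neg,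
    ← mul_apply_eq_comp, y]
  rfl

theorem comm (hR : R * zz e A B = A * B) {Q : H →L[ℝ] H} (h1 : Commute Q e) (h2 : Commute Q A)
    (h3 : Commute Q B) : Commute Q R := by
  have z : Commute Q (zz e A B) :=
    h3.add_right ((h1.mul_right h2).mul_right ((Commute.one_right Q).sub_right h3))
  refine ext_dense h.dense ?_
  change Q * R * zz e A B = R * Q * zz e A B
  rw [mul_assoc, hR, mul_assoc, z.eq, ← mul_assoc R, hR, (h2.mul_right h3).eq]

/-- off the kernel of the second factor -/
theorem off_ker (hR : R * zz e A B = A * B) {Q : H →L[ℝ] H} (h1 : Commute Q e) (h2 : Commute Q A)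
    (h3 : Commute Q B) {θ : ℝ} (h0 : 0 ≤ θ) (hB : ∀ x, ‖B (Q x)‖ ≤ θ * ‖Q x‖) (x : H) :
    ‖R (Q x)‖ ≤ θ * ‖Q x‖ := by
  have z : Commute Q (zz e A B) :=
    h3.add_right ((h1.mul_right h2).mul_right ((Commute.one_right Q).sub_right h3))
  refine h.dense.induction_on (p := fun x => ‖R (Q x)‖ ≤ θ * ‖Q x‖) x
    (isClosed_le (by fun_prop) (by fun_prop)) fun v => ?_
  rw [← mul_apply_eq_comp Q, z.eq, mul_apply_eq_comp, ← mul_apply_eq_comp R, hR, mul_apply_eq_comp,
    h.swap]
  have : A (Q v) = Q (A v) := by rw [← mul_apply_eq_comp, ← h2.eq, mul_apply_eq_comp]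
  refine le_trans ?_ (mul_le_mul_of_nonneg_left (h.le_zz (Q v)) h0)
  rw [this]; exact hB _

/-- `‖D x‖² = ‖D₁ x‖² + ‖D₂ x‖²` for `x = A B w` -/
theorem norm_D (w : H) : ‖zz e A B w - (e * d) (A (B w))‖ ^ 2 =
    ‖B w - e (A (B w))‖ ^ 2 + ‖A w - d (B (A w))‖ ^ 2 := by
  obtain ⟨R, hR⟩ := h.exists_res
  have a := (h.res hR).pyth (zz e A B w)
  rw [← mul_apply_eq_comp R, hR, mul_apply_eq_comp A, h.norm_zz] at a
  have b := h.r1.pyth (B w)
  have c := h.r2.pyth (A w)
  rw [← h.swap] at c ⊢
  linarith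

end Pair

end Pool.Agent.Lib.WD
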