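import Mathlib

/-! Bounded calculus for the real resolvent `R = (D + ε)⁻¹` of an odd self-adjoint operator. -/

noncomputable section

open Function
open scoped InnerProductSpace

namespace Pool.Agent.Lib.WD

variable {H : Type} [NormedAddCommGroup H] [InnerProductSpace ℝ H] [CompleteSpace H]

/-- `R` is the resolvent `(D + ε)⁻¹` of a self-adjoint operator `D` that is odd for `ε`. -/
structure Res (ε R : H →L[ℝ] H) : Prop where
  esa : star ε = ε
  esq : ε * ε = 1
  sa : star R = R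
  rel : ε * R + R * ε = R * R + R * R
  inj : Injective R

theorem inner_star (T : H →L[ℝ] H) (x y : H) : ⟪(star T) x, y⟫_ℝ = ⟪x, T y⟫_ℝ :=
  ContinuousLinearMap.adjoint_inner_left T y x

theorem inner_sa {T : H →L[ℝ] H} (h : star T = T) (x y : H) : ⟪T x, y⟫_ℝ = ⟪x, T y⟫_ℝ := by
  rw [← inner_star, h]

theorem norm_sq_eq (T : H →L[ℝ] H) (x : H) : ‖T x‖ ^ 2 = ⟪x, (star T * T) x⟫_ℝ := by
  rw [← real_inner_self_eq_norm_sq, real_inner_comm]
  exact (inner_star T (T x) x).symm.trans (real_inner_comm _ _)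

theorem star_eq_of_inner {T S : H →L[ℝ] H} (h : ∀ x y, ⟪T x, y⟫_ℝ = ⟪x, S y⟫_ℝ) : star S = T := by
  ext x
  refine ext_inner_right ℝ fun y => ?_
  rw [inner_star, h]

/-- an operator with injective adjoint has dense range -/
theorem dense_of_inj {T : H →L[ℝ] H} (h : Injective (star T : H →L[ℝ] H)) : DenseRange T := by
  have h1 : (LinearMap.range (T : H →ₗ[ℝ] H))ᗮ = ⊥ := by
    rw [eq_bot_iff]
    intro y hy
    rw [Submodule.mem_orthogonal] at hy
    have : (star T) y = 0 := by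
      refine ext_inner_right ℝ fun x => ?_
      rw [inner_star, inner_zero_left, real_inner_comm]
      exact hy _ ⟨x, rfl⟩
    exact h (this.trans (map_zero _).symm)
  have h2 := (Submodule.topologicalClosure_eq_top_iff (K := LinearMap.range (T : H →ₗ[ℝ] H))).2 h1
  rw [DenseRange, dense_iff_closure_eq]
  exact congrArg (fun K : Submodule ℝ H => (K : Set H)) h2

omit [CompleteSpace H] in
theorem ext_dense {F : Type} [NormedAddCommGroup F] [NormedSpace ℝ F] {T : H →L[ℝ] H}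
    (h : DenseRange T) {A B : H →L[ℝ] F} (hAB : A ∘L T = B ∘L T) : A = B := by
  have : (A : H → F) = B := h.equalizer A.continuous B.continuous (by
    ext x; exact congrArg (fun S : H →L[ℝ] F => S x) hAB)
  exact DFunLike.coe_injective this

omit [CompleteSpace H] in
theorem inj_of_mul {Z W : H →L[ℝ] H} (h : Z * W = 1) : Injective W := fun x y hxy => by
  have h1 : (Z * W) x = (Z * W) y := congrArg Z hxy
  rwa [h] at h1

/-- an operator bounded below with injective adjoint is invertible -/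
theorem isUnit_of_lower {Z : H →L[ℝ] H} {c : ℝ} (hc : 0 < c) (h : ∀ x, c * ‖x‖ ≤ ‖Z x‖)
    (h' : Injective (star Z : H →L[ℝ] H)) : IsUnit Z := by
  have ha : AntilipschitzWith (Real.toNNReal c⁻¹) Z :=
    ContinuousLinearMap.antilipschitz_of_bound Z fun x => by
      rw [Real.coe_toNNReal _ (inv_pos.2 hc).le, ← div_eq_inv_mul, le_div_iff₀ hc, mul_comm]
      exact h x
  have hcl : IsClosed (Set.range Z) := ha.isClosed_range Z.uniformContinuous
  have hs : Surjective Z := by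
    rw [← Set.range_eq_univ, ← hcl.closure_eq]
    exact (dense_of_inj h').closure_range
  exact ContinuousLinearMap.isUnit_iff_bijective.2 ⟨ha.injective, hs⟩

/-- a closed `*`-subalgebra is inverse closed -/
theorem inv_mem {L : Subalgebra ℝ (H →L[ℝ] H)} (hL : IsClosed (L : Set (H →L[ℝ] H)))
    (hs : ∀ T ∈ L, star T ∈ L) {Z W : H →L[ℝ] H} (hZ : Z ∈ L) (h1 : Z * W = 1) (h2 : W * Z = 1) :
    W ∈ L := by
  -- `P = Z* Z` is bounded below, `1 - t P` is a contraction
  set P := star Z * Z with hP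
  have hPL : P ∈ L := L.mul_mem (hs _ hZ) hZ
  have hW : ∀ x, ‖x‖ ≤ (‖W‖ + 1) * ‖Z x‖ := fun x => by
    have : x = W (Z x) := by rw [← mul_apply_eq_comp, h2, one_apply_eq_self]
    calc ‖x‖ = ‖W (Z x)‖ := by rw [← this]
      _ ≤ ‖W‖ * ‖Z x‖ := W.le_opNorm _
      _ ≤ _ := by nlinarith [norm_nonneg (Z x)]
  set a : ℝ := ((‖W‖ + 1) ^ 2)⁻¹ with ha
  set b : ℝ := (‖P‖ + 1) ^ 2 + a ^ 2 with hb
  have ha0 : 0 < a := by positivity
  have hb0 : 0 < b := by positivity
  have hlow : ∀ x, a * ‖x‖ ^ 2 ≤ ⟪x, P x⟫_ℝ := fun x => by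
    rw [hP, ← norm_sq_eq, ha, ← div_eq_inv_mul, div_le_iff₀ (by positivity), ← mul_pow, mul_comm]
    exact pow_le_pow_left₀ (norm_nonneg _) (hW x) 2
  have hn : ‖1 - (a / b) • P‖ < 1 := by
    have hq : 0 ≤ 1 - a ^ 2 / b := by
      rw [sub_nonneg, div_le_one hb0, hb]; nlinarith [sq_nonneg (‖P‖ + 1)]
    refine lt_of_le_of_lt (ContinuousLinearMap.opNorm_le_bound _ (Real.sqrt_nonneg (1 - a ^ 2 / b))
      fun x => ?_) ((Real.sqrt_lt' one_pos).2 ?_)
    · refine (pow_le_pow_iff_left₀ (norm_nonneg _) (by positivity) two_ne_zero).1 ?_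
      rw [mul_pow, Real.sq_sqrt hq, sub_apply, one_apply_eq_self, smul_apply, norm_sub_sq_real,
        inner_smul_right, norm_smul, mul_pow, Real.norm_eq_abs, sq_abs]
      have h3 : ‖P x‖ ^ 2 ≤ b * ‖x‖ ^ 2 := by
        have := pow_le_pow_left₀ (norm_nonneg _) (P.le_opNorm x) 2
        rw [mul_pow] at this
        refine this.trans (mul_le_mul_of_nonneg_right ?_ (sq_nonneg _))
        rw [hb]; nlinarith [norm_nonneg P, sq_nonneg a]
      have h4 : (a / b) ^ 2 * ‖P x‖ ^ 2 ≤ a ^ 2 / b * ‖x‖ ^ 2 := by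
        calc _ ≤ (a / b) ^ 2 * (b * ‖x‖ ^ 2) := mul_le_mul_of_nonneg_left h3 (sq_nonneg _)
          _ = _ := by field_simp
      have h5 : a ^ 2 / b * ‖x‖ ^ 2 ≤ a / b * ⟪x, P x⟫_ℝ := by
        calc _ = a / b * (a * ‖x‖ ^ 2) := by ring
          _ ≤ _ := mul_le_mul_of_nonneg_left (hlow x) (by positivity)
      linarith
    · have : 0 < a ^ 2 / b := by positivity
      linarith
  set N := 1 - (a / b) • P with hN
  have hNL : N ∈ L := L.sub_mem L.one_mem (L.smul_mem hPL _)
  have hS : (∑' n, N ^ n) ∈ L := hL.mem_of_tendsto (summable_geometric_of_norm_lt_one hn).hasSum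
    (Filter.Eventually.of_forall fun s => L.sum_mem fun n _ => L.pow_mem hNL n)
  have h6 : (∑' n, N ^ n) * (1 - N) = 1 := geom_series_mul_neg N hn
  have h7 : W = (a / b) • ((∑' n, N ^ n) * star Z) := by
    calc W = (∑' n, N ^ n) * (1 - N) * W := by rw [h6, one_mul]
      _ = _ := by
        rw [hN, sub_sub_cancel, hP, mul_smul_comm, smul_mul_assoc, mul_assoc, mul_assoc, h1, mul_one]
  rw [h7]
  exact L.smul_mem (L.mul_mem hS (hs _ hZ)) _

namespace Res

variable {ε R : H →L[ℝ] H} (h : Res ε R)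
include h

theorem dense : DenseRange R := dense_of_inj (by rw [h.sa]; exact h.inj)

theorem norm_eps (x : H) : ‖ε x‖ = ‖x‖ := by
  have := norm_sq_eq ε x
  rw [h.esa, h.esq, one_apply_eq_self, real_inner_self_eq_norm_sq] at this
  exact (pow_left_inj₀ (norm_nonneg _) (norm_nonneg _) two_ne_zero).1 this

theorem comm_sq : ε * (R * R) = R * R * ε := by
  have h1 : ε * (R * R + R * R) = (R * R + R * R) * ε := by
    rw [← h.rel, mul_add, add_mul, ← mul_assoc, h.esq, one_mul, mul_assoc R, h.esq, mul_one,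
      mul_assoc, add_comm]
  have h2 : (2 : ℝ) • (ε * (R * R)) = (2 : ℝ) • (R * R * ε) := by
    rw [two_smul, two_smul, ← mul_add, h1, add_mul]
  exact smul_right_injective _ two_ne_zero h2

/-- Pythagoras: `‖ξ‖² = ‖D x‖² + ‖x‖²` for `x = R ξ` -/
theorem pyth (ξ : H) : ‖ξ‖ ^ 2 = ‖ξ - ε (R ξ)‖ ^ 2 + ‖R ξ‖ ^ 2 := by
  have h1 : ⟪ξ, (ε * R + R * ε) ξ⟫_ℝ = ⟪ξ, (R * R + R * R) ξ⟫_ℝ := by rw [h.rel]
  simp only [add_apply, mul_apply_eq_comp, inner_add_right] at h1
  rw [← inner_sa h.sa ξ (R ξ), real_inner_self_eq_norm_sq, ← inner_sa h.sa ξ (ε ξ),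
    ← inner_sa h.esa (R ξ) ξ, real_inner_comm ξ] at h1
  rw [norm_sub_sq_real, h.norm_eps]
  linarith

theorem apply_le (ξ : H) : ‖R ξ‖ ≤ ‖ξ‖ := by
  have := h.pyth ξ
  exact (pow_le_pow_iff_left₀ (norm_nonneg _) (norm_nonneg _) two_ne_zero).1
    (by linarith [sq_nonneg ‖ξ - ε (R ξ)‖])

theorem norm_le : ‖R‖ ≤ 1 :=
  ContinuousLinearMap.opNorm_le_bound _ zero_le_one fun ξ => by rw [one_mul]; exact h.apply_le ξ

/-- a lower bound for `D` gives `‖R‖ < 1` -/
theorem norm_lt {c : ℝ} (hc : 0 < c) (hb : ∀ ξ, c * ‖R ξ‖ ^ 2 ≤ ‖ξ - ε (R ξ)‖ ^ 2) : ‖R‖ < 1 := by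
  have h1 : 0 < √(1 + c) := Real.sqrt_pos.2 (by linarith)
  refine lt_of_le_of_lt (ContinuousLinearMap.opNorm_le_bound _ (inv_pos.2 h1).le fun ξ => ?_)
    (inv_lt_one_of_one_lt₀ (Real.lt_sqrt_of_sq_lt (by linarith)))
  rw [← div_eq_inv_mul, le_div_iff₀ h1]
  refine (pow_le_pow_iff_left₀ (by positivity) (norm_nonneg _) two_ne_zero).1 ?_
  rw [mul_pow, Real.sq_sqrt (by linarith)]
  nlinarith [h.pyth ξ, hb ξ]

/-- the opposite grading -/
theorem neg : Res (-ε) (-(ε * R * ε)) where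
  esa := by rw [star_neg, h.esa]
  esq := by rw [neg_mul_neg, h.esq]
  sa := by rw [star_neg, star_mul, star_mul, h.esa, h.sa, mul_assoc]
  rel := by
    have h1 : ε * R * ε * (ε * R * ε) = R * R := by
      calc _ = ε * R * (ε * ε) * R * ε := by noncomm_ring
        _ = ε * (R * R) * ε := by rw [h.esq]; noncomm_ring
        _ = _ := by rw [h.comm_sq, mul_assoc, h.esq, mul_one]
    rw [neg_mul_neg, neg_mul_neg, neg_mul_neg, h1, ← h.rel]
    calc _ = ε * ε * R * ε + ε * R * (ε * ε) := by noncomm_ring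
      _ = _ := by rw [h.esq, one_mul, mul_one, add_comm]
  inj := by
    intro x y hxy
    have e : ∀ a b, ε a = ε b → a = b := fun a b hab => by
      have := congrArg ε hab
      rwa [← mul_apply_eq_comp, ← mul_apply_eq_comp, h.esq] at this
    exact e _ _ (h.inj (e _ _ (neg_injective hxy)))

theorem orth (ξ : H) : ⟪ξ - ε (R ξ), ε (R ξ)⟫_ℝ = 0 := by
  have h1 := norm_add_sq_real (ξ - ε (R ξ)) (ε (R ξ))
  rw [sub_add_cancel, h.norm_eps] at h1
  linarith [h.pyth ξ]

theorem odd_orth {C : H →L[ℝ] H} (hC : star C = C) (ho : ε * C + C * ε = 0) (x : H) :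
    ⟪C x, ε x⟫_ℝ = 0 := by
  have h1 : ⟪x, (ε * C + C * ε) x⟫_ℝ = 0 := by rw [ho]; simp
  simp only [add_apply, mul_apply_eq_comp, inner_add_right] at h1
  rw [← inner_sa h.esa x (C x), ← inner_sa hC x (ε x), real_inner_comm (C x) (ε x)] at h1
  linarith

/-- the resolvent of a bounded perturbation -/
theorem pert {C : H →L[ℝ] H} (hC : star C = C) (ho : ε * C + C * ε = 0) :
    ∃ W : H →L[ℝ] H, (1 + C * R) * W = 1 ∧ W * (1 + C * R) = 1 ∧ Res ε (R * W) ∧
      R * W - R = -(R * W * C * R) := by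
  have hlow : ∀ ξ, (1 + ‖C‖)⁻¹ * ‖ξ‖ ≤ ‖(1 + C * R) ξ‖ := fun ξ => by
    have h1 : (1 + C * R) ξ = (ξ - ε (R ξ) + C (R ξ)) + ε (R ξ) := by
      simp only [add_apply, one_apply_eq_self, mul_apply_eq_comp]; abel
    have h2 : ‖R ξ‖ ≤ ‖(1 + C * R) ξ‖ := by
      refine (pow_le_pow_iff_left₀ (norm_nonneg _) (norm_nonneg _) two_ne_zero).1 ?_
      rw [h1, norm_add_sq_real, inner_add_left, h.orth, h.odd_orth hC ho, h.norm_eps]
      nlinarith [sq_nonneg ‖ξ - ε (R ξ) + C (R ξ)‖]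
    have h3 : ‖ξ‖ ≤ ‖(1 + C * R) ξ‖ + ‖C (R ξ)‖ := by
      have : ξ = (1 + C * R) ξ - C (R ξ) := by simp
      exact (congrArg norm this).le.trans (norm_sub_le _ _)
    rw [← div_eq_inv_mul, div_le_iff₀ (by positivity)]
    nlinarith [C.le_opNorm (R ξ), norm_nonneg C]
  have hp : 0 < (1 + ‖C‖)⁻¹ := by positivity
  have hst : star (1 + C * R) = 1 + R * C := by rw [star_add, star_one, star_mul, hC, h.sa]
  have hinj : Injective (star (1 + C * R) : H →L[ℝ] H) := by
    rw [hst, injective_iff_map_eq_zero]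
    intro η hη
    have h1 : η = R (-(C η)) := by
      rw [map_neg, eq_neg_iff_add_eq_zero]; simpa using hη
    have h2 : (1 + C * R) (-(C η)) = 0 := by
      rw [add_apply, one_apply_eq_self, mul_apply_eq_comp, ← h1, neg_add_cancel]
    have h3 := hlow (-(C η))
    rw [h2, norm_zero] at h3
    have h4 : ‖-(C η)‖ = 0 := le_antisymm (by nlinarith [norm_nonneg (-(C η))]) (norm_nonneg _)
    rw [h1, norm_eq_zero.1 h4, map_zero]
  obtain ⟨u, hu⟩ := isUnit_of_lower hp hlow hinj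
  set W : H →L[ℝ] H := ↑u⁻¹
  have a1 : (1 + C * R) * W = 1 := by rw [← hu]; exact u.mul_inv
  have a2 : W * (1 + C * R) = 1 := by rw [← hu]; exact u.inv_mul
  have b1 : star W * (1 + R * C) = 1 := by rw [← hst, ← star_mul, a1, star_one]
  have b2 : (1 + R * C) * star W = 1 := by rw [← hst, ← star_mul, a2, star_one]
  have c1 : star W * R = R * W := by
    calc _ = star W * R * ((1 + C * R) * W) := by rw [a1, mul_one]
      _ = star W * (1 + R * C) * R * W := by noncomm_ring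
      _ = _ := by rw [b1, one_mul]
  refine ⟨W, a1, a2, ⟨h.esa, h.esq, by rw [star_mul, h.sa, c1], ?_, ?_⟩, ?_⟩
  · have d : (1 + R * C) * ε * R + R * ε * (1 + C * R) = R * R + R * R := by
      rw [← h.rel]
      calc _ = ε * R + R * ε + R * (ε * C + C * ε) * R := by noncomm_ring
        _ = _ := by rw [ho, mul_zero, zero_mul, add_zero]
    calc _ = star W * (1 + R * C) * ε * (R * W) + star W * R * ε * ((1 + C * R) * W) := by
          rw [b1, a1, one_mul, mul_one, c1]
      _ = star W * ((1 + R * C) * ε * R + R * ε * (1 + C * R)) * W := by noncomm_ring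
      _ = star W * R * (R * W) + star W * R * (R * W) := by rw [d]; noncomm_ring
      _ = _ := by rw [c1]
  · intro x y hxy
    exact inj_of_mul a1 (h.inj hxy)
  · calc _ = R * W - R * (W * (1 + C * R)) := by rw [a2, mul_one]
      _ = _ := by noncomm_ring

/-- the square of `D + C` when `D C + C D = C'` is bounded -/
theorem anti {C C' : H →L[ℝ] H} (hC : star C = C) (ho : ε * C + C * ε = 0)
    (ha : C * R + R * C = R * C' * R) (ξ : H) :
    ‖ξ - ε (R ξ) + C (R ξ)‖ ^ 2 = ‖ξ - ε (R ξ)‖ ^ 2 + ‖C (R ξ)‖ ^ 2 + ⟪R ξ, C' (R ξ)⟫_ℝ := by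
  have h1 : ⟪ξ, (C * R + R * C) ξ⟫_ℝ = ⟪ξ, (R * C' * R) ξ⟫_ℝ := by rw [ha]
  simp only [add_apply, mul_apply_eq_comp, inner_add_right] at h1
  rw [← inner_sa h.sa ξ (C ξ), ← inner_sa hC (R ξ) ξ, ← inner_sa h.sa ξ (C' (R ξ)),
    real_inner_comm ξ] at h1
  rw [norm_add_sq_real, inner_sub_left, real_inner_comm (C (R ξ)) (ε _), h.odd_orth hC ho]
  linarith

/-- a lower bound for `D + C` makes the perturbed resolvent a strict contraction -/
theorem pert_lt {C R' : H →L[ℝ] H} (h' : Res ε R') (hC : star C = C) (ho : ε * C + C * ε = 0)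
    (hR : R' - R = -(R' * C * R)) {c : ℝ} (hc : 0 < c)
    (hb : ∀ ξ, c * ‖R ξ‖ ^ 2 ≤ ‖ξ - ε (R ξ) + C (R ξ)‖ ^ 2) : ‖R'‖ < 1 := by
  obtain ⟨W, a1, -, -, -⟩ := h.pert hC ho
  refine h'.norm_lt hc fun η => ?_
  have h1 : η = W η + C (R (W η)) := by
    have := congrArg (fun T : H →L[ℝ] H => T η) a1
    simpa using this.symm
  have h2 : R' η = R (W η) := by
    have := congrArg (fun T : H →L[ℝ] H => T (W η)) hR
    simp only [sub_apply, neg_apply, mul_apply_eq_comp] at this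
    calc R' η = R' (W η + C (R (W η))) := by rw [← h1]
      _ = (R' (W η) - R (W η)) + R' (C (R (W η))) + R (W η) := by rw [map_add]; abel
      _ = _ := by rw [this]; abel
  rw [h2]
  have h3 : η - ε (R (W η)) = W η - ε (R (W η)) + C (R (W η)) := by
    rw [sub_add_eq_add_sub, ← h1]
  rw [h3]
  exact hb _

/-- the resolvent of `s D` -/
theorem scale {s : ℝ} (hs : 0 < s) : ∃ W : H →L[ℝ] H,
    (s • 1 + (1 - s) • (ε * R)) * W = 1 ∧ W * (s • 1 + (1 - s) • (ε * R)) = 1 ∧ Res ε (R * W) ∧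
      star W * R = R * W := by
  set Z : H →L[ℝ] H := s • 1 + (1 - s) • (ε * R) with hZ
  have hm : 0 < min s 1 := lt_min hs one_pos
  have hlow : ∀ ξ, min s 1 * ‖ξ‖ ≤ ‖Z ξ‖ := fun ξ => by
    have h1 : Z ξ = s • (ξ - ε (R ξ)) + ε (R ξ) := by
      simp only [hZ, add_apply, smul_apply, one_apply_eq_self, mul_apply_eq_comp]; module
    refine (pow_le_pow_iff_left₀ (by positivity) (norm_nonneg _) two_ne_zero).1 ?_
    rw [h1, norm_add_sq_real, inner_smul_left, h.orth, h.norm_eps, norm_smul, mul_pow, mul_pow,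
      h.pyth ξ, Real.norm_eq_abs, sq_abs]
    have a : min s 1 ^ 2 ≤ s ^ 2 := pow_le_pow_left₀ hm.le (min_le_left _ _) 2
    have b : min s 1 ^ 2 ≤ 1 ^ 2 := pow_le_pow_left₀ hm.le (min_le_right _ _) 2
    nlinarith [sq_nonneg ‖ξ - ε (R ξ)‖, sq_nonneg ‖R ξ‖]
  have hst : star Z = s • 1 + (1 - s) • (R * ε) := by
    rw [hZ, star_add, star_smul, star_smul, star_one, star_mul, h.sa, h.esa]; rfl
  have hinj : Injective (star Z : H →L[ℝ] H) := by
    rw [hst, injective_iff_map_eq_zero]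
    intro η hη
    simp only [add_apply, smul_apply, one_apply_eq_self, mul_apply_eq_comp] at hη
    set ξ := -((1 - s) / s) • ε η with hξ
    have h1 : η = R ξ := by
      refine smul_right_injective _ hs.ne' ?_
      dsimp only
      rw [hξ, map_smul, smul_smul, eq_neg_of_add_eq_zero_left hη, ← neg_smul]
      congr 1; field_simp
    have h2 : Z ξ = 0 := by
      simp only [hZ, add_apply, smul_apply, one_apply_eq_self, mul_apply_eq_comp]
      rw [← h1, hξ, smul_smul, ← add_smul]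
      convert zero_smul ℝ (ε η) using 2
      field_simp; ring
    have h3 := hlow ξ
    rw [h2, norm_zero] at h3
    have h4 : ‖ξ‖ = 0 := le_antisymm (by nlinarith [norm_nonneg ξ]) (norm_nonneg _)
    rw [h1, norm_eq_zero.1 h4, map_zero]
  obtain ⟨u, hu⟩ := isUnit_of_lower hm hlow hinj
  set W : H →L[ℝ] H := ↑u⁻¹
  have a1 : Z * W = 1 := by rw [← hu]; exact u.mul_inv
  have a2 : W * Z = 1 := by rw [← hu]; exact u.inv_mul
  have b1 : star W * star Z = 1 := by rw [← star_mul, a1, star_one]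
  have e1 : star Z * R = R * Z := by
    rw [hst, hZ]; simp only [add_mul, mul_add, smul_mul_assoc, mul_smul_comm, one_mul, mul_one,
      mul_assoc]
  have c1 : star W * R = R * W := by
    calc _ = star W * (R * Z) * W := by rw [mul_assoc, mul_assoc, a1, mul_one]
      _ = _ := by rw [← e1, ← mul_assoc, b1, one_mul]
  refine ⟨W, a1, a2, ⟨h.esa, h.esq, by rw [star_mul, h.sa, c1], ?_, ?_⟩, c1⟩
  · have d : star Z * ε * R + R * ε * Z = R * R + R * R := by
      have e2 : R * ε * ε * R = R * R := by rw [mul_assoc R, h.esq, mul_one]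
      have e3 : R * ε * (ε * R) = R * R := by rw [← mul_assoc, e2]
      rw [hst, hZ]
      simp only [add_mul, mul_add, smul_mul_assoc, mul_smul_comm, one_mul, mul_one, e2, e3]
      have := h.rel
      calc _ = s • (ε * R + R * ε) + (1 - s) • (R * R + R * R) := by module
        _ = _ := by rw [this]; module
    calc _ = star W * star Z * ε * (R * W) + star W * R * ε * (Z * W) := by
          rw [b1, a1, one_mul, mul_one, c1]
      _ = star W * (star Z * ε * R + R * ε * Z) * W := by noncomm_ring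
      _ = star W * R * (R * W) + star W * R * (R * W) := by rw [d]; noncomm_ring
      _ = _ := by rw [c1]
  · intro x y hxy
    exact inj_of_mul a1 (h.inj hxy)

end Res

end Pool.Agent.Lib.WD
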