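import Pool.Agent.Lib.WD.Blue

/-! Block SD2: the gain of the coupling. -/

noncomputable section

open Set Function MeasureTheory CliffordAlgebra BCO ContinuousLinearMap
open scoped Manifold ContDiff InnerProductSpace

namespace Pool.Agent.Lib.WD

open CX AN
open ANA.Cyl (ht)
open ANA.CylB (pull)

namespace SD2

section Int

variable {α V : Type} [MeasurableSpace α] [NormedAddCommGroup V] [InnerProductSpace ℝ V]
  {μ : Measure α}

/-- `c` is the integral of `f` -/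
def HI (μ : Measure α) (f : α → ℝ) (c : ℝ) : Prop := Integrable f μ ∧ ∫ y, f y ∂μ = c

theorem HI.inner {x y : Lp V 2 μ} {f g : α → V} (hx : x =ᵐ[μ] f) (hy : y =ᵐ[μ] g) :
    HI μ (fun z => ⟪f z, g z⟫_ℝ) ⟪x, y⟫_ℝ := by
  have h : (fun z => ⟪x z, y z⟫_ℝ) =ᵐ[μ] fun z => ⟪f z, g z⟫_ℝ := by
    filter_upwards [hx, hy] with z h1 h2
    rw [h1, h2]
  exact ⟨(L2.integrable_inner (𝕜 := ℝ) x y).congr h,
    (integral_congr_ae h).symm.trans (L2.inner_def x y).symm⟩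

theorem HI.sq {x : Lp V 2 μ} {f : α → V} (hx : x =ᵐ[μ] f) :
    HI μ (fun z => ‖f z‖ ^ 2) (‖x‖ ^ 2) := by
  simpa only [real_inner_self_eq_norm_sq] using HI.inner hx hx

theorem HI.add {f g : α → ℝ} {c d : ℝ} (h : HI μ f c) (h' : HI μ g d) :
    HI μ (fun z => f z + g z) (c + d) :=
  ⟨h.1.add h'.1, by rw [integral_add h.1 h'.1, h.2, h'.2]⟩

theorem HI.sub {f g : α → ℝ} {c d : ℝ} (h : HI μ f c) (h' : HI μ g d) :
    HI μ (fun z => f z - g z) (c - d) :=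
  ⟨h.1.sub h'.1, by rw [integral_sub h.1 h'.1, h.2, h'.2]⟩

theorem HI.smul {f : α → ℝ} {c : ℝ} (h : HI μ f c) (r : ℝ) : HI μ (fun z => r * f z) (r * c) :=
  ⟨h.1.const_mul r, by rw [integral_const_mul, h.2]⟩

theorem HI.sum {ι : Type} [Fintype ι] {f : ι → α → ℝ} {c : ι → ℝ} (h : ∀ i, HI μ (f i) (c i)) :
    HI μ (fun z => ∑ i, f i z) (∑ i, c i) :=
  ⟨integrable_finsetSum _ fun i _ => (h i).1, by
    rw [integral_finsetSum _ fun i _ => (h i).1]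
    exact Finset.sum_congr rfl fun i _ => (h i).2⟩

theorem HI.le {f g : α → ℝ} {c d : ℝ} (h : HI μ f c) (h' : HI μ g d) (hle : ∀ z, f z ≤ g z) :
    c ≤ d := by
  rw [← h.2, ← h'.2]
  exact integral_mono h.1 h'.1 hle

theorem mul_ae {ψ : α → ℝ} (h : Bm ψ) {x : Lp V 2 μ} {f : α → V} (hx : x =ᵐ[μ] f) :
    mul V μ ψ x =ᵐ[μ] fun z => ψ z • f z := by
  filter_upwards [(stMUL α V μ).mul_ae h x, hx] with z h1 h2
  rw [h1, h2]

theorem cst_ae (A : V →L[ℝ] V) {x : Lp V 2 μ} {f : α → V} (hx : x =ᵐ[μ] f) :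
    cst μ A x =ᵐ[μ] fun z => A (f z) := by
  filter_upwards [A.coeFn_compLpL x, hx] with z h1 h2
  rw [h1, h2]

theorem add_ae {x y : Lp V 2 μ} {f g : α → V} (hx : x =ᵐ[μ] f) (hy : y =ᵐ[μ] g) :
    (x + y : Lp V 2 μ) =ᵐ[μ] fun z => f z + g z := by
  filter_upwards [Lp.coeFn_add x y, hx, hy] with z h1 h2 h3
  rw [h1, Pi.add_apply, h2, h3]

theorem sum_ae {ι : Type} [Fintype ι] {d : ι → α → ℝ} (h : ∀ i, Bm (d i)) (A : ι → V →L[ℝ] V)
    (x : Lp V 2 μ) : (∑ i, mul V μ (d i) * cst μ (A i)) x =ᵐ[μ] fun z => ∑ i, d i z • A i (x z) := by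
  rw [_root_.sum_apply]
  have h1 : ∀ᵐ z ∂μ, ∀ i, (mul V μ (d i) * cst μ (A i)) x z = d i z • A i (x z) :=
    ae_all_iff.2 fun i => mul_ae (h i) (cst_ae (A i) (Filter.EventuallyEq.refl _ _))
  filter_upwards [Lp.coeFn_finsetSum Finset.univ fun i => (mul V μ (d i) * cst μ (A i)) x, h1]
    with z h2 h3
  rw [h2, Finset.sum_apply]
  exact Finset.sum_congr rfl fun i _ => h3 i

theorem bm_neg {ψ : α → ℝ} (h : Bm ψ) : Bm fun y => -ψ y :=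
  ⟨h.1.neg, by simpa only [abs_neg] using h.2⟩

theorem bm_abs {ψ : α → ℝ} (h : Bm ψ) : Bm fun y => |ψ y| :=
  ⟨h.1.abs, by simpa only [abs_abs] using h.2⟩

theorem bm_sub {ψ χ : α → ℝ} (h : Bm ψ) (h' : Bm χ) : Bm fun y => ψ y - χ y := by
  simpa only [sub_eq_add_neg] using MUL.bm_add h (bm_neg h')

theorem bm_sq {ψ : α → ℝ} (h : Bm ψ) : Bm fun y => ψ y ^ 2 := by
  simpa only [sq] using MUL.bm_mul h h

theorem bm_comp {β : Type} [MeasurableSpace β] {ψ : α → ℝ} (h : Bm ψ) {f : β → α}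
    (hf : Measurable f) : Bm fun y => ψ (f y) :=
  ⟨h.1.comp hf, h.2.imp fun _ hC _ => hC _⟩

theorem bm_ind {O : Set α} (h : MeasurableSet O) : Bm (O.indicator (1 : α → ℝ)) :=
  ⟨measurable_one.indicator h, 1, fun y => by
    by_cases hy : y ∈ O <;> simp [hy]⟩

end Int

section Alg

variable {V ι : Type} [NormedAddCommGroup V] [InnerProductSpace ℝ V] [Fintype ι] [DecidableEq ι]

theorem norm_comb (c : ι → V) (r : ℝ) (h : ∀ i j, ⟪c i, c j⟫_ℝ = if i = j then r else 0)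
    (d : ι → ℝ) : ‖∑ i, d i • c i‖ ^ 2 = (∑ i, d i ^ 2) * r := by
  rw [← real_inner_self_eq_norm_sq, sum_inner, Finset.sum_mul]
  refine Finset.sum_congr rfl fun i _ => ?_
  simp only [inner_sum, real_inner_smul_left, real_inner_smul_right, h, mul_ite, mul_zero,
    Finset.sum_ite_eq, Finset.mem_univ, if_true]
  ring

theorem sq_rot {κ : Type} [Fintype κ] (Ω : κ → ι → ℝ)
    (h : ∀ j k, ∑ i, Ω i j * Ω i k = if j = k then 1 else 0) (d : ι → ℝ) :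
    ∑ i, (∑ j, Ω i j * d j) ^ 2 = ∑ j, d j ^ 2 := by
  have h1 : ∀ i, (∑ j, Ω i j * d j) ^ 2 = ∑ j, ∑ k, d j * d k * (Ω i j * Ω i k) := fun i => by
    rw [sq, Finset.sum_mul_sum]
    exact Finset.sum_congr rfl fun j _ => Finset.sum_congr rfl fun k _ => by ring
  simp only [h1]
  rw [Finset.sum_comm]
  refine Finset.sum_congr rfl fun j _ => ?_
  rw [Finset.sum_comm]
  simp only [← Finset.mul_sum, h, mul_ite, mul_one, mul_zero, Finset.sum_ite_eq, Finset.mem_univ,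
    if_true, sq]

omit [DecidableEq ι] in
/-- the pointwise inequality -/
theorem pw {κ : Type} [Fintype κ] (x y cx cy ky ly : V) (g γ γ' k' M P ς χ : ℝ) (d : ι → ℝ)
    (f : κ → ℝ) (hς : |ς| = 1) (hd : ∑ j, d j ^ 2 = P) (hx : ‖cx‖ ^ 2 = P * ‖x‖ ^ 2)
    (hy : ‖cy‖ ^ 2 = P * ‖y‖ ^ 2) (hk : ‖ky‖ ^ 2 = k' ^ 2 * ‖y‖ ^ 2) (hl : ‖ly‖ = ‖y‖)
    (hχ : χ * (g * γ) = g * γ) (hf : χ * (∑ j, f j ^ 2) * γ ^ 2 ≤ P * γ ^ 2) (a : ℝ)
    (ha : a = γ ^ 2 * (g ^ 2 - (M * P) ^ 2) - |γ| * |k'| - |g| * |γ'|) :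
    ⟪a • x, x⟫_ℝ + ⟪a • y, y⟫_ℝ ≤ ‖(g * γ) • x‖ ^ 2 + ⟪χ • (g * γ) • y, (g * γ) • y⟫_ℝ -
      ∑ j, ⟪χ • f j • (M * γ) • cy, f j • (M * γ) • cy⟫_ℝ - ∑ j, ‖(-(M * γ * d j)) • cx‖ ^ 2 +
      2 * ⟪x, γ • ky + (g * (ς * γ')) • ly⟫_ℝ := by
  have hP : 0 ≤ P := hd ▸ Finset.sum_nonneg fun _ _ => sq_nonneg _
  have e1 : ∑ j, ⟪χ • f j • (M * γ) • cy, f j • (M * γ) • cy⟫_ℝ =
      χ * (∑ j, f j ^ 2) * γ ^ 2 * (M ^ 2 * P * ‖y‖ ^ 2) := by
    simp only [real_inner_smul_left, real_inner_smul_right, real_inner_self_eq_norm_sq, hy,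
      Finset.mul_sum, Finset.sum_mul]
    exact Finset.sum_congr rfl fun j _ => by ring
  have e2 : ∑ j, ‖(-(M * γ * d j)) • cx‖ ^ 2 = γ ^ 2 * (M * P) ^ 2 * ‖x‖ ^ 2 := by
    have : ∀ j, ‖(-(M * γ * d j)) • cx‖ ^ 2 = d j ^ 2 * (γ ^ 2 * M ^ 2 * P * ‖x‖ ^ 2) := fun j => by
      rw [norm_smul, mul_pow, Real.norm_eq_abs, sq_abs, hx]
      ring
    simp only [this, ← Finset.sum_mul, hd]
    ring
  have e3 : ⟪χ • (g * γ) • y, (g * γ) • y⟫_ℝ = γ ^ 2 * g ^ 2 * ‖y‖ ^ 2 := by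
    rw [smul_smul, hχ, real_inner_self_eq_norm_sq, norm_smul, mul_pow, Real.norm_eq_abs, sq_abs]
    ring
  have e4 : ‖(g * γ) • x‖ ^ 2 = γ ^ 2 * g ^ 2 * ‖x‖ ^ 2 := by
    rw [norm_smul, mul_pow, Real.norm_eq_abs, sq_abs]
    ring
  have e5 : ‖ky‖ = |k'| * ‖y‖ := by
    rw [← sq_eq_sq₀ (norm_nonneg _) (by positivity), hk, mul_pow, sq_abs]
  have e6 : ‖γ • ky + (g * (ς * γ')) • ly‖ ≤ (|γ| * |k'| + |g| * |γ'|) * ‖y‖ := by
    refine (norm_add_le _ _).trans_eq ?_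
    rw [norm_smul, norm_smul, e5, hl, Real.norm_eq_abs, Real.norm_eq_abs, abs_mul, abs_mul, hς]
    ring
  have e7 := (neg_le_of_abs_le (abs_real_inner_le_norm x (γ • ky + (g * (ς * γ')) • ly)))
  have e8 := mul_le_mul_of_nonneg_left e6 (norm_nonneg x)
  have e9 := mul_le_mul_of_nonneg_right hf (by positivity : 0 ≤ M ^ 2 * P * ‖y‖ ^ 2)
  have e10 : 0 ≤ (|γ| * |k'| + |g| * |γ'|) * (‖x‖ - ‖y‖) ^ 2 := by positivity
  rw [e1, e2, e3, e4, real_inner_smul_left, real_inner_smul_left, real_inner_self_eq_norm_sq,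
    real_inner_self_eq_norm_sq, ha]
  nlinarith

theorem bd_Icc {η : ℝ → ℝ} (hη : Continuous η) (a b : ℝ) : ∃ C, 0 ≤ C ∧ ∀ t ∈ Icc a b, |η t| ≤ C := by
  obtain ⟨C, hC⟩ := isCompact_Icc.exists_bound_of_continuousOn (hη.continuousOn (s := Icc a b))
  exact ⟨max C 0, le_max_right _ _, fun t ht => (hC t ht).trans (le_max_left _ _)⟩

end Alg

section Geo

theorem gam_inner {n N : ℕ} (X : SM n) (S : Spinor n N) (u : Eu N) (i j : Fin n) :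
    ⟪gam S i u, gam S j u⟫_ℝ = if i = j then ‖u‖ ^ 2 else 0 := by
  have A := stALGB n N X S
  have h1 := A.gam_skew i u (gam S j u)
  have h2 := A.gam_skew j u (gam S i u)
  have h3 := congrArg (fun v => ⟪u, v⟫_ℝ) (A.gam_rel i j u)
  simp only [inner_add_right, real_inner_smul_right, real_inner_self_eq_norm_sq] at h3
  rw [real_inner_comm] at h2
  split_ifs at h3 ⊢ <;> linarith

theorem norm_cg {n N : ℕ} (X : SM (n + 1)) (S : Spinor (n + 1) N) (d : Fin n → ℝ) (u : Eu N) :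
    ‖∑ j, d j • gam S j.castSucc u‖ ^ 2 = (∑ j, d j ^ 2) * ‖u‖ ^ 2 :=
  norm_comb (fun j : Fin n => gam S j.castSucc u) _
    (fun i j => by simp only [gam_inner X, Fin.castSucc_inj]) d

variable {G : Type} [Group G] {m N₁ N : ℕ} {D : CD G m N₁ N} (s : SD D)

theorem abs_sg : |(s.ς : ℝ)| = 1 := by
  rcases s.emb.sg with h | h <;> simp [h]

theorem cont_tc (hF : St_FLT) : Continuous tc := by
  obtain ⟨h, e⟩ := hF.homeo
  exact (funext e : ⇑h = tc) ▸ h.continuous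

theorem bm_fx {η : ℝ → ℝ} (hη : Continuous η) (h0 : ∀ t, (3 / 4 : ℝ) ≤ t → η t = 0) :
    Bm fun z : s.x.X.M × LN.M => s.fx η z.1 := by
  obtain ⟨C, hC, h⟩ := bd_Icc hη 0 (3 / 4)
  refine ⟨(hη.comp (ANA.Cyl.continuous_ht s.x)).measurable.comp measurable_fst, C, fun z => ?_⟩
  rcases le_total (ht s.x z.1) (3 / 4) with h1 | h1
  · exact h _ ⟨ANA.Cyl.ht_nonneg _ _, h1⟩
  · exact ((congrArg abs (h0 _ h1)).trans abs_zero).trans_le hC

theorem bm_fl (hF : St_FLT) {η : ℝ → ℝ} (hη : Continuous η) {a b : ℝ}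
    (h0 : ∀ t, t ≤ a ∨ b ≤ t → η t = 0) : Bm fun z : s.x.X.M × LN.M => s.fl η z.2 := by
  obtain ⟨C, hC, h⟩ := bd_Icc hη a b
  refine ⟨(hη.comp ((cont_tc hF).const_mul _)).measurable.comp measurable_snd, C, fun z => ?_⟩
  by_cases h1 : s.ς * tc z.2 ≤ a ∨ b ≤ s.ς * tc z.2
  · exact ((congrArg abs (h0 _ h1)).trans abs_zero).trans_le hC
  · rw [not_or, not_le, not_le] at h1
    exact h _ ⟨h1.1.le, h1.2.le⟩

theorem sm_fx (hS : St_SCAL) {η : ℝ → ℝ} (hη : ContDiff ℝ ∞ η)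
    (h1 : ∀ t < (1 / 4 : ℝ), η t = η 0) (h0 : ∀ t, (3 / 4 : ℝ) ≤ t → η t = 0) :
    Sm s.x.X (s.fx η) ∧ HasCompactSupport (s.fx η) ∧
      ∀ p, ∑ i, dv s.x.X i (s.fx η) p ^ 2 = deriv η (ht s.x p) ^ 2 := by
  obtain ⟨a1, -, a2, a3⟩ := ((hS G m).1 s.x).2.2.2 η (1 / 4) (3 / 4) hη (by norm_num) h1
    fun t h => (h0 t h).trans (h0 _ le_rfl).symm
  simp only [h0 _ le_rfl, sub_zero] at a2
  exact ⟨a1, a2, a3⟩

theorem mem_O (hS : St_SCAL) {z : s.x.X.M × LN.M} (h1 : ht s.x z.1 ≤ 3 / 4)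
    (h2 : D.R + 1 ≤ s.ς * tc z.2) : z ∈ eO s.x s.ς :=
  ⟨(((hS G m).1 s.x).2.2.1 z.1).2 (by linarith), by linarith [D.hR]⟩

theorem cpt_fl (hF : St_FLT) : HasCompactSupport (s.fl D.F.γ₁) := by
  obtain ⟨h, e⟩ := hF.homeo
  have h1 : HasCompactSupport fun t : ℝ => D.F.γ₁ (s.ς * t) := by
    refine HasCompactSupport.intro (isCompact_Icc (a := -(|D.R + 1| + |D.F.R₀|))
      (b := |D.R + 1| + |D.F.R₀|)) fun t ht => (D.F.supp _ ?_).2.1
    by_contra h2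
    rw [not_or, not_le, not_le] at h2
    refine ht (abs_le.1 ?_)
    have h3 : |(s.ς : ℝ) * t| = |t| := by rw [abs_mul, abs_sg, one_mul]
    rw [← h3]
    exact abs_le.2 ⟨by linarith [neg_abs_le (D.R + 1), abs_nonneg D.F.R₀],
      by linarith [le_abs_self D.F.R₀, abs_nonneg (D.R + 1)]⟩
  have h2 : s.fl D.F.γ₁ = (fun t : ℝ => D.F.γ₁ (s.ς * t)) ∘ h := funext fun t => by
    rw [comp_apply, e]
    rfl
  rw [h2]
  exact h1.comp_homeomorph h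

theorem grad_W (hF : St_FLT) (hS : St_SCAL) : (∀ j, Bm (dv D.w.X j s.ΦW)) ∧
    ∀ z ∈ eO s.x s.ς, s.fl D.F.γ z.2 ≠ 0 →
      ∑ j, dv D.w.X j s.ΦW (eψ s.x D.w s.ς s.α z) ^ 2 = deriv D.F.Φ (ht s.x z.1) ^ 2 := by
  obtain ⟨a1, a2, a3⟩ := sm_fx s hS D.F.smΦ (fun t h => (D.F.lo t h).1) fun t h => (D.F.hi t h).1
  have b1 : ContMDiff (𝓡 1) 𝓘(ℝ, ℝ) ∞ (s.fl D.F.γ₁) :=
    (hF.sm fun t => D.F.γ₁ (s.ς * t)).2 (D.F.smγ₁.comp (contDiff_const.mul contDiff_id))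
  have c1 : tsupport (s.fx D.F.Φ) ⊆ {p | ht s.x p ≤ 3 / 4} :=
    closure_minimal (fun p hp => le_of_not_ge fun h => hp (D.F.hi _ h).1)
      (isClosed_le (ANA.Cyl.continuous_ht s.x) continuous_const)
  have c2 : tsupport (s.fl D.F.γ₁) ⊆ {t | D.R + 1 ≤ s.ς * tc t} :=
    closure_minimal (fun t ht => le_of_not_ge fun h => ht (D.F.supp _ (.inl h)).2.1)
      (isClosed_le continuous_const ((cont_tc hF).const_mul _))
  obtain ⟨d1, d2, d3⟩ := s.pt.f _ _ a1.sm b1 a2 (cpt_fl s hF)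
    fun z hz => mem_O s hS (c1 hz.1) (c2 hz.2)
  refine ⟨((smb_holds _ D.w.X).bm ((smb_holds _ D.w.X).of_cpt d1 d2)).2, fun z hz h => ?_⟩
  obtain ⟨e1, e2⟩ := D.F.one _ (subset_tsupport _ h)
  have e3 : ∀ j, dv D.w.X j s.ΦW (eψ s.x D.w s.ς s.α z) =
      ∑ i, s.Ω z j (il rfl i) * dv s.x.X i (s.fx D.F.Φ) z.1 := fun j => by
    have e4 : ∀ i, dv LN i (s.fl D.F.γ₁) z.2 = 0 := fun i =>
      (hF.dv _ D.F.smγ₁ _ i z.2).trans (by rw [e2, mul_zero])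
    refine (d3 z hz j).trans ?_
    simp only [e4, mul_zero, Finset.sum_const_zero, add_zero]
    simp only [SD.fl, e1, mul_one]
  simp only [e3]
  rw [sq_rot (fun j i => s.Ω z j (il rfl i)) fun i k => by
    rw [s.pt.a.col z hz]
    simp only [(il rfl).injective.eq_iff], a3]

theorem norm_U (x : s.H) :
    ‖s.U x‖ ^ 2 = ⟪s.mu ((eO s.x s.ς).indicator 1) x, x⟫_ℝ := by
  rw [← real_inner_self_eq_norm_sq, ← adjoint_inner_left]
  exact congrArg (fun y => ⟪y, x⟫_ℝ) (DFunLike.congr_fun s.tr.inner x)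

end Geo

end SD2

open SD2 MUL in
theorem stSD2 (hF : St_FLT) (hS : St_SCAL) : St_SD2 := by
  intro G _ m N₁ N D s
  have cΦ : Continuous (deriv D.F.Φ) := D.F.smΦ.continuous_deriv (by simp)
  have ck : Continuous (deriv D.F.k) := D.F.smk.continuous_deriv (by simp)
  have cγ : Continuous (deriv D.F.γ) := D.F.smγ.continuous_deriv (by simp)
  have g0 : ∀ t, (3 / 4 : ℝ) ≤ t → D.F.g t = 0 := fun t h => by
    simp [Fn.g, (D.F.hi t h).2.1, (D.F.hi t h).2.2.1]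
  have bΦ := bm_fx s cΦ fun t h => (D.F.hi t h).2.2.1
  have bk := bm_fx s ck fun t h => (D.F.hi t h).2.2.2
  have bg := bm_fx s (η := D.F.g) (D.F.smk.continuous.add ((cΦ.pow 2).const_mul _)) g0
  have bγ := bm_fl s hF D.F.smγ.continuous fun t h => (D.F.supp t h).1
  have bγ' := bm_fl s hF cγ fun t h => (D.F.supp t h).2.2
  have ba : Bm s.a := bm_sub (bm_sub (bm_mul (bm_sq bγ) (bm_sub (bm_sq bg)
    (bm_sq (bm_mul (bm_const _) (bm_sq bΦ))))) (bm_mul (bm_abs bγ) (bm_abs bk)))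
    (bm_mul (bm_abs bg) (bm_abs bγ'))
  refine ⟨ba, fun u v => ?_⟩
  obtain ⟨a1, -, a3⟩ := sm_fx s hS D.F.smΦ (fun t h => (D.F.lo t h).1) fun t h => (D.F.hi t h).1
  obtain ⟨k1, -, k3⟩ := sm_fx s hS D.F.smk (fun t h => (D.F.lo t h).2.1)
    fun t h => (D.F.hi t h).2.1
  obtain ⟨w1, w2⟩ := grad_W s hF hS
  have bd : ∀ j, Bm fun z : s.x.X.M × LN.M => dv s.x.X j (s.fx D.F.Φ) z.1 := fun j =>
    bm_comp (((smb_holds _ s.x.X).bm a1).2 j) measurable_fst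
  have be : ∀ j, Bm fun z : s.x.X.M × LN.M => dv s.x.X j (s.fx D.F.k) z.1 := fun j =>
    bm_comp (((smb_holds _ s.x.X).bm k1).2 j) measurable_fst
  have bO := bm_ind s.tr.measO
  have bG := bm_mul bg bγ
  have bM := bm_mul (bm_const D.F.M) bγ
  have M := stMUL _ (Eu N) (s.μ.prod D.ν)
  have r : ∀ x : s.H, x =ᵐ[s.μ.prod D.ν] x := fun x => Filter.EventuallyEq.refl _ _
  have t1 : ⟪mul (Eu N) D.ρ s.aW u, u⟫_ℝ = ⟪s.mu s.a (adjoint s.U u), adjoint s.U u⟫_ℝ := by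
    have h1 : mul (Eu N) D.ρ s.aW ∘L s.U = s.U ∘L s.mu s.a :=
      s.tr.mul _ _ (s.tr.bm _ ba) ba fun z hz => ANA.CylB.pull_j s.emb.prod.2.1 _ _ hz
    have h2 : mul (Eu N) D.ρ s.aW = mul (Eu N) D.ρ s.aW * (s.U ∘L adjoint s.U) := by
      have bW : Bm s.aW := s.tr.bm _ ba
      rw [s.tr.onto, ← ((stMUL _ (Eu N) D.ρ).mul_mul bW (bm_ind s.tr.meas)).2]
      congr 1
      funext p
      by_cases hp : p ∈ eψ s.x D.w s.ς s.α '' eO s.x s.ς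
      · rw [indicator_of_mem hp, Pi.one_apply, mul_one]
      · rw [indicator_of_notMem hp, mul_zero]
        exact ANA.CylB.pull_off _ _ hp
    rw [adjoint_inner_right, h2]
    exact congrArg (fun y => ⟪y, u⟫_ℝ) (DFunLike.congr_fun h1 (adjoint s.U u))
  have t2 : adjoint s.Gm u =
      s.mu (fun z => s.fx D.F.g z.1 * s.fl D.F.γ z.2) (adjoint s.U u) := by
    refine ext_inner_right ℝ fun y => ?_
    rw [adjoint_inner_left, M.mul_inner bG, adjoint_inner_left]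
    rfl
  have t4 : ∀ j, s.K j v = s.U (s.mu ((eO s.x s.ς).indicator fun z =>
      dv D.w.X j s.ΦW (eψ s.x D.w s.ς s.α z))
      (s.mu (fun z => D.F.M * s.fl D.F.γ z.2) (s.cg (s.fx D.F.Φ) v))) := fun j =>
    DFunLike.congr_fun (s.tr.mul _ _ (w1 j) (s.tr.bm' _ (w1 j))
      fun z hz => by rw [indicator_of_mem hz]) _
  have t5 : ∑ j, ‖s.K' j u‖ ^ 2 = ∑ j : Fin (m + 1), ‖s.mu (fun z =>
      -(D.F.M * s.fl D.F.γ z.2 * dv s.x.X j (s.fx D.F.Φ) z.1))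
      (s.cg (s.fx D.F.Φ) (adjoint s.U u))‖ ^ 2 := by
    rw [Fin.sum_univ_castSucc]
    simp only [SD.K', Fin.lastCases_castSucc, Fin.lastCases_last, zero_apply, norm_zero]
    simp
  have t6 : ⟪u, s.C v⟫_ℝ = ⟪adjoint s.U u, s.mu (fun z => s.fl D.F.γ z.2) (s.cg (s.fx D.F.k) v) +
      s.mu (fun z => s.fx D.F.g z.1 * (s.ς * s.fl (deriv D.F.γ) z.2))
        (cst (s.μ.prod D.ν) (gam D.S (Fin.last _)) v)⟫_ℝ := by
    rw [adjoint_inner_left]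
    rfl
  have t3 : ‖s.Gm v‖ ^ 2 = _ := norm_U s _
  rw [t1, t2, t3, t5, t6]
  simp only [t4, norm_U]
  generalize adjoint s.U u = x
  have cΦ := fun y : s.H => sum_ae bd (fun j => gam D.S j.castSucc) y
  have hK := fun j => mul_ae (s.tr.bm' _ (w1 j)) (mul_ae bM (cΦ v))
  refine HI.le ((HI.inner (mul_ae ba (r x)) (r x)).add (HI.inner (mul_ae ba (r v)) (r v)))
    (((((HI.sq (mul_ae bG (r x))).add (HI.inner (mul_ae bO (mul_ae bG (r v)))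
      (mul_ae bG (r v)))).sub (HI.sum fun j => HI.inner (mul_ae bO (hK j)) (hK j))).sub
      (HI.sum fun j => HI.sq (mul_ae (bm_neg (bm_mul bM (bd j))) (cΦ x)))).add
      ((HI.inner (r x) (add_ae (mul_ae bγ (sum_ae be (fun j => gam D.S j.castSucc) v))
        (mul_ae (bm_mul bg (bm_mul (bm_const _) bγ')) (cst_ae _ (r v))))).smul 2)) fun z => ?_
  refine pw _ _ _ _ _ _ _ _ _ (deriv D.F.k (ht s.x z.1)) _ (deriv D.F.Φ (ht s.x z.1) ^ 2) _ _ _ _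
    (abs_sg s) (a3 z.1) ?_ ?_ ?_ ((stALGB _ _ D.w.X D.S).gam_norm _ _) ?_ ?_ _ rfl
  · rw [norm_cg D.w.X, a3]
  · rw [norm_cg D.w.X, a3]
  · rw [norm_cg D.w.X, k3]
  · by_cases hz : z ∈ eO s.x s.ς
    · rw [indicator_of_mem hz, Pi.one_apply, one_mul]
    · rw [indicator_of_notMem hz, zero_mul]
      by_contra h
      obtain ⟨h1, h2⟩ := mul_ne_zero_iff.1 (Ne.symm h)
      exact hz (mem_O s hS (le_of_not_ge fun h => h1 (g0 _ h))
        (le_of_not_ge fun h => h2 (D.F.supp _ (.inl h)).1))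
  · by_cases hz : z ∈ eO s.x s.ς
    · by_cases h : s.fl D.F.γ z.2 = 0
      · simp [h]
      · simp only [indicator_of_mem hz, Pi.one_apply, one_mul, w2 z hz h, le_refl]
    · rw [indicator_of_notMem hz, zero_mul, zero_mul]
      positivity

end Pool.Agent.Lib.WD
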