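import Pool.Agent.Lib.WD.Blue

/-! Block TENL: the tensor product structure on square summable families. -/

noncomputable section

open Set Function BCO ContinuousLinearMap
open scoped InnerProductSpace

namespace Pool.Agent.Lib.WD

open CX AN

namespace TENLb

variable {G : Type} [Group G] {E F H : Type} [NormedAddCommGroup E] [InnerProductSpace ℝ E]
  [CompleteSpace E] [NormedAddCommGroup F] [InnerProductSpace ℝ F] [CompleteSpace F]
  [NormedAddCommGroup H] [InnerProductSpace ℝ H] [CompleteSpace H] {b : E →L[ℝ] F →L[ℝ] H}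

theorem tens (hb : Tens b) : Tens (lf G b) := by
  classical
  refine ⟨fun x y x' y' => ?_, ?_⟩
  · rw [lp.inner_eq_tsum, lp.inner_eq_tsum, ← tsum_mul_right]
    exact tsum_congr fun γ => hb.inner _ _ _ _
  · rw [Submodule.dense_iff_topologicalClosure_eq_top, Submodule.topologicalClosure_eq_top_iff,
      eq_bot_iff]
    intro u hu
    rw [Submodule.mem_orthogonal] at hu
    rw [Submodule.mem_bot]
    refine lp.ext (funext fun γ => ?_)
    have h2 := Submodule.topologicalClosure_eq_top_iff.1
      (Submodule.dense_iff_topologicalClosure_eq_top.1 hb.dense)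
    change u γ = 0
    rw [← Submodule.mem_bot ℝ, ← h2, Submodule.mem_orthogonal]
    intro v hv
    induction hv using Submodule.span_induction with
    | mem v hv =>
      obtain ⟨x, y, rfl⟩ := hv
      have h3 := hu _ (Submodule.subset_span ⟨lp.single 2 γ x, y, rfl⟩)
      have h4 : lf G b (lp.single 2 γ x) y = lp.single 2 γ (b x y) := by
        refine lp.ext (funext fun δ => ?_)
        rw [lf_apply]
        rcases eq_or_ne δ γ with rfl | hne
        · simp [lp.single_apply]
        · simp [lp.single_apply, Pi.single_eq_of_ne hne]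
      rwa [h4, lp.inner_single_left] at h3
    | zero => exact inner_zero_left _
    | add v w _ _ a c => rw [inner_add_left, a, c, add_zero]
    | smul c v _ a => rw [real_inner_smul_left, a, mul_zero]

end TENLb

theorem stTENLb (hT : St_TENS) : St_TENL := by
  intro G _ E F H _ _ _ _ _ _ _ _ _ b hb
  have h0 := TENLb.tens (G := G) hb
  have hA := hT _ _ _ _ hb
  have hB := hT _ _ _ _ h0
  refine ⟨h0, fun X hX => ?_, fun T => hB.ext _ _ fun x y => ?_,
    fun S => hB.ext _ _ fun x y => ?_⟩
  · obtain ⟨φ, hφ⟩ := hB.hom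
    have h1 := RR_map (LinearMap.mkContinuous
      (φ.toAlgHom.toLinearMap : (V G E →L[ℝ] V G E) →ₗ[ℝ] V G H →L[ℝ] V G H) 1 fun T => by
        rw [one_mul]; exact (congrArg norm (hφ T)).trans_le (hB.norm T)) (RR G H H) isClosed_RR
      (fun g T => ?_) hX
    · exact hφ X ▸ h1
    · have : φ (tw g T) = tw g (lt b T) := by
        rw [hφ]
        refine hB.ext _ _ fun x y => ?_
        rw [hB.lt_b]
        exact lp.ext (funext fun γ => (hA.lt_b T _ _).symm)
      exact this ▸ tw_mem g (lt b T)
  · rw [hB.lt_b]
    exact lp.ext (funext fun γ => (hA.lt_b T _ _).symm)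
  · rw [hB.rt_b]
    exact lp.ext (funext fun γ => (hA.rt_b S _ _).symm)

end Pool.Agent.Lib.WD
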